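import Pool.Agent.P.MP_b2082d_co.G.AdRep

/-! Checking a list of coded stars in pieces. -/

namespace Pool.Agent.P.MP_b2082d_co.Gen.Ad

noncomputable instance (r : ℕ × List ℕ × List ℕ) : Decidable (IsGrid r) := by
  unfold IsGrid; infer_instance

noncomputable def allR (B : ℕ × List ℕ × List ℕ → Bool) (α γ k : ℕ) (T : ℕ → ℕ) (lf : ℕ)
    (l : List (ℕ × List ℕ × List ℕ)) :
    List (List ℕ) → Bool :=
  List.rec (motive := fun _ => List (List ℕ) → Bool) (fun _ => true)
    (fun r _ ih Z => List.casesOn (motive := fun _ => Bool) Z false fun zs Z =>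
      (chkR α γ k T lf r zs || B r) && ih Z) l

variable {B : ℕ × List ℕ × List ℕ → Bool} {α γ k : ℕ} {T : ℕ → ℕ} {lf : ℕ}

theorem allR_ok : ∀ {l : List (ℕ × List ℕ × List ℕ)} {Z : List (List ℕ)},
    allR B α γ k T lf l Z = true → ∀ r ∈ l, B r = true ∨ ∃ zs, chkR α γ k T lf r zs = true
  | [], _, _, _, h => absurd h List.not_mem_nil
  | _ :: _, [], h, _, _ => absurd h Bool.false_ne_true
  | q :: l, zs :: Z, h, r, hr => by
    have h' : ((chkR α γ k T lf q zs || B q) && allR B α γ k T lf l Z) = true := h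
    rw [Bool.and_eq_true, Bool.or_eq_true] at h'
    rcases List.mem_cons.1 hr with rfl | a
    exacts [h'.1.symm.imp_right fun b => ⟨zs, b⟩, allR_ok h'.2 r a]

theorem all_step {l : List (ℕ × List ℕ × List ℕ)} {a n b : ℕ} {Z : List (List ℕ)}
    (h : allR B α γ k T lf ((l.drop a).take n) Z = true) (e : a + n = b)
    (h2 : ∀ r ∈ l.drop b, B r = true ∨ ∃ zs, chkR α γ k T lf r zs = true) :
    ∀ r ∈ l.drop a, B r = true ∨ ∃ zs, chkR α γ k T lf r zs = true := fun r hr => by
  rw [← List.take_append_drop n (l.drop a), List.mem_append, List.drop_drop, e] at hr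
  exact hr.elim (allR_ok h r) (h2 r)

theorem all_end {l : List (ℕ × List ℕ × List ℕ)} {n : ℕ} (h : l.length ≤ n)
    {P : ℕ × List ℕ × List ℕ → Prop} : ∀ r ∈ l.drop n, P r := fun r hr => by
  rw [List.drop_of_length_le h] at hr
  exact absurd hr List.not_mem_nil

end Pool.Agent.P.MP_b2082d_co.Gen.Ad
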