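import Pool.Agent.P.MP_b2082d_co.G.Thin

/-! The adaptive first stage: the computation for one star. -/

namespace Pool.Agent.P.MP_b2082d_co.Gen.Ad

/-- `c` colours whose class consists of mates with the masks `ks`, `U` is the union. -/
structure En where
  U : ℕ
  c : ℕ
  ks : List ℕ

/-- an entry with its certificate. -/
structure De where
  e : En
  x : ℕ
  y0 : ℕ
  y1 : ℕ
  y2 : ℕ
  y3 : ℕ

/-- evaluate a number before it is used. -/
noncomputable def frc {β : Type} (n : ℕ) (f : ℕ → β) : β :=
  Nat.rec (motive := fun _ => β) (f 0) (fun k _ => f (Nat.succ k)) n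

theorem frc_eq {β : Type} (n : ℕ) (f : ℕ → β) : frc n f = f n := by cases n <;> rfl

noncomputable def addE (U c : ℕ) (ks : List ℕ) (r : List En) : List En :=
  Nat.rec (motive := fun _ => List En) r (fun k _ => frc U fun V => ⟨V, Nat.succ k, ks⟩ :: r) c

/-- all ways to put `n` mates of mask `m` into different colours. -/
noncomputable def split (m : ℕ) (l : List En) : ℕ → List (List En) :=
  List.rec (motive := fun _ => ℕ → List (List En)) (fun n => bif Nat.beq n 0 then [[]] else [])
    (fun e _ ih n => bif Nat.beq (Nat.land m e.U) 0 then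
      (List.range (Nat.succ (min e.c n))).flatMap fun j => (ih (Nat.sub n j)).map fun r =>
        addE (Nat.lor m e.U) j (m :: e.ks) (addE e.U (Nat.sub e.c j) e.ks r)
    else (ih n).map (e :: ·)) l

/-- all colour patterns of a star with the given masks and multiplicities. -/
noncomputable def pats (ms : List (ℕ × ℕ)) : List (List En) :=
  List.rec (motive := fun _ => List (List En)) [[⟨0, 11, []⟩]]
    (fun x _ ih => ih.flatMap fun a => split x.1 a x.2) ms

/-- the price table. -/
def tab (G U : ℕ) : ℕ := Nat.land (Nat.shiftRight G (Nat.mul 20 (Nat.land U 15))) 1048575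

def bit (s i : ℕ) : ℕ := Nat.land (Nat.shiftRight s i) 1

def ys (b : De) (s : ℕ) : ℕ :=
  Nat.add (Nat.add (Nat.mul (bit s 0) b.y0) (Nat.mul (bit s 1) b.y1))
    (Nat.add (Nat.mul (bit s 2) b.y2) (Nat.mul (bit s 3) b.y3))

/-- the best reply of the mates in one colour class; `V` is killed by the first class. -/
noncomputable def phi2 (α γ : ℕ) (b : De) (V U : ℕ) (ks : List ℕ) : (ℕ → ℕ) → ℕ :=
  List.rec (motive := fun _ => (ℕ → ℕ) → ℕ) (fun F => F U)
    (fun m _ ih F => frc (ih fun W => Nat.succ (Nat.div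
        (Nat.add (Nat.mul γ (F W)) (Nat.mul α (F (Nat.lor W m)))) (Nat.add α γ))) fun A =>
      Nat.add A (Nat.sub (Nat.add (ih fun W => F (Nat.lor W m))
        (ys b (Nat.xor (Nat.lor m V) V))) A)) ks

noncomputable def phi (α γ G : ℕ) (b : De) (V : ℕ) (ks : List ℕ) (U : ℕ) : ℕ :=
  phi2 α γ b V U ks (tab G)

noncomputable def sm (f : De → ℕ) (L : List De) : ℕ :=
  List.rec (motive := fun _ => ℕ) 0 (fun a _ ih => Nat.add (Nat.mul a.e.c (f a)) ih) L

def dig (s : ℕ) : ℕ := Nat.succ (Nat.mul s 1048575)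

/-- reading the certificate. -/
noncomputable def dec {β : Type} (l : List En) : ℕ → (List De → β) → β :=
  List.rec (motive := fun _ => ℕ → (List De → β) → β) (fun _ f => f [])
    (fun e _ ih z f => frc (Nat.land z 1048575) fun x => frc (Nat.shiftRight z 20) fun z0 =>
      frc (Nat.mod z0 (dig (bit e.U 0))) fun y0 => frc (Nat.div z0 (dig (bit e.U 0))) fun z1 =>
      frc (Nat.mod z1 (dig (bit e.U 1))) fun y1 => frc (Nat.div z1 (dig (bit e.U 1))) fun z2 =>
      frc (Nat.mod z2 (dig (bit e.U 2))) fun y2 => frc (Nat.div z2 (dig (bit e.U 2))) fun z3 =>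
      frc (Nat.mod z3 (dig (bit e.U 3))) fun y3 =>
      ih (Nat.div z3 (dig (bit e.U 3))) fun L => f (⟨e, x, y0, y1, y2, y3⟩ :: L)) l

/-- the demand of edge `i` on the centre is met. -/
noncomputable def dem (k i : ℕ) (L : List De) : Bool :=
  Nat.ble (Nat.mul k 1000000) (sm (fun a => Nat.mul a.x (Nat.sub 1 (bit a.e.U i))) L)

/-- the row of one pattern. -/
noncomputable def row (α γ k d G l : ℕ) (L : List De) : Bool :=
  L.all (fun a => Nat.ble a.x 1000000) && (List.range d).all (fun i => dem k i L) &&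
  Nat.ble
    (Nat.add (Nat.mul (Nat.mul (Nat.add α γ) 1000000)
        (Nat.add 11000000 (sm (fun b => sm (fun a => phi α γ G b a.e.U b.e.ks a.e.U) L) L)))
      (sm (fun a => Nat.add (Nat.mul (Nat.add (Nat.mul α 1000000) (Nat.mul γ a.x)) 1000000)
        (Nat.mul (Nat.mul γ (Nat.sub 1000000 a.x)) (tab G a.e.U))) L))
    (Nat.mul (Nat.mul (Nat.add α γ) 1000000) (Nat.add (Nat.mul 132 l)
      (sm (fun b => Nat.add (phi α γ G b b.e.U b.e.ks b.e.U) (Nat.mul k (ys b b.e.U))) L)))

noncomputable def all2 (f : List En → ℕ → Bool) (P : List (List En)) : List ℕ → Bool :=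
  List.rec (motive := fun _ => List ℕ → Bool) (fun _ => true)
    (fun p _ ih zs => List.casesOn (motive := fun _ => Bool) zs false fun z zs => f p z && ih zs) P

/-- the check for one star. -/
noncomputable def chk (α γ k d G l : ℕ) (ms : List (ℕ × ℕ)) (zs : List ℕ) : Bool :=
  all2 (fun p z => dec p z (row α γ k d G l)) (pats ms) zs

end Pool.Agent.P.MP_b2082d_co.Gen.Ad
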