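import Pool.Agent.P.MP_b2082d_co.G.AdDefs

/-! The adaptive first stage: the list of colour patterns is complete. -/

namespace Pool.Agent.P.MP_b2082d_co.Gen.Ad
open Finset

/-- the union of a list of masks. -/
def orL : List ℕ → ℕ
  | [] => 0
  | m :: l => m ||| orL l

/-- the list of entries describes the classes `f a` of the colours in `A`. -/
def Rep (f : Fin 12 → List ℕ) : List En → Finset (Fin 12) → Prop
  | [], A => A = ∅
  | e :: l, A => ∃ B ⊆ A, B.card = e.c ∧ e.U = orL e.ks ∧ (∀ a ∈ B, f a = e.ks) ∧ Rep f l (A \ B)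

theorem Rep.congr {f g : Fin 12 → List ℕ} : ∀ {l : List En} {A : Finset (Fin 12)},
    Rep f l A → (∀ a ∈ A, f a = g a) → Rep g l A
  | [], _, h, _ => h
  | _ :: _, _, ⟨B, h1, h2, h3, h4, h5⟩, hg =>
    ⟨B, h1, h2, h3, fun a ha => (hg a (h1 ha)).symm.trans (h4 a ha),
      h5.congr fun a ha => hg a (mem_sdiff.1 ha).1⟩

theorem rep_add {f : Fin 12 → List ℕ} {r : List En} {A B : Finset (Fin 12)} {U c : ℕ}
    {ks : List ℕ} (h1 : B ⊆ A) (h2 : B.card = c) (h3 : U = orL ks) (h4 : ∀ a ∈ B, f a = ks)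
    (h5 : Rep f r (A \ B)) : Rep f (addE U c ks r) A := by
  cases c with
  | zero =>
    rw [card_eq_zero.1 h2, sdiff_empty] at h5
    exact h5
  | succ c =>
    show Rep f (frc U fun V => ⟨V, Nat.succ c, ks⟩ :: r) A
    rw [frc_eq]
    exact ⟨B, h1, h2, h3, h4, h5⟩

theorem split_nil (m n : ℕ) : split m [] n = bif Nat.beq n 0 then [[]] else [] := rfl

theorem split_cons (m n : ℕ) (e : En) (l : List En) : split m (e :: l) n =
    bif Nat.beq (m &&& e.U) 0 then
      (List.range (min e.c n + 1)).flatMap fun j => (split m l (n - j)).map fun r =>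
        addE (m ||| e.U) j (m :: e.ks) (addE e.U (e.c - j) e.ks r)
    else (split m l n).map (e :: ·) := rfl

theorem split_ok (f : Fin 12 → List ℕ) (m : ℕ) (P : Fin 12 → Prop) [DecidablePred P] :
    ∀ (l : List En) (A : Finset (Fin 12)), Rep f l A → (∀ a ∈ A, P a → m &&& orL (f a) = 0) →
      ∃ r ∈ split m l (A.filter P).card, Rep (fun a => if P a then m :: f a else f a) r A
  | [], A, h, _ => by
    obtain rfl : A = ∅ := h
    exact ⟨[], by simp [split_nil], rfl⟩
  | e :: l, A, ⟨B, h1, h2, h3, h4, h5⟩, hP => by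
    obtain ⟨r, r1, r2⟩ := split_ok f m P l _ h5 fun a ha => hP a (mem_sdiff.1 ha).1
    have c1 : (A.filter P).card = (B.filter P).card + ((A \ B).filter P).card := by
      rw [← card_union_of_disjoint (disjoint_filter_filter disjoint_sdiff), ← filter_union,
        union_sdiff_of_subset h1]
    rw [split_cons]
    by_cases a : m &&& e.U = 0
    · rw [a, show Nat.beq 0 0 = true from rfl, cond_true]
      refine ⟨_, List.mem_flatMap.2 ⟨(B.filter P).card, List.mem_range.2 (Nat.lt_succ_of_le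
        (le_min (h2 ▸ card_filter_le _ _) (by omega))), List.mem_map.2 ⟨r, ?_, rfl⟩⟩, ?_⟩
      · rwa [c1, Nat.add_sub_cancel_left]
      · refine rep_add (B := B.filter P) ((filter_subset _ _).trans h1) rfl (by rw [h3]; rfl)
          (fun x hx => by rw [if_pos (mem_filter.1 hx).2, h4 x (mem_filter.1 hx).1]) ?_
        refine rep_add (B := B.filter fun x => ¬ P x) (fun x hx => ?_) ?_ h3
          (fun x hx => by rw [if_neg (mem_filter.1 hx).2, h4 x (mem_filter.1 hx).1]) ?_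
        · exact mem_sdiff.2 ⟨h1 (mem_filter.1 hx).1, fun b => (mem_filter.1 hx).2 (mem_filter.1 b).2⟩
        · have := card_filter_add_card_filter_not (s := B) P
          omega
        · rwa [sdiff_sdiff_left, sup_eq_union, filter_union_filter_not_eq]
    · have b : ∀ x ∈ B, ¬ P x := fun x hx c => a (by rw [h3, ← h4 x hx]; exact hP x (h1 hx) c)
      rw [show Nat.beq (m &&& e.U) 0 = false from Bool.eq_false_iff.2 fun c => a (Nat.eq_of_beq_eq_true c),
        cond_false, c1, filter_eq_empty_iff.2 b, card_empty, zero_add]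
      exact ⟨_, List.mem_map.2 ⟨r, r1, rfl⟩, B, h1, h2, h3,
        fun x hx => (if_neg (b x hx)).trans (h4 x hx), r2⟩

theorem and_orL {m : ℕ} : ∀ {l : List ℕ}, (∀ x ∈ l, m &&& x = 0) → m &&& orL l = 0
  | [], _ => Nat.and_zero m
  | x :: l, h => by
    rw [orL, Nat.and_or_distrib_left, h x List.mem_cons_self,
      and_orL fun y hy => h y (List.mem_cons_of_mem _ hy), Nat.or_zero]

theorem pats_ok (P : Fin 12 → ℕ → Prop) [∀ a, DecidablePred (P a)] (A : Finset (Fin 12))
    (hA : A.card = 11) (hP : ∀ a ∈ A, ∀ m n, P a m → P a n → m ≠ n → m &&& n = 0) :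
    ∀ ms : List (ℕ × ℕ), (ms.map Prod.fst).Nodup →
      (∀ x ∈ ms, (A.filter fun a => P a x.1).card = x.2) →
      ∃ r ∈ pats ms, Rep (fun a => (ms.map Prod.fst).filter fun m => P a m) r A
  | [], _, _ => ⟨_, List.mem_singleton_self _, A, Subset.rfl, hA, rfl, fun _ _ => rfl,
      Finset.sdiff_self A⟩
  | x :: ms, h1, h2 => by
    rw [List.map_cons, List.nodup_cons] at h1
    obtain ⟨r, r1, r2⟩ := pats_ok P A hA hP ms h1.2 fun y hy => h2 y (List.mem_cons_of_mem _ hy)
    obtain ⟨s, s1, s2⟩ := split_ok _ x.1 (fun a => P a x.1) r A r2 fun a ha b =>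
      and_orL fun y hy => hP a ha _ _ b (by simpa using (List.mem_filter.1 hy).2)
        fun c => h1.1 (c ▸ (List.mem_filter.1 hy).1)
    rw [h2 x List.mem_cons_self] at s1
    refine ⟨s, List.mem_flatMap.2 ⟨r, r1, s1⟩, s2.congr fun a _ => ?_⟩
    rw [List.map_cons, List.filter_cons]
    simp only [decide_eq_true_eq]

theorem dec_ok {β : Type} : ∀ (l : List En) (z : ℕ) (f : List De → β),
    ∃ L : List De, L.map De.e = l ∧ dec l z f = f L
  | [], _, _ => ⟨[], rfl, rfl⟩
  | e :: l, z, f => by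
    have h : ∃ x y0 y1 y2 y3 w, dec (e :: l) z f =
        dec l w fun L => f (⟨e, x, y0, y1, y2, y3⟩ :: L) := by
      unfold dec
      simp only [frc_eq]
      exact ⟨_, _, _, _, _, _, rfl⟩
    obtain ⟨x, y0, y1, y2, y3, w, h⟩ := h
    obtain ⟨L, a, b⟩ := dec_ok l w fun L => f (⟨e, x, y0, y1, y2, y3⟩ :: L)
    exact ⟨_ :: L, by rw [List.map_cons, a], h.trans b⟩

theorem all2_ok {f : List En → ℕ → Bool} : ∀ {P : List (List En)} {zs : List ℕ},
    all2 f P zs = true → ∀ p ∈ P, ∃ z, f p z = true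
  | [], _, _, _, h => absurd h List.not_mem_nil
  | _ :: _, [], h, _, _ => absurd h Bool.false_ne_true
  | q :: P, z :: zs, h, p, hp => by
    have h' : (f q z && all2 f P zs) = true := h
    rw [Bool.and_eq_true] at h'
    rcases List.mem_cons.1 hp with rfl | a
    exacts [⟨z, h'.1⟩, all2_ok h'.2 p a]

theorem rep_lift {f : Fin 12 → List ℕ} : ∀ (L : List De) (A : Finset (Fin 12)),
    Rep f (L.map De.e) A → ∃ σ : Fin 12 → De, (∀ a ∈ A, σ a ∈ L ∧ (σ a).e.ks = f a ∧
      (σ a).e.U = orL (f a)) ∧ ∀ F : De → ℕ, sm F L = ∑ a ∈ A, F (σ a)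
  | [], A, h => by
    obtain rfl : A = ∅ := h
    exact ⟨fun _ => ⟨⟨0, 0, []⟩, 0, 0, 0, 0, 0⟩, by simp, fun _ => rfl⟩
  | e :: L, A, ⟨B, h1, h2, h3, h4, h5⟩ => by
    obtain ⟨σ, s1, s2⟩ := rep_lift L _ h5
    refine ⟨fun a => if a ∈ B then e else σ a, fun a ha => ?_, fun F => ?_⟩
    · by_cases b : a ∈ B
      · simp only [if_pos b]
        exact ⟨List.mem_cons_self, (h4 a b).symm, by rw [h4 a b, h3]⟩
      · simp only [if_neg b]
        have := s1 a (mem_sdiff.2 ⟨ha, b⟩)
        exact ⟨List.mem_cons_of_mem _ this.1, this.2⟩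
    · show e.e.c * F e + sm F L = _
      rw [← sum_sdiff h1, s2, add_comm, ← h2, ← smul_eq_mul, ← sum_const]
      exact congrArg₂ _ (sum_congr rfl fun a ha => by simp only [if_neg (mem_sdiff.1 ha).2])
        (sum_congr rfl fun a ha => by simp only [if_pos ha])

/-- a successful check gives a certificate for the actual colouring. -/
theorem chk_ok {α γ k d G l : ℕ} {ms : List (ℕ × ℕ)} {zs : List ℕ}
    (h : chk α γ k d G l ms zs = true) (P : Fin 12 → ℕ → Prop) [∀ a, DecidablePred (P a)]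
    (A : Finset (Fin 12)) (hA : A.card = 11)
    (hP : ∀ a ∈ A, ∀ m n, P a m → P a n → m ≠ n → m &&& n = 0) (h1 : (ms.map Prod.fst).Nodup)
    (h2 : ∀ x ∈ ms, (A.filter fun a => P a x.1).card = x.2) :
    ∃ (L : List De) (σ : Fin 12 → De), row α γ k d G l L = true ∧
      (∀ a ∈ A, σ a ∈ L ∧ (σ a).e.ks = (ms.map Prod.fst).filter (fun m => P a m) ∧
        (σ a).e.U = orL (σ a).e.ks) ∧ ∀ F : De → ℕ, sm F L = ∑ a ∈ A, F (σ a) := by
  obtain ⟨r, r1, r2⟩ := pats_ok P A hA hP ms h1 h2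
  obtain ⟨z, hz⟩ := all2_ok h r r1
  obtain ⟨L, rfl, b⟩ := dec_ok r z (row α γ k d G l)
  obtain ⟨σ, s1, s2⟩ := rep_lift L A r2
  exact ⟨L, σ, b ▸ hz, fun a ha => ⟨(s1 a ha).1, (s1 a ha).2.1, by
    rw [(s1 a ha).2.2, (s1 a ha).2.1]⟩, s2⟩

end Pool.Agent.P.MP_b2082d_co.Gen.Ad
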