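import Pool.Agent.P.MP_b2082d_co.G.T05

/-! A computable code for families of at most four edges. -/

namespace Pool.Agent.P.MP_b2082d_co.Gen
open Finset

/-- two edges of a triangle `AB`, `BC`, `CA` on three pairs. -/
def flag (R : Hg) (e f : Finset ℕ) : Prop := e ≠ f ∧ (e ∩ f).card = 2 ∧ e \ f ∪ f \ e ∈ R

instance (R : Hg) (e f : Finset ℕ) : Decidable (flag R e f) := by unfold flag; infer_instance

/-- a number that determines the shape of the family `S` with its flags in `R`. -/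
def sig (R S : Hg) : ℕ := ∑ u ∈ vs S, (∑ e ∈ S, if u ∈ e then
  ∑ f ∈ S, ((e ∩ f).card + if flag R e f then 3 else 0) ^ 2 else 0) ^ 3

/-- the slots that contain `u`. -/
def msk (E : Fin 4 → Finset ℕ) (u : ℕ) : ℕ := (if u ∈ E 0 then 1 else 0) +
  (if u ∈ E 1 then 2 else 0) + (if u ∈ E 2 then 4 else 0) + (if u ∈ E 3 then 8 else 0)

/-- `E` puts the edges of `S` in four slots (free slots are empty), `L` lists the vertices. -/
structure Lab (S : Hg) (E : Fin 4 → Finset ℕ) (L : List ℕ) : Prop where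
  mem : ∀ e, e ∈ S ↔ e ≠ ∅ ∧ ∃ i, E i = e
  inj : ∀ i j, E i = E j → E i = ∅ ∨ i = j
  nd : L.Nodup
  cov : ∀ i, ∀ u ∈ E i, u ∈ L

/-- the mask of two slots. -/
def pm (i j : Fin 4) : ℕ := 2 ^ i.val ||| 2 ^ j.val

/-- `F` lists the masks of the flagged pairs of slots. -/
def Flags (R : Hg) (E : Fin 4 → Finset ℕ) (F : List ℕ) : Prop :=
  ∀ i j, pm i j ∈ F ↔ flag R (E i) (E j)

/-- the number of masks that contain `p`. -/
noncomputable def cn (M : List ℕ) (p : ℕ) : ℕ :=
  List.rec 0 (fun x _ r => cond (Nat.beq (Nat.land x p) p) (Nat.succ r) r) M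

noncomputable def has (F : List ℕ) (p : ℕ) : Bool :=
  List.rec false (fun x _ r => cond (Nat.beq x p) true r) F

noncomputable def wq (M F : List ℕ) (p : ℕ) : ℕ :=
  Nat.pow (Nat.add (cn M p) (cond (has F p) 3 0)) 2

noncomputable def sg4 (a b c d : ℕ) (M : List ℕ) : ℕ :=
  List.rec 0 (fun x _ r => Nat.add (Nat.pow (Nat.add (Nat.add (Nat.add
    (cond (Nat.beq (Nat.land x 1) 1) a 0) (cond (Nat.beq (Nat.land x 2) 2) b 0))
    (cond (Nat.beq (Nat.land x 4) 4) c 0)) (cond (Nat.beq (Nat.land x 8) 8) d 0)) 3) r) M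

/-- the signature computed from the masks and the flags. -/
noncomputable def sigc (M F : List ℕ) : ℕ :=
  sg4 (wq M F 1 + wq M F 3 + wq M F 5 + wq M F 9) (wq M F 3 + wq M F 2 + wq M F 6 + wq M F 10)
    (wq M F 5 + wq M F 6 + wq M F 4 + wq M F 12) (wq M F 9 + wq M F 10 + wq M F 12 + wq M F 8) M

theorem msk_lt (E : Fin 4 → Finset ℕ) (u : ℕ) : msk E u < 16 := by
  unfold msk; split_ifs <;> norm_num

theorem msk_bit (E : Fin 4 → Finset ℕ) (u : ℕ) (i : Fin 4) :
    (msk E u).testBit i = decide (u ∈ E i) := by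
  unfold msk
  fin_cases i <;> split_ifs <;> simp_all <;> decide

theorem msk_eq {E : Fin 4 → Finset ℕ} {u m : ℕ} (hm : m < 16)
    (h : ∀ i : Fin 4, m.testBit i = true ↔ u ∈ E i) : msk E u = m := by
  have k : ∀ x < 16, ∀ y < 16, (∀ i : Fin 4, x.testBit i = y.testBit i) → x = y := by decide
  exact k _ (msk_lt E u) m hm fun i => by rw [msk_bit, Bool.eq_iff_iff, h, decide_eq_true_iff]

theorem msk_pm (E : Fin 4 → Finset ℕ) (u : ℕ) (i j : Fin 4) :
    msk E u &&& pm i j = pm i j ↔ u ∈ E i ∧ u ∈ E j := by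
  have k : ∀ x < 16, ∀ i j : Fin 4, x &&& pm i j = pm i j ↔
      x.testBit i = true ∧ x.testBit j = true := by decide
  rw [k _ (msk_lt E u), msk_bit, msk_bit, decide_eq_true_iff, decide_eq_true_iff]

theorem cn_eq (M : List ℕ) (p : ℕ) : cn M p = M.countP fun x => decide (x &&& p = p) := by
  induction M with
  | nil => rfl
  | cons x M ih =>
    change cond (Nat.beq (x &&& p) p) (cn M p + 1) (cn M p) = _
    rw [List.countP_cons, ih]
    by_cases a : x &&& p = p
    · rw [Nat.beq_eq.mpr a, if_pos (decide_eq_true a)]; rfl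
    · rw [Bool.eq_false_iff.2 fun b => a (Nat.eq_of_beq_eq_true b), if_neg (by simpa using a)]; rfl

theorem has_iff {F : List ℕ} {p : ℕ} : has F p = true ↔ p ∈ F := by
  induction F with
  | nil => simp [has]
  | cons x F ih =>
    change cond (Nat.beq x p) true (has F p) = true ↔ _
    rw [List.mem_cons, ← ih]
    by_cases a : x = p
    · simp [a]
    · rw [Bool.eq_false_iff.2 fun b => a (Nat.eq_of_beq_eq_true b)]
      simp [Ne.symm a]

theorem card_eq_countP {L : List ℕ} (h : L.Nodup) {A : Finset ℕ} (P : ℕ → Bool)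
    (hA : ∀ u, u ∈ A ↔ u ∈ L ∧ P u = true) : A.card = L.countP P := by
  rw [List.countP_eq_length_filter, ← List.toFinset_card_of_nodup (h.filter _)]
  congr 1
  ext u
  simp [hA]

namespace Lab
variable {S R : Hg} {E : Fin 4 → Finset ℕ} {L F : List ℕ} (h : Lab S E L)
include h

theorem slot {i : Fin 4} (a : E i ≠ ∅) : E i ∈ S := (h.mem _).2 ⟨a, i, rfl⟩

theorem sum (G : Finset ℕ → ℕ) (h0 : G ∅ = 0) :
    ∑ e ∈ S, G e = G (E 0) + G (E 1) + G (E 2) + G (E 3) := by
  have a : S = (univ.filter fun i => E i ≠ ∅).image E := by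
    ext e
    simp only [h.mem, mem_image, mem_filter, mem_univ, true_and]
    exact ⟨fun ⟨a, i, b⟩ => ⟨i, b ▸ a, b⟩, fun ⟨i, a, b⟩ => ⟨b ▸ a, i, b⟩⟩
  rw [a, sum_image fun i hi j _ b => (h.inj i j b).resolve_left (mem_filter.1 hi).2, sum_filter,
    sum_congr rfl (g := fun i => G (E i)) fun i _ => ?_, Fin.sum_univ_four]
  by_cases b : E i = ∅ <;> simp [b, h0]

theorem inter (i j : Fin 4) : (E i ∩ E j).card = cn (L.map (msk E)) (pm i j) := by
  rw [cn_eq, List.countP_map]
  refine card_eq_countP h.nd _ fun u => ?_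
  simp only [Function.comp, decide_eq_true_iff, msk_pm, mem_inter]
  exact ⟨fun a => ⟨h.cov i u a.1, a⟩, fun a => a.2⟩

theorem deg (u : ℕ) : (star S u).card = (univ.filter fun i : Fin 4 => (msk E u).testBit i).card := by
  symm
  refine card_bij (fun i _ => E i) (fun i hi => ?_) (fun i hi j _ a => ?_) fun e he => ?_
  · have a : u ∈ E i := by simpa [msk_bit] using hi
    exact mem_star.2 ⟨h.slot (ne_empty_of_mem a), a⟩
  · exact (h.inj i j a).resolve_left (ne_empty_of_mem (by simpa [msk_bit] using hi))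
  · obtain ⟨-, i, rfl⟩ := (h.mem e).1 (mem_star.1 he).1
    exact ⟨i, by simpa [msk_bit] using (mem_star.1 he).2, rfl⟩

theorem sig_eq (hF : Flags R E F) : sig R S = sigc (L.map (msk E)) F := by
  have a : ∀ i j, ((E i ∩ E j).card + if flag R (E i) (E j) then 3 else 0) ^ 2 =
      wq (L.map (msk E)) F (pm i j) := fun i j => by
    rw [h.inter]
    change _ = (_ + cond (has F (pm i j)) 3 0) ^ 2
    by_cases b : flag R (E i) (E j)
    · rw [if_pos b, has_iff.2 ((hF i j).2 b)]; rfl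
    · rw [if_neg b, Bool.eq_false_iff.2 fun c => b ((hF i j).1 (has_iff.1 c))]; rfl
  have b : ∀ (x y z w : ℕ) (K : List ℕ), sg4 x y z w (K.map (msk E)) = (K.map fun u =>
      ((if u ∈ E 0 then x else 0) + (if u ∈ E 1 then y else 0) + (if u ∈ E 2 then z else 0) +
        if u ∈ E 3 then w else 0) ^ 3).sum := fun x y z w K => by
    induction K with
    | nil => rfl
    | cons u K ih =>
      have c : ∀ (i : Fin 4) (t : ℕ), cond (Nat.beq (msk E u &&& pm i i) (pm i i)) t 0 =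
          if u ∈ E i then t else 0 := fun i t => by
        by_cases d : u ∈ E i
        · rw [if_pos d, Nat.beq_eq.mpr ((msk_pm E u i i).2 ⟨d, d⟩)]; rfl
        · rw [if_neg d, Bool.eq_false_iff.2 fun b =>
            d ((msk_pm E u i i).1 (Nat.eq_of_beq_eq_true b)).1]; rfl
      rw [List.map_cons, List.map_cons, List.sum_cons, ← ih, ← c 0, ← c 1, ← c 2, ← c 3]
      rfl
  have c : ∀ e : Finset ℕ, ∑ f ∈ S, ((e ∩ f).card + if flag R e f then 3 else 0) ^ 2 = _ :=
    fun e => h.sum _ (by simp [flag])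
  rw [sigc, b, ← List.sum_toFinset _ h.nd, sig]
  have d : vs S ⊆ L.toFinset := fun u hu => by
    obtain ⟨e, e1, e2⟩ := mem_vs.1 hu
    obtain ⟨-, i, rfl⟩ := (h.mem e).1 e1
    exact List.mem_toFinset.2 (h.cov i u e2)
  rw [sum_subset d fun u _ hu => ?_]
  · refine sum_congr rfl fun u _ => ?_
    rw [h.sum _ (by simp)]
    simp only [c, a]
    rfl
  · rw [sum_eq_zero fun e he => if_neg fun a => hu (mem_vs.2 ⟨e, he, a⟩)]
    rfl

theorem perm {K : List ℕ} (a : K.Perm L) : Lab S E K :=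
  ⟨h.mem, h.inj, a.nodup_iff.2 h.nd, fun i u b => a.mem_iff.2 (h.cov i u b)⟩

theorem comp {σ : Fin 4 → Fin 4} (a : Function.Bijective σ) : Lab S (E ∘ σ) L :=
  ⟨fun e => (h.mem e).trans (and_congr_right fun _ => a.2.exists),
    fun _ _ b => (h.inj _ _ b).imp_right fun c => a.1 c, h.nd, fun _ => h.cov _⟩

end Lab

/-- keep the slots of the mask `k`. -/
def cut (E : Fin 4 → Finset ℕ) (k : ℕ) (i : Fin 4) : Finset ℕ := if k.testBit i then E i else ∅

theorem msk_cut (E : Fin 4 → Finset ℕ) (k u : ℕ) : msk (cut E k) u = msk E u &&& k :=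
  msk_eq (Nat.and_le_left.trans_lt (msk_lt E u)) fun i => by
    rw [Nat.testBit_and, msk_bit, cut]
    split_ifs with a <;> simp [a]

theorem map_cut (E : Fin 4 → Finset ℕ) (k : ℕ) (L : List ℕ) :
    L.map (msk (cut E k)) = (L.map (msk E)).map (Nat.land · k) := by
  rw [List.map_map]
  exact List.map_congr_left fun u _ => msk_cut E k u

theorem cut_eq {E : Fin 4 → Finset ℕ} {k : ℕ} {i : Fin 4} (h : cut E k i ≠ ∅) :
    k.testBit i = true ∧ cut E k i = E i := by
  unfold cut at h ⊢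
  split_ifs at h ⊢ with a
  exacts [⟨a, rfl⟩, absurd rfl h]

theorem Lab.cut {S S' : Hg} {E : Fin 4 → Finset ℕ} {L : List ℕ} (h : Lab S E L) (k : ℕ)
    (h1 : S' ⊆ S) (h2 : ∀ i, E i ≠ ∅ → (E i ∈ S' ↔ k.testBit i = true)) : Lab S' (cut E k) L := by
  refine ⟨fun e => ⟨fun a => ?_, ?_⟩, fun i j a => ?_, h.nd, fun i u a => ?_⟩
  · obtain ⟨b, i, rfl⟩ := (h.mem e).1 (h1 a)
    exact ⟨b, i, if_pos ((h2 i b).1 a)⟩
  · rintro ⟨a, i, rfl⟩
    have b := cut_eq a
    rw [b.2] at a ⊢
    exact (h2 i a).2 b.1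
  · by_cases b : Gen.cut E k i = ∅
    · exact .inl b
    · have c := (cut_eq b).2
      have d := (cut_eq (i := j) fun z => b (a.trans z)).2
      rw [c, d] at a
      exact .inr ((h.inj i j a).resolve_left fun z => b (c.trans z))
  · exact h.cov i u ((cut_eq (ne_empty_of_mem a)).2 ▸ a)

theorem flag.ne {R : Hg} {e f : Finset ℕ} (h : flag R e f) : e ≠ ∅ ∧ f ≠ ∅ := by
  constructor <;> rintro rfl <;> simpa using h.2.1

/-- the flags that survive in `R'` are those with `P`. -/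
theorem Flags.cut {R R' : Hg} {E : Fin 4 → Finset ℕ} {F : List ℕ} (h : Flags R E F) (k : ℕ)
    (P : ℕ → Bool) (h1 : ∀ i j, k.testBit i.val = true → k.testBit j.val = true →
      flag R' (E i) (E j) → flag R (E i) (E j))
    (h2 : ∀ i j, flag R (E i) (E j) → (P (pm i j) = true ↔ k.testBit i.val = true ∧
      k.testBit j.val = true ∧ E i \ E j ∪ E j \ E i ∈ R')) :
    Flags R' (cut E k) (F.filter P) := fun i j => by
  rw [List.mem_filter, h i j]
  refine ⟨fun a => ?_, fun a => ?_⟩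
  · obtain ⟨b, c, d⟩ := (h2 i j a.1).1 a.2
    rw [Gen.cut, Gen.cut, if_pos b, if_pos c]
    exact ⟨a.1.1, a.1.2.1, d⟩
  · obtain ⟨b, c⟩ := cut_eq a.ne.1
    obtain ⟨d, e⟩ := cut_eq a.ne.2
    rw [c, e] at a
    exact ⟨h1 i j b d a, (h2 i j (h1 i j b d a)).2 ⟨b, d, a.2.2⟩⟩

theorem pm_and (k : ℕ) (i j : Fin 4) : pm i j &&& k = pm i j ↔
    k.testBit i = true ∧ k.testBit j = true := by
  have a : ∀ x < 16, ∀ i j : Fin 4, pm i j &&& x = pm i j ↔
      x.testBit i = true ∧ x.testBit j = true := by decide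
  have b : ∀ i j : Fin 4, pm i j &&& (2 ^ 4 - 1) = pm i j := by decide
  rw [← b i j, Nat.and_assoc, b, Nat.and_comm _ k, Nat.and_two_pow_sub_one_eq_mod,
    a (k % 2 ^ 4) (Nat.mod_lt _ (by norm_num)), Nat.testBit_mod_two_pow, Nat.testBit_mod_two_pow]
  simp

/-- buying a set `X`: `k` is the mask of the slots missed by `X`. -/
theorem Lab.buy {R : Hg} {v : ℕ} {E : Fin 4 → Finset ℕ} {L F : List ℕ} (h : Lab (star R v) E L)
    (hF : Flags R E F) {X : Finset ℕ} {k : ℕ}
    (hk : ∀ i, E i ≠ ∅ → (k.testBit i.val = true ↔ Disjoint X (E i))) :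
    Lab (star (res R X) v) (Gen.cut E k) L ∧
      Flags (res R X) (Gen.cut E k) (F.filter fun p => Nat.beq (Nat.land p k) p) := by
  refine ⟨h.cut k (filter_subset_filter _ (res_subset _ _)) fun i a => ?_,
    hF.cut k _ (fun i j _ _ a => ⟨a.1, a.2.1, res_subset _ _ a.2.2⟩) fun i j a => ?_⟩
  · rw [mem_star, mem_res, hk i a]
    exact ⟨fun b => b.1.2, fun b => ⟨⟨(mem_star.1 (h.slot a)).1, b⟩, (mem_star.1 (h.slot a)).2⟩⟩
  · rw [Nat.beq_eq]
    refine (pm_and k i j).trans ⟨fun b => ⟨b.1, b.2, mem_res.2 ⟨a.2.2, disjoint_union_right.2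
      ⟨((hk i a.ne.1).1 b.1).mono_right sdiff_subset,
        ((hk j a.ne.2).1 b.2).mono_right sdiff_subset⟩⟩⟩, fun b => ⟨b.1, b.2.1⟩⟩

theorem msk_update {E : Fin 4 → Finset ℕ} {i : Fin 4} (h : E i = ∅) (e : Finset ℕ) (u : ℕ) :
    msk (Function.update E i e) u = msk E u + if u ∈ e then 2 ^ i.val else 0 := by
  unfold msk
  fin_cases i <;> simp_all <;> omega

/-- a new edge in a free slot, `N` lists its new vertices. -/
theorem Lab.put {S : Hg} {E : Fin 4 → Finset ℕ} {L : List ℕ} (h : Lab S E L) {i : Fin 4}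
    (h0 : E i = ∅) {e : Finset ℕ} (h1 : e ∉ S) (h2 : e ≠ ∅) {N : List ℕ} (h3 : (N ++ L).Nodup)
    (h4 : ∀ u ∈ e, u ∈ N ++ L) : Lab (insert e S) (Function.update E i e) (N ++ L) := by
  refine ⟨fun f => ⟨fun a => ?_, ?_⟩, fun j k a => ?_, h3, fun j u a => ?_⟩
  · rcases mem_insert.1 a with rfl | a
    · exact ⟨h2, i, Function.update_self ..⟩
    · obtain ⟨b, j, rfl⟩ := (h.mem f).1 a
      exact ⟨b, j, Function.update_of_ne (fun c : j = i => b (c ▸ h0)) ..⟩
  · rintro ⟨a, j, rfl⟩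
    by_cases b : j = i
    · rw [b, Function.update_self]
      exact mem_insert_self _ _
    · rw [Function.update_of_ne b] at a ⊢
      exact mem_insert_of_mem (h.slot a)
  · by_cases b : j = i <;> by_cases c : k = i
    · exact .inr (b.trans c.symm)
    · rw [b, Function.update_self, Function.update_of_ne c] at a
      exact absurd (a ▸ h.slot (a ▸ h2)) h1
    · rw [c, Function.update_self, Function.update_of_ne b] at a
      exact absurd (a ▸ h.slot (a ▸ h2)) h1
    · rw [Function.update_of_ne b, Function.update_of_ne c] at a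
      rw [Function.update_of_ne b]
      exact h.inj j k a
  · by_cases b : j = i
    · rw [b, Function.update_self] at a
      exact h4 u a
    · rw [Function.update_of_ne b] at a
      exact List.mem_append_right _ (h.cov j u a)

theorem exists_slots {S : Hg} (h0 : ∅ ∉ S) (h4 : S.card ≤ 4) : ∃ E, Lab S E (vs S).toList := by
  have a : ∀ i, S.toList.getD i ∅ ≠ ∅ → ∃ b : i < S.toList.length,
      S.toList.getD i ∅ = S.toList[i] := fun i b => by
    by_cases c : i < S.toList.length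
    · exact ⟨c, List.getD_eq_getElem _ _ c⟩
    · exact absurd (List.getD_eq_default _ _ (not_lt.1 c)) b
  have k : ∀ i, S.toList.getD i ∅ ≠ ∅ → S.toList.getD i ∅ ∈ S := fun i b => by
    obtain ⟨c, d⟩ := a i b
    exact d ▸ mem_toList.1 (List.getElem_mem c)
  refine ⟨fun i => S.toList.getD i ∅, fun e => ⟨fun b => ⟨fun c => h0 (c ▸ b), ?_⟩, ?_⟩,
    fun i j b => ?_, nodup_toList _, fun i u b => mem_toList.2 (mem_vs.2
      ⟨_, k i (ne_empty_of_mem b), b⟩)⟩
  · obtain ⟨i, c, rfl⟩ := List.getElem_of_mem (mem_toList.2 b)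
    exact ⟨⟨i, c.trans_le (by rwa [length_toList])⟩, List.getD_eq_getElem _ _ c⟩
  · rintro ⟨b, i, rfl⟩
    exact k i b
  · by_cases c : S.toList.getD i ∅ = ∅
    · exact .inl c
    · obtain ⟨d, d'⟩ := a i c
      obtain ⟨f, f'⟩ := a j (fun z => c (b.trans z))
      exact .inr (Fin.ext ((nodup_toList S).getElem_inj_iff.1 (d'.symm.trans (b.trans f'))))

end Pool.Agent.P.MP_b2082d_co.Gen
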