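import Pool.Agent.P.MP_b2082d_co.G.Grid
import Pool.Agent.P.MP_b2082d_co.G.Code

/-! The complement of the Fano plane is a closed component and is removed at the top level. -/

namespace Pool.Agent.P.MP_b2082d_co.Gen
open Finset

/-- the seven edges; `0` is the centre, `1, …, 6` have the masks `3, 5, 6, 9, 10, 12`. -/
def fanoE : Finset (Finset (Fin 7)) :=
  {{0, 1, 2, 4}, {0, 1, 3, 5}, {0, 2, 3, 6}, {0, 4, 5, 6}, {2, 3, 4, 5}, {1, 3, 4, 6}, {1, 2, 5, 6}}

def Fano (R : Hg) : Prop := ∃ x : Fin 7 → ℕ, Function.Injective x ∧ ∀ E ∈ fanoE, E.image x ∈ R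

/-- the seven covers. -/
def fanoU : Fin 7 → Finset (Fin 7) :=
  ![{0, 1, 2}, {0, 1, 3}, {0, 1, 4}, {2, 3, 5}, {2, 5, 6}, {3, 4, 6}, {4, 5, 6}]

theorem fano_cov : ∀ o, ∀ E ∈ fanoE, (fanoU o ∩ E).Nonempty := by decide +kernel

theorem fano_deg : ∀ i : Fin 7, (fanoE.filter fun E => i ∈ E).card = 4 := by decide

theorem fano_in : ∀ i : Fin 7, (univ.filter fun o => i ∈ fanoU o).card = 3 := by decide

theorem fano_of_code {R : Hg} {v : ℕ} {E : Fin 4 → Finset ℕ} {L F : List ℕ}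
    (h : Lab (star R v) E (v :: L)) (hF : Flags R E F) (h1 : msk E v = 15)
    (h2 : L.map (msk E) = [3, 5, 6, 9, 10, 12]) (h3 : 3 ∈ F) (h4 : 5 ∈ F) (h5 : 9 ∈ F) :
    Fano R := by
  obtain ⟨a, L, rfl, ha, h2⟩ := List.map_eq_cons_iff.1 h2
  obtain ⟨b, L, rfl, hb, h2⟩ := List.map_eq_cons_iff.1 h2
  obtain ⟨c, L, rfl, hc, h2⟩ := List.map_eq_cons_iff.1 h2
  obtain ⟨d, L, rfl, hd, h2⟩ := List.map_eq_cons_iff.1 h2
  obtain ⟨e, L, rfl, he, h2⟩ := List.map_eq_cons_iff.1 h2
  obtain ⟨f, L, rfl, hf, h2⟩ := List.map_eq_cons_iff.1 h2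
  obtain rfl := List.map_eq_nil_iff.1 h2
  set x : Fin 7 → ℕ := [v, a, b, c, d, e, f].get with hx
  have m : ∀ i j, x i ∈ E j ↔ (![15, 3, 5, 6, 9, 10, 12] i : ℕ).testBit j = true := fun i j => by
    rw [← decide_eq_true_iff (p := x i ∈ E j), ← msk_bit]
    fin_cases i
    exacts [h1 ▸ Iff.rfl, ha ▸ Iff.rfl, hb ▸ Iff.rfl, hc ▸ Iff.rfl, hd ▸ Iff.rfl, he ▸ Iff.rfl,
      hf ▸ Iff.rfl]
  have k : ∀ (S : Finset (Fin 7)) (A : Finset ℕ) (j l : Fin 4), A ∈ R → A ⊆ E j ∪ E l →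
      (∀ i, x i ∈ A ↔ i ∈ S) → S.image x ∈ R := fun S A j l a0 a1 a2 => by
    convert a0
    ext u
    rw [mem_image]
    refine ⟨fun ⟨i, b1, b2⟩ => b2 ▸ (a2 i).2 b1, fun b1 => ?_⟩
    obtain ⟨i, rfl⟩ := List.mem_iff_get.1 ((mem_union.1 (a1 b1)).elim (h.cov j u) (h.cov l u))
    exact ⟨i, (a2 i).1 b1, rfl⟩
  have s : ∀ j, E j ∈ R := fun j =>
    (mem_star.1 (h.slot (ne_empty_of_mem ((m 0 j).2 (by revert j; decide))))).1
  have t : ∀ j l, E j \ E l ∪ E l \ E j ⊆ E j ∪ E l := fun j l =>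
    union_subset_union sdiff_subset sdiff_subset
  refine ⟨x, List.nodup_iff_injective_get.1 h.nd, fun S hS => ?_⟩
  simp only [fanoE, mem_insert, mem_singleton] at hS
  rcases hS with rfl | rfl | rfl | rfl | rfl | rfl | rfl
  · exact k _ _ 0 0 (s 0) subset_union_left (by simp only [m]; decide)
  · exact k _ _ 1 1 (s 1) subset_union_left (by simp only [m]; decide)
  · exact k _ _ 2 2 (s 2) subset_union_left (by simp only [m]; decide)
  · exact k _ _ 3 3 (s 3) subset_union_left (by simp only [m]; decide)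
  · exact k _ _ 0 1 ((hF 0 1).1 h3).2.2 (t 0 1) (by simp only [mem_union, mem_sdiff, m]; decide)
  · exact k _ _ 0 2 ((hF 0 2).1 h4).2.2 (t 0 2) (by simp only [mem_union, mem_sdiff, m]; decide)
  · exact k _ _ 0 3 ((hF 0 3).1 h5).2.2 (t 0 3) (by simp only [mem_union, mem_sdiff, m]; decide)

theorem good_fano {q : ℝ} (h0 : 0 ≤ q) {R : Hg} (hR : Cls R) {x : Fin 7 → ℕ}
    (hx : Function.Injective x) (hE : ∀ E ∈ fanoE, E.image x ∈ R)
    (ih : Good (R \ fanoE.image (image x)) (topq q (R \ fanoE.image (image x)))) :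
    Good R (topq q R) := by
  set D : Hg := fanoE.image (image x) with hD
  have hDR : D ⊆ R := fun e he => by
    obtain ⟨E, a, rfl⟩ := mem_image.1 he
    exact hE E a
  have nn : ∀ (A : Hg) v, 0 ≤ topq q A v := fun A v => by
    unfold topq
    split_ifs
    exacts [h0, by norm_num]
  have hs : ∀ v, (star (R \ D) v).card + (star D v).card = (star R v).card := fun v => by
    rw [star, star, star, ← card_union_of_disjoint (disjoint_filter_filter sdiff_disjoint),
      ← filter_union, sdiff_union_of_subset hDR]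
  have hd : ∀ i, (star D (x i)).card = 4 := fun i => by
    rw [← fano_deg i, star, hD, filter_image, card_image_of_injective _ (image_injective hx)]
    exact congrArg card (filter_congr fun E _ => hx.mem_finset_image)
  refine good_avg univ (fun _ => 1) (fun o v => if v ∈ (fanoU o).image x then 1 else
    if v ∈ vs (R \ D) then topq q (R \ D) v else 0) _ (fun _ _ => zero_le_one) (by simp)
    (fun o _ _ => ?_) fun v hv => ?_
  · have hr : res R ((fanoU o).image x) ⊆ R \ D := fun e he => by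
      obtain ⟨a, b⟩ := mem_res.1 he
      refine mem_sdiff.2 ⟨a, fun c => ?_⟩
      obtain ⟨E, c1, rfl⟩ := mem_image.1 c
      exact not_disjoint_iff_nonempty_inter.2 (fano_cov o E c1) ((disjoint_image hx).1 b)
    refine (ih.sub hr).buy.mono fun v _ => ?_
    split_ifs with a b c
    exacts [le_rfl, le_rfl, absurd (vs_mono hr b) c, nn _ _, le_rfl]
  · by_cases a : ∃ i, x i = v
    · obtain ⟨i, rfl⟩ := a
      have b1 := hs (x i)
      have b2 := hd i
      have b3 : (star R (x i)).card ≤ 4 := hR.deg (x i)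
      have b4 : topq q R (x i) = 3 / 7 := if_neg (by omega)
      have b5 : x i ∉ vs (R \ D) := fun c => by
        obtain ⟨e, c1, c2⟩ := mem_vs.1 c
        have c3 : 0 < (star (R \ D) (x i)).card := card_pos.2 ⟨e, mem_star.2 ⟨c1, c2⟩⟩
        omega
      simp only [hx.mem_finset_image, if_neg b5, one_mul, b4, sum_boole, fano_in]
      norm_num
    · have b1 : star (R \ D) v = star R v := by
        ext e
        simp only [mem_star, mem_sdiff]
        refine ⟨fun b => ⟨b.1.1, b.2⟩, fun b => ⟨⟨b.1, fun c => ?_⟩, b.2⟩⟩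
        obtain ⟨E, -, rfl⟩ := mem_image.1 c
        obtain ⟨i, -, c2⟩ := mem_image.1 b.2
        exact a ⟨i, c2⟩
      rw [sum_mul]
      refine sum_le_sum fun o _ => mul_le_mul_of_nonneg_left ?_ zero_le_one
      rw [if_neg fun c => a (let ⟨i, _, c2⟩ := mem_image.1 c; ⟨i, c2⟩)]
      split_ifs
      · exact le_of_eq (by rw [topq, topq, b1])
      · exact nn _ _

theorem good_of_nofano {q : ℝ} (h0 : 0 ≤ q) (C : Hg → Prop) (hC : ∀ A B, C B → A ⊆ B → C A)
    (h : ∀ R, Cls R → C R → ¬Fano R → Good R (topq q R)) :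
    ∀ R, Cls R → C R → Good R (topq q R) := fun R => by
  induction R using Finset.strongInduction with
  | H R ih =>
    intro hR hc
    by_cases a : Fano R
    · obtain ⟨x, hx, hE⟩ := a
      refine good_fano h0 hR hx hE (ih _ ?_ (hR.sub sdiff_subset) (hC _ _ hc sdiff_subset))
      refine sdiff_ssubset (fun e he => ?_) (image_nonempty.2 ⟨{0, 1, 2, 4}, by decide⟩)
      obtain ⟨E, b, rfl⟩ := mem_image.1 he
      exact hE E b
    · exact h R hR hc a

/-- it is enough to treat the systems without a grid cluster and without a Fano component. -/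
theorem s_main_of_nobad {q : ℝ} (h0 : 0 ≤ q) (h1 : q ≤ 3 / 11)
    (h : ∀ R : Hg, Cls R → ∀ χ : ℕ → Fin 12, (∀ e ∈ R, ∀ u ∈ e, ∀ v ∈ e, χ u = χ v → u = v) →
      ¬Grid R → ¬Fano R → Good R (topq q R)) : S_Main :=
  s_main_of_nogrid h0 h1 fun R hR χ hχ hg => good_of_nofano h0
    (fun R => (∀ e ∈ R, ∀ u ∈ e, ∀ v ∈ e, χ u = χ v → u = v) ∧ ¬Grid R)
    (fun _ _ a b => ⟨fun e he => a.1 e (b he), fun ⟨x, c, d⟩ => a.2 ⟨x, c, fun E e => b (d E e)⟩⟩)
    (fun R a b c => h R a χ b.1 b.2 c) R hR ⟨hχ, hg⟩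

end Pool.Agent.P.MP_b2082d_co.Gen
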