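import Pool.Agent.P.MP_b2082d_co.G.AdAll
import Pool.Agent.P.MP_b2082d_co.G.Fano

/-! From the prices of the residual systems to the main statement. -/

namespace Pool.Agent.P.MP_b2082d_co.Gen.Ad

/-- the two stars that are removed at the top level. -/
noncomputable def badR (r : ℕ × List ℕ × List ℕ) : Bool := decide (IsGrid r) ||
  decide (r.1 = 15 ∧ r.2.1 = [3, 5, 6, 9, 10, 12] ∧ 3 ∈ r.2.2 ∧ 5 ∈ r.2.2 ∧ 9 ∈ r.2.2)

theorem s_main_of_reps {α γ k : ℕ} (hp : 0 < α + γ) (T : ℕ → ℕ) (lp : ℕ → ℝ) (lf : ℕ)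
    (hlp : ∀ j, lp j ≤ lf / 1000000) (reps : List (ℕ × List ℕ × List ℕ))
    (hrep : ∀ R v, Cls R → v ∈ vs R → ∃ E L F, Lab (star R v) E (v :: L) ∧ Flags R E F ∧
      (msk E v, L.map (msk E), F) ∈ reps)
    (hchk : ∀ r ∈ reps, badR r = true ∨ ∃ zs, chkR α γ k T lf r zs = true)
    (hT : ∀ R, Cls R → Good R (price (fun _ S => T (sig R S) / 1000000) lp R)) : S_Main := by
  refine s_main_of_nobad (q := 27 / 100) (by norm_num) (by norm_num) fun R hR χ hχ hg hf =>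
    good_of_reps (k := k) hp T lp lf hlp hT hR hχ fun v hv => ?_
  obtain ⟨E, L, F, h, hF, hr⟩ := hrep R v hR hv
  obtain ⟨zs, c⟩ := (hchk _ hr).resolve_left fun a => by
    rw [badR, Bool.or_eq_true, decide_eq_true_eq, decide_eq_true_eq] at a
    exact a.elim (fun b => hg (grid_of_isGrid hR h hF b))
      fun b => hf (fano_of_code h hF b.1 b.2.1 b.2.2.1 b.2.2.2.1 b.2.2.2.2)
  exact ⟨E, L, F, zs, h, hF, c⟩

end Pool.Agent.P.MP_b2082d_co.Gen.Ad
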