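import Pool.Agent.P.MP_b2082d_co.G.AdEnum

/-! The adaptive first stage: the reply of one colour class. -/

namespace Pool.Agent.P.MP_b2082d_co.Gen.Ad
open Finset

/-- the union of the masks of a set of vertices. -/
def om (μ : ℕ → ℕ) (X : Finset ℕ) : ℕ := X.fold (· ||| ·) 0 μ

theorem om_insert (μ : ℕ → ℕ) (u : ℕ) (X : Finset ℕ) : om μ (insert u X) = μ u ||| om μ X :=
  fold_insert_idem

theorem testBit_om (μ : ℕ → ℕ) (X : Finset ℕ) (i : ℕ) :
    (om μ X).testBit i = true ↔ ∃ u ∈ X, (μ u).testBit i = true := by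
  induction X using Finset.induction_on with
  | empty => simp [om]
  | insert u X _ ih => simp [om_insert, ih]

theorem peel {μ : ℕ → ℕ} {C : Finset ℕ} {m : ℕ} {ks : List ℕ}
    (h : C.val.map μ = ((m :: ks : List ℕ) : Multiset ℕ)) :
    ∃ u D, u ∉ D ∧ C = insert u D ∧ μ u = m ∧ D.val.map μ = (ks : Multiset ℕ) := by
  obtain ⟨u, h1, h2, h3⟩ := (Multiset.map_eq_cons μ C.val ks m).2 h
  exact ⟨u, C.erase u, notMem_erase _ _, (insert_erase h1).symm, h2, h3⟩

theorem peel_nil {μ : ℕ → ℕ} {C : Finset ℕ} (h : C.val.map μ = (([] : List ℕ) : Multiset ℕ)) :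
    C = ∅ := by simpa using h

theorem om_eq {μ : ℕ → ℕ} : ∀ {ks : List ℕ} {C : Finset ℕ}, C.val.map μ = (ks : Multiset ℕ) →
    om μ C = orL ks
  | [], _, h => by rw [peel_nil h]; rfl
  | _ :: _, _, h => by
    obtain ⟨u, D, -, rfl, rfl, h3⟩ := peel h
    rw [om_insert, om_eq h3, orL]

theorem phi2_cons (α γ : ℕ) (b : De) (V m U : ℕ) (ks : List ℕ) (F : ℕ → ℕ) :
    phi2 α γ b V U (m :: ks) F =
      max (phi2 α γ b V U ks fun W => (γ * F W + α * F (W ||| m)) / (α + γ) + 1)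
        (phi2 α γ b V U ks (fun W => F (W ||| m)) + ys b ((m ||| V) ^^^ V)) := by
  unfold phi2
  simp only [frc_eq]
  exact (show ∀ A B : ℕ, A + (B - A) = max A B from fun A B => by omega) _ _

theorem ex_lin (ρ : ℕ → ℝ) (U : Finset ℕ) (F G : Finset ℕ → ℝ) (a b : ℝ) :
    ex ρ U (fun K => a * F K + b * G K) = a * ex ρ U F + b * ex ρ U G := by
  simp only [ex, mul_sum, ← sum_add_distrib]
  exact sum_congr rfl fun K _ => by ring

theorem phi2_ok {α γ : ℕ} (hp : 0 < α + γ) (b : De) (V U : ℕ) (μ : ℕ → ℕ) (x : ℕ → ℝ)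
    (h0 : ∀ u, 0 ≤ x u) (h1 : ∀ u, x u ≤ 1) : ∀ (ks : List ℕ) (C : Finset ℕ) (F : ℕ → ℕ),
    C.val.map μ = (ks : Multiset ℕ) →
    ex (fun u => (α + γ * x u) / (α + γ)) C (fun K => (F (U ||| om μ K) : ℝ)) +
      ∑ u ∈ C, x u * ys b ((μ u ||| V) ^^^ V) ≤ phi2 α γ b V U ks F
  | [], C, F, h => by
    rw [peel_nil h, ex_empty, sum_empty, add_zero, show om μ ∅ = 0 from rfl, Nat.or_zero]
    exact le_rfl
  | m :: ks, C, F, h => by
    obtain ⟨u, D, a, rfl, rfl, h3⟩ := peel h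
    have p : (0 : ℝ) < α + γ := by exact_mod_cast hp
    have i1 := phi2_ok hp b V U μ x h0 h1 ks D
      (fun W => (γ * F W + α * F (W ||| μ u)) / (α + γ) + 1) h3
    have i2 := phi2_ok hp b V U μ x h0 h1 ks D (fun W => F (W ||| μ u)) h3
    have i3 := ex_mono (ρ := fun u => (α + γ * x u) / (α + γ)) (U := D)
      (F := fun K => γ / (α + γ) * (F (U ||| om μ K) : ℝ) + α / (α + γ) * F (U ||| om μ K ||| μ u))
      (G := fun K => ((γ * F (U ||| om μ K) + α * F (U ||| om μ K ||| μ u)) / (α + γ) + 1 : ℕ))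
      (fun u => by have := h0 u; positivity) (fun u => by
        rw [div_le_one p]
        nlinarith [h1 u, (Nat.cast_nonneg γ : (0 : ℝ) ≤ γ)]) fun K _ => by
      generalize F (U ||| om μ K) = A
      generalize F (U ||| om μ K ||| μ u) = B
      have := (Nat.lt_div_mul_add (a := γ * A + α * B) hp).le
      rw [div_mul_eq_mul_div, div_mul_eq_mul_div, ← add_div, div_le_iff₀ p]
      have : ((γ * A + α * B : ℕ) : ℝ) ≤ (((γ * A + α * B) / (α + γ) + 1) * (α + γ) : ℕ) :=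
        Nat.cast_le.2 (by rw [add_mul, one_mul]; exact this)
      simpa only [Nat.cast_mul, Nat.cast_add] using this
    rw [ex_lin] at i3
    rw [ex_insert _ a, sum_insert a, phi2_cons]
    simp only [om_insert, Nat.or_comm (μ u) (om μ _), ← Nat.or_assoc]
    have m1 := i1.trans (Nat.cast_le.2 (le_max_left _ (phi2 α γ b V U ks (fun W => F (W ||| μ u)) +
      ys b ((μ u ||| V) ^^^ V))))
    have m2 := (Nat.cast_le (α := ℝ)).2 (le_max_right (phi2 α γ b V U ks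
      fun W => (γ * F W + α * F (W ||| μ u)) / (α + γ) + 1) (phi2 α γ b V U ks
        (fun W => F (W ||| μ u)) + ys b ((μ u ||| V) ^^^ V)))
    rw [Nat.cast_add] at m2
    generalize ((max _ _ : ℕ) : ℝ) = M at m1 m2 ⊢
    generalize ex _ D (fun K => (F (U ||| om μ K) : ℝ)) = e1 at i3 ⊢
    generalize ex _ D (fun K => (F (U ||| om μ K ||| μ u) : ℝ)) = e2 at i2 i3 ⊢
    generalize (ys b ((μ u ||| V) ^^^ V) : ℝ) = y at m2 ⊢
    have r2 : (1 - (α + γ * x u) / (α + γ : ℝ)) * e1 + (α + γ * x u) / (α + γ) * e2 =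
        (1 - x u) * (γ / (α + γ) * e1 + α / (α + γ) * e2) + x u * e2 := by
      field_simp
      ring
    nlinarith [mul_le_mul_of_nonneg_left ((add_le_add_left i3 _).trans m1) (sub_nonneg.2 (h1 u)),
      mul_le_mul_of_nonneg_left ((add_le_add_left i2 y).trans m2) (h0 u)]

theorem phi_ok {α γ : ℕ} (hp : 0 < α + γ) (G : ℕ) (b : De) (V : ℕ) (μ : ℕ → ℕ) (x : ℕ → ℝ)
    (h0 : ∀ u, 0 ≤ x u) (h1 : ∀ u, x u ≤ 1) (ks : List ℕ) (C : Finset ℕ) (U : ℕ)
    (h : C.val.map μ = (ks : Multiset ℕ)) :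
    ex (fun u => (α + γ * x u) / (α + γ)) C (fun K => (tab G (U ||| om μ K) : ℝ)) +
      ∑ u ∈ C, x u * ys b ((μ u ||| V) ^^^ V) ≤ phi α γ G b V ks U :=
  phi2_ok hp b V U μ x h0 h1 ks C (tab G) h

theorem bit_eq (s i : ℕ) : bit s i = if s.testBit i = true then 1 else 0 := by
  have : bit s i = (s.testBit i).toNat := by
    rw [Nat.toNat_testBit, ← Nat.shiftRight_eq_div_pow, ← Nat.and_one_is_mod]
    rfl
  rw [this]
  cases s.testBit i <;> rfl

/-- the multipliers of an entry. -/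
def yv (b : De) : Fin 4 → ℕ := ![b.y0, b.y1, b.y2, b.y3]

theorem ys_eq (b : De) (s : ℕ) :
    (ys b s : ℝ) = ∑ i : Fin 4, (if s.testBit i = true then 1 else 0) * (yv b i : ℝ) := by
  rw [Fin.sum_univ_four]
  show ((bit s 0 * b.y0 + bit s 1 * b.y1 + (bit s 2 * b.y2 + bit s 3 * b.y3) : ℕ) : ℝ) = _
  simp only [bit_eq]
  push_cast
  rw [← add_assoc]
  rfl

/-- the demands pay for the multipliers. -/
theorem dual {k : ℝ} (b : De) (μ : ℕ → ℕ) (C : Finset ℕ) (A : Finset (Fin 12)) (U : Fin 12 → ℕ)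
    (x : ℕ → Fin 12 → ℝ) (h0 : ∀ u a, 0 ≤ x u a)
    (h : ∀ i : Fin 4, ∀ u ∈ C, (μ u).testBit i = true →
      k ≤ ∑ a ∈ A.filter fun a => ¬ (U a).testBit i = true, x u a) :
    k * ys b (om μ C) ≤ ∑ a ∈ A, ∑ u ∈ C, x u a * ys b ((μ u ||| U a) ^^^ U a) := by
  simp only [ys_eq, mul_sum]
  rw [sum_congr rfl fun a _ => sum_comm, sum_comm]
  refine sum_le_sum fun i _ => ?_
  have y0 : (0 : ℝ) ≤ yv b i := Nat.cast_nonneg _
  have n0 : ∀ a u, 0 ≤ x u a * ((if ((μ u ||| U a) ^^^ U a).testBit i = true then 1 else 0) *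
      (yv b i : ℝ)) := fun a u => mul_nonneg (h0 u a) (mul_nonneg (by positivity) y0)
  split_ifs with a
  · obtain ⟨u, u1, u2⟩ := (testBit_om _ _ _).1 a
    refine le_trans ?_ (sum_le_sum fun a _ => single_le_sum (fun u _ => n0 a u) u1)
    refine (mul_le_mul_of_nonneg_right (h i u u1 u2) (by positivity)).trans (le_of_eq ?_)
    rw [sum_filter, sum_mul]
    refine sum_congr rfl fun a _ => ?_
    cases c : (U a).testBit i <;> simp [c, u2]
  · rw [zero_mul, mul_zero]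
    exact sum_nonneg fun a _ => sum_nonneg fun u _ => n0 a u

end Pool.Agent.P.MP_b2082d_co.Gen.Ad
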