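import Pool.Agent.P.MP_b2082d_co.G.Merge

/-! The grid cluster (eight of the nine rectangles of a three by three grid) is removed at the
top level. -/

namespace Pool.Agent.P.MP_b2082d_co.Gen
open Finset

/-- a vertex of degree one pays `q`, any other vertex pays three sevenths. -/
noncomputable def topq (q : ℝ) (R : Hg) (v : ℕ) : ℝ := if (star R v).card = 1 then q else 3 / 7

/-- the eight edges of the cluster; `0` is the centre, `5, 6, 7, 8` are the far corners. -/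
def gridE : Finset (Finset (Fin 9)) :=
  {{0, 1, 2, 5}, {0, 1, 3, 6}, {0, 2, 4, 7}, {0, 3, 4, 8}, {2, 3, 5, 6}, {1, 4, 5, 7},
    {1, 4, 6, 8}, {2, 3, 7, 8}}

def Grid (R : Hg) : Prop := ∃ x : Fin 9 → ℕ, Function.Injective x ∧ ∀ E ∈ gridE, E.image x ∈ R

theorem grid_of {R : Hg} {v a b c d w1 w2 w3 w4 : ℕ} (hn : [v, a, b, c, d, w1, w2, w3, w4].Nodup)
    (e1 : {v, a, b, w1} ∈ R) (e2 : {v, a, c, w2} ∈ R) (e3 : {v, b, d, w3} ∈ R)
    (e4 : {v, c, d, w4} ∈ R) (h1 : {b, c, w1, w2} ∈ R) (h2 : {a, d, w1, w3} ∈ R)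
    (h3 : {a, d, w2, w4} ∈ R) (h4 : {b, c, w3, w4} ∈ R) : Grid R := by
  refine ⟨[v, a, b, c, d, w1, w2, w3, w4].get, List.nodup_iff_injective_get.1 hn, fun E hE => ?_⟩
  simp only [gridE, mem_insert, mem_singleton] at hE
  rcases hE with rfl | rfl | rfl | rfl | rfl | rfl | rfl | rfl <;>
    simp only [image_insert, image_singleton] <;> assumption

theorem pair_of {s : Finset ℕ} {v : ℕ} (h : s.card = 2) (hv : v ∈ s) : ∃ a, a ≠ v ∧ s = {v, a} := by
  obtain ⟨a, a1, a2⟩ := exists_mem_notMem_of_card_lt_card (s := {v}) (t := s) (by simp [h])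
  have a3 : a ≠ v := by simpa using a2
  exact ⟨a, a3, (eq_of_subset_of_card_le (insert_subset hv (singleton_subset_iff.2 a1)) (by
    rw [h, card_pair a3.symm])).symm⟩

theorem four_eq {s : Finset ℕ} {v a b w : ℕ} (h : s.card = 4) (hv : v ∈ s) (ha : a ∈ s)
    (hb : b ∈ s) (hw : w ∈ s) (h1 : v ≠ a) (h2 : v ≠ b) (h3 : v ≠ w) (h4 : a ≠ b) (h5 : a ≠ w)
    (h6 : b ≠ w) : {v, a, b, w} = s := by
  refine eq_of_subset_of_card_le (insert_subset hv (insert_subset ha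
    (insert_subset hb (singleton_subset_iff.2 hw)))) ?_
  rw [h, card_insert_of_notMem (by simp [h1, h2, h3]), card_insert_of_notMem (by simp [h4, h5]),
    card_pair h6]

theorem four_of {s : Finset ℕ} (h : s.card = 4) (v a b : ℕ) :
    ∃ w ∈ s, v ≠ w ∧ a ≠ w ∧ b ≠ w := by
  obtain ⟨w, a1, a2⟩ := exists_mem_notMem_of_card_lt_card (s := {v, a, b}) (t := s)
    (card_le_three.trans_lt (by omega))
  simp only [mem_insert, mem_singleton, not_or] at a2
  exact ⟨w, a1, Ne.symm a2.1, Ne.symm a2.2.1, Ne.symm a2.2.2⟩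

/-- four edges through `v` that overlap along a cycle, all four overlaps being flagged. -/
theorem grid_of_star {R : Hg} (hR : Cls R) {v : ℕ} {e1 e2 e3 e4 : Finset ℕ} (m1 : e1 ∈ R)
    (m2 : e2 ∈ R) (m3 : e3 ∈ R) (m4 : e4 ∈ R) (v1 : v ∈ e1) (v2 : v ∈ e2) (v3 : v ∈ e3)
    (v4 : v ∈ e4) (c12 : (e1 ∩ e2).card = 2) (c13 : (e1 ∩ e3).card = 2) (c24 : (e2 ∩ e4).card = 2)
    (c34 : (e3 ∩ e4).card = 2) (c14 : (e1 ∩ e4).card = 1) (c23 : (e2 ∩ e3).card = 1)
    (f12 : e1 \ e2 ∪ e2 \ e1 ∈ R) (f13 : e1 \ e3 ∪ e3 \ e1 ∈ R) (f24 : e2 \ e4 ∪ e4 \ e2 ∈ R)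
    (f34 : e3 \ e4 ∪ e4 \ e3 ∈ R) : Grid R := by
  have o14 : ∀ u ∈ e1, u ∈ e4 → u = v := fun u a b =>
    card_le_one.1 c14.le u (mem_inter.2 ⟨a, b⟩) v (mem_inter.2 ⟨v1, v4⟩)
  have o23 : ∀ u ∈ e2, u ∈ e3 → u = v := fun u a b =>
    card_le_one.1 c23.le u (mem_inter.2 ⟨a, b⟩) v (mem_inter.2 ⟨v2, v3⟩)
  have key : ∀ {e f : Finset ℕ}, (e ∩ f).card = 2 → v ∈ e → v ∈ f →
      ∃ a, a ≠ v ∧ a ∈ e ∧ a ∈ f ∧ ∀ u ∈ e, u ∈ f → u = v ∨ u = a := fun h a b => by
    obtain ⟨u, u1, u2⟩ := pair_of h (mem_inter.2 ⟨a, b⟩)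
    have u3 := mem_inter.1 (u2.ge (mem_insert_of_mem (mem_singleton_self u)))
    exact ⟨u, u1, u3.1, u3.2, fun y y1 y2 => by simpa using u2.le (mem_inter.2 ⟨y1, y2⟩)⟩
  obtain ⟨a, a0, a1, a2, a3⟩ := key c12 v1 v2
  obtain ⟨b, b0, b1, b2, b3⟩ := key c13 v1 v3
  obtain ⟨c, c0, c1, c2, c3⟩ := key c24 v2 v4
  obtain ⟨d, d0, d1, d2, d3⟩ := key c34 v3 v4
  obtain ⟨w1, p, p0, p1, p2⟩ := four_of (hR.unif _ m1) v a b
  obtain ⟨w2, q, q0, q1, q2⟩ := four_of (hR.unif _ m2) v a c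
  obtain ⟨w3, r, r0, r1, r2⟩ := four_of (hR.unif _ m3) v b d
  obtain ⟨w4, s, s0, s1, s2⟩ := four_of (hR.unif _ m4) v c d
  have a4 : a ∉ e3 := fun h => a0 (o23 a a2 h)
  have a5 : a ∉ e4 := fun h => a0 (o14 a a1 h)
  have b4 : b ∉ e2 := fun h => b0 (o23 b h b2)
  have b5 : b ∉ e4 := fun h => b0 (o14 b b1 h)
  have c4 : c ∉ e1 := fun h => c0 (o14 c h c2)
  have c5 : c ∉ e3 := fun h => c0 (o23 c c1 h)
  have d4 : d ∉ e1 := fun h => d0 (o14 d h d2)
  have d5 : d ∉ e2 := fun h => d0 (o23 d h d1)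
  have p3 : w1 ∉ e2 := fun h => (a3 _ p h).elim p0.symm p1.symm
  have p4 : w1 ∉ e3 := fun h => (b3 _ p h).elim p0.symm p2.symm
  have p5 : w1 ∉ e4 := fun h => p0.symm (o14 _ p h)
  have q3 : w2 ∉ e1 := fun h => (a3 _ h q).elim q0.symm q1.symm
  have q4 : w2 ∉ e3 := fun h => q0.symm (o23 _ q h)
  have q5 : w2 ∉ e4 := fun h => (c3 _ q h).elim q0.symm q2.symm
  have r3 : w3 ∉ e1 := fun h => (b3 _ h r).elim r0.symm r1.symm
  have r4 : w3 ∉ e2 := fun h => r0.symm (o23 _ h r)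
  have r5 : w3 ∉ e4 := fun h => (d3 _ r h).elim r0.symm r2.symm
  have s3 : w4 ∉ e1 := fun h => s0.symm (o14 _ h s)
  have s4 : w4 ∉ e2 := fun h => (c3 _ h s).elim s0.symm s1.symm
  have s5 : w4 ∉ e3 := fun h => (d3 _ h s).elim s0.symm s2.symm
  have N := @ne_of_mem_of_not_mem ℕ (Finset ℕ) _
  have L : ∀ {e f : Finset ℕ} {u : ℕ}, u ∈ e → u ∉ f → u ∈ e \ f ∪ f \ e := fun h k =>
    mem_union_left _ (mem_sdiff.2 ⟨h, k⟩)
  have M : ∀ {e f : Finset ℕ} {u : ℕ}, u ∈ f → u ∉ e → u ∈ e \ f ∪ f \ e := fun h k =>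
    mem_union_right _ (mem_sdiff.2 ⟨h, k⟩)
  refine grid_of (v := v) (a := a) (b := b) (c := c) (d := d) (w1 := w1) (w2 := w2) (w3 := w3)
    (w4 := w4) ?_ ?_ ?_ ?_ ?_ ?_ ?_ ?_ ?_
  · simp only [List.nodup_cons, List.mem_cons, List.not_mem_nil, List.nodup_nil, or_false, not_or,
      not_false_eq_true, and_true]
    exact ⟨⟨a0.symm, b0.symm, c0.symm, d0.symm, p0, q0, r0, s0⟩,
      ⟨N a2 b4, N a1 c4, N a1 d4, p1, q1, N a1 r3, N a1 s3⟩,
      ⟨N b1 c4, N b1 d4, p2, N b1 q3, r1, N b1 s3⟩, ⟨N c1 d5, N c1 p3, q2, N c1 r4, s1⟩,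
      ⟨N d1 p4, N d1 q4, r2, s2⟩, ⟨N p q3, N p r3, N p s3⟩, ⟨N q r4, N q s4⟩, N r s5⟩
  · rwa [four_eq (hR.unif _ m1) v1 a1 b1 p a0.symm b0.symm p0 (N a2 b4) p1 p2]
  · rwa [four_eq (hR.unif _ m2) v2 a2 c1 q a0.symm c0.symm q0 (N a1 c4) q1 q2]
  · rwa [four_eq (hR.unif _ m3) v3 b2 d1 r b0.symm d0.symm r0 (N b1 d4) r1 r2]
  · rwa [four_eq (hR.unif _ m4) v4 c2 d2 s c0.symm d0.symm s0 (N c1 d5) s1 s2]
  · rwa [four_eq (hR.unif _ f12) (L b1 b4) (M c1 c4) (L p p3) (M q q3) (N b1 c4) p2 (N b1 q3)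
      (N c1 p3) q2 (N p q3)]
  · rwa [four_eq (hR.unif _ f13) (L a1 a4) (M d1 d4) (L p p4) (M r r3) (N a1 d4) p1 (N a1 r3)
      (N d1 p4) r2 (N p r3)]
  · rwa [four_eq (hR.unif _ f24) (L a2 a5) (M d2 d5) (L q q5) (M s s4) (N a1 d4) q1 (N a1 s3)
      (N d1 q4) s2 (N q s4)]
  · rwa [four_eq (hR.unif _ f34) (L b2 b5) (M c2 c5) (L r r5) (M s s5) (N b1 c4) r1 (N b1 s3)
      (N c1 r4) s1 (N r s5)]

/-- the seven covers. -/
def gridU : Fin 7 → Finset (Fin 9) :=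
  ![{0, 6, 7}, {1, 2, 8}, {3, 4, 5}, {0, 1, 3}, {0, 2, 4}, {1, 2, 4}, {2, 3, 4}]

def gridW : Fin 7 → ℕ := ![3, 3, 3, 2, 1, 1, 1]

theorem grid_cov : ∀ o, ∀ E ∈ gridE, (gridU o ∩ E).Nonempty := by decide +kernel

theorem grid_deg : ∀ i : Fin 9,
    (gridE.filter fun E => i ∈ E).card = if i < 5 then 4 else 3 := by decide

theorem grid_in : ∀ i : Fin 9,
    ∑ o ∈ univ.filter fun o => i ∈ gridU o, gridW o = if i < 5 then 6 else 3 := by decide

theorem grid_out : ∀ i : Fin 9,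
    ∑ o ∈ univ.filter fun o => i ∉ gridU o, gridW o = if i < 5 then 8 else 11 := by decide

theorem Cls.sub {A B : Hg} (h : Cls B) (hA : A ⊆ B) : Cls A :=
  ⟨fun e he => h.unif e (hA he), fun v => (card_le_card (filter_subset_filter _ hA)).trans (h.deg v)⟩

theorem good_grid {q : ℝ} (h0 : 0 ≤ q) (h1 : q ≤ 3 / 11) {R : Hg} (hR : Cls R) {x : Fin 9 → ℕ}
    (hx : Function.Injective x) (hE : ∀ E ∈ gridE, E.image x ∈ R)
    (ih : Good (R \ gridE.image (image x)) (topq q (R \ gridE.image (image x)))) :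
    Good R (topq q R) := by
  set D : Hg := gridE.image (image x) with hD
  have hDR : D ⊆ R := fun e he => by
    obtain ⟨E, a, rfl⟩ := mem_image.1 he
    exact hE E a
  have nn : ∀ (A : Hg) v, 0 ≤ topq q A v := fun A v => by
    unfold topq
    split_ifs
    exacts [h0, by norm_num]
  have hs : ∀ v, (star (R \ D) v).card + (star D v).card = (star R v).card := fun v => by
    rw [star, star, star, ← card_union_of_disjoint (disjoint_filter_filter sdiff_disjoint),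
      ← filter_union, sdiff_union_of_subset hDR]
  have hd : ∀ i, (star D (x i)).card = if i < 5 then 4 else 3 := fun i => by
    rw [← grid_deg i, star, hD, filter_image, card_image_of_injective _ (image_injective hx)]
    exact congrArg card (filter_congr fun E _ => hx.mem_finset_image)
  refine good_avg univ (fun o => (gridW o : ℝ)) (fun o v => if v ∈ (gridU o).image x then 1 else
    if v ∈ vs (R \ D) then topq q (R \ D) v else 0) _ (fun o _ => Nat.cast_nonneg _) ?_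
    (fun o _ _ => ?_) fun v hv => ?_
  · simp [Fin.sum_univ_succ, gridW]
    norm_num
  · have hr : res R ((gridU o).image x) ⊆ R \ D := fun e he => by
      obtain ⟨a, b⟩ := mem_res.1 he
      refine mem_sdiff.2 ⟨a, fun c => ?_⟩
      obtain ⟨E, c1, rfl⟩ := mem_image.1 c
      exact not_disjoint_iff_nonempty_inter.2 (grid_cov o E c1) ((disjoint_image hx).1 b)
    refine (ih.sub hr).buy.mono fun v _ => ?_
    split_ifs with a b c
    exacts [le_rfl, le_rfl, absurd (vs_mono hr b) c, nn _ _, le_rfl]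
  · have ht : ∑ o : Fin 7, (gridW o : ℝ) = 14 := by
      simp [Fin.sum_univ_succ, gridW]
      norm_num
    by_cases a : ∃ i, x i = v
    · obtain ⟨i, rfl⟩ := a
      have b1 := hs (x i)
      have b2 := hd i
      have b3 : (star R (x i)).card ≤ 4 := hR.deg (x i)
      have b4 : topq q R (x i) = 3 / 7 := if_neg (by split_ifs at b2 <;> omega)
      have b5 : (if x i ∈ vs (R \ D) then topq q (R \ D) (x i) else 0) ≤
          if i < 5 then 0 else q := by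
        by_cases c : x i ∈ vs (R \ D)
        · obtain ⟨e, c1, c2⟩ := mem_vs.1 c
          have c3 : 0 < (star (R \ D) (x i)).card := card_pos.2 ⟨e, mem_star.2 ⟨c1, c2⟩⟩
          rw [if_pos c]
          split_ifs at b2 ⊢
          · omega
          · exact le_of_eq (if_pos (by omega))
        · rw [if_neg c]
          split_ifs
          exacts [le_rfl, h0]
      rw [ht, b4]
      simp only [hx.mem_finset_image, mul_ite (_ ∈ gridU _), mul_one]
      rw [sum_ite, ← sum_mul, ← Nat.cast_sum, ← Nat.cast_sum, grid_in, grid_out]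
      generalize (if x i ∈ vs (R \ D) then topq q (R \ D) (x i) else 0) = y at b5 ⊢
      split_ifs at b5 ⊢ <;> push_cast <;> linarith
    · have b1 : star (R \ D) v = star R v := by
        ext e
        simp only [mem_star, mem_sdiff]
        refine ⟨fun b => ⟨b.1.1, b.2⟩, fun b => ⟨⟨b.1, fun c => ?_⟩, b.2⟩⟩
        obtain ⟨E, -, rfl⟩ := mem_image.1 c
        obtain ⟨i, -, c2⟩ := mem_image.1 b.2
        exact a ⟨i, c2⟩
      rw [sum_mul]
      refine sum_le_sum fun o _ => mul_le_mul_of_nonneg_left ?_ (Nat.cast_nonneg _)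
      rw [if_neg fun c => a (let ⟨i, _, c2⟩ := mem_image.1 c; ⟨i, c2⟩)]
      split_ifs
      · exact le_of_eq (by rw [topq, topq, b1])
      · exact nn _ _

/-- it is enough to treat the systems without a grid cluster, if the vertices of degree one pay
at most three elevenths. -/
theorem good_of_nogrid {q : ℝ} (h0 : 0 ≤ q) (h1 : q ≤ 3 / 11) (C : Hg → Prop)
    (hC : ∀ A B, C B → A ⊆ B → C A)
    (h : ∀ R, Cls R → C R → ¬Grid R → Good R (topq q R)) :
    ∀ R, Cls R → C R → Good R (topq q R) := fun R => by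
  induction R using Finset.strongInduction with
  | H R ih =>
    intro hR hc
    by_cases a : Grid R
    · obtain ⟨x, hx, hE⟩ := a
      refine good_grid h0 h1 hR hx hE (ih _ ?_ (hR.sub sdiff_subset) (hC _ _ hc sdiff_subset))
      refine sdiff_ssubset (fun e he => ?_) (image_nonempty.2 ⟨{0, 1, 2, 5}, by decide⟩)
      obtain ⟨E, b, rfl⟩ := mem_image.1 he
      exact hE E b
    · exact h R hR hc a

theorem s_main_of_nogrid {q : ℝ} (h0 : 0 ≤ q) (h1 : q ≤ 3 / 11)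
    (h : ∀ R : Hg, Cls R → ∀ χ : ℕ → Fin 12, (∀ e ∈ R, ∀ u ∈ e, ∀ v ∈ e, χ u = χ v → u = v) →
      ¬Grid R → Good R (topq q R)) : S_Main := fun R hR χ hχ => by
  refine (good_of_nogrid h0 h1 (fun R => ∀ e ∈ R, ∀ u ∈ e, ∀ v ∈ e, χ u = χ v → u = v)
    (fun A B a b e he => a e (b he)) (fun R a b c => h R a χ b c) R hR hχ).mono fun v _ => ?_
  unfold topq
  split_ifs
  exacts [by linarith, le_rfl]

end Pool.Agent.P.MP_b2082d_co.Gen
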