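import Pool.Agent.P.MP_b2082d_co.G.Adapt
import Pool.Agent.P.MP_b2082d_co.G.Code
import Pool.Agent.P.MP_b2082d_co.G.Grid

/-! The adaptive first stage for coded stars. -/

namespace Pool.Agent.P.MP_b2082d_co.Gen.Ad
open Finset

/-- bit `q` says that the mask meets the flagged pair number `q` in exactly one slot. -/
def fl : List ℕ → ℕ → ℕ
  | [], _ => 0
  | p :: F, m => 2 ^ 1 * fl F m + if m &&& p ≠ 0 ∧ m &&& p ≠ p then 1 else 0

/-- the extended mask. -/
def xm (F : List ℕ) (m : ℕ) : ℕ := 2 ^ 4 * fl F m + m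

theorem fl_bit {a b : ℕ} : ∀ {F : List ℕ} {q : ℕ}, (fl F a).testBit q = true →
    (fl F b).testBit q = true → ∃ p ∈ F, (a &&& p ≠ 0 ∧ a &&& p ≠ p) ∧ b &&& p ≠ 0 ∧ b &&& p ≠ p
  | [], _, h, _ => by simp [fl] at h
  | p :: F, q, h1, h2 => by
    rw [fl, Nat.testBit_two_pow_mul_add _ (by split_ifs <;> norm_num)] at h1 h2
    by_cases c : q < 1
    · rw [if_pos c] at h1 h2
      refine ⟨p, List.mem_cons_self, ?_, ?_⟩
      · by_contra d
        simp only [if_neg d, Nat.zero_testBit, Bool.false_eq_true] at h1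
      · by_contra d
        simp only [if_neg d, Nat.zero_testBit, Bool.false_eq_true] at h2
    · rw [if_neg c] at h1 h2
      obtain ⟨r, r1, r2⟩ := fl_bit h1 h2
      exact ⟨r, List.mem_cons_of_mem _ r1, r2⟩

/-- the number of slots of a mask. -/
def dg (m : ℕ) : ℕ := (univ.filter fun i : Fin 4 => m.testBit i).card

def grp (l : List ℕ) : List (ℕ × ℕ) := l.dedup.map fun x => (x, l.count x)

theorem site {R : Hg} {v : ℕ} {E : Fin 4 → Finset ℕ} {L F : List ℕ}
    (h : Lab (star R v) E (v :: L)) (hF : Flags R E F) (h1 : msk E v ∈ [1, 3, 7, 15])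
    (h2 : ∀ p ∈ F, p ∈ [3, 5, 9, 6, 10, 12]) (h3 : 0 ∉ L.map (msk E)) :
    Site R v E (fun u => xm F (msk E u)) (dg (msk E v)) (grp ((L.map (msk E)).map (xm F))) := by
  have e1 : ∀ i u, u ∈ E i → E i ∈ R ∧ v ∈ E i := fun i u a =>
    mem_star.1 (h.slot (ne_empty_of_mem a))
  have m1 : ∀ u (i : Fin 4), (xm F (msk E u)).testBit i = true ↔ u ∈ E i := fun u i => by
    rw [xm, Nat.testBit_two_pow_mul_add _ (msk_lt E u), if_pos i.2, msk_bit, decide_eq_true_iff]
  have nd := List.nodup_cons.1 h.nd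
  have hL : ∀ u, u ∈ (ball R v).erase v ↔ u ∈ L := fun u => by
    rw [mem_erase, mem_ball]
    constructor
    · rintro ⟨a, e, b, c, d⟩
      obtain ⟨-, i, rfl⟩ := (h.mem e).1 (mem_star.2 ⟨b, c⟩)
      exact (List.mem_cons.1 (h.cov i u d)).resolve_left a
    · intro a
      refine ⟨fun b => nd.1 (b ▸ a), ?_⟩
      by_contra b
      exact h3 (List.mem_map.2 ⟨u, a, msk_eq (by norm_num) fun i => by
        simpa using fun c => b ⟨_, (e1 i u c).1, (e1 i u c).2, c⟩⟩)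
  have fs : (grp ((L.map (msk E)).map (xm F))).map Prod.fst =
      ((L.map (msk E)).map (xm F)).dedup := by
    rw [grp, List.map_map]
    exact List.map_id' _
  refine ⟨e1, fun e a b => ?_, m1, fun u _ w _ a => ?_, fs ▸ List.nodup_dedup _,
    fun u hu => ?_, fun x hx => ?_⟩
  · obtain ⟨-, i, rfl⟩ := (h.mem e).1 (mem_star.2 ⟨a, b⟩)
    have k : ∀ m ∈ [1, 3, 7, 15], ∀ i : Fin 4, m.testBit i = true → (i : ℕ) < dg m := by decide
    exact ⟨i, k _ h1 i (by rw [msk_bit, decide_eq_true b]), rfl⟩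
  · obtain ⟨q, hq⟩ := Nat.exists_testBit_of_ne_zero a
    rw [Nat.testBit_and, Bool.and_eq_true] at hq
    by_cases c : q < 4
    · exact ⟨_, (e1 ⟨q, c⟩ u ((m1 u ⟨q, c⟩).1 hq.1)).1, (m1 u ⟨q, c⟩).1 hq.1, (m1 w ⟨q, c⟩).1 hq.2⟩
    · rw [xm, xm, Nat.testBit_two_pow_mul_add (i := 4) _ (msk_lt E _),
        Nat.testBit_two_pow_mul_add (i := 4) _ (msk_lt E _), if_neg c, if_neg c] at hq
      obtain ⟨p, p1, p2, p3⟩ := fl_bit hq.1 hq.2
      have k : ∀ p ∈ [3, 5, 9, 6, 10, 12], ∃ i j : Fin 4, p = pm i j ∧ ∀ a < 16,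
          a &&& p ≠ 0 ∧ a &&& p ≠ p → (a.testBit i = true ∧ ¬ a.testBit j = true) ∨
            (a.testBit j = true ∧ ¬ a.testBit i = true) := by decide
      obtain ⟨i, j, rfl, k1⟩ := k p (h2 p p1)
      have k2 : ∀ u, msk E u &&& pm i j ≠ 0 ∧ msk E u &&& pm i j ≠ pm i j →
          u ∈ E i \ E j ∪ E j \ E i := fun u b => by
        simpa [msk_bit] using k1 _ (msk_lt E u) b
      exact ⟨_, ((hF i j).1 p1).2.2, k2 u p2, k2 w p3⟩
  · rw [fs, List.mem_dedup]
    exact List.mem_map_of_mem (List.mem_map_of_mem ((hL u).1 hu))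
  · obtain ⟨y, -, rfl⟩ := List.mem_map.1 hx
    rw [List.map_map, List.count_eq_countP, List.countP_map]
    exact card_eq_countP nd.2 _ fun u => by simp [← hL, and_assoc]

/-- the price of the centre when the slots of `u` are killed. -/
noncomputable def gp (T : ℕ → ℕ) (lf : ℕ) (r : ℕ × List ℕ × List ℕ) (u : ℕ) : ℕ :=
  if dg (r.1 &&& (15 - u)) = 0 then 0 else if dg (r.1 &&& (15 - u)) = 1 then lf else
    T (sigc ((r.1 :: r.2.1).map (Nat.land · (15 - u)))
      (r.2.2.filter fun p => Nat.beq (Nat.land p (15 - u)) p))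

noncomputable def pack (g : ℕ → ℕ) : ℕ :=
  (List.range 16).foldr (fun u s => Nat.add (Nat.mul s 1048576) (g u)) 0

/-- the check for one coded star. -/
noncomputable def chkR (α γ k : ℕ) (T : ℕ → ℕ) (lf : ℕ) (r : ℕ × List ℕ × List ℕ)
    (zs : List ℕ) : Bool :=
  decide (r.1 ∈ [1, 3, 7, 15]) && decide (∀ p ∈ r.2.2, p ∈ [3, 5, 9, 6, 10, 12]) &&
  decide (0 ∉ r.2.1) && frc (pack (gp T lf r)) fun G =>
    (List.range 16).all (fun u => Nat.ble (gp T lf r u) (tab G u)) &&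
    chk α γ k (dg r.1) G (if dg r.1 = 1 then 270000 else 428571) (grp (r.2.1.map (xm r.2.2))) zs

/-- the star in the middle of the grid. -/
def IsGrid (r : ℕ × List ℕ × List ℕ) : Prop := ∃ i j k l : Fin 4, pm i j ∈ r.2.2 ∧ pm i k ∈ r.2.2 ∧
  pm j l ∈ r.2.2 ∧ pm k l ∈ r.2.2 ∧ cn (r.1 :: r.2.1) (pm i l) = 1 ∧ cn (r.1 :: r.2.1) (pm j k) = 1

theorem grid_of_isGrid {R : Hg} (hR : Cls R) {v : ℕ} {E : Fin 4 → Finset ℕ} {L F : List ℕ}
    (h : Lab (star R v) E (v :: L)) (hF : Flags R E F)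
    (g : IsGrid (msk E v, L.map (msk E), F)) : Grid R := by
  obtain ⟨i, j, k, l, a1, a2, a3, a4, a5, a6⟩ := g
  have b1 := (hF _ _).1 a1
  have b2 := (hF _ _).1 a2
  have b3 := (hF _ _).1 a3
  have b4 := (hF _ _).1 a4
  have c1 := mem_star.1 (h.slot b1.ne.1)
  have c2 := mem_star.1 (h.slot b1.ne.2)
  have c3 := mem_star.1 (h.slot b4.ne.1)
  have c4 := mem_star.1 (h.slot b4.ne.2)
  exact grid_of_star hR c1.1 c2.1 c3.1 c4.1 c1.2 c2.2 c3.2 c4.2 b1.2.1 b2.2.1 b3.2.1 b4.2.1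
    ((h.inter i l).trans a5) ((h.inter j k).trans a6) b1.2.2 b2.2.2 b3.2.2 b4.2.2

theorem star_star (R : Hg) (v : ℕ) : star (star R v) v = star R v := by
  rw [star, star, filter_filter]
  simp only [and_self]

theorem tab_mod (G U : ℕ) : tab G (U % 16) = tab G U := by
  have : ∀ x, Nat.land x 15 = x % 16 := fun x => Nat.and_two_pow_sub_one_eq_mod x 4
  rw [tab, tab, this, this, Nat.mod_mod]

/-- From the prices of the residual systems to the prices of the whole system. -/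
theorem good_of_reps {α γ k : ℕ} (hp : 0 < α + γ) (T : ℕ → ℕ) (lp : ℕ → ℝ) (lf : ℕ)
    (hlp : ∀ j, lp j ≤ lf / 1000000)
    (hT : ∀ R, Cls R → Good R (price (fun _ S => T (sig R S) / 1000000) lp R)) {R : Hg}
    (hR : Cls R) {χ : ℕ → Fin 12} (hχ : ∀ e ∈ R, ∀ u ∈ e, ∀ w ∈ e, χ u = χ w → u = w)
    (hs : ∀ v ∈ vs R, ∃ E L F zs, Lab (star R v) E (v :: L) ∧ Flags R E F ∧
      chkR α γ k T lf (msk E v, L.map (msk E), F) zs = true) : Good R (topq (27 / 100) R) := by
  refine good_adapt (k := k) hχ hp _ (fun X => (hT _ (hR.sub (res_subset R X))).buy)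
    (fun X v a => (if_pos a).le) _ fun v hv => ?_
  obtain ⟨E, L, F, zs, h, hF, c⟩ := hs v hv
  simp only [chkR, frc_eq, Bool.and_eq_true, decide_eq_true_eq, List.all_eq_true, List.mem_range,
    Nat.ble_eq] at c
  obtain ⟨⟨⟨c1, c2⟩, c3⟩, c4, c5⟩ := c
  refine ⟨E, _, _, _, _, _, zs, site h hF c1 c2 c3, c5, ?_, fun X U a b => ?_⟩
  · have d : (star R v).card = dg (msk E v) := by rw [← star_star, h.deg, dg]
    rw [topq, d]
    split_ifs <;> norm_num
  · rw [if_neg a, ← tab_mod]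
    split_ifs with d
    · have u := Nat.mod_lt U (show 0 < 16 by norm_num)
      have k1 : ∀ u < 16, ∀ i : Fin 4, (15 - u).testBit i = true ↔ ¬ u.testBit i = true := by decide
      obtain ⟨f, g⟩ := h.buy hF (X := X) (k := 15 - U % 16) fun i _ => by
        rw [k1 _ u, show 16 = 2 ^ 4 from rfl, Nat.testBit_mod_two_pow, decide_eq_true i.2,
          Bool.true_and, b, disjoint_left]
        simp
      have e : (star (res R X) v).card = dg (msk E v &&& (15 - U % 16)) := by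
        rw [← star_star, f.deg, msk_cut, dg]
      have p := star_pos d
      refine le_trans ?_ (div_le_div_of_nonneg_right (Nat.cast_le.2 (c4 _ u)) (by norm_num))
      rw [price, gp, ← e, if_neg (Nat.one_le_iff_ne_zero.1 p)]
      split_ifs
      · exact hlp _
      · rw [f.sig_eq g, map_cut, List.map_cons]
    · positivity

end Pool.Agent.P.MP_b2082d_co.Gen.Ad
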