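import Pool.Agent.P.MP_b2082d_co.G.AdPhi

/-! The adaptive first stage: one full colour class, and a second class in which every vertex
chooses its probability according to the first colour. -/

namespace Pool.Agent.P.MP_b2082d_co.Gen.Ad
open Finset

/-- the vertices of one colour. -/
def cls (R : Hg) (χ : ℕ → Fin 12) (a : Fin 12) : Finset ℕ := (vs R).filter fun u => χ u = a

theorem good_two {R : Hg} (χ : ℕ → Fin 12) (ρ : Fin 12 → ℕ → ℝ) (h0 : ∀ a u, 0 ≤ ρ a u)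
    (h1 : ∀ a u, ρ a u ≤ 1) (c : Finset ℕ → ℕ → ℝ) (hc : ∀ X, Good R (c X)) (l : ℕ → ℝ)
    (hr : ∀ v ∈ vs R, ∑ b, ∑ a ∈ univ.erase b,
      ex (ρ a) (cls R χ b) (fun K => c (cls R χ a ∪ K) v) ≤ 132 * l v) : Good R l := by
  have a : ∑ _p ∈ (univ : Finset (Fin 12)).sigma fun b => univ.erase b, (1 : ℝ) = 132 := by
    rw [sum_sigma]
    simp
    norm_num
  refine good_avg ((univ : Finset (Fin 12)).sigma fun b => univ.erase b) (fun _ => 1)
    (fun p v => ex (ρ p.2) (cls R χ p.1) fun K => c (cls R χ p.2 ∪ K) v) _ (fun _ _ => zero_le_one)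
    (by rw [a]; norm_num) (fun p _ _ => good_ex (h0 _) (h1 _) _ _ fun K _ => hc _) fun v hv => ?_
  rw [a, sum_sigma]
  simpa only [one_mul] using hr v hv

theorem ex_div (ρ : ℕ → ℝ) (U : Finset ℕ) (F : Finset ℕ → ℝ) (D : ℝ) :
    ex ρ U (fun K => F K / D) = ex ρ U F / D := by
  simp only [ex, sum_div, mul_div_assoc]

/-- the star of `v` in the slots `E`, the masks `μ` of the mates and their multiplicities. -/
structure Site (R : Hg) (v : ℕ) (E : Fin 4 → Finset ℕ) (μ : ℕ → ℕ) (d : ℕ)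
    (ms : List (ℕ × ℕ)) : Prop where
  e1 : ∀ i u, u ∈ E i → E i ∈ R ∧ v ∈ E i
  e2 : ∀ e ∈ R, v ∈ e → ∃ i : Fin 4, (i : ℕ) < d ∧ E i = e
  m1 : ∀ u (i : Fin 4), (μ u).testBit i = true ↔ u ∈ E i
  m2 : ∀ u ∈ (ball R v).erase v, ∀ w ∈ (ball R v).erase v, μ u &&& μ w ≠ 0 →
    ∃ e ∈ R, u ∈ e ∧ w ∈ e
  nd : (ms.map Prod.fst).Nodup
  mem : ∀ u ∈ (ball R v).erase v, μ u ∈ ms.map Prod.fst
  cnt : ∀ x ∈ ms, (((ball R v).erase v).filter fun u => μ u = x.1).card = x.2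

/-- every edge through `u` asks for `k` among the colours that miss it. -/
def Pol (k : ℕ) (R : Hg) (χ : ℕ → Fin 12) (u : ℕ) (x : Fin 12 → ℝ) : Prop :=
  (∀ a, 0 ≤ x a ∧ x a ≤ 1) ∧ ∀ e ∈ R, u ∈ e → (k : ℝ) ≤ ∑ a ∈ univ \ e.image χ, x a

theorem mem_ball {R : Hg} {v u : ℕ} : u ∈ ball R v ↔ ∃ e ∈ R, v ∈ e ∧ u ∈ e := by
  simp [ball, mem_vs, and_assoc]

theorem rho_nonneg {α γ : ℕ} {x : ℝ} (h : 0 ≤ x) : 0 ≤ (α + γ * x) / (α + γ : ℝ) := by positivity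

theorem rho_le {α γ : ℕ} (hp : 0 < α + γ) {x : ℝ} (h : x ≤ 1) : (α + γ * x) / (α + γ : ℝ) ≤ 1 := by
  rw [div_le_one (by exact_mod_cast hp)]
  nlinarith [(Nat.cast_nonneg γ : (0 : ℝ) ≤ γ)]

namespace Site
variable {R : Hg} {v : ℕ} {E : Fin 4 → Finset ℕ} {μ : ℕ → ℕ} {d : ℕ} {ms : List (ℕ × ℕ)}
  (S : Site R v E μ d ms) {χ : ℕ → Fin 12}
  (hχ : ∀ e ∈ R, ∀ u ∈ e, ∀ w ∈ e, χ u = χ w → u = w)
include S hχ

theorem inj {u w : ℕ} (hu : u ∈ (ball R v).erase v) (hw : w ∈ (ball R v).erase v)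
    (h : χ u = χ w) (h1 : μ u &&& μ w ≠ 0) : u = w := by
  obtain ⟨e, a, b, c⟩ := S.m2 u hu w hw h1
  exact hχ e a u b w c h

theorem inj' {u w : ℕ} (hu : u ∈ (ball R v).erase v) (hw : w ∈ (ball R v).erase v)
    (h : χ u = χ w) (h1 : μ u = μ w) : u = w := by
  refine S.inj hχ hu hw h ?_
  obtain ⟨e, a, b, c⟩ := mem_ball.1 (mem_of_mem_erase hu)
  obtain ⟨i, -, rfl⟩ := S.e2 e a b
  rw [← h1, Nat.and_self]
  intro z
  simpa [z] using (S.m1 u i).2 c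

omit S in
theorem col {u : ℕ} (hu : u ∈ (ball R v).erase v) : χ u ∈ univ.erase (χ v) := by
  obtain ⟨e, a, b, c⟩ := mem_ball.1 (mem_of_mem_erase hu)
  exact mem_erase.2 ⟨fun h => ne_of_mem_erase hu (hχ e a u c v b h), mem_univ _⟩

theorem cert {α γ k G l : ℕ} {zs : List ℕ} (h : chk α γ k d G l ms zs = true) :
    ∃ (L : List De) (σ : Fin 12 → De), row α γ k d G l L = true ∧
      (∀ a ∈ univ.erase (χ v), σ a ∈ L ∧
        (((ball R v).erase v).filter fun u => χ u = a).val.map μ = ((σ a).e.ks : Multiset ℕ) ∧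
        (σ a).e.U = om μ (((ball R v).erase v).filter fun u => χ u = a)) ∧
      ∀ F : De → ℕ, sm F L = ∑ a ∈ univ.erase (χ v), F (σ a) := by
  obtain ⟨L, σ, r, s1, s2⟩ := chk_ok h (fun a m => ∃ u ∈ (ball R v).erase v, χ u = a ∧ μ u = m)
    (univ.erase (χ v)) (by simp) (by
      rintro a - _ _ ⟨u, u1, u2, rfl⟩ ⟨w, w1, w2, rfl⟩ hne
      by_contra c
      exact hne (congrArg μ (S.inj hχ u1 w1 (u2.trans w2.symm) c))) S.nd fun x hx => by
      rw [← S.cnt x hx]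
      refine (card_bij (fun u _ => χ u) (fun u hu => ?_) (fun u hu w hw e => ?_) fun a ha => ?_).symm
      · rw [mem_filter] at hu ⊢
        exact ⟨col hχ hu.1, u, hu.1, rfl, hu.2⟩
      · rw [mem_filter] at hu hw
        exact S.inj' hχ hu.1 hw.1 e (hu.2.trans hw.2.symm)
      · obtain ⟨u, u1, u2, u3⟩ := (mem_filter.1 ha).2
        exact ⟨u, mem_filter.2 ⟨u1, u3⟩, u2⟩
  refine ⟨L, σ, r, fun a ha => ?_, s2⟩
  have e : (((ball R v).erase v).filter fun u => χ u = a).val.map μ =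
      ((σ a).e.ks : Multiset ℕ) := by
    rw [(s1 a ha).2.1]
    refine (Multiset.Nodup.ext (Multiset.Nodup.map_on (fun u hu w hw e => ?_) (nodup _))
      (Multiset.coe_nodup.2 (S.nd.filter _))).2 fun m => ?_
    · rw [← mem_def, mem_filter] at hu hw
      exact S.inj' hχ hu.1 hw.1 (hu.2.trans hw.2.symm) e
    · rw [Multiset.mem_map, Multiset.mem_coe, List.mem_filter, decide_eq_true_eq]
      constructor
      · rintro ⟨u, hu, rfl⟩
        rw [← mem_def, mem_filter] at hu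
        exact ⟨S.mem u hu.1, u, hu.1, hu.2, rfl⟩
      · rintro ⟨-, u, u1, u2, u3⟩
        exact ⟨u, mem_def.1 (mem_filter.2 ⟨u1, u2⟩), u3⟩
  exact ⟨(s1 a ha).1, e, by rw [(s1 a ha).2.2, om_eq e]⟩

omit hχ in
theorem bits {a : Fin 12} (ha : a ∈ univ.erase (χ v)) (i : Fin 4) :
    (om μ (((ball R v).erase v).filter fun u => χ u = a)).testBit i = true ↔
      ∃ u ∈ E i, χ u = a := by
  rw [testBit_om]
  constructor
  · rintro ⟨u, u1, u2⟩
    exact ⟨u, (S.m1 u i).1 u2, (mem_filter.1 u1).2⟩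
  · rintro ⟨u, u1, u2⟩
    exact ⟨u, mem_filter.2 ⟨mem_erase.2 ⟨fun b => ne_of_mem_erase ha (b ▸ u2.symm),
      mem_ball.2 ⟨_, (S.e1 i u u1).1, (S.e1 i u u1).2, u1⟩⟩, u2⟩, (S.m1 u i).2 u1⟩

theorem ok (hv : v ∈ vs R) {α γ k G l : ℕ} (hp : 0 < α + γ) {zs : List ℕ}
    (h : chk α γ k d G l ms zs = true) (c : Finset ℕ → ℝ) (hc1 : ∀ X, v ∈ X → c X ≤ 1)
    (hc : ∀ X U, v ∉ X → (∀ i : Fin 4, U.testBit i = true ↔ ∃ u ∈ X, u ∈ E i) →
      c X ≤ tab G U / 1000000) :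
    ∃ x, Pol k R χ v x ∧ ∀ ξ : ℕ → Fin 12 → ℝ, (∀ u, Pol k R χ u (ξ u)) → ξ v = x →
      ∑ b, ∑ a ∈ univ.erase b, ex (fun u => (α + γ * ξ u a) / (α + γ)) (cls R χ b)
        (fun K => c (cls R χ a ∪ K)) ≤ 132 * (l / 1000000) := by
  obtain ⟨L, σ, r, s1, s2⟩ := S.cert hχ h
  have hb : ∀ a ∈ univ.erase (χ v), ∀ i : Fin 4, (σ a).e.U.testBit i = true ↔ ∃ u ∈ E i, χ u = a :=
    fun a ha i => by rw [(s1 a ha).2.2, S.bits ha]
  have hs : ∀ i : Fin 4, v ∈ E i → univ \ (E i).image χ =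
      (univ.erase (χ v)).filter fun a => ¬ (σ a).e.U.testBit i = true := fun i hi => by
    ext a
    rw [mem_sdiff, mem_filter, mem_image]
    refine ⟨fun b => ?_, fun b => ⟨mem_univ _, by rw [← hb a b.1]; exact b.2⟩⟩
    have c : a ∈ univ.erase (χ v) := mem_erase.2 ⟨fun e => b.2 ⟨v, hi, e.symm⟩, mem_univ _⟩
    exact ⟨c, by rw [hb a c]; exact b.2⟩
  simp only [row, Bool.and_eq_true, List.all_eq_true, dem, Nat.ble_eq, s2, List.mem_range,
    Nat.add_eq, Nat.mul_eq, Nat.sub_eq] at r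
  obtain ⟨⟨r1, r2⟩, r3⟩ := r
  refine ⟨fun a => if a ∈ univ.erase (χ v) then (σ a).x / 1000000 else 0, ⟨fun a => ?_,
    fun e he hve => ?_⟩, fun ξ hξ hx => ?_⟩
  · beta_reduce
    split_ifs with b
    · exact ⟨by positivity, (div_le_one (by norm_num)).2 (by exact_mod_cast r1 _ (s1 a b).1)⟩
    · exact ⟨le_rfl, zero_le_one⟩
  · obtain ⟨i, hi, rfl⟩ := S.e2 e he hve
    rw [hs i hve, sum_congr rfl fun a ha => if_pos (mem_filter.1 ha).1, ← sum_div,
      le_div_iff₀ (by norm_num), sum_filter]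
    have := (Nat.cast_le (α := ℝ)).2 (r2 i hi)
    rw [Nat.cast_sum, Nat.cast_mul] at this
    refine this.trans (le_of_eq (sum_congr rfl fun a _ => ?_))
    rw [bit_eq]
    split_ifs <;> simp
  have p : (0 : ℝ) < α + γ := by exact_mod_cast hp
  have q0 : ∀ a u, 0 ≤ (α + γ * ξ u a) / (α + γ : ℝ) := fun a u => rho_nonneg ((hξ u).1 a).1
  have q1 : ∀ a u, (α + γ * ξ u a) / (α + γ : ℝ) ≤ 1 := fun a u => rho_le hp ((hξ u).1 a).2
  have hW : ∀ a ∈ univ.erase (χ v), ∀ i : Fin 4,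
      (σ a).e.U.testBit i = true ↔ ∃ u ∈ cls R χ a, u ∈ E i := fun a ha i => by
    rw [hb a ha]
    exact ⟨fun ⟨u, u1, u2⟩ => ⟨u, mem_filter.2 ⟨mem_vs.2 ⟨_, (S.e1 i u u1).1, u1⟩, u2⟩, u1⟩,
      fun ⟨u, u1, u2⟩ => ⟨u, u2, (mem_filter.1 u1).2⟩⟩
  have nv : ∀ a ∈ univ.erase (χ v), v ∉ cls R χ a := fun a ha b =>
    ne_of_mem_erase ha (mem_filter.1 b).2.symm
  have vc : v ∈ cls R χ (χ v) := mem_filter.2 ⟨hv, rfl⟩
  have T1 : ∀ b, ex (fun u => (α + γ * ξ u (χ v)) / (α + γ)) (cls R χ b)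
      (fun K => c (cls R χ (χ v) ∪ K)) ≤ 1 := fun b =>
    (ex_mono (G := fun _ => 1) (q0 _) (q1 _) fun K _ => hc1 _ (mem_union_left _ vc)).trans
      (ex_const _ _ _).le
  have T2 : ∀ a ∈ univ.erase (χ v), ex (fun u => (α + γ * ξ u a) / (α + γ)) (cls R χ (χ v))
      (fun K => c (cls R χ a ∪ K)) ≤ (((α * 1000000 + γ * (σ a).x) * 1000000 +
        γ * (1000000 - (σ a).x) * tab G (σ a).e.U : ℕ) : ℝ) / ((α + γ) * 1000000 * 1000000) := by
    intro a ha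
    refine (ex_mono (G := fun K => if v ∈ K then 1 else tab G (σ a).e.U / 1000000) (q0 a) (q1 a)
      fun K hK => ?_).trans (le_of_eq ?_)
    · split_ifs with b
      · exact hc1 _ (mem_union_right _ b)
      · refine hc _ _ (by simp [b, nv a ha]) fun i => ?_
        rw [hW a ha]
        refine ⟨fun ⟨u, u1, u2⟩ => ⟨u, mem_union_left _ u1, u2⟩, fun ⟨u, u1, u2⟩ => ?_⟩
        refine ⟨u, (mem_union.1 u1).resolve_right fun e => b ?_, u2⟩
        exact hχ _ (S.e1 i u u2).1 u u2 v (S.e1 i u u2).2 (mem_filter.1 (hK e)).2 ▸ e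
    · rw [ex_inter _ _ {v} _ fun K => by simp,
        inter_singleton_of_mem vc,
        ← insert_empty_eq, ex_insert _ (notMem_empty v), ex_empty, ex_empty, hx]
      beta_reduce
      rw [if_neg (notMem_empty v), if_pos (mem_insert_self _ _), if_pos ha]
      push_cast [Nat.cast_sub (r1 _ (s1 a ha).1)]
      field_simp
      ring
  have T3 : ∀ b ∈ univ.erase (χ v), ∑ a ∈ (univ.erase (χ v)).erase b,
      ex (fun u => (α + γ * ξ u a) / (α + γ)) (cls R χ b) (fun K => c (cls R χ a ∪ K)) ≤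
      (((∑ a ∈ univ.erase (χ v), phi α γ G (σ b) (σ a).e.U (σ b).e.ks (σ a).e.U : ℕ) : ℝ) -
        (phi α γ G (σ b) (σ b).e.U (σ b).e.ks (σ b).e.U + k * ys (σ b) (σ b).e.U : ℕ)) /
        1000000 := by
    intro b hb'
    generalize hC : ((ball R v).erase v).filter (fun u => χ u = b) = C
    have c1 := (s1 b hb').2
    rw [hC] at c1
    have c2 : C ⊆ cls R χ b := fun u hu => by
      rw [← hC, mem_filter] at hu
      exact mem_filter.2 ⟨vs_mono (filter_subset _ _) (mem_of_mem_erase hu.1), hu.2⟩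
    have d1 := dual (k := k) (σ b) μ C ((univ.erase (χ v)).erase b) (fun a => (σ a).e.U) ξ
      (fun u a => ((hξ u).1 a).1) fun i u hu hi => by
        have u1 := (S.m1 u i).1 hi
        refine ((hξ u).2 _ (S.e1 i u u1).1 u1).trans (le_of_eq ?_)
        have u2 : b ∉ (univ.erase (χ v)).filter fun a => ¬ (σ a).e.U.testBit i = true := fun e =>
          (mem_filter.1 e).2 ((hb b hb' i).2 ⟨u, u1, (mem_filter.1 (c2 hu)).2⟩)
        rw [hs i (S.e1 i u u1).2, filter_erase _ _ (univ.erase (χ v)), erase_eq_of_notMem u2]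
    have d2 : ∀ a ∈ (univ.erase (χ v)).erase b, ex (fun u => (α + γ * ξ u a) / (α + γ)) (cls R χ b)
        (fun K => c (cls R χ a ∪ K)) ≤ (phi α γ G (σ b) (σ a).e.U (σ b).e.ks (σ a).e.U -
          ∑ u ∈ C, ξ u a * ys (σ b) ((μ u ||| (σ a).e.U) ^^^ (σ a).e.U)) / 1000000 := by
      intro a ha
      have ha' := mem_of_mem_erase ha
      refine (ex_mono (G := fun K => tab G ((σ a).e.U ||| om μ (K ∩ C)) / 1000000) (q0 a) (q1 a)
        fun K hK => hc _ _ (fun e => (mem_union.1 e).elim (nv a ha') fun e => nv b hb' (hK e))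
          fun i => ?_).trans ?_
      · rw [Nat.testBit_or, Bool.or_eq_true, hW a ha', testBit_om]
        constructor
        · rintro (⟨u, u1, u2⟩ | ⟨u, u1, u2⟩)
          exacts [⟨u, mem_union_left _ u1, u2⟩,
            ⟨u, mem_union_right _ (mem_inter.1 u1).1, (S.m1 u i).1 u2⟩]
        · rintro ⟨u, u1, u2⟩
          refine (mem_union.1 u1).imp (fun e => ⟨u, e, u2⟩) fun e =>
            ⟨u, mem_inter.2 ⟨e, ?_⟩, (S.m1 u i).2 u2⟩
          rw [← hC]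
          exact mem_filter.2 ⟨mem_erase.2 ⟨fun z => nv b hb' (hK (z ▸ e)),
            mem_ball.2 ⟨_, (S.e1 i u u2).1, (S.e1 i u u2).2, u2⟩⟩, (mem_filter.1 (hK e)).2⟩
      · rw [ex_div, ex_inter _ _ C _ fun K => by rw [inter_assoc, inter_self], inter_eq_right.2 c2]
        refine div_le_div_of_nonneg_right (le_sub_iff_add_le.2 (le_trans (add_le_add_left
          (ex_mono (q0 a) (q1 a) fun K hK => by rw [inter_eq_left.2 hK]) _)
          (phi_ok hp G (σ b) _ μ (fun u => ξ u a) (fun u => ((hξ u).1 a).1)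
            (fun u => ((hξ u).1 a).2) _ C _ c1.1))) (by norm_num)
    refine (sum_le_sum d2).trans ?_
    rw [← sum_div, sum_sub_distrib, ← add_sum_erase _ _ hb', ← c1.2] at *
    refine div_le_div_of_nonneg_right ?_ (by norm_num)
    push_cast
    linarith
  rw [← add_sum_erase _ _ (mem_univ (χ v))]
  have T4 : ∀ b ∈ univ.erase (χ v), ∑ a ∈ univ.erase b,
      ex (fun u => (α + γ * ξ u a) / (α + γ)) (cls R χ b) (fun K => c (cls R χ a ∪ K)) ≤ 1 + _ :=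
    fun b hb' => by
      rw [← add_sum_erase _ _ (mem_erase.2 ⟨(ne_of_mem_erase hb').symm, mem_univ (χ v)⟩),
        erase_right_comm]
      exact add_le_add (T1 _) (T3 b hb')
  refine (add_le_add (sum_le_sum T2) (sum_le_sum T4)).trans ?_
  rw [sum_add_distrib, ← sum_div, ← sum_div, sum_sub_distrib, ← Nat.cast_sum, ← Nat.cast_sum,
    ← Nat.cast_sum, sum_const, show (univ.erase (χ v)).card = 11 by simp]
  have r4 := (Nat.cast_le (α := ℝ)).2 r3
  generalize (∑ a ∈ univ.erase (χ v), ((α * 1000000 + γ * (σ a).x) * 1000000 +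
    γ * (1000000 - (σ a).x) * tab G (σ a).e.U) : ℕ) = S1 at r4 ⊢
  generalize (∑ b ∈ univ.erase (χ v), ∑ a ∈ univ.erase (χ v),
    phi α γ G (σ b) (σ a).e.U (σ b).e.ks (σ a).e.U : ℕ) = S2 at r4 ⊢
  generalize (∑ b ∈ univ.erase (χ v), (phi α γ G (σ b) (σ b).e.U (σ b).e.ks (σ b).e.U +
    k * ys (σ b) (σ b).e.U) : ℕ) = S3 at r4 ⊢
  push_cast at r4
  have : (S1 : ℝ) / ((α + γ) * 1000000 * 1000000) ≤ (132 * l + S3 - 11000000 - S2) / 1000000 := by
    rw [div_le_div_iff₀ (by positivity) (by norm_num)]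
    nlinarith
  rw [nsmul_eq_mul]
  push_cast
  linarith

end Site

/-- The adaptive first stage. -/
theorem good_adapt {R : Hg} {χ : ℕ → Fin 12} (hχ : ∀ e ∈ R, ∀ u ∈ e, ∀ w ∈ e, χ u = χ w → u = w)
    {α γ k : ℕ} (hp : 0 < α + γ) (c : Finset ℕ → ℕ → ℝ) (hc : ∀ X, Good R (c X))
    (hc1 : ∀ X v, v ∈ X → c X v ≤ 1) (l : ℕ → ℝ)
    (hs : ∀ v ∈ vs R, ∃ E μ d ms G l0 zs, Site R v E μ d ms ∧ chk α γ k d G l0 ms zs = true ∧
      (l0 : ℝ) / 1000000 ≤ l v ∧ ∀ X U, v ∉ X →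
        (∀ i : Fin 4, U.testBit i = true ↔ ∃ u ∈ X, u ∈ E i) → c X v ≤ tab G U / 1000000) :
    Good R l := by
  have key : ∀ v, ∃ x, Pol k R χ v x ∧ (v ∈ vs R → ∀ ξ : ℕ → Fin 12 → ℝ,
      (∀ u, Pol k R χ u (ξ u)) → ξ v = x → ∑ b, ∑ a ∈ univ.erase b,
        ex (fun u => (α + γ * ξ u a) / (α + γ)) (cls R χ b) (fun K => c (cls R χ a ∪ K) v) ≤
          132 * l v) := fun v => by
    by_cases hv : v ∈ vs R
    · obtain ⟨E, μ, d, ms, G, l0, zs, S, h1, h2, h3⟩ := hs v hv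
      obtain ⟨x, x1, x2⟩ := S.ok hχ hv hp h1 (fun X => c X v) (fun X => hc1 X v) h3
      exact ⟨x, x1, fun _ ξ a b => (x2 ξ a b).trans (by linarith)⟩
    · exact ⟨fun _ => 0, ⟨fun _ => ⟨le_rfl, zero_le_one⟩, fun e he a =>
        absurd (mem_vs.2 ⟨e, he, a⟩) hv⟩, fun a => absurd a hv⟩
  choose ξ h1 h2 using key
  exact good_two χ (fun a u => (α + γ * ξ u a) / (α + γ)) (fun a u => rho_nonneg ((h1 u).1 a).1)
    (fun a u => rho_le hp ((h1 u).1 a).2) c hc l fun v hv => h2 v hv ξ h1 rfl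

end Pool.Agent.P.MP_b2082d_co.Gen.Ad
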