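import Pool.Agent.P.MP_b2082d_co.G.T1b

/-! The rows of the mixture, computed from the code of a star. -/

namespace Pool.Agent.P.MP_b2082d_co.Gen.T1
open Finset

/-- the number of slots in a mask. -/
def pc (m : ℕ) : ℕ := m % 2 + m / 2 % 2 + m / 4 % 2 + m / 8 % 2

/-- the mask `m` contains exactly one of the two slots of `p`. -/
def thd (m p : ℕ) : Prop := m &&& p ≠ 0 ∧ m &&& p ≠ p

instance (m p : ℕ) : Decidable (thd m p) := inferInstanceAs (Decidable (_ ∧ _))

/-- the slots that survive when two vertices of masks `m`, `n` act. -/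
def kp (m n : ℕ) : ℕ := 15 - (m &&& n)

/-- the flags that survive. -/
def flt (F : List ℕ) (m n : ℕ) : List ℕ :=
  F.filter fun p => decide (¬ (thd m p ∧ thd n p) ∧ p &&& kp m n = p)

def mx (l : List ℕ) (f : ℕ → ℕ) : ℕ := l.foldr (fun a r => max (f a) r) 0

def prs : List ℕ := [3, 5, 6, 9, 10, 12]

/-- the constants: new leaf, split pool, two pools, and the complement of the pool of three. -/
structure Cs where
  g : ℕ
  b : ℕ
  l2 : ℕ
  l3 : ℕ
  l4 : ℕ

section
variable (tab : ℕ → ℕ) (c : Cs) (mv : ℕ) (M F : List ℕ)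

/-- the price after the edges through two mates of masks `m`, `n` are gone. -/
noncomputable def val (m n : ℕ) : ℕ :=
  if pc (mv &&& kp m n) = 0 then 0
  else if pc (mv &&& kp m n) = 1 then
    if ∃ p ∈ F, mv &&& kp m n &&& p ≠ 0 then
      if (3 ≤ pc mv ∧ ∀ p ∈ prs, cn (mv :: M) p ≤ 2) ∧ ∃ p ∈ F, ¬ (thd m p ∧ thd n p) ∧
        ∃ u ∈ M, thd u p ∧ mv &&& kp m n &&& u ≠ 0 then c.b else 250000
    else c.g
  else tab (sigc ((mv :: M).map (Nat.land · (kp m n))) (flt F m n))

/-- the lowest slot of a mask. -/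
def low (m : ℕ) : ℕ := m &&& (16 - m)

/-- the price after the edges through the centre and the mate of mask `m` are replaced. -/
noncomputable def nw (m : ℕ) : ℕ :=
  tab (sigc (low (mv &&& m) :: low (mv &&& m) :: (mv :: M).map fun u =>
    (u &&& kp mv m) + if u = mv ∨ u = m then low (mv &&& m) else 0) (flt F mv m))

/-- a mate of mask `m` is a partner of the centre. -/
def own (m : ℕ) : Prop := ∃ p ∈ F, m &&& p = p

instance (m : ℕ) : Decidable (own F m) := inferInstanceAs (Decidable (∃ p ∈ F, _))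

/-- a vertex of mask `n` can be the only partner of a mate of mask `m`. -/
def okp (m n : ℕ) : Prop := ∀ p ∈ F, m &&& p ≠ p ∧ (thd m p → n &&& p = m &&& p)

instance (m n : ℕ) : Decidable (okp F m n) := inferInstanceAs (Decidable (∀ p ∈ F, _))

/-- the worst behaviour of a mate of mask `m`. -/
noncomputable def fm (m : ℕ) : ℕ :=
  max (max (val tab c mv M F m m) (mx (0 :: M) fun n => if okp F m n then val tab c mv M F m n else 0))
    (max (if own F m ∧ ∀ p ∈ F, ¬ thd m p then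
      if pc (mv &&& kp mv m) = 0 then c.l4 else nw tab mv M F m else 0)
      (if okp F m 0 then tab (sigc (mv :: M) F) else 0))

/-- the action of the centre. -/
noncomputable def ow : ℕ :=
  if M.countP (fun m => decide (own F m)) = 0 then tab (sigc (mv :: M) F)
  else if M.countP (fun m => decide (own F m)) = 1 then
    mx M fun m => if own F m then
      if pc (mv &&& kp mv m) = 0 then c.l3 else nw tab mv M F m + c.l2 else 0
  else 1000000

noncomputable def row : Bool :=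
  decide ((∀ p ∈ F, p ∈ prs) ∧ 0 ∉ M ∧ val tab c mv M F 0 0 ≤ tab (sigc (mv :: M) F) ∧
    ow tab c mv M F + (M.map (fm tab c mv M F)).sum ≤ (M.length + 1) * tab (sigc (mv :: M) F))

end

theorem le_mx {l : List ℕ} {a : ℕ} (f : ℕ → ℕ) (h : a ∈ l) : f a ≤ mx l f := by
  induction l with
  | nil => simp at h
  | cons x l ih =>
    rcases List.mem_cons.1 h with rfl | b
    exacts [le_max_left _ _, (ih b).trans (le_max_right _ _)]

/-- the price given by a table. -/
noncomputable def Pt (tab : ℕ → ℕ) (R S : Hg) : ℝ := (tab (sig R S) : ℝ) / 1000000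

variable {E : Fin 4 → Finset ℕ}

theorem thd_iff (u : ℕ) (i j : Fin 4) (h : E i ≠ E j) :
    thd (msk E u) (pm i j) ↔ u ∈ E i \ E j ∪ E j \ E i := by
  have k : ∀ x < 16, ∀ i j : Fin 4, i ≠ j →
      (thd x (pm i j) ↔ ¬ (x.testBit i = true ↔ x.testBit j = true)) := by decide
  rw [k _ (msk_lt E u) i j fun a => h (a ▸ rfl), msk_bit, msk_bit]
  simp only [decide_eq_true_iff, mem_union, mem_sdiff]
  tauto

theorem kp_bit (x y : ℕ) (i : Fin 4) :
    (kp (msk E x) (msk E y)).testBit i = true ↔ ¬ {x, y} ⊆ E i := by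
  have k : ∀ a < 16, ∀ i : Fin 4, (15 - a).testBit i = !a.testBit i := by decide
  rw [kp, k _ (Nat.and_le_left.trans_lt (msk_lt E x)), Nat.testBit_and, msk_bit, msk_bit]
  by_cases a : x ∈ E i <;> simp [insert_subset_iff, a]

theorem bit_of_and {a b : ℕ} (h : a < 16) (h1 : a &&& b ≠ 0) :
    ∃ i : Fin 4, a.testBit i = true ∧ b.testBit i = true := by
  obtain ⟨i, hi⟩ := Nat.exists_testBit_of_ne_zero h1
  rw [Nat.testBit_and, Bool.and_eq_true] at hi
  refine ⟨⟨i, not_le.1 fun b => ?_⟩, hi⟩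
  have := Nat.testBit_lt_two_pow (h.trans_le (Nat.pow_le_pow_right two_pos b : 2 ^ 4 ≤ 2 ^ i))
  simp [this] at hi

theorem flags_put {R : Hg} {F : List ℕ} (h : Flags R E F) {n : Fin 4} (h0 : E n = ∅)
    {e : Finset ℕ} (h1 : ∀ m, (e ∩ E m).card ≠ 2) : Flags R (Function.update E n e) F := by
  intro i j
  rw [h i j]
  by_cases a : i = n <;> by_cases b : j = n
  · simp [a, b, flag]
  · rw [a, Function.update_self, Function.update_of_ne b]
    exact iff_of_false (fun d => d.ne.1 h0) fun d => h1 j d.2.1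
  · rw [b, Function.update_self, Function.update_of_ne a]
    exact iff_of_false (fun d => d.ne.2 h0) fun d => h1 i d.swap.2.1
  · rw [Function.update_of_ne a, Function.update_of_ne b]

/-- a coded star. -/
structure Ctx (R : Hg) (v : ℕ) (E : Fin 4 → Finset ℕ) (L F : List ℕ) : Prop where
  cls : Cls R
  lab : Lab (star R v) E (v :: L)
  fl : Flags R E F
  ok : ∀ p ∈ F, p ∈ prs
  nz : 0 ∉ L.map (msk E)
  two : 2 ≤ (star R v).card

theorem card_pc {S : Hg} {v : ℕ} {L : List ℕ} (h : Lab S E L) (hv : ∀ e ∈ S, v ∈ e) :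
    S.card = pc (msk E v) := by
  have k : ∀ a < 16, (univ.filter fun i : Fin 4 => a.testBit i).card = pc a := by decide
  rw [← k _ (msk_lt E v), ← h.deg, star, filter_true_of_mem hv]

namespace Ctx
variable {R : Hg} {v : ℕ} {L F : List ℕ} (C : Ctx R v E L F)
include C

theorem exf {p : ℕ} (h : p ∈ F) : ∃ i j, p = pm i j ∧ flag R (E i) (E j) ∧ E i ∈ star R v ∧
    E j ∈ star R v := by
  have k : ∀ p ∈ prs, ∃ i j, p = pm i j := by decide
  obtain ⟨i, j, rfl⟩ := k p (C.ok p h)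
  have a := (C.fl i j).1 h
  exact ⟨i, j, rfl, a, C.lab.slot a.ne.1, C.lab.slot a.ne.2⟩

theorem sub (i : Fin 4) : E i ⊆ vs R := fun _ a =>
  mem_vs.2 ⟨_, (mem_star.1 (C.lab.slot (ne_empty_of_mem a))).1, a⟩

theorem mem_vs {u : ℕ} (h : u ∈ v :: L) : u ∈ vs R := by
  rcases List.mem_cons.1 h with rfl | a
  · exact mem_vs_of_star (one_le_two.trans C.two)
  · by_contra b
    exact C.nz (msk_eq (m := 0) (by norm_num) (fun i => ⟨by simp, fun d =>
      absurd (C.sub i d) b⟩) ▸ List.mem_map_of_mem a)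

theorem msk_mem {u : ℕ} (h : u ≠ v) : msk E u ∈ 0 :: L.map (msk E) := by
  by_cases a : u ∈ L
  · exact List.mem_cons_of_mem _ (List.mem_map_of_mem a)
  · rw [msk_eq (m := 0) (by norm_num) fun i => ⟨by simp, fun b => by
      simpa [h, a] using C.lab.cov i u b⟩]
    exact List.mem_cons_self

theorem lab' (x y : ℕ) :
    Lab (oth (star R v) {x, y}) (cut E (kp (msk E x) (msk E y))) (v :: L) :=
  C.lab.cut _ (filter_subset _ _) fun i a => by
    rw [kp_bit, oth, mem_filter]
    exact and_iff_right (C.lab.slot a)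

theorem fl' (x y : ℕ) :
    Flags (nxt R x y) (cut E (kp (msk E x) (msk E y))) (flt F (msk E x) (msk E y)) := by
  refine C.fl.cut _ _ (fun i j _ _ a => ⟨a.1, a.2.1, (mem_nxt a.2.2).elim
    (fun b => (mem_filter.1 b).1) fun b => ?_⟩) fun i j a => ?_
  · have d : _ ∈ E i \ E j ∪ E j \ E i := b ▸ mem_union_right _ (mem_insert_self _ _)
    refine absurd ?_ (fresh_not (R := R) (mem_insert_self _ _))
    exact (mem_union.1 d).elim (fun d => C.sub i (mem_sdiff.1 d).1) fun d => C.sub j (mem_sdiff.1 d).1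
  · rw [decide_eq_true_iff, pm_and, thd_iff _ _ _ a.1, thd_iff _ _ _ a.1, and_comm, and_assoc]
    refine and_congr_right fun _ => and_congr_right fun _ => ⟨fun b => oth_sub_nxt R x y
      (mem_filter.2 ⟨a.2.2, fun d => b ⟨d (by simp), d (by simp)⟩⟩), fun b d => ?_⟩
    exact (mem_nxt b).elim (fun b => (mem_filter.1 b).2 (insert_subset d.1 (by simpa using d.2)))
      fun b => new_notR R x y (b ▸ a.2.2)

theorem card' (x y : ℕ) :
    (oth (star R v) {x, y}).card = pc (msk E v &&& kp (msk E x) (msk E y)) := by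
  rw [card_pc (C.lab' x y) fun e a => (mem_star.1 (mem_filter.1 a).1).2, msk_cut]

theorem own_iff {u : ℕ} (h : v ≠ u) : own F (msk E u) ↔ HP R v u := by
  refine ⟨fun ⟨p, a, b⟩ => ?_, fun a => ?_⟩
  · obtain ⟨i, j, rfl, a1, a2, a3⟩ := C.exf a
    rw [mem_star] at a2 a3
    exact (a1.hp' a2.1 a3.1 h (mem_inter.2 ⟨a2.2, a3.2⟩) (mem_inter.2 ((msk_pm E u i j).1 b))).2
  · obtain ⟨e, a1, f, a2, a3, a4, a5⟩ := a.flag C.cls
    obtain ⟨-, i, rfl⟩ := (C.lab.mem e).1 a1
    obtain ⟨-, j, rfl⟩ := (C.lab.mem f).1 a2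
    exact ⟨_, (C.fl i j).2 a5, (msk_pm E u i j).2 ⟨a3, a4⟩⟩

theorem thd_hp {u p : ℕ} (h : p ∈ F) (h1 : thd (msk E u) p) :
    ∃ z, HP R u z ∧ z ≠ v ∧ msk E z &&& p = msk E u &&& p := by
  obtain ⟨i, j, rfl, a1, a2, a3⟩ := C.exf h
  have k : ∀ a < 16, ∀ b < 16, ∀ i j : Fin 4, a.testBit i = b.testBit i →
      a.testBit j = b.testBit j → a &&& pm i j = b &&& pm i j := by decide +kernel
  rw [mem_star] at a2 a3
  rw [thd_iff _ _ _ a1.1, mem_union, mem_sdiff, mem_sdiff] at h1
  rcases h1 with b | b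
  · obtain ⟨z, z1, z2, z3⟩ := a1.hp C.cls a2.1 a3.1 b.1 b.2
    exact ⟨z, z1, fun d => z3 (d ▸ a3.2), k _ (msk_lt E z) _ (msk_lt E u) i j
      (by simp [msk_bit, *]) (by simp [msk_bit, *])⟩
  · obtain ⟨z, z1, z2, z3⟩ := a1.swap.hp C.cls a3.1 a2.1 b.1 b.2
    exact ⟨z, z1, fun d => z3 (d ▸ a2.2), k _ (msk_lt E z) _ (msk_lt E u) i j
      (by simp [msk_bit, *]) (by simp [msk_bit, *])⟩

theorem okp_of {x y : ℕ} (h : v ≠ x) (h1 : ∀ z, HP R x z → z = y) (h2 : y ≠ v) :
    okp F (msk E x) (msk E y) := fun p a =>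
  ⟨fun b => h2 (h1 v ((C.own_iff h).1 ⟨p, a, b⟩).symm).symm, fun b => by
    obtain ⟨z, z1, -, z3⟩ := C.thd_hp a b
    exact h1 z z1 ▸ z3⟩

variable {tab : ℕ → ℕ} {c : Cs} {lp : ℕ → ℝ} {γ β : ℝ}

theorem ev_le_val (H : Par1' (Pt tab) lp γ β) (h1 : γ ≤ c.g / 1000000) (h2 : β ≤ c.b / 1000000)
    {x y : ℕ} (hx : v ≠ x) (hy : v ≠ y) : ev (Pt tab) lp γ β R x y v ≤
      val tab c (msk E v) (L.map (msk E)) F (msk E x) (msk E y) / 1000000 := by
  have hv := mem_vs_of_star (one_le_two.trans C.two)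
  have a1 := star_nxt hx hy hv
  have a2 := C.card' x y
  rw [ev, if_neg hx, if_neg hy, val, ← a2]
  by_cases b : v ∈ vs (oth R {x, y})
  swap
  · rw [if_neg b]
    positivity
  have b1 := star_pos b
  rw [star_oth] at b1
  rw [if_pos b, if_neg (by omega)]
  by_cases d : (oth (star R v) {x, y}).card = 1
  swap
  · rw [if_neg d, rest, a1, if_neg fun e => d e.1, pr, price_star (by rwa [a1]), a1, Pt,
      (C.lab' x y).sig_eq (C.fl' x y), map_cut, List.map_cons]
  obtain ⟨h, d1⟩ := card_eq_one.1 d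
  have d2 : h ∈ oth (star R v) {x, y} := d1 ▸ mem_singleton_self h
  rw [← star_oth, mem_star] at d2
  obtain ⟨k1, k2⟩ := rest_leaf H C.cls d2.1 (mem_lvs.2 ⟨d2.2, by rwa [a1]⟩) C.two
  have k3 : ∀ i : Fin 4, (msk E v &&& kp (msk E x) (msk E y)).testBit i = true → E i = h :=
    fun i a => by
      rw [← msk_cut, msk_bit, decide_eq_true_iff] at a
      have a3 := ne_empty_of_mem a
      exact (cut_eq a3).2 ▸ mem_singleton.1 (d1 ▸ (C.lab' x y).slot a3)
  have k4 : msk E v &&& kp (msk E x) (msk E y) < 16 := Nat.and_le_left.trans_lt (msk_lt E v)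
  rw [if_pos d]
  by_cases e : ∃ p ∈ F, msk E v &&& kp (msk E x) (msk E y) &&& p ≠ 0
  swap
  · rw [if_neg e]
    exact k1.trans h1
  rw [if_pos e]
  obtain ⟨p, e1, e2⟩ := e
  obtain ⟨i, j, rfl, e3, e4, e5⟩ := C.exf e1
  obtain ⟨n, e6, e7⟩ := bit_of_and k4 e2
  have k5 : ∀ i j n : Fin 4, (pm i j).testBit n = true → n = i ∨ n = j := by decide
  obtain ⟨g, g1, g2⟩ : ∃ g ∈ R, flag R h g := by
    rcases k5 i j n e7 with rfl | rfl
    exacts [⟨_, (mem_star.1 e5).1, k3 _ e6 ▸ e3⟩, ⟨_, (mem_star.1 e4).1, k3 _ e6 ▸ e3.swap⟩]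
  obtain ⟨k6, k7⟩ := k2 g g1 g2
  split_ifs with f
  swap
  · exact k6.trans (by norm_num)
  obtain ⟨⟨f1, f2⟩, p, f3, f4, u, f5, f6, f7⟩ := f
  obtain ⟨i, j, rfl, e3, e4, e5⟩ := C.exf f3
  obtain ⟨z, -, rfl⟩ := List.mem_map.1 f5
  obtain ⟨n, e6, e7⟩ := bit_of_and k4 f7
  rw [msk_bit, decide_eq_true_iff, k3 n e6] at e7
  rw [thd_iff _ _ _ e3.1] at f6
  rw [thd_iff _ _ _ e3.1, thd_iff _ _ _ e3.1] at f4
  refine (k7 (fun s => s.elim (fun s => ?_) fun s => s fun e a f b ne => ?_) _ e4 _ e5 e3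
    (fun a => f4 ⟨a (by simp), a (by simp)⟩) ⟨z, mem_inter.2 ⟨e7, f6⟩⟩).trans h2
  · rw [card_pc C.lab fun e a => (mem_star.1 a).2] at s
    omega
  · obtain ⟨-, i, rfl⟩ := (C.lab.mem e).1 a
    obtain ⟨-, j, rfl⟩ := (C.lab.mem f).1 b
    have k8 : ∀ i j, i ≠ j → pm i j ∈ prs := by decide
    rw [C.lab.inter]
    exact f2 _ (k8 i j fun a => ne (a ▸ rfl))

theorem nw_eq {y : ℕ} (h : HP R v y) :
    ((star (act R v y) v).card = 1 ↔ pc (msk E v &&& kp (msk E v) (msk E y)) = 0) ∧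
    Pt tab (act R v y) (star (act R v y) v) =
      nw tab (msk E v) (L.map (msk E)) F (msk E y) / 1000000 := by
  have a1 := star_act_in (R := R) (mem_union_left (fresh R) (mem_insert_self v {y}))
  have a2 : {v, y} ∪ fresh R ∉ oth (star R v) {v, y} := fun a =>
    (mem_filter.1 a).2 subset_union_left
  refine ⟨by rw [a1, card_insert_of_notMem a2, C.card']; omega, ?_⟩
  obtain ⟨p, p1, p2⟩ := (C.own_iff h.1).2 h
  obtain ⟨i, j, rfl, e3, e4, e5⟩ := C.exf p1
  rw [mem_star] at e4 e5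
  have p3 := (msk_pm E y i j).1 p2
  have p4 := (e3.hp' e4.1 e5.1 h.1 (mem_inter.2 ⟨e4.2, e5.2⟩) (mem_inter.2 p3)).1
  have k : ∀ a < 16, ∀ i : Fin 4, a.testBit i = true →
      ∃ n : Fin 4, (15 - a).testBit n = false ∧ low a = 2 ^ n.val := by decide
  obtain ⟨n, n1, n2⟩ := k (msk E v &&& msk E y) (Nat.and_le_left.trans_lt (msk_lt E v)) i (by
    simp [msk_bit, e4.2, p3.1])
  have n3 : cut E (kp (msk E v) (msk E y)) n = ∅ := if_neg (by simpa [kp] using n1)
  have f1 : ∀ u ∈ v :: L, u ∉ fresh R := fun u a b => fresh_not b (C.mem_vs a)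
  have f2 : ∀ u ∈ fresh R, msk (Function.update (cut E (kp (msk E v) (msk E y))) n
      ({v, y} ∪ fresh R)) u = low (msk E v &&& msk E y) := fun u a => by
    rw [msk_update n3, if_pos (mem_union_right _ a), msk_cut, msk_eq (m := 0) (by norm_num)
      fun i => ⟨by simp, fun b => absurd (C.sub i b) (fresh_not a)⟩, n2, Nat.zero_and, zero_add]
  have l1 := (C.lab' v y).put n3 a2 (ne_empty_of_mem (mem_union_left _ (mem_insert_self _ _)))
    (N := [(vs R).sup id + 1, (vs R).sup id + 2]) (List.nodup_append.2 ⟨by simp, C.lab.nd,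
      fun a a3 b b3 d => f1 b b3 (by simpa [fresh, ← d] using a3)⟩) fun u a => by
      have := C.lab.cov i y p3.1
      simp only [fresh, mem_union, mem_insert, mem_singleton] at a
      rcases a with (rfl | rfl) | rfl | rfl
      exacts [by simp, List.mem_append_right _ this, by simp, by simp]
  have l0 := C.fl' v y
  rw [nxt, if_neg h.1.symm] at l0
  have l2 := flags_put l0 n3
    (e := {v, y} ∪ fresh R) fun m => (card_le_card (t := {v}) fun u a => by
      rw [mem_inter] at a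
      have b := ne_empty_of_mem a.2
      have b1 := mem_filter.1 ((C.lab' v y).slot b)
      have b2 := C.sub m ((cut_eq b).2 ▸ a.2)
      rcases mem_union.1 a.1 with d | d
      · by_contra d1
        refine b1.2 (insert_subset (mem_star.1 b1.1).2 ?_)
        simp only [mem_insert, mem_singleton] at d d1
        simpa [← d.resolve_left d1] using a.2
      · exact absurd b2 (fresh_not d)).trans_lt (by simp) |>.ne
  rw [Pt, a1, l1.sig_eq l2, nw, List.map_append, List.map_cons, List.map_cons, List.map_nil,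
    f2 _ (by simp [fresh]), f2 _ (by simp [fresh]), ← List.map_cons (f := msk E), List.map_map]
  refine congrArg (fun t => (tab (sigc (_ :: _ :: t) _) : ℝ) / 1000000)
    (List.map_congr_left fun u a => ?_)
  rw [msk_update n3, msk_cut, ← n2, Function.comp]
  refine congrArg _ (if_congr ⟨fun b => ?_, fun b => mem_union_left _ ?_⟩ rfl rfl)
  · have := (mem_union.1 b).resolve_right (f1 u a)
    simp only [mem_insert, mem_singleton] at this
    exact this.imp (congrArg _) (congrArg _)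
  · rw [← p4, mem_inter, ← msk_pm]
    exact b.elim (fun b => b ▸ (msk_pm E v i j).2 ⟨e4.2, e5.2⟩) fun b => b ▸ p2

theorem p_eq : Pt tab R (star R v) = tab (sigc (msk E v :: L.map (msk E)) F) / 1000000 := by
  rw [Pt, C.lab.sig_eq C.fl, List.map_cons]

/-- the constants bound the parameters. -/
structure Bd (c : Cs) (lp : ℕ → ℝ) (γ β : ℝ) : Prop where
  g : γ ≤ c.g / 1000000
  b : β ≤ c.b / 1000000
  l2 : 2 * lp 2 ≤ c.l2 / 1000000
  l3 : 3 * lp 3 ≤ c.l3 / 1000000
  l4 : 1 - 3 * lp 3 ≤ c.l4 / 1000000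

omit C in
theorem sc {a b : ℕ} (h : a ≤ b) : (a : ℝ) / 1000000 ≤ b / 1000000 := by gcongr

theorem mate (H : Par1' (Pt tab) lp γ β) (B : Bd c lp γ β) {x : ℕ} (hx : v ≠ x) :
    (if x ∈ actors R then ev (Pt tab) lp γ β R x (pt R x) v else Pt tab R (star R v)) ≤
      fm tab c (msk E v) (L.map (msk E)) F (msk E x) / 1000000 := by
  split_ifs with a
  swap
  · have b : ∀ z, ¬ HP R x z := fun z b => a (mem_filter.2
      ⟨mem_vs_of_star (one_le_two.trans (b.deg C.cls)), z, (mem_ptn C.cls).2 b⟩)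
    have d : okp F (msk E x) 0 := fun p d => ⟨fun e => b v ((C.own_iff hx).1 ⟨p, d, e⟩).symm,
      fun e => (C.thd_hp d e).elim fun z e => absurd e.1 (b z)⟩
    rw [C.p_eq]
    exact sc (le_max_of_le_right (le_max_of_le_right (if_pos d).ge))
  rcases pt_cases R x with b | b
  · rw [b.2]
    exact (C.ev_le_val H B.g B.b hx hx).trans (sc (le_max_of_le_left (le_max_left _ _)))
  have d : ∀ z, HP R x z ↔ z = pt R x := fun z => by rw [← mem_ptn C.cls, b, mem_singleton]
  by_cases e : pt R x = v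
  · have f := ((d v).2 e.symm).symm
    obtain ⟨f1, f2⟩ := C.nw_eq (tab := tab) f
    have g : own F (msk E x) ∧ ∀ p ∈ F, ¬ thd (msk E x) p := ⟨(C.own_iff hx).2 f, fun p p1 p2 =>
      (C.thd_hp p1 p2).elim fun z z1 => z1.2.1 (((d z).1 z1.1).trans e)⟩
    refine le_trans ?_ (sc (le_max_of_le_right (le_max_of_le_left (if_pos g).ge)))
    rw [e, ev, if_neg hx, if_pos rfl, act, pair_comm, ← act, f2]
    simp only [f1]
    split_ifs
    exacts [B.l4, le_rfl]
  · refine (C.ev_le_val H B.g B.b hx (Ne.symm e)).trans (sc (le_max_of_le_left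
      (le_max_of_le_right (le_trans ?_ (le_mx _ (C.msk_mem e))))))
    exact (if_pos (C.okp_of hx (fun z a => (d z).1 a) e)).ge

theorem centre (B : Bd c lp γ β) :
    (if v ∈ actors R then ev (Pt tab) lp γ β R v (pt R v) v else Pt tab R (star R v)) ≤
      ow tab c (msk E v) (L.map (msk E)) F / 1000000 := by
  have nd := List.nodup_cons.1 C.lab.nd
  have hL : ∀ u, HP R v u → u ∈ L := fun u a => by
    obtain ⟨e, a1, -, -, a3, -⟩ := a.flag C.cls
    obtain ⟨-, i, rfl⟩ := (C.lab.mem e).1 a1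
    exact (List.mem_cons.1 (C.lab.cov i u a3)).resolve_left a.1.symm
  have k : (ptn R v).card = (L.map (msk E)).countP fun m => decide (own F m) := by
    rw [List.countP_map]
    refine card_eq_countP nd.2 _ fun u => ?_
    rw [mem_ptn C.cls, Function.comp, decide_eq_true_iff]
    exact ⟨fun a => ⟨hL u a, (C.own_iff a.1).2 a⟩, fun a =>
      (C.own_iff fun b => nd.1 (b ▸ a.1)).1 a.2⟩
  have hv : v ∈ actors R ↔ (ptn R v).card ≠ 0 := by
    rw [actors, mem_filter, card_ne_zero]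
    exact and_iff_right (C.mem_vs List.mem_cons_self)
  rw [ow, ← k]
  by_cases a : (ptn R v).card = 0
  · rw [if_neg (by simpa [hv] using a), if_pos a, C.p_eq]
  rw [if_pos (hv.2 a), if_neg a, ev, if_pos rfl]
  rcases pt_cases R v with b | b
  · rw [if_pos b.2, if_neg b.1]
    norm_num
  have f : HP R v (pt R v) := (mem_ptn C.cls).1 (b ▸ mem_singleton_self _)
  obtain ⟨f1, f2⟩ := C.nw_eq (tab := tab) f
  rw [if_neg f.1.symm, if_pos (show (ptn R v).card = 1 from b ▸ card_singleton _), f2]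
  refine le_trans ?_ (sc (le_mx _ (List.mem_map_of_mem (hL _ f))))
  simp only [f1, if_pos ((C.own_iff f.1).2 f)]
  split_ifs
  · exact B.l3
  · push_cast
    linarith [B.l2]

theorem sum_le (H : Par1' (Pt tab) lp γ β) (B : Bd c lp γ β)
    (h1 : val tab c (msk E v) (L.map (msk E)) F 0 0 ≤ tab (sigc (msk E v :: L.map (msk E)) F))
    (h2 : ow tab c (msk E v) (L.map (msk E)) F + ((L.map (msk E)).map
      (fm tab c (msk E v) (L.map (msk E)) F)).sum ≤
      ((L.map (msk E)).length + 1) * tab (sigc (msk E v :: L.map (msk E)) F)) :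
    ∑ x ∈ actors R, (ev (Pt tab) lp γ β R x (pt R x) v - Pt tab R (star R v)) ≤ 0 := by
  have nd := List.nodup_cons.1 C.lab.nd
  rw [← sum_inter_add_sum_sdiff _ (v :: L).toFinset]
  refine add_nonpos ?_ (sum_nonpos fun x hx => ?_)
  · rw [inter_comm, ← filter_mem_eq_inter, sum_filter, sum_congr rfl fun x _ =>
      show _ = (if x ∈ actors R then ev (Pt tab) lp γ β R x (pt R x) v else Pt tab R (star R v)) -
        Pt tab R (star R v) by split_ifs <;> simp, sum_sub_distrib, sum_const,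
      List.toFinset_card_of_nodup C.lab.nd, List.toFinset_cons, sum_insert (by simpa using nd.1)]
    have a := sum_le_sum fun x (hx : x ∈ L.toFinset) =>
      C.mate H B (x := x) fun b => nd.1 (b ▸ List.mem_toFinset.1 hx)
    have b := sc h2
    rw [← sum_div, ← Nat.cast_sum, List.sum_toFinset
      (fun x => fm tab c (msk E v) (L.map (msk E)) F (msk E x)) nd.2] at a
    rw [List.map_map, List.length_map, Nat.cast_add, Nat.cast_mul,
      mul_div_assoc, ← C.p_eq, add_div] at b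
    have d := C.centre (tab := tab) B
    rw [List.length_cons, nsmul_eq_mul]
    exact sub_nonpos.2 ((add_le_add d a).trans b)
  · obtain ⟨a1, a2⟩ := mem_sdiff.1 hx
    have a3 : v ≠ x := fun b => a2 (by simp [b])
    have a4 : msk E x = 0 := msk_eq (by norm_num) fun i => ⟨by simp, fun b =>
      absurd (List.mem_toFinset.2 (C.lab.cov i x b)) a2⟩
    have a5 : v ≠ pt R x := fun b => by
      obtain ⟨p, p1, p2⟩ := (C.own_iff a3).2 (b ▸ (actor_deg C.cls a1).2.2 (b ▸ a3)).symm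
      have := C.ok p p1
      rw [← p2, a4, Nat.zero_and] at this
      exact absurd this (by decide)
    rw [C.p_eq, sub_nonpos]
    refine (C.ev_le_val H B.g B.b a3 a5).trans (sc (le_trans (le_of_eq ?_) h1))
    simp [a4, val, kp, flt, thd]

end Ctx

/-- The rows follow from the check on a family of codes that contains the code of every star. -/
theorem rows {tab : ℕ → ℕ} {c : Cs} {lp : ℕ → ℝ} {γ β : ℝ} (H : Par1' (Pt tab) lp γ β)
    (B : Ctx.Bd c lp γ β) (h : ∀ R, Cls R → ∀ v, 2 ≤ (star R v).card → ∃ E L F,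
      Lab (star R v) E (v :: L) ∧ Flags R E F ∧ row tab c (msk E v) (L.map (msk E)) F = true) :
    Rows (Pt tab) lp γ β := fun R hR v h2 => by
  obtain ⟨E, L, F, a1, a2, a3⟩ := h R hR v h2
  obtain ⟨b1, b2, b3, b4⟩ := of_decide_eq_true a3
  exact Ctx.sum_le ⟨hR, a1, a2, b1, b2, h2⟩ H B b3 b4

/-- From systems without the triples `AB`, `BC`, `CA` to all systems. -/
theorem main {tab : ℕ → ℕ} {c : Cs} {lp : ℕ → ℝ} {γ β : ℝ} (H : Par1' (Pt tab) lp γ β)
    (B : Ctx.Bd c lp γ β) (h : ∀ R, Cls R → ∀ v, 2 ≤ (star R v).card → ∃ E L F,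
      Lab (star R v) E (v :: L) ∧ Flags R E F ∧ row tab c (msk E v) (L.map (msk E)) F = true)
    (h0 : ∀ R, Cls R → NoH6 R → Good R (pr (Pt tab) lp R)) (R : Hg) (hR : Cls R) :
    Good R (pr (Pt tab) lp R) := t1 H.toPar1 (rows H B h) h0 R hR

end Pool.Agent.P.MP_b2082d_co.Gen.T1
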