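import Pool.Agent.P.MP_b2082d_co.G.Par
import Pool.Agent.P.MP_b2082d_co.G.T1c
import Pool.Agent.P.MP_b2082d_co.G.AdMain

/-! From the first induction to the main statement. -/

namespace Pool.Agent.P.MP_b2082d_co.Gen

/-- the numbers of the chain, at the scale `10 ^ 6`. -/
structure Nums where
  (l1 l2 l3 th sg pi g5 g b : ℕ)

namespace Nums
variable (n : Nums)

/-- the price of a leaf in an edge with `j` leaves. -/
noncomputable def lp (j : ℕ) : ℝ :=
  (if j = 1 then n.l1 else if j = 2 then n.l2 else if j = 3 then n.l3 else 250000 : ℕ) / 1000000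

def cs : T1.Cs := ⟨n.g, n.b, 2 * n.l2, 3 * n.l3, 1000000 - 3 * n.l3⟩

/-- the side conditions. -/
def Ok : Prop := n.th ≤ n.g5 ∧ n.th ≤ n.l1 ∧ n.th ≤ n.l2 ∧ n.th ≤ n.l3 ∧
  n.l1 ≤ 3 * n.sg + n.th ∧ 2 * n.l2 ≤ n.pi + 2 * n.sg + n.th ∧
  3 * n.l3 ≤ 2 * n.pi + n.sg + n.th ∧ 1000000 ≤ 3 * n.pi + n.th ∧
  250000 + n.th ≤ n.g5 ∧ 2 * n.l2 + n.th ≤ n.l1 + n.g5 ∧ 3 * n.l3 + n.th ≤ 2 * n.l2 + n.g5 ∧
  1000000 ≤ 3 * n.l3 + n.g5 ∧ 1000000 + n.th ≤ 2 * n.l2 + 2 * n.g5 ∧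
  1000000 + 2 * n.th ≤ n.l1 + 3 * n.g5 ∧ 1000000 + 3 * n.th ≤ 4 * n.g5 ∧
  250000 ≤ n.g ∧ 2 * n.l2 ≤ n.l1 + n.g ∧ 3 * n.l3 ≤ 2 * n.l2 + n.g ∧ 1000000 ≤ 3 * n.l3 + n.g ∧
  n.l1 ≤ n.b ∧ n.l2 ≤ n.b ∧ n.b ≤ 250000 ∧ n.l3 ≤ 250000 ∧ 250000 ≤ 3 * n.l3 ∧
  6 * n.l3 ≤ 1000000 + 2 * n.l2 ∧ 3 * n.l3 ≤ 250000 + 2 * n.b

instance : Decidable n.Ok := by unfold Ok; infer_instance

variable {n}

theorem s_main (h : n.Ok) {T : ℕ → ℕ} {α γ k : ℕ} (hp : 0 < α + γ)
    (h05 : reps.all (chk05 T n.th n.sg n.pi n.g5) = true)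
    (h1 : (reps.all fun r => Nat.beq r.1 1 || T1.row T n.cs r.1 r.2.1 r.2.2) = true)
    (hs : ∀ r ∈ reps, Ad.badR r = true ∨ ∃ zs, Ad.chkR α γ k T 250000 r zs = true)
    (h0 : ∀ R, Cls R → NoH6 R → Co2 R → Good R (pr (T1.Pt T) n.lp R)) : S_Main := by
  simp only [Ok, ← Nat.cast_le (α := ℝ)] at h
  push_cast at h
  obtain ⟨a1, a2, a3, a4, a5, a6, a7, a8, a9, b1, b2, b3, b4, b5, b6, b7, b8, b9, c1, c2, c3, c4,
    c5, c6, c7, c8⟩ := h
  have p0 : n.lp 0 = 1 / 4 := by norm_num [lp]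
  have p1 : n.lp 1 = n.l1 / 1000000 := rfl
  have p2 : n.lp 2 = n.l2 / 1000000 := rfl
  have p3 : n.lp 3 = n.l3 / 1000000 := rfl
  have p4 : n.lp 4 = 1 / 4 := by norm_num [lp]
  have q : ∀ j, (n.th : ℝ) / 1000000 ≤ n.lp j ∧ n.lp j ≤ (250000 : ℕ) / 1000000 := fun j => by
    unfold lp
    split_ifs <;> constructor <;> push_cast <;> linarith
  have t0 : (0 : ℝ) ≤ n.th := Nat.cast_nonneg _
  have P5 := par05_of_chk h05 (lp := n.lp) (Nat.cast_le.1 a1) (fun j => (q j).1) (fun j a => by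
      interval_cases j <;> norm_num [p1, p2, p3, p4] <;> linarith) (fun j m a b => by
      have : m ≤ 3 := by omega
      have : j ≤ 2 := by omega
      interval_cases j <;> interval_cases m <;>
        first | omega | (norm_num [p1, p2, p3]; linarith))
    fun j m a b => by
      have : j ≤ 3 := by omega
      obtain rfl : m = 4 - j := by omega
      interval_cases j <;> norm_num [p1, p2, p3] <;> linarith
  have P1 : Par1' (T1.Pt T) n.lp (n.g / 1000000) (n.b / 1000000) :=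
    ⟨⟨fun _ _ => by unfold T1.Pt; positivity, fun j => le_trans (by positivity) (q j).1,
      by positivity, fun j m a => by
        have : m ≤ 4 := by omega
        have : j ≤ 4 := by omega
        interval_cases j <;> interval_cases m <;>
          first | omega | (norm_num [p1, p2, p3, p4] <;> linarith),
      by linarith, by linarith, by linarith, by linarith, by positivity, by linarith, by linarith⟩,
      by linarith, by linarith, by linarith⟩
  have B : T1.Ctx.Bd n.cs n.lp (n.g / 1000000) (n.b / 1000000) :=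
    ⟨le_rfl, le_rfl, by simp only [cs]; push_cast; linarith, by simp only [cs]; push_cast; linarith,
      by
        simp only [cs]
        rw [Nat.cast_sub (by exact_mod_cast (by linarith : (3 * n.l3 : ℝ) ≤ 1000000))]
        push_cast
        linarith⟩
  refine Ad.s_main_of_reps hp T n.lp 250000 (fun j => (q j).2) reps
    (fun R v a b => exists_rep a b) hs (T1.main P1 B (fun R hR v h2 => ?_) (t05_tab P5 h0))
  obtain ⟨E, L, F, d1, d2, d3⟩ := exists_rep hR (mem_vs_of_star (one_le_two.trans h2))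
  refine ⟨E, L, F, d1, d2, (Bool.or_eq_true_iff.1 (List.all_eq_true.1 h1 _ d3)).resolve_left
    fun e => ?_⟩
  rw [T1.card_pc d1 fun e a => (mem_star.1 a).2,
    show msk E v = 1 from Nat.eq_of_beq_eq_true e] at h2
  exact absurd h2 (by decide)

end Nums

end Pool.Agent.P.MP_b2082d_co.Gen
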