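import Pool.Agent.P.MP_b2082d_co.G.CtxDefs

/-! Seven edges on twelve vertices: few moves leave an expensive rest. -/

namespace Pool.Agent.P.MP_b2082d_co.Gen
open Finset

namespace Bad
variable {R : Hg} {x x' y y' z : ℕ} {g h k : Finset ℕ}

theorem mem_rs {e : Finset ℕ} : e ∈ res R {x} ↔ e ∈ R ∧ x ∉ e := by
  rw [mem_res, disjoint_singleton_left]

theorem card_rs (R : Hg) (x : ℕ) : (star R x).card + (res R {x}).card = R.card := by
  rw [← card_filter_add_card_filter_not (s := R) fun e => x ∈ e]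
  congr 2
  ext e
  rw [mem_rs, mem_filter]

theorem deg_sum (hR : Cls R) : ∑ v ∈ vs R, (star R v).card = 4 * R.card := by
  have e1 : ∑ v ∈ vs R, ∑ _e ∈ star R v, 1 = ∑ e ∈ R, ∑ _v ∈ e, 1 :=
    sum_comm' fun v e => by
      rw [mem_star, mem_vs]
      exact ⟨fun a => ⟨a.2.2, a.2.1⟩, fun a => ⟨⟨e, a.2, a.1⟩, a.2, a.1⟩⟩
  simp only [← card_eq_sum_ones] at e1
  rw [e1, sum_congr rfl hR.unif, sum_const, smul_eq_mul, mul_comm]

theorem vs_of (h : 1 ≤ (star R x).card) : x ∈ vs R := by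
  obtain ⟨e, he⟩ := card_pos.1 h
  exact mem_vs.2 ⟨e, mem_star.1 he⟩

theorem sub_vs (he : g ∈ R) : g ⊆ vs R := fun _ hv => mem_vs.2 ⟨g, he, hv⟩

/-- every other vertex lies in an edge without `x`. -/
def Cov (R : Hg) (x : ℕ) : Prop := ∀ v ∈ vs R, v ≠ x → ∃ e ∈ R, x ∉ e ∧ v ∈ e

theorem cov_of (h12 : (vs R).card = 12) (hx : x ∈ vs R) (h : (vs (res R {x})).card = 11) :
    Cov R x := fun v hv a => by
  have b : vs (res R {x}) ⊆ (vs R).erase x := fun u hu =>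
    mem_erase.2 ⟨fun c => not_mem_vs_res (mem_singleton.2 c) hu, vs_mono (res_subset _ _) hu⟩
  have c := eq_of_subset_of_card_le b (by rw [card_erase_of_mem hx]; omega)
  obtain ⟨e, e1, e2⟩ := mem_vs.1 (c ▸ mem_erase.2 ⟨a, hv⟩ : v ∈ vs (res R {x}))
  exact ⟨e, (mem_rs.1 e1).1, (mem_rs.1 e1).2, e2⟩

/-- after the move of `x` the edge `g` is isolated. -/
structure Bd (R : Hg) (x : ℕ) (g : Finset ℕ) : Prop where
  c0 : C0 R
  c7 : R.card = 7
  c12 : (vs R).card = 12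
  deg : (star R x).card = 3
  mem : g ∈ R
  out : x ∉ g
  iso : ∀ e ∈ R, e ≠ g → ∀ v ∈ e, v ∈ g → x ∈ e
  cov : Cov R x

theorem bd_of (hR : C0 R) (h7 : R.card = 7) (h12 : (vs R).card = 12) (h : Bad3 R x) :
    ∃ g, Bd R x g := by
  obtain ⟨a, b, g, g1, g2⟩ := h
  obtain ⟨g3, g4⟩ := mem_rs.1 g1
  have c : lvs (res R {x}) g = g :=
    eq_of_subset_of_card_le (filter_subset _ _) (by rw [g2, hR.cls.unif g g3])
  refine ⟨g, hR, h7, h12, a, g3, g4, fun e he d v v1 v2 => by_contra fun f => d ?_,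
    cov_of h12 (vs_of (by omega)) b⟩
  exact deg_one (mem_lvs.1 (c.symm ▸ v2 : v ∈ lvs (res R {x}) g)).2 (mem_rs.2 ⟨he, f⟩) g1 v1 v2

theorem Bd.vx (a : Bd R x g) : x ∈ vs R := vs_of (by rw [a.deg]; norm_num)

theorem Bd.card (a : Bd R x g) : ((res R {x}).erase g).card = 3 := by
  have b := card_rs R x
  rw [card_erase_of_mem (mem_rs.2 ⟨a.mem, a.out⟩)]
  rw [a.deg, a.c7] at b
  omega

/-- the three remaining edges lie on seven vertices. -/
theorem Bd.meet (a : Bd R x g) {e f : Finset ℕ} (he : e ∈ R) (hf : f ∈ R) (e1 : x ∉ e)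
    (f1 : x ∉ f) (e2 : e ≠ g) (f2 : f ≠ g) : ∃ v ∈ e, v ∈ f := by
  by_contra b
  have c : Disjoint e f := disjoint_left.2 fun v v1 v2 => b ⟨v, v1, v2⟩
  have d : ∀ t ∈ R, x ∉ t → t ≠ g → t ⊆ (vs R \ g).erase x := fun t t1 t2 t3 v hv =>
    mem_erase.2 ⟨fun u => t2 (u ▸ hv), mem_sdiff.2 ⟨sub_vs t1 hv, fun u => t2 (a.iso t t1 t3 v hv u)⟩⟩
  have u := card_le_card (union_subset (d e he e1 e2) (d f hf f1 f2))
  rw [card_union_of_disjoint c, card_erase_of_mem (mem_sdiff.2 ⟨a.vx, a.out⟩),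
    card_sdiff_of_subset (sub_vs a.mem), a.c12, a.c0.cls.unif e he, a.c0.cls.unif f hf,
    a.c0.cls.unif g a.mem] at u
  omega

theorem Bd.notin (a : Bd R x g) (b : Bd R y h) (_ : y ≠ x) : y ∉ g := fun c => by
  have hg : h ≠ g := fun d => b.out (d ▸ c)
  have key : ∀ f ∈ R, x ∉ f → f ≠ g → f ≠ h → ∀ v ∈ f, v ∉ h := fun f f1 f2 f3 f4 v v1 v2 =>
    f2 (a.iso f f1 f3 y (b.iso f f1 f4 v v1 v2) c)
  by_cases d : x ∈ h
  · have e : h.erase x ⊆ h ∩ g := fun v hv => by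
      obtain ⟨v1, v2⟩ := mem_erase.1 hv
      obtain ⟨f, f1, f2, f3⟩ := a.cov v (sub_vs b.mem v2) v1
      refine mem_inter.2 ⟨v2, by_contra fun u => ?_⟩
      exact key f f1 f2 (fun t => u (t ▸ f3)) (fun t => f2 (t ▸ d)) v f3 v2
    have e1 := card_le_card e
    have e2 := a.c0.co2 h b.mem g a.mem hg
    rw [card_erase_of_mem d, a.c0.cls.unif h b.mem] at e1
    omega
  · obtain ⟨f, f1, f2⟩ := exists_mem_ne (by rw [a.card]; norm_num : 1 < _) h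
    obtain ⟨f3, f4⟩ := mem_erase.1 f1
    obtain ⟨f5, f6⟩ := mem_rs.1 f4
    obtain ⟨v, v1, v2⟩ := a.meet f5 b.mem f6 d f3 hg
    exact key f f5 f6 f3 f2 v v1 v2

theorem Bd.disj (a : Bd R x g) (b : Bd R y h) (ne : x ≠ y) (hg : g ≠ h) : Disjoint g h :=
  disjoint_left.2 fun v v1 v2 => b.notin a ne (a.iso h b.mem hg.symm v v2 v1)

theorem Bd.three (a : Bd R x g) (b : Bd R y h) (c : Bd R z k) (n1 : x ≠ y) (n2 : x ≠ z)
    (n3 : y ≠ z) (m1 : g ≠ h) (m2 : g ≠ k) (m3 : h ≠ k) : False := by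
  have d : g ∪ h ∪ k ⊆ (vs R).erase x := by
    rw [subset_erase]
    refine ⟨union_subset (union_subset (sub_vs a.mem) (sub_vs b.mem)) (sub_vs c.mem), ?_⟩
    simp [a.out, b.notin a n1, c.notin a n2]
  have e := card_le_card d
  rw [card_union_of_disjoint (disjoint_union_left.2 ⟨a.disj c n2 m2, b.disj c n3 m3⟩),
    card_union_of_disjoint (a.disj b n1 m1), card_erase_of_mem a.vx, a.c12,
    a.c0.cls.unif g a.mem, a.c0.cls.unif h b.mem, a.c0.cls.unif k c.mem] at e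
  omega

theorem Bd.two (a : Bd R x g) (b : Bd R y h) (ne : x ≠ y) :
    (star R x ∩ star R y).card ≤ 2 := by
  obtain ⟨f, f1, f2, f3⟩ := a.cov y b.vx ne.symm
  have c : star R x ∩ star R y ⊆ (star R y).erase f := by
    rw [subset_erase]
    exact ⟨inter_subset_right, fun d => f2 (mem_star.1 (mem_inter.1 d).1).2⟩
  have d := card_le_card c
  rw [card_erase_of_mem (mem_star.2 ⟨f1, f3⟩), b.deg] at d
  exact d

/-- an edge meets two other edges. -/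
theorem nbr (hR : C0 R) (hI : Irr R) (h7 : R.card = 7) (hg : g ∈ R) :
    ∃ e ∈ R, ∃ f ∈ R, e ≠ f ∧ e ≠ g ∧ f ≠ g ∧ (∃ v ∈ e, v ∈ g) ∧ ∃ v ∈ f, v ∈ g := by
  have a := hI.two (singleton_subset_iff.2 hg) (singleton_ne_empty g) fun b => by
    rw [← b, card_singleton] at h7
    omega
  have m : ∀ v ∈ vs {g} ∩ vs (R \ {g}), v ∈ g ∧ ∃ e ∈ R, e ≠ g ∧ v ∈ e := fun v hv => by
    obtain ⟨v1, v2⟩ := mem_inter.1 hv
    obtain ⟨e, e1, e2⟩ := mem_vs.1 v1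
    obtain ⟨f, f1, f2⟩ := mem_vs.1 v2
    rw [mem_sdiff, mem_singleton] at f1
    exact ⟨mem_singleton.1 e1 ▸ e2, f, f1.1, f1.2, f2⟩
  obtain ⟨u, hu⟩ := card_pos.1 (lt_of_lt_of_le two_pos a)
  obtain ⟨u1, e, e1, e2, e3⟩ := m u hu
  by_contra b
  have c : ∀ f ∈ R, f ≠ g → ∀ v ∈ f, v ∈ g → f = e := fun f f1 f2 v v1 v2 => by_contra fun d =>
    b ⟨f, f1, e, e1, d, f2, e2, ⟨v, v1, v2⟩, u, e3, u1⟩
  have d1 : vs {g} ∩ vs (R \ {g}) ⊆ e ∩ g := fun v hv => by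
    obtain ⟨v1, f, f1, f2, f3⟩ := m v hv
    exact mem_inter.2 ⟨c f f1 f2 v f3 v1 ▸ f3, v1⟩
  have d2 : vs {e, g} ∩ vs (R \ {e, g}) ⊆ e \ g := fun v hv => by
    obtain ⟨v1, v2⟩ := mem_inter.1 hv
    obtain ⟨s, s1, s2⟩ := mem_vs.1 v1
    obtain ⟨f, f1, f2⟩ := mem_vs.1 v2
    simp only [mem_sdiff, mem_insert, mem_singleton, not_or] at f1 s1
    have t : v ∉ g := fun t => f1.2.1 (c f f1.1 f1.2.2 v f2 t)
    exact mem_sdiff.2 ⟨s1.elim (fun w => w ▸ s2) fun w => absurd (w ▸ s2) t, t⟩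
  have d3 := hI.three (S := {e, g}) (insert_subset e1 (singleton_subset_iff.2 hg))
    (by rw [card_pair e2]) (by rw [card_pair e2, h7]; norm_num)
  have d4 := card_le_card d1
  have d5 := card_le_card d2
  have d6 := card_sdiff_add_card_inter e g
  rw [hR.cls.unif e e1] at d6
  omega

theorem Bd.same (hI : Irr R) (a : Bd R x g) (b : Bd R y g) (c : Bd R z g) (n1 : x ≠ y)
    (n2 : x ≠ z) (n3 : y ≠ z) : False := by
  obtain ⟨e, e1, f, f1, ne, e2, f2, ⟨u, u1, u2⟩, v, v1, v2⟩ := nbr a.c0 hI a.c7 a.mem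
  have d : {x, y, z} ⊆ e ∩ f := by
    simp [insert_subset_iff, a.iso e e1 e2 u u1 u2, b.iso e e1 e2 u u1 u2, c.iso e e1 e2 u u1 u2,
      a.iso f f1 f2 v v1 v2, b.iso f f1 f2 v v1 v2, c.iso f f1 f2 v v1 v2]
  have d1 := card_le_card d
  have d2 := a.c0.co2 e e1 f f1 ne
  rw [card_eq_three.2 ⟨x, y, z, n1, n2, n3, rfl⟩] at d1
  omega

theorem Bd.leaf (hI : Irr R) (a : Bd R x g) (b : Bd R y g) (n1 : x ≠ y) :
    ∃ v, (star R v).card = 1 := by
  obtain ⟨e, e1, f, f1, ne, e2, f2, ⟨u, u1, u2⟩, v, v1, v2⟩ := nbr a.c0 hI a.c7 a.mem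
  have m : ∀ t ∈ R, t ≠ g → ∀ w ∈ t, w ∈ g → t ∈ star R x ∩ star R y := fun t t1 t2 w w1 w2 =>
    mem_inter.2 ⟨mem_star.2 ⟨t1, a.iso t t1 t2 w w1 w2⟩, mem_star.2 ⟨t1, b.iso t t1 t2 w w1 w2⟩⟩
  have c : {e, f} = star R x ∩ star R y := eq_of_subset_of_card_le
    (insert_subset (m e e1 e2 u u1 u2) (singleton_subset_iff.2 (m f f1 f2 v v1 v2)))
    (by rw [card_pair ne]; exact a.two b n1)
  simp only [← c, mem_insert, mem_singleton] at m
  by_contra d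
  have d1 : g ⊆ e ∪ f := fun w hw => by
    have p := star_pos (sub_vs a.mem hw)
    have q : (star R w).card ≠ 1 := fun q => d ⟨w, q⟩
    obtain ⟨t, t1, t2⟩ := exists_mem_ne (by omega : 1 < (star R w).card) g
    obtain ⟨t3, t4⟩ := mem_star.1 t1
    exact (m t t3 t2 w t4 hw).elim (fun s => mem_union_left _ (s ▸ t4))
      fun s => mem_union_right _ (s ▸ t4)
  have d2 : vs {g, e, f} ∩ vs (R \ {g, e, f}) ⊆ (e ∪ f) \ g := fun w hw => by
    obtain ⟨w1, w2⟩ := mem_inter.1 hw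
    obtain ⟨s, s1, s2⟩ := mem_vs.1 w1
    obtain ⟨t, t1, t2⟩ := mem_vs.1 w2
    simp only [mem_sdiff, mem_insert, mem_singleton, not_or] at t1 s1
    have r : w ∉ g := fun r => (m t t1.1 t1.2.1 w t2 r).elim t1.2.2.1 t1.2.2.2
    refine mem_sdiff.2 ⟨mem_union.2 ?_, r⟩
    rcases s1 with s1 | s1 | s1
    exacts [absurd (s1 ▸ s2) r, Or.inl (s1 ▸ s2), Or.inr (s1 ▸ s2)]
  have c3 : ({g, e, f} : Hg).card = 3 := card_eq_three.2 ⟨g, e, f, e2.symm, f2.symm, ne, rfl⟩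
  have d3 := hI.three (S := {g, e, f})
    (insert_subset a.mem (insert_subset e1 (singleton_subset_iff.2 f1)))
    (by rw [c3]; norm_num) (by rw [c3, a.c7]; norm_num)
  have d4 := card_le_card d2
  have d5 : {x, y} ⊆ e ∩ f := by
    simp [insert_subset_iff, a.iso e e1 e2 u u1 u2, b.iso e e1 e2 u u1 u2,
      a.iso f f1 f2 v v1 v2, b.iso f f1 f2 v v1 v2]
  have d6 := card_le_card d5
  have d7 := card_union_add_card_inter e f
  rw [card_sdiff_of_subset d1, a.c0.cls.unif g a.mem] at d4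
  rw [card_pair n1] at d6
  rw [a.c0.cls.unif e e1, a.c0.cls.unif f f1] at d7
  omega

/-- the edges through two vertices with the same isolated edge. -/
theorem Bd.pair (a : Bd R x g) (a' : Bd R x' g) (b : Bd R y h) (n1 : x ≠ x') (n2 : y ≠ x)
    (m : g ≠ h) : ((res R {y}).erase h).erase g = star R x ∩ star R x' := by
  have c := a.notin b n2
  refine eq_of_subset_of_card_le (fun f hf => ?_) ?_
  · obtain ⟨f1, f2⟩ := mem_erase.1 hf
    obtain ⟨f3, f4⟩ := mem_erase.1 f2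
    obtain ⟨f5, f6⟩ := mem_rs.1 f4
    obtain ⟨v, v1, v2⟩ := b.meet f5 a.mem f6 c f3 m
    exact mem_inter.2 ⟨mem_star.2 ⟨f5, a.iso f f5 f1 v v1 v2⟩, mem_star.2 ⟨f5, a'.iso f f5 f1 v v1 v2⟩⟩
  · rw [card_erase_of_mem (mem_erase.2 ⟨m, mem_rs.2 ⟨a.mem, c⟩⟩), b.card]
    exact a.two a' n1

theorem Bd.four (a : Bd R x g) (a' : Bd R x' g) (b : Bd R y h) (b' : Bd R y' h) (n1 : x ≠ x')
    (n2 : y ≠ x) (n3 : y' ≠ x) (n4 : y' ≠ y) (m : g ≠ h) : False := by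
  obtain ⟨f, f1, f2, f3⟩ := b.cov y' b'.vx n4
  have c : f ∈ ((res R {y}).erase h).erase g := mem_erase.2 ⟨fun d => a.notin b' n3 (d ▸ f3),
    mem_erase.2 ⟨fun d => b'.out (d ▸ f3), mem_rs.2 ⟨f1, f2⟩⟩⟩
  rw [a.pair a' b n1 n2 m, ← a.pair a' b' n1 n3 m] at c
  exact (mem_rs.1 (mem_erase.1 (mem_erase.1 c).2).2).2 f3

theorem Bd.out4 (a : Bd R x g) (d : (star R z).card = 4) (c : Cov R z) : z ∉ g := fun b => by
  obtain ⟨f, f1, f2, f3⟩ := c x a.vx fun e => by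
    have := a.deg
    rw [e] at this
    omega
  have e : (star R z).erase g ⊆ (star R x).erase f := fun t ht => by
    obtain ⟨t1, t2⟩ := mem_erase.1 ht
    obtain ⟨t3, t4⟩ := mem_star.1 t2
    exact mem_erase.2 ⟨fun u => f2 (u ▸ t4), mem_star.2 ⟨t3, a.iso t t3 t1 z t4 b⟩⟩
  have e1 := card_le_card e
  rw [card_erase_of_mem (mem_star.2 ⟨a.mem, b⟩), card_erase_of_mem (mem_star.2 ⟨f1, f3⟩), d,
    a.deg] at e1
  omega

/-- the third edge that is left by a move of degree four. -/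
theorem Bd.third (a : Bd R x g) (b : Bd R y h) (m : g ≠ h) (d : (star R z).card = 4)
    (c : Cov R z) : ∃ H ∈ R, ∀ v ∈ vs R, v ≠ z → v ∉ g → v ∉ h → v ∈ H := by
  have e := card_rs R z
  have e1 : (((res R {z}).erase g).erase h).card = 1 := by
    rw [card_erase_of_mem (mem_erase.2 ⟨m.symm, mem_rs.2 ⟨b.mem, b.out4 d c⟩⟩),
      card_erase_of_mem (mem_rs.2 ⟨a.mem, a.out4 d c⟩)]
    rw [d, a.c7] at e
    omega
  obtain ⟨H, hH⟩ := card_eq_one.1 e1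
  refine ⟨H, (mem_rs.1 (mem_erase.1 (mem_erase.1 (hH ▸ mem_singleton_self H)).2).2).1,
    fun v v1 v2 v3 v4 => ?_⟩
  obtain ⟨f, f1, f2, f3⟩ := c v v1 v2
  have u : f ∈ ((res R {z}).erase g).erase h := mem_erase.2 ⟨fun t => v4 (t ▸ f3),
    mem_erase.2 ⟨fun t => v3 (t ▸ f3), mem_rs.2 ⟨f1, f2⟩⟩⟩
  rw [hH, mem_singleton] at u
  exact u ▸ f3

theorem Bd.ne4 (a : Bd R x g) (d : (star R z).card = 4) : x ≠ z := fun e => by
  have := a.deg
  rw [e] at this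
  omega

theorem Bd.no4 (a : Bd R x g) (a' : Bd R x' g) (b : Bd R y h) (n1 : x ≠ x') (n2 : y ≠ x)
    (n3 : y ≠ x') (m : g ≠ h) (d : (star R z).card = 4) (c : Cov R z) : False := by
  obtain ⟨H, H1, H2⟩ := a.third b m d c
  have e : H ∈ star R x ∩ star R x' := mem_inter.2
    ⟨mem_star.2 ⟨H1, H2 x a.vx (a.ne4 d) a.out (b.notin a n2.symm)⟩,
      mem_star.2 ⟨H1, H2 x' a'.vx (a'.ne4 d) a'.out (b.notin a' n3.symm)⟩⟩
  rw [← a.pair a' b n1 n2 m] at e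
  exact (mem_rs.1 (mem_erase.1 (mem_erase.1 e).2).2).2
    (H2 y b.vx (b.ne4 d) (a.notin b n2) b.out)

theorem Bd.leaf4 (a : Bd R x g) (b : Bd R y h) (n : x ≠ y) (m : g ≠ h)
    (d : (star R z).card = 4) (c : Cov R z) : ∃ v, (star R v).card = 1 := by
  obtain ⟨H, H1, H2⟩ := a.third b m d c
  have xh := b.notin a n
  have yg := a.notin b n.symm
  have xH := H2 x a.vx (a.ne4 d) a.out xh
  have yH := H2 y b.vx (b.ne4 d) yg b.out
  have c3 : ({x, y, z} : Finset ℕ).card = 3 := card_eq_three.2 ⟨x, y, z, n, a.ne4 d, b.ne4 d, rfl⟩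
  obtain ⟨w, w1, w2⟩ := exists_mem_notMem_of_card_lt_card (s := {x, y, z})
    (t := vs R \ (g ∪ h)) (by
      rw [c3, card_sdiff_of_subset (union_subset (sub_vs a.mem) (sub_vs b.mem)),
        card_union_of_disjoint (a.disj b n m), a.c12, a.c0.cls.unif g a.mem,
        a.c0.cls.unif h b.mem]
      norm_num)
  have w2' := w2
  simp only [mem_sdiff, mem_union, mem_insert, mem_singleton, not_or] at w1 w2'
  obtain ⟨f, f1, f2, f3⟩ := a.cov w w1.1 w2'.1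
  obtain ⟨t, t1, t2, t3⟩ := b.cov w w1.1 w2'.2.1
  have fh : f ≠ h := fun u => w1.2.2 (u ▸ f3)
  obtain ⟨v, v1, v2⟩ := a.meet f1 b.mem f2 xh (fun u => w1.2.1 (u ▸ f3)) m.symm
  have yf := b.iso f f1 fh v v1 v2
  have e : {H, f, t} ⊆ star R w := by
    simp [insert_subset_iff, mem_star, H1, f1, t1, f3, t3, H2 w w1.1 w2'.2.2 w1.2.1 w1.2.2]
  have e1 := card_le_card e
  rw [card_eq_three.2 ⟨H, f, t, fun u => f2 (u ▸ xH), fun u => t2 (u ▸ yH),
    fun u => t2 (u ▸ yf), rfl⟩] at e1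
  by_contra q
  have s1 : {w, x, y, z} ⊆ vs R := by
    simp [insert_subset_iff, w1.1, a.vx, b.vx, vs_of (d ▸ (by norm_num : 1 ≤ 4))]
  have s2 := deg_sum a.c0.cls
  have s3 := card_nsmul_le_sum (vs R \ {w, x, y, z}) (fun v => (star R v).card) 2 fun v hv => by
    have p := star_pos (mem_sdiff.1 hv).1
    have r : (star R v).card ≠ 1 := fun r => q ⟨v, r⟩
    omega
  rw [← sum_sdiff s1, sum_insert w2, sum_insert (by simp [n, a.ne4 d]),
    sum_pair (b.ne4 d), a.deg, b.deg, d, a.c7] at s2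
  rw [card_sdiff_of_subset s1, card_insert_of_notMem w2, c3, a.c12, smul_eq_mul] at s3
  omega

end Bad

open Bad in
theorem s_bad : S_bad := fun R hR hI h7 h12 B hB => by
  have hg : ∀ x, ∃ g, x ∈ B → Bd R x g := fun x => by
    by_cases a : x ∈ B
    · exact (bd_of hR h7 h12 (hB x a)).imp fun _ b _ => b
    · exact ⟨∅, fun b => absurd b a⟩
  choose g hg using hg
  have h4 : ∀ z, Bad4 R z → (star R z).card = 4 ∧ Cov R z := fun z a =>
    ⟨a.1, cov_of h12 (vs_of (by rw [a.1]; norm_num)) a.2⟩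
  have k : ∀ x ∈ B, ∀ x' ∈ B, ∀ y ∈ B, x ≠ x' → y ≠ x → y ≠ x' → g x = g x' →
      ((∃ v, (star R v).card = 1) ∧ ∀ z, ¬ Bad4 R z) ∧ ∀ t ∈ B, t = x ∨ t = x' ∨ t = y :=
    fun x hx x' hx' y hy n1 n2 n3 e => by
      have a := hg x hx
      have a' : Bd R x' (g x) := e ▸ hg x' hx'
      have m : ∀ t ∈ B, t ≠ x → t ≠ x' → g x ≠ g t := fun t ht t1 t2 u =>
        a.same hI a' (u ▸ hg t ht) n1 t1.symm t2.symm
      refine ⟨⟨a.leaf hI a' n1, fun z hz =>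
        a.no4 a' (hg y hy) n1 n2 n3 (m y hy n2 n3) (h4 z hz).1 (h4 z hz).2⟩,
        fun t ht => by_contra fun u => ?_⟩
      simp only [not_or] at u
      by_cases c : g y = g t
      · exact a.four a' (hg y hy) (c ▸ hg t ht) n1 n2 u.1 u.2.2 (m y hy n2 n3)
      · exact a.three (hg y hy) (hg t ht) n2.symm (Ne.symm u.1) (Ne.symm u.2.2) (m y hy n2 n3)
          (m t ht u.1 u.2.1) c
  have k3 : 2 < B.card → ((∃ v, (star R v).card = 1) ∧ ∀ z, ¬ Bad4 R z) ∧ B.card ≤ 3 := fun a => by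
    obtain ⟨x, y, z, hx, hy, hz, n1, n2, n3⟩ := two_lt_card_iff.1 a
    have c : ∀ x y z : ℕ, (∀ t ∈ B, t = x ∨ t = y ∨ t = z) → B.card ≤ 3 := fun x y z b =>
      (card_le_card (show B ⊆ {x, y, z} from fun t ht => by simpa using b t ht)).trans card_le_three
    by_cases m1 : g x = g y
    · exact (k x hx y hy z hz n1 n2.symm n3.symm m1).imp_right (c _ _ _)
    by_cases m2 : g x = g z
    · exact (k x hx z hz y hy n2 n1.symm n3 m2).imp_right (c _ _ _)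
    by_cases m3 : g y = g z
    · exact (k y hy z hz x hx n3 n1 n2 m3).imp_right (c _ _ _)
    exact ((hg x hx).three (hg y hy) (hg z hz) n1 n2 n3 m1 m2 m3).elim
  refine ⟨by_contra fun a => a (k3 (by omega)).2, fun a => (k3 (by omega)).1, fun a => ?_⟩
  obtain ⟨x, y, n, e⟩ := card_eq_two.1 a
  have hx := hg x (by simp [e])
  have hy := hg y (by simp [e])
  by_cases m : g x = g y
  · exact Or.inl (hx.leaf hI (m ▸ hy) n)
  · exact or_iff_not_imp_left.2 fun b z hz => b (hx.leaf4 hy n m (h4 z hz).1 (h4 z hz).2)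

end Pool.Agent.P.MP_b2082d_co.Gen
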