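import Mathlib

/-! Weighted transversals of finite set systems on the natural numbers. -/

namespace Pool.Agent.P.MP_b2082d_co.Gen
open Finset

abbrev Hg := Finset (Finset ℕ)

/-- the vertices that lie in an edge. -/
def vs (R : Hg) : Finset ℕ := R.biUnion id

def Tr (R : Hg) (T : Finset ℕ) : Prop := ∀ e ∈ R, (T ∩ e).Nonempty

/-- the prices `p` pay for a transversal, whatever the weights are. -/
def Good (R : Hg) (p : ℕ → ℝ) : Prop :=
  ∀ w : ℕ → ℝ, (∀ v, 0 ≤ w v) → ∃ T, Tr R T ∧ ∑ v ∈ T, w v ≤ ∑ v ∈ vs R, w v * p v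

/-- the edges missed by `X`. -/
def res (R : Hg) (X : Finset ℕ) : Hg := R.filter fun e => Disjoint X e

theorem mem_vs {R : Hg} {v : ℕ} : v ∈ vs R ↔ ∃ e ∈ R, v ∈ e := by simp [vs]

theorem vs_mono {A B : Hg} (h : A ⊆ B) : vs A ⊆ vs B := biUnion_subset_biUnion_of_subset_left _ h

theorem vs_union (A B : Hg) : vs (A ∪ B) = vs A ∪ vs B := union_biUnion

theorem vs_insert (e : Finset ℕ) (A : Hg) : vs (insert e A) = e ∪ vs A := biUnion_insert

theorem res_subset (R : Hg) (X : Finset ℕ) : res R X ⊆ R := filter_subset _ _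

theorem mem_res {R : Hg} {X e : Finset ℕ} : e ∈ res R X ↔ e ∈ R ∧ Disjoint X e := mem_filter

theorem not_mem_vs_res {R : Hg} {X : Finset ℕ} {v : ℕ} (h : v ∈ X) : v ∉ vs (res R X) := fun h1 => by
  obtain ⟨e, he, hv⟩ := mem_vs.1 h1
  exact disjoint_left.1 (mem_res.1 he).2 h hv

theorem Tr.mono {R : Hg} {T U : Finset ℕ} (h : Tr R T) (hU : T ⊆ U) : Tr R U := fun e he =>
  (h e he).mono (inter_subset_inter_right hU)

theorem Tr.sub {A B : Hg} {T : Finset ℕ} (h : Tr B T) (hA : A ⊆ B) : Tr A T := fun e he => h e (hA he)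

theorem Tr.inter {R : Hg} {T : Finset ℕ} (h : Tr R T) : Tr R (T ∩ vs R) := fun e he => by
  obtain ⟨v, hv⟩ := h e he
  rw [mem_inter] at hv
  exact ⟨v, mem_inter.2 ⟨mem_inter.2 ⟨hv.1, mem_vs.2 ⟨e, he, hv.2⟩⟩, hv.2⟩⟩

theorem Tr.union {A B : Hg} {T U : Finset ℕ} (h : Tr A T) (h' : Tr B U) : Tr (A ∪ B) (T ∪ U) :=
  fun e he => (mem_union.1 he).elim (fun a => h.mono subset_union_left e a)
    fun a => h'.mono subset_union_right e a

theorem Tr.of_res {R : Hg} {X T : Finset ℕ} (h : Tr (res R X) T) : Tr R (X ∪ T) := fun e he => by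
  by_cases a : Disjoint X e
  · exact h.mono subset_union_right e (mem_res.2 ⟨he, a⟩)
  · exact (not_disjoint_iff_nonempty_inter.1 a).mono (inter_subset_inter_right subset_union_left)

theorem sum_union_le {w : ℕ → ℝ} (hw : ∀ v, 0 ≤ w v) (T U : Finset ℕ) :
    ∑ v ∈ T ∪ U, w v ≤ ∑ v ∈ T, w v + ∑ v ∈ U, w v := by
  rw [← sum_union_inter]
  exact le_add_of_nonneg_right (sum_nonneg fun v _ => hw v)

theorem sum_mono {w : ℕ → ℝ} (hw : ∀ v, 0 ≤ w v) {T U : Finset ℕ} (h : T ⊆ U) :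
    ∑ v ∈ T, w v ≤ ∑ v ∈ U, w v := sum_le_sum_of_subset_of_nonneg h fun v _ _ => hw v

theorem Good.mono {R : Hg} {p q : ℕ → ℝ} (h : Good R p) (hq : ∀ v ∈ vs R, p v ≤ q v) :
    Good R q := fun w hw => by
  obtain ⟨T, h1, h2⟩ := h w hw
  exact ⟨T, h1, h2.trans (sum_le_sum fun v hv => mul_le_mul_of_nonneg_left (hq v hv) (hw v))⟩

theorem good_empty (p : ℕ → ℝ) : Good ∅ p := fun w _ => ⟨∅, fun e he => absurd he (by simp), by
  simp [vs]⟩

/-- forgetting edges keeps the prices. -/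
theorem Good.sub {A B : Hg} {p : ℕ → ℝ} (h : Good B p) (hA : A ⊆ B) : Good A p := fun w hw => by
  obtain ⟨T, h1, h2⟩ := h (fun v => if v ∈ vs A then w v else 0) fun v => by
    split_ifs
    exacts [hw v, le_rfl]
  refine ⟨T ∩ vs A, (h1.sub hA).inter, ?_⟩
  rw [← sum_filter, filter_mem_eq_inter] at h2
  refine h2.trans (le_of_eq ?_)
  simp only [ite_mul, zero_mul]
  rw [← sum_filter, filter_mem_eq_inter, inter_eq_right.2 (vs_mono hA)]

/-- a fixed transversal. -/
theorem good_of_tr {R : Hg} {T : Finset ℕ} (h : Tr R T) :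
    Good R fun v => if v ∈ T then 1 else 0 := fun w _ => by
  refine ⟨T ∩ vs R, h.inter, le_of_eq ?_⟩
  simp only [mul_ite, mul_one, mul_zero]
  rw [← sum_filter, filter_mem_eq_inter, inter_comm]

/-- two systems, a common vertex pays twice. -/
theorem Good.union {A B : Hg} {p q r : ℕ → ℝ} (hA : Good A p) (hB : Good B q)
    (hr : ∀ v ∈ vs (A ∪ B), (if v ∈ vs A then p v else 0) + (if v ∈ vs B then q v else 0) ≤ r v) :
    Good (A ∪ B) r := fun w hw => by
  obtain ⟨T, h1, h2⟩ := hA w hw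
  obtain ⟨U, h3, h4⟩ := hB w hw
  refine ⟨T ∪ U, h1.union h3, (sum_union_le hw T U).trans ((add_le_add h2 h4).trans ?_)⟩
  refine le_trans (le_of_eq ?_)
    (sum_le_sum fun v hv => mul_le_mul_of_nonneg_left (hr v hv) (hw v))
  simp only [mul_add, mul_ite, mul_zero, sum_add_distrib]
  rw [← sum_filter, ← sum_filter, filter_mem_eq_inter, filter_mem_eq_inter,
    inter_eq_right.2 (vs_mono subset_union_left), inter_eq_right.2 (vs_mono subset_union_right)]

/-- buying the set `X` and paying for the rest. -/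
theorem Good.buy {R : Hg} {X : Finset ℕ} {p : ℕ → ℝ} (h : Good (res R X) p) :
    Good R fun v => if v ∈ X then 1 else if v ∈ vs (res R X) then p v else 0 := fun w hw => by
  obtain ⟨T, h1, h2⟩ := h w hw
  have h3 : Tr R ((X ∩ vs R) ∪ T) := fun e he => by
    by_cases a : Disjoint X e
    · exact h1.mono subset_union_right e (mem_res.2 ⟨he, a⟩)
    · obtain ⟨v, hv⟩ := not_disjoint_iff_nonempty_inter.1 a
      rw [mem_inter] at hv
      exact ⟨v, mem_inter.2 ⟨mem_union_left _ (mem_inter.2 ⟨hv.1, mem_vs.2 ⟨e, he, hv.2⟩⟩), hv.2⟩⟩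
  refine ⟨_, h3, (sum_union_le hw _ _).trans ((add_le_add le_rfl h2).trans (le_of_eq ?_))⟩
  have h4 : ∀ v, w v * (if v ∈ X then 1 else if v ∈ vs (res R X) then p v else 0) =
      (if v ∈ X then w v else 0) + if v ∈ vs (res R X) then w v * p v else 0 := fun v => by
    by_cases a : v ∈ X
    · simp [a, not_mem_vs_res a]
    · simp [a]
  simp only [h4, sum_add_distrib]
  rw [← sum_filter, ← sum_filter, filter_mem_eq_inter, filter_mem_eq_inter,
    inter_eq_right.2 (vs_mono (res_subset R X)), inter_comm]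

/-- averaging: a combination with nonnegative coefficients of valid price vectors. -/
theorem good_avg {R : Hg} {Ω : Type} (s : Finset Ω) (π : Ω → ℝ) (p : Ω → ℕ → ℝ) (q : ℕ → ℝ)
    (h0 : ∀ o ∈ s, 0 ≤ π o) (h1 : 0 < ∑ o ∈ s, π o) (h : ∀ o ∈ s, π o ≠ 0 → Good R (p o))
    (hq : ∀ v ∈ vs R, ∑ o ∈ s, π o * p o v ≤ (∑ o ∈ s, π o) * q v) : Good R q := fun w hw => by
  by_contra hc
  have h2 : ∀ o ∈ s, π o ≠ 0 → ∑ v ∈ vs R, w v * q v < ∑ v ∈ vs R, w v * p o v := fun o ho h3 => by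
    obtain ⟨T, h4, h5⟩ := h o ho h3 w hw
    exact (not_le.1 fun h6 => hc ⟨T, h4, h6⟩).trans_le h5
  have h3 : ∑ o ∈ s, π o * ∑ v ∈ vs R, w v * q v < ∑ o ∈ s, π o * ∑ v ∈ vs R, w v * p o v := by
    refine sum_lt_sum (fun o ho => ?_) ?_
    · by_cases a : π o = 0
      · simp [a]
      · exact mul_le_mul_of_nonneg_left (h2 o ho a).le (h0 o ho)
    · obtain ⟨o, ho, a⟩ := exists_ne_zero_of_sum_ne_zero h1.ne'
      exact ⟨o, ho, mul_lt_mul_of_pos_left (h2 o ho a) ((h0 o ho).lt_of_ne a.symm)⟩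
  have h4 : ∑ o ∈ s, π o * ∑ v ∈ vs R, w v * p o v = ∑ v ∈ vs R, w v * ∑ o ∈ s, π o * p o v := by
    simp only [mul_sum]
    rw [sum_comm]
    exact sum_congr rfl fun v _ => sum_congr rfl fun o _ => by ring
  have h5 := sum_le_sum fun v hv => mul_le_mul_of_nonneg_left (hq v hv) (hw v)
  have h6 : ∑ v ∈ vs R, w v * ((∑ o ∈ s, π o) * q v) = (∑ o ∈ s, π o) * ∑ v ∈ vs R, w v * q v := by
    rw [mul_sum]
    exact sum_congr rfl fun v _ => by ring
  rw [← sum_mul, h4] at h3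
  linarith

/-- two valid price vectors. -/
theorem Good.conv {R : Hg} {p q r : ℕ → ℝ} {t : ℝ} (hp : Good R p) (hq : Good R q) (h0 : 0 ≤ t)
    (h1 : t ≤ 1) (hr : ∀ v ∈ vs R, t * p v + (1 - t) * q v ≤ r v) : Good R r :=
  good_avg (univ : Finset Bool) (fun b => if b then t else 1 - t) (fun b => if b then p else q) r
    (fun b _ => by cases b <;> simp [h0, h1]) (by simp) (fun b _ _ => by cases b <;> simp [hp, hq])
    fun v hv => by simpa using hr v hv

/-- mixing deletion moves at rates `μ` with a price vector `c` for the remaining budget. -/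
theorem good_mix {R : Hg} (p μ c : ℕ → ℝ) (P : ℕ → ℕ → ℝ) (h0 : ∀ x ∈ vs R, 0 ≤ μ x)
    (h1 : ∀ x ∈ vs R, μ x ≠ 0 → Good (res R {x}) (P x)) (h2 : Good R c)
    (h3 : ∀ v ∈ vs R, c v ≤ p v - μ v * (1 - p v) + ∑ x ∈ (vs R).erase v,
      μ x * (p v - if v ∈ vs (res R {x}) then P x v else 0)) : Good R p := by
  refine good_avg (insertNone (vs R)) (fun o => o.elim 1 μ) (fun o => o.elim c fun x v =>
    if v ∈ ({x} : Finset ℕ) then 1 else if v ∈ vs (res R {x}) then P x v else 0) p ?_ ?_ ?_ ?_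
  · rintro (_ | x) hx
    · simp
    · exact h0 x (by simpa using hx)
  · rw [sum_insertNone]
    have := sum_nonneg h0
    simp only [Option.elim]
    linarith
  · rintro (_ | x) hx h
    · exact h2
    · exact (h1 x (by simpa using hx) h).buy
  · intro v hv
    have h4 := h3 v hv
    simp only [sum_insertNone, Option.elim]
    rw [← add_sum_erase _ _ hv, ← add_sum_erase _ μ hv]
    have h5 : ∑ x ∈ (vs R).erase v, μ x * (if v ∈ ({x} : Finset ℕ) then 1 else
        if v ∈ vs (res R {x}) then P x v else 0) = ∑ x ∈ (vs R).erase v,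
        μ x * (if v ∈ vs (res R {x}) then P x v else 0) :=
      sum_congr rfl fun x hx => by rw [if_neg (by simpa using (ne_of_mem_erase hx).symm)]
    simp only [mul_sub, sum_sub_distrib] at h4
    rw [← sum_mul] at h4
    rw [h5, if_pos (mem_singleton_self v)]
    nlinarith

end Pool.Agent.P.MP_b2082d_co.Gen
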