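import Pool.Agent.P.MP_b2082d_co.G.Struct1

/-! The prices of the first induction. -/

namespace Pool.Agent.P.MP_b2082d_co.Gen
open Finset

/-- the numbers, in millionths. -/
structure Num where
  (p1 p2 p3 pT g2 g23 g3 g33 g35 g356 g37 g4 : ℕ)

open Classical in
/-- the discount of a leaf of the edge `e`. -/
noncomputable def psi (N : Num) (R : Hg) (e : Finset ℕ) : ℕ :=
  if (lvs R e).card = 1 then (if Tw R e ∧ ∀ v ∈ e, (star R v).card ≤ 2 then N.pT else N.p3)
  else if (lvs R e).card = 2 then N.p2 else if (lvs R e).card = 3 then N.p1 else 0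

open Classical in
/-- the price of a vertex with the star `S` of two or more edges; `b` says that an edge of the
star has two leaves. -/
noncomputable def gS (N : Num) (v : ℕ) (S : Hg) (b : Prop) : ℕ :=
  if S.card = 2 then (if (vs S).card = 7 then N.g2 else N.g23)
  else if S.card = 3 then
    (if (vs S).card = 10 then N.g3 else if (vs S).card = 9 then N.g33
    else if (vs S).card = 8 then
      (if ∃ u, u ≠ v ∧ ∀ e ∈ S, u ∈ e then N.g37 else if b then N.g33 else N.g35)
    else N.g356)
  else N.g4

/-- the prices. -/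
noncomputable def P0 (N : Num) (R : Hg) (v : ℕ) : ℝ :=
  if (star R v).card = 1 then (250000 - psi N R (vs (star R v))) / 1000000
  else gS N v (star R v) (∃ e ∈ star R v, 2 ≤ (lvs R e).card) / 1000000

/-- what the step needs from the structure of the system. -/
structure Cut3 (R : Hg) : Prop where
  pend : ∀ e ∈ R, (lvs R e).card ≤ 2
  cut : ∀ S ⊆ R, S.card = 3 ∨ S.card = 5 ∨ S.card = 7 → 3 ≤ (vs S ∩ vs (R \ S)).card

/-- the step of the first induction. -/
def S_step (N : Num) : Prop := ∀ R, C0 R → Cut3 R →
  (∀ x, 3 ≤ (star R x).card → Good (res R {x}) (P0 N (res R {x}))) → Good R (P0 N R)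

end Pool.Agent.P.MP_b2082d_co.Gen
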