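import Pool.Agent.P.MP_b2082d_co.G.Asm
import Pool.Agent.P.MP_b2082d_co.G.T0Defs

/-! The prices of the first induction are below the prices of the table. -/

namespace Pool.Agent.P.MP_b2082d_co.Gen
open Finset T1

/-- the leaf prices of `n` are above those of `N`. -/
def LeafOk (N : Num) (n : Nums) : Prop := 250000 ≤ n.l1 + N.pT ∧ 250000 ≤ n.l1 + N.p3 ∧
  250000 ≤ n.l2 + N.p2 ∧ 250000 ≤ n.l3 + N.p1

instance (N : Num) (n : Nums) : Decidable (LeafOk N n) := by unfold LeafOk; infer_instance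

/-- `gS` read from the code. -/
noncomputable def gC (N : Num) (a : ℕ) (M : List ℕ) : ℕ :=
  if pc4 a = 2 then (if M.length + 1 = 7 then N.g2 else N.g23)
  else if pc4 a = 3 then
    (if M.length + 1 = 10 then N.g3 else if M.length + 1 = 9 then N.g33
    else if M.length + 1 = 8 then (if a ∈ M then N.g37 else max N.g33 N.g35) else N.g356)
  else N.g4

noncomputable def chkB (N : Num) (T : ℕ → ℕ) (r : ℕ × List ℕ × List ℕ) : Bool :=
  !r.2.2.isEmpty || Nat.beq (pc4 r.1) 1 || (pairs.any fun p => Nat.blt 2 (cn (r.1 :: r.2.1) p)) ||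
    Nat.ble (gC N r.1 r.2.1) (T (sigc (r.1 :: r.2.1) []))

theorem msk_pos {E : Fin 4 → Finset ℕ} {u : ℕ} (h : 0 < msk E u) : ∃ i, u ∈ E i := by
  by_contra a
  exact h.ne' (msk_eq (by norm_num) fun i => iff_of_false (by simp) fun b => a ⟨i, b⟩)

theorem reps_pos : ∀ r ∈ reps, ∀ x ∈ r.2.1, 0 < x := fun r hr x hx => by
  have nz : reps.all (fun r => r.2.1.all (Nat.blt 0)) = true := by decide +kernel
  exact Nat.blt_eq.mp (List.all_eq_true.1 (List.all_eq_true.1 nz r hr) x hx)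

theorem Lab.card_vs {S : Hg} {E : Fin 4 → Finset ℕ} {L : List ℕ} (h : Lab S E L)
    (h0 : ∀ u ∈ L, 0 < msk E u) : (vs S).card = L.length := by
  rw [← List.toFinset_card_of_nodup h.nd]
  congr 1
  ext u
  rw [mem_vs, List.mem_toFinset]
  refine ⟨fun ⟨e, a, b⟩ => ?_, fun a => ?_⟩
  · obtain ⟨-, i, rfl⟩ := (h.mem e).1 a
    exact h.cov i u b
  · obtain ⟨i, b⟩ := msk_pos (h0 u a)
    exact ⟨_, h.slot (ne_empty_of_mem b), b⟩

theorem p0_le {N : Num} {n : Nums} (hl : LeafOk N n) {T : ℕ → ℕ} (hc : reps.all (chkB N T) = true)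
    {R : Hg} (h : C0 R) {v : ℕ} (hv : v ∈ vs R) : P0 N R v ≤ pr (Pt T) n.lp R v := by
  rw [P0, pr, price]
  split_ifs with a
  · simp only [LeafOk, ← Nat.cast_le (α := ℝ)] at hl
    rw [Nums.lp, psi]
    push_cast at hl
    gcongr
    split_ifs <;> push_cast <;> linarith [hl.1, hl.2.1, hl.2.2.1, hl.2.2.2]
  obtain ⟨E, L, b, c⟩ := exists_rep0 h.cls h.no6 hv
  have d := List.all_eq_true.1 hc _ c
  have s : ∀ i, E i ≠ ∅ → E i ∈ R ∧ v ∈ E i := fun i k => mem_star.1 (b.slot k)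
  have e1 : (star R v).card = pc4 (msk E v) := by
    rw [← b.pc4 v, (h.cls.isStar v).star]
  have e2 : (vs (star R v)).card = (L.map (msk E)).length + 1 := by
    rw [List.length_map]
    refine b.card_vs fun u hu => (List.mem_cons.1 hu).elim (fun k => Nat.pos_of_ne_zero fun z => ?_)
      fun k => reps_pos _ c _ (List.mem_map_of_mem k)
    rw [show msk E v = 0 from k ▸ z] at e1
    exact (star_pos hv).not_gt (e1.trans_lt (by decide +kernel : pc4 0 < 1))
  have e3 : (∃ u, u ≠ v ∧ ∀ e ∈ star R v, u ∈ e) ↔ msk E v ∈ L.map (msk E) := by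
    rw [List.mem_map]
    refine ⟨fun ⟨u, u1, u2⟩ => ?_, fun ⟨u, u1, u2⟩ => ⟨u, fun k => (List.nodup_cons.1 b.nd).1
      (k ▸ u1), fun e he => ?_⟩⟩
    · obtain ⟨e, he⟩ := card_pos.1 (star_pos hv)
      obtain ⟨-, i, rfl⟩ := (b.mem e).1 he
      refine ⟨u, (List.mem_cons.1 (b.cov i u (u2 _ he))).resolve_left u1,
        msk_eq (msk_lt E v) fun j => ?_⟩
      rw [msk_bit, decide_eq_true_iff]
      exact ⟨fun k => u2 _ (b.slot (ne_empty_of_mem k)), fun k => (s j (ne_empty_of_mem k)).2⟩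
    · obtain ⟨-, i, rfl⟩ := (b.mem e).1 he
      have k := msk_bit E u i
      rw [u2, msk_bit] at k
      exact (decide_eq_decide.1 k).1 (mem_star.1 he).2
  simp only [chkB, List.isEmpty_nil, Bool.not_true, Bool.false_or, Bool.or_eq_true, Nat.beq_eq,
    List.any_eq_true, Nat.blt_eq, Nat.ble_eq, ← e1] at d
  replace d := d.resolve_left (not_or.2 ⟨a, fun ⟨p, p1, p2⟩ => by
    obtain ⟨i, j, k, rfl⟩ := pairs_pm p p1
    rw [← List.map_cons, ← b.inter] at p2
    have k1 : E i ≠ ∅ := fun z => by simp [z] at p2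
    have k2 : E j ≠ ∅ := fun z => by simp [z] at p2
    exact p2.not_ge (h.co2 _ (s i k1).1 _ (s j k2).1 fun z => k ((b.inj i j z).resolve_left k1))⟩)
  rw [Pt, h.no6.sig (S := star R v) (filter_subset _ _), b.sig_eq (flags_nil E), List.map_cons]
  gcongr
  refine le_trans ?_ d
  rw [gS, gC, e1, e2]
  simp only [e3]
  split_ifs
  exacts [le_rfl, le_rfl, le_rfl, le_rfl, le_rfl, le_max_left _ _, le_max_right _ _, le_rfl, le_rfl]

/-- the main statement from the first induction. -/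
theorem s_main_of_p0 {N : Num} {n : Nums} (h : n.Ok) (hl : LeafOk N n) {T : ℕ → ℕ} {α γ k : ℕ}
    (hp : 0 < α + γ) (hB : reps.all (chkB N T) = true)
    (h05 : reps.all (chk05 T n.th n.sg n.pi n.g5) = true)
    (h1 : (reps.all fun r => Nat.beq r.1 1 || T1.row T n.cs r.1 r.2.1 r.2.2) = true)
    (hs : ∀ r ∈ reps, Ad.badR r = true ∨ ∃ zs, Ad.chkR α γ k T 250000 r zs = true)
    (h0 : ∀ R, C0 R → Good R (P0 N R)) : S_Main :=
  Nums.s_main h hp h05 h1 hs fun R a b c =>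
    (h0 R ⟨a, b, c⟩).mono fun _ => p0_le hl hB ⟨a, b, c⟩

end Pool.Agent.P.MP_b2082d_co.Gen
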