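import Pool.Agent.P.MP_b2082d_co.G.Base
import Pool.Agent.P.MP_b2082d_co.L.G1
import Pool.Agent.P.MP_b2082d_co.L.G2
import Pool.Agent.P.MP_b2082d_co.L.Cover

/-! The edge cover polytope for set systems on the natural numbers. -/

namespace Pool.Agent.P.MP_b2082d_co.Gen
open Finset

theorem cover_int {R : Hg} (D : ℕ) (hD : 0 < D) (q : ℕ → Finset ℕ → Finset ℕ → ℤ)
    (h0 : ∀ v e f, 0 ≤ q v e f) (hs : ∀ v e f, q v e f ≠ 0 → v ∈ e ∧ v ∈ f)
    (ho : ∀ S ⊆ R, Odd S.card → (D : ℤ) * (S.card + 1) ≤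
      2 * ∑ v ∈ vs R, ∑ e ∈ R, ∑ f ∈ R, if e ∈ S ∨ f ∈ S then q v e f else 0)
    (w : ℕ → ℝ) (hw : ∀ v, 0 ≤ w v) : ∃ T ⊆ vs R, Tr R T ∧
      (D : ℝ) * ∑ v ∈ T, w v ≤ ∑ v ∈ vs R, w v * ((∑ e ∈ R, ∑ f ∈ R, q v e f : ℤ) : ℝ) := by
  obtain ⟨T, h1, h2⟩ := Lin.p_Cover Lin.p_G1 Lin.p_G2 (vs R) R
    (fun e => univ.filter fun v => v.1 ∈ e.1) univ D (fun v e f => q v e f) hD
    (fun v e f => h0 _ _ _) (fun v e f h => by simpa using hs _ _ _ h) (fun S _ hS => by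
      have h3 := ho (S.map (Function.Embedding.subtype _)) (fun e he => by
        obtain ⟨a, -, rfl⟩ := mem_map.1 he
        exact a.2) (by rwa [card_map])
      rw [card_map, ← sum_coe_sort (vs R)] at h3
      refine h3.trans (le_of_eq ?_)
      congr 1
      refine sum_congr rfl fun v _ => ?_
      rw [← sum_coe_sort R]
      refine sum_congr rfl fun e _ => ?_
      rw [← sum_coe_sort R]
      refine sum_congr rfl fun f _ => ?_
      simp) (fun v => w v) fun v => hw v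
  refine ⟨T.map (Function.Embedding.subtype _), fun v hv => ?_, fun e he => ?_, ?_⟩
  · obtain ⟨a, -, rfl⟩ := mem_map.1 hv
    exact a.2
  · obtain ⟨v, hv⟩ := h1 ⟨e, he⟩ (mem_univ _)
    rw [mem_inter, mem_filter] at hv
    exact ⟨v, mem_inter.2 ⟨mem_map_of_mem _ hv.1, hv.2.2⟩⟩
  · rw [sum_map, ← sum_coe_sort (vs R)]
    refine h2.trans (le_of_eq (sum_congr rfl fun v _ => ?_))
    congr 2
    rw [← sum_coe_sort R]
    exact sum_congr rfl fun e _ => (sum_coe_sort R (q v e)).symm ▸ rfl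

/-- weights on ordered pairs of edges at a common vertex that satisfy the odd set conditions. -/
theorem good_cover {R : Hg} (q : ℕ → Finset ℕ → Finset ℕ → ℝ) (h0 : ∀ v e f, 0 ≤ q v e f)
    (hs : ∀ v e f, q v e f ≠ 0 → v ∈ e ∧ v ∈ f)
    (ho : ∀ S ⊆ R, Odd S.card → (S.card + 1 : ℝ) ≤
      2 * ∑ v ∈ vs R, ∑ e ∈ R, ∑ f ∈ R, if e ∈ S ∨ f ∈ S then q v e f else 0) :
    Good R fun v => ∑ e ∈ R, ∑ f ∈ R, q v e f := fun w hw => by
  classical
  have key : ∀ D : ℕ, 0 < D → ∃ T ⊆ vs R, Tr R T ∧ (D : ℝ) * ∑ v ∈ T, w v ≤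
      D * ∑ v ∈ vs R, w v * ∑ e ∈ R, ∑ f ∈ R, q v e f +
        ∑ v ∈ vs R, w v * (R.card * R.card) := fun D hD => by
    have D0 : (0 : ℝ) ≤ D := Nat.cast_nonneg D
    obtain ⟨T, h1, h2, h3⟩ := cover_int D hD (fun v e f => ⌈D * q v e f⌉)
      (fun v e f => Int.ceil_nonneg (mul_nonneg D0 (h0 v e f)))
      (fun v e f h => hs v e f fun a => h (by simp [a])) (fun S hS hS' => by
        have h4 := mul_le_mul_of_nonneg_left (ho S hS hS') D0
        rw [← Int.cast_le (R := ℝ)]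
        push_cast
        refine h4.trans ?_
        rw [mul_left_comm]
        refine mul_le_mul_of_nonneg_left ?_ zero_le_two
        simp only [mul_sum]
        refine sum_le_sum fun v _ => sum_le_sum fun e _ => sum_le_sum fun f _ => ?_
        split_ifs
        exacts [Int.le_ceil _, (mul_zero _).le]) w hw
    refine ⟨T, h1, h2, h3.trans ?_⟩
    rw [mul_sum, ← sum_add_distrib]
    refine sum_le_sum fun v _ => ?_
    rw [mul_left_comm, ← mul_add]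
    refine mul_le_mul_of_nonneg_left ?_ (hw v)
    have h5 : (R.card * R.card : ℝ) = ∑ e ∈ R, ∑ f ∈ R, 1 := by simp
    push_cast
    rw [h5]
    simp only [mul_sum, ← sum_add_distrib]
    exact sum_le_sum fun e _ => sum_le_sum fun f _ => (Int.ceil_lt_add_one _).le
  obtain ⟨T0, a1, a2, -⟩ := key 1 one_pos
  obtain ⟨T, t1, t2⟩ := exists_min_image ((vs R).powerset.filter fun T => Tr R T)
    (fun T => ∑ v ∈ T, w v) ⟨T0, mem_filter.2 ⟨mem_powerset.2 a1, a2⟩⟩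
  refine ⟨T, (mem_filter.1 t1).2, le_of_not_gt fun h => ?_⟩
  obtain ⟨D, hD⟩ := exists_nat_gt ((∑ v ∈ vs R, w v * (R.card * R.card)) /
    (∑ v ∈ T, w v - ∑ v ∈ vs R, w v * ∑ e ∈ R, ∑ f ∈ R, q v e f))
  rw [div_lt_iff₀ (sub_pos.2 h)] at hD
  obtain ⟨U, u1, u2, u3⟩ := key (D + 1) D.succ_pos
  have u4 := mul_le_mul_of_nonneg_left (t2 U (mem_filter.2 ⟨mem_powerset.2 u1, u2⟩))
    (Nat.cast_nonneg (α := ℝ) (D + 1))
  push_cast at u3 u4
  nlinarith

end Pool.Agent.P.MP_b2082d_co.Gen
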