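import Pool.Agent.P.MP_b2082d_co.G.Bad
import Pool.Agent.P.MP_b2082d_co.G.Cover

/-! The step and the special systems with seven and eight edges. -/

namespace Pool.Agent.P.MP_b2082d_co.Gen
open Finset

/-- the odd sets that miss at most one edge only need the total budget. -/
theorem good_fill {R : Hg} (q : ℕ → Finset ℕ → Finset ℕ → ℝ) (c : ℕ → ℝ)
    (h0 : ∀ v e f, 0 ≤ q v e f) (hs : ∀ v e f, q v e f ≠ 0 → v ∈ e ∧ v ∈ f)
    (hc : ∀ v ∈ vs R, ∑ e ∈ R, ∑ f ∈ R, q v e f ≤ c v)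
    (ho : ∀ S ⊆ R, Odd S.card → (S.card + 1 : ℝ) ≤
      2 * ∑ v ∈ vs R, ∑ e ∈ R, ∑ f ∈ R, (if e ∈ S ∨ f ∈ S then q v e f else 0) ∨
      ((R \ S).card ≤ 1 ∧ (S.card + 1 : ℝ) ≤ 2 * ∑ v ∈ vs S, c v)) : Good R c := by
  have ho' : ∀ v e, ∃ f, (e ∈ R → f ∈ R) ∧ (v ∈ e → v ∈ f) ∧
      ∀ g ∈ R, v ∈ g → g ≠ e → f ≠ e := fun v e => by
    by_cases a : ∃ g ∈ R, v ∈ g ∧ g ≠ e
    · obtain ⟨g, a, b, d⟩ := a
      exact ⟨g, fun _ => a, fun _ => b, fun _ _ _ _ => d⟩
    · exact ⟨e, id, id, fun g x y z => absurd ⟨g, x, y, z⟩ a⟩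
  choose o o1 o2 o3 using ho'
  have ha : ∀ v, ∃ e, v ∈ vs R → e ∈ R ∧ v ∈ e := fun v => by
    by_cases a : v ∈ vs R
    · obtain ⟨e, a⟩ := mem_vs.1 a
      exact ⟨e, fun _ => a⟩
    · exact ⟨∅, fun b => absurd b a⟩
  choose a ha using ha
  obtain ⟨s, s0, s1, s2⟩ : ∃ s : ℕ → Finset ℕ → ℝ, (∀ v e, 0 ≤ s v e) ∧
      (∀ v e, s v e ≠ 0 → v ∈ e) ∧
      ∀ v ∈ vs R, ∑ e ∈ R, s v e = c v - ∑ e ∈ R, ∑ f ∈ R, q v e f := by
    refine ⟨fun v e => if v ∈ vs R ∧ e = a v then c v - ∑ e ∈ R, ∑ f ∈ R, q v e f else 0,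
      fun v e => ?_, fun v e h => ?_, fun v hv => by simp [hv, (ha v hv).1]⟩
    · show 0 ≤ ite _ _ _
      split_ifs with b
      exacts [sub_nonneg.2 (hc v b.1), le_rfl]
    · have b := (ite_ne_right_iff.1 h).1
      exact b.2 ▸ (ha v b.1).2
  have key : ∀ (φ : Finset ℕ → Finset ℕ → Prop) [∀ e f, Decidable (φ e f)] (v : ℕ), ∀ e ∈ R,
      ∑ f ∈ R, (if φ e f then (if f = e then 0 else q v e f) +
        (if f = o v e then q v e e + s v e else 0) else 0) =
      ∑ f ∈ R.erase e, (if φ e f then q v e f else 0) +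
        if φ e (o v e) then q v e e + s v e else 0 := fun φ _ v e he => by
    have : ∀ f, (if φ e f then (if f = e then 0 else q v e f) +
        (if f = o v e then q v e e + s v e else 0) else 0) =
        (if f = e then 0 else if φ e f then q v e f else 0) +
        (if f = o v e then if φ e f then q v e e + s v e else 0 else 0) := fun f => by
      split_ifs <;> simp
    simp only [this, sum_add_distrib, sum_ite_eq', if_pos (o1 v e he)]
    rw [← add_sum_erase _ _ he, if_pos rfl, zero_add,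
      sum_congr rfl fun f hf => if_neg (ne_of_mem_erase hf)]
  have n0 : ∀ v e f, 0 ≤ (if f = e then 0 else q v e f) +
      (if f = o v e then q v e e + s v e else 0) := fun v e f => by
    have := h0 v e f
    have := h0 v e e
    have := s0 v e
    split_ifs <;> linarith
  have tot : ∀ v ∈ vs R, ∑ e ∈ R, (∑ f ∈ R.erase e, q v e f + (q v e e + s v e)) = c v :=
    fun v hv => by
    rw [sum_congr rfl fun e he => by rw [← add_assoc, sum_erase_add _ _ he], sum_add_distrib,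
      s2 v hv, add_sub_cancel]
  refine (good_cover (fun v e f => (if f = e then 0 else q v e f) +
    (if f = o v e then q v e e + s v e else 0)) n0 (fun v e f h => ?_) fun S hS h => ?_).mono
    fun v hv => ?_
  · by_cases b : q v e f = 0
    · have d : f = o v e := by_contra fun d => h (by simp [b, d])
      have : v ∈ e := by_contra fun g => h (by
        have x : q v e e = 0 := by_contra fun x => g (hs v e e x).1
        have y : s v e = 0 := by_contra fun y => g (s1 v e y)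
        simp [b, x, y])
      exact ⟨this, d ▸ o2 v e this⟩
    · exact hs v e f b
  · rcases ho S hS h with b | ⟨b, d⟩
    · refine b.trans (mul_le_mul_of_nonneg_left (sum_le_sum fun v _ => sum_le_sum fun e he => ?_)
        zero_le_two)
      rw [key (fun e f => e ∈ S ∨ f ∈ S) v e he, ← sum_erase_add _ _ he]
      have := h0 v e e
      have := s0 v e
      by_cases x : e ∈ S
      · simp only [x, true_or, if_true]
        linarith
      · simp only [x, false_or, if_false]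
        split_ifs <;> linarith
    · refine d.trans (mul_le_mul_of_nonneg_left (le_trans (le_of_eq (sum_congr rfl fun v hv => ?_))
        (sum_le_sum_of_subset_of_nonneg (vs_mono hS) fun v _ _ => sum_nonneg fun e _ =>
          sum_nonneg fun f _ => ite_nonneg (n0 v e f) le_rfl)) zero_le_two)
      have k : ∀ e ∈ R, ∀ f ∈ R, f ≠ e → e ∈ S ∨ f ∈ S := fun e he f hf x => by_contra fun y =>
        x (card_le_one.1 b f (mem_sdiff.2 ⟨hf, fun z => y (Or.inr z)⟩) e
          (mem_sdiff.2 ⟨he, fun z => y (Or.inl z)⟩))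
      rw [← tot v (vs_mono hS hv)]
      refine sum_congr rfl fun e he => ?_
      obtain ⟨g, g1, g2⟩ := mem_vs.1 hv
      rw [key (fun e f => e ∈ S ∨ f ∈ S) v e he, sum_congr rfl fun f hf =>
        if_pos (k e he f (mem_of_mem_erase hf) (ne_of_mem_erase hf)), if_pos]
      by_cases x : e ∈ S
      exacts [Or.inl x, k e he _ (o1 v e he) (o3 v e g (hS g1) g2 fun y => x (y ▸ g1))]
  · rw [← tot v hv]
    refine (sum_congr rfl fun e he => ?_).le
    simpa using key (fun _ _ => True) v e he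

theorem rate_nonneg (R : Hg) (x : ℕ) : 0 ≤ rate R x := by
  unfold rate
  split_ifs <;> norm_num

/-- the moves with cheaper vectors on the rests. -/
theorem CoreC.good {N : Num} {c : ℕ} (h : CoreC c N) {R : Hg} (hR : C0 R)
    (h1 : ∀ e ∈ R, (lvs R e).card ≤ 2)
    (h2 : ∀ S ⊆ R, S.card = 3 ∨ S.card = 5 → 3 ≤ (vs S ∩ vs (R \ S)).card) (P : ℕ → ℕ → ℝ)
    (h3 : ∀ x, 3 ≤ (star R x).card → Good (res R {x}) (P x) ∧
      ∀ v ∈ vs (res R {x}), P x v ≤ P0 N (res R {x}) v)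
    (h4 : ∀ S ⊆ R, S.card = 7 → (vs S ∩ vs (R \ S)).card < c → (R \ S).card ≤ 1 ∧
      4 ≤ ∑ v ∈ vs S, P0 N R v + ∑ x ∈ vs R, rate R x * (∑ v ∈ vs S, P0 N R v - 1 -
        ∑ v ∈ vs S ∩ vs (res R {x}), P x v)) : Good R (P0 N R) := by
  obtain ⟨q, q0, q1, q2, q3⟩ := h R hR h1 h2
  have r : ∀ x, rate R x ≠ 0 → 3 ≤ (star R x).card := fun x a => (ite_ne_right_iff.1 a).1
  refine good_mix _ (rate R) _ P (fun x _ => rate_nonneg R x) (fun x _ a => (h3 x (r x a)).1)
    (good_fill q _ q0 q1 (fun v hv => (q2 v hv).trans ?_) fun S hS a => ?_) fun _ _ => le_rfl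
  · refine add_le_add le_rfl (sum_le_sum fun x _ => ?_)
    by_cases b : rate R x = 0
    · simp [b]
    refine mul_le_mul_of_nonneg_left (sub_le_sub_left ?_ _) (rate_nonneg R x)
    split_ifs with d
    exacts [(h3 x (r x b)).2 v d, le_rfl]
  by_cases b : S.card = 7 → c ≤ (vs S ∩ vs (R \ S)).card
  · exact Or.inl (q3 S hS a b)
  obtain ⟨b, d⟩ := Classical.not_imp.1 b
  obtain ⟨d1, d2⟩ := h4 S hS b (not_le.1 d)
  refine Or.inr ⟨d1, ?_⟩
  have e1 : ∀ v ∈ vs S, P0 N R v - rate R v * (1 - P0 N R v) + ∑ x ∈ (vs R).erase v,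
      rate R x * (P0 N R v - if v ∈ vs (res R {x}) then P x v else 0) =
      P0 N R v - rate R v + ∑ x ∈ vs R,
      rate R x * (P0 N R v - if v ∈ vs (res R {x}) then P x v else 0) := fun v hv => by
    rw [← add_sum_erase _ _ (vs_mono hS hv), if_neg (not_mem_vs_res (mem_singleton_self v))]
    ring
  have e2 := sum_mono (rate_nonneg R) (vs_mono hS)
  rw [sum_congr rfl e1, sum_add_distrib, sum_sub_distrib, sum_comm, b]
  simp only [← mul_sum, sum_sub_distrib, ← sum_filter, filter_mem_eq_inter]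
  simp only [mul_sub, sum_sub_distrib, mul_one] at d2 ⊢
  push_cast
  linarith

theorem CoreC.step {N : Num} {c : ℕ} (h : CoreC c N) (h3 : c ≤ 3) : S_step N := fun R hR hc ih =>
  h.good hR hc.pend (fun S a b => hc.cut S a (by tauto)) (fun x => P0 N (res R {x}))
    (fun x a => ⟨ih x a, fun _ _ => le_rfl⟩) fun S a b d =>
      absurd (h3.trans (hc.cut S a (by tauto))) (not_le.2 d)

/-- the least price of a vertex of degree `d`. -/
def Num.low (N : Num) (d : ℕ) : ℕ :=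
  if d = 1 then 250000 - max N.p2 (max N.p3 N.pT) else if d = 2 then min N.g2 N.g23
  else if d = 3 then min N.g3 (min N.g33 (min N.g35 (min N.g356 N.g37))) else N.g4

theorem low_le {N : Num} (hp : max N.p2 (max N.p3 N.pT) ≤ 250000) {R : Hg}
    (h1 : ∀ e ∈ R, (lvs R e).card ≤ 2) {v : ℕ} (hv : v ∈ vs R) :
    (N.low (star R v).card : ℝ) / 1000000 ≤ P0 N R v := by
  unfold P0 Num.low
  by_cases a : (star R v).card = 1
  · obtain ⟨e, e1, e2⟩ := mem_vs.1 hv
    have b : vs (star R v) = e := by simp [star_one a e1 e2, vs]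
    have c := card_pos.2 ⟨v, mem_lvs.2 ⟨e2, a⟩⟩
    have d := h1 e e1
    have f : psi N R e ≤ max N.p2 (max N.p3 N.pT) := by
      unfold psi
      split_ifs <;> omega
    rw [if_pos a, if_pos a, b, Nat.cast_sub hp]
    have : (psi N R e : ℝ) ≤ (max N.p2 (max N.p3 N.pT) : ℕ) := Nat.cast_le.2 f
    push_cast at this ⊢
    linarith
  · rw [if_neg a, if_neg a]
    refine St.sc ?_
    unfold gS
    split_ifs <;> omega

theorem sum_cls {M : Type} [AddCommMonoid M] {A : Finset ℕ} {k : ℕ → ℕ}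
    (h : ∀ v ∈ A, 1 ≤ k v ∧ k v ≤ 6) (F : ℕ → M) : ∑ v ∈ A, F (k v) =
    #{v ∈ A | k v = 1} • F 1 + #{v ∈ A | k v = 2} • F 2 + #{v ∈ A | k v = 3} • F 3 +
    #{v ∈ A | k v = 4} • F 4 + #{v ∈ A | k v = 5} • F 5 + #{v ∈ A | k v = 6} • F 6 := by
  rw [← sum_fiberwise_of_maps_to (t := Ico 1 7) (g := k) fun v hv => by
    simpa [Nat.lt_succ_iff] using h v hv, sum_congr rfl fun j _ =>
      (sum_congr rfl fun v hv => by rw [(mem_filter.1 hv).2]).trans (sum_const (F j))]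
  simp [sum_Ico_succ_top]

/-- the degree of a class. -/
def dgc (j : ℕ) : ℕ := if j = 5 then 3 else if j = 6 then 4 else j

/-- the total budget is at least four. -/
def Inq (N : Num) (n1 n2 n3 n4 n5 n6 u3 u4 u5 u6 : ℕ) : Prop :=
  40000000 + 3 * (n3 * (1000000 + u3) + n4 * (1000000 + u4) + n5 * (1000000 + u5) +
    n6 * (1000000 + u6)) ≤ (10 + 3 * (n3 + n4 + n5 + n6)) *
    (n1 * N.low 1 + n2 * N.low 2 + (n3 + n5) * N.low 3 + (n4 + n6) * N.low 4)

instance (N : Num) (n1 n2 n3 n4 n5 n6 u3 u4 u5 u6 : ℕ) :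
    Decidable (Inq N n1 n2 n3 n4 n5 n6 u3 u4 u5 u6) := Nat.decLe _ _

theorem total {N : Num} (hp : max N.p2 (max N.p3 N.pT) ≤ 250000) {R : Hg}
    (h1 : ∀ e ∈ R, (lvs R e).card ≤ 2) {A : Finset ℕ} (hA : A ⊆ vs R)
    (h2 : ∀ x ∈ vs R, x ∉ A → (star R x).card = 1) {k : ℕ → ℕ}
    (h3 : ∀ v ∈ A, 1 ≤ k v ∧ k v ≤ 6) (h4 : ∀ v ∈ A, (star R v).card = dgc (k v)) {val : ℕ → ℝ}
    {u : ℕ → ℕ} (h5 : ∀ x ∈ A, 3 ≤ k x → val x ≤ u (k x) / 1000000)
    (h6 : Inq N #{v ∈ A | k v = 1} #{v ∈ A | k v = 2} #{v ∈ A | k v = 3} #{v ∈ A | k v = 4}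
      #{v ∈ A | k v = 5} #{v ∈ A | k v = 6} (u 3) (u 4) (u 5) (u 6)) :
    4 ≤ ∑ v ∈ A, P0 N R v + ∑ x ∈ vs R, rate R x * (∑ v ∈ A, P0 N R v - 1 - val x) := by
  have a : ∑ v ∈ A, (N.low (dgc (k v)) : ℝ) / 1000000 ≤ ∑ v ∈ A, P0 N R v :=
    sum_le_sum fun v hv => h4 v hv ▸ low_le hp h1 (hA hv)
  generalize hπ : ∑ v ∈ A, (N.low (dgc (k v)) : ℝ) / 1000000 = π at a
  have b : ∑ x ∈ A, (if 3 ≤ k x then 3 / 10 * (π - 1 - u (k x) / 1000000) else 0) ≤
      ∑ x ∈ vs R, rate R x * (∑ v ∈ A, P0 N R v - 1 - val x) := by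
    rw [← sum_subset hA fun x c d => by rw [rate, h2 x c d]; simp]
    refine sum_le_sum fun x hx => ?_
    have c : 3 ≤ dgc (k x) ↔ 3 ≤ k x := by
      unfold dgc
      split_ifs <;> omega
    rw [rate, h4 x hx]
    by_cases d : 3 ≤ k x
    · rw [if_pos d, if_pos (c.2 d)]
      linarith [h5 x hx d]
    · rw [if_neg d, if_neg fun f => d (c.1 f), zero_mul]
  rw [sum_cls h3 fun j => (N.low (dgc j) : ℝ) / 1000000] at hπ
  rw [sum_cls h3 fun j => if 3 ≤ j then 3 / 10 * (π - 1 - u j / 1000000) else 0] at b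
  rw [Inq, ← Nat.cast_le (α := ℝ)] at h6
  push_cast at h6
  norm_num [dgc] at hπ b
  subst hπ
  linarith

theorem sum_deg {R : Hg} (hR : C0 R) : ∑ v ∈ vs R, (star R v).card = 4 * R.card := by
  simp only [star, card_filter]
  rw [sum_comm, mul_comm, ← smul_eq_mul, ← sum_const]
  refine sum_congr rfl fun e he => ?_
  rw [← card_filter, filter_mem_eq_inter, inter_eq_right.2 fun v hv => mem_vs.2 ⟨e, he, hv⟩,
    hR.cls.unif e he]

theorem card_res (R : Hg) (x : ℕ) : (star R x).card + (res R {x}).card = R.card := by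
  rw [← card_filter_add_card_filter_not (s := R) fun e => x ∈ e]
  simp [star, res]

theorem card_vs_res {R : Hg} {x : ℕ} (hx : x ∈ vs R) : (vs (res R {x})).card + 1 ≤ (vs R).card := by
  rw [← card_erase_add_one hx]
  exact Nat.succ_le_succ (card_le_card fun v hv => mem_erase.2
    ⟨fun a => not_mem_vs_res (mem_singleton.2 a) hv, vs_mono (res_subset _ _) hv⟩)

theorem card_vs_res' {R : Hg} (h1 : ∀ e ∈ R, (lvs R e).card ≤ 2) {x : ℕ} (hx : x ∈ vs R)
    (h : (star R x).card ≠ 1) : (vs (res R {x})).card + 1 + #{v ∈ vs R | (star R v).card = 1} ≤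
      (vs R).card + 2 * (res R {x}).card := by
  have a : vs (res R {x}) ⊆ ({v ∈ vs R | ¬ (star R v).card = 1}.erase x) ∪
      (res R {x}).biUnion (lvs R) := fun v hv => by
    obtain ⟨e, e1, e2⟩ := mem_vs.1 hv
    by_cases b : (star R v).card = 1
    · exact mem_union_right _ (mem_biUnion.2 ⟨e, e1, mem_lvs.2 ⟨e2, b⟩⟩)
    · exact mem_union_left _ (mem_erase.2 ⟨fun a => not_mem_vs_res (mem_singleton.2 a) hv,
        mem_filter.2 ⟨vs_mono (res_subset _ _) hv, b⟩⟩)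
  have b := (card_le_card a).trans (card_union_le _ _)
  have c := card_biUnion_le_card_mul (res R {x}) (lvs R) 2 fun e he => h1 e (res_subset _ _ he)
  have d := card_erase_add_one (mem_filter.2 ⟨hx, h⟩ : x ∈ {v ∈ vs R | ¬ (star R v).card = 1})
  have f := card_filter_add_card_filter_not (s := vs R) fun v => (star R v).card = 1
  omega

def Al (n : ℕ) (p : ℕ → Prop) : Prop := ∀ i < n, p i

instance (n : ℕ) (p : ℕ → Prop) [DecidablePred p] : Decidable (Al n p) :=
  Nat.decidableBallLT n fun i _ => p i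

def Im (p q : Prop) : Prop := p → q

instance (p q : Prop) [Decidable p] [Decidable q] : Decidable (Im p q) :=
  if h : p then decidable_of_iff q ⟨fun a _ => a, fun a => a h⟩ else isTrue fun a => absurd a h

/-- the degree profiles. -/
def Prof7 (N : Num) (V : ℕ → ℕ → ℕ) : Prop := max N.p2 (max N.p3 N.pT) ≤ 250000 ∧
  (Al 8 fun n4 => Al 10 fun n3 => Al 15 fun n2 => Al 29 fun n1 =>
    Im (n1 + 2 * n2 + 3 * n3 + 4 * n4 = 28) <| Im (n1 + n2 + n3 + n4 ≠ 12) <|
    Inq N n1 n2 n3 n4 0 0 (V 4 (min (n1 + n2 + n3 + n4 - 1) (n2 + n3 + n4 + 7)))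
      (V 3 (min (n1 + n2 + n3 + n4 - 1) (n2 + n3 + n4 + 5))) 0 0) ∧
  (Al 13 fun n1 => Al 8 fun n4 => Al 8 fun n6 => Al 4 fun n5 => Al 10 fun n3 =>
    Im (n3 + n5 + 2 * (n4 + n6) = 4 + n1) <| Al 13 fun n2 =>
    Im (n1 + n2 + n3 + n4 + n5 + n6 = 12) <| Im (n5 = 3 → 0 < n1 ∧ n6 = 0) <|
    Im (n5 = 2 → 0 < n1 ∨ n6 = 0) <|
    Inq N n1 n2 n3 n4 n5 n6 (V 4 10) (V 3 10) (V 4 11) (V 3 11))

def Prof8 (N : Num) (V W : ℕ → ℕ → ℕ) : Prop := max N.p2 (max N.p3 N.pT) ≤ 250000 ∧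
  Al 3 fun n5 => Al 3 fun n6 => Im (n5 + n6 ≤ 2) <| Al 8 fun n4 => Al 11 fun n3 => Al 16 fun n2 =>
    Im (2 ≤ n2 + n5 + n6) <| Im (2 * n2 + 3 * (n3 + n5) + 4 * (n4 + n6) ≤ 30) <| Al 31 fun n1 =>
    Im (n1 + 2 * n2 + 3 * (n3 + n5) + 4 * (n4 + n6) = 30) <| Inq N n1 n2 n3 n4 n5 n6
      (W 5 (n1 + n2 + n3 + n4 + n5 + n6 - 1)) (W 4 (n1 + n2 + n3 + n4 + n5 + n6 - 1))
      (V 5 (n1 + n2 + n3 + n4 + n5 + n6 - 1)) (V 4 (n1 + n2 + n3 + n4 + n5 + n6 - 1))

set_option synthInstance.maxSize 4096 in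
instance (N : Num) (V : ℕ → ℕ → ℕ) : Decidable (Prof7 N V) := by
  unfold Prof7
  infer_instance

set_option synthInstance.maxSize 4096 in
instance (N : Num) (V W : ℕ → ℕ → ℕ) : Decidable (Prof8 N V W) := by
  unfold Prof8
  infer_instance

open Classical in
/-- the class of a vertex; `b` marks the special movers. -/
noncomputable def cl (R : Hg) (b : ℕ → Prop) (v : ℕ) : ℕ :=
  if 3 ≤ (star R v).card ∧ b v then (star R v).card + 2 else (star R v).card

theorem cl_spec {R : Hg} (hR : C0 R) (b : ℕ → Prop) {v : ℕ} (hv : v ∈ vs R) :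
    (1 ≤ cl R b v ∧ cl R b v ≤ 6) ∧ (star R v).card = dgc (cl R b v) ∧
    (cl R b v ≤ 4 → (star R v).card = cl R b v ∧ (3 ≤ cl R b v → ¬ b v)) ∧
    (5 ≤ cl R b v → (star R v).card + 2 = cl R b v ∧ b v) := by
  have a := star_pos hv
  have c : (star R v).card ≤ 4 := hR.cls.deg v
  unfold cl dgc
  by_cases d : 3 ≤ (star R v).card ∧ b v
  · rw [if_pos d]
    exact ⟨by omega, by split_ifs <;> omega, fun _ => by omega, fun _ => ⟨rfl, d.2⟩⟩
  · rw [if_neg d]
    exact ⟨by omega, by split_ifs <;> omega, fun _ => ⟨rfl, fun x y => d ⟨x, y⟩⟩, fun _ => by omega⟩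

theorem cl_sums {R : Hg} (hR : C0 R) (b : ℕ → Prop) {A : Finset ℕ} (hA : A ⊆ vs R) :
    A.card = #{v ∈ A | cl R b v = 1} + #{v ∈ A | cl R b v = 2} + #{v ∈ A | cl R b v = 3} +
      #{v ∈ A | cl R b v = 4} + #{v ∈ A | cl R b v = 5} + #{v ∈ A | cl R b v = 6} ∧
    ∑ v ∈ A, (star R v).card = #{v ∈ A | cl R b v = 1} + 2 * #{v ∈ A | cl R b v = 2} +
      3 * (#{v ∈ A | cl R b v = 3} + #{v ∈ A | cl R b v = 5}) +
      4 * (#{v ∈ A | cl R b v = 4} + #{v ∈ A | cl R b v = 6}) := by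
  have a := sum_cls (fun v hv => (cl_spec hR b (hA hv)).1) fun _ => 1
  have c := sum_cls (fun v hv => (cl_spec hR b (hA hv)).1) dgc
  rw [← sum_congr rfl fun v hv => (cl_spec hR b (hA hv)).2.1] at c
  norm_num [dgc] at a c
  omega

theorem irr_cut {R : Hg} (hI : Irr R) (h : 7 ≤ R.card) :
    ∀ S ⊆ R, S.card = 3 ∨ S.card = 5 → 3 ≤ (vs S ∩ vs (R \ S)).card := fun S hS a => by
  have := card_sdiff_add_card_eq_card hS
  refine (hI.2 S hS (card_pos.1 (by omega)).ne_empty fun b => ?_).resolve_right (by omega)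
  rw [b] at a
  omega

variable {N : Num} {V W : ℕ → ℕ → ℕ} {c : ℕ}

theorem Small5.pick (h : Small5 N V W) {R : Hg} (hR : C0 R) (h8 : R.card = 8) :
    ∃ P : ℕ → ℕ → ℝ, ∀ x, 3 ≤ (star R x).card → Good (res R {x}) (P x) ∧
    (∀ v ∈ vs (res R {x}), P x v ≤ P0 N (res R {x}) v) ∧
    (∀ m n, (res R {x}).card = m → (vs (res R {x})).card ≤ n →
      ∑ v ∈ vs (res R {x}), P x v ≤ V m n / 1000000) ∧
    ∀ f ∈ res R {x}, ∀ l ∈ lvs (res R {x}) f, ∀ l' ∈ lvs (res R {x}) f, l ≠ l' → ∀ m n,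
      (res R {x}).card = m → (vs (res R {x})).card ≤ n + 2 →
      ∑ v ∈ vs (res R {x}), P x v - P x l - P x l' ≤ W m n / 1000000 := by
  choose! P hP using fun x (a : 3 ≤ (star R x).card) => h _ (St.c0_sub hR (res_subset R {x}))
    (by have := card_res R x; have : (star R x).card ≤ 4 := hR.cls.deg x; omega)
    (by have := card_res R x; omega)
  refine ⟨P, fun x a => ?_⟩
  obtain ⟨p1, p2, p3, -, p5⟩ := hP x a
  exact ⟨p1, p2, fun m n b => b ▸ p3 n, fun f a l b l' c d m n e => e ▸ p5 f a l b l' c d n⟩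

theorem Small5.four (h : Small5 N V W) : Small4 N V := fun Q a b =>
  let ⟨p, p1, p2, p3, p4, _⟩ := h Q a (by omega) (by omega)
  ⟨p, p1, p2, p3, p4⟩

theorem Small4.pick (h : Small4 N V) {R : Hg} (hR : C0 R) (h7 : R.card = 7) :
    ∃ P : ℕ → ℕ → ℝ, ∀ x, 3 ≤ (star R x).card → Good (res R {x}) (P x) ∧
    (∀ v ∈ vs (res R {x}), P x v ≤ P0 N (res R {x}) v) ∧
    (∀ m n, (res R {x}).card = m → (vs (res R {x})).card ≤ n →
      ∑ v ∈ vs (res R {x}), P x v ≤ V m n / 1000000) ∧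
    ((res R {x}).card = 4 → (vs (res R {x})).card = 11 → ¬ HasIso (res R {x}) →
      ∑ v ∈ vs (res R {x}), P x v ≤ V 4 10 / 1000000) := by
  choose! P hP using fun x (a : 3 ≤ (star R x).card) => h _ (St.c0_sub hR (res_subset R {x}))
    (by have := card_res R x; have : (star R x).card ≤ 4 := hR.cls.deg x; omega)
  refine ⟨P, fun x a => ?_⟩
  obtain ⟨p1, p2, p3, p4⟩ := hP x a
  exact ⟨p1, p2, fun m n b => b ▸ p3 n, p4⟩

theorem spec7 (h1 : CoreC c N) (h2 : Small4 N V) (h4 : Prof7 N V) {R : Hg}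
    (hR : C0 R) (hI : Irr R) (h7 : R.card = 7) : Good R (P0 N R) := by
  obtain ⟨P, hP⟩ := h2.pick hR h7
  have pe := hI.pend hR
  refine h1.good hR pe (irr_cut hI h7.ge) P (fun x a => ⟨(hP x a).1, (hP x a).2.1⟩)
    fun S hS a _ => ?_
  obtain rfl := eq_of_subset_of_card_le hS (by omega)
  refine ⟨by simp, ?_⟩
  simp only [inter_eq_right.2 (vs_mono (res_subset S _))]
  have sd := sum_deg hR
  by_cases n : (vs S).card = 12
  · obtain ⟨c1, c2⟩ := cl_sums hR (fun x => Bad3 S x ∨ Bad4 S x) Subset.rfl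
    have sp := fun v hv => cl_spec hR (fun x => Bad3 S x ∨ Bad4 S x) (v := v) hv
    obtain ⟨b1, b2, b3⟩ := s_bad S hR hI a n {v ∈ vs S | cl S (fun x => Bad3 S x ∨ Bad4 S x) v = 5}
      fun x hx => by
        obtain ⟨x1, x2⟩ := mem_filter.1 hx
        obtain ⟨y1, y2⟩ := (sp x x1).2.2.2 x2.ge
        exact y2.resolve_right fun y => by have := y.1; omega
    have l : (∃ v, (star S v).card = 1) →
        0 < #{v ∈ vs S | cl S (fun x => Bad3 S x ∨ Bad4 S x) v = 1} := fun ⟨v, hv⟩ => by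
      obtain ⟨e, he⟩ := card_pos.1 (hv ▸ one_pos : 0 < (star S v).card)
      exact card_pos.2 ⟨v, mem_filter.2 ⟨mem_vs.2 ⟨e, mem_star.1 he⟩, by simp [cl, hv]⟩⟩
    have z : (∀ z, ¬ Bad4 S z) → #{v ∈ vs S | cl S (fun x => Bad3 S x ∨ Bad4 S x) v = 6} = 0 :=
      fun hz => card_eq_zero.2 (filter_eq_empty_iff.2 fun x x1 x2 => by
        obtain ⟨y1, y2⟩ := (sp x x1).2.2.2 (by omega)
        have := (y2.resolve_right (hz x)).1
        omega)
    refine total h4.1 pe Subset.rfl (fun x a b => absurd a b) (fun v hv => (sp v hv).1)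
      (fun v hv => (sp v hv).2.1)
      (u := fun j => if j = 3 then V 4 10 else if j = 4 then V 3 10 else if j = 5 then V 4 11
        else V 3 11) (fun x hx b => ?_) (h4.2.2 _ (by omega) _ (by omega) _ (by omega) _
        (by omega) _ (by omega) (by omega) _ (by omega) (by omega)
        (fun x => ⟨l (b2 x).1, z (b2 x).2⟩) fun x => (b3 x).imp l z)
    obtain ⟨⟨-, s1⟩, -, s2, s3⟩ := sp x hx
    have r1 := card_res S x
    have r2 := card_vs_res hx
    generalize cl S (fun x => Bad3 S x ∨ Bad4 S x) x = j at *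
    interval_cases j
    · obtain ⟨s4, s5⟩ := s2 (by norm_num)
      obtain ⟨-, -, p1, p2⟩ := hP x s4.ge
      have r : (res S {x}).card = 4 := by omega
      by_cases d : (vs (res S {x})).card = 11
      · exact p2 r d fun y => s5 le_rfl (Or.inl ⟨s4, d, y⟩)
      · exact p1 4 10 r (by omega)
    · obtain ⟨s4, s5⟩ := s2 le_rfl
      have d : (vs (res S {x})).card ≠ 11 := fun d => s5 (by norm_num) (Or.inr ⟨s4, d⟩)
      exact (hP x (by omega)).2.2.1 3 10 (by omega) (by omega)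
    · have := (s3 le_rfl).1
      exact (hP x (by omega)).2.2.1 4 11 (by omega) (by omega)
    · have := (s3 (by norm_num)).1
      exact (hP x (by omega)).2.2.1 3 11 (by omega) (by omega)
  · obtain ⟨c1, c2⟩ := cl_sums hR (fun _ => False) Subset.rfl
    have sp := fun v hv => cl_spec hR (fun _ => False) (v := v) hv
    have z : ∀ j, 5 ≤ j → #{v ∈ vs S | cl S (fun _ => False) v = j} = 0 :=
      fun j hj => card_eq_zero.2 (filter_eq_empty_iff.2 fun x x1 x2 =>
        ((sp x x1).2.2.2 (by omega)).2)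
    have l : #{v ∈ vs S | (star S v).card = 1} = #{v ∈ vs S | cl S (fun _ => False) v = 1} := by
      simp [cl]
    have k := h4.2.1 #{v ∈ vs S | cl S (fun _ => False) v = 4} ?_
      #{v ∈ vs S | cl S (fun _ => False) v = 3} ?_ #{v ∈ vs S | cl S (fun _ => False) v = 2} ?_
      #{v ∈ vs S | cl S (fun _ => False) v = 1} ?_ ?_ ?_
    refine total h4.1 pe Subset.rfl (fun x a b => absurd a b) (fun v hv => (sp v hv).1)
      (fun v hv => (sp v hv).2.1) (u := fun j => if j = 3 then _ else if j = 4 then _ else 0)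
      (fun x hx b => ?_) (by rw [z 5 le_rfl, z 6 (by norm_num)]; exact k)
    all_goals rw [z 5 le_rfl, z 6 (by norm_num)] at c1 c2
    any_goals omega
    obtain ⟨-, -, s2, s3⟩ := sp x hx
    have r1 := card_res S x
    have r2 := card_vs_res hx
    have s1 : cl S (fun _ => False) x ≤ 4 := by_contra fun y => (s3 (by omega)).2
    have s4 := (s2 s1).1
    have r3 := card_vs_res' pe hx (by omega)
    generalize cl S (fun _ => False) x = j at *
    interval_cases j
    · exact (hP x (by omega)).2.2.1 4 _ (by omega) (by omega)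
    · exact (hP x (by omega)).2.2.1 3 _ (by omega) (by omega)

theorem spec8 (h1 : Core N) (h2 : Small5 N V W) (h4 : Prof8 N V W) {R : Hg}
    (hR : C0 R) (hI : Irr R) (h8 : R.card = 8) : Good R (P0 N R) := by
  obtain ⟨P, hP⟩ := h2.pick hR h8
  have pe := hI.pend hR
  refine CoreC.good h1 hR pe (irr_cut hI (by omega)) P (fun x a => ⟨(hP x a).1, (hP x a).2.1⟩)
    fun S hS a b => ?_
  have g := card_sdiff_add_card_eq_card hS
  refine ⟨by omega, ?_⟩
  obtain ⟨f, hf⟩ := card_eq_one.1 (by omega : (R \ S).card = 1)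
  obtain ⟨f1, f2⟩ := mem_sdiff.1 (hf ▸ mem_singleton_self f)
  have d := ((hI.2 S hS (card_pos.1 (by omega)).ne_empty fun c => by
    rw [c] at a
    omega).resolve_left (not_le.2 b)).1
  have fR : ∀ e ∈ R, e ≠ f → e ∈ S := fun e x y => by_contra fun z =>
    y (mem_singleton.1 (hf ▸ mem_sdiff.2 ⟨x, z⟩))
  rw [cutv, hf, show vs {f} = f by simp [vs], inter_comm] at d
  have d1 := card_sdiff_add_card_inter f (vs S)
  rw [hR.cls.unif f f1] at d1
  obtain ⟨l, l', ll, hl⟩ := card_eq_two.1 (by omega : (f \ vs S).card = 2)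
  have hA := vs_mono hS
  have e1 : vs R \ vs S = {l, l'} := hl ▸ Subset.antisymm (fun v hv => by
    obtain ⟨x, y⟩ := mem_sdiff.1 hv
    obtain ⟨e, x1, x2⟩ := mem_vs.1 x
    exact mem_sdiff.2 ⟨by_contra fun z => y (mem_vs.2 ⟨e, fR e x1 fun u => z (u ▸ x2), x2⟩), y⟩)
    (sdiff_subset_sdiff (fun v hv => mem_vs.2 ⟨f, f1, hv⟩) Subset.rfl)
  have lf : ∀ Q ⊆ R, f ∈ Q → ∀ v ∈ f \ vs S, v ∈ lvs Q f := fun Q hQ hf v hv => by
    obtain ⟨x, y⟩ := mem_sdiff.1 hv
    refine mem_lvs.2 ⟨x, card_eq_one.2 ⟨f, eq_singleton_iff_unique_mem.2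
      ⟨mem_star.2 ⟨hf, x⟩, fun e he => by_contra fun z => y ?_⟩⟩⟩
    exact mem_vs.2 ⟨e, fR e (hQ (mem_star.1 he).1) z, (mem_star.1 he).2⟩
  have m1 : l ∈ f \ vs S := hl ▸ mem_insert_self _ _
  have m2 : l' ∈ f \ vs S := hl ▸ mem_insert_of_mem (mem_singleton_self _)
  have e2 := card_sdiff_add_card_eq_card hA
  have sd := sum_deg hR
  rw [← sum_sdiff hA, e1, sum_pair ll, (mem_lvs.1 (lf R Subset.rfl f1 l m1)).2,
    (mem_lvs.1 (lf R Subset.rfl f1 l' m2)).2] at sd
  rw [e1, card_pair ll] at e2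
  obtain ⟨c1, c2⟩ := cl_sums hR (· ∈ f) hA
  have sp := fun v hv => cl_spec hR (· ∈ f) (v := v) (hA hv)
  have u1 : #{v ∈ vs S | cl R (· ∈ f) v = 5} + #{v ∈ vs S | cl R (· ∈ f) v = 6} ≤ 2 := by
    rw [← card_union_of_disjoint (disjoint_filter.2 fun v _ x y => by omega), ← d]
    refine card_le_card fun v hv => ?_
    rw [← filter_or, mem_filter] at hv
    exact mem_inter.2 ⟨((sp v hv.1).2.2.2 (by omega)).2, hv.1⟩
  have u2 : 2 ≤ #{v ∈ vs S | cl R (· ∈ f) v = 2} + #{v ∈ vs S | cl R (· ∈ f) v = 5} +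
      #{v ∈ vs S | cl R (· ∈ f) v = 6} := by
    refine d.ge.trans ((card_le_card fun v hv => ?_).trans ((card_union_le _ _).trans
      (Nat.add_le_add_right (card_union_le _ _) _)))
    obtain ⟨x, y⟩ := mem_inter.1 hv
    obtain ⟨e, y1, y2⟩ := mem_vs.1 y
    obtain ⟨s1, -, s2, -⟩ := sp v y
    have : 1 < (star R v).card := one_lt_card.2 ⟨e, mem_star.2 ⟨hS y1, y2⟩, f, mem_star.2 ⟨f1, x⟩,
      fun z => f2 (z ▸ y1)⟩
    rw [← filter_or, ← filter_or]
    refine mem_filter.2 ⟨y, by_contra fun z => ?_⟩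
    obtain ⟨s3, s4⟩ := s2 (by omega)
    exact s4 (by omega) x
  have k := h4.2 _ (by omega) _ (by omega) u1 #{v ∈ vs S | cl R (· ∈ f) v = 4} (by omega)
    #{v ∈ vs S | cl R (· ∈ f) v = 3} (by omega) _ (by omega) u2 (by omega)
    #{v ∈ vs S | cl R (· ∈ f) v = 1} (by omega) (by omega)
  rw [← c1] at k
  refine total h4.1 pe hA (fun x a b => ?_) (fun v hv => (sp v hv).1) (fun v hv => (sp v hv).2.1)
    (u := fun j => if j = 3 then _ else if j = 4 then _ else if j = 5 then _ else _)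
    (fun x hx b => ?_) k
  · exact (mem_lvs.1 (lf R Subset.rfl f1 x (hl ▸ e1 ▸ mem_sdiff.2 ⟨a, b⟩))).2
  obtain ⟨⟨-, s1⟩, -, s2, s3⟩ := sp x hx
  have r1 := card_res R x
  have r2 := card_vs_res (hA hx)
  by_cases y : x ∈ f
  · have r3 : res R {x} ⊆ res S {x} := fun e he => mem_res.2 ⟨fR e (mem_res.1 he).1 fun z =>
      disjoint_singleton_left.1 (mem_res.1 he).2 (z ▸ y), (mem_res.1 he).2⟩
    have r4 := card_le_card (vs_mono r3)
    have r5 := card_vs_res hx
    have s4 : 5 ≤ cl R (· ∈ f) x := by_contra fun z => (s2 (by omega)).2 b y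
    have s5 := (s3 s4).1
    rw [inter_eq_right.2 (vs_mono (r3.trans (res_subset _ _)))]
    generalize cl R (· ∈ f) x = j at *
    interval_cases j
    · exact (hP x (by omega)).2.2.1 5 _ (by omega) (by omega)
    · exact (hP x (by omega)).2.2.1 4 _ (by omega) (by omega)
  · have r3 : f ∈ res R {x} := mem_res.2 ⟨f1, disjoint_singleton_left.2 y⟩
    have s4 : cl R (· ∈ f) x ≤ 4 := by_contra fun z => y (s3 (by omega)).2
    have s5 := (s2 s4).1
    have r4 : vs (res R {x}) \ vs S = {l, l'} := Subset.antisymm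
      (e1 ▸ sdiff_subset_sdiff (vs_mono (res_subset _ _)) Subset.rfl)
      (hl ▸ sdiff_subset_sdiff (fun v hv => mem_vs.2 ⟨f, r3, hv⟩) Subset.rfl)
    have r5 := sum_inter_add_sum_sdiff (vs (res R {x})) (vs S) (P x)
    rw [r4, sum_pair ll, inter_comm, ← eq_sub_iff_add_eq, ← sub_sub] at r5
    have p := (hP x (by omega)).2.2.2 f r3 l (lf _ (res_subset _ _) r3 l m1) l'
      (lf _ (res_subset _ _) r3 l' m2) ll
    rw [r5]
    generalize cl R (· ∈ f) x = j at *
    interval_cases j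
    · exact p 5 _ (by omega) (by omega)
    · exact p 4 _ (by omega) (by omega)

/-- the first induction from its finite parts, with three cut vertices for seven edges. -/
theorem t0_core3 {inc lo hi k0 k : ℕ} (h : N.Ok inc lo hi k0 k) (h1 : Core N)
    (h2 : Small5 N V W) (h3 : Prof7 N V) (h4 : Prof8 N V W)
    (h6 : ∀ R, C0 R → Irr R → Spec R → R.card ≤ 6 → Good R (P0 N R))
    (R : Hg) (hR : C0 R) : Good R (P0 N R) := by
  refine t0 h (CoreC.step h1 le_rfl) (fun R a b d _ => ?_) R hR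
  by_cases x : R.card = 7
  · exact spec7 h1 h2.four h3 a b x
  by_cases y : R.card = 8
  exacts [spec8 h1 h2 h4 a b y, h6 R a b d (by unfold Spec at d; omega)]

/-- the same with two cut vertices. -/
theorem t0_core2 {inc lo hi k0 k : ℕ} (h : N.Ok inc lo hi k0 k) (h1 : CoreC 2 N)
    (h2 : Small4 N V) (h3 : Prof7 N V)
    (h6 : ∀ R, C0 R → Irr R → Spec R → R.card ≤ 6 → Good R (P0 N R))
    (R : Hg) (hR : C0 R) : Good R (P0 N R) := by
  refine t0 h (h1.step (by norm_num)) (fun R a b d ih => ?_) R hR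
  by_cases x : R.card = 7
  · exact spec7 h1 h2 h3 a b x
  by_cases y : R.card = 8
  · refine h1.good a (b.pend a) (irr_cut b (by omega)) (fun x => P0 N (res R {x}))
      (fun x e => ⟨ih _ (St.c0_sub a (res_subset _ _)) ?_, fun _ _ => le_rfl⟩) fun S s1 s2 s3 => ?_
    · have := card_res R x
      omega
    · have := b.2 S s1 (card_pos.1 (by omega)).ne_empty fun z => by
        rw [z] at s2
        omega
      unfold cutv at this
      omega
  · exact h6 R a b d (by unfold Spec at d; omega)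

theorem prof7_num1 : Prof7 ⟨16680, 35930, 37970, 22750, 300050, 311370, 387830, 384570, 389200,
    392960, 389500, 463740⟩ V1 := by decide +kernel

theorem prof8_num1 : Prof8 ⟨16680, 35930, 37970, 22750, 300050, 311370, 387830, 384570, 389200,
    392960, 389500, 463740⟩ V1 W1 := by decide +kernel

end Pool.Agent.P.MP_b2082d_co.Gen
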