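import Pool.Agent.P.MP_b2082d_co.G.T0Ind

/-! The statements that give the step and the special systems with seven and eight edges. -/

namespace Pool.Agent.P.MP_b2082d_co.Gen
open Finset

/-- the rate of a deletion move. -/
noncomputable def rate (R : Hg) (x : ℕ) : ℝ := if 3 ≤ (star R x).card then 3 / 10 else 0

/-- the budget left by the deletion moves. -/
noncomputable def bud (N : Num) (R : Hg) (v : ℕ) : ℝ :=
  P0 N R v - rate R v * (1 - P0 N R v) + ∑ x ∈ (vs R).erase v,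
    rate R x * (P0 N R v - if v ∈ vs (res R {x}) then P0 N (res R {x}) v else 0)

/-- pair weights within the budget, with every odd set row except those of sets of seven edges
with fewer than `c` cut vertices. -/
def CoreC (c : ℕ) (N : Num) : Prop := ∀ R, C0 R → (∀ e ∈ R, (lvs R e).card ≤ 2) →
  (∀ S ⊆ R, S.card = 3 ∨ S.card = 5 → 3 ≤ (vs S ∩ vs (R \ S)).card) →
  ∃ q : ℕ → Finset ℕ → Finset ℕ → ℝ, (∀ v e f, 0 ≤ q v e f) ∧
    (∀ v e f, q v e f ≠ 0 → v ∈ e ∧ v ∈ f) ∧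
    (∀ v ∈ vs R, ∑ e ∈ R, ∑ f ∈ R, q v e f ≤ bud N R v) ∧
    ∀ S ⊆ R, Odd S.card → (S.card = 7 → c ≤ (vs S ∩ vs (R \ S)).card) → (S.card + 1 : ℝ) ≤
      2 * ∑ v ∈ vs R, ∑ e ∈ R, ∑ f ∈ R, if e ∈ S ∨ f ∈ S then q v e f else 0

def Core (N : Num) : Prop := CoreC 3 N

/-- an edge that meets no other edge. -/
def HasIso (Q : Hg) : Prop := ∃ g ∈ Q, (lvs Q g).card = 4

/-- cheap price vectors for systems with three to five edges; `V m n` and `W m n` are in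
millionths, `m` is the number of edges and `n` the number of vertices that are counted. -/
def Small5 (N : Num) (V W : ℕ → ℕ → ℕ) : Prop := ∀ Q, C0 Q → 3 ≤ Q.card → Q.card ≤ 5 →
  ∃ p, Good Q p ∧ (∀ v ∈ vs Q, p v ≤ P0 N Q v) ∧
    (∀ n, (vs Q).card ≤ n → ∑ v ∈ vs Q, p v ≤ V Q.card n / 1000000) ∧
    (Q.card = 4 → (vs Q).card = 11 → ¬ HasIso Q → ∑ v ∈ vs Q, p v ≤ V 4 10 / 1000000) ∧
    ∀ f ∈ Q, ∀ l ∈ lvs Q f, ∀ l' ∈ lvs Q f, l ≠ l' → ∀ n, (vs Q).card ≤ n + 2 →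
      ∑ v ∈ vs Q, p v - p l - p l' ≤ W Q.card n / 1000000

/-- the part of `Small5` that the systems with seven edges need. -/
def Small4 (N : Num) (V : ℕ → ℕ → ℕ) : Prop := ∀ Q, C0 Q → Q.card = 3 ∨ Q.card = 4 →
  ∃ p, Good Q p ∧ (∀ v ∈ vs Q, p v ≤ P0 N Q v) ∧
    (∀ n, (vs Q).card ≤ n → ∑ v ∈ vs Q, p v ≤ V Q.card n / 1000000) ∧
    (Q.card = 4 → (vs Q).card = 11 → ¬ HasIso Q → ∑ v ∈ vs Q, p v ≤ V 4 10 / 1000000)

/-- the table for the final numbers. -/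
def V1 (m n : ℕ) : ℕ :=
  if m = 3 then [0, 0, 0, 0, 0, 0, 0, 2000100, 2000100, 2099950, 2400000, 2700050].getD n 3000100
  else if m = 4 then [0, 0, 0, 0, 0, 0, 0, 2000100, 2221100, 2400000, 2700050, 3000100, 3000100,
    3099950, 3400000, 3700050].getD n 4000100
  else [0, 0, 0, 0, 0, 0, 0, 0, 2442100, 2700050, 3000100, 3000100, 3221100, 3400000, 3700050,
    4000100, 4000100, 4099950, 4400000, 4700050].getD n 5000100

def W1 (m n : ℕ) : ℕ :=
  if m = 3 then [0, 0, 0, 0, 0, 0, 1571960, 1700050, 2000100, 2233420].getD n 2500100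
  else if m = 4 then [0, 0, 0, 0, 0, 0, 0, 2000100, 2233420, 2500100, 2571960, 2700050, 3000100,
    3233420].getD n 3500100
  else [0, 0, 0, 0, 0, 0, 0, 2000100, 2571960, 2571960, 2721100, 3000100, 3233420, 3500100,
    3571960, 3700050, 4000100, 4233420].getD n 4500100

def Bad3 (R : Hg) (x : ℕ) : Prop :=
  (star R x).card = 3 ∧ (vs (res R {x})).card = 11 ∧ HasIso (res R {x})

def Bad4 (R : Hg) (x : ℕ) : Prop := (star R x).card = 4 ∧ (vs (res R {x})).card = 11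

/-- seven edges on twelve vertices: few moves leave an expensive rest. -/
def S_bad : Prop := ∀ R, C0 R → Irr R → R.card = 7 → (vs R).card = 12 →
  ∀ B : Finset ℕ, (∀ x ∈ B, Bad3 R x) → B.card ≤ 3 ∧
    (B.card = 3 → (∃ v, (star R v).card = 1) ∧ ∀ z, ¬ Bad4 R z) ∧
    (B.card = 2 → (∃ v, (star R v).card = 1) ∨ ∀ z, ¬ Bad4 R z)

end Pool.Agent.P.MP_b2082d_co.Gen
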