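import Pool.Agent.P.MP_b2082d_co.G.Base

/-! Reductions along cuts with one or two vertices. -/

namespace Pool.Agent.P.MP_b2082d_co.Gen
open Finset

/-- the cheapest completion of a subset `X` of the cut `C` to a transversal of `A`. -/
theorem side (A : Hg) (C : Finset ℕ) (hC : ∀ e ∈ A, ¬ e ⊆ C) (w : ℕ → ℝ) :
    ∃ f : Finset ℕ → ℝ, (∀ X, ∃ T, Tr A (X ∪ T) ∧ ∑ v ∈ T, w v = f X) ∧
      (∀ X T, T ⊆ vs A \ C → Tr A (X ∪ T) → f X ≤ ∑ v ∈ T, w v) ∧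
      ∀ X Y, (∀ T, Tr A (X ∪ T) → Tr A (Y ∪ T)) → f Y ≤ f X := by
  classical
  have h : ∀ X : Finset ℕ, ∃ T ∈ (vs A \ C).powerset.filter fun T => Tr A (X ∪ T),
      ∀ U ∈ (vs A \ C).powerset.filter fun T => Tr A (X ∪ T), ∑ v ∈ T, w v ≤ ∑ v ∈ U, w v :=
    fun X => exists_min_image _ _ ⟨vs A \ C, mem_filter.2 ⟨mem_powerset_self _, fun e he => by
      obtain ⟨v, h1, h2⟩ := not_subset.1 (hC e he)
      exact ⟨v, mem_inter.2 ⟨mem_union_right _ (mem_sdiff.2 ⟨mem_vs.2 ⟨e, he, h1⟩, h2⟩), h1⟩⟩⟩⟩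
  choose T h1 h2 using h
  refine ⟨fun X => ∑ v ∈ T X, w v, fun X => ⟨T X, (mem_filter.1 (h1 X)).2, rfl⟩,
    fun X U a b => h2 X U (mem_filter.2 ⟨mem_powerset.2 a, b⟩), fun X Y a => ?_⟩
  exact h2 Y (T X) (mem_filter.2 ⟨(mem_filter.1 (h1 X)).1, a _ (mem_filter.1 (h1 X)).2⟩)

/-- what a valid price vector says about the side function. -/
theorem side_bound {A : Hg} {C : Finset ℕ} {w p : ℕ → ℝ} (hw : ∀ v, 0 ≤ w v) (hA : Good A p)
    (hC : C ⊆ vs A) {f : Finset ℕ → ℝ}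
    (hf : ∀ X T, T ⊆ vs A \ C → Tr A (X ∪ T) → f X ≤ ∑ v ∈ T, w v) (a : ℕ → ℝ)
    (ha : ∀ v, 0 ≤ a v) :
    ∃ X ⊆ C, f X + ∑ v ∈ X, a v ≤ ∑ v ∈ vs A \ C, w v * p v + ∑ v ∈ C, a v * p v := by
  obtain ⟨T, h1, h2⟩ := hA (fun v => if v ∈ C then a v else w v) fun v => by
    split_ifs
    exacts [ha v, hw v]
  refine ⟨T ∩ C, inter_subset_right, ?_⟩
  have h3 := hf (T ∩ C) ((T ∩ vs A) \ C) (sdiff_subset_sdiff inter_subset_right subset_rfl)
    (h1.inter.mono fun v hv => by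
      by_cases b : v ∈ C
      · exact mem_union_left _ (mem_inter.2 ⟨(mem_inter.1 hv).1, b⟩)
      · exact mem_union_right _ (mem_sdiff.2 ⟨hv, b⟩))
  have h4 := sum_mono hw (sdiff_subset_sdiff (inter_subset_left (s₁ := T) (s₂ := vs A))
    (subset_refl C))
  rw [← sum_inter_add_sum_sdiff T C, ← sum_sdiff hC] at h2
  rw [sum_congr rfl fun v hv => if_pos (mem_inter.1 hv).2,
    sum_congr rfl fun v hv => if_neg (mem_sdiff.1 hv).2,
    sum_congr rfl fun v hv => congrArg (· * p v) (if_neg (mem_sdiff.1 hv).2),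
    sum_congr rfl fun v (hv : v ∈ C) => congrArg (· * p v) (if_pos hv)] at h2
  linarith

theorem sum_vs_union {A B : Hg} {C : Finset ℕ} (h : vs A ∩ vs B = C) (g : ℕ → ℝ) :
    ∑ v ∈ vs (A ∪ B), g v = ∑ v ∈ vs A \ C, g v + ∑ v ∈ vs B \ C, g v + ∑ v ∈ C, g v := by
  have h1 := sum_union_inter (s₁ := vs A) (s₂ := vs B) (f := g)
  have h2 := sum_sdiff (f := g) (h ▸ inter_subset_left : C ⊆ vs A)
  have h3 := sum_sdiff (f := g) (h ▸ inter_subset_right : C ⊆ vs B)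
  rw [h] at h1
  rw [vs_union]
  linarith

theorem glue {A B : Hg} {w : ℕ → ℝ} (hw : ∀ v, 0 ≤ w v) {f g : Finset ℕ → ℝ}
    (hf : ∀ X, ∃ T, Tr A (X ∪ T) ∧ ∑ v ∈ T, w v = f X)
    (hg : ∀ X, ∃ T, Tr B (X ∪ T) ∧ ∑ v ∈ T, w v = g X) (X : Finset ℕ) :
    ∃ T, Tr (A ∪ B) T ∧ ∑ v ∈ T, w v ≤ f X + g X + ∑ v ∈ X, w v := by
  obtain ⟨T, h1, h2⟩ := hf X
  obtain ⟨U, h3, h4⟩ := hg X
  refine ⟨X ∪ (T ∪ U), (h1.union h3).mono fun v hv => ?_, ?_⟩
  · simp only [mem_union] at hv ⊢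
    tauto
  · linarith [sum_union_le hw X (T ∪ U), sum_union_le hw T U]

/-- two systems with exactly one common vertex. -/
theorem good_cut1 {A B : Hg} {t : ℕ} {p q r : ℕ → ℝ} (hA : Good A p) (hB : Good B q)
    (h : vs A ∩ vs B = {t}) (hcA : ∀ e ∈ A, 2 ≤ e.card) (hcB : ∀ e ∈ B, 2 ≤ e.card)
    (hp : ∀ v ∈ vs A, p v ≤ r v) (hq : ∀ v ∈ vs B, q v ≤ r v) : Good (A ∪ B) r := fun w hw => by
  obtain ⟨f, f1, f2, f3⟩ := side A {t} (fun e he a => by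
    have := card_le_card a; have := hcA e he; simp at *; omega) w
  obtain ⟨g, g1, g2, g3⟩ := side B {t} (fun e he a => by
    have := card_le_card a; have := hcB e he; simp at *; omega) w
  have f4 := f3 ∅ {t} fun T a => a.mono (union_subset_union_left (empty_subset _))
  have g4 := g3 ∅ {t} fun T a => a.mono (union_subset_union_left (empty_subset _))
  have tA : ({t} : Finset ℕ) ⊆ vs A := h ▸ inter_subset_left
  have tB : ({t} : Finset ℕ) ⊆ vs B := h ▸ inter_subset_right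
  obtain ⟨a, a0, a1, a2⟩ : ∃ a, 0 ≤ a ∧ a ≤ w t ∧ ((f ∅ - f {t} ≤ a ∧ g ∅ - g {t} ≤ w t - a) ∨
      (a ≤ f ∅ - f {t} ∧ w t - a ≤ g ∅ - g {t})) := by
    by_cases c : f ∅ - f {t} ≤ w t
    · refine ⟨f ∅ - f {t}, by linarith, c, ?_⟩
      rcases le_total (g ∅ - g {t}) (w t - (f ∅ - f {t})) with d | d
      exacts [Or.inl ⟨le_rfl, d⟩, Or.inr ⟨le_rfl, d⟩]
    · exact ⟨w t, hw t, le_rfl, Or.inr ⟨(not_le.1 c).le, by linarith⟩⟩
  obtain ⟨X, x1, x2⟩ := side_bound hw (hA.mono hp) tA f2 (fun _ => a) fun _ => a0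
  obtain ⟨Y, y1, y2⟩ := side_bound hw (hB.mono hq) tB g2 (fun _ => w t - a) fun _ => sub_nonneg.2 a1
  rw [sum_vs_union h]
  simp only [sum_singleton] at x2 y2 ⊢
  obtain ⟨T, t1, t2⟩ := glue hw f1 g1 ∅
  obtain ⟨U, u1, u2⟩ := glue hw f1 g1 {t}
  simp only [sum_singleton, sum_empty] at t2 u2
  rcases a2 with ⟨b, c⟩ | ⟨b, c⟩
  · refine ⟨T, t1, ?_⟩
    rcases subset_singleton_iff.1 x1 with rfl | rfl <;> rcases subset_singleton_iff.1 y1 with rfl | rfl <;>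
      simp only [sum_singleton, sum_empty] at x2 y2 <;> linarith
  · refine ⟨U, u1, ?_⟩
    rcases subset_singleton_iff.1 x1 with rfl | rfl <;> rcases subset_singleton_iff.1 y1 with rfl | rfl <;>
      simp only [sum_singleton, sum_empty] at x2 y2 <;> linarith

/-- the side function against a valid price vector of the system with one more edge. -/
theorem or_bound {A : Hg} {s t l m : ℕ} {w p : ℕ → ℝ} (hw : ∀ v, 0 ≤ w v)
    (hA : Good (insert {s, t, l, m} A) p) (hst : s ≠ t) (hC : {s, t} ⊆ vs A) (hl : l ∉ vs A)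
    (hm : m ∉ vs A) (hlm : l ≠ m) {f : Finset ℕ → ℝ}
    (hf : ∀ X T, T ⊆ vs A \ {s, t} → Tr A (X ∪ T) → f X ≤ ∑ v ∈ T, w v) {a b z : ℝ}
    (ha : 0 ≤ a) (hb : 0 ≤ b) (hz : 0 ≤ z) :
    min (min (f ∅ + z) (f {s} + a)) (min (f {t} + b) (f {s, t} + a + b)) ≤
      ∑ v ∈ vs A \ {s, t}, w v * p v + a * p s + b * p t + z * (p l + p m) := by
  have s1 : s ∈ vs A := hC (by simp)
  have t1 : t ∈ vs A := hC (by simp)
  have ls : l ≠ s := fun e => hl (e ▸ s1)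
  have lt : l ≠ t := fun e => hl (e ▸ t1)
  have ms : m ≠ s := fun e => hm (e ▸ s1)
  have mt : m ≠ t := fun e => hm (e ▸ t1)
  set u : ℕ → ℝ := fun v => if v = s then a else if v = t then b else if v ∈ vs A then w v else z
    with hu
  have u0 : ∀ v, 0 ≤ u v := fun v => by
    simp only [hu]
    split_ifs
    exacts [ha, hb, hw v, hz]
  have us : u s = a := if_pos rfl
  have ut : u t = b := by simp [hu, hst.symm]
  have ul : u l = z := by simp [hu, ls, lt, hl]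
  have um : u m = z := by simp [hu, ms, mt, hm]
  have uw : ∀ v ∈ vs A \ {s, t}, u v = w v := fun v hv => by
    simp only [mem_sdiff, mem_insert, mem_singleton, not_or] at hv
    simp [hu, hv]
  obtain ⟨T, h1, h2⟩ := hA u u0
  have h3 := hf (T ∩ {s, t}) ((T ∩ vs A) \ {s, t})
    (sdiff_subset_sdiff inter_subset_right subset_rfl)
    ((h1.sub (subset_insert _ _)).inter.mono fun v hv => by
      by_cases b : v ∈ ({s, t} : Finset ℕ)
      · exact mem_union_left _ (mem_inter.2 ⟨(mem_inter.1 hv).1, b⟩)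
      · exact mem_union_right _ (mem_sdiff.2 ⟨hv, b⟩))
  have h4 : vs (insert {s, t, l, m} A) = insert l (insert m (vs A)) := by
    rw [vs_insert]
    ext v
    simp only [mem_union, mem_insert, mem_singleton]
    constructor
    · rintro ((rfl | rfl | rfl | rfl) | h) <;> simp [*]
    · tauto
  rw [h4, sum_insert (by simp [hlm, hl]), sum_insert hm, ← sum_sdiff hC, sum_pair hst, us, ut, ul,
    um, sum_congr rfl fun v hv => congrArg (· * p v) (uw v hv)] at h2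
  rw [← sum_congr rfl fun v hv => uw v (sdiff_subset_sdiff inter_subset_right subset_rfl hv)] at h3
  have h5 := sum_inter_add_sum_sdiff T (vs A) u
  have h6 := sum_inter_add_sum_sdiff (T ∩ vs A) {s, t} u
  rw [inter_assoc, inter_eq_right.2 hC] at h6
  have h7 : 0 ≤ ∑ v ∈ T \ vs A, u v := sum_nonneg fun v _ => u0 v
  by_cases c : s ∈ T <;> by_cases d : t ∈ T
  · rw [inter_eq_right.2 (by simp [insert_subset_iff, c, d])] at h3 h6
    rw [sum_pair hst, us, ut] at h6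
    exact (min_le_right _ _).trans ((min_le_right _ _).trans (by linarith))
  · rw [show T ∩ {s, t} = {s} by ext v; simp only [mem_inter, mem_insert, mem_singleton]; grind]
      at h3 h6
    rw [sum_singleton, us] at h6
    exact (min_le_left _ _).trans ((min_le_right _ _).trans (by linarith))
  · rw [show T ∩ {s, t} = {t} by ext v; simp only [mem_inter, mem_insert, mem_singleton]; grind]
      at h3 h6
    rw [sum_singleton, ut] at h6
    exact (min_le_right _ _).trans ((min_le_left _ _).trans (by linarith))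
  · rw [show T ∩ {s, t} = ∅ by ext v; simp only [mem_inter, mem_insert, mem_singleton]; grind]
      at h3 h6
    rw [sum_empty] at h6
    obtain ⟨x, hx⟩ := h1 _ (mem_insert_self _ _)
    have h8 : x ∈ T \ vs A ∧ u x = z := by
      simp only [mem_inter, mem_insert, mem_singleton] at hx
      obtain ⟨x1, rfl | rfl | rfl | rfl⟩ := hx
      exacts [absurd x1 c, absurd x1 d, ⟨mem_sdiff.2 ⟨x1, hl⟩, ul⟩, ⟨mem_sdiff.2 ⟨x1, hm⟩, um⟩]
    have h9 := single_le_sum (f := u) (fun v _ => u0 v) h8.1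
    exact (min_le_left _ _).trans ((min_le_left _ _).trans (by linarith [h8.2]))

theorem pair_bound {A : Hg} {s t : ℕ} {w p : ℕ → ℝ} (hw : ∀ v, 0 ≤ w v) (hA : Good A p)
    (hst : s ≠ t) (hC : {s, t} ⊆ vs A) {f : Finset ℕ → ℝ}
    (hf : ∀ X T, T ⊆ vs A \ {s, t} → Tr A (X ∪ T) → f X ≤ ∑ v ∈ T, w v) {a b : ℝ}
    (ha : 0 ≤ a) (hb : 0 ≤ b) :
    min (min (f ∅) (f {s} + a)) (min (f {t} + b) (f {s, t} + a + b)) ≤
      ∑ v ∈ vs A \ {s, t}, w v * p v + a * p s + b * p t := by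
  obtain ⟨X, x1, x2⟩ := side_bound hw hA hC hf (fun v => if v = s then a else b) fun v => by
    split_ifs
    exacts [ha, hb]
  rw [sum_pair hst, if_pos rfl, if_neg hst.symm] at x2
  have h : X = ∅ ∨ X = {s} ∨ X = {t} ∨ X = {s, t} := by
    have x3 : ∀ v ∈ X, v = s ∨ v = t := fun v hv => by simpa using x1 hv
    by_cases c : s ∈ X <;> by_cases d : t ∈ X
    · refine Or.inr (Or.inr (Or.inr ?_)); ext v; simp only [mem_insert, mem_singleton]; grind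
    · refine Or.inr (Or.inl ?_); ext v; simp only [mem_singleton]; grind
    · refine Or.inr (Or.inr (Or.inl ?_)); ext v; simp only [mem_singleton]; grind
    · refine Or.inl ?_; ext v; simp only [notMem_empty]; grind
  rcases h with rfl | rfl | rfl | rfl
  · rw [sum_empty] at x2
    exact (min_le_left _ _).trans ((min_le_left _ _).trans (by linarith))
  · rw [sum_singleton, if_pos rfl] at x2
    exact (min_le_left _ _).trans ((min_le_right _ _).trans (by linarith))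
  · rw [sum_singleton, if_neg hst.symm] at x2
    exact (min_le_right _ _).trans ((min_le_left _ _).trans (by linarith))
  · rw [sum_pair hst, if_pos rfl, if_neg hst.symm] at x2
    exact (min_le_right _ _).trans ((min_le_right _ _).trans (by linarith))

/-- a decreasing Lipschitz function between the two side functions. -/
theorem between {f0 f1 f2 f3 g0 g1 g2 g3 x y m : ℝ} (hx : 0 ≤ x) (hy : 0 ≤ y) (a1 : f1 ≤ f0)
    (a2 : f2 ≤ f0) (a3 : f3 ≤ f1) (a4 : f3 ≤ f2) (b1 : g1 ≤ g0) (b2 : g2 ≤ g0) (b3 : g3 ≤ g1)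
    (b4 : g3 ≤ g2) (m0 : m ≤ f0 + g0) (m1 : m ≤ f1 + g1 + x) (m2 : m ≤ f2 + g2 + y)
    (m3 : m ≤ f3 + g3 + x + y) :
    ∃ u0 u1 u2 u3 : ℝ, (u0 ≤ f0 ∧ u1 ≤ f1 ∧ u2 ≤ f2 ∧ u3 ≤ f3) ∧
      (m ≤ u0 + g0 ∧ m ≤ u1 + g1 + x ∧ m ≤ u2 + g2 + y ∧ m ≤ u3 + g3 + x + y) ∧
      (u1 ≤ u0 ∧ u2 ≤ u0 ∧ u3 ≤ u1 ∧ u3 ≤ u2) ∧
      u0 ≤ u1 + x ∧ u0 ≤ u2 + y ∧ u1 ≤ u3 + y ∧ u2 ≤ u3 + x := by
  refine ⟨min (min f0 (f1 + x)) (min (f2 + y) (f3 + x + y)), min f1 (f3 + y), min f2 (f3 + x), f3,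
    ?_⟩
  simp only [min_def]
  split_ifs <;> refine ⟨⟨?_, ?_, ?_, ?_⟩, ⟨?_, ?_, ?_, ?_⟩, ⟨?_, ?_, ?_, ?_⟩, ?_, ?_, ?_, ?_⟩ <;>
    linarith

/-- the half of the two vertex reduction in which `A` receives the extra edge. -/
theorem cut2_half {A B : Hg} {s t l m : ℕ} {w p q r : ℕ → ℝ} (hw : ∀ v, 0 ≤ w v)
    (hA : Good (insert {s, t, l, m} A) p) (hB : Good B q) (hst : s ≠ t)
    (h : vs A ∩ vs B = {s, t}) (hl : l ∉ vs A) (hm : m ∉ vs A) (hlm : l ≠ m)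
    (hp : ∀ v ∈ vs A, p v ≤ r v) (hq : ∀ v ∈ vs B, q v ≤ r v)
    (hr : p s + q s + p t + q t + p l + p m ≤ 1 + r s + r t) {f g : Finset ℕ → ℝ}
    (hf : ∀ X T, T ⊆ vs A \ {s, t} → Tr A (X ∪ T) → f X ≤ ∑ v ∈ T, w v)
    (hg : ∀ X T, T ⊆ vs B \ {s, t} → Tr B (X ∪ T) → g X ≤ ∑ v ∈ T, w v) {u0 u1 u2 u3 k : ℝ}
    (a : u0 ≤ f ∅ ∧ u1 ≤ f {s} ∧ u2 ≤ f {t} ∧ u3 ≤ f {s, t})
    (b : k ≤ u0 + g ∅ ∧ k ≤ u1 + g {s} + w s ∧ k ≤ u2 + g {t} + w t ∧
      k ≤ u3 + g {s, t} + w s + w t)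
    (c : u1 ≤ u0 ∧ u2 ≤ u0 ∧ u3 ≤ u1 ∧ u3 ≤ u2) (d : u1 ≤ u3 + w t ∧ u2 ≤ u3 + w s)
    (e : u0 + u3 ≤ u1 + u2) : k ≤ ∑ v ∈ vs (A ∪ B), w v * r v := by
  have tA : ({s, t} : Finset ℕ) ⊆ vs A := h ▸ inter_subset_left
  have tB : ({s, t} : Finset ℕ) ⊆ vs B := h ▸ inter_subset_right
  obtain ⟨a0, a1, a2, a3⟩ := a
  obtain ⟨b0, b1, b2, b3⟩ := b
  obtain ⟨c0, c1, c2, c3⟩ := c
  have x := or_bound hw hA hst tA hl hm hlm hf (a := u2 - u3) (b := u1 - u3)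
    (z := u1 + u2 - u0 - u3) (by linarith) (by linarith) (by linarith)
  have y := pair_bound hw hB hst tB hg (a := w s + u1 - u0) (b := w t + u2 - u0) (by linarith [d.2])
    (by linarith [d.1])
  have x1 : u1 + u2 - u3 ≤ _ := le_trans (le_min (le_min (by linarith) (by linarith))
    (le_min (by linarith) (by linarith))) x
  have y1 : k - u0 ≤ _ := le_trans (le_min (le_min (by linarith) (by linarith))
    (le_min (by linarith) (by linarith))) y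
  have x2 := sum_le_sum fun v (hv : v ∈ vs A \ {s, t}) =>
    mul_le_mul_of_nonneg_left (hp v (mem_sdiff.1 hv).1) (hw v)
  have y2 := sum_le_sum fun v (hv : v ∈ vs B \ {s, t}) =>
    mul_le_mul_of_nonneg_left (hq v (mem_sdiff.1 hv).1) (hw v)
  rw [sum_vs_union h, sum_pair hst]
  have e1 := mul_nonneg (sub_nonneg.2 c0) (sub_nonneg.2 (hp s (tA (by simp))))
  have e2 := mul_nonneg (sub_nonneg.2 c1) (sub_nonneg.2 (hp t (tA (by simp))))
  have e3 := mul_nonneg (sub_nonneg.2 d.2) (sub_nonneg.2 (hq s (tB (by simp))))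
  have e4 := mul_nonneg (sub_nonneg.2 d.1) (sub_nonneg.2 (hq t (tB (by simp))))
  have e5 := mul_nonneg (sub_nonneg.2 e) (sub_nonneg.2 hr)
  nlinarith

theorem not_sub_pair {A : Hg} (h : ∀ e ∈ A, 3 ≤ e.card) (s t : ℕ) : ∀ e ∈ A, ¬ e ⊆ {s, t} :=
  fun e he a => by
    have := card_le_card a
    have := h e he
    have := card_le_two (a := s) (b := t)
    omega

theorem best {A B : Hg} {s t : ℕ} (hst : s ≠ t) {w : ℕ → ℝ} (hw : ∀ v, 0 ≤ w v)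
    {f g : Finset ℕ → ℝ} (hf : ∀ X, ∃ T, Tr A (X ∪ T) ∧ ∑ v ∈ T, w v = f X)
    (hg : ∀ X, ∃ T, Tr B (X ∪ T) ∧ ∑ v ∈ T, w v = g X) :
    ∃ T, Tr (A ∪ B) T ∧ ∑ v ∈ T, w v ≤ f ∅ + g ∅ ∧ ∑ v ∈ T, w v ≤ f {s} + g {s} + w s ∧
      ∑ v ∈ T, w v ≤ f {t} + g {t} + w t ∧ ∑ v ∈ T, w v ≤ f {s, t} + g {s, t} + w s + w t := by
  obtain ⟨T0, a0, b0⟩ := glue hw hf hg ∅
  obtain ⟨T1, a1, b1⟩ := glue hw hf hg {s}
  obtain ⟨T2, a2, b2⟩ := glue hw hf hg {t}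
  obtain ⟨T3, a3, b3⟩ := glue hw hf hg {s, t}
  rw [sum_empty] at b0
  rw [sum_singleton] at b1 b2
  rw [sum_pair hst] at b3
  obtain ⟨T, h1, h2⟩ := exists_min_image ({T0, T1, T2, T3} : Hg) (fun T => ∑ v ∈ T, w v) (by simp)
  have c0 := h2 T0 (by simp)
  have c1 := h2 T1 (by simp)
  have c2 := h2 T2 (by simp)
  have c3 := h2 T3 (by simp)
  refine ⟨T, ?_, by linarith, by linarith, by linarith, by linarith⟩
  simp only [mem_insert, mem_singleton] at h1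
  rcases h1 with rfl | rfl | rfl | rfl <;> assumption

/-- two systems with exactly two common vertices. -/
theorem good_cut2 {A B : Hg} {s t l m : ℕ} {p p' q q' r : ℕ → ℝ}
    (hA' : Good (insert {s, t, l, m} A) p') (hA : Good A p)
    (hB' : Good (insert {s, t, l, m} B) q') (hB : Good B q) (hst : s ≠ t)
    (h : vs A ∩ vs B = {s, t}) (hl : l ∉ vs (A ∪ B)) (hm : m ∉ vs (A ∪ B)) (hlm : l ≠ m)
    (hcA : ∀ e ∈ A, 3 ≤ e.card) (hcB : ∀ e ∈ B, 3 ≤ e.card)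
    (hp : ∀ v ∈ vs A, p v ≤ r v) (hp' : ∀ v ∈ vs A, p' v ≤ r v)
    (hq : ∀ v ∈ vs B, q v ≤ r v) (hq' : ∀ v ∈ vs B, q' v ≤ r v)
    (hr : p' s + q s + p' t + q t + p' l + p' m ≤ 1 + r s + r t)
    (hr' : q' s + p s + q' t + p t + q' l + q' m ≤ 1 + r s + r t) : Good (A ∪ B) r := fun w hw => by
  obtain ⟨f, f1, f2, f3⟩ := side A {s, t} (not_sub_pair hcA s t) w
  obtain ⟨g, g1, g2, g3⟩ := side B {s, t} (not_sub_pair hcB s t) w
  obtain ⟨T, t1, m0, m1, m2, m3⟩ := best hst hw f1 g1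
  have mo : ∀ {C : Hg} {X Y : Finset ℕ}, X ⊆ Y → ∀ T, Tr C (X ∪ T) → Tr C (Y ∪ T) :=
    fun a T b => b.mono (union_subset_union_left a)
  obtain ⟨u0, u1, u2, u3, a, b, c, d0, d1, d2, d3⟩ := between (hw s) (hw t)
    (f3 ∅ {s} (mo (by simp))) (f3 ∅ {t} (mo (by simp))) (f3 {s} {s, t} (mo (by simp)))
    (f3 {t} {s, t} (mo (by simp))) (g3 ∅ {s} (mo (by simp))) (g3 ∅ {t} (mo (by simp)))
    (g3 {s} {s, t} (mo (by simp))) (g3 {t} {s, t} (mo (by simp))) m0 m1 m2 m3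
  rw [vs_union, mem_union, not_or] at hl hm
  refine ⟨T, t1, ?_⟩
  rcases le_total (u0 + u3) (u1 + u2) with e | e
  · exact cut2_half hw hA' hB hst h hl.1 hm.1 hlm hp' hq hr f2 g2 a b c ⟨d2, d3⟩ e
  · rw [union_comm]
    generalize ∑ v ∈ T, w v = k at *
    obtain ⟨a0, a1, a2, a3⟩ := a
    obtain ⟨b0, b1, b2, b3⟩ := b
    obtain ⟨c0, c1, c2, c3⟩ := c
    refine cut2_half hw hB' hA hst (inter_comm (vs A) (vs B) ▸ h) hl.2 hm.2 hlm hq' hp hr' g2 f2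
      (u0 := k - u0) (u1 := k - w s - u1) (u2 := k - w t - u2) (u3 := k - w s - w t - u3)
      ⟨?_, ?_, ?_, ?_⟩ ⟨?_, ?_, ?_, ?_⟩ ⟨?_, ?_, ?_, ?_⟩ ⟨?_, ?_⟩ ?_ <;> linarith

/-- the same when every edge of `A` through `s` contains `t`: only `B` needs the extra edge. -/
theorem good_cut2_nested {A B : Hg} {s t l m : ℕ} {p q' r : ℕ → ℝ} (hA : Good A p)
    (hB' : Good (insert {s, t, l, m} B) q') (hst : s ≠ t) (h : vs A ∩ vs B = {s, t})
    (hn : ∀ e ∈ A, s ∈ e → t ∈ e) (hl : l ∉ vs B) (hm : m ∉ vs B) (hlm : l ≠ m)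
    (hcA : ∀ e ∈ A, 3 ≤ e.card) (hcB : ∀ e ∈ B, 3 ≤ e.card)
    (hp : ∀ v ∈ vs A, p v ≤ r v) (hq' : ∀ v ∈ vs B, q' v ≤ r v)
    (hr' : q' s + p s + q' t + p t + q' l + q' m ≤ 1 + r s + r t) : Good (A ∪ B) r := fun w hw => by
  obtain ⟨f, f1, f2, f3⟩ := side A {s, t} (not_sub_pair hcA s t) w
  obtain ⟨g, g1, g2, g3⟩ := side B {s, t} (not_sub_pair hcB s t) w
  obtain ⟨T, t1, m0, m1, m2, m3⟩ := best hst hw f1 g1
  have mo : ∀ {C : Hg} {X Y : Finset ℕ}, X ⊆ Y → ∀ T, Tr C (X ∪ T) → Tr C (Y ∪ T) :=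
    fun a T b => b.mono (union_subset_union_left a)
  obtain ⟨u0, u1, u2, u3, ⟨a0, a1, a2, a3⟩, ⟨b0, b1, b2, b3⟩, ⟨c0, c1, c2, c3⟩, d0, d1, d2, d3⟩ :=
    between (hw s) (hw t)
    (f3 ∅ {s} (mo (by simp))) (f3 ∅ {t} (mo (by simp))) (f3 {s} {s, t} (mo (by simp)))
    (f3 {t} {s, t} (mo (by simp))) (g3 ∅ {s} (mo (by simp))) (g3 ∅ {t} (mo (by simp)))
    (g3 {s} {s, t} (mo (by simp))) (g3 {t} {s, t} (mo (by simp))) m0 m1 m2 m3
  have f4 : f {t} ≤ f {s, t} := f3 _ _ fun U hU e he => by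
    obtain ⟨v, hv⟩ := hU e he
    simp only [mem_inter, mem_union, mem_insert, mem_singleton] at hv
    obtain ⟨(rfl | rfl) | h1, h2⟩ := hv
    · exact ⟨t, by simp [hn e he h2]⟩
    · exact ⟨v, by simp [h2]⟩
    · exact ⟨v, by simp [h1, h2]⟩
  refine ⟨T, t1, ?_⟩
  rw [union_comm]
  generalize ∑ v ∈ T, w v = k at *
  have e1 := min_le_left u1 u2
  have e2 := min_le_right u1 u2
  have e3 := le_min c2 c3
  have e4 : u1 + u2 ≤ u0 + min u1 u2 := by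
    rcases min_choice u1 u2 with e | e <;> rw [e] <;> linarith
  refine cut2_half hw hB' hA hst (inter_comm (vs A) (vs B) ▸ h) hl hm hlm hq' hp hr' g2 f2
    (u0 := k - u0) (u1 := k - w s - u1) (u2 := k - w t - u2) (u3 := k - w s - w t - min u1 u2)
    ⟨?_, ?_, ?_, ?_⟩ ⟨?_, ?_, ?_, ?_⟩ ⟨?_, ?_, ?_, ?_⟩ ⟨?_, ?_⟩ ?_ <;> linarith

end Pool.Agent.P.MP_b2082d_co.Gen
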