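import Pool.Agent.P.MP_b2082d_co.G.Base

/-! Extension of a valid price vector over deleted edges, and redistribution among leaves. -/

namespace Pool.Agent.P.MP_b2082d_co.Gen
open Finset

/-- weights of any sign: a vertex of negative weight is added. -/
theorem Good.signed {R : Hg} {p : ℕ → ℝ} (h : Good R p) (h1 : ∀ v ∈ vs R, p v ≤ 1) (w : ℕ → ℝ) :
    ∃ T ⊆ vs R, Tr R T ∧ ∑ v ∈ T, w v ≤ ∑ v ∈ vs R, w v * p v := by
  obtain ⟨T, h2, h3⟩ := h (fun v => max (w v) 0) fun v => le_max_right _ _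
  refine ⟨(vs R).filter fun v => v ∈ T ∨ w v < 0, filter_subset _ _,
    h2.inter.mono fun v hv => ?_, ?_⟩
  · rw [mem_inter] at hv
    exact mem_filter.2 ⟨hv.2, Or.inl hv.1⟩
  have h4 : ∑ v ∈ (vs R).filter (· ∈ T), max (w v) 0 ≤ ∑ v ∈ T, max (w v) 0 :=
    sum_mono (fun v => le_max_right _ _) fun v hv => (mem_filter.1 hv).2
  rw [sum_filter] at h4 ⊢
  have h5 : ∑ v ∈ vs R, ((if v ∈ T ∨ w v < 0 then w v else 0) + max (w v) 0 * p v) ≤
      ∑ v ∈ vs R, ((if v ∈ T then max (w v) 0 else 0) + w v * p v) := sum_le_sum fun v hv => by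
    have := h1 v hv
    rcases lt_or_ge (w v) 0 with a | a
    · rw [if_pos (Or.inr a), max_eq_right a.le]
      simp only [ite_self]
      nlinarith
    · rw [max_eq_left a]
      by_cases b : v ∈ T <;> simp [b, a.not_gt]
  simp only [sum_add_distrib] at h5
  linarith

/-- The edges `D` are put back.  `M` is a set of tracked vertices, `X` the trace on `M` of a
transversal of `R`; the edges of `D` missed by `X` are paid by prices that are affine in `X`. -/
theorem good_ext {R D : Hg} {M : Finset ℕ} {p q α : ℕ → ℝ} {β : ℕ → ℕ → ℝ} (hR : Good R q)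
    (h1 : ∀ v ∈ vs R, q v ≤ 1) (hM : M ⊆ vs R)
    (hX : ∀ T, Tr R T → Good (res D (T ∩ M)) (fun v => α v + ∑ i ∈ T ∩ M, β v i) ∧
      ∀ v ∈ vs D, 0 ≤ α v + ∑ i ∈ T ∩ M, β v i)
    (hr : ∀ v ∈ vs D, α v + ∑ i ∈ M, β v i * q i + (if v ∈ vs R then q v else 0) ≤ p v)
    (ho : ∀ v ∈ vs R, v ∉ vs D → q v ≤ p v) : Good (R ∪ D) p := fun w hw => by
  obtain ⟨T, h2, h3, h4⟩ := hR.signed h1
    fun i => w i + if i ∈ M then ∑ v ∈ vs D, w v * β v i else 0
  obtain ⟨h5, h6⟩ := hX T h3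
  obtain ⟨U, h7, h8⟩ := h5 w hw
  refine ⟨T ∪ U, (h3.union h7.of_res).mono ?_, ?_⟩
  · exact union_subset subset_union_left
      (union_subset (inter_subset_left.trans subset_union_left) subset_union_right)
  have h9 : ∑ v ∈ vs (res D (T ∩ M)), w v * (α v + ∑ i ∈ T ∩ M, β v i) ≤
      ∑ v ∈ vs D, w v * (α v + ∑ i ∈ T ∩ M, β v i) :=
    sum_le_sum_of_subset_of_nonneg (vs_mono (res_subset _ _)) fun v hv _ =>
      mul_nonneg (hw v) (h6 v hv)
  simp only [sum_add_distrib, add_mul, ite_mul, zero_mul] at h4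
  rw [← sum_filter, ← sum_filter, filter_mem_eq_inter, filter_mem_eq_inter,
    inter_eq_right.2 hM] at h4
  have e1 : ∑ v ∈ vs D, w v * (α v + ∑ i ∈ T ∩ M, β v i) =
      ∑ v ∈ vs D, w v * α v + ∑ i ∈ T ∩ M, ∑ v ∈ vs D, w v * β v i := by
    simp only [mul_add, sum_add_distrib, mul_sum]
    rw [sum_comm]
  have e2 : ∑ i ∈ M, (∑ v ∈ vs D, w v * β v i) * q i =
      ∑ v ∈ vs D, w v * ∑ i ∈ M, β v i * q i := by
    simp only [mul_sum, sum_mul]
    rw [sum_comm]
    exact sum_congr rfl fun v _ => sum_congr rfl fun i _ => by ring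
  have h10 : ∑ v ∈ vs (R ∪ D), ((if v ∈ vs R then w v * q v else 0) +
      if v ∈ vs D then w v * α v + w v * ∑ i ∈ M, β v i * q i else 0) ≤
      ∑ v ∈ vs (R ∪ D), w v * p v := sum_le_sum fun v hv => by
    by_cases a : v ∈ vs D
    · have := mul_le_mul_of_nonneg_left (hr v a) (hw v)
      rw [if_pos a]
      split_ifs at this ⊢ <;> nlinarith
    · have b : v ∈ vs R := (mem_union.1 (vs_union R D ▸ hv)).resolve_right a
      rw [if_pos b, if_neg a, add_zero]
      exact mul_le_mul_of_nonneg_left (ho v b a) (hw v)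
  rw [sum_add_distrib, ← sum_filter, ← sum_filter, filter_mem_eq_inter, filter_mem_eq_inter,
    inter_eq_right.2 (vs_mono subset_union_left), inter_eq_right.2 (vs_mono subset_union_right),
    sum_add_distrib] at h10
  have := sum_union_le hw T U
  linarith

/-- Vertices of `L` lie in the same edges; their prices can be redistributed. -/
theorem good_pool {R : Hg} {L : Finset ℕ} {p q : ℕ → ℝ} (hR : Good R q) (hL : L ⊆ vs R)
    (ht : ∀ u ∈ L, ∀ v ∈ L, ∀ e ∈ R, u ∈ e → v ∈ e) (h0 : ∀ v ∈ L, 0 ≤ p v)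
    (h1 : ∑ v ∈ L, q v ≤ ∑ v ∈ L, p v) (ho : ∀ v ∈ vs R, v ∉ L → q v ≤ p v) : Good R p :=
    fun w hw => by
  rcases L.eq_empty_or_nonempty with rfl | hn
  · exact (hR.mono fun v hv => ho v hv (by simp)) w hw
  obtain ⟨x, hx, hm⟩ := exists_min_image L w hn
  obtain ⟨T, h2, h3⟩ := hR (fun v => if v ∈ L then w x else w v) fun v => by
    split_ifs
    exacts [hw x, hw v]
  have h4 : ∑ v ∈ vs R, (if v ∈ L then w x else w v) * q v ≤ ∑ v ∈ vs R, w v * p v := by
    rw [← sum_sdiff hL, ← sum_sdiff hL]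
    refine add_le_add (sum_le_sum fun v hv => ?_) ?_
    · rw [mem_sdiff] at hv
      rw [if_neg hv.2]
      exact mul_le_mul_of_nonneg_left (ho v hv.1 hv.2) (hw v)
    · rw [sum_congr rfl fun v hv => by rw [if_pos hv], ← mul_sum]
      refine (mul_le_mul_of_nonneg_left h1 (hw x)).trans ?_
      rw [mul_sum]
      exact sum_le_sum fun v hv => mul_le_mul_of_nonneg_right (hm v hv) (h0 v hv)
  by_cases a : Disjoint T L
  · refine ⟨T, h2, le_trans (le_of_eq ?_) (h3.trans h4)⟩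
    exact sum_congr rfl fun v hv => by rw [if_neg (disjoint_left.1 a hv)]
  obtain ⟨y, hy⟩ := not_disjoint_iff_nonempty_inter.1 a
  rw [mem_inter] at hy
  refine ⟨insert x (T \ L), fun e he => ?_, le_trans ?_ (h3.trans h4)⟩
  · obtain ⟨z, hz⟩ := h2 e he
    rw [mem_inter] at hz
    by_cases b : z ∈ L
    · exact ⟨x, mem_inter.2 ⟨mem_insert_self _ _, ht z b x hx e he hz.2⟩⟩
    · exact ⟨z, mem_inter.2 ⟨mem_insert_of_mem (mem_sdiff.2 ⟨hz.1, b⟩), hz.2⟩⟩
  · rw [sum_insert (fun b => (mem_sdiff.1 b).2 hx), ← sum_sdiff (inter_subset_left : T ∩ L ⊆ T),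
      sdiff_inter_self_left, add_comm]
    refine add_le_add (le_of_eq (sum_congr rfl fun v hv => by rw [if_neg (mem_sdiff.1 hv).2])) ?_
    have := single_le_sum (f := fun v => if v ∈ L then w x else w v) (s := T ∩ L)
      (fun v hv => by rw [if_pos (mem_inter.1 hv).2]; exact hw x) (mem_inter.2 hy)
    simpa [hy.2] using this

end Pool.Agent.P.MP_b2082d_co.Gen
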