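import Pool.Agent.P.MP_b2082d_co.G.SmS0
import Pool.Agent.P.MP_b2082d_co.G.SmS1
import Pool.Agent.P.MP_b2082d_co.G.SmS2
import Pool.Agent.P.MP_b2082d_co.G.SmS3

namespace Pool.Agent.P.MP_b2082d_co.Gen.Sm

theorem s5 : All (stB z6) nx5 :=
  all_cons s5_0 <| all_cons s5_1 <| all_cons s5_2 <| all_cons s5_3 <|
  all_cons s5_4 <| all_cons s5_5 <| all_cons s5_6 <| all_cons s5_7 <|
  all_cons s5_8 <| all_cons s5_9 <| all_cons s5_10 <| all_cons s5_11 <|
  all_cons s5_12 <| all_cons s5_13 <| all_cons s5_14 <| all_cons s5_15 <|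
  all_cons s5_16 <| all_cons s5_17 <| all_cons s5_18 <| all_cons s5_19 <|
  all_cons s5_20 <| all_cons s5_21 <| all_cons s5_22 <| all_cons s5_23 <|
  all_cons s5_24 <| all_cons s5_25 <| all_cons s5_26 <| all_cons s5_27 <|
  all_cons s5_28 <| all_cons s5_29 <| all_cons s5_30 <| all_cons s5_31 <|
  all_cons s5_32 <| all_cons s5_33 <| all_cons s5_34 <| all_cons s5_35 <|
  all_cons s5_36 <| all_cons s5_37 <| all_cons s5_38 <| all_cons s5_39 <|
  all_cons s5_40 <| all_cons s5_41 <| all_cons s5_42 <| all_nil _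

end Pool.Agent.P.MP_b2082d_co.Gen.Sm
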