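import Pool.Agent.P.MP_b2082d_co.G.Struct
import Pool.Agent.P.MP_b2082d_co.G.T0Defs

/-! The first induction, from the step and the small systems. -/

namespace Pool.Agent.P.MP_b2082d_co.Gen
open Finset

/-- the side conditions on the numbers. -/
structure Num.Ok (N : Num) (inc lo hi k0 k : ℕ) : Prop where
  a1 : N.p1 ≤ 250000
  a2 : N.p2 ≤ 250000
  a3 : N.p3 ≤ 250000
  aT : N.pT ≤ N.p3
  b1 : N.g2 ≤ N.g23
  b2 : N.g2 ≤ lo
  b3 : lo ≤ N.g33 ∧ lo ≤ N.g356 ∧ lo ≤ N.g37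
  b4 : N.g33 ≤ N.g3 ∧ N.g33 ≤ N.g35
  b5 : N.g3 ≤ hi ∧ N.g35 ≤ hi ∧ N.g356 ≤ hi ∧ N.g37 ≤ hi
  b6 : hi ≤ N.g4
  i1 : 250000 ≤ inc + N.pT
  i2 : 250000 + N.p3 ≤ inc + 2 * N.p2
  i3 : 250000 + 2 * N.p2 ≤ inc + 3 * N.p1
  p1 : 250000 + 3 * N.p1 ≤ N.g2
  p2 : inc ≤ N.g2
  p3 : N.g23 + 2 * N.p3 ≤ lo + 2 * N.pT
  kk : k0 ≤ k
  k1 : inc ≤ k0
  k2 : N.g2 + N.g23 + 3 * N.p3 ≤ lo + k + 3 * N.pT
  k3 : hi + N.g23 + 2 * N.p3 ≤ N.g4 + k + 2 * N.pT
  k4 : 2 * N.g23 + N.p3 ≤ lo + k0 + N.pT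
  k5 : 2 * k ≤ 500000 + 2 * N.p2
  k6 : k0 + 2 * N.g23 + 3 * N.p3 ≤ 500000 + lo + 2 * N.p2 + 3 * N.pT
  k7 : hi + N.g23 + N.p3 ≤ N.g4 + k0 + N.pT

namespace St
variable {N : Num} {inc lo hi k0 k : ℕ} {R Q : Hg}

noncomputable def nu (N : Num) (inc lo hi k0 k : ℕ) : Nu :=
  ⟨(N.p3 - N.pT) / 1000000, (250000 - N.p3) / 1000000, 2 * ((250000 - N.p2) / 1000000),
    3 * ((250000 - N.p1) / 1000000), inc / 1000000, N.g2 / 1000000, N.g23 / 1000000,
    N.g2 / 1000000, lo / 1000000, hi / 1000000, N.g4 / 1000000, k0 / 1000000, k / 1000000⟩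

theorem nu_ok (h : N.Ok inc lo hi k0 k) : (nu N inc lo hi k0 k).Ok := by
  obtain ⟨-, -, a3, aT, b1, -, -, -, -, b6, i1, i2, i3, p1, p2, p3, kk, k1, k2, k3, k4, k5, k6,
    k7⟩ := h
  rify at a3 aT b1 b6 i1 i2 i3 p1 p2 p3 kk k1 k2 k3 k4 k5 k6 k7
  constructor <;> simp only [nu] <;> linarith

theorem sc {a b : ℕ} (h : a ≤ b) : (a : ℝ) / 1000000 ≤ b / 1000000 := by
  have : (a : ℝ) ≤ b := Nat.cast_le.2 h
  linarith

theorem lam_eq {e : Finset ℕ} (he : e ∈ R) :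
    Lam (P0 N) R e = (lvs R e).card * ((250000 - psi N R e) / 1000000) := by
  rw [Lam, ← nsmul_eq_mul, ← sum_const]
  refine sum_congr rfl fun v hv => ?_
  rw [P0, if_pos (mem_lvs.1 hv).2, star_one (mem_lvs.1 hv).2 he (mem_lvs.1 hv).1]
  simp [vs]

theorem card_vs_insert {b : Finset ℕ} (S : Hg) (h : b.card = 4) :
    (vs (insert b S)).card + (b ∩ vs S).card = (vs S).card + 4 := by
  rw [vs_insert, card_union_add_card_inter, h, add_comm]

theorem exch (h : N.Ok inc lo hi k0 k) {v t : ℕ} {b o : Finset ℕ} {S : Hg} {p q : Prop}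
    (hR : C0 (insert b S)) (ho : o.card = 4) (hv : ∀ e ∈ S, v ∈ e) (vb : v ∈ b) (vo : v ∈ o)
    (h1 : b ∉ S) (h2 : o ∉ S) (h3 : S.Nonempty) (hq : q)
    (h4 : ∀ e ∈ S, b ∩ e ⊆ {v, t} ∧ o ∩ e ⊆ {v, t}) (h5 : t ∈ o) (h6 : t ≠ v)
    (h7 : t ∈ b ∨ ∃ e ∈ S, t ∉ e) : gS N v (insert o S) q ≤ gS N v (insert b S) p := by
  have c1 := card_vs_insert S (hR.cls.unif b (mem_insert_self _ _))
  have c2 := card_vs_insert S ho
  obtain ⟨f, hf⟩ := h3
  have vS : v ∈ vs S := mem_vs.2 ⟨f, hf, hv f hf⟩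
  have s1 : ∀ u ∈ vs S, (u ∈ b → u = v ∨ u = t) ∧ (u ∈ o → u = v ∨ u = t) := fun u hu => by
    obtain ⟨e, e1, e2⟩ := mem_vs.1 hu
    exact ⟨fun a => by simpa using (h4 e e1).1 (mem_inter.2 ⟨a, e2⟩),
      fun a => by simpa using (h4 e e1).2 (mem_inter.2 ⟨a, e2⟩)⟩
  rw [gS, gS, card_insert_of_notMem h1, card_insert_of_notMem h2, if_pos hq]
  by_cases a : t ∈ b ∨ t ∉ vs S
  · have d : b ∩ vs S = o ∩ vs S := by
      ext u
      simp only [mem_inter]
      grind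
    have d1 : (vs (insert o S)).card = (vs (insert b S)).card := by
      rw [d] at c1
      omega
    have d2 : (∃ u, u ≠ v ∧ ∀ e ∈ insert o S, u ∈ e) ↔ ∃ u, u ≠ v ∧ ∀ e ∈ insert b S, u ∈ e :=
      exists_congr fun u => and_congr_right fun _ => by
        simp only [forall_mem_insert]
        refine and_congr_left fun x => ?_
        have y : u ∈ vs S := mem_vs.2 ⟨f, hf, x f hf⟩
        have := Finset.ext_iff.1 d u
        simpa [y] using this.symm
    rw [d1]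
    have := h.b4.2
    by_cases x : ∃ u, u ≠ v ∧ ∀ e ∈ insert b S, u ∈ e
    · rw [if_pos x, if_pos (d2.2 x)]
    · rw [if_neg x, if_neg (mt d2.1 x)]
      split_ifs <;> omega
  rw [not_or, not_not] at a
  obtain ⟨g, g1, g2⟩ := h7.resolve_left a.1
  obtain ⟨e, e1, e2⟩ := mem_vs.1 a.2
  have ne : e ≠ g := fun x => g2 (x ▸ e2)
  have d0 : 1 < S.card := one_lt_card.2 ⟨e, e1, g, g1, ne⟩
  rw [if_neg (by omega), if_neg (c := S.card + 1 = 2) (by omega)]
  by_cases c : S.card + 1 = 3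
  swap
  · rw [if_neg c, if_neg c]
  rw [if_pos c, if_pos c]
  have d1 : b ∩ vs S = {v} := by
    ext u
    simp only [mem_inter, mem_singleton]
    grind
  have d2 : o ∩ vs S = {v, t} := by
    ext u
    simp only [mem_inter, mem_insert, mem_singleton]
    grind
  have d3 : S = {e, g} := (eq_of_subset_of_card_le (insert_subset e1 (singleton_subset_iff.2 g1))
    (by rw [card_pair ne]; omega)).symm
  have d4 := card_vs_insert {g} (hR.cls.unif e (mem_insert_of_mem e1))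
  have d5 : vs {g} = g := by simp [vs]
  have d6 := hR.co2 e (mem_insert_of_mem e1) g (mem_insert_of_mem g1) ne
  have d7 : 0 < (e ∩ g).card := card_pos.2 ⟨v, mem_inter.2 ⟨hv e e1, hv g g1⟩⟩
  rw [← d3, d5, hR.cls.unif g (mem_insert_of_mem g1)] at d4
  rw [d1, card_singleton] at c1
  rw [d2, card_pair h6.symm] at c2
  have d8 : ¬ ∃ u, u ≠ v ∧ ∀ e ∈ insert o S, u ∈ e := fun ⟨u, u1, u2⟩ => by
    have x := u2 g (mem_insert_of_mem g1)
    have y := ((s1 u (mem_vs.2 ⟨g, g1, x⟩)).2 (u2 o (mem_insert_self _ _))).resolve_left u1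
    exact g2 (y ▸ x)
  rw [if_neg d8]
  have := h.b4.1
  split_ifs <;> omega

theorem ax0 (h : N.Ok inc lo hi k0 k) : Ax0 (P0 N) (nu N inc lo hi k0 k) := by
  have := h.a1
  have := h.a2
  have := h.a3
  have aT := h.aT
  have := h.b1
  have := h.b2
  have := h.b3
  have := h.b4
  have := h.b5
  have := h.b6
  have s1 : ∀ R v, (star R v).card ≠ 1 → P0 N R v =
      gS N v (star R v) (∃ e ∈ star R v, 2 ≤ (lvs R e).card) / 1000000 := fun R v a => if_neg a
  refine ⟨fun R v _ a => ?_, fun R e _ he a => ?_, fun R e _ he a => ?_, fun R e _ he a => ?_,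
    fun R e _ he a => ?_, fun R Q e _ _ h1 h2 a b c d => ?_, fun R v _ a => ?_, fun R v _ a => ?_,
    fun R v _ a => ?_, fun R v _ a => ?_, fun R v e f hR a b => ?_, fun R v _ a => ?_,
    fun R Q v _ _ a b c => ?_, fun R Q v t b o S hR hQ c1 c2 c3 c4 c5 c6 _ c8 c9 c10 c11 => ?_⟩
  · have b : psi N R (vs (star R v)) ≤ 250000 := by
      unfold psi
      split_ifs <;> omega
    have : (psi N R (vs (star R v)) : ℝ) ≤ 250000 := by exact_mod_cast b
    rw [P0, if_pos a]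
    linarith
  · have : (N.pT : ℝ) ≤ N.p3 := Nat.cast_le.2 aT
    rw [lam_eq he, psi, if_pos a, a]
    simp only [nu]
    split_ifs <;> constructor <;> push_cast <;> linarith
  · rw [lam_eq he, psi, a]
    simp [nu]
  · rw [lam_eq he, psi, a]
    simp [nu]
  · rw [lam_eq he, psi, a]
    norm_num
  · have : (N.pT : ℝ) ≤ N.p3 := Nat.cast_le.2 aT
    rw [lam_eq h1, lam_eq h2, psi, psi, b, if_pos a, if_pos a, a]
    by_cases f : Tw Q e ∧ ∀ v ∈ e, (star Q v).card ≤ 2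
    · rw [if_pos f, if_pos ⟨d f.1, fun v hv => by
        have := c v hv
        have := f.2 v hv
        omega⟩]
    · rw [if_neg f]
      split_ifs <;> push_cast <;> linarith
  · rw [s1 R v (by omega)]
    refine sc ?_
    unfold gS
    split_ifs <;> omega
  · rw [s1 R v (by omega)]
    refine sc ?_
    unfold gS
    split_ifs <;> omega
  · rw [s1 R v (by omega), gS, a]
    simp [nu]
  · rw [s1 R v (by omega)]
    refine sc ?_
    unfold gS
    split_ifs <;> omega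
  · have c : ∀ x ∈ ({e, f} : Hg), x.card = 4 := fun x hx => hR.cls.unif x (mem_star.1 (a ▸ hx)).1
    have c1 := c e (by simp)
    have c2 := c f (by simp)
    have d : e ≠ f := fun d => by
      rw [← d, inter_self] at b
      simp [b] at c1
    have g := card_vs_insert {f} c1
    rw [show vs {f} = f by simp [vs], b, c2, card_singleton] at g
    rw [s1 R v (by rw [a, card_pair d]; omega), a, gS, if_pos (card_pair d), if_pos (by omega)]
    exact le_rfl
  · rw [s1 R v (by omega)]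
    refine sc ?_
    unfold gS
    split_ifs <;> omega
  · rw [s1 R v (by omega), s1 Q v (by rw [b]; omega), b]
    refine sc ?_
    have d : (∃ e ∈ star R v, 2 ≤ (lvs R e).card) → ∃ e ∈ star R v, 2 ≤ (lvs Q e).card :=
      fun ⟨e, x, y⟩ => ⟨e, x, y.trans (card_le_card (c e x))⟩
    unfold gS
    by_cases x : ∃ e ∈ star R v, 2 ≤ (lvs R e).card
    · rw [if_pos x, if_pos (d x)]
    · rw [if_neg x]
      split_ifs <;> omega
  · have d0 := card_pos.2 c5
    have d1 : ∀ e ∈ insert b S, e ∈ R ∧ v ∈ e := fun e he => mem_star.1 (c1 ▸ he)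
    have d2 := mem_star.1 (c2 ▸ mem_insert_self o S)
    rw [s1 R v (by rw [c1, card_insert_of_notMem c3]; omega),
      s1 Q v (by rw [c2, card_insert_of_notMem c4]; omega), c1, c2]
    exact sc (exch h (c0_sub hR fun e he => (d1 e he).1) (hQ.cls.unif o d2.1)
      (fun e he => (d1 e (mem_insert_of_mem he)).2) (d1 b (mem_insert_self _ _)).2 d2.2 c3 c4 c5
      ⟨o, mem_insert_self _ _, c6.ge⟩ c8 c9 c10 c11)

end St

theorem Irr.pend {R : Hg} (hR : C0 R) (h : Irr R) : ∀ e ∈ R, (lvs R e).card ≤ 2 := fun e he => by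
  have a := h.2 {e} (singleton_subset_iff.2 he) (singleton_ne_empty e) fun b => by
    have := h.1
    rw [← b, card_singleton] at this
    omega
  have b : cutv R {e} ⊆ e \ lvs R e := fun v hv => by
    obtain ⟨x, y⟩ := mem_inter.1 hv
    obtain ⟨f, x1, x2⟩ := mem_vs.1 x
    obtain ⟨g, y1, y2⟩ := mem_vs.1 y
    rw [mem_singleton.1 x1] at x2
    rw [mem_sdiff, mem_singleton] at y1
    exact mem_sdiff.2 ⟨x2, fun z => y1.2 (deg_one (mem_lvs.1 z).2 y1.1 he y2 x2)⟩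
  have c := card_le_card b
  have d := card_sdiff_add_card_eq_card (show lvs R e ⊆ e from filter_subset _ _)
  rw [hR.cls.unif e he] at d
  omega

/-- the systems in which a set of three, five or seven edges has fewer than three cut vertices. -/
def Spec (R : Hg) : Prop := R.card = 3 ∨ R.card = 5 ∨ R.card = 7 ∨
  ((R.card = 4 ∨ R.card = 6 ∨ R.card = 8) ∧ ∃ f ∈ R, (lvs R f).card = 2)

theorem Irr.cut3 {R : Hg} (hR : C0 R) (h : Irr R) (hs : ¬ Spec R) : Cut3 R := by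
  refine ⟨h.pend hR, fun S hS a => by_contra fun b => hs ?_⟩
  by_cases c : S = R
  · unfold Spec
    rw [← c]
    tauto
  have d := (h.2 S hS (card_pos.1 (by omega)).ne_empty c).resolve_left b
  have e := d.2.resolve_left (by omega)
  have g := card_sdiff_add_card_eq_card hS
  obtain ⟨f, hf⟩ := card_eq_one.1 e
  obtain ⟨f1, f2⟩ := mem_sdiff.1 (hf ▸ mem_singleton_self f)
  refine Or.inr (Or.inr (Or.inr ⟨by omega, f, f1, ?_⟩))
  have k : f \ cutv R S ⊆ lvs R f := fun v hv => by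
    obtain ⟨x, y⟩ := mem_sdiff.1 hv
    refine mem_lvs.2 ⟨x, card_eq_one.2 ⟨f, eq_singleton_iff_unique_mem.2
      ⟨mem_star.2 ⟨f1, x⟩, fun z hz => by_contra fun u => y ?_⟩⟩⟩
    obtain ⟨z1, z2⟩ := mem_star.1 hz
    refine mem_inter.2 ⟨mem_vs.2 ⟨z, by_contra fun w => u ?_, z2⟩,
      mem_vs.2 ⟨f, mem_sdiff.2 ⟨f1, f2⟩, x⟩⟩
    exact mem_singleton.1 (hf ▸ mem_sdiff.2 ⟨z1, w⟩)
  have k1 := card_le_card k
  have k2 := le_card_sdiff (cutv R S) f
  have k3 := h.pend hR f f1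
  rw [hR.cls.unif f f1] at k2
  omega

/-- the statement for the special systems. -/
def S_spec (N : Num) : Prop := ∀ R, C0 R → Irr R → Spec R →
  (∀ Q, C0 Q → Q.card < R.card → Good Q (P0 N Q)) → Good R (P0 N R)

theorem t0 {N : Num} {inc lo hi k0 k : ℕ} (h : N.Ok inc lo hi k0 k) (h1 : S_step N)
    (h2 : S_spec N) (R : Hg) (hR : C0 R) : Good R (P0 N R) := by
  induction hn : R.card using Nat.strong_induction_on generalizing R with
  | _ n ih =>
    have ih' : ∀ Q, C0 Q → Q.card < R.card → Good Q (P0 N Q) := fun Q a b =>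
      ih _ (hn ▸ b) Q a rfl
    refine (good_or_irr (St.nu_ok h) (St.ax0 h) hR ih').elim id fun a => ?_
    by_cases b : Spec R
    · exact h2 R hR a b ih'
    refine h1 R hR (a.cut3 hR b) fun x hx => ih' _ (St.c0_sub hR (res_subset _ _)) ?_
    obtain ⟨e, he⟩ := card_pos.1 (by omega : 0 < (star R x).card)
    refine card_lt_card ⟨res_subset _ _, fun c => ?_⟩
    exact disjoint_singleton_left.1 (mem_res.1 (c (mem_star.1 he).1)).2 (mem_star.1 he).2

theorem Irr.two {R : Hg} (h : Irr R) {S : Hg} (hS : S ⊆ R) (a : S ≠ ∅) (b : S ≠ R) :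
    2 ≤ (vs S ∩ vs (R \ S)).card :=
  (h.2 S hS a b).elim (fun c => (by norm_num : 2 ≤ 3).trans c) fun c => c.1.ge

theorem Irr.three {R : Hg} (h : Irr R) {S : Hg} (hS : S ⊆ R) (a : 2 ≤ S.card)
    (b : S.card + 2 ≤ R.card) : 3 ≤ (vs S ∩ vs (R \ S)).card := by
  have g := card_sdiff_add_card_eq_card hS
  refine (h.2 S hS (card_pos.1 (by omega)).ne_empty fun c => ?_).elim id fun c => by omega
  rw [c] at b
  omega

theorem res_lt {R : Hg} {x : ℕ} (hx : 1 ≤ (star R x).card) : (res R {x}).card < R.card := by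
  obtain ⟨e, he⟩ := card_pos.1 hx
  refine card_lt_card ⟨res_subset _ _, fun c => ?_⟩
  exact disjoint_singleton_left.1 (mem_res.1 (c (mem_star.1 he).1)).2 (mem_star.1 he).2

end Pool.Agent.P.MP_b2082d_co.Gen
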