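import Pool.Agent.P.MP_b2082d_co.G.SmE
import Pool.Agent.P.MP_b2082d_co.G.SmF
import Pool.Agent.P.MP_b2082d_co.G.SmT
import Pool.Agent.P.MP_b2082d_co.G.T0Ind

/-! The special systems with at most six edges. -/

namespace Pool.Agent.P.MP_b2082d_co.Gen
open Finset

/-- the bounds `z` are below the numbers `N`. -/
structure Zs.Le (z : Zs) (N : Num) : Prop where
  a1 : N.p1 ≤ 250000
  a2 : N.p2 ≤ 250000
  aT : N.pT ≤ N.p3
  l1 : z.l1 + N.p3 ≤ 250000
  lT : z.lT + N.pT ≤ 250000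
  L2 : z.L2 + 2 * N.p2 ≤ 500000
  b2 : z.a2 ≤ N.g2 ∧ z.a2 ≤ N.g23
  b3 : z.a3 ≤ N.g3 ∧ z.a3 ≤ N.g33 ∧ z.a3 ≤ N.g35 ∧ z.a3 ≤ N.g356 ∧ z.a3 ≤ N.g37
  b4 : z.a4 ≤ N.g4
  t2 : z.t2 ≤ N.g23
  t3 : z.t3 ≤ N.g37 ∧ z.t3 ≤ N.g356

theorem card_vs_twin {S : Hg} {u v : ℕ} (h : u ≠ v) (h4 : ∀ e ∈ S, e.card = 4)
    (h2 : ∀ e ∈ S, u ∈ e ∧ v ∈ e) : (vs S).card ≤ 2 + S.card * 2 := by
  have a : vs S ⊆ {u, v} ∪ S.biUnion fun e => e \ {u, v} := fun x hx => by
    obtain ⟨e, b, c⟩ := mem_vs.1 hx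
    by_cases d : x ∈ ({u, v} : Finset ℕ)
    exacts [mem_union_left _ d, mem_union_right _ (mem_biUnion.2 ⟨e, b, mem_sdiff.2 ⟨c, d⟩⟩)]
  refine (card_le_card a).trans ((card_union_le _ _).trans (add_le_add (card_pair h).le
    (card_biUnion_le_card_mul _ _ _ fun e he => ?_)))
  rw [card_sdiff_of_subset (insert_subset (h2 e he).1 (singleton_subset_iff.2 (h2 e he).2)),
    h4 e he, card_pair h]

theorem Zs.Le.ax1 {z : Zs} {N : Num} (h : z.Le N) : Ax1 (P0 N) z := by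
  obtain ⟨a1, a2, aT, l1, lT, L2, b2, b3, b4, t2, t3⟩ := h
  have s1 : ∀ R v (n : ℕ), (star R v).card ≠ 1 →
      n ≤ gS N v (star R v) (∃ e ∈ star R v, 2 ≤ (lvs R e).card) → (n : ℝ) / 10 ^ 6 ≤ P0 N R v :=
    fun R v n a b => by
      rw [P0, if_neg a, show (10 : ℝ) ^ 6 = 1000000 by norm_num]
      exact St.sc b
  have s2 : ∀ R u v, C0 R → u ≠ v → star R u = star R v → (∀ e ∈ star R v, u ∈ e) ∧
      (vs (star R v)).card ≤ 2 + (star R v).card * 2 := fun R u v hR a b =>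
    ⟨fun e he => (mem_star.1 (b ▸ he)).2, card_vs_twin a
      (fun e he => hR.cls.unif e (mem_star.1 he).1)
      fun e he => ⟨(mem_star.1 (b ▸ he)).2, (mem_star.1 he).2⟩⟩
  refine ⟨fun R v _ a => ?_, fun R e _ he a => ?_, fun R e _ he a b c => ?_, fun R e _ he a => ?_,
    fun R v _ a => s1 R v _ (by omega) ?_, fun R v _ a => s1 R v _ (by omega) ?_,
    fun R v _ a => s1 R v _ (by omega) ?_, fun R u v hR a b c => s1 R v _ (by omega) ?_,
    fun R u v hR a b c => s1 R v _ (by omega) ?_⟩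
  · have b : psi N R (vs (star R v)) ≤ 250000 := by
      unfold psi
      split_ifs <;> omega
    have : (psi N R (vs (star R v)) : ℝ) ≤ 250000 := by exact_mod_cast b
    rw [P0, if_pos a]
    linarith
  · rify at aT l1
    rw [St.lam_eq he, psi, if_pos a, a]
    split_ifs <;> push_cast <;> linarith
  · rify at lT
    rw [St.lam_eq he, psi, if_pos a, a, if_pos ⟨b, c⟩]
    push_cast
    linarith
  · rify at L2
    rw [St.lam_eq he, psi, a, if_neg (by norm_num), if_pos rfl]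
    push_cast
    linarith
  · unfold gS
    split_ifs <;> omega
  · unfold gS
    split_ifs <;> omega
  · unfold gS
    split_ifs <;> omega
  · have := (s2 R u v hR a b).2
    unfold gS
    split_ifs <;> omega
  · obtain ⟨d, f⟩ := s2 R u v hR a b
    unfold gS
    rw [if_pos (c := ∃ u, u ≠ v ∧ ∀ e ∈ star R v, u ∈ e) ⟨u, a, d⟩]
    split_ifs <;> omega

/-- the special systems with at most six edges. -/
theorem small6 {N : Num} (h5 : Sm.z5.Le N) (h6 : Sm.z6.Le N) {R : Hg} (hR : C0 R) (hI : Irr R)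
    (hs : Spec R) (hc : R.card ≤ 6) : Good R (P0 N R) := by
  rcases hs with a | a | a | ⟨a | a | a, f, hf, b⟩
  · exact Sm.cov_fin Sm.cov3 Sm.f3 h5.ax1 hR hI a
  · exact Sm.cov_fin Sm.cov5 Sm.f5 h5.ax1 hR hI a
  · omega
  · exact Sm.cov_fin Sm.cov4 Sm.f4 h5.ax1 hR hI a
  · exact Sm.cov_six Sm.cov5 Sm.s5 h6.ax1 hR hI a hf b
  · omega

theorem small6_num1 {R : Hg} (hR : C0 R) (hI : Irr R) (hs : Spec R) (hc : R.card ≤ 6) :
    Good R (P0 ⟨16680, 35930, 37970, 22750, 300050, 311370, 387830, 384570, 389200, 392960,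
      389500, 463740⟩ R) :=
  small6 (by constructor <;> decide) (by constructor <;> decide) hR hI hs hc

end Pool.Agent.P.MP_b2082d_co.Gen
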