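import Pool.Agent.P.MP_b2082d_co.G.St
import Pool.Agent.P.MP_b2082d_co.G.Tab
import Pool.Agent.P.MP_b2082d_co.G.Ctx
import Pool.Agent.P.MP_b2082d_co.G.Small
import Pool.Agent.P.MP_b2082d_co.G.Sm4

/-! Everything except the rows of the first induction. -/

namespace Pool.Agent.P.MP_b2082d_co.Gen

theorem s_main_of_core (h : CoreC 2 num) : S_Main :=
  s_main_of_p0 nums_ok (by decide) (by decide) tabB tab05 tab1 Ad.stage_all
    (t0_core2 num_ok h Sm.small4 prof7_num1 fun _ a b c d => small6_num1 a b c d)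

end Pool.Agent.P.MP_b2082d_co.Gen
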