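import Pool.Agent.P.MP_b2082d_co.G.T0Spec

/-! The budget of a vertex, in terms of its neighbourhood. -/

namespace Pool.Agent.P.MP_b2082d_co.Gen
open Finset

variable {N : Num} {R : Hg} {e : Finset ℕ} {v x : ℕ}

theorem iota_nonneg (h : 2 ≤ dg R v) : 0 ≤ iota N R e v := by
  refine mul_nonneg (by norm_num) (sum_nonneg fun x _ => ?_)
  rw [ps, ps, if_neg (by omega : dg R v ≠ 1), sub_zero]
  split_ifs
  exacts [Nat.cast_nonneg _, le_rfl]

namespace Bu

theorem star_res (R : Hg) (x v : ℕ) : star (res R {x}) v = (star R v).filter fun e => x ∉ e := by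
  ext e
  simp only [mem_star, mem_res, mem_filter, disjoint_singleton_left]
  tauto

theorem star_far (h : ∀ f ∈ star R v, x ∉ f) : star (res R {x}) v = star R v := by
  rw [star_res, filter_true_of_mem h]

theorem vs_iff : v ∈ vs R ↔ dg R v ≠ 0 := by
  refine ⟨fun a => by have := star_pos a; unfold dg; omega, fun a => ?_⟩
  obtain ⟨e, he⟩ := card_ne_zero.1 a
  exact mem_vs.2 ⟨e, mem_star.1 he⟩

theorem P0_leaf (he : e ∈ R) (hv : v ∈ e) (h : dg R v = 1) :
    P0 N R v = (250000 - psi N R e) / 1000000 := by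
  rw [P0, if_pos h, star_one h he hv]
  simp [vs]

/-- the price after a move. -/
theorem after (N : Num) (R : Hg) (v x : ℕ) :
    (if v ∈ vs (res R {x}) then P0 N (res R {x}) v else 0) = ((post N R v x - ∑ e ∈
      (star R v).filter fun e => x ∉ e, ps N (res R {x}) e v : ℤ) : ℝ) / 1000000 := by
  rw [← star_res, post]
  by_cases a : dg (res R {x}) v = 1
  · obtain ⟨f, hf⟩ := card_eq_one.1 a
    obtain ⟨f1, f2⟩ := mem_star.1 (hf ▸ mem_singleton_self f)
    rw [if_pos (vs_iff.2 (by omega)), if_neg (by omega), if_pos a, P0_leaf f1 f2 a, hf,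
      sum_singleton, ps, if_pos a]
    push_cast
    rfl
  rw [sum_eq_zero fun f _ => show ps N (res R {x}) f v = 0 from if_neg a, sub_zero, if_neg a]
  by_cases b : dg (res R {x}) v = 0
  · rw [if_neg (fun c => vs_iff.1 c b), if_pos b]
    simp
  · rw [if_pos (vs_iff.2 b), if_neg b, P0, if_neg a]
    rfl

theorem lvs_res (he : x ∉ e) (h : e ∈ R) : lvs R e ⊆ lvs (res R {x}) e := fun u hu => by
  obtain ⟨a, b⟩ := mem_lvs.1 hu
  refine mem_lvs.2 ⟨a, ?_⟩
  rw [star_far fun f hf => ?_, b]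
  rwa [deg_one b (mem_star.1 hf).1 h (mem_star.1 hf).2 a]

theorem post_far (h : N.g33 ≤ N.g35) (h2 : 2 ≤ dg R v) (hx : x ∉ vs (star R v)) :
    post N R v x ≤ gp N R v := by
  have a : ∀ f ∈ star R v, x ∉ f := fun f hf b => hx (mem_vs.2 ⟨f, hf, b⟩)
  have b := star_far a
  rw [post, dg, b, if_neg (by unfold dg at h2; omega), if_neg (by unfold dg at h2; omega), gp, gp, b]
  unfold gS
  by_cases c : ∃ e ∈ star R v, 2 ≤ (lvs R e).card
  · obtain ⟨f, f1, f2⟩ := id c
    have d : ∃ e ∈ star R v, 2 ≤ (lvs (res R {x}) e).card :=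
      ⟨f, f1, f2.trans (card_le_card (lvs_res (a f f1) (mem_star.1 f1).1))⟩
    rw [if_pos c, if_pos d]
  · rw [if_neg c]
    split_ifs <;> omega

theorem psi_congr {Q : Hg} (h : ∀ a ∈ e, star Q a = star R a) : psi N Q e = psi N R e := by
  have a : lvs Q e = lvs R e := filter_congr fun a ha => by rw [h a ha]
  have b : Tw Q e ↔ Tw R e := exists_congr fun a => and_congr_right fun ha =>
    exists_congr fun b => and_congr_right fun hb => by rw [h a ha, h b hb]
  have c : (∀ v ∈ e, (star Q v).card ≤ 2) ↔ ∀ v ∈ e, (star R v).card ≤ 2 :=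
    forall₂_congr fun a ha => by rw [h a ha]
  have f := and_congr b c
  unfold psi
  rw [a]
  by_cases d : Tw R e ∧ ∀ v ∈ e, (star R v).card ≤ 2
  · rw [if_pos d, if_pos (f.2 d)]
  · rw [if_neg d, if_neg (mt f.1 d)]

theorem rate_sum (R : Hg) (A : Finset ℕ) (g : ℕ → ℝ) :
    ∑ x ∈ A, rate R x * g x = 3 / 10 * ∑ x ∈ A.filter fun x => 3 ≤ dg R x, g x := by
  rw [sum_filter, mul_sum]
  refine sum_congr rfl fun x _ => ?_
  unfold rate
  split_ifs <;> simp

end Bu

theorem s_bud (h : N.g33 ≤ N.g35) : S_bud N := fun R _ v h2 => by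
  have a : P0 N R v = gp N R v / 1000000 := if_neg (by unfold dg at h2; omega)
  have b : ∑ e ∈ star R v, iota N R e v = 3 * ∑ x ∈ ((vs R).erase v).filter fun x => 3 ≤ dg R x,
      ∑ e ∈ (star R v).filter fun e => x ∉ e, ps N (res R {x}) e v := by
    unfold iota
    rw [← mul_sum, sum_comm' (t' := ((vs R).erase v).filter fun x => 3 ≤ dg R x)
      (s' := fun x => (star R v).filter fun e => x ∉ e) fun e x => ?_]
    · refine congrArg _ (sum_congr rfl fun x _ => sum_congr rfl fun e _ => ?_)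
      rw [ps.eq_1 N R, if_neg (by omega : dg R v ≠ 1), sub_zero]
    · simp only [mv, mem_filter, mem_erase]
      exact ⟨fun c => ⟨⟨c.1, c.2.2.1⟩, ⟨fun d => c.2.2.1 (d ▸ (mem_star.1 c.1).2), c.2.1⟩, c.2.2.2⟩,
        fun c => ⟨c.1.1, c.2.1.2, c.1.2, c.2.2⟩⟩
  have c : ∑ x ∈ ((vs (star R v)).erase v).filter fun x => 3 ≤ dg R x,
      ((gp N R v : ℤ) - post N R v x) ≤ ∑ x ∈ ((vs R).erase v).filter fun x => 3 ≤ dg R x,
      ((gp N R v : ℤ) - post N R v x) := by
    refine sum_le_sum_of_subset_of_nonneg (filter_subset_filter _ (erase_subset_erase _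
      (vs_mono (filter_subset _ _)))) fun x x1 x2 => sub_nonneg.2 (Nat.cast_le.2 ?_)
    rw [mem_filter, mem_erase] at x1 x2
    exact Bu.post_far h h2 fun d => x2 ⟨⟨x1.1.1, d⟩, x1.2⟩
  have d : ((∑ x ∈ ((vs (star R v)).erase v).filter fun x => 3 ≤ dg R x,
      ((gp N R v : ℤ) - post N R v x) : ℤ) : ℝ) ≤ _ := Int.cast_le.2 c
  rw [bud, Bu.rate_sum, b, G0, a]
  simp only [Bu.after, ← sub_div, ← sum_div]
  push_cast at d ⊢
  simp only [sum_sub_distrib] at d ⊢
  unfold rate
  split_ifs <;> linarith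

theorem s_leaf (h1 : N.p1 ≤ 47500) (h2 : N.p2 ≤ 47500) (h3 : N.p3 ≤ 47500) (hT : N.pT ≤ 47500) :
    S_leaf N := fun R hR e he _ v hv => by
  obtain ⟨v1, v2⟩ := mem_lvs.1 hv
  have s1 : ∀ x ∈ mv R e, dg (res R {x}) v = 1 ∧ e ∈ res R {x} := fun x hx => by
    have a := (mem_filter.1 hx).2.1
    refine ⟨?_, mem_res.2 ⟨he, disjoint_singleton_left.2 a⟩⟩
    rw [dg, Bu.star_far fun f hf => ?_, v2]
    rwa [deg_one v2 (mem_star.1 hf).1 he (mem_star.1 hf).2 v1]
  have s2 : iota N R e v = 3 * ∑ x ∈ mv R e, ((psi N (res R {x}) e : ℤ) - psi N R e) :=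
    congrArg _ (sum_congr rfl fun x hx => by rw [ps, ps, if_pos (s1 x hx).1, if_pos v2])
  constructor
  · have p0 : psi N R e ≤ 47500 := by
      unfold psi
      split_ifs <;> omega
    set A := e.biUnion fun a => ((star R a).erase e).biUnion fun f => f.erase a with hA
    have a1 : ∑ x ∈ mv R e, (if x ∈ A then -(psi N R e : ℤ) else 0) ≤
        ∑ x ∈ mv R e, ((psi N (res R {x}) e : ℤ) - psi N R e) := sum_le_sum fun x hx => by
      have a := (mem_filter.1 hx).2.1
      split_ifs with b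
      · omega
      · rw [Bu.psi_congr fun u hu => Bu.star_far fun f hf c => b ?_, sub_self]
        exact mem_biUnion.2 ⟨u, hu, mem_biUnion.2 ⟨f, mem_erase.2 ⟨fun d => a (d ▸ c), hf⟩,
          mem_erase.2 ⟨fun d => a (d ▸ hu), c⟩⟩⟩
    have a2 : A.card ≤ ∑ a ∈ e, ((if a = v then 0 else 3) + if 3 ≤ dg R a then 6 else 0) :=
      card_biUnion_le.trans (sum_le_sum fun a ha => by
        have b1 := card_biUnion_le_card_mul ((star R a).erase e) (fun f => f.erase a) 3
          fun f hf => by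
            obtain ⟨b, c⟩ := mem_star.1 (mem_of_mem_erase hf)
            rw [card_erase_of_mem c, hR.cls.unif f b]
        have b2 := card_erase_add_one (mem_star.2 ⟨he, ha⟩)
        have b3 : (star R a).card ≤ 4 := hR.cls.deg a
        unfold dg
        split_ifs with c d d
        · rw [← c] at v2
          omega
        · rw [← c] at v2
          omega
        · omega
        · omega)
    have a3 : ∑ a ∈ e, (if a = v then 0 else 3) = 9 := by
      rw [← add_sum_erase _ _ v1, if_pos rfl, sum_congr rfl fun a ha => if_neg (ne_of_mem_erase ha),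
        sum_const, card_erase_of_mem v1, hR.cls.unif e he]
      rfl
    have a4 : Gen.hv R e ≤ 3 := by
      have b : (e.filter fun x => 3 ≤ dg R x) ⊆ e.erase v := fun x hx =>
        mem_erase.2 ⟨fun c => by
          have := (mem_filter.1 hx).2
          rw [c, dg, v2] at this
          omega, (mem_filter.1 hx).1⟩
      have c := card_le_card b
      rwa [card_erase_of_mem v1, hR.cls.unif e he] at c
    rw [sum_add_distrib, a3, ← sum_filter, sum_const, smul_eq_mul] at a2
    rw [← sum_filter, sum_const, nsmul_eq_mul, filter_mem_eq_inter] at a1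
    have a5 : ((mv R e ∩ A).card : ℤ) ≤ 9 + Gen.hv R e * 6 := by
      exact_mod_cast (card_le_card inter_subset_right).trans a2
    have a6 : (psi N R e : ℤ) ≤ 47500 := by exact_mod_cast p0
    have a7 : (Gen.hv R e : ℤ) ≤ 3 := by exact_mod_cast a4
    have a8 : (0 : ℤ) ≤ psi N R e := Nat.cast_nonneg _
    have a9 : (0 : ℤ) ≤ Gen.hv R e := Nat.cast_nonneg _
    rw [s2, lsh]
    nlinarith [mul_le_mul_of_nonneg_right a5 a8, mul_nonneg a9 (sub_nonneg.2 a6)]
  · have a : ((vs R).erase v).filter (fun x => 3 ≤ dg R x) =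
        (e.filter fun x => 3 ≤ dg R x) ∪ mv R e := by
      ext x
      simp only [mv, mem_filter, mem_erase, mem_union]
      refine ⟨fun b => by tauto, fun b => ?_⟩
      have c : 3 ≤ dg R x := b.elim (·.2) (·.2.2)
      exact ⟨⟨fun d => by rw [d, dg, v2] at c; omega,
        b.elim (fun d => mem_vs.2 ⟨e, he, d.1⟩) (·.1)⟩, c⟩
    have b : ∀ x ∈ e.filter fun x => 3 ≤ dg R x, v ∉ vs (res R {x}) := fun x hx c => by
      obtain ⟨f, f1, f2⟩ := mem_vs.1 c
      obtain ⟨f3, f4⟩ := mem_res.1 f1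
      rw [deg_one v2 f3 he f2 v1] at f4
      exact disjoint_singleton_left.1 f4 (mem_filter.1 hx).1
    rw [bud, Bu.rate_sum, a, sum_union (disjoint_left.2 fun x x1 x2 =>
      (mem_filter.1 x2).2.1 (mem_filter.1 x1).1), sum_congr rfl fun x hx => by rw [if_neg (b x hx)],
      sum_congr rfl fun x (hx : x ∈ mv R e) => by
        rw [if_pos (mem_vs.2 ⟨e, (s1 x hx).2, v1⟩), Bu.P0_leaf (s1 x hx).2 v1 (s1 x hx).1],
      rate, if_neg (by omega), Bu.P0_leaf he v1 v2, s2, lsh, sum_const, nsmul_eq_mul]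
    simp only [← sub_div, ← sum_div]
    push_cast
    simp only [sum_sub_distrib]
    unfold Gen.hv
    simp only [sum_const, nsmul_eq_mul]
    apply le_of_eq
    ring

end Pool.Agent.P.MP_b2082d_co.Gen
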