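import Pool.Agent.P.MP_b2082d_co.G.T0Spec

/-! The pair weights, from the rows of the vertices, of the edges and of the sets. -/

namespace Pool.Agent.P.MP_b2082d_co.Gen
open Finset

namespace TC
variable {N : Num} {T : Tb} {R S : Hg}

/-- the weight on the loop of `e` at `v`. -/
noncomputable def lpw (N : Num) (R : Hg) (v : ℕ) (e : Finset ℕ) : ℤ :=
  (if dg R v = 1 then lsh N R e else 0) + iota N R e v

theorem loop_sum (hS : S ⊆ R) (v : ℕ) (g : Finset ℕ → ℤ) :
    ∑ e ∈ R, ∑ f ∈ R, (if e ∈ S ∨ f ∈ S then (if e = f ∧ e ∈ R ∧ v ∈ e then g e else 0) else 0) =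
      ∑ e ∈ star S v, g e := by
  have a : star S v = R.filter fun e => e ∈ S ∧ v ∈ e := by
    ext e
    simp only [mem_star, mem_filter]
    exact ⟨fun h => ⟨hS h.1, h⟩, fun h => h.2⟩
  rw [a, sum_filter]
  refine sum_congr rfl fun e he => ?_
  rw [sum_eq_single_of_mem e he fun f _ h => by simp [h.symm]]
  by_cases b : e ∈ S <;> simp [b, he]

theorem swap (hS : S ⊆ R) (g : Finset ℕ → ℕ → ℤ) :
    ∑ v ∈ vs R, ∑ e ∈ star S v, g e v = ∑ e ∈ S, ∑ v ∈ e, g e v :=
  sum_comm' fun v e => by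
    rw [mem_star, mem_vs]
    exact ⟨fun h => ⟨h.2.2, h.2.1⟩, fun h => ⟨⟨e, hS h.2, h.1⟩, h.2, h.1⟩⟩

theorem adj_le {e : Finset ℕ} (he : e ∈ S) : adj S e + 1 ≤ S.card := by
  have a : adj S e ≤ (S.erase e).card := card_filter_le _ _
  have := card_erase_add_one he
  omega

theorem rows (hT : T.Ok) (hE : S_edge N T) (h3 : S_set T) (ho : S_os) (hR : C0 R)
    (hp : ∀ e ∈ R, (lvs R e).card ≤ 2) (hS : S ⊆ R) (odd : Odd S.card)
    (c3 : S.card = 3 ∨ S.card = 5 → 3 ≤ cutn R S) (c7 : S.card = 7 → 2 ≤ cutn R S)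
    (hm : S.card = 3 → ∀ e ∈ S, ∀ f ∈ S, ¬ Disjoint e f) :
    ((S.card : ℤ) + 1) * 10000000 ≤ 2 * ∑ e ∈ S, ES N T R S e := by
  have D := fun e he => hE R hR S hS e he (hp e (hS he))
  have lin : ∀ a c : ℤ, ∑ e ∈ S, (a + c * os R S e) = S.card * a + c * (6 * cutn R S) := by
    intro a c
    rw [sum_add_distrib, sum_const, nsmul_eq_mul, ← mul_sum, ← Nat.cast_sum, ho R hR S hS]
    push_cast
    rfl
  obtain ⟨k, hk⟩ := odd
  have : S.card = 1 ∨ S.card = 3 ∨ S.card = 5 ∨ S.card = 7 ∨ 9 ≤ S.card := by omega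
  rcases this with h | h | h | h | h
  · have a := card_nsmul_le_sum S _ 10000000 fun e he =>
      (D e he).2.1 (by have := adj_le he; omega)
    rw [h] at a ⊢
    simp only [one_smul] at a
    push_cast
    linarith
  · have a := sum_le_sum (s := S) fun e he => (D e he).2.2.1 (by
      rw [adj, filter_true_of_mem fun f hf => hm h e he f (mem_of_mem_erase hf),
        card_erase_of_mem he, h])
    have b := h3 R hR S hS h (hm h) (c3 (.inl h))
    rw [h]
    push_cast
    linarith
  · have a := sum_le_sum (s := S) fun e he => (D e he).2.2.2.1 (by have := adj_le he; omega)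
    have b : (3 : ℤ) ≤ cutn R S := by exact_mod_cast c3 (.inr h)
    rw [lin, h] at a
    rw [h]
    push_cast at a ⊢
    nlinarith [hT.c5, hT.s5]
  · have a := sum_le_sum (s := S) fun e he => (D e he).2.2.2.2 (by have := adj_le he; omega)
    have b : (2 : ℤ) ≤ cutn R S := by exact_mod_cast c7 h
    rw [lin, h] at a
    rw [h]
    push_cast at a ⊢
    nlinarith [hT.c7, hT.s7]
  · have a := card_nsmul_le_sum S _ T.a9 fun e he => (D e he).1
    have b : (9 : ℤ) ≤ S.card := by exact_mod_cast h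
    rw [nsmul_eq_mul] at a
    nlinarith [hT.s9]

end TC

open TC in
theorem t0core {N : Num} {T : Tb} (hT : T.Ok) (hB : S_bud N) (hL : S_leaf N)
    (hI : ∀ R e v, 2 ≤ dg R v → 0 ≤ iota N R e v) (hV : S_vtx N T) (hE : S_edge N T)
    (h3 : S_set T) (ho : S_os) : CoreC 2 N := fun R hR hp hc => by
  classical
  choose! q q0 q1 q2 q3 using hV R hR
  have dp : ∀ v e, e ∈ R → v ∈ e → dg R v = 1 ∨ 2 ≤ dg R v := fun v e a b => by
    have : 0 < dg R v := card_pos.2 ⟨e, mem_star.2 ⟨a, b⟩⟩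
    omega
  obtain ⟨w, hw⟩ : ∃ w : ℕ → Finset ℕ → Finset ℕ → ℤ, ∀ v e f, w v e f =
      (if 2 ≤ dg R v then q v e f else 0) + if e = f ∧ e ∈ R ∧ v ∈ e then lpw N R v e else 0 :=
    ⟨_, fun _ _ _ => rfl⟩
  have w0 : ∀ v e f, 0 ≤ w v e f := fun v e f => by
    rw [hw]
    refine add_nonneg (by split_ifs with a; exacts [q0 v a e f, le_rfl]) ?_
    split_ifs with a
    · rw [lpw]
      rcases dp v e a.2.1 a.2.2 with b | b
      · rw [if_pos b]
        exact (hL R hR e a.2.1 (hp e a.2.1) v (mem_lvs.2 ⟨a.2.2, b⟩)).1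
      · rw [if_neg (by omega), zero_add]
        exact hI R e v b
    · exact le_rfl
  have w1 : ∀ v e f, w v e f ≠ 0 → v ∈ e ∧ v ∈ f := fun v e f h => by
    by_contra a
    refine h ?_
    rw [hw, if_neg (c := e = f ∧ _) fun b => a ⟨b.2.2, b.1 ▸ b.2.2⟩, add_zero]
    split_ifs with b
    · by_contra c
      exact a (q1 v b e f c)
    · rfl
  have split : ∀ S ⊆ R, ∀ v, ∑ e ∈ R, ∑ f ∈ R, (if e ∈ S ∨ f ∈ S then w v e f else 0) =
      (if 2 ≤ dg R v then ∑ e ∈ R, ∑ f ∈ R, (if e ∈ S ∨ f ∈ S then q v e f else 0) else 0) +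
        ∑ e ∈ star S v, lpw N R v e := fun S hS v => by
    rw [← loop_sum hS v]
    split_ifs with a
    · rw [← sum_add_distrib]
      refine sum_congr rfl fun e _ => ?_
      rw [← sum_add_distrib]
      refine sum_congr rfl fun f _ => ?_
      rw [hw, if_pos a]
      split_ifs <;> simp
    · simp only [hw, if_neg a, zero_add]
  have tot : ∀ S ⊆ R, ∑ e ∈ S, ES N T R S e ≤
      ∑ v ∈ vs R, ∑ e ∈ R, ∑ f ∈ R, if e ∈ S ∨ f ∈ S then w v e f else 0 := fun S hS => by
    simp only [ES]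
    rw [← swap hS fun e v => sh N T R S e v + iota N R e v]
    refine sum_le_sum fun v hv => ?_
    obtain ⟨e, a, b⟩ := mem_vs.1 hv
    rw [split S hS]
    rcases dp v e a b with c | c
    · rw [if_neg (by omega), zero_add]
      exact (sum_congr rfl fun e _ => by rw [sh, lpw, if_pos c, if_pos c]).le
    · rw [if_pos c, sum_add_distrib]
      refine add_le_add (q3 v c S hS) (sum_congr rfl fun e _ => ?_).le
      rw [lpw, if_neg (by omega), zero_add]
  refine ⟨fun v e f => (w v e f : ℝ) / 10000000, fun v e f => ?_, fun v e f h => w1 v e f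
    fun a => h (by simp [a]), fun v hv => ?_, fun S hS odd c7 => ?_⟩
  · exact div_nonneg (Int.cast_nonneg (w0 v e f)) (by norm_num)
  · have a := split R Subset.rfl v
    have k : ∀ g : Finset ℕ → Finset ℕ → ℤ,
        ∑ e ∈ R, ∑ f ∈ R, (if e ∈ R ∨ f ∈ R then g e f else 0) = ∑ e ∈ R, ∑ f ∈ R, g e f :=
      fun g => sum_congr rfl fun e he => sum_congr rfl fun f _ => if_pos (.inl he)
    rw [k, k] at a
    simp only [← sum_div, ← Int.cast_sum]
    rw [a]
    obtain ⟨e, b, c⟩ := mem_vs.1 hv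
    rcases dp v e b c with d | d
    · rw [if_neg (by omega), zero_add, star_one d b c, sum_singleton, lpw, if_pos d]
      exact (hL R hR e b (hp e b) v (mem_lvs.2 ⟨c, d⟩)).2
    · refine le_trans ?_ (hB R hR v d)
      rw [if_pos d]
      refine div_le_div_of_nonneg_right
        (Int.cast_le.2 (add_le_add (q2 v d) (sum_congr rfl fun e _ => ?_).le)) (by norm_num)
      rw [lpw, if_neg (by omega), zero_add]
  · have key : ((S.card : ℤ) + 1) * 10000000 ≤
        2 * ∑ v ∈ vs R, ∑ e ∈ R, ∑ f ∈ R, if e ∈ S ∨ f ∈ S then w v e f else 0 := by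
      by_cases hm : S.card = 3 → ∀ e ∈ S, ∀ f ∈ S, ¬ Disjoint e f
      · have := tot S hS
        have := rows hT hE h3 ho hR hp hS odd (hc S hS) c7 hm
        linarith
      push Not at hm
      obtain ⟨s3, e, he, f, hf, hd⟩ := hm
      have one : ∀ e ∈ S, 10000000 ≤ ∑ v ∈ vs R, ∑ a ∈ R, ∑ b ∈ R,
          if a ∈ ({e} : Hg) ∨ b ∈ ({e} : Hg) then w v a b else 0 := fun e he => by
        have a : ({e} : Hg) ⊆ R := singleton_subset_iff.2 (hS he)
        have b := tot _ a
        have c := rows hT hE h3 ho hR hp a (by simp) (by simp) (by simp) (by simp)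
        rw [card_singleton] at c
        push_cast at c
        linarith
      have two := add_le_add (one e he) (one f hf)
      simp only [← sum_add_distrib] at two
      have le := two.trans (sum_le_sum fun v _ => sum_le_sum fun a _ => sum_le_sum fun b _ =>
        (?_ : _ ≤ if a ∈ S ∨ b ∈ S then w v a b else 0))
      · rw [s3]
        push_cast
        linarith
      by_cases z : w v a b = 0
      · simp [z]
      have m := w1 v a b z
      have n := w0 v a b
      simp only [mem_singleton]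
      split_ifs with x y u u y u u
      · exact absurd (y.elim (· ▸ m.1) (· ▸ m.2)) (disjoint_left.1 hd (x.elim (· ▸ m.1) (· ▸ m.2)))
      · exact absurd (y.elim (· ▸ m.1) (· ▸ m.2)) (disjoint_left.1 hd (x.elim (· ▸ m.1) (· ▸ m.2)))
      · simp
      · exact absurd (x.imp (· ▸ he) (· ▸ he)) u
      · simp
      · exact absurd (y.imp (· ▸ hf) (· ▸ hf)) u
      · simpa using n
      · simp
    have a : ∀ v e f, (if e ∈ S ∨ f ∈ S then (w v e f : ℝ) / 10000000 else 0) =
        ((if e ∈ S ∨ f ∈ S then w v e f else 0 : ℤ) : ℝ) / 10000000 := fun v e f => by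
      split_ifs <;> simp
    simp only [a, ← sum_div, ← Int.cast_sum]
    have b := (Int.cast_le (R := ℝ)).2 key
    push_cast at b ⊢
    linarith

end Pool.Agent.P.MP_b2082d_co.Gen
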