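import Pool.Agent.P.MP_b2082d_co.G.T0Spec

/-! The row of an edge from the arithmetic of its neighbourhood. -/

namespace Pool.Agent.P.MP_b2082d_co.Gen
open Finset

namespace Edg
variable {N : Num} {T : Tb} {R S : Hg} {e : Finset ℕ} {a b c d : ℕ}

theorem co_comm (R : Hg) (a b : ℕ) : co R a b = co R b a := by
  unfold co star
  rw [filter_comm]

theorem ten_sub (h : S ⊆ R) : (ten R e a b c d).Sub (ten S e a b c d) := by
  have k : ∀ A, nt S e A ≤ nt R e A := fun A => card_le_card (filter_subset_filter _ h)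
  exact ⟨k _, k _, k _, k _, k _, k _, k _, k _, k _, k _⟩

theorem exists_lb (h : e.card = 4) (g : ℕ → ℕ) :
    ∃ a b c d, Lb e a b c d ∧ g a ≤ g b ∧ g b ≤ g c ∧ g c ≤ g d := by
  obtain ⟨a, ha, a1⟩ := exists_min_image e g (card_pos.1 (by omega))
  have h3 : (e.erase a).card = 3 := by rw [card_erase_of_mem ha, h]
  obtain ⟨b, hb, b1⟩ := exists_min_image (e.erase a) g (card_pos.1 (by omega))
  have h2 : ((e.erase a).erase b).card = 2 := by rw [card_erase_of_mem hb, h3]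
  obtain ⟨c, hc, c1⟩ := exists_min_image ((e.erase a).erase b) g (card_pos.1 (by omega))
  have h1 : (((e.erase a).erase b).erase c).card = 1 := by rw [card_erase_of_mem hc, h2]
  obtain ⟨d, hd⟩ := card_eq_one.1 h1
  have d1 : d ∈ ((e.erase a).erase b).erase c := hd ▸ mem_singleton_self d
  have c2 := mem_of_mem_erase hc
  have d2 := mem_of_mem_erase d1
  have d3 := mem_of_mem_erase d2
  refine ⟨a, b, c, d, ⟨?_, (ne_of_mem_erase hb).symm, (ne_of_mem_erase c2).symm,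
    (ne_of_mem_erase d3).symm, (ne_of_mem_erase hc).symm, (ne_of_mem_erase d2).symm,
    (ne_of_mem_erase d1).symm⟩, a1 b (mem_of_mem_erase hb), b1 c c2, c1 d d2⟩
  rw [← hd, insert_erase hc, insert_erase hb, insert_erase ha]

theorem sum4 {M : Type} [AddCommMonoid M] (h : Lb e a b c d) (f : ℕ → M) :
    ∑ v ∈ e, f v = f a + f b + f c + f d := by
  rw [h.eq, sum_insert (by simp [h.ab, h.ac, h.ad]), sum_insert (by simp [h.bc, h.bd]),
    sum_pair h.cd, add_assoc, add_assoc]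

theorem sum3 {M : Type} [AddCommMonoid M] (h : Lb e a b c d) (f : ℕ → M) :
    ∑ v ∈ e.erase a, f v = f b + f c + f d := by
  rw [h.eq, erase_insert (by simp [h.ab, h.ac, h.ad]), sum_insert (by simp [h.bc, h.bd]),
    sum_pair h.cd, add_assoc]

theorem lb1 (h : Lb e a b c d) : Lb e b a c d :=
  ⟨h.eq.trans (insert_comm _ _ _), h.ab.symm, h.bc, h.bd, h.ac, h.ad, h.cd⟩

theorem lb2 (h : Lb e a b c d) : Lb e c a b d :=
  ⟨h.eq.trans (by ext x; simp only [mem_insert, mem_singleton]; tauto), h.ac.symm, h.bc.symm,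
    h.cd, h.ab, h.ad, h.bd⟩

theorem lb3 (h : Lb e a b c d) : Lb e d a b c :=
  ⟨h.eq.trans (by ext x; simp only [mem_insert, mem_singleton]; tauto), h.ad.symm, h.bd.symm,
    h.cd.symm, h.ab, h.ac, h.bc⟩

/-- the share of one vertex with its income. -/
theorem vtx (hK : S_kil) (hR : C0 R) (he : e ∈ R) (h : Lb e a b c d) (p : ℕ → ℕ → ℤ) (i : ℕ)
    {lf : ℤ} {k j r1 a1 k1 r2 a2 k2 r3 a3 k3 : ℕ} (h0 : lsh N R e = lf) (hk : dg R a = k)
    (h1 : 1 ≤ k) (hj : dg S a = j) (b1 : co R a b = r1 + 1) (b2 : co S a b = a1 + 1)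
    (b3 : dg R b = k1) (c1 : co R a c = r2 + 1) (c2 : co S a c = a2 + 1) (c3 : dg R c = k2)
    (d1 : co R a d = r3 + 1) (d2 : co S a d = a3 + 1) (d3 : dg R d = k3) :
    Ten.vv T lf (p 3 i) (p 4 i) k j r1 a1 k1 r2 a2 k2 r3 a3 k3 ≤
      sh N T R S e a + 3 * kp R e p i a := by
  unfold Ten.vv sh kp
  rw [hk, hj]
  by_cases z : k = 1
  · rw [if_pos z, if_pos z, if_neg (by omega), h0]
    simp
  have s : sig0 R e a = r1 + r2 + r3 + 3 := by
    rw [sig0, sum3 h, b1, c1, d1]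
    omega
  have u := hK R hR e he a (by simp [h.eq]) (by omega)
  rw [if_neg z, if_neg z, if_pos (show 2 ≤ k by omega), sum3 h, s, b1, b2, b3, c1, c2, c3, d1, d2,
    d3]
  rw [hk, s] at u
  set μ := min 0 (min (T.bk k j (r1 + r2 + r3 + 3) 3 + 3 * p 3 i)
    (T.bk k j (r1 + r2 + r3 + 3) 4 + 3 * p 4 i)) with hμ
  have v : ∑ x ∈ kil R e a, μ ≤
      ∑ x ∈ kil R e a, (T.bk k j (r1 + r2 + r3 + 3) (dg R x) + 3 * p (dg R x) i) :=
    sum_le_sum fun x hx => by
      have x1 : 3 ≤ dg R x := (mem_filter.1 (mem_filter.1 hx).1).2.2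
      have x2 : dg R x ≤ 4 := hR.cls.deg x
      obtain y | y : dg R x = 3 ∨ dg R x = 4 := by omega
      · rw [y]
        exact (min_le_right _ _).trans (min_le_left _ _)
      · rw [y]
        exact (min_le_right _ _).trans (min_le_right _ _)
  rw [sum_add_distrib, ← mul_sum, sum_const, nsmul_eq_mul] at v
  have w : ((kil R e a).card : ℤ) ≤ (if k = 2 then 3 - (r1 + r2 + r3) else 1 : ℕ) := by
    refine Int.ofNat_le.2 (u.trans (le_of_eq ?_))
    split_ifs <;> omega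
  have := mul_le_mul_of_nonpos_right w (min_le_left _ _ : μ ≤ 0)
  linarith

theorem Dem.mono {t o q : ℕ} {E E' : ℤ} (h : Dem T t o q E) (a : E ≤ E') : Dem T t o q E' :=
  ⟨h.1.trans a, fun b => (h.2.1 b).trans a, fun b => (h.2.2.1 b).trans a,
    fun b => (h.2.2.2.1 b).trans a, fun b => (h.2.2.2.2 b).trans a⟩

end Edg

theorem s_edge {N : Num} {T : Tb} (hL : S_loc N) (hW : S_W N) (hK : S_kil) (hT : S_ten N T) :
    S_edge N T := fun R hR S hS e he hl => by
  have he' := hS he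
  obtain ⟨a, b, c, d, h, g1, g2, g3⟩ := Edg.exists_lb (hR.cls.unif e he') (dg R)
  obtain ⟨⟨a0, a1, a2, a3⟩, ⟨b1, b2, b3, b4, b5, b6⟩, c1, c2, c3, -⟩ :=
    hL R hR e he' a b c d h _ rfl
  obtain ⟨⟨u0, u1, u2, u3⟩, ⟨v1, v2, v3, v4, v5, v6⟩, -, -, -, c4⟩ :=
    hL S (St.c0_sub hR hS) e he a b c d h _ rfl
  have hw := hW R hR e he' a b c d h
  have hs := Edg.ten_sub (e := e) (a := a) (b := b) (c := c) (d := d) hS
  generalize ten R e a b c d = n at *
  generalize ten S e a b c d = m at *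
  have p0 : 1 ≤ n.d0 := Nat.le_add_left _ _
  have p4 : dg R d ≤ 4 := hR.cls.deg d
  have p2 : 2 ≤ n.d2 := by
    by_contra z
    rw [c1, Ten.lv, if_pos (by omega), if_pos (by omega), if_pos (by omega)] at hl
    omega
  obtain ⟨w, p, k1, k2⟩ := hT n (by omega) (by omega) (by omega) (by omega) p2
  have l0 : lsh N R e = n.lf N := by rw [lsh, Ten.lf, c2, c3]
  have f0 := Edg.vtx (T := T) hK hR he' h p 0 l0 a0 p0 u0 b1 v1 a1 b2 v2 a2 b3 v3 a3
  have f1 := Edg.vtx (T := T) hK hR he' (Edg.lb1 h) p 1 l0 a1 (by omega) u1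
    ((Edg.co_comm _ _ _).trans b1) ((Edg.co_comm _ _ _).trans v1) a0 b4 v4 a2 b5 v5 a3
  have f2 := Edg.vtx (T := T) hK hR he' (Edg.lb2 h) p 2 l0 a2 (by omega) u2
    ((Edg.co_comm _ _ _).trans b2) ((Edg.co_comm _ _ _).trans v2) a0
    ((Edg.co_comm _ _ _).trans b4) ((Edg.co_comm _ _ _).trans v4) a1 b6 v6 a3
  have f3 := Edg.vtx (T := T) hK hR he' (Edg.lb3 h) p 3 l0 a3 (by omega) u3
    ((Edg.co_comm _ _ _).trans b3) ((Edg.co_comm _ _ _).trans v3) a0
    ((Edg.co_comm _ _ _).trans b5) ((Edg.co_comm _ _ _).trans v5) a1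
    ((Edg.co_comm _ _ _).trans b6) ((Edg.co_comm _ _ _).trans v6) a2
  have o1 : os R S e = n.os m := by
    rw [os, Edg.sum4 h, a0, a1, a2, a3, u0, u1, u2, u3, Ten.os]
  have o2 : qc R S e = n.qc m := by
    rw [qc, Edg.sum4 h, a0, a1, a2, a3, u0, u1, u2, u3, Ten.qc]
  rw [c4, o1, o2]
  refine Edg.Dem.mono (k2 m hs) ?_
  have f4 := hw w p k1
  rw [ES, sum_add_distrib, Edg.sum4 h, Ten.E]
  linarith

end Pool.Agent.P.MP_b2082d_co.Gen
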