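import Pool.Agent.P.MP_b2082d_co.G.T0Spec

/-! The neighbourhood of an edge in terms of the traces. -/

namespace Pool.Agent.P.MP_b2082d_co.Gen
open Finset

theorem co_comm (R : Hg) (a b : ℕ) : co R a b = co R b a := by
  rw [co, co, star, star, star, star, filter_comm]

theorem nt_mono {R S : Hg} (h : S ⊆ R) (e A : Finset ℕ) : nt S e A ≤ nt R e A :=
  card_le_card (filter_subset_filter _ h)

theorem ten_sub {R S : Hg} (h : S ⊆ R) (e : Finset ℕ) (a b c d : ℕ) :
    (ten R e a b c d).Sub (ten S e a b c d) :=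
  ⟨nt_mono h _ _, nt_mono h _ _, nt_mono h _ _, nt_mono h _ _, nt_mono h _ _, nt_mono h _ _,
    nt_mono h _ _, nt_mono h _ _, nt_mono h _ _, nt_mono h _ _⟩

theorem exists_lb {e : Finset ℕ} (h : e.card = 4) (g : ℕ → ℕ) :
    ∃ a b c d, Lb e a b c d ∧ g a ≤ g b ∧ g b ≤ g c ∧ g c ≤ g d := by
  obtain ⟨a, a1, a2⟩ := exists_min_image e g (card_pos.1 (by omega))
  have h1 : (e.erase a).card = 3 := by rw [card_erase_of_mem a1, h]
  obtain ⟨b, b1, b2⟩ := exists_min_image _ g (card_pos.1 (by omega : 0 < (e.erase a).card))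
  have h2 : ((e.erase a).erase b).card = 2 := by rw [card_erase_of_mem b1, h1]
  obtain ⟨c, c1, c2⟩ := exists_min_image _ g
    (card_pos.1 (by omega : 0 < ((e.erase a).erase b).card))
  obtain ⟨d, hd⟩ := card_eq_one.1 (show (((e.erase a).erase b).erase c).card = 1 by
    rw [card_erase_of_mem c1, h2])
  have d1 : d ∈ ((e.erase a).erase b).erase c := hd ▸ mem_singleton_self d
  refine ⟨a, b, c, d, ⟨?_, (ne_of_mem_erase b1).symm, (ne_of_mem_erase (mem_of_mem_erase c1)).symm,
    (ne_of_mem_erase (mem_of_mem_erase (mem_of_mem_erase d1))).symm, (ne_of_mem_erase c1).symm,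
    (ne_of_mem_erase (mem_of_mem_erase d1)).symm, (ne_of_mem_erase d1).symm⟩,
    a2 b (mem_of_mem_erase b1), b2 c (mem_of_mem_erase c1), c2 d (mem_of_mem_erase d1)⟩
  rw [← hd, insert_erase c1, insert_erase b1, insert_erase a1]

namespace Lb
variable {Q : Hg} {e : Finset ℕ} {a b c d : ℕ} (L : Lb e a b c d)
include L

theorem tr {f A : Finset ℕ} (hA : A ⊆ e) : f ∩ e = A ↔
    (a ∈ f ↔ a ∈ A) ∧ (b ∈ f ↔ b ∈ A) ∧ (c ∈ f ↔ c ∈ A) ∧ (d ∈ f ↔ d ∈ A) := by
  constructor
  · rintro rfl
    simp [L.eq]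
  · rintro ⟨h1, h2, h3, h4⟩
    ext x
    by_cases p : x ∈ e
    · rw [mem_inter, and_iff_left p]
      simp only [L.eq, mem_insert, mem_singleton] at p
      rcases p with rfl | rfl | rfl | rfl <;> assumption
    · exact ⟨fun q => absurd (mem_inter.1 q).2 p, fun q => absurd (hA q) p⟩

theorem full (hQ : C0 Q) (he : e ∈ Q) {f : Finset ℕ} (hf : f ∈ Q) :
    f = e ↔ a ∈ f ∧ b ∈ f ∧ c ∈ f ∧ d ∈ f := by
  refine ⟨fun h => by simp [h, L.eq], fun h => (eq_of_subset_of_card_le (fun x hx => ?_) ?_).symm⟩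
  · simp only [L.eq, mem_insert, mem_singleton] at hx
    rcases hx with rfl | rfl | rfl | rfl
    exacts [h.1, h.2.1, h.2.2.1, h.2.2.2]
  · rw [hQ.cls.unif f hf, hQ.cls.unif e he]

omit L in
theorem three (hQ : C0 Q) (he : e ∈ Q) {f : Finset ℕ} (hf : f ∈ Q) {x y z : ℕ} (h1 : x ≠ y)
    (h2 : x ≠ z) (h3 : y ≠ z) (hx : x ∈ e) (hy : y ∈ e) (hz : z ∈ e) (p : x ∈ f) (q : y ∈ f)
    (r : z ∈ f) : f = e := by
  by_contra n
  have := (card_le_card (show {x, y, z} ⊆ f ∩ e from insert_subset (mem_inter.2 ⟨p, hx⟩)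
    (insert_subset (mem_inter.2 ⟨q, hy⟩) (singleton_subset_iff.2 (mem_inter.2 ⟨r, hz⟩))))).trans
    (hQ.co2 f hf e he n)
  rw [card_insert_of_notMem (by simp [h1, h2]), card_pair h3] at this
  omega

theorem count (hQ : C0 Q) (he : e ∈ Q) (G : Bool → Bool → Bool → Bool → Bool)
    (h0 : G false false false false = false) (P : Finset ℕ → Prop) [DecidablePred P]
    (hP : ∀ f ∈ Q, P f ↔ G (decide (a ∈ f)) (decide (b ∈ f)) (decide (c ∈ f)) (decide (d ∈ f))) :
    (Q.filter P).card =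
      (G true false false false).toNat * nt Q e {a} + (G false true false false).toNat * nt Q e {b} +
      (G false false true false).toNat * nt Q e {c} + (G false false false true).toNat * nt Q e {d} +
      (G true true false false).toNat * nt Q e {a, b} +
      (G true false true false).toNat * nt Q e {a, c} +
      (G true false false true).toNat * nt Q e {a, d} +
      (G false true true false).toNat * nt Q e {b, c} +
      (G false true false true).toNat * nt Q e {b, d} +
      (G false false true true).toNat * nt Q e {c, d} + (G true true true true).toNat := by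
  have ma : a ∈ e := by simp [L.eq]
  have mb : b ∈ e := by simp [L.eq]
  have mc : c ∈ e := by simp [L.eq]
  have md : d ∈ e := by simp [L.eq]
  have o : (G true true true true).toNat =
      ∑ f ∈ Q, if f = e then (G true true true true).toNat else 0 := by simp [he]
  rw [o]
  simp only [nt, card_filter, mul_sum, ← sum_add_distrib]
  refine sum_congr rfl fun f hf => ?_
  have t1 := three hQ he hf L.ab L.ac L.bc ma mb mc
  have t2 := three hQ he hf L.ab L.ad L.bd ma mb md
  have t3 := three hQ he hf L.ac L.ad L.cd ma mc md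
  have t4 := three hQ he hf L.bc L.bd L.cd mb mc md
  have s : ∀ {x y}, x ∈ e → y ∈ e → {x, y} ⊆ e := fun p q =>
    insert_subset p (singleton_subset_iff.2 q)
  simp only [hP f hf, L.full hQ he hf, L.tr (singleton_subset_iff.2 ma),
    L.tr (singleton_subset_iff.2 mb), L.tr (singleton_subset_iff.2 mc),
    L.tr (singleton_subset_iff.2 md), L.tr (s ma mb), L.tr (s ma mc), L.tr (s ma md),
    L.tr (s mb mc), L.tr (s mb md), L.tr (s mc md), mem_insert, mem_singleton, L.ab, L.ac, L.ad,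
    L.bc, L.bd, L.cd, L.ab.symm, L.ac.symm, L.ad.symm, L.bc.symm, L.bd.symm, L.cd.symm] at *
  by_cases p : a ∈ f <;> by_cases q : b ∈ f <;> by_cases r : c ∈ f <;> by_cases s : d ∈ f <;>
    simp [p, q, r, s, h0, Bool.toNat, Bool.cond_eq_ite] at t1 t2 t3 t4 ⊢

theorem sum4 (g : ℕ → ℕ) : ∑ x ∈ e, g x = g a + g b + g c + g d := by
  rw [L.eq, sum_insert (by simp [L.ab, L.ac, L.ad]), sum_insert (by simp [L.bc, L.bd]),
    sum_pair L.cd, add_assoc, add_assoc]

end Lb

theorem twin_iff {Q : Hg} {u w : ℕ} (h1 : dg Q u ≤ 2) (h2 : dg Q w ≤ 2) :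
    (star Q u).card = 2 ∧ star Q u = star Q w ↔ co Q u w = 2 := by
  have k : ∀ {u w}, dg Q u ≤ 2 → co Q u w = 2 → star (star Q u) w = star Q u := fun p q =>
    eq_of_subset_of_card_le (filter_subset _ _) (p.trans q.ge)
  refine ⟨fun h => ?_, fun h => ⟨k h1 h ▸ h, ?_⟩⟩
  · rw [co, h.2, star, star, filter_filter]
    simp only [and_self]
    exact (congrArg card h.2).symm.trans h.1
  · exact (k h1 h).symm.trans ((filter_comm _ _ _).trans (k h2 (co_comm Q u w ▸ h)))

theorem s_loc (N : Num) : S_loc N := by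
  rintro Q hQ e he a b c d L n rfl
  have C := L.count hQ he
  have D : dg Q a = (ten Q e a b c d).d0 ∧ dg Q b = (ten Q e a b c d).d1 ∧
      dg Q c = (ten Q e a b c d).d2 ∧ dg Q d = (ten Q e a b c d).d3 :=
    ⟨(C (fun p _ _ _ => p) rfl _ fun f _ => by simp).trans (by simp [ten, Ten.d0]),
      (C (fun _ p _ _ => p) rfl _ fun f _ => by simp).trans (by simp [ten, Ten.d1]),
      (C (fun _ _ p _ => p) rfl _ fun f _ => by simp).trans (by simp [ten, Ten.d2]),
      (C (fun _ _ _ p => p) rfl _ fun f _ => by simp).trans (by simp [ten, Ten.d3])⟩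
  have f : ∀ x y, co Q x y = (Q.filter fun f => x ∈ f ∧ y ∈ f).card := fun x y => by
    rw [co, star, star, filter_filter]
  have E : co Q a b = (ten Q e a b c d).r01 + 1 ∧ co Q a c = (ten Q e a b c d).r02 + 1 ∧
      co Q a d = (ten Q e a b c d).r03 + 1 ∧ co Q b c = (ten Q e a b c d).r12 + 1 ∧
      co Q b d = (ten Q e a b c d).r13 + 1 ∧ co Q c d = (ten Q e a b c d).r23 + 1 := by
    simp only [f]
    exact ⟨(C (fun p q _ _ => p && q) rfl _ fun f _ => by simp).trans (by simp [ten]),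
      (C (fun p _ q _ => p && q) rfl _ fun f _ => by simp).trans (by simp [ten]),
      (C (fun p _ _ q => p && q) rfl _ fun f _ => by simp).trans (by simp [ten]),
      (C (fun _ p q _ => p && q) rfl _ fun f _ => by simp).trans (by simp [ten]),
      (C (fun _ p _ q => p && q) rfl _ fun f _ => by simp).trans (by simp [ten]),
      (C (fun _ _ p q => p && q) rfl _ fun f _ => by simp).trans (by simp [ten])⟩
  have F : (lvs Q e).card = (ten Q e a b c d).lv := by
    rw [lvs, card_filter, L.sum4, Ten.lv, ← D.1, ← D.2.1, ← D.2.2.1, ← D.2.2.2]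
  have T : (Tw Q e ∧ ∀ v ∈ e, (star Q v).card ≤ 2) ↔ (ten Q e a b c d).Tw := by
    have g : (∀ v ∈ e, (star Q v).card ≤ 2) ↔
        dg Q a ≤ 2 ∧ dg Q b ≤ 2 ∧ dg Q c ≤ 2 ∧ dg Q d ≤ 2 := by simp [L.eq]
    rw [Ten.Tw, ← D.1, ← D.2.1, ← D.2.2.1, ← D.2.2.2, and_comm, ← g]
    refine and_congr_right fun h => ?_
    have t : Tw Q e ↔ ∃ u ∈ e, ∃ w ∈ e, u ≠ w ∧ co Q u w = 2 :=
      exists_congr fun u => and_congr_right fun hu => exists_congr fun w =>
        and_congr_right fun hw => and_congr_right fun _ => twin_iff (h u hu) (h w hw)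
    obtain ⟨e1, e2, e3, e4, e5, e6⟩ := E
    have m : ∀ u, u ∈ e ↔ u = a ∨ u = b ∨ u = c ∨ u = d := fun u => by simp [L.eq]
    rw [t]
    simp only [m, exists_eq_or_imp, exists_eq_left, ne_eq, not_true,
      false_and, false_or, or_false, L.ab, L.ac, L.ad, L.bc, L.bd, L.cd, L.ab.symm, L.ac.symm,
      L.ad.symm, L.bc.symm, L.bd.symm, L.cd.symm, not_false_eq_true, true_and, co_comm Q b a,
      co_comm Q c a, co_comm Q d a, co_comm Q c b, co_comm Q d b, co_comm Q d c]
    omega
  refine ⟨D, E, F, ?_, ?_, ?_⟩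
  · rw [hv, card_filter, L.sum4, Ten.hv, ← D.1, ← D.2.1, ← D.2.2.1, ← D.2.2.2]
  · simp only [psi, Ten.psi, F, T]
  · rw [adj, ← filter_ne', filter_filter]
    refine (C (fun p q r s => (p || q || r || s) && !(p && q && r && s)) rfl _ fun f hf => ?_).trans
      (by simp [ten, Ten.tot])
    rw [Ne, L.full hQ he hf, L.eq]
    simp
    tauto

end Pool.Agent.P.MP_b2082d_co.Gen
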