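import Pool.Agent.P.MP_b2082d_co.G.T0Spec

/-! Cut vertices and sets of three edges. -/

namespace Pool.Agent.P.MP_b2082d_co.Gen
open Finset

theorem dg_lt_iff {R S : Hg} (h : S ⊆ R) (a : ℕ) : dg S a < dg R a ↔ a ∈ vs (R \ S) := by
  have s : star S a ⊆ star R a := filter_subset_filter _ h
  constructor
  · intro b
    obtain ⟨e, e1, e2⟩ := exists_mem_notMem_of_card_lt_card b
    rw [mem_star] at e1 e2
    exact mem_vs.2 ⟨e, mem_sdiff.2 ⟨e1.1, fun c => e2 ⟨c, e1.2⟩⟩, e1.2⟩
  · intro b
    obtain ⟨e, e1, e2⟩ := mem_vs.1 b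
    rw [mem_sdiff] at e1
    exact card_lt_card ((ssubset_iff_of_subset s).2
      ⟨e, mem_star.2 ⟨e1.1, e2⟩, fun c => e1.2 (mem_star.1 c).1⟩)

theorem cutn_eq {R S : Hg} (h : S ⊆ R) :
    cutn R S = ∑ a ∈ vs S, if dg S a < dg R a then 1 else 0 := by
  rw [cutn, ← filter_mem_eq_inter, card_filter]
  exact sum_congr rfl fun a _ => by simp only [dg_lt_iff h]

theorem s_os : S_os := fun R hR S hS => by
  rw [cutn_eq hS, mul_sum]
  have e1 : ∑ e ∈ S, os R S e =
      ∑ a ∈ vs S, ∑ e ∈ star S a, if dg S a < dg R a then 6 / dg S a else 0 :=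
    sum_comm' fun e a => by
      rw [mem_star, mem_vs]
      exact ⟨fun b => ⟨⟨b.1, b.2⟩, e, b.1, b.2⟩, fun b => b.1⟩
  rw [e1]
  refine sum_congr rfl fun a ha => ?_
  have h1 : 1 ≤ dg S a := star_pos ha
  have h2 : dg R a ≤ 4 := hR.cls.deg a
  rw [sum_const, smul_eq_mul]
  change dg S a * _ = _
  split_ifs with b
  · have h3 : dg S a ≤ 3 := by omega
    generalize dg S a = j at *
    interval_cases j <;> rfl
  · rfl

/-- the code of an edge: `x`, `y` lie in two edges, `t` in three, `c` in one; the second number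
counts the cut vertices. -/
def cq (x x' y y' t t' c : ℕ) : ℕ := 25 * (4 - (x + x' + y + y' + t + t' + c)) + 125 * c +
  625 * (x + y) + 3125 * (x' + y') + 15625 * t + 78125 * t'

/-- the check of all triples of edges. -/
def chkQ (Q : ℕ → ℤ) : Bool :=
  (List.range 3).all fun t => (List.range 3).all fun t' =>
  (List.range 3).all fun x => (List.range 3).all fun x' =>
  decide (x + x' + t + t' = 0 ∨ 2 < x + x' + t + t') ||
  (List.range 3).all fun y => (List.range 3).all fun y' =>
  decide (y + y' + t + t' = 0 ∨ 2 < y + y' + t + t') ||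
  (List.range 3).all fun z => (List.range 3).all fun z' =>
  decide (z + z' + t + t' = 0 ∨ 2 < z + z' + t + t' ∨ x + x' + y + y' + z + z' = 6) ||
  (List.range 4).all fun a => decide (4 < x + x' + y + y' + t + t' + a) ||
  (List.range 4).all fun b => decide (4 < x + x' + z + z' + t + t' + b) ||
  (List.range 4).all fun c => decide (4 < y + y' + z + z' + t + t' + c) ||
  decide (a + b + c + x' + y' + z' + t' < 3) ||
  decide (20000000 ≤ Q (cq x x' y y' t t' a) + Q (cq x x' z z' t t' b) + Q (cq y y' z z' t t' c))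

theorem chkQ_ok {Q : ℕ → ℤ} (h : chkQ Q = true) {t t' x x' y y' z z' a b c : ℕ}
    (h1 : 1 ≤ x + x' + t + t') (h2 : x + x' + t + t' ≤ 2) (h3 : 1 ≤ y + y' + t + t')
    (h4 : y + y' + t + t' ≤ 2) (h5 : 1 ≤ z + z' + t + t') (h6 : z + z' + t + t' ≤ 2)
    (h7 : x + x' + y + y' + z + z' ≠ 6) (h8 : x + x' + y + y' + t + t' + a ≤ 4)
    (h9 : x + x' + z + z' + t + t' + b ≤ 4) (h10 : y + y' + z + z' + t + t' + c ≤ 4)
    (h11 : 3 ≤ a + b + c + x' + y' + z' + t') :
    20000000 ≤ Q (cq x x' y y' t t' a) + Q (cq x x' z z' t t' b) + Q (cq y y' z z' t t' c) := by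
  simp only [chkQ, List.all_eq_true, List.mem_range, Bool.or_eq_true, decide_eq_true_eq] at h
  have k1 := (h t (by omega) t' (by omega) x (by omega) x' (by omega)).resolve_left (by omega)
  have k2 := (k1 y (by omega) y' (by omega)).resolve_left (by omega)
  have k3 := (k2 z (by omega) z' (by omega)).resolve_left (by omega)
  have k4 := (k3 a (by omega)).resolve_left (by omega)
  have k5 := (k4 b (by omega)).resolve_left (by omega)
  exact (k5 c (by omega)).resolve_left (by omega)

theorem sum_code (V : Finset ℕ) (c : ℕ → Bool × Bool × Bool × Bool)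
    (F : Bool × Bool × Bool × Bool → ℕ) :
    ∑ a ∈ V, F (c a) = ∑ t, F t * (V.filter fun a => c a = t).card := by
  rw [← sum_fiberwise' V c F]
  exact sum_congr rfl fun t _ => by rw [sum_const, smul_eq_mul, mul_comm]

theorem s_set {T : Tb} (h : chkQ T.Q = true) : S_set T := fun R hR S hS h3 hd hc => by
  obtain ⟨e, f, g, ef, eg, fg, rfl⟩ := card_eq_three.1 h3
  have he : e ∈ R := hS (by simp)
  have hf : f ∈ R := hS (by simp)
  have hg : g ∈ R := hS (by simp)
  rw [cutn_eq hS] at hc
  rw [sum_insert (by simp [ef, eg]), sum_pair fg, ← add_assoc]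
  have dS : ∀ a, dg {e, f, g} a =
      (if a ∈ e then 1 else 0) + ((if a ∈ f then 1 else 0) + if a ∈ g then 1 else 0) := fun a => by
    rw [dg, star, card_filter, sum_insert (by simp [ef, eg]), sum_pair fg]
  have hV : ∀ a, a ∈ vs {e, f, g} ↔ a ∈ e ∨ a ∈ f ∨ a ∈ g := fun a => by simp [vs]
  have d1 := hd e (by simp) f (by simp)
  have d2 := hd e (by simp) g (by simp)
  have d3 := hd f (by simp) g (by simp)
  rw [not_disjoint_iff_nonempty_inter, ← card_pos] at d1 d2 d3
  have c1 := hR.co2 e he f hf ef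
  have c2 := hR.co2 e he g hg eg
  have c3 := hR.co2 f hf g hg fg
  have u1 := hR.cls.unif e he
  have u2 := hR.cls.unif f hf
  have u3 := hR.cls.unif g hg
  unfold qc
  generalize vs {e, f, g} = V at hV hc
  obtain ⟨n, key⟩ : ∃ n : Bool × Bool × Bool × Bool → ℕ, ∀ (D : Finset ℕ) (G : ℕ → ℕ)
      (F : Bool × Bool × Bool × Bool → ℕ), D ⊆ V →
      (∀ a ∈ V, (if a ∈ D then G a else 0) = F (decide (a ∈ e), decide (a ∈ f), decide (a ∈ g),
        decide (dg {e, f, g} a < dg R a))) → ∑ a ∈ D, G a = ∑ t, F t * n t :=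
    ⟨_, fun D G F a1 a2 => by
      rw [← sum_code V fun a => (decide (a ∈ e), decide (a ∈ f), decide (a ∈ g),
        decide (dg {e, f, g} a < dg R a)), ← sum_congr rfl a2, ← sum_filter, filter_mem_eq_inter,
        inter_eq_right.2 a1]⟩
  have s1 : e ⊆ V := fun a b => (hV a).2 (Or.inl b)
  have s2 : f ⊆ V := fun a b => (hV a).2 (Or.inr (Or.inl b))
  have s3 : g ⊆ V := fun a b => (hV a).2 (Or.inr (Or.inr b))
  have k0 := key ∅ (fun _ => 0) (fun t => if t.1 || t.2.1 || t.2.2.1 then 0 else 1)
    (empty_subset _) fun a b => by rcases (hV a).1 b with c | c | c <;> simp [c]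
  have k1 := key e (fun _ => 1) (fun t => if t.1 then 1 else 0) s1 fun a _ => by simp
  have k2 := key f (fun _ => 1) (fun t => if t.2.1 then 1 else 0) s2 fun a _ => by simp
  have k3 := key g (fun _ => 1) (fun t => if t.2.2.1 then 1 else 0) s3 fun a _ => by simp
  have k4 := key (e ∩ f) (fun _ => 1) (fun t => if t.1 && t.2.1 then 1 else 0)
    (inter_subset_left.trans s1) fun a _ => by simp
  have k5 := key (e ∩ g) (fun _ => 1) (fun t => if t.1 && t.2.2.1 then 1 else 0)
    (inter_subset_left.trans s1) fun a _ => by simp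
  have k6 := key (f ∩ g) (fun _ => 1) (fun t => if t.2.1 && t.2.2.1 then 1 else 0)
    (inter_subset_left.trans s2) fun a _ => by simp
  have k7 := key V (fun a => if dg {e, f, g} a < dg R a then 1 else 0)
    (fun t => if t.2.2.2 then 1 else 0) Subset.rfl fun a b => by simp [b]
  have k8 := key (V.filter fun a => ¬ (a ∈ e \ f ∪ f \ e ↔ a ∈ g)) (fun _ => 1)
    (fun t => if (t.1 ^^ t.2.1) ^^ t.2.2.1 then 1 else 0) (filter_subset _ _) fun a b => by
      by_cases x : a ∈ e <;> by_cases y : a ∈ f <;> by_cases z : a ∈ g <;> simp [b, x, y, z]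
  have kq : ∀ (D : Finset ℕ) (i : Bool × Bool × Bool × Bool → Bool), D ⊆ V →
      (∀ a l, i (decide (a ∈ e), decide (a ∈ f), decide (a ∈ g), l) = decide (a ∈ D)) →
      ∑ a ∈ D, 5 ^ (2 * dg {e, f, g} a + if dg {e, f, g} a < dg R a then 1 else 0) =
      ∑ t, (if i t then 5 ^ (2 * (t.1.toNat + (t.2.1.toNat + t.2.2.1.toNat)) + t.2.2.2.toNat)
        else 0) * n t := fun D i a1 a2 => key D _ _ a1 fun a _ => by
    have b := dS a
    rw [a2]
    generalize dg {e, f, g} a = j at b ⊢
    by_cases w : j < dg R a <;> simp only [w, if_true, if_false, decide_true, decide_false] <;>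
    by_cases x : a ∈ e <;> by_cases y : a ∈ f <;> by_cases z : a ∈ g <;> simp [b, x, y, z]
  rw [kq e (fun t => t.1) s1 fun _ _ => rfl, kq f (fun t => t.2.1) s2 fun _ _ => rfl,
    kq g (fun t => t.2.2.1) s3 fun _ _ => rfl]
  rw [← card_eq_sum_ones] at k1 k2 k3 k4 k5 k6 k8
  rw [k7] at hc
  simp only [Fintype.sum_prod_type, Fintype.sum_bool] at k0 k1 k2 k3 k4 k5 k6 k8 hc ⊢
  simp at k0 k1 k2 k3 k4 k5 k6 hc ⊢
  have h6 : (e ∩ f).card = 2 → (V.filter fun a => ¬ (a ∈ e \ f ∪ f \ e ↔ a ∈ g)).card ≠ 0 :=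
    fun a b => hR.no6 e he f hf a (by
      rw [card_eq_zero, filter_eq_empty_iff] at b
      have c : e \ f ∪ f \ e = g := Finset.ext fun v => by
        by_cases d : v ∈ V
        · exact not_not.1 (b d)
        · have := hV v
          simp only [mem_union, mem_sdiff]
          tauto
      rwa [c])
  rw [k8] at h6
  simp at h6
  have q := chkQ_ok h (t := n (true, true, true, false)) (t' := n (true, true, true, true))
    (x := n (true, true, false, false)) (x' := n (true, true, false, true))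
    (y := n (true, false, true, false)) (y' := n (true, false, true, true))
    (z := n (false, true, true, false)) (z' := n (false, true, true, true))
    (a := n (true, false, false, true)) (b := n (false, true, false, true))
    (c := n (false, false, true, true)) (by omega) (by omega) (by omega) (by omega) (by omega)
    (by omega) (by omega) (by omega) (by omega) (by omega) (by omega)
  unfold cq at q
  clear k7 k8
  refine q.trans (le_of_eq (congrArg₂ (· + ·) (congrArg₂ (· + ·) (congrArg _ ?_) (congrArg _ ?_))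
    (congrArg _ ?_))) <;> omega

end Pool.Agent.P.MP_b2082d_co.Gen
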