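import Pool.Agent.P.MP_b2082d_co.G.T0Spec

/-! The income of an edge from the moves that keep it. -/

namespace Pool.Agent.P.MP_b2082d_co.Gen
open Finset

namespace TW
variable {N : Num} {R : Hg} {e : Finset ℕ} {x : ℕ}

theorem mem_rs {f : Finset ℕ} : f ∈ res R {x} ↔ f ∈ R ∧ x ∉ f := by simp [mem_res]

theorem mem_mv : x ∈ mv R e ↔ x ∈ vs R ∧ x ∉ e ∧ 3 ≤ dg R x := mem_filter

/-- the edges through `x` with the trace `A`. -/
def lost (R : Hg) (e A : Finset ℕ) (x : ℕ) : Hg := (R.filter fun f => f ∩ e = A).filter (x ∈ ·)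

theorem nt_res (A : Finset ℕ) : nt R e A = nt (res R {x}) e A + (lost R e A x).card := by
  rw [nt, ← card_filter_add_card_filter_not (s := R.filter fun f => f ∩ e = A) (x ∈ ·), add_comm]
  congr 2
  ext f
  simp only [mem_filter, mem_rs]
  tauto

theorem sub (A : Finset ℕ) : nt (res R {x}) e A ≤ nt R e A :=
  (Nat.le_add_right _ _).trans (nt_res A).ge

theorem near (hR : C0 R) (hx : x ∉ e) {u v : ℕ} (h : u ≠ v) :
    nt R e {u, v} ≤ nt (res R {x}) e {u, v} + 1 := by
  rw [nt_res (x := x)]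
  refine Nat.add_le_add_left (card_le_one.2 fun f hf g hg => ?_) _
  simp only [lost, mem_filter] at hf hg
  by_contra c
  have h1 := hR.co2 f hf.1.1 g hg.1.1 c
  have h2 : {u, v} ⊆ e := hf.1.2 ▸ inter_subset_right
  have h3 : insert x {u, v} ⊆ f ∩ g := insert_subset (mem_inter.2 ⟨hf.2, hg.2⟩)
    (subset_inter (hf.1.2 ▸ inter_subset_left) (hg.1.2 ▸ inter_subset_left))
  have h4 := card_le_card h3
  rw [card_insert_of_notMem fun a => hx (h2 a), card_pair h] at h4
  omega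

theorem sum_nt (hR : C0 R) (A : Finset ℕ) {j : ℕ} (hj : A.card + j = 4) :
    ∑ x ∈ mv R e, ((nt R e A : ℤ) - nt (res R {x}) e A) ≤ j * nt R e A := by
  have h1 : ∑ x ∈ mv R e, ((nt R e A : ℤ) - nt (res R {x}) e A) =
      ((∑ x ∈ mv R e, (lost R e A x).card : ℕ) : ℤ) := by
    rw [Nat.cast_sum]
    refine sum_congr rfl fun x _ => ?_
    rw [nt_res (x := x) A]
    push_cast
    ring
  rw [h1]
  norm_cast
  simp only [lost, card_filter (fun f : Finset ℕ => _ ∈ f)]
  rw [sum_comm, nt, mul_comm, ← smul_eq_mul]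
  refine sum_le_card_nsmul _ _ _ fun f hf => ?_
  rw [mem_filter] at hf
  rw [← card_filter]
  have h2 : ((mv R e).filter (· ∈ f)).card ≤ (f \ e).card := card_le_card fun y hy => by
    rw [mem_filter] at hy
    exact mem_sdiff.2 ⟨hy.2, (mem_mv.1 hy.1).2.1⟩
  have h3 := card_sdiff_add_card_inter f e
  rw [hf.2, hR.cls.unif f hf.1] at h3
  omega

theorem adj_le : adj R e ≤ adj (res R {x}) e + dg R x := by
  refine (card_le_card fun f hf => ?_).trans (card_union_le _ _)
  simp only [mem_filter, mem_erase, mem_union, mem_rs, mem_star] at hf ⊢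
  tauto

theorem kil_iff (he : e ∈ R) (hx : x ∉ e) {a : ℕ} (ha : a ∈ e) :
    dg (res R {x}) a = 1 ↔ ∀ f ∈ star R a, f ≠ e → x ∈ f := by
  constructor
  · intro h f hf c
    by_contra d
    exact c (deg_one h (mem_rs.2 ⟨(mem_star.1 hf).1, d⟩) (mem_rs.2 ⟨he, hx⟩) (mem_star.1 hf).2 ha)
  · intro h
    refine card_eq_one.2 ⟨e, eq_singleton_iff_unique_mem.2
      ⟨mem_star.2 ⟨mem_rs.2 ⟨he, hx⟩, ha⟩, fun f hf => ?_⟩⟩
    by_contra c
    rw [mem_star, mem_rs] at hf
    exact hf.1.2 (h f (mem_star.2 ⟨hf.1.1, hf.2⟩) c)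

theorem kp_eq (he : e ∈ R) {a : ℕ} (ha : a ∈ e) (p : ℕ → ℕ → ℤ) (i : ℕ) :
    kp R e p i a = ∑ x ∈ mv R e,
      if 2 ≤ dg R a ∧ dg (res R {x}) a = 1 then p (dg R x) i else 0 := by
  unfold kp
  split_ifs with h
  · rw [kil, sum_filter]
    refine sum_congr rfl fun x hx => ?_
    simp only [h, true_and, kil_iff he (mem_mv.1 hx).2.1 ha]
  · simp [h]

theorem sum_ps (Q : Hg) : ∑ v ∈ e, ps N Q e v = ((lvs Q e).card * psi N Q e : ℕ) := by
  unfold ps
  rw [← sum_filter, sum_const]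
  simp [lvs]

theorem sum_iota : ∑ v ∈ e, iota N R e v = 3 * ∑ x ∈ mv R e,
    ((((lvs (res R {x}) e).card * psi N (res R {x}) e : ℕ) : ℤ) -
      ((lvs R e).card * psi N R e : ℕ)) := by
  unfold iota
  rw [← mul_sum, sum_comm]
  simp only [sum_sub_distrib, sum_ps]

end TW
open TW

theorem s_W {N : Num} (hL : S_loc N) : S_W N := by
  intro R hR e he a b c d hb w p hD
  have ma : a ∈ e := by simp [hb.eq]
  have mb : b ∈ e := by simp [hb.eq]
  have mc : c ∈ e := by simp [hb.eq]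
  have md : d ∈ e := by simp [hb.eq]
  obtain ⟨⟨a0, a1, a2, a3⟩, -, a4, -, a5, a6⟩ := hL R hR e he a b c d hb _ rfl
  rw [kp_eq he ma, kp_eq he mb, kp_eq he mc, kp_eq he md, sum_iota, ← sum_add_distrib,
    ← sum_add_distrib, ← sum_add_distrib]
  have h1 : ∀ x ∈ mv R e, (if 2 ≤ dg R a ∧ dg (res R {x}) a = 1 then p (dg R x) 0 else 0) +
      (if 2 ≤ dg R b ∧ dg (res R {x}) b = 1 then p (dg R x) 1 else 0) +
      (if 2 ≤ dg R c ∧ dg (res R {x}) c = 1 then p (dg R x) 2 else 0) +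
      (if 2 ≤ dg R d ∧ dg (res R {x}) d = 1 then p (dg R x) 3 else 0) ≤
      ((((lvs (res R {x}) e).card * psi N (res R {x}) e : ℕ) : ℤ) -
        ((lvs R e).card * psi N R e : ℕ)) + (((ten R e a b c d).dot w : ℤ) -
          (ten (res R {x}) e a b c d).dot w) := fun x hx => by
    obtain ⟨-, x1, x2⟩ := mem_mv.1 hx
    obtain ⟨⟨b0, b1, b2, b3⟩, -, b4, -, b5, b6⟩ := hL _ (St.c0_sub hR (res_subset R {x})) e
      (mem_rs.2 ⟨he, x1⟩) a b c d hb _ rfl
    have x3 : dg R x ≤ 4 := hR.cls.deg x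
    have h := hD (ten (res R {x}) e a b c d) (dg R x) (by omega)
      ⟨sub _, sub _, sub _, sub _, sub _, sub _, sub _, sub _, sub _, sub _⟩
      ⟨near hR x1 hb.ab, near hR x1 hb.ac, near hR x1 hb.ad, near hR x1 hb.bc, near hR x1 hb.bd,
        near hR x1 hb.cd⟩ (a6 ▸ b6 ▸ adj_le)
    rw [a0, a1, a2, a3, b0, b1, b2, b3, a4, a5, b4, b5]
    unfold Ten.Phi at h
    linarith
  have h2 := sum_le_sum h1
  rw [sum_add_distrib (f := fun x => (((lvs (res R {x}) e).card * psi N (res R {x}) e : ℕ) : ℤ) -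
    ((lvs R e).card * psi N R e : ℕ))] at h2
  have k1 : ∀ (u : ℕ) (t : ℕ), ∑ x ∈ mv R e, (t : ℤ) * ((nt R e {u} : ℤ) - nt (res R {x}) e {u}) ≤
      t * (3 * nt R e {u}) := fun u t => by
    rw [← mul_sum]
    exact mul_le_mul_of_nonneg_left (sum_nt hR {u} (j := 3) (by simp)) (Int.natCast_nonneg t)
  have k2 : ∀ {u v : ℕ}, u ≠ v → ∀ t : ℕ,
      ∑ x ∈ mv R e, (t : ℤ) * ((nt R e {u, v} : ℤ) - nt (res R {x}) e {u, v}) ≤
      t * (2 * nt R e {u, v}) := fun h t => by
    rw [← mul_sum]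
    exact mul_le_mul_of_nonneg_left (sum_nt hR _ (j := 2) (by rw [card_pair h]))
      (Int.natCast_nonneg t)
  have h3 : ∑ x ∈ mv R e, (((ten R e a b c d).dot w : ℤ) - (ten (res R {x}) e a b c d).dot w) ≤
      (ten R e a b c d).pen w := by
    have s := add_le_add (add_le_add (add_le_add (add_le_add (add_le_add (add_le_add (add_le_add
      (add_le_add (add_le_add (k1 a w.s0) (k1 b w.s1)) (k1 c w.s2)) (k1 d w.s3)) (k2 hb.ab w.r01))
      (k2 hb.ac w.r02)) (k2 hb.ad w.r03)) (k2 hb.bc w.r12)) (k2 hb.bd w.r13)) (k2 hb.cd w.r23)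
    simp only [← sum_add_distrib] at s
    refine le_trans (le_of_eq (sum_congr rfl fun x _ => ?_)) (s.trans (le_of_eq ?_))
    · simp only [Ten.dot, ten]
      push_cast
      ring
    · simp only [Ten.pen, ten]
      push_cast
      ring
  linarith

theorem s_kil : S_kil := by
  intro R hR e he a ha h
  have ea : e ∈ star R a := mem_star.2 ⟨he, ha⟩
  have k : ∀ x ∈ kil R e a, x ∉ e ∧ ∀ f ∈ (star R a).erase e, x ∈ f := fun x hx => by
    rw [kil, mem_filter] at hx
    exact ⟨(mem_mv.1 hx.1).2.1, fun f hf => hx.2 f (mem_erase.1 hf).2 (mem_erase.1 hf).1⟩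
  have c := card_erase_of_mem ea
  split_ifs with h2
  · obtain ⟨f, hf⟩ := card_eq_one.1 (show ((star R a).erase e).card = 1 by
      rw [c]; unfold dg at h2; omega)
    have f1 : f ∈ (star R a).erase e := hf ▸ mem_singleton_self f
    have f2 := mem_star.1 (mem_erase.1 f1).2
    have h3 : (kil R e a).card ≤ (f \ e).card :=
      card_le_card fun x hx => mem_sdiff.2 ⟨(k x hx).2 f f1, (k x hx).1⟩
    have h4 := card_sdiff_add_card_inter f e
    rw [hR.cls.unif f f2.1] at h4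
    have h5 : sig0 R e a = ∑ b ∈ e.erase a, (1 + if b ∈ f then 1 else 0) :=
      sum_congr rfl fun b hb => by
        rw [co, ← insert_erase ea, hf, star, filter_insert, if_pos (mem_of_mem_erase hb),
          card_insert_of_notMem fun y => (mem_erase.1 f1).1 (by simpa using (mem_filter.1 y).1 : e = f).symm,
          add_comm, filter_singleton]
        split_ifs <;> rfl
    rw [sum_add_distrib, ← card_filter, sum_const, card_erase_of_mem ha, hR.cls.unif e he] at h5
    have h6 : (e.erase a).filter (· ∈ f) = (f ∩ e).erase a := by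
      ext y
      simp only [mem_filter, mem_erase, mem_inter]
      tauto
    have h7 : a ∈ f ∩ e := mem_inter.2 ⟨f2.2, ha⟩
    have h8 := card_pos.2 ⟨a, h7⟩
    rw [h6, card_erase_of_mem h7, smul_eq_mul] at h5
    omega
  · obtain ⟨f, f1, g, g1, fg⟩ := one_lt_card.1 (show 1 < ((star R a).erase e).card by
      rw [c]; unfold dg at h h2; omega)
    have f2 := mem_star.1 (mem_erase.1 f1).2
    have g2 := mem_star.1 (mem_erase.1 g1).2
    have h3 : (kil R e a).card ≤ ((f ∩ g).erase a).card := card_le_card fun x hx =>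
      mem_erase.2 ⟨fun y => (k x hx).1 (y ▸ ha), mem_inter.2 ⟨(k x hx).2 f f1, (k x hx).2 g g1⟩⟩
    rw [card_erase_of_mem (mem_inter.2 ⟨f2.2, g2.2⟩)] at h3
    have := hR.co2 f f2.1 g g2.1 fg
    omega

end Pool.Agent.P.MP_b2082d_co.Gen
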