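import Pool.Agent.P.MP_b2082d_co.G.Fin0
import Pool.Agent.P.MP_b2082d_co.G.T0Core
import Pool.Agent.P.MP_b2082d_co.G.T0Bud
import Pool.Agent.P.MP_b2082d_co.G.T0Loc
import Pool.Agent.P.MP_b2082d_co.G.T0W
import Pool.Agent.P.MP_b2082d_co.G.T0Edge
import Pool.Agent.P.MP_b2082d_co.G.T0Set
import Pool.Agent.P.MP_b2082d_co.G.T0VtxC

/-! Everything except the arithmetic of the edge rows. -/

namespace Pool.Agent.P.MP_b2082d_co.Gen

theorem chkQ0 : chkQ tb0.Q = true := by decide +kernel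

theorem s_main_of_ten (h : S_ten num tb0) : S_Main :=
  s_main_of_core (t0core tb0_ok (s_bud (by decide))
    (s_leaf (by decide) (by decide) (by decide) (by decide)) (fun _ _ _ => iota_nonneg) s_vtx0
    (s_edge (s_loc num) (s_W (s_loc num)) s_kil h) (s_set chkQ0) s_os)

end Pool.Agent.P.MP_b2082d_co.Gen
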