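import Pool.Agent.P.MP_b2082d_co.G.Fin1
import Pool.Agent.P.MP_b2082d_co.G.T0TenC

/-! The weighted statement for all systems. -/

namespace Pool.Agent.P.MP_b2082d_co.Gen

theorem s_main : S_Main := s_main_of_ten (Tn.s_ten0 : S_ten num tb0)

end Pool.Agent.P.MP_b2082d_co.Gen
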