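import Pool.Agent.P.MP_b2082d_co.G.Base
import Pool.Agent.P.MP_b2082d_co.L.Final

/-! Reduction of the general bound to twelve-coloured set systems. -/

namespace Pool.Agent.P.MP_b2082d_co.Gen
open Finset

section
variable {V ι : Type} [Fintype V] [DecidableEq V]

theorem sum_family (F : Multiset (Finset V)) (w : V → ℝ) :
    (F.map fun T => ∑ v ∈ T, w v).sum = ∑ v, w v * (F.countP fun T => v ∈ T : ℕ) := by
  induction F using Multiset.induction_on with
  | empty => simp
  | cons T F ih =>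
    simp only [Multiset.map_cons, Multiset.sum_cons, ih, Multiset.countP_cons, Nat.cast_add,
      mul_add, sum_add_distrib, Nat.cast_ite, Nat.cast_one, Nat.cast_zero, mul_ite, mul_one,
      mul_zero]
    rw [← sum_filter, filter_mem_eq_inter, univ_inter, add_comm]

theorem weighted_of_FDT (E : ι → Finset V) {c : ℝ} (hc : 0 < c) (h : 1 / c ≤ FDT E) (w : V → ℝ)
    (hw : ∀ v, 0 ≤ w v) : ∃ T, IsTransversal E T ∧ ∑ v ∈ T, w v ≤ c * ∑ v, w v := by
  classical
  unfold FDT at h
  generalize hS : {x : ℝ | ∃ F : Multiset (Finset V), F ≠ 0 ∧ (∀ T ∈ F, IsTransversal E T) ∧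
    x = (Multiset.card F : ℝ) / (maxMult F : ℝ)} = S at h
  have hne : S.Nonempty := by
    by_contra a
    rw [Set.not_nonempty_iff_eq_empty.1 a, Real.sSup_empty] at h
    exact absurd h (not_le.2 (one_div_pos.2 hc))
  obtain ⟨_, F0, a1, a2, -⟩ := hS ▸ hne
  obtain ⟨T0, a3⟩ := Multiset.exists_mem_of_ne_zero a1
  obtain ⟨T, t1, t2⟩ := exists_min_image (univ.filter fun T : Finset V => IsTransversal E T)
    (fun T => ∑ v ∈ T, w v) ⟨T0, mem_filter.2 ⟨mem_univ _, a2 T0 a3⟩⟩
  refine ⟨T, (mem_filter.1 t1).2, le_of_not_gt fun hlt => ?_⟩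
  have W0 : 0 ≤ ∑ v, w v := sum_nonneg fun v _ => hw v
  have p0 : 0 < ∑ v ∈ T, w v := (mul_nonneg hc.le W0).trans_lt hlt
  have h1 : (∑ v, w v) / ∑ v ∈ T, w v < 1 / c := by
    rw [div_lt_div_iff₀ p0 hc]
    linarith
  obtain ⟨x, hx, h2⟩ := exists_lt_of_lt_csSup hne (h1.trans_le h)
  obtain ⟨F, -, b2, rfl⟩ := hS ▸ hx
  have h3 := Multiset.card_nsmul_le_sum (s := F.map fun T => ∑ v ∈ T, w v) (a := ∑ v ∈ T, w v)
    fun x hx => by
      obtain ⟨U, u1, rfl⟩ := Multiset.mem_map.1 hx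
      exact t2 U (mem_filter.2 ⟨mem_univ _, b2 U u1⟩)
  rw [sum_family, Multiset.card_map, nsmul_eq_mul] at h3
  have h4 := sum_le_sum fun v (_ : v ∈ univ) => mul_le_mul_of_nonneg_left
    (Nat.cast_le (α := ℝ).2 (countP_le_maxMult F v)) (hw v)
  rw [← sum_mul] at h4
  rcases Nat.eq_zero_or_pos (maxMult F) with m | m
  · rw [m, Nat.cast_zero, div_zero] at h2
    exact absurd h2 (not_lt.2 (div_nonneg W0 p0.le))
  · rw [div_lt_div_iff₀ p0 (Nat.cast_pos.2 m)] at h2
    linarith

variable [Fintype ι]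

/-- the neighbours of a vertex. -/
def nbr (E : ι → Finset V) (x : V) : Finset V :=
  (univ.filter fun i => x ∈ E i).biUnion fun i => (E i).erase x

omit [Fintype V] in
theorem mem_nbr {E : ι → Finset V} {x v : V} : v ∈ nbr E x ↔ ∃ i, x ∈ E i ∧ v ≠ x ∧ v ∈ E i := by
  simp [nbr]

theorem core (E : ι → Finset V) (A : Finset V) : ∃ L ⊆ A, (∀ v ∈ L, 12 ≤ (nbr E v ∩ L).card) ∧
    ∃ χ : V → Fin 12, ∀ i, ∀ u ∈ E i, ∀ v ∈ E i, u ∈ A \ L → v ∈ A \ L → χ u = χ v → u = v := by
  induction A using Finset.strongInduction with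
  | H A ih =>
    by_cases h : ∀ v ∈ A, 12 ≤ (nbr E v ∩ A).card
    · exact ⟨A, subset_rfl, h, fun _ => 0, by simp⟩
    · push Not at h
      obtain ⟨x, hx, h1⟩ := h
      obtain ⟨L, l1, l2, χ, hχ⟩ := ih (A.erase x) (erase_ssubset hx)
      have h2 : ((nbr E x ∩ A).image χ).card < (univ : Finset (Fin 12)).card :=
        card_image_le.trans_lt (by simpa using h1)
      obtain ⟨c, -, hc⟩ := exists_mem_notMem_of_card_lt_card h2
      have h3 : ∀ i, x ∈ E i → ∀ v ∈ E i, v ≠ x → v ∈ A \ L → χ v ≠ c := fun i hi v hv hne a e =>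
        hc (mem_image.2 ⟨v, mem_inter.2 ⟨mem_nbr.2 ⟨i, hi, hne, hv⟩, (mem_sdiff.1 a).1⟩, e⟩)
      refine ⟨L, l1.trans (erase_subset _ _), l2, Function.update χ x c,
        fun i u hu v hv hu' hv' e => ?_⟩
      by_cases a : u = x <;> by_cases b : v = x
      · rw [a, b]
      · rw [a, Function.update_self, Function.update_of_ne b] at e
        exact absurd e.symm (h3 i (a ▸ hu) v hv b hv')
      · rw [b, Function.update_self, Function.update_of_ne a] at e
        exact absurd e (h3 i (b ▸ hv) u hu a hu')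
      · rw [Function.update_of_ne a, Function.update_of_ne b] at e
        exact hχ i u hu v hv
          (mem_sdiff.2 ⟨mem_erase.2 ⟨a, (mem_sdiff.1 hu').1⟩, (mem_sdiff.1 hu').2⟩)
          (mem_sdiff.2 ⟨mem_erase.2 ⟨b, (mem_sdiff.1 hv').1⟩, (mem_sdiff.1 hv').2⟩) e

omit [Fintype V] in
theorem nbr_full [DecidableEq ι] {E : ι → Finset V} (hu : ∀ i, (E i).card = 4)
    (hr : ∀ v, (univ.filter fun i => v ∈ E i).card = 4) {L : Finset V} {x : V}
    (h : 12 ≤ (nbr E x ∩ L).card) : (∀ i, x ∈ E i → (E i).erase x ⊆ L) ∧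
      ∀ i j, i ≠ j → x ∈ E i → x ∈ E j → Disjoint ((E i).erase x) ((E j).erase x) := by
  have h1 : ∑ i ∈ univ.filter fun i => x ∈ E i, ((E i).erase x).card = 12 := by
    rw [sum_congr rfl (g := fun _ => 3) fun i hi => by
      rw [card_erase_of_mem (mem_filter.1 hi).2, hu], sum_const, hr]
    rfl
  have h2 : (nbr E x).card ≤ 12 := h1 ▸ card_biUnion_le
  have h3 : nbr E x ∩ L = nbr E x := eq_of_subset_of_card_le inter_subset_left (h2.trans h)
  refine ⟨fun i hi v hv => inter_eq_left.1 h3 (mem_nbr.2 ⟨i, hi, mem_erase.1 hv⟩), ?_⟩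
  intro i j hij hi hj
  refine disjoint_left.2 fun y a b => ?_
  have h4 : nbr E x ⊆ ((E i).erase x).erase y ∪
      ((univ.filter fun i => x ∈ E i).erase i).biUnion fun i => (E i).erase x := fun v hv => by
    obtain ⟨k, k1, k2⟩ := mem_nbr.1 hv
    by_cases c : v = y
    · exact mem_union_right _ (mem_biUnion.2 ⟨j, by simp [hij.symm, hj], c ▸ b⟩)
    · by_cases d : k = i
      · exact mem_union_left _ (mem_erase.2 ⟨c, mem_erase.2 (d ▸ k2)⟩)
      · exact mem_union_right _ (mem_biUnion.2 ⟨k, by simp [d, k1], mem_erase.2 k2⟩)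
  have h5 := (card_le_card h4).trans ((card_union_le _ _).trans (add_le_add le_rfl card_biUnion_le))
  rw [sum_congr rfl (g := fun _ => 3) fun i hi => by
    rw [card_erase_of_mem (mem_filter.1 (mem_of_mem_erase hi)).2, hu], sum_const,
    card_erase_of_mem a, card_erase_of_mem hi, hu, card_erase_of_mem (by simpa using hi), hr] at h5
  rw [h3] at h
  simp at h5
  omega

omit [Fintype V] in
/-- the part of the hypergraph in which all vertices have twelve neighbours. -/
theorem linear_part {E : ι → Finset V} (hu : ∀ i, (E i).card = 4)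
    (hr : ∀ v, (univ.filter fun i => v ∈ E i).card = 4) {L : Finset V}
    (h : ∀ v ∈ L, 12 ≤ (nbr E v ∩ L).card) (w : V → ℝ) (hw : ∀ v, 0 ≤ w v) :
    ∃ T : Finset V, (∀ i, E i ⊆ L → (T ∩ E i).Nonempty) ∧ ∑ v ∈ T, w v ≤ 3 / 7 * ∑ v ∈ L, w v := by
  classical
  by_cases hne : Nonempty {i // E i ⊆ L}
  · have h1 : ∀ v ∈ L, ∀ i, v ∈ E i → E i ⊆ L := fun v hv i hi u hu' => by
      by_cases a : u = v
      · exact a ▸ hv
      · exact (nbr_full hu hr (h v hv)).1 i hi (mem_erase.2 ⟨a, hu'⟩)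
    have h2 := Lin.linear_bound (V := L) (ι := {i // E i ⊆ L}) (fun i => (E i).subtype (· ∈ L))
      (fun i => by rw [card_subtype, filter_mem_eq_inter, inter_eq_left.2 i.2, hu])
      (fun v => by
        rw [← hr v]
        exact card_bij (fun i _ => i.1) (fun i hi => by simpa using hi)
          (fun i _ j _ e => Subtype.ext e) fun i hi =>
            ⟨⟨i, h1 v v.2 i (by simpa using hi)⟩, by simpa using hi, rfl⟩)
      fun i j hij => card_le_one.2 fun a ha b hb => by
        simp only [mem_inter, mem_subtype] at ha hb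
        by_contra c
        have d : (b : V) ≠ a := fun e => c (Subtype.ext e.symm)
        exact disjoint_left.1 ((nbr_full hu hr (h a a.2)).2 i j (fun e => hij (Subtype.ext e))
          ha.1 ha.2) (mem_erase.2 ⟨d, hb.1⟩) (mem_erase.2 ⟨d, hb.2⟩)
    obtain ⟨T, t1, t2⟩ := weighted_of_FDT _ (c := 3 / 7) (by norm_num) (by norm_num; exact h2)
      (fun v : L => w v) fun v => hw v
    refine ⟨T.map (Function.Embedding.subtype _), fun i hi => ?_, ?_⟩
    · obtain ⟨v, hv⟩ := t1 ⟨i, hi⟩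
      simp only [mem_inter, mem_subtype] at hv
      exact ⟨v, mem_inter.2 ⟨mem_map_of_mem _ hv.1, hv.2⟩⟩
    · rw [sum_map, ← sum_coe_sort L]
      exact t2
  · exact ⟨∅, fun i hi => absurd ⟨⟨i, hi⟩⟩ hne, by
      simpa using sum_nonneg fun v (_ : v ∈ L) => hw v⟩

/-- four-uniform with maximum degree at most four. -/
structure Cls (R : Hg) : Prop where
  unif : ∀ e ∈ R, e.card = 4
  deg : ∀ v, (R.filter fun e => v ∈ e).card ≤ 4

/-- the statement for properly twelve-coloured systems. -/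
def S_Main : Prop := ∀ R : Hg, Cls R → ∀ χ : ℕ → Fin 12,
  (∀ e ∈ R, ∀ u ∈ e, ∀ v ∈ e, χ u = χ v → u = v) → Good R fun _ => 3 / 7

theorem general_bound (hM : S_Main) [Nonempty ι] (E : ι → Finset V) (hu : ∀ i, (E i).card = 4)
    (hr : ∀ v, (univ.filter fun i => v ∈ E i).card = 4) : (7 / 3 : ℝ) ≤ FDT E := by
  classical
  have key := Lin.p_Dual V ι E (3 / 7) (by norm_num) ?_
  · norm_num at key; exact key
  intro w hw
  obtain ⟨L, -, l1, χ, hχ⟩ := core E univ
  obtain ⟨T, t1, t2⟩ := linear_part hu hr l1 w hw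
  have h1 : ∀ i, ¬ E i ⊆ L → ∀ v ∈ E i, v ∈ univ \ L := fun i hi v hv =>
    mem_sdiff.2 ⟨mem_univ _, fun a => hi fun u hu' => by
      by_cases b : u = v
      · exact b ▸ a
      · exact (nbr_full hu hr (l1 v a)).1 i hv (mem_erase.2 ⟨b, hu'⟩)⟩
  obtain ⟨n, hn⟩ := exists_injective_nat V
  obtain ⟨U, u1, u2⟩ := hM ((univ.filter fun i => ¬ E i ⊆ L).image fun i => (E i).image n)
    ⟨fun e he => by
      obtain ⟨i, -, rfl⟩ := mem_image.1 he
      rw [card_image_of_injective _ hn, hu], fun v => by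
      rw [filter_image]
      refine card_image_le.trans ?_
      by_cases a : ∃ x, n x = v
      · obtain ⟨x, rfl⟩ := a
        exact (card_le_card fun i hi => by
          simpa [hn.eq_iff] using (mem_filter.1 hi).2).trans (hr x).le
      · rw [filter_eq_empty_iff.2 fun i _ b => by
          obtain ⟨x, -, c⟩ := mem_image.1 b
          exact a ⟨x, c⟩]
        simp⟩ (Function.extend n χ fun _ => 0) (fun e he u hu' v hv a => by
      obtain ⟨i, hi, rfl⟩ := mem_image.1 he
      obtain ⟨x, hx, rfl⟩ := mem_image.1 hu'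
      obtain ⟨y, hy, rfl⟩ := mem_image.1 hv
      rw [hn.extend_apply, hn.extend_apply] at a
      rw [hχ i x hx y hy (h1 i (mem_filter.1 hi).2 x hx) (h1 i (mem_filter.1 hi).2 y hy) a])
    (Function.extend n w fun _ => 0) fun v => by
      by_cases a : ∃ x, n x = v
      · obtain ⟨x, rfl⟩ := a
        rw [hn.extend_apply]
        exact hw x
      · rw [Function.extend_apply' _ _ _ a]
  have w0 : ∀ v, 0 ≤ Function.extend n w (fun _ => (0 : ℝ)) v := fun v => by
    by_cases a : ∃ x, n x = v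
    · obtain ⟨x, rfl⟩ := a
      rw [hn.extend_apply]
      exact hw x
    · rw [Function.extend_apply' _ _ _ a]
  have h2 : ∀ X : Finset V, ∑ v ∈ X.image n, Function.extend n w (fun _ => (0 : ℝ)) v =
      ∑ v ∈ X, w v := fun X => by
    rw [sum_image fun x _ y _ e => hn e]
    exact sum_congr rfl fun x _ => hn.extend_apply _ _ _
  refine ⟨T ∪ univ.filter fun v => n v ∈ U, fun i => ?_, ?_⟩
  · by_cases a : E i ⊆ L
    · exact (t1 i a).mono (inter_subset_inter_right subset_union_left)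
    · obtain ⟨y, hy⟩ := u1 _ (mem_image.2 ⟨i, mem_filter.2 ⟨mem_univ _, a⟩, rfl⟩)
      obtain ⟨x, hx, rfl⟩ := mem_image.1 (mem_inter.1 hy).2
      exact ⟨x, mem_inter.2 ⟨mem_union_right _ (by simpa using (mem_inter.1 hy).1), hx⟩⟩
  · have h3 := sum_mono w0 (T := (univ.filter fun v => n v ∈ U).image n) (U := U) fun y hy => by
      obtain ⟨x, hx, rfl⟩ := mem_image.1 hy
      exact (mem_filter.1 hx).2
    have h4 := sum_mono w0 (U := (univ \ L).image n)
      (T := vs ((univ.filter fun i => ¬ E i ⊆ L).image fun i => (E i).image n)) fun y hy => by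
      obtain ⟨e, he, hy⟩ := mem_vs.1 hy
      obtain ⟨i, hi, rfl⟩ := mem_image.1 he
      obtain ⟨x, hx, rfl⟩ := mem_image.1 hy
      exact mem_image_of_mem _ (h1 i (mem_filter.1 hi).2 x hx)
    rw [h2] at h3 h4
    rw [← sum_mul] at u2
    have h5 := sum_sdiff (f := w) (subset_univ L)
    have h6 := sum_union_inter (s₁ := T) (s₂ := univ.filter fun v => n v ∈ U) (f := w)
    have h7 : 0 ≤ ∑ v ∈ T ∩ univ.filter fun v => n v ∈ U, w v := sum_nonneg fun v _ => hw v
    linarith

end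

end Pool.Agent.P.MP_b2082d_co.Gen
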