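import Pool.Agent.P.MP_b2082d_co.G.Ext
import Pool.Agent.P.MP_b2082d_co.G.Top

/-! Stars, leaf pools, and merging the edges through a common triple. -/

namespace Pool.Agent.P.MP_b2082d_co.Gen
open Finset

/-- the edges through a vertex. -/
def star (R : Hg) (v : ℕ) : Hg := R.filter fun e => v ∈ e

/-- the vertices of `e` that lie in exactly one edge. -/
def lvs (R : Hg) (e : Finset ℕ) : Finset ℕ := e.filter fun u => (star R u).card = 1

theorem mem_star {R : Hg} {v : ℕ} {e : Finset ℕ} : e ∈ star R v ↔ e ∈ R ∧ v ∈ e := mem_filter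

theorem mem_lvs {R : Hg} {v : ℕ} {e : Finset ℕ} : v ∈ lvs R e ↔ v ∈ e ∧ (star R v).card = 1 :=
  mem_filter

theorem deg_one {R : Hg} {v : ℕ} (h : (star R v).card = 1) {e f : Finset ℕ} (he : e ∈ R)
    (hf : f ∈ R) (a : v ∈ e) (b : v ∈ f) : e = f :=
  card_le_one.1 h.le e (mem_star.2 ⟨he, a⟩) f (mem_star.2 ⟨hf, b⟩)

theorem star_one {R : Hg} {v : ℕ} (h : (star R v).card = 1) {e : Finset ℕ} (he : e ∈ R)
    (a : v ∈ e) : star R v = {e} :=
  eq_singleton_iff_unique_mem.2 ⟨mem_star.2 ⟨he, a⟩, fun _ hf =>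
    deg_one h (mem_star.1 hf).1 he (mem_star.1 hf).2 a⟩

/-- the prices of the leaves can be redistributed in every edge at once. -/
theorem good_pools {R : Hg} {p q : ℕ → ℝ} (hR : Good R q)
    (h0 : ∀ v ∈ vs R, (star R v).card = 1 → 0 ≤ p v)
    (h1 : ∀ e ∈ R, ∑ v ∈ lvs R e, q v ≤ ∑ v ∈ lvs R e, p v)
    (h2 : ∀ v ∈ vs R, (star R v).card ≠ 1 → q v ≤ p v) : Good R p := by
  have key : ∀ A : Hg, A ⊆ R → Good R fun v => if v ∈ A.biUnion (lvs R) then p v else q v := by
    intro A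
    induction A using Finset.induction_on with
    | empty => exact fun _ => by simpa using hR
    | insert e A he ih =>
      intro hA
      have e1 : e ∈ R := hA (mem_insert_self _ _)
      have e2 : lvs R e ⊆ vs R := fun v hv => mem_vs.2 ⟨e, e1, (mem_lvs.1 hv).1⟩
      have e3 : ∀ v ∈ lvs R e, v ∈ (insert e A).biUnion (lvs R) := fun v hv =>
        mem_biUnion.2 ⟨e, mem_insert_self _ _, hv⟩
      refine good_pool (ih ((subset_insert _ _).trans hA)) e2 (fun u hu v hv f hf a => ?_)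
        (fun v hv => ?_) ?_ fun v _ hv => ?_
      · exact deg_one (mem_lvs.1 hu).2 e1 hf (mem_lvs.1 hu).1 a ▸ (mem_lvs.1 hv).1
      · rw [if_pos (e3 v hv)]
        exact h0 v (e2 hv) (mem_lvs.1 hv).2
      · rw [sum_congr rfl fun v hv => if_pos (e3 v hv), sum_congr rfl fun v hv => if_neg ?_]
        · exact h1 e e1
        · intro a
          obtain ⟨f, f1, f2⟩ := mem_biUnion.1 a
          exact he (deg_one (mem_lvs.1 hv).2 e1 (hA (mem_insert_of_mem f1)) (mem_lvs.1 hv).1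
            (mem_lvs.1 f2).1 ▸ f1)
      · simp [biUnion_insert, hv]
  refine (key R Subset.rfl).mono fun v hv => ?_
  split_ifs with a
  · exact le_rfl
  · refine h2 v hv fun b => a ?_
    obtain ⟨e, e1, e2⟩ := mem_vs.1 hv
    exact mem_biUnion.2 ⟨e, e1, mem_lvs.2 ⟨e2, b⟩⟩

/-- an edge through a vertex `a` of `R` is added. -/
theorem good_addback {R : Hg} {h : Finset ℕ} {a : ℕ} {p q : ℕ → ℝ} (hR : Good R q) (ha : a ∈ h)
    (ha' : a ∈ vs R) (h0 : ∀ v ∈ h, (if v ∈ vs R then q v else 0) ≤ p v)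
    (h1 : 1 - q a ≤ ∑ v ∈ h, (p v - if v ∈ vs R then q v else 0))
    (h2 : ∀ v ∈ vs R, v ∉ h → q v ≤ p v) : Good (insert h R) p := fun w hw => by
  obtain ⟨x, hx, hm⟩ := exists_min_image h w ⟨a, ha⟩
  obtain ⟨T, t1, t2⟩ := hR (fun v => w v - if v = a then w x else 0) fun v => by
    split_ifs with b
    · exact sub_nonneg.2 (b ▸ hm a ha)
    · simpa using hw v
  simp only [sub_mul, sum_sub_distrib, ite_mul, zero_mul, sum_ite_eq', if_pos ha'] at t2
  have e1 : ∑ v ∈ vs (insert h R), ((if v ∈ vs R then w v * q v else 0) +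
      if v ∈ h then w x * (p v - if v ∈ vs R then q v else 0) else 0) ≤
      ∑ v ∈ vs (insert h R), w v * p v := sum_le_sum fun v hv => by
    by_cases b : v ∈ h
    · have := mul_le_mul_of_nonneg_right (hm v b) (sub_nonneg.2 (h0 v b))
      rw [if_pos b]
      split_ifs at this ⊢ <;> linarith
    · have c : v ∈ vs R := (mem_union.1 (vs_insert h R ▸ hv)).resolve_left b
      rw [if_pos c, if_neg b, add_zero]
      exact mul_le_mul_of_nonneg_left (h2 v c b) (hw v)
  rw [sum_add_distrib, ← sum_filter, ← sum_filter, filter_mem_eq_inter, filter_mem_eq_inter,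
    inter_eq_right.2 (vs_mono (subset_insert _ _)),
    inter_eq_right.2 (by rw [vs_insert]; exact subset_union_left), ← mul_sum] at e1
  have e2 := mul_le_mul_of_nonneg_left h1 (hw x)
  by_cases b : a ∈ T
  · refine ⟨T, fun e he => ?_, ?_⟩
    · rcases mem_insert.1 he with rfl | c
      exacts [⟨a, mem_inter.2 ⟨b, ha⟩⟩, t1 e c]
    · rw [if_pos b] at t2
      linarith
  · refine ⟨{x} ∪ T, fun e he => ?_, (sum_union_le hw _ _).trans ?_⟩
    · rcases mem_insert.1 he with rfl | c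
      exacts [⟨x, mem_inter.2 ⟨by simp, hx⟩⟩, t1.mono subset_union_right e c]
    · rw [if_neg b] at t2
      rw [sum_singleton]
      linarith

/-- The edges `insert a t`, `a ∈ A`, were replaced by `insert z t`; the vertex `z` is paid by one
vertex of `t` or by all of `A`. -/
theorem good_merge {R G : Hg} {t A : Finset ℕ} {z : ℕ} {p q : ℕ → ℝ} {θ : ℝ}
    (hR : Good (insert (insert z t) R) q) (hz : z ∉ vs R) (hzt : z ∉ t) (ht : t.Nonempty)
    (hG : ∀ g ∈ G, t ⊆ g ∧ (A ∩ g).Nonempty) (hv : vs G = t ∪ A) (hd : Disjoint t A) (h0 : 0 ≤ θ)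
    (h1 : q z ≤ ∑ v ∈ t, (p v - q v) + θ) (h2 : ∀ v ∈ t, q v ≤ p v)
    (h3 : ∀ v ∈ A, (if v ∈ vs R then q v else 0) + θ ≤ p v)
    (h4 : ∀ v ∈ vs R, v ∉ t → v ∉ A → q v ≤ p v) : Good (R ∪ G) p := fun w hw => by
  obtain ⟨x, hx, hm⟩ := exists_min_image t w ht
  obtain ⟨m, m0, m1, m2, U, u1, u2⟩ : ∃ m, 0 ≤ m ∧ m ≤ w x ∧ m ≤ ∑ v ∈ A, w v ∧
      ∃ U, Tr G U ∧ ∑ v ∈ U, w v ≤ m := by
    rcases le_total (w x) (∑ v ∈ A, w v) with a | a
    · exact ⟨_, hw x, le_rfl, a, {x}, fun g hg => ⟨x, mem_inter.2 ⟨by simp, (hG g hg).1 hx⟩⟩,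
        by simp⟩
    · exact ⟨_, sum_nonneg fun v _ => hw v, a, le_rfl, A, fun g hg => (hG g hg).2, le_rfl⟩
  obtain ⟨T, t1, t2⟩ := hR (fun v => if v = z then m else w v) fun v => by
    split_ifs
    exacts [m0, hw v]
  have hz' : z ∉ t ∪ vs R := by simp [hz, hzt]
  rw [vs_insert, insert_union, sum_insert hz', if_pos rfl,
    sum_congr rfl fun v (a : v ∈ t ∪ vs R) => by rw [if_neg (ne_of_mem_of_not_mem a hz')]] at t2
  have e0 : Tr R (T.erase z) := fun e he => by
    obtain ⟨v, a⟩ := t1 e (mem_insert_of_mem he)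
    rw [mem_inter] at a
    exact ⟨v, mem_inter.2 ⟨mem_erase.2 ⟨fun b => hz (mem_vs.2 ⟨e, he, b ▸ a.2⟩), a.1⟩, a.2⟩⟩
  have e1 : ∑ v ∈ T.erase z, w v = ∑ v ∈ T.erase z, if v = z then m else w v :=
    sum_congr rfl fun v a => by rw [if_neg (ne_of_mem_erase a)]
  have e2 : ∑ v ∈ vs (R ∪ G), ((if v ∈ t ∪ vs R then w v * q v else 0) +
      ((if v ∈ t then m * (p v - q v) else 0) + if v ∈ A then w v * θ else 0)) ≤
      ∑ v ∈ vs (R ∪ G), w v * p v := sum_le_sum fun v a => by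
    by_cases b : v ∈ t
    · have := mul_le_mul_of_nonneg_right (m1.trans (hm v b)) (sub_nonneg.2 (h2 v b))
      rw [if_pos (mem_union_left _ b), if_pos b, if_neg (disjoint_left.1 hd b)]
      linarith
    · by_cases c : v ∈ A
      · have := mul_le_mul_of_nonneg_left (h3 v c) (hw v)
        simp only [mem_union, b, c, false_or, if_true, if_false]
        split_ifs at this ⊢ <;> linarith
      · have d : v ∈ vs R := by simpa [vs_union, hv, b, c] using a
        simpa [b, c, d] using mul_le_mul_of_nonneg_left (h4 v d b c) (hw v)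
  rw [sum_add_distrib, sum_add_distrib, ← sum_filter, ← sum_filter, ← sum_filter,
    filter_mem_eq_inter, filter_mem_eq_inter, filter_mem_eq_inter,
    inter_eq_right.2 (by rw [vs_union, hv]; intro v; simp only [mem_union]; tauto),
    inter_eq_right.2 (by rw [vs_union, hv]; intro v; simp only [mem_union]; tauto),
    inter_eq_right.2 (by rw [vs_union, hv]; intro v; simp only [mem_union]; tauto),
    ← mul_sum, ← sum_mul] at e2
  have e3 := mul_le_mul_of_nonneg_left h1 m0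
  have e4 := mul_le_mul_of_nonneg_right m2 h0
  by_cases b : z ∈ T
  · refine ⟨T.erase z ∪ U, e0.union u1, (sum_union_le hw _ _).trans ?_⟩
    rw [← add_sum_erase _ _ b, if_pos rfl, ← e1] at t2
    linarith
  · obtain ⟨v, a⟩ := t1 _ (mem_insert_self _ _)
    rw [mem_inter, mem_insert] at a
    rw [erase_eq_of_notMem b] at e0 e1
    refine ⟨T, fun e he => (mem_union.1 he).elim (e0 e) fun c => ⟨v, mem_inter.2
      ⟨a.1, (hG e c).1 (a.2.resolve_left fun d => b (d ▸ a.1))⟩⟩, ?_⟩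
    rw [← e1] at t2
    linarith

end Pool.Agent.P.MP_b2082d_co.Gen
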