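import Pool.Agent.P.MP_b2082d_co.G.Reps
import Pool.Agent.P.MP_b2082d_co.G.T1c

/-! The star inequalities of the merging step as a check on the listed stars. -/

namespace Pool.Agent.P.MP_b2082d_co.Gen
open Finset T1

theorem NoH6.flag {R : Hg} (h : NoH6 R) {e f : Finset ℕ} (he : e ∈ R) (hf : f ∈ R) :
    ¬ flag R e f := fun a => h e he f hf a.2.1 a.2.2

theorem flags_nil (E : Fin 4 → Finset ℕ) : Flags ∅ E [] := fun i j => by simp [flag]

theorem NoH6.sig {R S : Hg} (h : NoH6 R) (hS : S ⊆ R) : sig R S = sig ∅ S :=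
  sum_congr rfl fun u _ => congrArg (· ^ 3) (sum_congr rfl fun e he => if_congr Iff.rfl
    (sum_congr rfl fun f hf => by rw [if_neg (h.flag (hS he) (hS hf)), if_neg (by simp [Gen.flag])])
      rfl)

/-- without triangles of pairs the stars carry no flags. -/
theorem exists_rep0 {R : Hg} (hR : Cls R) (h6 : NoH6 R) {v : ℕ} (hv : v ∈ vs R) :
    ∃ E L, Lab (star R v) E (v :: L) ∧ (msk E v, L.map (msk E), []) ∈ reps := by
  have k : reps.all (fun r => r.2.2.all (has pairs)) = true := by decide +kernel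
  obtain ⟨E, L, F, a, b, c⟩ := exists_rep hR hv
  refine ⟨E, L, a, (List.eq_nil_iff_forall_not_mem.2 fun p hp => ?_ : F = []) ▸ c⟩
  obtain ⟨i, j, -, rfl⟩ := pairs_pm p
    (has_iff.1 (List.all_eq_true.1 (List.all_eq_true.1 k _ c) p hp))
  have d := (b i j).1 hp
  exact h6.flag (mem_star.1 (a.slot d.ne.1)).1 (mem_star.1 (a.slot d.ne.2)).1 d

theorem IsStar.star {v : ℕ} {S : Hg} (h : IsStar v S) : star S v = S :=
  filter_true_of_mem fun e he => (h.unif e he).2

theorem IsStar.rep {v : ℕ} {S : Hg} (h : IsStar v S) (h1 : 1 ≤ S.card) : ∃ E L,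
    Lab S E (v :: L) ∧ S.card = pc4 (msk E v) ∧ (msk E v, L.map (msk E), []) ∈ reps := by
  obtain ⟨e, he⟩ := card_pos.1 h1
  obtain ⟨E, L, a, b⟩ := exists_rep0 (R := S) ⟨fun e he => (h.unif e he).1, fun u =>
    (card_filter_le _ _).trans h.card⟩ (fun e he f hf _ a => by
      simpa [(h.unif e he).2, (h.unif f hf).2] using (h.unif _ a).2)
    (mem_vs.2 ⟨e, he, (h.unif e he).2⟩)
  rw [h.star] at a
  exact ⟨E, L, a, h.star ▸ a.pc4 v, b⟩

noncomputable def chkM (T : ℕ → ℕ) (σ π a x y : ℕ) (M K : List ℕ) : Bool :=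
  Nat.blt (pc4 (x &&& y)) 2 || cond (Nat.beq (x &&& y) a) (Nat.ble π (T (sigc (a :: M) [])))
    ([1, 2, 4, 8].all fun p => !bt (x &&& y) p || Nat.ble (T (sigc (p ::
      ((a &&& (15 - (x &&& y))) + p) :: ((x &&& (15 - (x &&& y))) + p) ::
        ((y &&& (15 - (x &&& y))) + p) :: K.map (Nat.land · (15 - (x &&& y)))) []) + σ)
          (T (sigc (a :: M) [])))

noncomputable def chk05 (T : ℕ → ℕ) (θ σ π γ : ℕ) (r : ℕ × List ℕ × List ℕ) : Bool :=
  !r.2.2.isEmpty || ((!Nat.beq (pc4 r.1) 2 || Nat.ble γ (T (sigc (r.1 :: r.2.1) []))) &&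
    (Nat.blt (pc4 r.1) 3 || [1, 2, 4, 8].all fun p => !bt r.1 p || Nat.ble
      (T (sigc ((r.1 :: r.2.1).map (Nat.land · (15 - p))) []) + θ) (T (sigc (r.1 :: r.2.1) []))) &&
    r.2.1.all fun x => (r.2.1.erase x).all fun y =>
      chkM T σ π r.1 x y r.2.1 ((r.2.1.erase x).erase y))

theorem bit_sub : ∀ g < 16, ∀ i : Fin 4, (15 - g).testBit i = !g.testBit i := by decide

theorem bt_pm : ∀ g < 16, ∀ i : Fin 4, bt g (pm i i) = g.testBit i := by decide +kernel

theorem pm_one : ∀ i : Fin 4, pm i i ∈ [1, 2, 4, 8] ∧ pm i i = 2 ^ i.val ∧ pm i i < 16 ∧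
    ∀ j : Fin 4, (pm i i).testBit j = decide (j = i) := by decide +kernel

theorem sc2 {a b c : ℕ} (h : Nat.ble (a + b) c = true) :
    (a : ℝ) / 1000000 + b / 1000000 ≤ c / 1000000 := by
  rw [← add_div, ← Nat.cast_add]
  gcongr
  exact Nat.ble_eq.mp h

theorem sc1 {a c : ℕ} (h : Nat.ble a c = true) : (a : ℝ) / 1000000 ≤ c / 1000000 := by
  gcongr
  exact Nat.ble_eq.mp h

/-- the code of a star with a triple in two of its edges. -/
theorem triple {T : ℕ → ℕ} {θ σ π γ : ℕ} (hc : reps.all (chk05 T θ σ π γ) = true) {v : ℕ} {S : Hg}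
    (h : IsStar v S) {t : Finset ℕ} (h1 : v ∈ t) (h2 : t.card = 3)
    (h3 : 2 ≤ (S.filter fun e => t ⊆ e).card) : ∃ E x y K M, Lab S E (v :: x :: y :: K) ∧
      t = {v, x, y} ∧ sig ∅ S = sigc (msk E v :: M) [] ∧ 2 ≤ pc4 (msk E x &&& msk E y) ∧
      (∀ i, E i ≠ ∅ → ((msk E x &&& msk E y).testBit i.val = true ↔ t ⊆ E i)) ∧
      chkM T σ π (msk E v) (msk E x) (msk E y) M (K.map (msk E)) = true ∧
      ∀ u ∈ K, 0 < msk E u := by
  have nz : reps.all (fun r => r.2.1.all (Nat.blt 0)) = true := by decide +kernel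
  obtain ⟨E, L, a, -, c⟩ := h.rep (one_le_two.trans (h3.trans (card_filter_le _ _)))
  have d := List.all_eq_true.1 hc _ c
  simp only [chk05, List.isEmpty_nil, Bool.not_true, Bool.false_or, Bool.and_eq_true,
    List.all_eq_true] at d
  obtain ⟨x, y, xy, e⟩ := card_eq_two.1 (show (t.erase v).card = 2 by rw [card_erase_of_mem h1, h2])
  have e1 : t = {v, x, y} := by rw [← e, insert_erase h1]
  have e2 : ∀ u ∈ t.erase v, u ∈ L := fun u hu => by
    obtain ⟨f, f1⟩ := card_pos.1 (zero_lt_two.trans_le h3)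
    obtain ⟨-, i, rfl⟩ := (a.mem f).1 (mem_filter.1 f1).1
    exact (List.mem_cons.1 (a.cov i u ((mem_filter.1 f1).2 (mem_erase.1 hu).2))).resolve_left
      (mem_erase.1 hu).1
  have x1 : x ∈ L := e2 x (by simp [e])
  have y1 : y ∈ L.erase x := (List.mem_erase_of_ne xy.symm).2 (e2 y (by simp [e]))
  have p1 : L.Perm (x :: y :: (L.erase x).erase y) :=
    (List.perm_cons_erase x1).trans ((List.perm_cons_erase y1).cons x)
  have p2 := (p1.map (msk E)).erase (msk E x)
  rw [List.map_cons, List.erase_cons_head] at p2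
  have p3 := p2.erase (msk E y)
  rw [List.map_cons, List.erase_cons_head] at p3
  obtain ⟨K, k1, k2⟩ := perm_lift p3
  have k3 : ∀ i, E i ≠ ∅ → ((msk E x &&& msk E y).testBit i.val = true ↔ t ⊆ E i) := fun i b => by
    simp [msk_bit, e1, insert_subset_iff, (h.unif _ (a.slot b)).2]
  refine ⟨E, x, y, K, L.map (msk E), a.perm ((((k1.cons y).cons x).trans p1.symm).cons v), e1,
    a.sig_eq (flags_nil E), h3.trans ?_, k3, k2 ▸ d.2 _ (List.mem_map_of_mem x1) _
      (p2.mem_iff.2 List.mem_cons_self), fun u hu => Nat.blt_eq.mp (List.all_eq_true.1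
        (List.all_eq_true.1 nz _ c) _ (List.mem_map_of_mem (List.mem_of_mem_erase
          (List.mem_of_mem_erase (k1.subset hu)))))⟩
  have k : ∀ x < 16, (univ.filter fun i : Fin 4 => x.testBit i).card = pc4 x := by decide +kernel
  rw [← k _ (Nat.and_le_left.trans_lt (msk_lt E x))]
  refine (card_le_card fun f hf => ?_).trans (card_image_le (f := E))
  obtain ⟨b, i, rfl⟩ := (a.mem f).1 (mem_filter.1 hf).1
  exact mem_image_of_mem _ (mem_filter.2 ⟨mem_univ _, (k3 i b).2 (mem_filter.1 hf).2⟩)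

theorem par05_of_chk {T : ℕ → ℕ} {θ σ π γ : ℕ} (hc : reps.all (chk05 T θ σ π γ) = true)
    {lp : ℕ → ℝ} (h1 : θ ≤ γ) (h2 : ∀ j, (θ : ℝ) / 1000000 ≤ lp j)
    (h3 : ∀ j : ℕ, j ≤ 3 → (j + 1) * lp (j + 1) ≤
      j * (π / 1000000) + (3 - j) * (σ / 1000000) + θ / 1000000)
    (h4 : ∀ j n : ℕ, 1 ≤ n → j + n ≤ 3 → (j + n) * lp (j + n) ≤
      j * lp j + n * (γ / 1000000 - θ / 1000000))
    (h5 : ∀ j n : ℕ, 1 ≤ n → j + n = 4 → 1 - (θ : ℝ) / 1000000 ≤
      j * lp j + n * (γ / 1000000 - θ / 1000000)) :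
    Par05 (fun _ => Pt T ∅) lp (θ / 1000000) (σ / 1000000) (π / 1000000) (γ / 1000000) := by
  have key : ∀ v S, IsStar v S → 2 ≤ S.card → ∃ E L, Lab S E (v :: L) ∧
      (S.card = 2 → Nat.ble γ (T (sigc ((v :: L).map (msk E)) [])) = true) ∧
      (3 ≤ S.card → ∀ p ∈ [1, 2, 4, 8], bt (msk E v) p = true → Nat.ble (T (sigc
        (((v :: L).map (msk E)).map (Nat.land · (15 - p))) []) + θ)
          (T (sigc ((v :: L).map (msk E)) [])) = true) := fun v S h b => by
    obtain ⟨E, L, a, c, d⟩ := h.rep (one_le_two.trans b)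
    have d := List.all_eq_true.1 hc _ d
    simp only [chk05, List.isEmpty_nil, Bool.not_true, Bool.false_or, Bool.and_eq_true,
      Bool.or_eq_true, List.all_eq_true, ← c, Bool.not_eq_true', Nat.blt_eq] at d
    exact ⟨E, L, a, fun e => d.1.1.resolve_left (by simp [e]), fun e p hp f =>
      (d.1.2.resolve_left e.not_gt p hp).resolve_left (by simp [f])⟩
  refine ⟨by positivity, by positivity, by positivity, by gcongr, h2, fun v S h b => ?_,
    fun v S h b e he => ?_, fun v S t z h t1 t2 t3 z1 z2 => ?_, fun v S t h t1 t2 t3 t4 => ?_,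
    h3, h4, h5⟩
  · obtain ⟨E, L, a, c, -⟩ := key v S h b.ge
    rw [Pt, a.sig_eq (flags_nil E)]
    exact sc1 (c b)
  · obtain ⟨E, L, a, -, c⟩ := key v S h (by omega)
    obtain ⟨e0, i, rfl⟩ := (a.mem e).1 he
    have d := a.cut (15 - pm i i) (erase_subset (E i) S) fun j f => by
      rw [bit_sub _ (pm_one i).2.2.1, (pm_one i).2.2.2, mem_erase, and_iff_left (a.slot f)]
      simp only [Bool.not_eq_true', decide_eq_false_iff_not]
      exact ⟨fun g k => g (k ▸ rfl), fun g k => g ((a.inj j i k).resolve_left f)⟩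
    rw [Pt, Pt, a.sig_eq (flags_nil E), d.sig_eq (flags_nil _), map_cut]
    exact sc2 (c b _ (pm_one i).1 (by
      rw [bt_pm _ (msk_lt E v), msk_bit]; exact decide_eq_true (h.unif _ he).2))
  · obtain ⟨E, x, y, K, M, a, b, c, d, e, f, nz⟩ := triple hc h t1 t2 t3
    have g0 : msk E x &&& msk E y < 16 := Nat.and_le_left.trans_lt (msk_lt E x)
    generalize hg : msk E x &&& msk E y = g at d e g0
    obtain ⟨e1, e2⟩ := card_pos.1 (zero_lt_two.trans_le t3)
    obtain ⟨e3, i, rfl⟩ := (a.mem e1).1 (mem_filter.1 e2).1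
    have i1 := (e i e3).2 (mem_filter.1 e2).2
    have a1 := a.cut (15 - g) (filter_subset (fun e => ¬ t ⊆ e) S) fun j k => by
      rw [bit_sub _ g0, mem_filter, and_iff_right (a.slot k), ← e j k]
      simp
    have i2 : cut E (15 - g) i = ∅ := if_neg (by rw [bit_sub _ g0, i1]; simp)
    have z3 : z ∉ t := fun b => z1 (mem_vs.2 ⟨_, (mem_filter.1 e2).1, (mem_filter.1 e2).2 b⟩)
    have z4 : msk E z = 0 := msk_eq (by norm_num) fun j => iff_of_false (by simp) fun b =>
      z1 (mem_vs.2 ⟨_, a.slot (ne_empty_of_mem b), b⟩)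
    have z5 : z ∉ K := fun b => (nz z b).ne' z4
    have nd := a.nd
    have a2 := a1.put i2 (e := insert z t) (N := [z]) (fun k => (mem_filter.1 k).2
      (subset_insert _ _)) (insert_ne_empty _ _) (List.nodup_cons.2 ⟨by
        simpa [b, z5, not_or] using z3, nd⟩) fun u hu => by
          simp only [b, mem_insert, mem_singleton] at hu
          rcases hu with rfl | rfl | rfl | rfl <;> simp
    have g1 : g ≠ msk E v := fun k => by
      obtain ⟨f1, f2⟩ := z2
      obtain ⟨f3, j, rfl⟩ := (a.mem f1).1 (mem_filter.1 f2).1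
      refine (mem_filter.1 f2).2 ((e j f3).1 ?_)
      rw [k, msk_bit]
      exact decide_eq_true (h.unif _ (mem_filter.1 f2).1).2
    rw [chkM, hg, Bool.eq_false_iff.2 fun k => (Nat.blt_eq.mp k).not_ge d,
      Bool.eq_false_iff.2 fun k => g1 (Nat.eq_of_beq_eq_true k)] at f
    have f1 := List.all_eq_true.1 f _ (pm_one i).1
    rw [bt_pm _ g0, i1] at f1
    have m : ∀ u, msk (Function.update (cut E (15 - g)) i (insert z t)) u =
        (msk E u &&& (15 - g)) + if u ∈ insert z t then pm i i else 0 := fun u => by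
      rw [msk_update i2, msk_cut, (pm_one i).2.1]
    have m1 : K.map (msk (Function.update (cut E (15 - g)) i (insert z t))) =
        (K.map (msk E)).map (Nat.land · (15 - g)) := by
      rw [List.map_map]
      refine List.map_congr_left fun u hu => (m u).trans ?_
      rw [if_neg, add_zero]
      · rfl
      · simp only [b, mem_insert, mem_singleton, List.nodup_cons, List.mem_cons, not_or] at nd ⊢
        refine ⟨?_, ?_, ?_, ?_⟩ <;> rintro rfl <;> simp_all
    rw [Pt, Pt, c, a2.sig_eq (flags_nil _)]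
    simp only [List.cons_append, List.nil_append, List.map_cons]
    rw [m1, m, m, m, m, z4, if_pos (mem_insert_self _ _), if_pos (mem_insert_of_mem t1),
      if_pos (by simp [b]), if_pos (by simp [b]), Nat.zero_and, zero_add]
    exact sc2 f1
  · obtain ⟨E, x, y, K, M, a, b, c, d, e, f, -⟩ := triple hc h t1 t2
      (by rwa [filter_true_of_mem t4])
    have g : msk E x &&& msk E y = msk E v := (msk_eq (Nat.and_le_left.trans_lt (msk_lt E x))
      fun i => by
        by_cases k : E i = ∅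
        · simp [msk_bit, k]
        · rw [e i k]
          exact iff_of_true (t4 _ (a.slot k)) (h.unif _ (a.slot k)).2).symm
    rw [chkM, Bool.eq_false_iff.2 fun k => (Nat.blt_eq.mp k).not_ge d, Nat.beq_eq.mpr g] at f
    rw [Pt, c]
    exact sc1 f

/-- the merging step for prices given by a table. -/
theorem t05_tab {T : ℕ → ℕ} {lp : ℕ → ℝ} {θ σ π γ : ℝ} (P : Par05 (fun _ => Pt T ∅) lp θ σ π γ)
    (h0 : ∀ R, Cls R → NoH6 R → Co2 R → Good R (pr (Pt T) lp R)) (R : Hg) (hR : Cls R)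
    (h6 : NoH6 R) : Good R (pr (Pt T) lp R) := by
  have k : ∀ R, NoH6 R → pr (Pt T) lp R = price (fun _ => Pt T ∅) lp R := fun R h => by
    funext v
    rw [pr, price, price, Pt, Pt, h.sig (S := star R v) (filter_subset _ _)]
  rw [k R h6]
  exact t05 P (fun R a b c => k R b ▸ h0 R a b c) R hR h6

end Pool.Agent.P.MP_b2082d_co.Gen
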