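import Pool.Agent.P.MP_b2082d_co.G.Base

/-! Removing a pendant edge. -/

namespace Pool.Agent.P.MP_b2082d_co.Gen
open Finset

theorem good_single {e : Finset ℕ} {p : ℕ → ℝ} (h0 : ∀ v ∈ e, 0 ≤ p v) (h1 : 1 ≤ ∑ v ∈ e, p v) :
    Good {e} p := fun w hw => by
  have he : e.Nonempty := nonempty_of_sum_ne_zero (by linarith : ∑ v ∈ e, p v ≠ 0)
  obtain ⟨x, hx, h2⟩ := exists_min_image e w he
  refine ⟨{x}, fun f hf => ⟨x, by simpa [mem_singleton.1 hf] using hx⟩, ?_⟩
  have h3 := sum_le_sum fun v hv => mul_le_mul_of_nonneg_right (h2 v hv) (h0 v hv)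
  rw [← mul_sum] at h3
  have h4 : vs {e} = e := by simp [vs]
  rw [h4, sum_singleton]
  nlinarith [hw x]

/-- `insert t L` is a pendant edge at `t`; every edge through a vertex of `D` contains `t`. -/
theorem good_pendant {R : Hg} {t : ℕ} {L D : Finset ℕ} {p q : ℕ → ℝ} (hR : Good R q)
    (hL : Disjoint L (vs R)) (ht : t ∈ vs R) (hD : D ⊆ (vs R).erase t)
    (hd : ∀ v ∈ D, ∀ f ∈ R, v ∈ f → t ∈ f) (h0 : ∀ v ∈ L, 0 ≤ p v) (h0' : ∀ v ∈ D, 0 ≤ p v)
    (h1 : ∀ v ∈ (vs R).erase t \ D, q v ≤ p v)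
    (h2 : ∑ v ∈ D, max (q v - p v) 0 ≤ p t - q t) (h3 : 1 ≤ p t + ∑ v ∈ L, p v) :
    Good (insert (insert t L) R) p := fun w hw => by
  obtain ⟨x, hx, hm⟩ := exists_min_image (insert t L) w (insert_nonempty _ _)
  have hz : 0 ≤ w t - w x := sub_nonneg.2 (hm t (mem_insert_self _ _))
  have tD : t ∉ D := fun a => by simpa using hD a
  set u : ℕ → ℝ := fun v => if v = t then w t - w x else if v ∈ D then min (w v) (w t - w x)
    else w v with hu
  have u0 : ∀ v, 0 ≤ u v := fun v => by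
    simp only [hu]
    split_ifs
    exacts [hz, le_min (hw v) hz, hw v]
  have ut : u t = w t - w x := if_pos rfl
  have uD : ∀ v ∈ D, u v = min (w v) (w t - w x) := fun v hv => by
    simp [hu, hv, ne_of_mem_erase (hD hv)]
  have uw : ∀ v, v ≠ t → v ∉ D → u v = w v := fun v a b => by simp [hu, a, b]
  obtain ⟨T, t1, t2⟩ := hR u u0
  have key : ∃ U, Tr (insert (insert t L) R) U ∧ ∑ v ∈ U, w v ≤ w x + ∑ v ∈ T, u v := by
    by_cases c : ∃ y ∈ T, y ∈ insert t D ∧ u y = w t - w x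
    · obtain ⟨y, y1, y2, y3⟩ := c
      refine ⟨insert t (T \ insert t D), fun e he => ?_, ?_⟩
      · by_cases a : t ∈ e
        · exact ⟨t, mem_inter.2 ⟨mem_insert_self _ _, a⟩⟩
        · have b : e ∈ R := (mem_insert.1 he).resolve_left fun b => a (b ▸ mem_insert_self _ _)
          obtain ⟨v, hv⟩ := t1 e b
          rw [mem_inter] at hv
          refine ⟨v, mem_inter.2 ⟨mem_insert_of_mem (mem_sdiff.2 ⟨hv.1, fun d => ?_⟩), hv.2⟩⟩
          exact (mem_insert.1 d).elim (fun d => a (d ▸ hv.2)) fun d => a (hd v d e b hv.2)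
      · rw [sum_insert (by simp), ← sum_inter_add_sum_sdiff T (insert t D) u,
          sum_congr rfl fun v (hv : v ∈ T \ insert t D) => (uw v
            (fun a => (mem_sdiff.1 hv).2 (a ▸ mem_insert_self _ _))
            fun a => (mem_sdiff.1 hv).2 (mem_insert_of_mem a)).symm]
        have := single_le_sum (f := u) (fun v _ => u0 v) (mem_inter.2 ⟨y1, y2⟩)
        linarith
    · refine ⟨{x} ∪ T, fun e he => ?_, (sum_union_le hw _ _).trans (le_of_eq ?_)⟩
      · rcases mem_insert.1 he with rfl | b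
        · exact ⟨x, mem_inter.2 ⟨by simp, hx⟩⟩
        · exact t1.mono subset_union_right e b
      · rw [sum_singleton]
        congr 1
        refine sum_congr rfl fun v hv => ?_
        have a : v ≠ t := fun a => c ⟨v, hv, by simp [a], a ▸ ut⟩
        by_cases b : v ∈ D
        · exact ((min_choice _ _).resolve_right (fun d => c ⟨v, hv, mem_insert_of_mem b,
            (uD v b).trans d⟩) ▸ uD v b).symm
        · exact (uw v a b).symm
  obtain ⟨U, u1, u2⟩ := key
  refine ⟨U, u1, u2.trans ?_⟩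
  have h4 : vs (insert (insert t L) R) = L ∪ vs R := by
    rw [vs_insert, insert_union, insert_eq_of_mem (mem_union_right _ ht)]
  rw [h4, sum_union hL, ← add_sum_erase _ _ ht, ← sum_sdiff hD]
  rw [← add_sum_erase _ _ ht, ← sum_sdiff hD, ut] at t2
  have e1 : ∑ v ∈ (vs R).erase t \ D, u v * q v ≤ ∑ v ∈ (vs R).erase t \ D, w v * p v :=
    sum_le_sum fun v hv => by
      rw [uw v (ne_of_mem_erase (mem_sdiff.1 hv).1) (mem_sdiff.1 hv).2]
      exact mul_le_mul_of_nonneg_left (h1 v hv) (hw v)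
  have e2 : ∑ v ∈ D, u v * q v ≤ ∑ v ∈ D, (w v * p v + (w t - w x) * max (q v - p v) 0) :=
    sum_le_sum fun v hv => by
      have a1 : u v ≤ w v := uD v hv ▸ min_le_left _ _
      have a2 : u v ≤ w t - w x := uD v hv ▸ min_le_right _ _
      have a3 := mul_le_mul_of_nonneg_right a1 (h0' v hv)
      have a4 := mul_le_mul_of_nonneg_right a2 (le_max_right (q v - p v) 0)
      have a5 := mul_le_mul_of_nonneg_left (le_max_left (q v - p v) 0) (u0 v)
      linarith
  rw [sum_add_distrib, ← mul_sum] at e2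
  have e3 := sum_le_sum fun v hv =>
    mul_le_mul_of_nonneg_right (hm v (mem_insert_of_mem hv)) (h0 v hv)
  rw [← mul_sum] at e3
  have e4 := mul_le_mul_of_nonneg_left h2 hz
  have e5 := mul_le_mul_of_nonneg_left h3 (hw x)
  nlinarith

end Pool.Agent.P.MP_b2082d_co.Gen
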