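import Pool.Agent.P.MP_b2082d_co.G.Reps0

/-! Every star is one of the listed stars. -/

namespace Pool.Agent.P.MP_b2082d_co.Gen
open Finset

theorem cn_cons (x : ℕ) (M : List ℕ) (p : ℕ) :
    cn (x :: M) p = cond (bt x p) (cn M p + 1) (cn M p) := rfl

theorem cn_perm {M N : List ℕ} (h : M.Perm N) (p : ℕ) : cn M p = cn N p := by
  rw [cn_eq, cn_eq, h.countP_eq]

theorem cn_append (M N : List ℕ) (p : ℕ) : cn (M ++ N) p = cn M p + cn N p := by
  rw [cn_eq, cn_eq, cn_eq, List.countP_append]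

theorem fits_dec (x p c : ℕ) (M : List ℕ) :
    fits x p (cn (x :: M) p + c) = true ∧ dec x p (cn (x :: M) p + c) = cn M p + c := by
  rw [cn_cons, fits, dec]
  cases bt x p
  · exact ⟨rfl, rfl⟩
  · exact ⟨Nat.ble_eq.mpr (by simp; omega), by simp [Nat.add_right_comm]⟩

theorem go_sound (a c d e f : ℕ) (B : List ℕ) : ∀ n lo A, B.Pairwise (· ≤ ·) →
    (∀ x ∈ B, lo ≤ x ∧ x ∈ [3, 5, 6, 7, 9, 10, 11, 12, 13, 14, 15]) →
    go a n lo (cn B 1 + c) (cn B 2 + d) (cn B 4 + e) (cn B 8 + f) A = true →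
    fin a (ones c d e f ++ B.reverseAux A) = true := by
  induction B with
  | nil =>
    rintro (_ | n) lo A - - h
    · exact absurd h (by simp [go])
    · rw [go, Bool.and_eq_true] at h
      simpa [cn] using h.1
  | cons x B ih =>
    rintro (_ | n) lo A h1 h2 h
    · exact absurd h (by simp [go])
    · rw [go, Bool.and_eq_true, List.all_eq_true] at h
      have k := h.2 x (h2 x List.mem_cons_self).2
      rw [(fits_dec x 1 c B).1, (fits_dec x 2 d B).1, (fits_dec x 4 e B).1, (fits_dec x 8 f B).1,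
        (fits_dec x 1 c B).2, (fits_dec x 2 d B).2, (fits_dec x 4 e B).2, (fits_dec x 8 f B).2,
        Bool.eq_false_iff.2 fun b => (Nat.blt_eq.mp b).not_ge (h2 x List.mem_cons_self).1] at k
      exact ih n x (x :: A) h1.of_cons (fun y hy => ⟨List.rel_of_pairwise_cons h1 hy,
        (h2 y (List.mem_cons_of_mem _ hy)).2⟩) (by simpa using k)

theorem perm_ones {N : List ℕ} (h : ∀ x ∈ N, x ∈ [1, 2, 4, 8]) :
    (ones (cn N 1) (cn N 2) (cn N 4) (cn N 8)).Perm N := by
  induction N with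
  | nil => exact .refl _
  | cons x N ih =>
    have a := ih fun y hy => h y (List.mem_cons_of_mem _ hy)
    have b := h x List.mem_cons_self
    simp only [List.mem_cons, List.not_mem_nil, or_false] at b
    rcases b with rfl | rfl | rfl | rfl
    · exact a.cons 1
    · exact List.perm_middle.trans (a.cons 2)
    · exact (List.perm_middle.append_left _).trans (List.perm_middle.trans (a.cons 4))
    · exact ((List.perm_middle.append_left _).append_left _).trans
        ((List.perm_middle.append_left _).trans (List.perm_middle.trans (a.cons 8)))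

theorem perm_lift {M L : List ℕ} {g : ℕ → ℕ} (h : M.Perm (L.map g)) :
    ∃ K : List ℕ, K.Perm L ∧ K.map g = M := by
  obtain ⟨K, a, b⟩ := List.perm_comp_forall₂ h (r := fun m u => m = g u)
    (List.forall₂_map_left_iff.2 (List.forall₂_same.2 fun _ _ => rfl))
  exact ⟨K, b, (List.forall₂_eq_eq_eq ▸ List.forall₂_map_right_iff.2 a : M = K.map g).symm⟩

theorem inh_pm (E : Fin 4 → Finset ℕ) (u : ℕ) {i j : Fin 4} (h : i ≠ j) :
    inh (pm i j) (msk E u) = true ↔ u ∈ E i \ E j ∪ E j \ E i := by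
  have k : ∀ x < 16, ∀ i j : Fin 4, i ≠ j → (inh (pm i j) x = true ↔
      x.testBit i = true ∧ ¬x.testBit j = true ∨ x.testBit j = true ∧ ¬x.testBit i = true) := by
    decide +kernel
  rw [k _ (msk_lt E u) i j h, msk_bit, msk_bit]
  simp

theorem Lab.pc4 {S : Hg} {E : Fin 4 → Finset ℕ} {L : List ℕ} (h : Lab S E L) (u : ℕ) :
    (star S u).card = pc4 (msk E u) := by
  have k : ∀ x < 16, (univ.filter fun i : Fin 4 => x.testBit i).card = Gen.pc4 x := by
    decide +kernel
  rw [h.deg, k _ (msk_lt E u)]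

theorem flag.symm {R : Hg} {e f : Finset ℕ} (h : flag R e f) : flag R f e :=
  ⟨h.1.symm, inter_comm e f ▸ h.2.1, union_comm (e \ f) _ ▸ h.2.2⟩

theorem pairs_pm : ∀ p ∈ pairs, ∃ i j, i ≠ j ∧ p = pm i j := by decide +kernel

theorem okF_of {R : Hg} (hR : Cls R) {v : ℕ} {E : Fin 4 → Finset ℕ} {L F : List ℕ}
    (h : Lab (star R v) E (v :: L)) (hF : Flags R E F) (h1 : ∀ p ∈ F, p ∈ pairs) :
    okF (L.map (msk E)) (cand (msk E v) (L.map (msk E))) F = true := by
  let t : ℕ → Finset ℕ := fun p => L.toFinset.filter fun u => inh p (msk E u)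
  have a : ∀ i j, i ≠ j → (E i ∩ E j).card = 2 → t (pm i j) = E i \ E j ∪ E j \ E i :=
    fun i j b c => by
      have d : ∀ k, E k ≠ ∅ → v ∈ E k := fun k z => (mem_star.1 (h.slot z)).2
      have e : v ∈ E i := d i fun z => by simp [z] at c
      have f : v ∈ E j := d j fun z => by simp [z] at c
      ext u
      rw [mem_filter, inh_pm E u b, List.mem_toFinset]
      refine ⟨fun z => z.2, fun z => ⟨(List.mem_cons.1 ((mem_union.1 z).elim
        (fun y => h.cov i u (mem_sdiff.1 y).1) fun y => h.cov j u (mem_sdiff.1 y).1)).resolve_left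
          ?_, z⟩⟩
      rintro rfl
      simp [e, f] at z
  have b : ∀ p q, same (L.map (msk E)) p q = true ↔ t p = t q := fun p q => by
    simp only [same, List.all_map, List.all_eq_true, Function.comp, beq_iff_eq, t, Finset.ext_iff,
      mem_filter, List.mem_toFinset, and_congr_right_iff, ← Bool.eq_iff_iff]
  have c : ∀ p ∈ F, t p ∈ R := fun p hp => by
    obtain ⟨i, j, d, rfl⟩ := pairs_pm p (h1 p hp)
    have e := (hF i j).1 hp
    exact a i j d e.2.1 ▸ e.2.2
  rw [okF, Bool.and_eq_true, List.all_eq_true, List.all_eq_true]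
  refine ⟨fun p hp => ?_, fun x hx => ?_⟩
  · rw [Bool.or_eq_true, Bool.not_eq_true', ← Bool.not_eq_true, Bool.and_eq_true, has_iff,
      has_iff, b, or_iff_not_imp_right, not_not]
    rintro ⟨d, e⟩
    rw [cand, List.mem_filter, Nat.beq_eq] at d
    obtain ⟨i, j, f, g⟩ := pairs_pm _ d.1
    have k : (E i ∩ E j).card = 2 := (h.inter i j).trans (g ▸ d.2)
    rw [g] at e ⊢
    refine (hF i j).2 ⟨fun z => ?_, k, a i j f k ▸ e ▸ c p hp⟩
    rcases h.inj i j z with y | y
    · simp [y] at k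
    · exact f y
  · obtain ⟨u, hu, rfl⟩ := List.mem_map.1 hx
    rw [Bool.or_eq_true, Nat.ble_eq]
    right
    generalize hG : F.pwFilter (fun p q => same (L.map (msk E)) p q = false) = G
    have g1 : G.Sublist F := hG ▸ List.pwFilter_sublist _
    have g2 : ((G.filter fun p => inh p (msk E u)).map t).Nodup :=
      List.pairwise_map.2 (((hG ▸ List.pairwise_pwFilter _ : G.Pairwise _).imp fun {p q} z y =>
        by rw [(b p q).2 y] at z; exact absurd z (by simp)).filter _)
    have g3 : ∀ e ∈ ((G.filter fun p => inh p (msk E u)).map t).toFinset,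
        e ∈ star R u ∧ v ∉ e := fun e he => by
      obtain ⟨p, p1, rfl⟩ := List.mem_map.1 (List.mem_toFinset.1 he)
      rw [List.mem_filter] at p1
      exact ⟨mem_star.2 ⟨c p (g1.subset p1.1), mem_filter.2 ⟨List.mem_toFinset.2 hu, p1.2⟩⟩,
        fun z => (List.nodup_cons.1 h.nd).1 (List.mem_toFinset.1 (mem_filter.1 z).1)⟩
    rw [← h.pc4, List.countP_eq_length_filter, ← List.length_map t,
      ← List.toFinset_card_of_nodup g2, ← card_union_of_disjoint (disjoint_left.2 fun e y z =>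
        (g3 e z).2 (mem_star.1 (mem_star.1 y).1).2)]
    exact (card_le_card (union_subset (filter_subset_filter _ (filter_subset _ _))
      fun e he => (g3 e he).1)).trans (hR.deg u)

theorem tabs_ok : ∀ T ∈ tabs, ∃ a b c d : Fin 4, Function.Bijective ![a, b, c, d] ∧
    (∀ x < 16, ap T x < 16 ∧ ∀ i : Fin 4, (ap T x).testBit i = x.testBit (![a, b, c, d] i)) ∧
    ∀ i j, ap T (pm (![a, b, c, d] i) (![a, b, c, d] j)) = pm i j := by decide +kernel

theorem mt_sound {R S : Hg} {v : ℕ} {E : Fin 4 → Finset ℕ} {L F : List ℕ}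
    (h : Lab S E (v :: L)) (hF : Flags R E F) (k : mt (msk E v) (L.map (msk E)) F = true) :
    ∃ E L F, Lab S E (v :: L) ∧ Flags R E F ∧ (msk E v, L.map (msk E), F) ∈ reps := by
  rw [mt, Option.any_eq_true] at k
  obtain ⟨r, r1, r2⟩ := k
  obtain ⟨T, t1, t2⟩ := List.any_eq_true.1 r2
  simp only [Bool.and_eq_true, Nat.beq_eq, List.isPerm_iff, List.all_eq_true, beq_iff_eq] at t2
  obtain ⟨-, ⟨t2, t3⟩, t4⟩ := t2
  obtain ⟨a, b, c, d, s1, s2, s3⟩ := tabs_ok T t1
  generalize ![a, b, c, d] = σ at s1 s2 s3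
  have m : ∀ u, msk (E ∘ σ) u = ap T (msk E u) := fun u =>
    msk_eq (s2 _ (msk_lt E u)).1 fun i => by
      rw [(s2 _ (msk_lt E u)).2, msk_bit, decide_eq_true_iff]; rfl
  rw [List.map_map, show ap T ∘ msk E = msk (E ∘ σ) from funext fun u => (m u).symm] at t3
  obtain ⟨K, k1, k2⟩ := perm_lift t3.symm
  have z : ∀ i j, pm i j ∈ [1, 2, 4, 8, 3, 5, 6, 9, 10, 12] := by decide +kernel
  refine ⟨E ∘ σ, K, r.2.2, (h.comp s1).perm (k1.cons v), fun i j => ?_, ?_⟩
  · rw [← has_iff, ← s3, ← t4 _ (z _ _), has_iff]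
    exact hF _ _
  · rw [m, t2, k2]
    exact List.mem_of_getElem? r1

/-- every star can be labelled as one of the listed stars. -/
theorem exists_rep {R : Hg} (hR : Cls R) {v : ℕ} (hv : v ∈ vs R) :
    ∃ E L F, Lab (star R v) E (v :: L) ∧ Flags R E F ∧ (msk E v, L.map (msk E), F) ∈ reps := by
  have s4 : ∀ e ∈ star R v, e.card = 4 := fun e he => hR.unif e (mem_star.1 he).1
  obtain ⟨E, h0⟩ := exists_slots (S := star R v) (fun a => by simpa using s4 _ a) (hR.deg v)
  have v1 : v ∈ vs (star R v) := by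
    obtain ⟨e, a, b⟩ := mem_vs.1 hv
    exact mem_vs.2 ⟨e, mem_star.2 ⟨a, b⟩, b⟩
  have nz : ∀ u ∈ vs (star R v), msk E u ≠ 0 := fun u hu a => by
    obtain ⟨e, e1, e2⟩ := mem_vs.1 hu
    obtain ⟨-, i, rfl⟩ := (h0.mem e).1 e1
    have b := msk_bit E u i
    simp [a, e2] at b
  generalize hL : (vs (star R v)).toList.erase v = L
  have h1 : Lab (star R v) E (v :: L) :=
    h0.perm (hL ▸ List.perm_cons_erase (mem_toList.2 v1)).symm
  have l1 : ∀ x ∈ L.map (msk E), x < 16 ∧ x ≠ 0 := fun x hx => by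
    obtain ⟨u, a, rfl⟩ := List.mem_map.1 hx
    exact ⟨msk_lt E u, nz u (mem_toList.1 (List.mem_of_mem_erase (hL ▸ a)))⟩
  generalize hM : L.map (msk E) = M at l1
  generalize hN : M.filter (fun x => !decide (x ∉ [1, 2, 4, 8])) = N
  generalize hB : (M.filter fun x => decide (x ∉ [1, 2, 4, 8])).insertionSort (· ≤ ·) = B
  have b1 : B.Perm (M.filter fun x => decide (x ∉ [1, 2, 4, 8])) := hB ▸ List.perm_insertionSort _ _
  have p1 : (B ++ N).Perm M := hN ▸ (b1.append_right _).trans (List.filter_append_perm _ _)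
  have p2 : (ones (cn N 1) (cn N 2) (cn N 4) (cn N 8) ++ B.reverseAux []).Perm M :=
    ((perm_ones fun x hx => by
      rw [← hN] at hx
      simpa using (List.mem_filter.1 hx).2).append
      (List.reverse_perm B)).trans (List.perm_append_comm.trans p1)
  have c1 : ∀ i, cond (bt (msk E v) (pm i i)) 3 0 = cn B (pm i i) + cn N (pm i i) := fun i => by
    have a := h1.inter i i
    rw [List.map_cons, hM, cn_cons, inter_self] at a
    rw [← cn_append, cn_perm p1]
    by_cases b : E i = ∅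
    · rw [b] at a
      revert a
      cases bt (msk E v) (pm i i) <;> simp
    · rw [s4 _ (h1.slot b)] at a
      rw [show bt (msk E v) (pm i i) = true from Nat.beq_eq.mpr ((msk_pm E v i i).2
        ⟨(mem_star.1 (h1.slot b)).2, (mem_star.1 (h1.slot b)).2⟩)] at a ⊢
      exact Nat.succ.inj a
  have g0 : go0 (msk E v) = true := by
    have a : ∀ x < 16, x ≠ 0 → x = 15 ∨ x ∈ [1, 2, 3, 4, 5, 6, 7, 8, 9, 10, 11, 12, 13, 14] := by
      decide
    rcases a _ (msk_lt E v) (nz v v1) with b | b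
    · exact b ▸ go_top
    · exact List.all_eq_true.1 go_low _ b
  change go _ 7 0 (cond (bt _ (pm 0 0)) 3 0) (cond (bt _ (pm 1 1)) 3 0) (cond (bt _ (pm 2 2)) 3 0)
    (cond (bt _ (pm 3 3)) 3 0) [] = true at g0
  rw [c1, c1, c1, c1] at g0
  have g1 := go_sound _ _ _ _ _ B 7 0 [] (hB ▸ List.pairwise_insertionSort _ _) (fun x hx => by
    have a : ∀ x < 16, x ≠ 0 → x ∉ [1, 2, 4, 8] → x ∈ [3, 5, 6, 7, 9, 10, 11, 12, 13, 14, 15] := by
      decide
    have b := List.mem_filter.1 (b1.subset hx)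
    exact ⟨Nat.zero_le _, a x (l1 x b.1).1 (l1 x b.1).2 (of_decide_eq_true b.2)⟩) g0
  obtain ⟨K, k1, k2⟩ := perm_lift (hM ▸ p2)
  have h2 : Lab (star R v) E (v :: K) := h1.perm (k1.cons v)
  change fin _ (ones (cn N 1) (cn N 2) (cn N 4) (cn N 8) ++ B.reverseAux []) = true at g1
  rw [← k2, fin, Bool.or_eq_true, Bool.not_eq_true', ← Bool.not_eq_true, List.all_eq_true,
    List.all_eq_true] at g1
  replace g1 := g1.resolve_left (not_not.2 fun p hp => by
    obtain ⟨i, j, a, rfl⟩ := pairs_pm p hp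
    rw [Nat.ble_eq, ← List.map_cons, ← h2.inter]
    by_cases b : E i = ∅
    · simp [b]
    by_cases c : E j = ∅
    · simp [c]
    by_contra d
    have e := s4 _ (h2.slot b)
    have f := s4 _ (h2.slot c)
    exact a ((h2.inj i j ((eq_of_subset_of_card_le inter_subset_left (by omega)).symm.trans
      (eq_of_subset_of_card_le inter_subset_right (by omega)))).resolve_left b))
  have f1 : Flags R E ((cand (msk E v) (K.map (msk E))).filter fun p =>
      decide (∃ i j, p = pm i j ∧ flag R (E i) (E j))) := fun i j => by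
    have a : ∀ i j k l, pm i j = pm k l → i = k ∧ j = l ∨ i = l ∧ j = k := by decide +kernel
    have b : ∀ i j, i ≠ j → pm i j ∈ pairs := by decide +kernel
    rw [List.mem_filter, decide_eq_true_iff, cand, List.mem_filter, Nat.beq_eq, ← List.map_cons,
      ← h2.inter]
    refine ⟨fun ⟨_, k, l, c, d⟩ => ?_, fun c => ⟨⟨b i j fun d => c.1 (d ▸ rfl), c.2.1⟩, i, j, rfl, c⟩⟩
    rcases a i j k l c with ⟨rfl, rfl⟩ | ⟨rfl, rfl⟩
    exacts [d, d.symm]
  have g2 := g1 _ (List.mem_sublists.2 (List.filter_sublist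
    (p := fun p => decide (∃ i j, p = pm i j ∧ flag R (E i) (E j)))))
  rw [okF_of hR h2 f1 fun p hp => (List.mem_filter.1 (List.mem_filter.1 hp).1).1] at g2
  exact mt_sound h2 f1 (by simpa using g2)

end Pool.Agent.P.MP_b2082d_co.Gen
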