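import Pool.Agent.P.MP_b2082d_co.G.Code

/-! The list of all flagged stars up to symmetry, and the search through all labelled stars. -/

namespace Pool.Agent.P.MP_b2082d_co.Gen

/-- mask of the centre, masks of the mates, masks of the flagged pairs. -/
noncomputable def reps : List (ℕ × List ℕ × List ℕ) :=
  [(1,[1,1,1],[]), (3,[1,1,1,2,2,2],[]), (3,[1,1,2,2,3],[]), (3,[1,2,3,3],[]),
  (3,[1,1,2,2,3],[3]), (7,[1,1,1,2,2,2,4,4,4],[]), (7,[1,1,1,2,2,4,4,6],[]),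
  (7,[1,1,1,2,4,6,6],[]), (7,[1,1,2,2,4,4,7],[]), (7,[1,1,2,2,4,5,6],[]), (7,[1,1,2,4,6,7],[]),
  (7,[1,1,2,5,6,6],[]), (7,[1,2,3,4,5,6],[]), (7,[1,2,4,7,7],[]), (7,[1,2,5,6,7],[]),
  (7,[1,3,5,6,6],[]), (7,[3,5,6,7],[]), (7,[1,1,1,2,2,4,4,6],[6]), (7,[1,1,2,2,4,4,7],[3]),
  (7,[1,1,2,2,4,4,7],[3,5]), (7,[1,1,2,2,4,4,7],[3,5,6]), (7,[1,1,2,2,4,5,6],[5]),
  (7,[1,1,2,2,4,5,6],[5,6]), (7,[1,1,2,4,6,7],[3]), (7,[1,1,2,4,6,7],[3,5]),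
  (7,[1,1,2,5,6,6],[5]), (7,[1,2,3,4,5,6],[3]), (7,[1,2,3,4,5,6],[3,5]),
  (7,[1,2,3,4,5,6],[3,5,6]), (7,[1,2,5,6,7],[3]), (7,[1,3,5,6,6],[3]), (7,[1,3,5,6,6],[3,5]),
  (15,[1,1,1,2,2,2,4,4,4,8,8,8],[]), (15,[1,1,1,2,2,2,4,4,8,8,12],[]),
  (15,[1,1,1,2,2,2,4,8,12,12],[]), (15,[1,1,1,2,2,4,4,8,8,14],[]),
  (15,[1,1,1,2,2,4,4,8,10,12],[]), (15,[1,1,1,2,2,4,8,12,14],[]), (15,[1,1,1,2,2,4,10,12,12],[]),
  (15,[1,1,1,2,4,6,8,10,12],[]), (15,[1,1,1,2,4,8,14,14],[]), (15,[1,1,1,2,4,10,12,14],[]),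
  (15,[1,1,1,2,6,10,12,12],[]), (15,[1,1,1,6,10,12,14],[]), (15,[1,1,2,2,3,4,4,8,8,12],[]),
  (15,[1,1,2,2,3,4,8,12,12],[]), (15,[1,1,2,2,4,4,8,8,15],[]), (15,[1,1,2,2,4,4,8,9,14],[]),
  (15,[1,1,2,2,4,4,9,10,12],[]), (15,[1,1,2,2,4,5,8,10,12],[]), (15,[1,1,2,2,4,8,12,15],[]),
  (15,[1,1,2,2,4,8,13,14],[]), (15,[1,1,2,2,4,9,12,14],[]), (15,[1,1,2,2,4,11,12,12],[]),
  (15,[1,1,2,2,5,10,12,12],[]), (15,[1,1,2,3,4,8,12,14],[]), (15,[1,1,2,3,4,10,12,12],[]),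
  (15,[1,1,2,4,6,8,10,13],[]), (15,[1,1,2,4,6,9,10,12],[]), (15,[1,1,2,4,8,14,15],[]),
  (15,[1,1,2,4,9,14,14],[]), (15,[1,1,2,4,10,12,15],[]), (15,[1,1,2,4,10,13,14],[]),
  (15,[1,1,2,5,10,12,14],[]), (15,[1,1,2,6,10,12,13],[]), (15,[1,1,2,6,11,12,12],[]),
  (15,[1,1,3,6,10,12,12],[]), (15,[1,1,6,10,12,15],[]), (15,[1,1,6,10,13,14],[]),
  (15,[1,2,3,3,4,8,12,12],[]), (15,[1,2,3,4,5,8,10,12],[]), (15,[1,2,3,4,8,12,15],[]),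
  (15,[1,2,3,4,8,13,14],[]), (15,[1,2,3,4,9,12,14],[]), (15,[1,2,3,4,11,12,12],[]),
  (15,[1,2,3,5,10,12,12],[]), (15,[1,2,4,7,9,10,12],[]), (15,[1,2,4,8,15,15],[]),
  (15,[1,2,4,9,14,15],[]), (15,[1,2,4,11,13,14],[]), (15,[1,2,5,5,10,10,12],[]),
  (15,[1,2,5,6,9,10,12],[]), (15,[1,2,5,9,14,14],[]), (15,[1,2,5,10,12,15],[]),
  (15,[1,2,5,10,13,14],[]), (15,[1,2,5,11,12,14],[]), (15,[1,2,7,11,12,12],[]),
  (15,[1,3,5,10,12,14],[]), (15,[1,3,6,10,12,13],[]), (15,[1,3,6,11,12,12],[]),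
  (15,[1,6,10,13,15],[]), (15,[1,6,11,13,14],[]), (15,[3,3,5,10,12,12],[]),
  (15,[3,5,6,9,10,12],[]), (15,[3,5,9,14,14],[]), (15,[3,5,10,12,15],[]), (15,[3,5,10,13,14],[]),
  (15,[7,11,13,14],[]), (15,[1,1,1,2,2,2,4,4,8,8,12],[12]), (15,[1,1,1,2,2,4,4,8,8,14],[6]),
  (15,[1,1,1,2,2,4,4,8,8,14],[6,10]), (15,[1,1,1,2,2,4,4,8,8,14],[6,10,12]),
  (15,[1,1,1,2,2,4,4,8,10,12],[10]), (15,[1,1,1,2,2,4,4,8,10,12],[10,12]),
  (15,[1,1,1,2,2,4,8,12,14],[6]), (15,[1,1,1,2,2,4,8,12,14],[6,10]),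
  (15,[1,1,1,2,2,4,10,12,12],[10]), (15,[1,1,1,2,4,6,8,10,12],[6]),
  (15,[1,1,1,2,4,6,8,10,12],[6,10]), (15,[1,1,1,2,4,6,8,10,12],[6,10,12]),
  (15,[1,1,1,2,4,10,12,14],[6]), (15,[1,1,1,2,6,10,12,12],[6]), (15,[1,1,1,2,6,10,12,12],[6,10]),
  (15,[1,1,2,2,3,4,4,8,8,12],[3]), (15,[1,1,2,2,3,4,4,8,8,12],[3,12]),
  (15,[1,1,2,2,3,4,8,12,12],[3]), (15,[1,1,2,2,4,4,8,8,15],[3]), (15,[1,1,2,2,4,4,8,8,15],[3,5]),
  (15,[1,1,2,2,4,4,8,8,15],[3,5,6]), (15,[1,1,2,2,4,4,8,8,15],[3,5,6,9]),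
  (15,[1,1,2,2,4,4,8,8,15],[3,5,6,9,10]), (15,[1,1,2,2,4,4,8,8,15],[3,5,6,9,10,12]),
  (15,[1,1,2,2,4,4,8,8,15],[3,5,9]), (15,[1,1,2,2,4,4,8,8,15],[3,5,10]),
  (15,[1,1,2,2,4,4,8,8,15],[3,5,10,12]), (15,[1,1,2,2,4,4,8,8,15],[3,12]),
  (15,[1,1,2,2,4,4,8,9,14],[6]), (15,[1,1,2,2,4,4,8,9,14],[6,9]),
  (15,[1,1,2,2,4,4,8,9,14],[6,9,10]), (15,[1,1,2,2,4,4,8,9,14],[6,9,10,12]),
  (15,[1,1,2,2,4,4,8,9,14],[6,10]), (15,[1,1,2,2,4,4,8,9,14],[6,10,12]),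
  (15,[1,1,2,2,4,4,8,9,14],[9]), (15,[1,1,2,2,4,4,8,9,14],[9,10]),
  (15,[1,1,2,2,4,4,8,9,14],[9,10,12]), (15,[1,1,2,2,4,4,8,9,14],[10]),
  (15,[1,1,2,2,4,4,8,9,14],[10,12]), (15,[1,1,2,2,4,4,9,10,12],[9]),
  (15,[1,1,2,2,4,4,9,10,12],[9,10]), (15,[1,1,2,2,4,4,9,10,12],[9,10,12]),
  (15,[1,1,2,2,4,5,8,10,12],[5]), (15,[1,1,2,2,4,5,8,10,12],[5,10]),
  (15,[1,1,2,2,4,5,8,10,12],[5,10,12]), (15,[1,1,2,2,4,5,8,10,12],[5,12]),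
  (15,[1,1,2,2,4,5,8,10,12],[12]), (15,[1,1,2,2,4,8,12,15],[3]), (15,[1,1,2,2,4,8,12,15],[3,5]),
  (15,[1,1,2,2,4,8,12,15],[3,5,6]), (15,[1,1,2,2,4,8,12,15],[3,5,9]),
  (15,[1,1,2,2,4,8,12,15],[3,5,10]), (15,[1,1,2,2,4,8,12,15],[5]),
  (15,[1,1,2,2,4,8,12,15],[5,6]), (15,[1,1,2,2,4,8,12,15],[5,9]),
  (15,[1,1,2,2,4,8,12,15],[5,10]), (15,[1,1,2,2,4,8,13,14],[5]), (15,[1,1,2,2,4,8,13,14],[5,6]),
  (15,[1,1,2,2,4,8,13,14],[5,10]), (15,[1,1,2,2,4,9,12,14],[6]), (15,[1,1,2,2,4,9,12,14],[6,9]),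
  (15,[1,1,2,2,4,9,12,14],[6,10]), (15,[1,1,2,2,4,9,12,14],[9]), (15,[1,1,2,2,4,9,12,14],[9,10]),
  (15,[1,1,2,2,4,9,12,14],[10]), (15,[1,1,2,2,4,11,12,12],[3]), (15,[1,1,2,2,4,11,12,12],[3,9]),
  (15,[1,1,2,2,4,11,12,12],[3,9,10]), (15,[1,1,2,2,4,11,12,12],[9]),
  (15,[1,1,2,2,4,11,12,12],[9,10]), (15,[1,1,2,2,5,10,12,12],[5]),
  (15,[1,1,2,2,5,10,12,12],[5,10]), (15,[1,1,2,3,4,8,12,14],[3]), (15,[1,1,2,3,4,8,12,14],[3,6]),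
  (15,[1,1,2,3,4,8,12,14],[3,6,10]), (15,[1,1,2,3,4,8,12,14],[6]),
  (15,[1,1,2,3,4,8,12,14],[6,10]), (15,[1,1,2,3,4,10,12,12],[3]),
  (15,[1,1,2,3,4,10,12,12],[3,10]), (15,[1,1,2,3,4,10,12,12],[10]), (15,[1,1,2,4,6,8,10,13],[5]),
  (15,[1,1,2,4,6,8,10,13],[5,6]), (15,[1,1,2,4,6,8,10,13],[5,6,9]),
  (15,[1,1,2,4,6,8,10,13],[5,6,12]), (15,[1,1,2,4,6,8,10,13],[5,9]),
  (15,[1,1,2,4,6,8,10,13],[5,9,12]), (15,[1,1,2,4,6,8,10,13],[5,10]),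
  (15,[1,1,2,4,6,8,10,13],[5,12]), (15,[1,1,2,4,6,8,10,13],[6]), (15,[1,1,2,4,6,8,10,13],[6,12]),
  (15,[1,1,2,4,6,8,10,13],[12]), (15,[1,1,2,4,6,9,10,12],[6]), (15,[1,1,2,4,6,9,10,12],[6,9]),
  (15,[1,1,2,4,6,9,10,12],[6,10]), (15,[1,1,2,4,6,9,10,12],[6,10,12]),
  (15,[1,1,2,4,6,9,10,12],[9]), (15,[1,1,2,4,6,9,10,12],[9,10]),
  (15,[1,1,2,4,6,9,10,12],[9,10,12]), (15,[1,1,2,4,6,9,10,12],[10]),
  (15,[1,1,2,4,6,9,10,12],[10,12]), (15,[1,1,2,4,8,14,15],[3]), (15,[1,1,2,4,9,14,14],[9]),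
  (15,[1,1,2,4,10,12,15],[3]), (15,[1,1,2,4,10,12,15],[3,5]), (15,[1,1,2,4,10,12,15],[3,5,6]),
  (15,[1,1,2,4,10,12,15],[3,5,9]), (15,[1,1,2,4,10,12,15],[3,6]), (15,[1,1,2,4,10,12,15],[3,9]),
  (15,[1,1,2,4,10,12,15],[6]), (15,[1,1,2,4,10,12,15],[6,9]), (15,[1,1,2,4,10,12,15],[9]),
  (15,[1,1,2,4,10,13,14],[5]), (15,[1,1,2,4,10,13,14],[5,6]), (15,[1,1,2,4,10,13,14],[6]),
  (15,[1,1,2,4,10,13,14],[6,9]), (15,[1,1,2,4,10,13,14],[9]), (15,[1,1,2,5,10,12,14],[5]),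
  (15,[1,1,2,5,10,12,14],[5,6]), (15,[1,1,2,5,10,12,14],[6]), (15,[1,1,2,6,10,12,13],[5]),
  (15,[1,1,2,6,10,12,13],[5,6]), (15,[1,1,2,6,10,12,13],[5,9]), (15,[1,1,2,6,10,12,13],[5,10]),
  (15,[1,1,2,6,10,12,13],[6]), (15,[1,1,2,6,11,12,12],[3]), (15,[1,1,2,6,11,12,12],[3,6]),
  (15,[1,1,2,6,11,12,12],[3,6,9]), (15,[1,1,2,6,11,12,12],[3,6,10]),
  (15,[1,1,2,6,11,12,12],[3,9]), (15,[1,1,2,6,11,12,12],[3,9,10]),
  (15,[1,1,2,6,11,12,12],[3,10]), (15,[1,1,2,6,11,12,12],[6]), (15,[1,1,2,6,11,12,12],[6,9]),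
  (15,[1,1,2,6,11,12,12],[6,10]), (15,[1,1,2,6,11,12,12],[9]), (15,[1,1,2,6,11,12,12],[9,10]),
  (15,[1,1,2,6,11,12,12],[10]), (15,[1,1,3,6,10,12,12],[3]), (15,[1,1,3,6,10,12,12],[3,6]),
  (15,[1,1,3,6,10,12,12],[3,6,10]), (15,[1,1,3,6,10,12,12],[6]), (15,[1,1,3,6,10,12,12],[6,10]),
  (15,[1,1,6,10,12,15],[3]), (15,[1,1,6,10,12,15],[3,5]), (15,[1,1,6,10,12,15],[3,5,9]),
  (15,[1,1,6,10,13,14],[5]), (15,[1,2,3,4,5,8,10,12],[3]), (15,[1,2,3,4,5,8,10,12],[3,5]),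
  (15,[1,2,3,4,5,8,10,12],[3,5,10]), (15,[1,2,3,4,5,8,10,12],[3,5,10,12]),
  (15,[1,2,3,4,5,8,10,12],[3,12]), (15,[1,2,3,4,8,12,15],[5]), (15,[1,2,3,4,8,12,15],[5,6]),
  (15,[1,2,3,4,8,12,15],[5,10]), (15,[1,2,3,4,8,13,14],[3]), (15,[1,2,3,4,8,13,14],[5]),
  (15,[1,2,3,4,8,13,14],[5,6]), (15,[1,2,3,4,8,13,14],[5,10]), (15,[1,2,3,4,9,12,14],[3]),
  (15,[1,2,3,4,9,12,14],[3,6]), (15,[1,2,3,4,9,12,14],[3,6,10]), (15,[1,2,3,4,9,12,14],[3,10]),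
  (15,[1,2,3,4,9,12,14],[6]), (15,[1,2,3,4,9,12,14],[6,9]), (15,[1,2,3,4,9,12,14],[6,10]),
  (15,[1,2,3,4,9,12,14],[9]), (15,[1,2,3,4,9,12,14],[9,10]), (15,[1,2,3,4,9,12,14],[10]),
  (15,[1,2,3,4,11,12,12],[9]), (15,[1,2,3,4,11,12,12],[9,10]), (15,[1,2,3,5,10,12,12],[3]),
  (15,[1,2,3,5,10,12,12],[3,5]), (15,[1,2,3,5,10,12,12],[3,5,10]), (15,[1,2,3,5,10,12,12],[5]),
  (15,[1,2,3,5,10,12,12],[5,10]), (15,[1,2,4,7,9,10,12],[3]), (15,[1,2,4,7,9,10,12],[3,5]),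
  (15,[1,2,4,7,9,10,12],[3,5,6]), (15,[1,2,4,7,9,10,12],[3,5,9]), (15,[1,2,4,7,9,10,12],[3,9]),
  (15,[1,2,4,7,9,10,12],[3,12]), (15,[1,2,4,7,9,10,12],[9]), (15,[1,2,4,9,14,15],[3]),
  (15,[1,2,4,11,13,14],[3]), (15,[1,2,5,5,10,10,12],[12]), (15,[1,2,5,6,9,10,12],[5]),
  (15,[1,2,5,6,9,10,12],[5,6]), (15,[1,2,5,6,9,10,12],[5,6,12]), (15,[1,2,5,6,9,10,12],[5,9]),
  (15,[1,2,5,6,9,10,12],[5,9,12]), (15,[1,2,5,6,9,10,12],[5,10]), (15,[1,2,5,6,9,10,12],[5,12]),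
  (15,[1,2,5,6,9,10,12],[12]), (15,[1,2,5,9,14,14],[5]), (15,[1,2,5,10,12,15],[3]),
  (15,[1,2,5,10,12,15],[3,6]), (15,[1,2,5,10,12,15],[6]), (15,[1,2,5,10,12,15],[6,9]),
  (15,[1,2,5,10,13,14],[6]), (15,[1,2,5,10,13,14],[6,9]), (15,[1,2,5,11,12,14],[3]),
  (15,[1,2,5,11,12,14],[3,6]), (15,[1,2,5,11,12,14],[5]), (15,[1,2,5,11,12,14],[6]),
  (15,[1,2,5,11,12,14],[6,9]), (15,[1,2,5,11,12,14],[9]), (15,[1,2,7,11,12,12],[5]),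
  (15,[1,2,7,11,12,12],[5,9]), (15,[1,2,7,11,12,12],[5,10]), (15,[1,3,5,10,12,14],[3]),
  (15,[1,3,5,10,12,14],[3,6]), (15,[1,3,5,10,12,14],[6]), (15,[1,3,6,10,12,13],[3]),
  (15,[1,3,6,10,12,13],[3,5]), (15,[1,3,6,10,12,13],[3,5,9]), (15,[1,3,6,10,12,13],[5]),
  (15,[1,3,6,10,12,13],[5,6]), (15,[1,3,6,10,12,13],[5,9]), (15,[1,3,6,10,12,13],[5,10]),
  (15,[1,3,6,10,12,13],[6]), (15,[1,3,6,11,12,12],[6]), (15,[1,3,6,11,12,12],[6,9]),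
  (15,[1,3,6,11,12,12],[6,10]), (15,[1,3,6,11,12,12],[9]), (15,[1,3,6,11,12,12],[9,10]),
  (15,[1,3,6,11,12,12],[10]), (15,[1,6,10,13,15],[3]), (15,[1,6,11,13,14],[3]),
  (15,[3,3,5,10,12,12],[5,10]), (15,[3,5,6,9,10,12],[3,5,6,9,10,12]),
  (15,[3,5,6,9,10,12],[3,5,10,12]), (15,[3,5,6,9,10,12],[3,12]), (15,[3,5,9,14,14],[3]),
  (15,[3,5,10,12,15],[6,9]), (15,[3,5,10,13,14],[3]), (15,[3,5,10,13,14],[6]),
  (15,[3,5,10,13,14],[6,9])]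

/-- search trees. -/
inductive BT
  | lf (a : ℕ) : BT
  | nd (k : ℕ) (l r : BT) : BT

/-- the value stored for the key `n`. -/
noncomputable def BT.get (t : BT) (n : ℕ) : ℕ :=
  BT.rec (fun a => a) (fun k _ _ l r => cond (Nat.blt n k) l r) t

noncomputable def repT : BT :=
  .nd 9952994 (.nd 4887432 (.nd 2458624 (.nd 1366786 (.nd 746496 (.nd 406250 (.nd 160000 (.nd
  68782 (.lf 0) (.lf 1)) (.nd 209952 (.lf 2) (.nd 344628 (.lf 5) (.lf 6)))) (.nd 521284 (.nd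
  520614 (.lf 3) (.lf 9)) (.nd 676864 (.lf 32) (.nd 720298 (.lf 7) (.lf 33))))) (.nd 1174136 (.nd
  932824 (.nd 829440 (.lf 12) (.lf 8)) (.nd 937024 (.lf 11) (.nd 967912 (.lf 44) (.lf 36)))) (.nd
  1253170 (.nd 1237072 (.lf 34) (.lf 49)) (.nd 1269472 (.lf 15) (.nd 1273036 (.lf 48) (.lf
  39)))))) (.nd 1925816 (.nd 1562500 (.nd 1378420 (.nd 1374274 (.lf 35) (.lf 10)) (.nd 1423262
  (.lf 4) (.nd 1513742 (.lf 45) (.lf 38)))) (.nd 1705300 (.nd 1600300 (.lf 70) (.lf 58)) (.nd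
  1822052 (.lf 47) (.nd 1880672 (.lf 56) (.lf 54))))) (.nd 2106248 (.nd 1968300 (.nd 1967760 (.lf
  42) (.lf 17)) (.nd 1993390 (.lf 69) (.nd 2060816 (.lf 81) (.lf 37)))) (.nd 2299520 (.nd 2110990
  (.lf 14) (.nd 2252000 (.lf 57) (.lf 75))) (.nd 2416970 (.lf 66) (.nd 2450720 (.lf 53) (.lf
  55))))))) (.nd 3514624 (.nd 3024000 (.nd 2901862 (.nd 2477682 (.nd 2463534 (.lf 93) (.lf 21))
  (.nd 2508440 (.lf 80) (.nd 2590336 (.lf 52) (.lf 76)))) (.nd 2962746 (.nd 2945360 (.lf 98) (.lf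
  65)) (.nd 2973080 (.lf 41) (.nd 2985472 (.lf 73) (.lf 46))))) (.nd 3254040 (.nd 3063636 (.nd
  3039062 (.lf 92) (.lf 64)) (.nd 3065712 (.lf 26) (.nd 3202412 (.lf 16) (.lf 51)))) (.nd 3355236
  (.nd 3278860 (.lf 74) (.nd 3301536 (.lf 113) (.lf 13))) (.nd 3465424 (.lf 18) (.nd 3472920 (.lf
  25) (.lf 63)))))) (.nd 4211572 (.nd 4052378 (.nd 3768410 (.nd 3585458 (.lf 102) (.lf 88)) (.nd
  3912300 (.lf 72) (.nd 3975430 (.lf 89) (.lf 140)))) (.nd 4078874 (.nd 4065390 (.lf 115) (.lf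
  87)) (.nd 4113826 (.lf 50) (.nd 4160272 (.lf 43) (.lf 144))))) (.nd 4558240 (.nd 4246426 (.nd
  4240840 (.lf 137) (.lf 107)) (.nd 4324032 (.lf 30) (.nd 4371076 (.lf 62) (.lf 40)))) (.nd
  4722962 (.nd 4637926 (.lf 99) (.nd 4708720 (.lf 23) (.lf 244))) (.nd 4767688 (.lf 106) (.nd
  4793392 (.lf 193) (.lf 189)))))))) (.nd 6998572 (.nd 6006658 (.nd 5426660 (.nd 5039470 (.nd
  4951438 (.nd 4902500 (.lf 86) (.lf 175)) (.nd 4975966 (.lf 132) (.nd 5037912 (.lf 196) (.lf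
  85)))) (.nd 5314066 (.nd 5148880 (.lf 60) (.lf 126)) (.nd 5318676 (.lf 135) (.nd 5326520 (.lf
  71) (.lf 168))))) (.nd 5722672 (.nd 5580352 (.nd 5431536 (.lf 177) (.lf 61)) (.nd 5627986 (.lf
  84) (.nd 5644580 (.lf 283) (.lf 111)))) (.nd 5833786 (.nd 5795120 (.lf 68) (.nd 5809312 (.lf
  268) (.lf 82))) (.nd 5835130 (.lf 186) (.nd 5867588 (.lf 290) (.lf 235)))))) (.nd 6529478 (.nd
  6247616 (.nd 6124610 (.nd 6066860 (.lf 178) (.lf 104)) (.nd 6132188 (.lf 271) (.nd 6195280 (.lf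
  170) (.lf 188)))) (.nd 6446936 (.nd 6305960 (.lf 29) (.lf 163)) (.nd 6456664 (.lf 238) (.nd
  6478272 (.lf 96) (.lf 22))))) (.nd 6825700 (.nd 6773420 (.nd 6688864 (.lf 160) (.lf 94)) (.nd
  6795198 (.lf 166) (.nd 6816506 (.lf 282) (.lf 157)))) (.nd 6953248 (.nd 6856186 (.lf 279) (.nd
  6896756 (.lf 79) (.lf 173))) (.nd 6983456 (.lf 83) (.nd 6996616 (.lf 162) (.lf 114))))))) (.nd
  8485560 (.nd 7755914 (.nd 7493456 (.nd 7191686 (.nd 7087408 (.lf 273) (.lf 67)) (.nd 7346918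
  (.lf 256) (.nd 7416640 (.lf 222) (.lf 59)))) (.nd 7629368 (.nd 7503662 (.lf 263) (.lf 229))
  (.nd 7638608 (.lf 221) (.nd 7730424 (.lf 232) (.lf 27))))) (.nd 7948190 (.nd 7862932 (.nd
  7853900 (.lf 260) (.lf 217)) (.nd 7868810 (.lf 116) (.nd 7925760 (.lf 234) (.lf 110)))) (.nd
  8341078 (.nd 8014968 (.lf 265) (.nd 8121200 (.lf 214) (.lf 154))) (.nd 8380892 (.lf 141) (.nd
  8389816 (.lf 310) (.lf 103)))))) (.nd 9293432 (.nd 8779520 (.nd 8634968 (.nd 8532324 (.lf 266)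
  (.lf 19)) (.nd 8701058 (.lf 91) (.nd 8712902 (.lf 252) (.lf 317)))) (.nd 8937434 (.nd 8929476
  (.lf 95) (.lf 216)) (.nd 9167256 (.lf 313) (.nd 9236810 (.lf 307) (.lf 253))))) (.nd 9651854
  (.nd 9306490 (.nd 9305982 (.lf 78) (.lf 318)) (.nd 9530514 (.lf 143) (.nd 9643558 (.lf 321)
  (.lf 138)))) (.nd 9820246 (.nd 9733600 (.lf 145) (.nd 9767520 (.lf 248) (.lf 323))) (.nd
  9855316 (.lf 108) (.nd 9879120 (.lf 190) (.lf 209))))))))) (.nd 16222316 (.nd 13014022 (.nd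
  11527434 (.nd 10746284 (.nd 10342180 (.nd 10077480 (.nd 9983584 (.lf 150) (.lf 31)) (.nd
  10148130 (.lf 309) (.nd 10293786 (.lf 213) (.lf 211)))) (.nd 10670878 (.nd 10477420 (.lf 245)
  (.lf 127)) (.nd 10687798 (.lf 100) (.nd 10720558 (.lf 199) (.lf 194))))) (.nd 11124640 (.nd
  10973584 (.nd 10867978 (.lf 169) (.lf 191)) (.nd 10974150 (.lf 24) (.nd 11047268 (.lf 300) (.lf
  176)))) (.nd 11309652 (.nd 11203558 (.lf 197) (.nd 11208762 (.lf 133) (.lf 298))) (.nd 11424364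
  (.lf 304) (.nd 11508012 (.lf 288) (.lf 303)))))) (.nd 12239856 (.nd 12048820 (.nd 11774086 (.nd
  11617632 (.lf 90) (.lf 301)) (.nd 11927104 (.lf 130) (.nd 12013360 (.lf 284) (.lf 136)))) (.nd
  12101346 (.nd 12087040 (.lf 286) (.lf 184)) (.nd 12130228 (.lf 200) (.nd 12222506 (.lf 291)
  (.lf 272))))) (.nd 12400596 (.nd 12287270 (.nd 12278200 (.lf 249) (.lf 243)) (.nd 12337990 (.lf
  269) (.nd 12374492 (.lf 289) (.lf 112)))) (.nd 12499516 (.nd 12452256 (.lf 208) (.nd 12468064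
  (.lf 206) (.lf 179))) (.nd 12737738 (.lf 296) (.nd 12852490 (.lf 236) (.lf 187))))))) (.nd
  14856912 (.nd 13837610 (.nd 13420094 (.nd 13284670 (.nd 13176688 (.lf 182) (.lf 329)) (.nd
  13300970 (.lf 185) (.nd 13380338 (.lf 158) (.lf 171)))) (.nd 13675204 (.nd 13440592 (.lf 105)
  (.lf 332)) (.nd 13726972 (.lf 97) (.nd 13766906 (.lf 330) (.lf 239))))) (.nd 14417320 (.nd
  13925678 (.nd 13882582 (.lf 164) (.lf 278)) (.nd 14085334 (.lf 161) (.nd 14271544 (.lf 333)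
  (.lf 277)))) (.nd 14741906 (.nd 14490290 (.lf 281) (.nd 14703724 (.lf 167) (.lf 274))) (.nd
  14770288 (.lf 159) (.nd 14802590 (.lf 292) (.lf 223)))))) (.nd 15468584 (.nd 15014900 (.nd
  14871890 (.nd 14859326 (.lf 326) (.lf 174)) (.nd 14935520 (.lf 257) (.nd 14958628 (.lf 230)
  (.lf 240)))) (.nd 15203984 (.nd 15122458 (.lf 261) (.lf 294)) (.nd 15273200 (.lf 220) (.nd
  15310622 (.lf 259) (.lf 226))))) (.nd 15680810 (.nd 15524784 (.nd 15469804 (.lf 218) (.lf 198))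
  (.nd 15583372 (.lf 28) (.nd 15636080 (.lf 77) (.lf 228)))) (.nd 16008800 (.nd 15769010 (.lf
  264) (.nd 16000264 (.lf 231) (.lf 125))) (.nd 16033610 (.lf 156) (.nd 16151684 (.lf 233) (.lf
  155)))))))) (.nd 22499806 (.nd 19145790 (.nd 17503506 (.nd 16942466 (.nd 16358690 (.nd 16259572
  (.lf 219) (.lf 117)) (.nd 16564698 (.lf 262) (.nd 16635658 (.lf 215) (.lf 142)))) (.nd 17249760
  (.nd 17115716 (.lf 311) (.lf 316)) (.nd 17372312 (.lf 20) (.nd 17388254 (.lf 325) (.lf 314)))))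
  (.nd 18343354 (.nd 18028208 (.nd 17973020 (.lf 267) (.lf 255)) (.nd 18043830 (.lf 315) (.nd
  18115904 (.lf 319) (.lf 254)))) (.nd 18677156 (.nd 18409960 (.lf 139) (.nd 18576810 (.lf 246)
  (.lf 308))) (.nd 18780930 (.lf 280) (.nd 18789178 (.lf 320) (.lf 109)))))) (.nd 20593756 (.nd
  19671752 (.nd 19291230 (.nd 19256834 (.lf 210) (.lf 146)) (.nd 19507410 (.lf 322) (.nd 19528868
  (.lf 212) (.lf 153)))) (.nd 20224360 (.nd 19788176 (.lf 151) (.lf 152)) (.nd 20412772 (.lf 195)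
  (.nd 20493496 (.lf 128) (.lf 192))))) (.nd 21560366 (.nd 21397626 (.nd 21379696 (.lf 101) (.lf
  134)) (.nd 21415104 (.lf 299) (.nd 21557988 (.lf 306) (.lf 305)))) (.nd 22355748 (.nd 21797424
  (.lf 270) (.nd 22283296 (.lf 302) (.lf 285))) (.nd 22378876 (.lf 324) (.nd 22405012 (.lf 131)
  (.lf 287))))))) (.nd 27930106 (.nd 24374812 (.nd 23304672 (.nd 23191614 (.nd 22713696 (.lf 180)
  (.lf 201)) (.nd 23228920 (.lf 204) (.nd 23256378 (.lf 297) (.lf 205)))) (.nd 23513980 (.nd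
  23447556 (.lf 251) (.lf 250)) (.nd 23558366 (.lf 181) (.nd 23591412 (.lf 237) (.lf 207)))))
  (.nd 26171696 (.nd 25618736 (.nd 24978512 (.lf 183) (.lf 172)) (.nd 25847794 (.lf 165) (.nd
  25865578 (.lf 276) (.lf 334)))) (.nd 27267140 (.nd 26594848 (.lf 224) (.nd 27240730 (.lf 275)
  (.lf 241))) (.nd 27414560 (.lf 225) (.nd 27464158 (.lf 258) (.lf 293)))))) (.nd 33823064 (.nd
  30076300 (.nd 28805140 (.nd 27960392 (.lf 295) (.lf 227)) (.nd 29064448 (.lf 123) (.nd 29175580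
  (.lf 118) (.lf 122)))) (.nd 32860640 (.nd 30076328 (.lf 247) (.lf 312)) (.nd 33452624 (.lf 331)
  (.nd 33595508 (.lf 149) (.lf 147))))) (.nd 44933902 (.nd 38416000 (.nd 35161198 (.lf 148) (.lf
  129)) (.nd 38762568 (.lf 328) (.nd 39054888 (.lf 202) (.lf 203)))) (.nd 71158780 (.nd 46648000
  (.lf 242) (.nd 47018440 (.lf 124) (.lf 119))) (.nd 84399952 (.lf 120) (.nd 102485656 (.lf 327)
  (.lf 121)))))))))

/-- the permutations of the slots acting on masks, four bits per mask. -/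
def tabs : List ℕ :=
  [18364758544493064720, 18364683486789906960, 18355225778678027280, 18336085189344794640,
  18355113192123290640, 18336047660493215760, 18297203519274627360, 18297128461571469600,
  18152560703022715200, 17863200012815733120, 18152448116467978560, 17863162483964154240,
  18282904370552071200, 18263763781218838560, 18147794320115196480, 17858433629908214400,
  18119083436115347520, 17848863335241598080, 18282773019571545120, 18263707487941470240,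
  18147662969134670400, 17858377336630846080, 18119064671689558080, 17848844570815808640]

def ap (T x : ℕ) : ℕ := Nat.mod (Nat.shiftRight T (Nat.mul 4 x)) 16

def pairs : List ℕ := [3, 5, 6, 9, 10, 12]

/-- `x` has exactly one of the two slots of `p`. -/
def inh (p x : ℕ) : Bool := !(Nat.beq (Nat.land x p) 0 || Nat.beq (Nat.land x p) p)

def same (M : List ℕ) (p q : ℕ) : Bool := M.all fun x => inh p x == inh q x

def pc4 (x : ℕ) : ℕ := ap 4841987667533046032 x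

noncomputable def okF (M C F : List ℕ) : Bool :=
  (F.all fun p => has F (15 - p) || !(has C (15 - p) && same M p (15 - p))) &&
    M.all fun x => Nat.beq (pc4 x) 1 ||
      Nat.ble (pc4 x + (F.pwFilter fun p q => same M p q = false).countP (inh · x)) 4

noncomputable def enc (T : ℕ) (M F : List ℕ) : ℕ :=
  List.rec (List.rec 0 (fun p _ r => Nat.add (Nat.shiftLeft 4294967296 (ap T p)) r) F)
    (fun x _ r => Nat.add (Nat.shiftLeft 1 (Nat.mul 2 (ap T x))) r) M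

def big (M : List ℕ) : List ℕ := M.filter fun x => Nat.ble 2 (pc4 x)

noncomputable def mt (a : ℕ) (M F : List ℕ) : Bool :=
  (reps[repT.get (sigc (a :: M) F)]?).any fun r => tabs.any fun T =>
    Nat.beq (enc T (big M) F) (enc 18364758544493064720 (big r.2.1) r.2.2) &&
      (Nat.beq (ap T a) r.1 && (M.map (ap T)).isPerm r.2.1 &&
        [1, 2, 4, 8, 3, 5, 6, 9, 10, 12].all fun p => has F p == has r.2.2 (ap T p))

noncomputable def cand (a : ℕ) (M : List ℕ) : List ℕ :=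
  pairs.filter fun p => Nat.beq (cn (a :: M) p) 2

noncomputable def fin (a : ℕ) (M : List ℕ) : Bool :=
  !(pairs.all fun p => Nat.ble (cn (a :: M) p) 3) ||
    (cand a M).sublists.all fun F => !okF M (cand a M) F || mt a M F

def bt (x p : ℕ) : Bool := Nat.beq (Nat.land x p) p

def fits (x p c : ℕ) : Bool := cond (bt x p) (Nat.ble 1 c) true

def dec (x p c : ℕ) : ℕ := cond (bt x p) (Nat.pred c) c

def ones (c d e f : ℕ) : List ℕ :=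
  List.replicate c 1 ++ (List.replicate d 2 ++ (List.replicate e 4 ++ List.replicate f 8))

noncomputable def go (a : ℕ) : ℕ → ℕ → ℕ → ℕ → ℕ → ℕ → List ℕ → Bool
  | 0, _, _, _, _, _, _ => false
  | n + 1, lo, c, d, e, f, A => fin a (ones c d e f ++ A) &&
    [3, 5, 6, 7, 9, 10, 11, 12, 13, 14, 15].all fun x => Nat.blt x lo ||
      !(fits x 1 c && fits x 2 d && fits x 4 e && fits x 8 f) ||
        go a n x (dec x 1 c) (dec x 2 d) (dec x 4 e) (dec x 8 f) (x :: A)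

noncomputable def go0 (a : ℕ) : Bool :=
  go a 7 0 (cond (bt a 1) 3 0) (cond (bt a 2) 3 0) (cond (bt a 4) 3 0) (cond (bt a 8) 3 0) []

theorem go_low : [1, 2, 3, 4, 5, 6, 7, 8, 9, 10, 11, 12, 13, 14].all go0 = true := by
  decide +kernel

theorem go_top : go0 15 = true := by decide +kernel

end Pool.Agent.P.MP_b2082d_co.Gen
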