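import Pool.Agent.P.MP_b2082d_co.G.Struct

/-! Systems with few edges, described by the multiset of the codes of their vertices. -/

namespace Pool.Agent.P.MP_b2082d_co.Gen.Sm
open Finset

def bi {α : Type} (b : Bool) (x y : α) : α := @Bool.rec (fun _ => α) y x b

theorem bi_eq {α : Type} (b : Bool) (x y : α) : bi b x y = if b = true then x else y := by
  cases b <;> rfl

def al {α : Type} (f : α → Bool) (l : List α) : Bool :=
  @List.rec α (fun _ => Bool) true (fun a _ ih => bi (f a) ih false) l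

def sm {α : Type} (f : α → ℕ) (l : List α) : ℕ :=
  @List.rec α (fun _ => ℕ) 0 (fun a _ ih => Nat.add (f a) ih) l

def bt (x i : ℕ) : Bool := Nat.beq (Nat.land (Nat.shiftRight x i) 1) 1

def frc {β : Type} (n : ℕ) (k : ℕ → β) : β :=
  @Nat.rec (fun _ => β) (k 0) (fun m _ => k (Nat.succ m)) n

def nz (n : ℕ) (k : ℕ → ℕ) : ℕ := @Nat.rec (fun _ => ℕ) 0 (fun m _ => k (Nat.succ m)) n

theorem frc_eq {β : Type} (n : ℕ) (k : ℕ → β) : frc n k = k n := by cases n <;> rfl

theorem nz_ne {n : ℕ} {k : ℕ → ℕ} (h : nz n k ≠ 0) : n ≠ 0 ∧ k n ≠ 0 := by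
  cases n
  exacts [absurd rfl h, ⟨Nat.succ_ne_zero _, h⟩]

theorem bi_ne {b : Bool} {x : ℕ} (h : bi b x 0 ≠ 0) : b = true ∧ x ≠ 0 := by
  cases b
  exacts [absurd rfl h, ⟨rfl, h⟩]

theorem al_iff {α : Type} {f : α → Bool} {l : List α} : al f l = true ↔ ∀ a ∈ l, f a = true := by
  induction l with
  | nil => simp [al]
  | cons a l ih =>
    rw [List.forall_mem_cons, ← ih]
    show bi (f a) (al f l) false = true ↔ _
    cases f a <;> simp [bi]

theorem sm_eq {α : Type} (f : α → ℕ) (l : List α) : sm f l = (l.map f).sum := by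
  induction l with
  | nil => rfl
  | cons a l ih => rw [List.map_cons, List.sum_cons, ← ih]; rfl

theorem bt_eq (x i : ℕ) : bt x i = x.testBit i := by
  show Nat.beq ((x >>> i) &&& 1) 1 = _
  rw [Nat.testBit, Nat.and_comm 1, Nat.and_one_is_mod]
  rcases Nat.mod_two_eq_zero_or_one (x >>> i) with h | h <;> rw [h] <;> rfl

/-- the list, evaluated first -/
def mp {β : Type} (l : List ℕ) (k : List ℕ → β) : β :=
  @List.rec ℕ (fun _ => (List ℕ → β) → β) (fun k => k [])
    (fun a _ ih k => frc a fun x => ih fun r => k (x :: r)) l k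

theorem mp_eq {β : Type} (l : List ℕ) (k : List ℕ → β) : mp l k = k l := by
  induction l generalizing k with
  | nil => rfl
  | cons a l ih => exact (frc_eq a fun x => mp l fun r => k (x :: r)).trans (ih _)

def ob (f : ℕ → ℕ) (n : ℕ) : ℕ := @Nat.rec (fun _ => ℕ) 0 (fun i ih => Nat.lor ih (f i)) n

def ol (f : ℕ → ℕ) (l : List ℕ) : ℕ :=
  @List.rec ℕ (fun _ => ℕ) 0 (fun a _ ih => Nat.lor ih (f a)) l

theorem ob_bit {f : ℕ → ℕ} {n j : ℕ} :
    (ob f n).testBit j = true ↔ ∃ i < n, (f i).testBit j = true := by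
  induction n with
  | zero => simp [ob]
  | succ n ih =>
    rw [show ob f (n + 1) = ob f n ||| f n from rfl, Nat.testBit_or, Bool.or_eq_true, ih]
    exact Nat.exists_lt_succ_right.symm

theorem ol_bit {f : ℕ → ℕ} {l : List ℕ} {j : ℕ} :
    (ol f l).testBit j = true ↔ ∃ a ∈ l, (f a).testBit j = true := by
  induction l with
  | nil => simp [ol]
  | cons a l ih =>
    rw [show ol f (a :: l) = ol f l ||| f a from rfl, Nat.testBit_or, Bool.or_eq_true, ih]
    simp [or_comm]

theorem pw_bit {b : Bool} {i j : ℕ} :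
    (bi b (Nat.pow 2 i) 0).testBit j = true ↔ b = true ∧ i = j := by
  cases b
  · simp [bi]
  · show (2 ^ i).testBit j = true ↔ _
    simp [Nat.testBit_two_pow]

theorem bit_ext {x y : ℕ} (h : ∀ i, x.testBit i = true ↔ y.testBit i = true) : x = y :=
  Nat.eq_of_testBit_eq fun i => Bool.eq_iff_iff.2 (h i)

/-- the code of a vertex -/
def cd (s : ℕ) (e : ℕ → Finset ℕ) (v : ℕ) : ℕ :=
  ob (fun i => bi (decide (v ∈ e i)) (Nat.pow 2 i) 0) s

theorem cd_bit {s i v : ℕ} {e : ℕ → Finset ℕ} :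
    (cd s e v).testBit i = true ↔ i < s ∧ v ∈ e i := by
  simp only [cd, ob_bit, pw_bit, decide_eq_true_eq]
  exact ⟨fun ⟨_, a, b, c⟩ => c ▸ ⟨a, b⟩, fun a => ⟨i, a.1, a.2, rfl⟩⟩

def pc (c : ℕ) : ℕ := Nat.land (Nat.shiftRight
  0x6554544354434332544343324332322154434332433232214332322132212110 (Nat.mul 4 c)) 7

theorem pc_eq : ∀ c < 64, pc c = ((range 6).filter fun i => c.testBit i = true).card := by
  decide +kernel

/-- an item is a code with a multiplicity -/
def ex (l : List ℕ) : Multiset ℕ := (l.map fun x => Multiset.replicate (x % 8) (x / 8)).sum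

theorem ex_cons (x : ℕ) (l : List ℕ) : ex (x :: l) = Multiset.replicate (x % 8) (x / 8) + ex l := by
  simp [ex]

def ct (p : ℕ → Bool) (l : List ℕ) : ℕ := sm (fun x => bi (p (Nat.div x 8)) (Nat.mod x 8) 0) l

theorem ct_eq (p : ℕ → Bool) (l : List ℕ) : ct p l = (ex l).countP fun c => p c = true := by
  induction l with
  | nil => simp [ct, sm, ex]
  | cons x l ih =>
    rw [ex_cons, Multiset.countP_add, ← ih]
    show bi (p (x / 8)) (x % 8) 0 + ct p l = _
    congr 1
    cases h : p (x / 8)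
    · exact (Multiset.countP_eq_zero.2 fun a ha => by
        rw [Multiset.eq_of_mem_replicate ha, h]; simp).symm
    · exact ((Multiset.countP_eq_card.2 fun a ha => by
        rw [Multiset.eq_of_mem_replicate ha, h]).trans (Multiset.card_replicate _ _)).symm

theorem ct_ge {p : ℕ → Bool} {l : List ℕ} {x : ℕ} (h : x ∈ l) (hp : p (x / 8) = true) :
    x % 8 ≤ ct p l := by
  rw [ct, sm_eq]
  refine List.single_le_sum (fun _ _ => Nat.zero_le _) _ (List.mem_map.2 ⟨x, h, ?_⟩)
  show bi (p (x / 8)) (x % 8) 0 = _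
  rw [hp]; rfl

theorem mem_ex {l : List ℕ} {c : ℕ} (h : c ∈ ex l) : ∃ x ∈ l, x / 8 = c := by
  induction l with
  | nil => simp [ex] at h
  | cons x l ih =>
    rw [ex_cons, Multiset.mem_add] at h
    rcases h with h | h
    · exact ⟨x, by simp, (Multiset.eq_of_mem_replicate h).symm⟩
    · obtain ⟨y, a, b⟩ := ih h
      exact ⟨y, by simp [a], b⟩

/-- the system `R` has the edges `e 0, …, e (s - 1)` and the items `l` -/
structure Rep (s : ℕ) (R : Hg) (e : ℕ → Finset ℕ) (l : List ℕ) : Prop where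
  s6 : s ≤ 6
  mem : ∀ g, g ∈ R ↔ ∃ i < s, e i = g
  num : R.card = s
  mul : (vs R).val.map (cd s e) = ex l

variable {s : ℕ} {R : Hg} {e : ℕ → Finset ℕ} {l : List ℕ}

theorem Rep.inj (h : Rep s R e l) : Set.InjOn e (range s : Finset ℕ) := by
  refine injOn_of_card_image_eq ?_
  rw [card_range, show image e (range s) = R from ext fun g => by simp [h.mem], h.num]

theorem Rep.img (h : Rep s R e l) (p : ℕ → Prop) [DecidablePred p] :
    (((range s).filter p).image e).card = ((range s).filter p).card :=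
  card_image_of_injOn (h.inj.mono (coe_subset.2 (filter_subset _ _)))

theorem Rep.cnt (h : Rep s R e l) (p : ℕ → Bool) :
    ((vs R).filter fun v => p (cd s e v) = true).card = ct p l := by
  rw [ct_eq, ← h.mul, Multiset.countP_map]
  rfl

theorem Rep.pcc (h : Rep s R e l) {c : ℕ} (hc : ∀ i, c.testBit i = true → i < s) :
    pc c = ((range s).filter fun i => c.testBit i = true).card := by
  have := h.s6
  rw [pc_eq c (Nat.lt_pow_two_of_testBit (n := 6) c fun i hi => by
    by_contra a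
    have := hc i (by simpa using a)
    omega)]
  congr 1
  ext i
  simp only [mem_filter, mem_range]
  exact ⟨fun a => ⟨hc i a.2, a.2⟩, fun a => ⟨by omega, a.2⟩⟩

theorem Rep.star_img (h : Rep s R e l) (v : ℕ) :
    star R v = ((range s).filter fun i => (cd s e v).testBit i = true).image e := by
  ext g
  simp only [mem_star, h.mem, mem_image, mem_filter, mem_range, cd_bit]
  exact ⟨fun ⟨⟨i, a, b⟩, c⟩ => ⟨i, ⟨a, a, b ▸ c⟩, b⟩, fun ⟨i, a, b⟩ => ⟨⟨i, a.1, b⟩, b ▸ a.2.2⟩⟩

theorem Rep.deg (h : Rep s R e l) (v : ℕ) : (star R v).card = pc (cd s e v) := by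
  rw [h.star_img, h.img, h.pcc fun i a => (cd_bit.1 a).1]

theorem Rep.star_eq (h : Rep s R e l) {u v : ℕ} : cd s e u = cd s e v ↔ star R u = star R v := by
  refine ⟨fun a => by rw [h.star_img, h.star_img, a], fun a => bit_ext fun i => ?_⟩
  rw [cd_bit, cd_bit]
  refine and_congr_right fun b => ?_
  have c := (h.mem _).2 ⟨i, b, rfl⟩
  exact ⟨fun d => (mem_star.1 (a ▸ mem_star.2 ⟨c, d⟩)).2, fun d =>
    (mem_star.1 (a.symm ▸ mem_star.2 ⟨c, d⟩)).2⟩

theorem Rep.cover (h : Rep s R e l) {v : ℕ} (hv : v ∈ vs R) : ∃ x ∈ l, x / 8 = cd s e v :=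
  mem_ex (h.mul ▸ Multiset.mem_map_of_mem _ hv)

/-- the vertices with a given code -/
def cls (s : ℕ) (R : Hg) (e : ℕ → Finset ℕ) (c : ℕ) : Finset ℕ :=
  (vs R).filter fun v => cd s e v = c

theorem Rep.cls_card (h : Rep s R e l) (c : ℕ) :
    (cls s R e c).card = ct (fun d => Nat.beq d c) l := by
  rw [← h.cnt]
  simp [cls, Nat.beq_eq]

theorem Rep.has (h : Rep s R e l) {x : ℕ} (hx : x ∈ l) : x % 8 ≤ (cls s R e (x / 8)).card :=
  h.cls_card _ ▸ ct_ge hx (Nat.beq_refl _)

/-! ### a new edge -/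

def psh {β : Type} (x : ℕ) (a : List ℕ) (k : List ℕ → β) : β :=
  bi (Nat.beq (Nat.mod x 8) 0) (k a) (k (x :: a))

theorem psh_ex {β : Type} (x : ℕ) (a : List ℕ) (k : List ℕ → β) :
    ∃ b, psh x a k = k b ∧ ex b = ex (x :: a) := by
  unfold psh
  cases h : Nat.beq (Nat.mod x 8) 0
  · exact ⟨_, rfl, rfl⟩
  · refine ⟨a, rfl, ?_⟩
    rw [ex_cons, show x % 8 = 0 from Nat.eq_of_beq_eq_true h]
    simp

def rng (f : ℕ → ℕ → ℕ) (J C : ℕ) : ℕ :=
  @Nat.rec (fun _ => ℕ → ℕ) (fun C => f 0 C) (fun j ih C => nz (f (Nat.succ j) C) ih) J C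

theorem rng_ne {f : ℕ → ℕ → ℕ} {J C : ℕ} (h : rng f J C ≠ 0) : ∀ j ≤ J, ∃ D, f j D ≠ 0 := by
  induction J generalizing C with
  | zero => exact fun j a => ⟨C, by obtain rfl := Nat.le_zero.1 a; exact h⟩
  | succ J ih =>
    have := nz_ne (n := f (J + 1) C) (k := rng f J) h
    exact fun j a => (Nat.le_succ_iff.1 a).elim (ih this.2 j) fun b => ⟨C, b ▸ this.1⟩

/-- all ways to choose at most `r` old vertices of degree at most three -/
def en (b : ℕ) (lf : List ℕ → ℕ → ℕ → ℕ) (l a : List ℕ) (r C : ℕ) : ℕ :=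
  @List.rec ℕ (fun _ => List ℕ → ℕ → ℕ → ℕ) lf
    (fun x _ ih a r C => rng (fun j C => frc (Nat.sub x j) fun y =>
      frc (Nat.add (Nat.mul (Nat.lor (Nat.div x 8) b) 8) j) fun z => frc (Nat.sub r j) fun q =>
        psh y a fun a1 => psh z a1 fun a2 => ih a2 q C)
      (bi (Nat.ble (pc (Nat.div x 8)) 3) (bi (Nat.ble r (Nat.mod x 8)) r (Nat.mod x 8)) 0) C) l a r C

theorem en_cons (b : ℕ) (lf : List ℕ → ℕ → ℕ → ℕ) (x : ℕ) (l a : List ℕ) (r C : ℕ) :
    en b lf (x :: l) a r C = rng (fun j C => frc (Nat.sub x j) fun y =>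
      frc (Nat.add (Nat.mul (Nat.lor (Nat.div x 8) b) 8) j) fun z => frc (Nat.sub r j) fun q =>
        psh y a fun a1 => psh z a1 fun a2 => en b lf l a2 q C)
      (bi (Nat.ble (pc (x / 8)) 3) (bi (Nat.ble r (x % 8)) r (x % 8)) 0) C := rfl

theorem en_ne {b : ℕ} {lf : List ℕ → ℕ → ℕ → ℕ} {t : ℕ} {l a : List ℕ} {r C : ℕ}
    {m n : Multiset ℕ} (h : en b lf l a r C ≠ 0) (h1 : m + n = ex l) (h2 : ∀ c ∈ m, pc c ≤ 3)
    (h3 : m.card + t = r) : ∃ a' D, lf a' t D ≠ 0 ∧ ex a' = ex a + m.map (· ||| b) + n := by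
  induction l generalizing a r C m n with
  | nil =>
    obtain ⟨rfl, rfl⟩ := add_eq_zero.1 (h1.trans (rfl : ex [] = 0))
    obtain rfl : t = r := by simpa using h3
    exact ⟨a, C, h, by simp⟩
  | cons x l ih =>
    have hk : x % 8 < 8 := Nat.mod_lt _ (by norm_num)
    have hc := Multiset.count_le_card (x / 8) m
    obtain ⟨j, hj⟩ : ∃ j, j = min (x % 8) (m.count (x / 8)) := ⟨_, rfl⟩
    have e1 := congrArg (Multiset.count (x / 8)) h1
    rw [ex_cons] at h1 e1
    rw [Multiset.count_add, Multiset.count_add, Multiset.count_replicate_self] at e1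
    obtain ⟨m', rfl⟩ := Multiset.le_iff_exists_add.1
      (Multiset.le_count_iff_replicate_le.1 (by omega : j ≤ m.count (x / 8)))
    obtain ⟨n', rfl⟩ := Multiset.le_iff_exists_add.1
      (Multiset.le_count_iff_replicate_le.1 (by omega : x % 8 - j ≤ n.count (x / 8)))
    rw [Multiset.card_add, Multiset.card_replicate] at h3
    rw [en_cons] at h
    obtain ⟨D, h4⟩ := rng_ne h j (by
      rcases Nat.eq_zero_or_pos j with c | c
      · omega
      · rw [Nat.ble_eq_true_of_le (h2 _ (Multiset.mem_add.2 (Or.inl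
          (Multiset.mem_replicate.2 ⟨c.ne', rfl⟩)))), bi_eq, bi_eq, if_pos rfl]
        split_ifs <;> omega)
    rw [frc_eq, frc_eq, frc_eq] at h4
    obtain ⟨a1, u1, u2⟩ := psh_ex (Nat.sub x j) a fun a1 =>
      psh (Nat.add (Nat.mul (Nat.lor (Nat.div x 8) b) 8) j) a1 fun a2 => en b lf l a2 (r - j) D
    obtain ⟨a2, u3, u4⟩ := psh_ex (Nat.add (Nat.mul (Nat.lor (Nat.div x 8) b) 8) j) a1
      fun a2 => en b lf l a2 (r - j) D
    obtain ⟨a', D', v1, v2⟩ := ih (m := m') (n := n') (u3 ▸ u1 ▸ h4) (by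
      rw [show x % 8 = j + (x % 8 - j) by omega, Multiset.replicate_add, Nat.add_sub_cancel_left,
        add_add_add_comm] at h1
      exact add_left_cancel h1) (fun c hc => h2 c (Multiset.mem_add.2 (Or.inr hc))) (by omega)
    refine ⟨a', D', v1, ?_⟩
    rw [v2, u4, ex_cons, u2, ex_cons, Multiset.map_add, Multiset.map_replicate]
    change Multiset.replicate (((x / 8 ||| b) * 8 + j) % 8) (((x / 8 ||| b) * 8 + j) / 8) +
      (Multiset.replicate ((x - j) % 8) ((x - j) / 8) + _) + _ + _ = _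
    rw [show ((x / 8 ||| b) * 8 + j) % 8 = j by omega,
      show ((x / 8 ||| b) * 8 + j) / 8 = x / 8 ||| b by omega,
      show (x - j) % 8 = x % 8 - j by omega, show (x - j) / 8 = x / 8 by omega]
    abel

theorem Rep.aug (h : Rep s R e l) (hs : s < 6) {f : Finset ℕ} (hf : f ∉ R)
    (hC : Cls (insert f R)) {lf : List ℕ → ℕ → ℕ → ℕ} {t r C : ℕ}
    (h1 : en (2 ^ s) lf l [] r C ≠ 0) (h2 : t + 4 = r + (f \ vs R).card) :
    ∃ a D, lf a t D ≠ 0 ∧ Rep (s + 1) (insert f R) (Function.update e s f)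
      ((2 ^ s * 8 + (f \ vs R).card) :: a) := by
  have f4 := hC.unif f (mem_insert_self _ _)
  have e1 := card_sdiff_add_card_inter f (vs R)
  have e2 : (vs R).filter (· ∈ f) = f ∩ vs R := by rw [filter_mem_eq_inter, inter_comm]
  obtain ⟨a, D, u1, u2⟩ := en_ne (t := t) (m := ((vs R).filter (· ∈ f)).val.map (cd s e))
    (n := ((vs R).filter (· ∉ f)).val.map (cd s e)) h1
    (by rw [← Multiset.map_add, filter_val, filter_val, Multiset.filter_add_not, h.mul])
    (fun c hc => by
      obtain ⟨v, v1, rfl⟩ := Multiset.mem_map.1 hc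
      have a := hC.deg v
      rw [filter_insert, if_pos (mem_filter.1 v1).2,
        card_insert_of_notMem fun b => hf (mem_filter.1 b).1] at a
      rw [← h.deg]
      exact Nat.le_of_succ_le_succ a)
    (by rw [Multiset.card_map, e2]; change (f ∩ vs R).card + t = r; omega)
  have c1 : ∀ i < s, Function.update e s f i = e i := fun i a =>
    Function.update_of_ne a.ne _ _
  have c2 : ∀ v i, (cd (s + 1) (Function.update e s f) v).testBit i = true ↔
      (cd s e v).testBit i = true ∨ (i = s ∧ v ∈ f) := fun v i => by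
    rw [cd_bit, cd_bit]
    rcases lt_trichotomy i s with a | rfl | a
    · simp [a, a.ne, Nat.lt_succ_of_lt a]
    · simp
    · simp [a.ne', a.not_gt, a.not_ge]
  refine ⟨a, D, u1, hs, fun g => ?_, by rw [card_insert_of_notMem hf, h.num], ?_⟩
  · rw [mem_insert, h.mem, Nat.exists_lt_succ_right, Function.update_self, or_comm, eq_comm]
    exact or_congr_left (exists_congr fun i => and_congr_right fun a => by rw [c1 i a])
  · have e3 : (vs (insert f R)).filter (· ∈ vs R) = vs R := by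
      rw [filter_mem_eq_inter, vs_insert, inter_eq_right.2 subset_union_right]
    have e4 : (vs (insert f R)).filter (· ∉ vs R) = f \ vs R := by
      ext v
      simp only [vs_insert, mem_filter, mem_union, mem_sdiff]
      tauto
    rw [← Multiset.filter_add_not (· ∈ vs R) (vs (insert f R)).val, ← filter_val, ← filter_val,
      e3, e4, ← Multiset.filter_add_not (· ∈ f) (vs R).val, ← filter_val, ← filter_val,
      Multiset.map_add, Multiset.map_add, ex_cons, u2, add_comm,
      show (2 ^ s * 8 + (f \ vs R).card) % 8 = (f \ vs R).card by omega,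
      show (2 ^ s * 8 + (f \ vs R).card) / 8 = 2 ^ s by omega, Multiset.map_map,
      show ex [] = 0 from rfl, zero_add]
    congr 1
    · refine Multiset.eq_replicate.2 ⟨Multiset.card_map _ _, fun c hc => ?_⟩
      obtain ⟨v, v1, rfl⟩ := Multiset.mem_map.1 hc
      have v2 := mem_sdiff.1 v1
      refine bit_ext fun i => ?_
      rw [c2, cd_bit, Nat.testBit_two_pow]
      exact ⟨fun a => a.elim (fun b => absurd (mem_vs.2 ⟨_, (h.mem _).2 ⟨i, b.1, rfl⟩, b.2⟩) v2.2)
        fun b => by simp [b.1], fun a => Or.inr ⟨(of_decide_eq_true a).symm, v2.1⟩⟩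
    congr 1
    · refine Multiset.map_congr rfl fun v hv => bit_ext fun i => ?_
      rw [c2, Function.comp, Nat.testBit_or, Bool.or_eq_true, Nat.testBit_two_pow]
      exact or_congr_right ⟨fun b => decide_eq_true b.1.symm,
        fun b => ⟨(of_decide_eq_true b).symm, (mem_filter.1 hv).2⟩⟩
    · refine Multiset.map_congr rfl fun v hv => bit_ext fun i => ?_
      simp [c2, (mem_filter.1 hv).2]

end Pool.Agent.P.MP_b2082d_co.Gen.Sm
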