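import Pool.Agent.P.MP_b2082d_co.G.Sm0

/-! Witnesses and certificates for systems with few edges. -/

namespace Pool.Agent.P.MP_b2082d_co.Gen

/-- lower bounds of prices, in millionths -/
structure Zs where
  (l1 lT L2 a2 a3 a4 t2 t3 : ℕ)

/-- what the small systems use about the prices. -/
structure Ax1 (P : Hg → ℕ → ℝ) (z : Zs) : Prop where
  leaf : ∀ R v, C0 R → (star R v).card = 1 → 0 ≤ P R v
  one : ∀ R e, C0 R → e ∈ R → (lvs R e).card = 1 → (z.l1 : ℝ) / 10 ^ 6 ≤ Lam P R e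
  oneT : ∀ R e, C0 R → e ∈ R → (lvs R e).card = 1 → Tw R e → (∀ v ∈ e, (star R v).card ≤ 2) →
    (z.lT : ℝ) / 10 ^ 6 ≤ Lam P R e
  two : ∀ R e, C0 R → e ∈ R → (lvs R e).card = 2 → (z.L2 : ℝ) / 10 ^ 6 ≤ Lam P R e
  lo2 : ∀ R v, C0 R → (star R v).card = 2 → (z.a2 : ℝ) / 10 ^ 6 ≤ P R v
  lo3 : ∀ R v, C0 R → (star R v).card = 3 → (z.a3 : ℝ) / 10 ^ 6 ≤ P R v
  lo4 : ∀ R v, C0 R → (star R v).card = 4 → (z.a4 : ℝ) / 10 ^ 6 ≤ P R v
  tw2 : ∀ R u v, C0 R → u ≠ v → star R u = star R v → (star R v).card = 2 →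
    (z.t2 : ℝ) / 10 ^ 6 ≤ P R v
  tw3 : ∀ R u v, C0 R → u ≠ v → star R u = star R v → (star R v).card = 3 →
    (z.t3 : ℝ) / 10 ^ 6 ≤ P R v

namespace Sm
open Finset

variable {s : ℕ} {R : Hg} {e : ℕ → Finset ℕ} {l : List ℕ} {P : Hg → ℕ → ℝ} {z : Zs}

def d3 (a i : ℕ) : ℕ := Nat.land (Nat.shiftRight a (Nat.mul 3 i)) 7

def d6 (a i : ℕ) : ℕ := Nat.land (Nat.shiftRight a (Nat.mul 6 i)) 63

theorem Rep.co (h : Rep s R e l) {i j : ℕ} (hi : i < s) (hj : j < s) :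
    (e i ∩ e j).card = ct (fun c => bi (bt c i) (bt c j) false) l := by
  rw [← h.cnt]
  congr 1
  ext v
  simp only [mem_inter, mem_filter, bi_eq, bt_eq, cd_bit, hi, true_and, mem_vs, h.mem]
  exact ⟨fun a => ⟨⟨_, ⟨i, hi, rfl⟩, a.1⟩, by simp [a.1, cd_bit, hj, a.2]⟩, fun a => by
    by_cases b : v ∈ e i <;> simp_all [cd_bit]⟩

/-- two edges with three common vertices, or a forbidden triple of edges -/
def bad (s : ℕ) (l : List ℕ) (k a : ℕ) : Bool :=
  frc (d3 a 0) fun i => frc (d3 a 1) fun j => frc (d3 a 2) fun m =>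
    Nat.blt i s && Nat.blt j s && bi (Nat.beq k 0)
      (!Nat.beq i j && Nat.blt 2 (ct (fun c => bi (bt c i) (bt c j) false) l))
      (Nat.blt m s && Nat.beq (ct (fun c => bi (bt c i) (bt c j) false) l) 2 &&
        Nat.beq (ct (fun c => Bool.xor (bt c m) (Bool.xor (bt c i) (bt c j))) l) 0)

theorem Rep.bad (h : Rep s R e l) (hC : C0 R) {k a : ℕ} : bad s l k a ≠ true := fun hb => by
  simp only [Sm.bad, frc_eq, Bool.and_eq_true, Nat.blt_eq] at hb
  generalize d3 a 0 = i at hb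
  generalize d3 a 1 = j at hb
  generalize d3 a 2 = m at hb
  obtain ⟨⟨hi, hj⟩, hb⟩ := hb
  have i1 := (h.mem _).2 ⟨i, hi, rfl⟩
  have j1 := (h.mem _).2 ⟨j, hj, rfl⟩
  rw [← h.co hi hj, bi_eq] at hb
  split_ifs at hb
  · simp only [Bool.and_eq_true, Nat.blt_eq, Bool.not_eq_true', ← Bool.not_eq_true,
      Nat.beq_eq] at hb
    exact hb.2.not_ge (hC.co2 _ i1 _ j1 fun a =>
      hb.1 (h.inj (mem_coe.2 (mem_range.2 hi)) (mem_coe.2 (mem_range.2 hj)) a))
  · simp only [Bool.and_eq_true, Nat.blt_eq, Nat.beq_eq] at hb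
    obtain ⟨⟨hm, h2⟩, h3⟩ := hb
    have m1 := (h.mem _).2 ⟨m, hm, rfl⟩
    rw [← h.cnt, card_eq_zero, filter_eq_empty_iff] at h3
    refine hC.no6 _ i1 _ j1 h2 ((?_ : e m = e i \ e j ∪ e j \ e i) ▸ m1)
    ext v
    by_cases hv : v ∈ vs R
    · have a := h3 hv
      have b : ∀ t < s, bt (cd s e v) t = decide (v ∈ e t) := fun t ht =>
        Bool.eq_iff_iff.2 (by rw [bt_eq, cd_bit]; simp [ht])
      rw [b i hi, b j hj, b m hm] at a
      by_cases x : v ∈ e i <;> by_cases y : v ∈ e j <;> simp_all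
    · have b : ∀ g ∈ R, v ∉ g := fun g a c => hv (mem_vs.2 ⟨g, a, c⟩)
      simp [b _ i1, b _ j1, b _ m1]

/-- a small cut -/
def red (s : ℕ) (l : List ℕ) (A : ℕ) : Bool :=
  frc (pc A) fun a => frc (ct (fun c => frc (Nat.land c A) fun y =>
    bi (Nat.beq y 0) false (!Nat.beq y c)) l) fun n => Nat.blt A (Nat.pow 2 s) && Nat.blt 0 a &&
      Nat.blt a s && (Nat.blt n 2 || (Nat.blt n 3 && Nat.blt 1 a && Nat.blt (Nat.add a 1) s))

theorem Rep.red (h : Rep s R e l) (hI : Irr R) {A : ℕ} : red s l A ≠ true := fun hb => by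
  simp only [Sm.red, frc_eq, Bool.and_eq_true, Bool.or_eq_true, Nat.blt_eq] at hb
  obtain ⟨⟨⟨h1, h2⟩, h3⟩, h4⟩ := hb
  have a1 : ∀ i, A.testBit i = true → i < s := fun i a => by
    by_contra b
    rw [Nat.testBit_lt_two_pow (lt_of_lt_of_le h1 (Nat.pow_le_pow_right two_pos (not_lt.1 b)))] at a
    exact absurd a (by simp)
  set S := ((range s).filter fun i => A.testBit i = true).image e with hS
  have a2 : S.card = pc A := by rw [h.img, h.pcc a1]
  have a3 : S ⊆ R := fun g hg => by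
    obtain ⟨i, b, c⟩ := mem_image.1 hg
    exact (h.mem _).2 ⟨i, mem_range.1 (mem_filter.1 b).1, c⟩
  have a4 := card_sdiff_add_card_eq_card a3
  have a5 := h.num
  have a6 := hI.2 S a3 (fun b => by rw [b, card_empty] at a2; omega) fun b => by
    rw [b] at a2; omega
  rw [← h.cnt] at h4
  have a7 := card_le_card (fun v hv => by
    obtain ⟨b, c⟩ := mem_inter.1 hv
    obtain ⟨g, g1, g2⟩ := mem_vs.1 b
    obtain ⟨i, i1, rfl⟩ := mem_image.1 g1
    obtain ⟨g, g3, g4⟩ := mem_vs.1 c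
    rw [mem_sdiff] at g3
    obtain ⟨j, j1, rfl⟩ := (h.mem _).1 g3.1
    rw [mem_filter, mem_range] at i1
    refine mem_filter.2 ⟨vs_mono a3 b, ?_⟩
    have u1 : Nat.land (cd s e v) A ≠ 0 := fun d => by
      have := congrArg (·.testBit i) (show cd s e v &&& A = 0 from d)
      simp [cd_bit.2 ⟨i1.1, g2⟩, i1.2] at this
    have u2 : Nat.land (cd s e v) A ≠ cd s e v := fun d => by
      have := congrArg (·.testBit j) (show cd s e v &&& A = _ from d)
      simp only [Nat.testBit_and, cd_bit.2 ⟨j1, g4⟩, Bool.true_and] at this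
      exact g3.2 (mem_image.2 ⟨j, mem_filter.2 ⟨mem_range.2 j1, this⟩, rfl⟩)
    simpa [bi_eq, Nat.beq_eq, ← Bool.not_eq_true] using And.intro u1 u2 :
      cutv R S ⊆ (vs R).filter fun v => bi (Nat.beq (Nat.land (cd s e v) A) 0) false
        (!Nat.beq (Nat.land (cd s e v) A) (cd s e v)) = true)
  change _ ∨ _ ∧ pc A + 1 < s at h4
  omega

/-! ### renumbering the edges -/

def ins (x : ℕ) (l : List ℕ) : List ℕ :=
  @List.rec ℕ (fun _ => List ℕ) [x] (fun a t ih => bi (Nat.ble x a) (x :: a :: t) (a :: ih)) l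

theorem ex_ins (x : ℕ) (l : List ℕ) : ex (ins x l) = ex (x :: l) := by
  induction l with
  | nil => rfl
  | cons a l ih =>
    show ex (bi (Nat.ble x a) (x :: a :: l) (a :: ins x l)) = _
    cases Nat.ble x a
    · show ex (a :: ins x l) = _
      rw [ex_cons, ih, ex_cons, ex_cons, ex_cons, add_left_comm]
    · rfl

def pm (s σ c : ℕ) : ℕ := ob (fun i => bi (bt c (d3 σ i)) (Nat.pow 2 i) 0) s

def srt (s σ : ℕ) (l : List ℕ) : List ℕ :=
  @List.rec ℕ (fun _ => List ℕ) [] (fun x _ ih =>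
    frc (Nat.add (Nat.mul (pm s σ (Nat.div x 8)) 8) (Nat.mod x 8)) fun y => ins y ih) l

theorem ex_srt (σ : ℕ) (l : List ℕ) : ex (srt s σ l) = (ex l).map (pm s σ) := by
  induction l with
  | nil => rfl
  | cons x l ih =>
    show ex (frc (pm s σ (x / 8) * 8 + x % 8) fun y => ins y (srt s σ l)) = _
    rw [frc_eq, ex_ins, ex_cons, ex_cons, ih, Multiset.map_add, Multiset.map_replicate,
      show (pm s σ (x / 8) * 8 + x % 8) % 8 = x % 8 by omega,
      show (pm s σ (x / 8) * 8 + x % 8) / 8 = pm s σ (x / 8) by omega]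

def eqL (a b : List ℕ) : Bool :=
  @List.rec ℕ (fun _ => List ℕ → Bool) (fun b => @List.rec ℕ (fun _ => Bool) true (fun _ _ _ => false) b)
    (fun x _ ih b => @List.rec ℕ (fun _ => Bool) false (fun y t _ => bi (Nat.beq x y) (ih t) false) b)
    a b

theorem eqL_eq {a b : List ℕ} (h : eqL a b = true) : a = b := by
  induction a generalizing b with
  | nil =>
    cases b
    exacts [rfl, absurd h (by simp [eqL])]
  | cons x a ih =>
    cases b with
    | nil => exact absurd h (by simp [eqL])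
    | cons y b =>
      change bi (Nat.beq x y) (eqL a b) false = true at h
      cases c : Nat.beq x y
      · exact absurd (c ▸ h) (by simp [bi])
      · rw [Nat.eq_of_beq_eq_true c, ih (b := b) (by rw [c] at h; exact h)]

def nth {α : Type} (l : List α) (i : ℕ) (k : α → Bool) : Bool :=
  @List.rec α (fun _ => ℕ → Bool) (fun _ => false)
    (fun a _ ih i => @Nat.rec (fun _ => Bool) (k a) (fun j _ => ih j) i) l i

theorem nth_ex {α : Type} {l : List α} {i : ℕ} {k : α → Bool} (h : nth l i k = true) :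
    ∃ a ∈ l, k a = true := by
  induction l generalizing i with
  | nil => exact absurd h (by simp [nth])
  | cons a l ih =>
    cases i with
    | zero => exact ⟨a, by simp, h⟩
    | succ i =>
      obtain ⟨b, c, d⟩ := ih (i := i) h
      exact ⟨b, by simp [c], d⟩

/-- the items packed in one number -/
def up (n : ℕ) : List ℕ :=
  @Nat.rec (fun _ => List ℕ) [] (fun j ih =>
    Nat.land (Nat.shiftRight n (Nat.add (Nat.mul 9 j) 5)) 511 :: ih) (Nat.land n 31)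

/-- the system is one of the listed classes -/
def In (s : ℕ) (nx : List (List ℕ)) (R : Hg) : Prop := ∃ c ∈ nx, ∃ n ∈ c, ∃ e, Rep s R e (up n)

def iso (s : ℕ) (nx : List (List ℕ)) (l : List ℕ) (σ : ℕ) : Bool :=
  Nat.beq (ob (fun i => Nat.pow 2 (d3 σ i)) s) (Nat.sub (Nat.pow 2 s) 1) &&
    nth nx (Nat.land (Nat.shiftRight σ 15) 127) fun c => nth c (Nat.shiftRight σ 22) fun n =>
      eqL (srt s σ l) (up n)

theorem Rep.iso (h : Rep s R e l) {nx : List (List ℕ)} {σ : ℕ} (hb : iso s nx l σ = true) :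
    In s nx R := by
  rw [Sm.iso, Bool.and_eq_true, Nat.beq_eq] at hb
  obtain ⟨c, c1, c2⟩ := nth_ex hb.2
  obtain ⟨n, n1, n2⟩ := nth_ex c2
  have a : ∀ j, (∃ i < s, d3 σ i = j) ↔ j < s := fun j => by
    have := congrArg (·.testBit j = true) hb.1
    simp only [ob_bit] at this
    change (∃ i < s, (2 ^ d3 σ i).testBit j = true) = ((2 ^ s - 1).testBit j = true) at this
    simpa [Nat.testBit_two_pow] using this
  refine ⟨c, c1, n, n1, fun i => e (d3 σ i), h.s6, fun g => ?_, h.num, ?_⟩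
  · rw [h.mem]
    refine ⟨fun ⟨j, b, d⟩ => ?_, fun ⟨i, b, d⟩ => ⟨_, (a _).1 ⟨i, b, rfl⟩, d⟩⟩
    obtain ⟨i, i1, rfl⟩ := (a j).2 b
    exact ⟨i, i1, d⟩
  · rw [← eqL_eq n2, ex_srt, ← h.mul, Multiset.map_map]
    refine Multiset.map_congr rfl fun v _ => bit_ext fun i => ?_
    simp only [Function.comp, pm, ob_bit, pw_bit, bt_eq, cd_bit]
    exact ⟨fun b => ⟨i, b.1, ⟨(a _).1 ⟨i, b.1, rfl⟩, b.2⟩, rfl⟩, fun ⟨_, b, d, f⟩ => f ▸ ⟨b, d.2⟩⟩

/-! ### certificates -/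

def mass (sl : List (ℕ × ℕ)) (a : ℕ) : ℕ := sm (fun x => bi (bt x.1 a) x.2 0) sl

theorem good_slots (st : ℕ → Finset ℕ) (sl : List (ℕ × ℕ)) (q : ℕ → ℝ)
    (hK : 0 < sm Prod.snd sl) (h1 : ∀ x ∈ sl, Tr R (st x.1))
    (h3 : ∀ v ∈ vs R, (sl.map fun x => if v ∈ st x.1 then (x.2 : ℝ) else 0).sum ≤
      sm Prod.snd sl * q v) : Good R q := by
  have e : ∑ i : Fin sl.length, (sl[i.1].2 : ℝ) = sm Prod.snd sl := by
    rw [Fin.sum_univ_fun_getElem sl fun x => (x.2 : ℝ), sm_eq, Nat.cast_list_sum, List.map_map]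
    rfl
  have e2 : ∀ v, ∑ i : Fin sl.length, (sl[i.1].2 : ℝ) * (if v ∈ st sl[i.1].1 then 1 else 0) =
      (sl.map fun x => if v ∈ st x.1 then (x.2 : ℝ) else 0).sum := fun v => by
    rw [← Fin.sum_univ_fun_getElem sl fun x => if v ∈ st x.1 then (x.2 : ℝ) else 0]
    simp only [mul_ite, mul_one, mul_zero]
  have e3 : ∀ i : Fin sl.length, Good R fun v => if v ∈ st sl[i.1].1 then 1 else 0 :=
    fun i => good_of_tr (h1 _ (List.getElem_mem _))
  exact good_avg univ _ _ q (fun _ _ => Nat.cast_nonneg _) (e ▸ Nat.cast_pos.2 hK)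
    (fun i _ _ => e3 i) fun v hv => by rw [e, e2]; exact h3 v hv

/-- vertices with the same code pay together -/
theorem good_cls (sl : List (ℕ × ℕ)) {p : ℕ → ℝ} (hK : 0 < sm Prod.snd sl)
    (hR : ∀ g ∈ R, ∃ i < s, e i = g) (hp : ∀ v ∈ vs R, 0 ≤ p v)
    (h1 : ∀ x ∈ sl, ∀ i < s, ∃ v ∈ vs R, v ∈ e i ∧ x.1.testBit (cd s e v) = true)
    (h3 : ∀ v ∈ vs R, (mass sl (cd s e v) : ℝ) ≤
      sm Prod.snd sl * ∑ u ∈ cls s R e (cd s e v), p u) : Good R p := fun w hw => by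
  have hm : ∀ c, ∃ a, ∀ v ∈ cls s R e c, a ∈ cls s R e c ∧ w a ≤ w v := fun c => by
    by_cases a : (cls s R e c).Nonempty
    · obtain ⟨y, y1, y2⟩ := exists_min_image _ w a
      exact ⟨y, fun v b => ⟨y1, y2 v b⟩⟩
    · exact ⟨0, fun v b => absurd ⟨v, b⟩ a⟩
  choose μ hμ using hm
  have m1 : ∀ v ∈ vs R, μ (cd s e v) ∈ vs R ∧ cd s e (μ (cd s e v)) = cd s e v ∧
      w (μ (cd s e v)) ≤ w v := fun v a => by
    obtain ⟨b, c⟩ := hμ _ v (mem_filter.2 ⟨a, rfl⟩)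
    exact ⟨(mem_filter.1 b).1, (mem_filter.1 b).2, c⟩
  obtain ⟨T, t1, t2⟩ := good_slots (R := R)
    (fun U => (vs R).filter fun v => U.testBit (cd s e v) = true ∧ μ (cd s e v) = v) sl
    (fun v => if μ (cd s e v) = v then ∑ u ∈ cls s R e (cd s e v), p u else 0) hK
    (fun x hx g hg => by
      obtain ⟨i, i1, rfl⟩ := hR g hg
      obtain ⟨v, v1, v2, v3⟩ := h1 x hx i i1
      obtain ⟨a, b, -⟩ := m1 v v1
      exact ⟨_, mem_inter.2 ⟨mem_filter.2 ⟨a, by rw [b]; exact ⟨v3, rfl⟩⟩,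
        (cd_bit.1 (b.symm ▸ cd_bit.2 ⟨i1, v2⟩)).2⟩⟩)
    (fun v hv => by
      split_ifs with a
      · refine le_trans (le_of_eq ?_) (h3 v hv)
        rw [mass, sm_eq, Nat.cast_list_sum, List.map_map]
        refine congrArg _ (List.map_congr_left fun x _ => ?_)
        simp [hv, a, bi_eq, bt_eq]
      · simp [a]) w hw
  refine ⟨T, t1, t2.trans ?_⟩
  have e1 : ∀ v ∈ vs R, w v * (if μ (cd s e v) = v then ∑ u ∈ cls s R e (cd s e v), p u else 0) =
      ∑ u ∈ vs R, if μ (cd s e u) = v then w v * p u else 0 := fun v hv => by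
    rw [← sum_filter, ← mul_sum]
    congr 1
    split_ifs with a
    · refine sum_congr (filter_congr fun u hu => ⟨fun b => b ▸ a, fun b => ?_⟩) fun _ _ => rfl
      rw [← b, (m1 u hu).2.1]
    · refine (sum_eq_zero fun u hu => absurd ?_ a).symm
      obtain ⟨b, rfl⟩ := mem_filter.1 hu
      rw [(m1 u b).2.1]
  rw [sum_congr rfl e1, sum_comm]
  refine sum_le_sum fun u hu => ?_
  rw [sum_ite_eq, if_pos (m1 u hu).1]
  exact mul_le_mul_of_nonneg_right (m1 u hu).2.2 (hp u hu)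

theorem _root_.Pool.Agent.P.MP_b2082d_co.Gen.Ax1.pos (H : Ax1 P z) (hC : C0 R) {v : ℕ}
    (hv : v ∈ vs R) : 0 ≤ P R v := by
  have a := star_pos hv
  have b : (star R v).card ≤ 4 := hC.cls.deg v
  have c : ∀ n : ℕ, (0 : ℝ) ≤ n / 10 ^ 6 := fun n => by positivity
  have : (star R v).card = 1 ∨ (star R v).card = 2 ∨ (star R v).card = 3 ∨
    (star R v).card = 4 := by omega
  rcases this with d | d | d | d
  exacts [H.leaf R v hC d, (c _).trans (H.lo2 R v hC d), (c _).trans (H.lo3 R v hC d),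
    (c _).trans (H.lo4 R v hC d)]

def twn (l : List ℕ) (c : ℕ) : Bool :=
  !al (fun x => !(Nat.beq (Nat.land (Nat.div x 8) c) c && Nat.beq (pc (Nat.div x 8)) 2 &&
      Nat.ble 2 (Nat.mod x 8))) l &&
    Nat.beq (ct (fun d => Nat.beq (Nat.land d c) c && Nat.ble 3 (pc d)) l) 0

/-- a lower bound for the total price of the vertices with the code of `x` -/
def prc (z : Zs) (fl : Bool) (l : List ℕ) (x : ℕ) : ℕ :=
  frc (Nat.div x 8) fun c => frc (Nat.mod x 8) fun k => frc (pc c) fun d =>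
    bi (Nat.beq d 1) (frc (ct (fun b => Nat.beq b c) l) fun n => bi (Nat.beq n 1)
      (bi (fl && twn l c) z.lT z.l1) (bi (Nat.beq n 2) z.L2 0))
    (Nat.mul k (bi (Nat.beq d 2) (bi (Nat.ble 2 k) z.t2 z.a2)
      (bi (Nat.beq d 3) (bi (Nat.ble 2 k) z.t3 z.a3) z.a4)))

theorem Rep.prc (h : Rep s R e l) (H : Ax1 P z) (hC : C0 R) (fl : Bool) {v x : ℕ} (hv : v ∈ vs R)
    (hx : x ∈ l) (hc : x / 8 = cd s e v) :
    (prc z fl l x : ℝ) / 10 ^ 6 ≤ ∑ u ∈ cls s R e (cd s e v), P R u := by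
  have a1 := h.has hx
  have a2 : ∀ u ∈ cls s R e (cd s e v), star R u = star R v := fun u a =>
    h.star_eq.1 (mem_filter.1 a).2
  have a3 := star_pos hv
  have a4 : (star R v).card ≤ 4 := hC.cls.deg v
  simp only [Sm.prc, frc_eq]
  change ((bi (Nat.beq (pc (x / 8)) 1) (bi (Nat.beq (ct (fun b => Nat.beq b (x / 8)) l) 1)
    (bi (fl && twn l (x / 8)) z.lT z.l1) (bi (Nat.beq (ct (fun b => Nat.beq b (x / 8)) l) 2) z.L2 0))
    (x % 8 * bi (Nat.beq (pc (x / 8)) 2) (bi (Nat.ble 2 (x % 8)) z.t2 z.a2)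
      (bi (Nat.beq (pc (x / 8)) 3) (bi (Nat.ble 2 (x % 8)) z.t3 z.a3) z.a4)) : ℕ) : ℝ) / _ ≤ _
  rw [hc] at a1 ⊢
  rw [← h.cls_card, ← h.deg, bi_eq]
  split_ifs with b <;> rw [Nat.beq_eq] at b
  · obtain ⟨g, g1, g2⟩ := mem_vs.1 hv
    have c1 : cls s R e (cd s e v) = lvs R g := by
      ext u
      rw [mem_lvs]
      refine ⟨fun a => ⟨(mem_star.1 ((a2 u a).symm ▸ mem_star.2 ⟨g1, g2⟩)).2, a2 u a ▸ b⟩, fun a =>
        mem_filter.2 ⟨mem_vs.2 ⟨g, g1, a.1⟩, h.star_eq.2 ?_⟩⟩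
      rw [star_one a.2 g1 a.1, star_one b g1 g2]
    have c2 : ∀ u, Nat.land (cd s e u) (cd s e v) = cd s e v ↔ u ∈ g := fun u => by
      obtain ⟨i, i1, rfl⟩ := (h.mem g).1 g1
      refine ⟨fun a => ?_, fun a => bit_ext fun j => ?_⟩
      · have := congrArg (·.testBit i) (show cd s e u &&& cd s e v = _ from a)
        simp only [Nat.testBit_and, cd_bit.2 ⟨i1, g2⟩, Bool.and_true] at this
        exact (cd_bit.1 this).2
      · change (cd s e u &&& cd s e v).testBit j = true ↔ _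
        rw [Nat.testBit_and, Bool.and_eq_true, and_iff_right_iff_imp, cd_bit, cd_bit]
        exact fun c => ⟨c.1, deg_one b g1 ((h.mem _).2 ⟨j, c.1, rfl⟩) g2 c.2 ▸ a⟩
    rw [c1]
    simp only [bi_eq, Nat.beq_eq]
    split_ifs with d1 d2 d3
    · simp only [twn, Bool.and_eq_true, Bool.not_eq_true', ← Bool.not_eq_true, al_iff, not_forall,
        not_not, Nat.beq_eq, Nat.ble_eq] at d2
      obtain ⟨-, ⟨y, y1, ⟨y2, y3⟩, y4⟩, d2⟩ := d2
      rw [← h.cnt, card_eq_zero, filter_eq_empty_iff] at d2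
      obtain ⟨p, p1, q, q1, pq⟩ := one_lt_card.1 (y4.trans (h.has y1))
      have p2 : cd s e p = Nat.div y 8 := (mem_filter.1 p1).2
      have q2 : cd s e q = Nat.div y 8 := (mem_filter.1 q1).2
      refine H.oneT R g hC g1 d1 ⟨p, (c2 p).1 (p2 ▸ y2), q, (c2 q).1 (q2 ▸ y2), pq,
        by rw [h.deg, p2, y3], h.star_eq.1 (p2.trans q2.symm)⟩ fun u hu => ?_
      have := d2 (mem_vs.2 ⟨g, g1, hu⟩)
      rw [Bool.and_eq_true, Nat.beq_eq, Nat.ble_eq, c2, ← h.deg] at this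
      exact Nat.le_of_lt_succ (not_le.1 fun a => this ⟨hu, a⟩)
    · exact H.one R g hC g1 d1
    · exact H.two R g hC g1 d3
    · rw [Nat.cast_zero, zero_div]
      exact sum_nonneg fun u hu => H.leaf R u hC (mem_lvs.1 hu).2
  · have c1 : ∀ n : ℕ, (∀ u ∈ cls s R e (cd s e v), (n : ℝ) / 10 ^ 6 ≤ P R u) →
        ((x % 8 * n : ℕ) : ℝ) / 10 ^ 6 ≤ ∑ u ∈ cls s R e (cd s e v), P R u := fun n a => by
      refine le_trans ?_ (card_nsmul_le_sum _ _ _ a)
      rw [nsmul_eq_mul, Nat.cast_mul, mul_div_assoc]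
      exact mul_le_mul_of_nonneg_right (Nat.cast_le.2 a1) (by positivity)
    have c2 : 2 ≤ x % 8 → ∀ u ∈ cls s R e (cd s e v), ∃ t, t ≠ u ∧ star R t = star R u :=
      fun a u hu => by
        obtain ⟨t, t1, t2⟩ := exists_mem_ne (a.trans a1) u
        exact ⟨t, t2, (a2 t t1).trans (a2 u hu).symm⟩
    refine c1 _ fun u hu => ?_
    rw [← a2 u hu] at a3 a4 b ⊢
    simp only [bi_eq, Nat.beq_eq, Nat.ble_eq]
    split_ifs with d1 d2 d3 d4
    · obtain ⟨t, t1, t2⟩ := c2 d2 u hu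
      exact H.tw2 R t u hC t1 t2 d1
    · exact H.lo2 R u hC d1
    · obtain ⟨t, t1, t2⟩ := c2 d4 u hu
      exact H.tw3 R t u hC t1 t2 d3
    · exact H.lo3 R u hC d3
    · exact H.lo4 R u hC (by omega)

/-- `n` slots are read, each with `nc` codes and a weight of `wb` bits -/
def rds (F E nc wb n C : ℕ) (k : List (ℕ × ℕ) → ℕ → ℕ) : ℕ :=
  @Nat.rec (fun _ => ℕ → (List (ℕ × ℕ) → ℕ → ℕ) → ℕ) (fun C k => k [] C)
    (fun _ ih C k => frc (Nat.mod C (Nat.pow 64 nc)) fun y =>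
      frc (ob (fun j => Nat.pow 2 (d6 y j)) nc) fun U =>
      bi (Nat.beq (Nat.land U E) U && Nat.beq (ob (d6 y) nc) F)
        (frc (Nat.shiftRight C (Nat.mul 6 nc)) fun C1 => frc (Nat.mod C1 (Nat.pow 2 wb)) fun w =>
          frc (Nat.shiftRight C1 wb) fun C2 => ih C2 fun r => k ((U, w) :: r)) 0) n C k

theorem rds_ne {F E nc wb n C : ℕ} {k : List (ℕ × ℕ) → ℕ → ℕ} (h : rds F E nc wb n C k ≠ 0) :
    ∃ sl D, k sl D ≠ 0 ∧ ∀ x ∈ sl, ∀ i, F.testBit i = true →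
      ∃ c, x.1.testBit c = true ∧ E.testBit c = true ∧ c.testBit i = true := by
  induction n generalizing C k with
  | zero => exact ⟨[], C, h, by simp⟩
  | succ n ih =>
    change (frc (Nat.mod C (Nat.pow 64 nc)) fun y =>
      frc (ob (fun j => Nat.pow 2 (d6 y j)) nc) fun U =>
      bi (Nat.beq (Nat.land U E) U && Nat.beq (ob (d6 y) nc) F)
        (frc (Nat.shiftRight C (Nat.mul 6 nc)) fun C1 => frc (Nat.mod C1 (Nat.pow 2 wb)) fun w =>
          frc (Nat.shiftRight C1 wb) fun C2 => rds F E nc wb n C2 fun r => k ((U, w) :: r)) 0) ≠ 0 at h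
    rw [frc_eq, frc_eq] at h
    obtain ⟨a, b⟩ := bi_ne h
    rw [frc_eq, frc_eq, frc_eq] at b
    rw [Bool.and_eq_true, Nat.beq_eq, Nat.beq_eq] at a
    obtain ⟨sl, D, c, d⟩ := ih b
    refine ⟨_, D, c, List.forall_mem_cons.2 ⟨fun i hi => ?_, d⟩⟩
    obtain ⟨j, j1, j2⟩ := ob_bit.1 (a.2.symm ▸ hi)
    have f := (ob_bit (f := fun j => Nat.pow 2 (d6 (Nat.mod C (Nat.pow 64 nc)) j))).2 ⟨j, j1, (Nat.testBit_two_pow_self :
      (Nat.pow 2 (d6 (Nat.mod C (Nat.pow 64 nc)) j)).testBit _ = true)⟩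
    refine ⟨_, f, ?_, j2⟩
    have g := congrArg (·.testBit (d6 (Nat.mod C (Nat.pow 64 nc)) j)) (show _ &&& E = _ from a.1)
    simpa only [Nat.testBit_and, f, Bool.true_and] using g

def cert (z : Zs) (s : ℕ) (l : List ℕ) (a C : ℕ) : ℕ :=
  frc (ol (fun x => bi (Nat.blt 0 (Nat.mod x 8)) (Nat.pow 2 (Nat.div x 8)) 0) l) fun E =>
    frc (Nat.sub (Nat.pow 2 s) 1) fun F => frc (Nat.land (Nat.shiftRight a 5) 7) fun nc =>
      frc (Nat.land (Nat.shiftRight a 8) 63) fun wb => rds F E nc wb (Nat.land a 31) C fun sl D =>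
        frc (sm Prod.snd sl) fun K => bi (Nat.blt 0 K && al (fun x =>
          Nat.ble (Nat.mul 1000000 (mass sl (Nat.div x 8))) (Nat.mul K (prc z (bt a 14) l x))) l) D 0

theorem Rep.cert (h : Rep s R e l) (H : Ax1 P z) (hC : C0 R) {a C : ℕ}
    (hb : cert z s l a C ≠ 0) : Good R (P R) := by
  simp only [Sm.cert, frc_eq] at hb
  obtain ⟨sl, D, h1, h2⟩ := rds_ne hb
  have h3 := (bi_ne h1).1
  rw [Bool.and_eq_true, Nat.blt_eq, al_iff] at h3
  refine good_cls (s := s) (e := e) sl h3.1 (fun g => (h.mem g).1) (fun v => H.pos hC)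
    (fun x hx i hi => ?_) fun v hv => ?_
  · obtain ⟨c, c1, c2, c3⟩ := h2 x hx i (by
      change (2 ^ s - 1).testBit i = true
      simpa using hi)
    obtain ⟨y, y1, y2⟩ := ol_bit.1 c2
    rw [pw_bit, Nat.blt_eq] at y2
    obtain ⟨v, hv⟩ := card_pos.1 (lt_of_lt_of_le y2.1 (h.has y1))
    have v2 : cd s e v = c := (mem_filter.1 hv).2.trans y2.2
    exact ⟨v, (mem_filter.1 hv).1, (cd_bit.1 (v2 ▸ c3)).2, v2 ▸ c1⟩
  · obtain ⟨x, x1, x2⟩ := h.cover hv
    have a1 := h.prc H hC (bt a 14) hv x1 x2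
    have a2 : 1000000 * mass sl (x / 8) ≤ sm Prod.snd sl * Sm.prc z (bt a 14) l x :=
      Nat.le_of_ble_eq_true (h3.2 x x1)
    have a3 := (Nat.cast_le (α := ℝ)).2 a2
    have a4 := mul_le_mul_of_nonneg_left a1 (Nat.cast_nonneg (α := ℝ) (sm Prod.snd sl))
    rw [x2] at a3
    push_cast at a3
    linarith

/-! ### the enumeration -/

def lfA (s : ℕ) (nx : List (List ℕ)) (l : List ℕ) (C : ℕ) : ℕ :=
  frc (Nat.land C 4294967295) fun h => frc (Nat.land h 3) fun k => frc (Nat.shiftRight h 2) fun a =>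
    bi (bi (Nat.ble k 1) (bad s l k a) (iso s nx l a)) (Nat.shiftRight C 32) 0

def lfB (z : Zs) (s : ℕ) (l : List ℕ) (C : ℕ) : ℕ :=
  frc (Nat.land C 1048575) fun h => frc (Nat.land h 3) fun k => frc (Nat.shiftRight h 2) fun a =>
    frc (Nat.shiftRight C 20) fun D => bi (Nat.beq k 3) (cert z s l a D)
      (bi (bi (Nat.ble k 1) (bad s l k a) (red s l a)) D 0)

theorem Rep.lfA (h : Rep s R e l) (hC : C0 R) {nx : List (List ℕ)} {C : ℕ}
    (hb : lfA s nx l C ≠ 0) : In s nx R := by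
  simp only [Sm.lfA, frc_eq] at hb
  have a := (bi_ne hb).1
  rw [bi_eq] at a
  split_ifs at a
  exacts [absurd a (h.bad hC), h.iso a]

theorem Rep.lfB (h : Rep s R e l) (H : Ax1 P z) (hC : C0 R) (hI : Irr R) {C : ℕ}
    (hb : lfB z s l C ≠ 0) : Good R (P R) := by
  simp only [Sm.lfB, frc_eq] at hb
  rw [bi_eq] at hb
  split_ifs at hb
  · exact h.cert H hC hb
  have a := (bi_ne hb).1
  rw [bi_eq] at a
  split_ifs at a
  exacts [absurd a (h.bad hC), absurd a (h.red hI)]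

def al2 (f : List ℕ → ℕ → ℕ) (cs ws : List ℕ) : Bool :=
  @List.rec ℕ (fun _ => List ℕ → Bool) (fun _ => true) (fun c _ ih ws =>
    @List.rec ℕ (fun _ => Bool) false
      (fun w t _ => bi (Nat.beq (mp (up c) fun l => f l w) 0) false (ih t)) ws) cs ws

theorem al2_ex {f : List ℕ → ℕ → ℕ} {cs ws : List ℕ} (h : al2 f cs ws = true) :
    ∀ c ∈ cs, ∃ w, f (up c) w ≠ 0 := by
  induction cs generalizing ws with
  | nil => simp
  | cons c cs ih =>
    cases ws with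
    | nil => exact absurd h (by simp [al2])
    | cons w ws =>
      change bi (Nat.beq (mp (up c) fun l => f l w) 0) false (al2 f cs ws) = true at h
      rw [mp_eq, bi_eq] at h
      split_ifs at h with a
      exact List.forall_mem_cons.2 ⟨⟨w, by rwa [Nat.beq_eq] at a⟩, ih h⟩

def stA (s : ℕ) (nx : List (List ℕ)) (l : List ℕ) (w : ℕ) : ℕ :=
  frc (Nat.pow 2 s) fun b => frc (Nat.succ s) fun t => en b (fun a r C =>
    frc (Nat.add (Nat.mul b 8) r) fun x => psh x a fun c => lfA t nx c C) l [] 4 w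

def stB (z : Zs) (l : List ℕ) (w : ℕ) : ℕ :=
  en 32 (fun a r C => bi (Nat.beq r 0) (lfB z 6 (258 :: a) C) C) l [] 2 w

/-- all systems with `s` edges are listed -/
def Cov (s : ℕ) (nx : List (List ℕ)) : Prop := ∀ R, C0 R → R.card = s → In s nx R

/-- every listed class passes the check -/
def All (f : List ℕ → ℕ → ℕ) (nx : List (List ℕ)) : Prop := ∀ c ∈ nx, ∃ ws, al2 f c ws = true

theorem all_nil (f : List ℕ → ℕ → ℕ) : All f [] := fun _ h => absurd h List.not_mem_nil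

theorem all_cons {f : List ℕ → ℕ → ℕ} {c ws : List ℕ} {nx : List (List ℕ)}
    (h : al2 f c ws = true) (h2 : All f nx) : All f (c :: nx) :=
  List.forall_mem_cons.2 ⟨⟨ws, h⟩, h2⟩

theorem In.use {nx : List (List ℕ)} {f : List ℕ → ℕ → ℕ} (h : In s nx R) (h2 : All f nx) :
    ∃ e l w, Rep s R e l ∧ f l w ≠ 0 := by
  obtain ⟨c, c1, n, n1, e, h⟩ := h
  obtain ⟨ws, a⟩ := h2 c c1
  obtain ⟨w, b⟩ := al2_ex a n n1
  exact ⟨e, _, w, h, b⟩

theorem cov_zero : Cov 0 [[0]] := fun R _ h => by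
  obtain rfl := card_eq_zero.1 h
  exact ⟨[0], by simp, 0, by simp, fun _ => ∅, by omega, by simp, rfl, rfl⟩

theorem Rep.of_ex (h : Rep s R e l) {m : List ℕ} (a : ex m = ex l) : Rep s R e m :=
  ⟨h.s6, h.mem, h.num, h.mul.trans a.symm⟩

theorem cov_step {nx ny : List (List ℕ)} (hs : s < 6) (h : Cov s nx) (h2 : All (stA s ny) nx) :
    Cov (s + 1) ny := fun R hC hR => by
  obtain ⟨f, hf⟩ := card_pos.1 (by omega : 0 < R.card)
  obtain ⟨e, l, w, a, b⟩ := (h _ (St.c0_sub hC (erase_subset f R))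
    (by rw [card_erase_of_mem hf, hR]; rfl)).use h2
  simp only [stA, frc_eq] at b
  obtain ⟨c, D, u1, u2⟩ := a.aug hs (notMem_erase f R) (by rw [insert_erase hf]; exact hC.cls)
    (t := (f \ vs (R.erase f)).card) b (add_comm _ _)
  obtain ⟨d, u3, u4⟩ := psh_ex (Nat.add (Nat.mul (Nat.pow 2 s) 8) (f \ vs (R.erase f)).card) c
    fun c => lfA s.succ ny c D
  rw [insert_erase hf] at u2
  exact (u2.of_ex u4).lfA hC (u3 ▸ u1)

theorem cov_fin {nx : List (List ℕ)} (h : Cov s nx) (h2 : All (lfB z s) nx) (H : Ax1 P z)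
    (hC : C0 R) (hI : Irr R) (hR : R.card = s) : Good R (P R) := by
  obtain ⟨e, l, w, a, b⟩ := (h R hC hR).use h2
  exact a.lfB H hC hI b

theorem cov_six {nx : List (List ℕ)} (h : Cov 5 nx) (h2 : All (stB z) nx) (H : Ax1 P z)
    (hC : C0 R) (hI : Irr R) (hR : R.card = 6) {f : Finset ℕ} (hf : f ∈ R)
    (h3 : (lvs R f).card = 2) : Good R (P R) := by
  obtain ⟨e, l, w, a, b⟩ := (h _ (St.c0_sub hC (erase_subset f R))
    (by rw [card_erase_of_mem hf, hR])).use h2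
  have h4 : f \ vs (R.erase f) = lvs R f := by
    ext v
    rw [mem_sdiff, mem_lvs, mem_vs]
    refine and_congr_right fun c => ⟨fun d => card_eq_one.2 ⟨f, eq_singleton_iff_unique_mem.2
      ⟨mem_star.2 ⟨hf, c⟩, fun g g1 => by_contra fun g2 =>
        d ⟨g, mem_erase.2 ⟨g2, (mem_star.1 g1).1⟩, (mem_star.1 g1).2⟩⟩⟩, fun d ⟨g, g1, g2⟩ =>
      (mem_erase.1 g1).1 (deg_one d (mem_erase.1 g1).2 hf g2 c)⟩
  obtain ⟨c, D, u1, u2⟩ := a.aug (by norm_num) (notMem_erase f R)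
    (by rw [insert_erase hf]; exact hC.cls) (t := 0) b (by rw [h4, h3])
  rw [insert_erase hf, h4, h3] at u2
  exact u2.lfB H hC hI u1

end Sm

end Pool.Agent.P.MP_b2082d_co.Gen
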