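import Pool.Agent.P.MP_b2082d_co.G.Sm1
import Pool.Agent.P.MP_b2082d_co.G.CtxDefs

/-! Cheap price vectors for systems with few edges. -/

namespace Pool.Agent.P.MP_b2082d_co.Gen.Sm
open Finset

variable {s : ℕ} {R : Hg} {e : ℕ → Finset ℕ} {l : List ℕ} {N : Num}

theorem Rep.sub_iff (h : Rep s R e l) {u v : ℕ} :
    Nat.land (cd s e u) (cd s e v) = cd s e v ↔ ∀ g ∈ star R v, u ∈ g := by
  refine ⟨fun a g hg => ?_, fun a => bit_ext fun j => ?_⟩
  · obtain ⟨i, i1, rfl⟩ := (h.mem g).1 (mem_star.1 hg).1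
    have := congrArg (·.testBit i) (show cd s e u &&& cd s e v = _ from a)
    simp only [Nat.testBit_and, cd_bit.2 ⟨i1, (mem_star.1 hg).2⟩, Bool.and_true] at this
    exact (cd_bit.1 this).2
  · change (cd s e u &&& cd s e v).testBit j = true ↔ _
    rw [Nat.testBit_and, Bool.and_eq_true, and_iff_right_iff_imp, cd_bit, cd_bit]
    exact fun c => ⟨c.1, a _ (mem_star.2 ⟨(h.mem _).2 ⟨j, c.1, rfl⟩, c.2⟩)⟩

theorem Rep.meet_iff (h : Rep s R e l) {u v : ℕ} :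
    Nat.land (cd s e u) (cd s e v) ≠ 0 ↔ u ∈ vs (star R v) := by
  rw [mem_vs]
  refine ⟨fun a => ?_, fun ⟨g, a, b⟩ c => ?_⟩
  · obtain ⟨i, b⟩ := Nat.exists_testBit_of_ne_zero a
    change (cd s e u &&& cd s e v).testBit i = true at b
    rw [Nat.testBit_and, Bool.and_eq_true, cd_bit, cd_bit] at b
    exact ⟨_, mem_star.2 ⟨(h.mem _).2 ⟨i, b.1.1, rfl⟩, b.2.2⟩, b.1.2⟩
  · obtain ⟨i, i1, rfl⟩ := (h.mem g).1 (mem_star.1 a).1
    have := congrArg (·.testBit i) (show cd s e u &&& cd s e v = 0 from c)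
    simp [cd_bit.2 ⟨i1, b⟩, cd_bit.2 ⟨i1, (mem_star.1 a).2⟩] at this

theorem Rep.leaf_cls (h : Rep s R e l) {v : ℕ} {g : Finset ℕ} (b : (star R v).card = 1)
    (g1 : g ∈ R) (g2 : v ∈ g) : cls s R e (cd s e v) = lvs R g := by
  ext u
  rw [mem_lvs]
  refine ⟨fun a => ?_, fun a => mem_filter.2 ⟨mem_vs.2 ⟨g, g1, a.1⟩, h.star_eq.2 ?_⟩⟩
  · have c := h.star_eq.1 (mem_filter.1 a).2
    exact ⟨(mem_star.1 (c.symm ▸ mem_star.2 ⟨g1, g2⟩)).2, c ▸ b⟩
  · rw [star_one a.2 g1 a.1, star_one b g1 g2]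

theorem Rep.twn (h : Rep s R e l) {v : ℕ} {g : Finset ℕ} (b : (star R v).card = 1)
    (g1 : g ∈ R) (g2 : v ∈ g) (d2 : twn l (cd s e v) = true) :
    Tw R g ∧ ∀ u ∈ g, (star R u).card ≤ 2 := by
  have c2 : ∀ u, Nat.land (cd s e u) (cd s e v) = cd s e v ↔ u ∈ g := fun u => by
    rw [h.sub_iff, star_one b g1 g2]
    simp
  simp only [Sm.twn, Bool.and_eq_true, Bool.not_eq_true', ← Bool.not_eq_true, al_iff, not_forall,
    not_not, Nat.beq_eq, Nat.ble_eq] at d2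
  obtain ⟨⟨y, y1, ⟨y2, y3⟩, y4⟩, d2⟩ := d2
  rw [← h.cnt, card_eq_zero, filter_eq_empty_iff] at d2
  obtain ⟨p, p1, q, q1, pq⟩ := one_lt_card.1 (y4.trans (h.has y1))
  have p2 : cd s e p = Nat.div y 8 := (mem_filter.1 p1).2
  have q2 : cd s e q = Nat.div y 8 := (mem_filter.1 q1).2
  refine ⟨⟨p, (c2 p).1 (p2 ▸ y2), q, (c2 q).1 (q2 ▸ y2), pq,
    by rw [h.deg, p2, y3], h.star_eq.1 (p2.trans q2.symm)⟩, fun u hu => ?_⟩
  have := d2 (mem_vs.2 ⟨g, g1, hu⟩)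
  rw [Bool.and_eq_true, Nat.beq_eq, Nat.ble_eq, c2, ← h.deg] at this
  exact Nat.le_of_lt_succ (not_le.1 fun a => this ⟨hu, a⟩)

theorem Rep.sum (h : Rep s R e l) (g : ℕ → ℝ) :
    ∑ v ∈ vs R, g (cd s e v) = (l.map fun x => ((x % 8 : ℕ) : ℝ) * g (x / 8)).sum := by
  rw [show ∑ v ∈ vs R, g (cd s e v) = (((vs R).val.map (cd s e)).map g).sum by
    rw [Multiset.map_map]; rfl, h.mul]
  clear h
  induction l with
  | nil => simp [ex]
  | cons x l ih => simp [ex_cons, ih]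

def lfc (l : List ℕ) (c : ℕ) : ℕ := ct (fun b => Nat.beq b c) l

/-- the price of a vertex with the code `c` -/
def fp (N : Num) (l : List ℕ) (c : ℕ) : ℕ :=
  frc (pc c) fun d => bi (Nat.beq d 1)
    (frc (lfc l c) fun n => Nat.sub 250000 (bi (Nat.beq n 1) (bi (twn l c) N.pT N.p3)
      (bi (Nat.beq n 2) N.p2 (bi (Nat.beq n 3) N.p1 0))))
    (frc (ct (fun b => !Nat.beq (Nat.land b c) 0) l) fun n =>
      bi (Nat.beq d 2) (bi (Nat.beq n 7) N.g2 N.g23)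
        (bi (Nat.beq d 3) (bi (Nat.beq n 10) N.g3 (bi (Nat.beq n 9) N.g33 (bi (Nat.beq n 8)
          (bi (Nat.ble 2 (ct (fun b => Nat.beq (Nat.land b c) c) l)) N.g37
            (bi (Nat.beq (ct (fun b => Nat.beq (pc b) 1 && !Nat.beq (Nat.land b c) 0 &&
              Nat.ble 2 (lfc l b)) l) 0) N.g35 N.g33)) N.g356))) N.g4))

structure NOk (N : Num) : Prop where
  a1 : N.p1 ≤ 250000
  a2 : N.p2 ≤ 250000
  a3 : N.p3 ≤ 250000
  aT : N.pT ≤ N.p3
  b : N.g33 ≤ N.g35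

theorem Rep.fp (h : Rep s R e l) (hN : NOk N) {v : ℕ} (hv : v ∈ vs R) :
    (fp N l (cd s e v) : ℝ) / 1000000 ≤ P0 N R v := by
  obtain ⟨a1, a2, a3, aT, a4⟩ := hN
  simp only [Sm.fp, frc_eq, lfc]
  rw [← h.deg, ← h.cls_card, P0, bi_eq]
  by_cases b : (star R v).card = 1
  · obtain ⟨g, g1, g2⟩ := mem_vs.1 hv
    rw [if_pos b, if_pos (by rw [b]; rfl), h.leaf_cls b g1 g2, star_one b g1 g2,
      show vs {g} = g by simp [vs]]
    have c : ∀ n : ℕ, psi N R g ≤ n → n ≤ 250000 → ((Nat.sub 250000 n : ℕ) : ℝ) / 1000000 ≤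
        (250000 - psi N R g) / 1000000 := fun n a b => by
      have : (psi N R g : ℝ) ≤ n := Nat.cast_le.2 a
      rw [show Nat.sub 250000 n = 250000 - n from rfl, Nat.cast_sub b]
      push_cast
      linarith
    have d := h.twn b g1 g2
    refine c _ ?_ ?_ <;> simp only [bi_eq, Nat.beq_eq, psi] <;> split_ifs <;>
      first | omega | contradiction | exact absurd (d ‹_›) ‹_›
  · rw [if_neg b, if_neg (by rwa [Nat.beq_eq]), ← h.cnt, ← h.cnt, ← h.cnt]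
    refine St.sc ?_
    have c1 : ((vs R).filter fun u => (!Nat.beq (Nat.land (cd s e u) (cd s e v)) 0) = true) =
        vs (star R v) := by
      ext u
      rw [mem_filter, Bool.not_eq_true', ← Bool.not_eq_true, Nat.beq_eq, ← Ne, h.meet_iff]
      exact and_iff_right_of_imp fun a => vs_mono (filter_subset _ _) a
    have c2 : 2 ≤ ((vs R).filter fun u => Nat.beq (Nat.land (cd s e u) (cd s e v))
        (cd s e v) = true).card ↔ ∃ u, u ≠ v ∧ ∀ g ∈ star R v, u ∈ g := by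
      refine ⟨fun a => ?_, fun ⟨u, a, c⟩ => one_lt_card.2 ⟨u, mem_filter.2 ⟨?_, ?_⟩, v,
        mem_filter.2 ⟨hv, ?_⟩, a⟩⟩
      · obtain ⟨u, u1, u2⟩ := exists_mem_ne a v
        exact ⟨u, u2, h.sub_iff.1 (Nat.eq_of_beq_eq_true (mem_filter.1 u1).2)⟩
      · obtain ⟨g, g1, g2⟩ := mem_vs.1 hv
        exact mem_vs.2 ⟨g, g1, c g (mem_star.2 ⟨g1, g2⟩)⟩
      · rw [Nat.beq_eq, h.sub_iff]
        exact c
      · rw [Nat.beq_eq, h.sub_iff]
        exact fun g a => (mem_star.1 a).2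
    have c3 : (∃ g ∈ star R v, 2 ≤ (lvs R g).card) → ((vs R).filter fun u =>
        (Nat.beq (pc (cd s e u)) 1 && !Nat.beq (Nat.land (cd s e u) (cd s e v)) 0 &&
          Nat.ble 2 (ct (fun b => Nat.beq b (cd s e u)) l)) = true).card ≠ 0 := fun ⟨g, a, c⟩ => by
      obtain ⟨u, u1⟩ := card_pos.1 (lt_of_lt_of_le two_pos c)
      obtain ⟨u2, u3⟩ := mem_lvs.1 u1
      have g1 := (mem_star.1 a).1
      refine card_ne_zero.2 ⟨u, mem_filter.2 ⟨mem_vs.2 ⟨g, g1, u2⟩, ?_⟩⟩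
      rw [← h.deg, ← h.cls_card, h.leaf_cls u3 g1 u2, Bool.and_eq_true, Bool.and_eq_true,
        Bool.not_eq_true', ← Bool.not_eq_true, Nat.beq_eq, Nat.beq_eq, Nat.ble_eq]
      exact ⟨⟨u3, h.meet_iff.2 (mem_vs.2 ⟨g, a, u2⟩)⟩, c⟩
    rw [c1]
    simp only [bi_eq, Nat.beq_eq, Nat.ble_eq, gS, Bool.and_eq_true] at c2 c3 ⊢
    split_ifs <;> first
      | omega | exact absurd (c2.1 ‹_›) ‹_› | exact absurd (c2.2 ‹_›) ‹_› | exact absurd ‹_› (c3 ‹_›)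

def chk5 (N : Num) (V W : ℕ → ℕ → ℕ) (s : ℕ) (l : List ℕ) (C : ℕ) : ℕ :=
  frc (ol (fun x => bi (Nat.blt 0 (Nat.mod x 8)) (Nat.pow 2 (Nat.div x 8)) 0) l) fun E =>
    frc (Nat.sub (Nat.pow 2 s) 1) fun F => frc (Nat.land (Nat.shiftRight C 5) 7) fun nc =>
    frc (Nat.land (Nat.shiftRight C 8) 63) fun wb =>
    rds F E nc wb (Nat.land C 31) (Nat.shiftRight C 14) fun sl D =>
      frc (sm Prod.snd sl) fun K => frc (sm (fun x => mass sl (Nat.div x 8)) l) fun T =>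
      frc (ct (fun _ => true) l) fun n => bi (Nat.blt 0 K && al (fun x =>
        frc (Nat.div x 8) fun c => frc (Nat.mod x 8) fun k => frc (mass sl c) fun m =>
          Nat.beq (lfc l c) k && Nat.ble (Nat.mul 1000000 m) (Nat.mul K (Nat.mul k (fp N l c))) &&
          (!(Nat.beq (pc c) 1 && Nat.ble 2 k) || Nat.ble (Nat.mul 1000000 (Nat.mul k T))
            (Nat.add (Nat.mul K (Nat.mul k (W s (Nat.sub n 2)))) (Nat.mul 2000000 m)))) l &&
        Nat.ble (Nat.mul 1000000 T) (Nat.mul K (V s n)) &&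
        (!(Nat.beq s 4 && Nat.beq n 11) ||
          !al (fun x => !(Nat.beq (pc (Nat.div x 8)) 1 && Nat.beq (Nat.mod x 8) 4)) l ||
          Nat.ble (Nat.mul 1000000 T) (Nat.mul K (V 4 10)))) D 0

theorem Rep.chk5 (h : Rep s R e l) (hN : NOk N) {V W : ℕ → ℕ → ℕ}
    (hV : ∀ a b, a ≤ b → V s a ≤ V s b) (hW : ∀ a b, a ≤ b → W s a ≤ W s b) {C : ℕ}
    (hb : chk5 N V W s l C ≠ 0) : ∃ p, Good R p ∧ (∀ v ∈ vs R, p v ≤ P0 N R v) ∧
    (∀ n, (vs R).card ≤ n → ∑ v ∈ vs R, p v ≤ V s n / 1000000) ∧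
    (s = 4 → (vs R).card = 11 → ¬ HasIso R → ∑ v ∈ vs R, p v ≤ V 4 10 / 1000000) ∧
    ∀ f ∈ R, ∀ a ∈ lvs R f, ∀ b ∈ lvs R f, a ≠ b → ∀ n, (vs R).card ≤ n + 2 →
      ∑ v ∈ vs R, p v - p a - p b ≤ W s n / 1000000 := by
  simp only [Sm.chk5, frc_eq] at hb
  obtain ⟨sl, D, h1, h2⟩ := rds_ne hb
  have h3 := (bi_ne h1).1
  have n1 : ct (fun _ => true) l = (vs R).card := by rw [← h.cnt]; simp
  simp only [Bool.and_eq_true, Bool.or_eq_true, Bool.not_eq_true', ← Bool.not_eq_true, Nat.blt_eq,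
    al_iff, Nat.beq_eq, Nat.ble_eq, n1, lfc, ← h.cls_card, not_forall, not_not] at h3
  generalize hT : sm (fun x => mass sl (Nat.div x 8)) l = T at h3
  obtain ⟨⟨⟨k0, h4⟩, h5⟩, h6⟩ := h3
  have k1 : (0 : ℝ) < sm Prod.snd sl := Nat.cast_pos.2 k0
  set K := sm Prod.snd sl with hK
  set g : ℕ → ℝ := fun c => mass sl c / (K * (cls s R e c).card) with hg
  have c0 : ∀ v ∈ vs R, (0 : ℝ) < (cls s R e (cd s e v)).card := fun v a =>
    Nat.cast_pos.2 (card_pos.2 ⟨v, mem_filter.2 ⟨a, rfl⟩⟩)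
  have t1 : ∑ v ∈ vs R, g (cd s e v) ≤ T / K := by
    rw [h.sum, ← hT, sm_eq, Nat.cast_list_sum, List.map_map, div_eq_mul_inv,
      ← List.sum_map_mul_right]
    refine List.sum_le_sum fun x hx => ?_
    have a : (cls s R e (x / 8)).card = x % 8 := (h4 x hx).1.1
    simp only [hg, a]
    change _ ≤ (mass sl (x / 8) : ℝ) * _
    rcases Nat.eq_zero_or_pos (x % 8) with b | b
    · rw [b, Nat.cast_zero, zero_mul]
      positivity
    · have : (0 : ℝ) < (x % 8 : ℕ) := Nat.cast_pos.2 b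
      exact le_of_eq (by field_simp)
  have t2 : ∀ n : ℕ, 1000000 * T ≤ K * n → ∑ v ∈ vs R, g (cd s e v) ≤ n / 1000000 := fun n a => by
    have b := (Nat.cast_le (α := ℝ)).2 a
    push_cast at b
    exact t1.trans (by rw [div_le_div_iff₀ k1 (by norm_num)]; linarith)
  refine ⟨fun v => g (cd s e v), good_cls (s := s) (e := e) sl k0 (fun g => (h.mem g).1)
    (fun v _ => by simp only [hg]; positivity) (fun x hx i hi => ?_) fun v hv => ?_,
    fun v hv => ?_, fun n hn => t2 _ (h5.trans (Nat.mul_le_mul_left _ (hV _ _ hn))),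
    fun a b c => t2 _ (h6.resolve_left fun y => y.elim
      (fun y => y ⟨a, b⟩) fun ⟨x, x1, x2, x3⟩ => c ?_), fun f hf a a1 b b1 ab n hn => ?_⟩
  · obtain ⟨c, c1, c2, c3⟩ := h2 x hx i (by
      change (2 ^ s - 1).testBit i = true
      simpa using hi)
    obtain ⟨y, y1, y2⟩ := ol_bit.1 c2
    rw [pw_bit, Nat.blt_eq] at y2
    obtain ⟨v, hv⟩ := card_pos.1 (lt_of_lt_of_le y2.1 (h.has y1))
    have v2 : cd s e v = c := (mem_filter.1 hv).2.trans y2.2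
    exact ⟨v, (mem_filter.1 hv).1, (cd_bit.1 (v2 ▸ c3)).2, v2 ▸ c1⟩
  · rw [sum_congr rfl fun u (hu : u ∈ cls s R e (cd s e v)) => congrArg g (mem_filter.1 hu).2,
      sum_const, nsmul_eq_mul, ← hK]
    have := c0 v hv
    simp only [hg]
    exact le_of_eq (by field_simp)
  · obtain ⟨x, x1, x2⟩ := h.cover hv
    obtain ⟨⟨a, b⟩, -⟩ := h4 x x1
    change (cls s R e (x / 8)).card = x % 8 at a
    change 1000000 * mass sl (x / 8) ≤ K * (x % 8 * Sm.fp N l (x / 8)) at b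
    rw [← a, x2] at b
    have c := (Nat.cast_le (α := ℝ)).2 b
    push_cast at c
    refine le_trans ?_ (h.fp hN hv)
    simp only [hg]
    rw [div_le_div_iff₀ (mul_pos k1 (c0 v hv)) (by norm_num)]
    linarith
  · have a1 : (cls s R e (x / 8)).card = 4 := (h4 x x1).1.1.trans x3
    obtain ⟨v, hv⟩ := card_pos.1 (by omega : 0 < (cls s R e (x / 8)).card)
    obtain ⟨v1, v2⟩ := mem_filter.1 hv
    obtain ⟨f, f1, f2⟩ := mem_vs.1 v1
    exact ⟨f, f1, by rw [← h.leaf_cls (by rw [h.deg, v2]; exact x2) f1 f2, v2, a1]⟩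
  · obtain ⟨a2, a3⟩ := mem_lvs.1 a1
    have a4 := mem_vs.2 ⟨f, hf, a2⟩
    have a5 := h.leaf_cls a3 hf a2
    have b2 : cd s e b = cd s e a := (mem_filter.1 (a5 ▸ b1 : b ∈ cls s R e (cd s e a))).2
    obtain ⟨x, x1, x2⟩ := h.cover a4
    obtain ⟨⟨c, -⟩, d⟩ := h4 x x1
    change (cls s R e (x / 8)).card = x % 8 at c
    change ¬ (pc (x / 8) = 1 ∧ 2 ≤ x % 8) ∨ 1000000 * (x % 8 * T) ≤
      K * (x % 8 * W s ((vs R).card - 2)) + 2000000 * mass sl (x / 8) at d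
    rw [← c, x2] at d
    have d1 := (d.resolve_left fun y => y ⟨h.deg a ▸ a3,
      a5 ▸ one_lt_card.2 ⟨a, a1, b, b1, ab⟩⟩).trans (Nat.add_le_add_right (Nat.mul_le_mul_left _
        (Nat.mul_le_mul_left _ (hW _ n (by omega)))) _)
    have d2 := (Nat.cast_le (α := ℝ)).2 d1
    push_cast at d2
    have c1 := c0 a a4
    have d3 : (T : ℝ) / K - 2 * g (cd s e a) ≤ W s n / 1000000 := by
      simp only [hg]
      rw [show (T : ℝ) / K - 2 * (mass sl (cd s e a) / (K * (cls s R e (cd s e a)).card)) =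
        ((cls s R e (cd s e a)).card * T - 2 * mass sl (cd s e a)) /
          (K * (cls s R e (cd s e a)).card) by field_simp,
        div_le_div_iff₀ (mul_pos k1 c1) (by norm_num)]
      linarith
    simp only [b2]
    linarith

theorem small5_of {V W : ℕ → ℕ → ℕ} {n3 n4 n5 : List (List ℕ)} (hN : NOk N)
    (hV : ∀ m a b, a ≤ b → V m a ≤ V m b) (hW : ∀ m a b, a ≤ b → W m a ≤ W m b)
    (c3 : Cov 3 n3) (c4 : Cov 4 n4) (c5 : Cov 5 n5) (a3 : All (chk5 N V W 3) n3)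
    (a4 : All (chk5 N V W 4) n4) (a5 : All (chk5 N V W 5) n5) : Small5 N V W := fun Q hQ a b => by
  obtain ⟨n, d, f⟩ : ∃ n, Cov Q.card n ∧ All (chk5 N V W Q.card) n := by
    obtain c | c | c : Q.card = 3 ∨ Q.card = 4 ∨ Q.card = 5 := by omega
    all_goals rw [c]
    exacts [⟨n3, c3, a3⟩, ⟨n4, c4, a4⟩, ⟨n5, c5, a5⟩]
  obtain ⟨e, l, w, x, y⟩ := (d Q hQ rfl).use f
  exact x.chk5 hN (hV _) (hW _) y

end Pool.Agent.P.MP_b2082d_co.Gen.Sm
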