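import Pool.Agent.P.MP_b2082d_co.G.SmC

namespace Pool.Agent.P.MP_b2082d_co.Gen.Sm

def z6 : Zs := ⟨205000, 205000, 420000, 295000, 378000, 452000, 295000, 378000⟩

end Pool.Agent.P.MP_b2082d_co.Gen.Sm
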