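import Pool.Agent.P.MP_b2082d_co.G.St0
import Pool.Agent.P.MP_b2082d_co.G.St1
import Pool.Agent.P.MP_b2082d_co.G.St2
import Pool.Agent.P.MP_b2082d_co.G.St3
import Pool.Agent.P.MP_b2082d_co.G.St4
import Pool.Agent.P.MP_b2082d_co.G.St5
import Pool.Agent.P.MP_b2082d_co.G.St6
import Pool.Agent.P.MP_b2082d_co.G.St7

/-! All rows of the first stage hold. -/

namespace Pool.Agent.P.MP_b2082d_co.Gen.Ad

theorem stage_all : ∀ r ∈ reps, badR r = true ∨ ∃ zs, chkR 3 7 3 tb 250000 r zs = true :=
  all_step s0 rfl <|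
  all_step s15 rfl <|
  all_step s33 rfl <|
  all_step s34 rfl <|
  all_step s36 rfl <|
  all_step s37 rfl <|
  all_step s40 rfl <|
  all_step s45 rfl <|
  all_step s47 rfl <|
  all_step s49 rfl <|
  all_step s50 rfl <|
  all_step s51 rfl <|
  all_step s56 rfl <|
  all_step s59 rfl <|
  all_step s70 rfl <|
  all_step s73 rfl <|
  all_step s81 rfl <|
  all_step s98 rfl <|
  all_step s100 rfl <|
  all_step s104 rfl <|
  all_step s109 rfl <|
  all_step s114 rfl <|
  all_step s118 rfl <|
  all_step s129 rfl <|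
  all_step s136 rfl <|
  all_step s141 rfl <|
  all_step s146 rfl <|
  all_step s153 rfl <|
  all_step s165 rfl <|
  all_step s176 rfl <|
  all_step s187 rfl <|
  all_step s197 rfl <|
  all_step s214 rfl <|
  all_step s224 rfl <|
  all_step s245 rfl <|
  all_step s260 rfl <|
  all_step s278 rfl <|
  all_step s297 rfl <|
  all_step s320 rfl <|
  all_end (n := 335) (by decide +kernel)

end Pool.Agent.P.MP_b2082d_co.Gen.Ad
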