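import Pool.Agent.P.MP_b2082d_co.G.Struct1
import Pool.Agent.P.MP_b2082d_co.G.Cut
import Pool.Agent.P.MP_b2082d_co.G.Pend

/-! Systems with a small vertex cut are reducible. -/

namespace Pool.Agent.P.MP_b2082d_co.Gen
open Finset

/-- the vertices that lie in an edge of `S` and in another edge of `R`. -/
def cutv (R S : Hg) : Finset ℕ := vs S ∩ vs (R \ S)

/-- no cut with at most two vertices, except around a single edge. -/
def Irr (R : Hg) : Prop := 2 ≤ R.card ∧ ∀ S ⊆ R, S ≠ ∅ → S ≠ R →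
  3 ≤ (cutv R S).card ∨ ((cutv R S).card = 2 ∧ (S.card = 1 ∨ (R \ S).card = 1))

namespace St
variable {P : Hg → ℕ → ℝ} {n : Nu} {R Q A B : Hg} {s t l m : ℕ}

/-- `R` is split into two parts. -/
structure Spl (R A B : Hg) : Prop where
  c0 : C0 R
  un : A ∪ B = R
  dj : Disjoint A B

theorem Spl.symm (h : Spl R A B) : Spl R B A := ⟨h.c0, union_comm A B ▸ h.un, h.dj.symm⟩

theorem Spl.sub (h : Spl R A B) : A ⊆ R := h.un ▸ subset_union_left

theorem Spl.star (h : Spl R A B) (v : ℕ) : star R v = star A v ∪ star B v :=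
  h.un ▸ filter_union _ _ _

theorem Spl.deg (h : Spl R A B) (v : ℕ) :
    (Gen.star R v).card = (Gen.star A v).card + (Gen.star B v).card := by
  rw [h.star]
  exact card_union_of_disjoint (disjoint_filter_filter h.dj)

theorem Spl.far (h : Spl R A B) {v : ℕ} (a : v ∉ vs B) : Gen.star A v = Gen.star R v := by
  rw [h.star, star_nil a, union_empty]

theorem Spl.card (h : Spl R A B) : R.card = A.card + B.card := by
  rw [← h.un, card_union_of_disjoint h.dj]

/-- the cost of a cut vertex in a part. -/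
def CU (n : Nu) (c : ℝ) (D : Finset ℕ) (A : Hg) (v : ℕ) (x : ℝ) : Prop :=
  ((star A v).card = 1 ∧ x = c) ∨ ((star A v).card = 2 ∧ x = n.hi2 + if v ∈ D then 2 * n.d else 0) ∨
    ((star A v).card = 3 ∧ x = n.hi3)

theorem side_un (hn : n.Ok) (H : Ax0 P n) (S : Spl R A B) (gA : Good A (P A)) {c : ℝ}
    {D : Finset ℕ} (hc : n.inc ≤ c) (h4 : ∀ e ∈ A, (lvs A e).card = 4 →
      (lvs R e).card = 4 ∨ ((lvs R e).card = 3 ∧ 1 ≤ n.L3 + c))
    (hD : ∀ e ∈ A, ∀ v ∈ e, v ∈ vs B → (star A v).card = 2 → ∃ u ∈ e, u ∈ D)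
    (hD' : ∀ u ∈ D, u ∈ vs B ∧ (star A u).card = 2) :
    ∃ p, Good A p ∧ (∀ v ∈ vs A, v ∉ vs B → p v = P R v) ∧
      ∀ v ∈ vs A, v ∈ vs B → CU n c D A v (p v) := by
  have hA := c0_sub S.c0 S.sub
  have h3 : ∀ v ∈ vs A, v ∈ vs B → 1 ≤ (star A v).card ∧ (star A v).card ≤ 3 ∧
      2 ≤ (star R v).card := fun v a b => by
    have := star_pos a
    have := star_pos b
    have := S.deg v
    have : (star R v).card ≤ 4 := S.c0.cls.deg v
    omega
  refine ⟨fun v => if v ∈ vs B then if (star A v).card = 1 then c else if (star A v).card = 2 then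
    n.hi2 + if v ∈ D then 2 * n.d else 0 else n.hi3 else P R v, ?_, fun v _ b => if_neg b,
    fun v a b => ?_⟩
  · refine side_gen hn H (C := vs A ∩ vs B) (D := D) S.c0 hA gA S.sub Subset.rfl
      (fun v a b => ?_) (fun v a => (h3 v (mem_inter.1 a).1 (mem_inter.1 a).2).2.2)
      (fun v a b => absurd a b) hc (fun v a b => ?_) h4 (fun e he a => ?_) (fun v a => ?_)
      fun v a _ b => ?_
    · have d : v ∉ vs B := fun d => b (mem_inter.2 ⟨a, d⟩)
      exact ⟨S.far d, S.far d ▸ filter_subset _ _, if_neg d⟩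
    · rw [if_pos (mem_inter.1 a).2, if_pos b]
    · rcases a with ⟨v, v1, v2, v3⟩ | ⟨⟨a, a1, b, b1, c1, c2, c3⟩, d⟩
      · exact hD e he v v1 (by_contra fun f => by rw [S.far f] at v2; omega) v2
      · by_cases f : a ∈ vs B
        · exact hD e he a a1 f c2
        by_cases g : b ∈ vs B
        · exact hD e he b b1 g (c3 ▸ c2)
        exact absurd ⟨a, a1, b, b1, c1, S.far f ▸ c2, S.far f ▸ S.far g ▸ c3⟩ d
    · obtain ⟨b, d⟩ := hD' v a
      obtain ⟨e, he⟩ := card_pos.1 (by omega : 0 < (star A v).card)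
      exact ⟨mem_inter.2 ⟨mem_vs.2 ⟨e, mem_star.1 he⟩, b⟩, by omega⟩
    · obtain ⟨a1, a2⟩ := mem_inter.1 a
      have := h3 v a1 a2
      rw [if_pos a2, if_neg b]
      by_cases d : (star A v).card = 2
      · have := H.hi2 A v hA d
        rw [if_pos d, d]
        split_ifs <;> push_cast <;> linarith
      · rw [if_neg d, if_neg fun f => d (hD' v f).2, add_zero]
        exact H.hi3 A v hA (by omega)
  · have := h3 v a b
    simp only [if_pos b, CU]
    by_cases d : (star A v).card = 1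
    · exact Or.inl ⟨d, if_pos d⟩
    by_cases f : (star A v).card = 2
    · exact Or.inr (Or.inl ⟨f, by rw [if_neg d, if_pos f]⟩)
    · exact Or.inr (Or.inr ⟨by omega, by rw [if_neg d, if_neg f]⟩)

theorem CU.le (hn : n.Ok) (H : Ax0 P n) (S : Spl R A B) {c x : ℝ} {D : Finset ℕ} {v : ℕ}
    (h : CU n c D A v x) (hc : c ≤ n.lo2) (b : v ∈ vs B) : x ≤ P R v := by
  have := star_pos b
  have := S.deg v
  have : (star R v).card ≤ 4 := S.c0.cls.deg v
  rcases h with ⟨a, rfl⟩ | ⟨a, rfl⟩ | ⟨a, rfl⟩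
  · exact hc.trans (H.lo2 R v S.c0 (by omega))
  · have := H.lo3 R v S.c0 (by omega)
    split_ifs <;> linarith [hn.p3, hn.d0]
  · exact hn.p4.trans (H.lo4 R v S.c0 (by omega))

/-- cuts with at most one vertex. -/
theorem side1 (hn : n.Ok) (H : Ax0 P n) (S : Spl R A B) (gA : Good A (P A))
    (h : (vs A ∩ vs B).card ≤ 1) : Good A (P R) := by
  have h4 : ∀ e ∈ A, (lvs A e).card = 4 →
      (lvs R e).card = 4 ∨ ((lvs R e).card = 3 ∧ 1 ≤ n.L3 + n.lo2) := fun e he a => by
    have b : lvs A e ⊆ lvs R e ∪ vs A ∩ vs B := fun v hv => by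
      obtain ⟨c, d⟩ := mem_lvs.1 hv
      by_cases f : v ∈ vs B
      · exact mem_union_right _ (mem_inter.2 ⟨mem_vs.2 ⟨e, he, c⟩, f⟩)
      · exact mem_union_left _ (mem_lvs.2 ⟨c, S.far f ▸ d⟩)
    have := (card_le_card b).trans (card_union_le _ _)
    have := lvs_le S.c0 (S.sub he)
    by_cases c : (lvs R e).card = 4
    exacts [Or.inl c, Or.inr ⟨by omega, hn.p1⟩]
  obtain ⟨p, p1, p2, p3⟩ := side_un hn H S gA (D := (vs B).filter fun u => (star A u).card = 2)
    hn.p2 h4 (fun e _ v a b c => ⟨v, a, mem_filter.2 ⟨b, c⟩⟩) fun u a => mem_filter.1 a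
  refine p1.mono fun v a => ?_
  by_cases b : v ∈ vs B
  exacts [(p3 v a b).le hn H S le_rfl b, (p2 v a b).le]

theorem red1 (hn : n.Ok) (H : Ax0 P n) (S : Spl R A B) (gA : Good A (P A)) (gB : Good B (P B))
    (h : (vs A ∩ vs B).card ≤ 1) : Good R (P R) := by
  have a := side1 hn H S gA h
  have b := side1 hn H S.symm gB (inter_comm (vs A) (vs B) ▸ h)
  rcases card_le_one_iff_subset_singleton.1 h with ⟨t, ht⟩
  rcases subset_singleton_iff.1 ht with c | c
  · have := a.union b (r := P R) fun v hv => by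
      by_cases d : v ∈ vs A
      · have : v ∉ vs B := fun f => notMem_empty v (c ▸ mem_inter.2 ⟨d, f⟩)
        simp [d, this]
      · simp [d, (mem_union.1 (vs_union A B ▸ hv)).resolve_left d]
    rwa [S.un] at this
  · have := good_cut1 a b c (fun e he => by rw [S.c0.cls.unif e (S.sub he)]; norm_num)
      (fun e he => by rw [S.c0.cls.unif e (S.symm.sub he)]; norm_num) (fun _ _ => le_rfl)
      fun _ _ => le_rfl
    rwa [S.un] at this

/-- a cut with two vertices, and the extra edge `o`. -/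
structure Two (R A B : Hg) (s t : ℕ) (o : Finset ℕ) : Prop extends Spl R A B where
  ne : s ≠ t
  cut : vs A ∩ vs B = {s, t}
  oc : o.card = 4
  oi : o ∩ vs R = {s, t}

namespace Two
variable {o : Finset ℕ} (S : Two R A B s t o)
include S

theorem swap : Two R A B t s o :=
  ⟨S.toSpl, S.ne.symm, pair_comm s t ▸ S.cut, S.oc, pair_comm s t ▸ S.oi⟩

theorem symm : Two R B A s t o := ⟨S.toSpl.symm, S.ne, inter_comm (vs A) (vs B) ▸ S.cut, S.oc, S.oi⟩

theorem sA : s ∈ vs A := (mem_inter.1 (S.cut ▸ mem_insert_self s {t})).1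

theorem so : s ∈ o := (mem_inter.1 (S.oi ▸ mem_insert_self s {t})).1

theorem inter {e : Finset ℕ} (he : e ∈ A) : o ∩ e ⊆ {s, t} := fun _ hv =>
  S.oi ▸ mem_inter.2 ⟨(mem_inter.1 hv).1, mem_vs.2 ⟨e, S.sub he, (mem_inter.1 hv).2⟩⟩

theorem new : ¬ o ⊆ vs R := fun a => by
  have b := congrArg card S.oi
  rw [inter_eq_left.2 a, S.oc, card_pair S.ne] at b
  omega

theorem not : o ∉ A := fun a => S.new fun _ hv => mem_vs.2 ⟨o, S.sub a, hv⟩

omit S in
theorem star_in {v : ℕ} (h : v ∈ o) : star (insert o A) v = insert o (star A v) := by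
  rw [star, filter_insert, if_pos h, star]

omit S in
theorem star_out {v : ℕ} (h : v ∉ o) : star (insert o A) v = star A v := by
  rw [star, filter_insert, if_neg h, star]

theorem deg_in {v : ℕ} (h : v ∈ o) : (star (insert o A) v).card = (star A v).card + 1 := by
  rw [star_in h, card_insert_of_notMem fun a => S.not (mem_star.1 a).1]

theorem far {v : ℕ} (a : v ∈ vs A) (b : v ∉ vs B) : star (insert o A) v = star R v := by
  rw [star_out, S.toSpl.far b]
  intro c
  have d : v ∈ vs A ∩ vs B := S.cut ▸ S.oi ▸ mem_inter.2 ⟨c, vs_mono S.sub a⟩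
  exact b (mem_inter.1 d).2

theorem c0' : C0 (insert o A) := by
  have hA := c0_sub S.c0 S.sub
  have h2 : ∀ e ∈ A, (o ∩ e).card ≤ 2 := fun e he => (card_le_card (S.inter he)).trans card_le_two
  have h3 : ∀ e ∈ A, (o ∩ e).card = 2 → o \ e ∪ e \ o ∉ insert o A := fun e he a b => by
    have c : o ∩ e = {s, t} := eq_of_subset_of_card_le (S.inter he) (by rw [a, card_pair S.ne])
    have d : s ∈ e := (mem_inter.1 (c ▸ mem_insert_self s {t})).2
    rcases mem_insert.1 b with b | b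
    · have f : s ∈ o \ e ∪ e \ o := b.symm ▸ S.so
      simp [d, S.so] at f
    · refine S.new fun v hv => ?_
      by_cases f : v ∈ e
      · exact mem_vs.2 ⟨e, S.sub he, f⟩
      · exact mem_vs.2 ⟨_, S.sub b, mem_union_left _ (mem_sdiff.2 ⟨hv, f⟩)⟩
  refine ⟨⟨fun e he => ?_, fun v => ?_⟩, fun e he f hf a b => ?_, fun e he f hf a => ?_⟩
  · rcases mem_insert.1 he with rfl | a
    exacts [S.oc, hA.cls.unif e a]
  · change (star (insert o A) v).card ≤ 4
    have a : (star R v).card ≤ 4 := S.c0.cls.deg v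
    have b := S.deg v
    by_cases c : v ∈ o
    · rw [S.deg_in c]
      by_cases d : v ∈ vs R
      · have f : v ∈ vs A ∩ vs B := S.cut ▸ S.oi ▸ mem_inter.2 ⟨c, d⟩
        have := star_pos (mem_inter.1 f).2
        omega
      · rw [star_nil fun f => d (vs_mono S.sub f)]
        simp
    · rw [star_out c]
      omega
  · rcases mem_insert.1 he with rfl | c <;> rcases mem_insert.1 hf with rfl | d
    · rw [inter_self, S.oc] at a
      omega
    · exact h3 f d a b
    · exact h3 e c (inter_comm e f ▸ a) (union_comm (e \ f) (f \ e) ▸ b)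
    · rcases mem_insert.1 b with b | b
      · refine S.new fun v hv => ?_
        rcases mem_union.1 (b ▸ hv) with g | g
        exacts [mem_vs.2 ⟨e, S.sub c, (mem_sdiff.1 g).1⟩, mem_vs.2 ⟨f, S.sub d, (mem_sdiff.1 g).1⟩]
      · exact hA.no6 e c f d a b
  · rcases mem_insert.1 he with rfl | c <;> rcases mem_insert.1 hf with rfl | d
    exacts [absurd rfl a, h2 f d, inter_comm e f ▸ h2 e c, hA.co2 e c f d a]

theorem lvs_o : lvs (insert o A) o = o \ {s, t} := by
  ext v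
  rw [mem_lvs, mem_sdiff]
  refine and_congr_right fun a => ?_
  rw [S.deg_in a]
  refine ⟨fun b c => ?_, fun b => ?_⟩
  · have d : v ∈ vs A ∩ vs B := S.cut ▸ c
    have := star_pos (mem_inter.1 d).1
    omega
  · rw [star_nil fun c => b (S.oi ▸ mem_inter.2 ⟨a, vs_mono S.sub c⟩)]
    simp

theorem lvs_c : (lvs (insert o A) o).card = 2 := by
  rw [S.lvs_o, card_sdiff_of_subset (S.oi ▸ inter_subset_left), S.oc, card_pair S.ne]

theorem lvs_sub {e : Finset ℕ} (he : e ∈ A) : lvs R e ⊆ lvs (insert o A) e := fun v hv => by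
  obtain ⟨a, b⟩ := mem_lvs.1 hv
  have c : v ∈ vs A := mem_vs.2 ⟨e, he, a⟩
  refine mem_lvs.2 ⟨a, ?_⟩
  rw [S.far c, b]
  intro d
  have := star_pos c
  have := star_pos d
  have := S.deg v
  omega

end Two

/-- every edge through `s` contains `t`. -/
def Nst (A : Hg) (s t : ℕ) : Prop := ∀ e ∈ A, s ∈ e → t ∈ e

/-- the cost of a cut vertex in the part `A` with the extra edge. -/
noncomputable def co (P : Hg → ℕ → ℝ) (n : Nu) (h : ℝ) (R A B : Hg) (v : ℕ) : ℝ :=
  if (star B v).card = 1 then P R v else if (star A v).card = 1 then h + n.d else n.hi3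

theorem or_vertex (H : Ax0 P n) {o : Finset ℕ} (S : Two R A B s t o) {h : ℝ}
    (hx : (star B s).card = 1 → Nst B s t ∨ ¬ Nst A s t)
    (hh : n.hi2 ≤ h ∨ (n.hl2 ≤ h ∧ ¬ Nst A s t)) :
    P (insert o A) s + (if (star A s).card = 1 ∧ (star B s).card ≠ 1 then
      n.d * (star A s).card else 0) ≤ co P n h R A B s := by
  have a1 := star_pos S.sA
  have a2 := star_pos S.symm.sA
  have a3 := S.deg s
  have a4 : (star R s).card ≤ 4 := S.c0.cls.deg s
  have a5 := S.deg_in S.so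
  rw [co]
  by_cases b : (star B s).card = 1
  · rw [if_pos b, if_neg fun c => c.2 b, add_zero]
    obtain ⟨f, hf⟩ := card_eq_one.1 b
    obtain ⟨f1, f2⟩ := mem_star.1 (hf ▸ mem_singleton_self f)
    refine H.exch R _ s t f o (star A s) S.c0 S.c0' (by rw [S.star, hf, union_comm]; rfl)
      (Two.star_in S.so) (fun c => disjoint_left.1 S.dj (mem_star.1 c).1 f1)
      (fun c => S.not (mem_star.1 c).1) (card_pos.1 a1) S.lvs_c
      (fun e he => S.lvs_sub (mem_star.1 he).1)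
      (fun e he => ⟨fun v hv => ?_, S.inter (mem_star.1 he).1⟩) S.swap.so S.ne.symm ?_
    · exact S.cut ▸ mem_inter.2 ⟨mem_vs.2 ⟨e, (mem_star.1 he).1, (mem_inter.1 hv).2⟩,
        mem_vs.2 ⟨f, f1, (mem_inter.1 hv).1⟩⟩
    · refine (hx b).imp (fun c => c f f1 f2) fun c => by_contra fun d => c fun e he g => ?_
      exact by_contra fun k => d ⟨e, mem_star.2 ⟨he, g⟩, k⟩
  rw [if_neg b]
  by_cases c : (star A s).card = 1
  · rw [if_pos c, if_pos ⟨c, b⟩, c, Nat.cast_one, mul_one]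
    refine add_le_add ?_ le_rfl
    rcases hh with d | ⟨d, f⟩
    · exact (H.hi2 _ s S.c0' (by omega)).trans d
    obtain ⟨e, he⟩ := card_eq_one.1 c
    obtain ⟨e1, e2⟩ := mem_star.1 (he ▸ mem_singleton_self e)
    refine (H.hl2 _ s o e S.c0' (by rw [Two.star_in S.so, he]) ?_).trans d
    refine eq_singleton_iff_unique_mem.2 ⟨mem_inter.2 ⟨S.so, e2⟩, fun v hv => ?_⟩
    rcases mem_insert.1 (S.inter e1 hv) with g | g
    · exact g
    · refine absurd (fun x x1 x2 => ?_) f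
      rw [deg_one c x1 e1 x2 e2, ← mem_singleton.1 g]
      exact (mem_inter.1 hv).2
  · rw [if_neg c, if_neg fun d => c d.1, add_zero]
    exact H.hi3 _ s S.c0' (by omega)

theorem side_or (hn : n.Ok) (H : Ax0 P n) {o : Finset ℕ} (S : Two R A B s t o) {h : ℝ}
    (gQ : Good (insert o A) (P (insert o A)))
    (h4 : ∀ e ∈ A, (lvs A e).card ≠ 4)
    (hx : (star B s).card = 1 → Nst B s t ∨ ¬ Nst A s t)
    (hy : (star B t).card = 1 → Nst B t s ∨ ¬ Nst A t s)
    (hh : n.hi2 ≤ h ∨ (n.hl2 ≤ h ∧ ¬ Nst A s t ∧ ¬ Nst A t s)) :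
    ∃ p, Good (insert o A) p ∧ (∀ v ∈ vs A, v ∉ vs B → p v = P R v) ∧
      (∀ v ∈ vs A, v ∈ vs B → p v = co P n h R A B v) ∧ ∑ v ∈ o \ {s, t}, p v = n.L2 := by
  have io : ∀ v ∈ vs A ∩ vs B, v ∈ o := fun v a => (mem_inter.1 (S.oi ▸ S.cut ▸ a)).1
  have d1 : ∀ v ∈ vs A ∩ vs B, (star (insert o A) v).card = (star A v).card + 1 ∧
      1 ≤ (star A v).card ∧ 1 ≤ (star B v).card ∧
      (star R v).card = (star A v).card + (star B v).card := fun v a =>
    ⟨S.deg_in (io v a), star_pos (mem_inter.1 a).1, star_pos (mem_inter.1 a).2, S.deg v⟩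
  refine ⟨fun v => if v ∈ vs A then if v ∈ vs B then co P n h R A B v else P R v else
    P (insert o A) v, ?_, fun v a b => by simp [a, b], fun v a b => by simp [a, b], ?_⟩
  · refine side_gen hn H (C := vs A ∩ vs B) (D := (vs A ∩ vs B).filter fun v =>
      (star A v).card = 1 ∧ (star B v).card ≠ 1) S.c0 S.c0' gQ S.sub (subset_insert _ _)
      (fun v a b => ?_) (fun v a => by have := d1 v a; omega) (fun v _ b => if_neg b) le_rfl
      (fun v a b => by have := d1 v a; omega) (fun e he a => absurd ?_ (h4 e he))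
      (fun e he a => ?_) (fun v a => ?_) fun v a a1 _ => ?_
    · have d : v ∉ vs B := fun d => b (mem_inter.2 ⟨a, d⟩)
      exact ⟨S.far a d, S.toSpl.far d ▸ filter_subset _ _, by simp [a, d]⟩
    · refine le_antisymm (lvs_le (c0_sub S.c0 S.sub) he) (a ▸ card_le_card fun v hv => ?_)
      obtain ⟨b, c⟩ := mem_lvs.1 hv
      have d := star_pos (mem_vs.2 ⟨e, he, b⟩)
      have f : (star A v).card ≤ (star (insert o A) v).card :=
        card_le_card (filter_subset_filter _ (subset_insert _ _))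
      exact mem_lvs.2 ⟨b, by omega⟩
    · have k1 : ∀ v ∈ e, (star (insert o A) v).card = 2 → v ∈ vs B → (star B v).card ≠ 1 →
          ∃ v ∈ e, v ∈ (vs A ∩ vs B).filter fun v =>
            (star A v).card = 1 ∧ (star B v).card ≠ 1 := fun v v1 v2 v3 v4 => by
        have b := mem_inter.2 ⟨mem_vs.2 ⟨e, he, v1⟩, v3⟩
        have := d1 v b
        exact ⟨v, v1, mem_filter.2 ⟨b, by omega, v4⟩⟩
      rcases a with ⟨v, v1, v2, v3⟩ | ⟨⟨a, a1, b, b1, c1, c2, c3⟩, d⟩
      · have f : v ∈ vs B := by_contra fun f => by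
          rw [S.far (mem_vs.2 ⟨e, he, v1⟩) f] at v2
          omega
        have := d1 v (mem_inter.2 ⟨mem_vs.2 ⟨e, he, v1⟩, f⟩)
        exact k1 v v1 v2 f (by omega)
      have a2 : a ∈ vs A := mem_vs.2 ⟨e, he, a1⟩
      have b2 : b ∈ vs A := mem_vs.2 ⟨e, he, b1⟩
      have k2 : ∀ x y, star (insert o A) x = star (insert o A) y → x ∈ vs A → x ∈ vs B →
          y ∈ vs A → y ∈ vs B := fun x y x1 x2 x3 y1 => by
        have f : o ∈ star (insert o A) y :=
          x1 ▸ mem_star.2 ⟨mem_insert_self _ _, io x (mem_inter.2 ⟨x2, x3⟩)⟩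
        have g : y ∈ vs A ∩ vs B :=
          S.cut ▸ S.oi ▸ mem_inter.2 ⟨(mem_star.1 f).2, vs_mono S.sub y1⟩
        exact (mem_inter.1 g).2
      by_cases f : a ∈ vs B
      swap
      · have g : b ∉ vs B := fun g => f (k2 b a c3.symm b2 g a2)
        exact absurd ⟨a, a1, b, b1, c1, S.far a2 f ▸ c2, S.far a2 f ▸ S.far b2 g ▸ c3⟩ d
      have g := k2 a b c3 a2 f b2
      by_cases f1 : (star B a).card = 1
      swap
      · exact k1 a a1 c2 f f1
      by_cases g1 : (star B b).card = 1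
      swap
      · exact k1 b b1 (c3 ▸ c2) g g1
      have f2 := d1 a (mem_inter.2 ⟨a2, f⟩)
      have g2 := d1 b (mem_inter.2 ⟨b2, g⟩)
      have c4 : (star (insert o A) b).card = 2 := c3 ▸ c2
      have f3 : star A a = {e} := star_one (by omega) he a1
      have g3 : star A b = {e} := star_one (by omega) he b1
      have k3 : (Nst B a b ∨ ¬ Nst A a b) := by
        have f4 : a ∈ ({s, t} : Finset ℕ) := S.cut ▸ mem_inter.2 ⟨a2, f⟩
        have g4 : b ∈ ({s, t} : Finset ℕ) := S.cut ▸ mem_inter.2 ⟨b2, g⟩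
        simp only [mem_insert, mem_singleton] at f4 g4
        rcases f4 with rfl | rfl <;> rcases g4 with rfl | rfl
        exacts [absurd rfl c1, hx f1, hy f1, absurd rfl c1]
      have k4 := k3.resolve_right fun z => z fun x x1 x2 => by
        rw [deg_one (R := A) (v := a) (by omega) x1 he x2 a1]
        exact b1
      obtain ⟨z, z1, z2⟩ := mem_vs.1 f
      refine absurd ⟨a, a1, b, b1, c1, by omega, ?_⟩ d
      rw [S.star, S.star, f3, g3, star_one f1 z1 z2, star_one g1 z1 (k4 z z1 z2)]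
    · obtain ⟨b, c⟩ := mem_filter.1 a
      have := d1 v b
      exact ⟨b, by omega⟩
    · simp only [mem_filter, a, a1, (mem_inter.1 a).2, true_and, if_true]
      have f4 : v ∈ ({s, t} : Finset ℕ) := S.cut ▸ a
      simp only [mem_insert, mem_singleton] at f4
      rcases f4 with rfl | rfl
      · exact or_vertex H S hx (hh.imp_right fun b => ⟨b.1, b.2.1⟩)
      · exact or_vertex H S.swap hy (hh.imp_right fun b => ⟨b.1, b.2.2⟩)
  · rw [← H.two _ o S.c0' (mem_insert_self _ _) S.lvs_c, Lam, S.lvs_o]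
    refine sum_congr rfl fun v hv => if_neg fun a => (mem_sdiff.1 hv).2 ?_
    exact S.oi ▸ mem_inter.2 ⟨(mem_sdiff.1 hv).1, vs_mono S.sub a⟩

/-- the two costs of a cut vertex; `B` is the part with the extra edge. -/
theorem excess (hn : n.Ok) (H : Ax0 P n) (S : Spl R A B) {h x : ℝ} {D : Finset ℕ} {v : ℕ}
    (hx : CU n n.inc D A v x) (b : v ∈ vs B) (hh : h ≤ n.hi2) :
    co P n h R B A v ≤ P R v ∧ (x + co P n h R B A v ≤ P R v + n.k0 ∨
      (v ∈ D ∧ (x + co P n h R B A v ≤ P R v + n.k ∨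
        x + co P n h R B A v + n.lo3 ≤ P R v + h + n.hi2 + 3 * n.d))) := by
  have := star_pos b
  have := S.deg v
  have : (star R v).card ≤ 4 := S.c0.cls.deg v
  have := hn.d0
  rw [co]
  rcases hx with ⟨a, rfl⟩ | ⟨a, rfl⟩ | ⟨a, rfl⟩
  · rw [if_pos a]
    exact ⟨le_rfl, Or.inl (by linarith [hn.k1])⟩
  · rw [if_neg (by omega)]
    by_cases c : (star B v).card = 1
    · have := H.lo3 R v S.c0 (by omega)
      rw [if_pos c]
      refine ⟨by linarith [hn.p3], ?_⟩
      by_cases d : v ∈ D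
      · exact Or.inr ⟨d, Or.inr (by rw [if_pos d]; linarith)⟩
      · exact Or.inl (by rw [if_neg d]; linarith [hn.k4])
    · have := H.lo4 R v S.c0 (by omega)
      rw [if_neg c]
      refine ⟨by linarith [hn.p4], ?_⟩
      by_cases d : v ∈ D
      · exact Or.inr ⟨d, Or.inl (by rw [if_pos d]; linarith [hn.k3])⟩
      · exact Or.inl (by rw [if_neg d]; linarith [hn.k7])
  · have := H.lo3 R v S.c0 (by omega)
    have := H.lo4 R v S.c0 (by omega)
    rw [if_neg (by omega), if_pos (by omega)]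
    exact ⟨by linarith [hn.p3], Or.inl (by linarith [hn.k7])⟩

/-- the data of a cut with two vertices in a system without smaller cuts. -/
structure Big (P : Hg → ℕ → ℝ) (R A B : Hg) (s t l m : ℕ) : Prop extends
    Two R A B s t {s, t, l, m} where
  hl : l ∉ vs R
  hm : m ∉ vs R
  lm : l ≠ m
  cA : 2 ≤ A.card
  cB : 2 ≤ B.card
  h2 : ∀ S ⊆ R, S ≠ ∅ → S ≠ R → 2 ≤ (cutv R S).card
  ih : ∀ Q, C0 Q → Q.card < R.card → Good Q (P Q)

namespace Big
variable (S : Big P R A B s t l m)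
include S

theorem symm : Big P R B A s t l m := ⟨S.toTwo.symm, S.hl, S.hm, S.lm, S.cB, S.cA, S.h2, S.ih⟩

theorem swap : Big P R A B t s l m :=
  ⟨insert_comm s t {l, m} ▸ S.toTwo.swap, S.hl, S.hm, S.lm, S.cA, S.cB, S.h2, S.ih⟩

theorem gA : Good A (P A) := S.ih A (c0_sub S.c0 S.sub) (by have := S.card; have := S.cB; omega)

theorem gQ : Good (insert {s, t, l, m} A) (P (insert {s, t, l, m} A)) := S.ih _ S.c0' (by
  have := S.card
  have := S.cB
  have := card_insert_le {s, t, l, m} A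
  omega)

theorem h4 : ∀ e ∈ A, (lvs A e).card ≠ 4 := fun e he a => by
  have b : lvs A e = e := eq_of_subset_of_card_le (filter_subset _ _)
    (by rw [a, S.c0.cls.unif e (S.sub he)])
  have c : ∀ v ∈ e, ∀ f ∈ A, v ∈ f → f = e := fun v hv f hf d =>
    deg_one (mem_lvs.1 (b.symm ▸ hv)).2 hf he d hv
  have k : ∀ f ∈ R, f ∈ A ∨ f ∈ B := fun f hf => mem_union.1 (S.un.symm ▸ hf)
  have c1 := S.card
  have c2 := S.cA
  have c3 := S.cB
  have c4 := card_erase_add_one he
  have d1 := S.h2 {e} (singleton_subset_iff.2 (S.sub he)) (singleton_ne_empty e) fun f => by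
    rw [← f, card_singleton] at c1
    omega
  have d2 := S.h2 (A.erase e) ((erase_subset _ _).trans S.sub)
    (card_pos.1 (by omega)).ne_empty fun f => by
      rw [← f] at c1
      omega
  have f1 : cutv R {e} ⊆ (vs A ∩ vs B) ∩ e := fun v hv => by
    obtain ⟨x, y⟩ := mem_inter.1 hv
    obtain ⟨f, x1, x2⟩ := mem_vs.1 x
    obtain ⟨g, y1, y2⟩ := mem_vs.1 y
    rw [mem_singleton.1 x1] at x2
    rw [mem_sdiff, mem_singleton] at y1
    exact mem_inter.2 ⟨mem_inter.2 ⟨mem_vs.2 ⟨e, he, x2⟩, mem_vs.2 ⟨g, (k g y1.1).resolve_left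
      fun z => y1.2 (c v x2 g z y2), y2⟩⟩, x2⟩
  have f2 : cutv R (A.erase e) ⊆ (vs A ∩ vs B) \ e := fun v hv => by
    obtain ⟨x, y⟩ := mem_inter.1 hv
    obtain ⟨f, x1, x2⟩ := mem_vs.1 x
    obtain ⟨g, y1, y2⟩ := mem_vs.1 y
    rw [mem_erase] at x1
    rw [mem_sdiff, mem_erase] at y1
    have z : v ∉ e := fun z => x1.1 (c v z f x1.2 x2)
    exact mem_sdiff.2 ⟨mem_inter.2 ⟨mem_vs.2 ⟨f, x1.2, x2⟩, mem_vs.2 ⟨g, (k g y1.1).resolve_left
      fun u => y1.2 ⟨fun u1 => z (u1 ▸ y2), u⟩, y2⟩⟩, z⟩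
  have g1 := card_le_card f1
  have g2 := card_le_card f2
  have g3 := card_inter_add_card_sdiff (vs A ∩ vs B) e
  rw [S.cut, card_pair S.ne] at g3
  rw [S.cut] at g1 g2
  omega

theorem three : ∀ e ∈ A, 3 ≤ e.card := fun e he => by
  rw [S.c0.cls.unif e (S.sub he)]
  norm_num

theorem rest (p : ℕ → ℝ) : ∑ v ∈ {s, t, l, m} \ {s, t}, p v = p l + p m := by
  have a : s ∈ vs R := vs_mono S.sub S.sA
  have b : t ∈ vs R := vs_mono S.sub S.swap.sA
  rw [← sum_pair S.lm]
  congr 1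
  ext v
  simp only [mem_sdiff, mem_insert, mem_singleton]
  have := S.hl
  have := S.hm
  grind

/-- the plain part `A` against the part `B` with the extra edge. -/
theorem both (hn : n.Ok) (H : Ax0 P n) {h : ℝ} {D : Finset ℕ} (h0 : h ≤ n.hi2)
    (hD : ∀ e ∈ A, ∀ v ∈ e, v ∈ vs B → (star A v).card = 2 → ∃ u ∈ e, u ∈ D)
    (hD' : ∀ u ∈ D, u ∈ vs B ∧ (star A u).card = 2)
    (hx : (star A s).card = 1 → Nst A s t ∨ ¬ Nst B s t)
    (hy : (star A t).card = 1 → Nst A t s ∨ ¬ Nst B t s)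
    (hh : n.hi2 ≤ h ∨ (n.hl2 ≤ h ∧ ¬ Nst B s t ∧ ¬ Nst B t s))
    (hk : (s ∈ D → t ∉ D) ∨ h + n.hi2 + 3 * n.d ≤ n.lo3 + n.k) :
    ∃ p q, Good A p ∧ Good (insert {s, t, l, m} B) q ∧ (∀ v ∈ vs A, p v ≤ P R v) ∧
      (∀ v ∈ vs B, q v ≤ P R v) ∧ q s + p s + q t + p t + q l + q m ≤ 1 + P R s + P R t := by
  obtain ⟨p, p1, p2, p3⟩ := side_un hn H S.toSpl S.gA le_rfl
    (fun e he a => absurd a (S.h4 e he)) hD hD'
  obtain ⟨q, q1, q2, q3, q4⟩ := side_or hn H S.symm.toTwo S.symm.gQ S.symm.h4 hx hy hh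
  refine ⟨p, q, p1, q1, fun v a => ?_, fun v a => ?_, ?_⟩
  · by_cases b : v ∈ vs B
    exacts [(p3 v a b).le hn H S.toSpl hn.p2 b, (p2 v a b).le]
  · by_cases b : v ∈ vs A
    exacts [q3 v a b ▸ (excess hn H S.toSpl (p3 v b a) a h0).1, (q2 v a b).le]
  · have a := (excess hn H S.toSpl (p3 s S.sA S.symm.sA) S.symm.sA h0).2
    have b := (excess hn H S.toSpl (p3 t S.swap.sA S.swap.symm.sA) S.swap.symm.sA h0).2
    rw [← q3 s S.symm.sA S.sA] at a
    rw [← q3 t S.swap.symm.sA S.swap.sA] at b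
    rw [S.rest] at q4
    have := hn.k0
    have := hn.k5
    have := hn.k6
    rcases a with a | ⟨a1, a⟩ <;> rcases b with b | ⟨b1, b⟩
    · linarith
    · rcases b with b | b <;> linarith
    · rcases a with a | a <;> linarith
    · rcases hk with c | c
      · exact absurd b1 (c a1)
      · rcases a with a | a <;> rcases b with b | b <;> linarith

theorem nested (hn : n.Ok) (H : Ax0 P n) (h : Nst A s t) : Good R (P R) := by
  obtain ⟨p, q, a1, a2, a3, a4, a5⟩ := S.both hn H (h := n.hi2) (D := (vs B).filter fun u =>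
    (star A u).card = 2 ∧ (u = t ∨ (star A t).card ≠ 2)) le_rfl (fun e he v a b c => by
      by_cases d : v = t ∨ (star A t).card ≠ 2
      · exact ⟨v, a, mem_filter.2 ⟨b, c, d⟩⟩
      rw [not_or, not_not] at d
      have f : v ∈ ({s, t} : Finset ℕ) := S.cut ▸ mem_inter.2 ⟨mem_vs.2 ⟨e, he, a⟩, b⟩
      rw [mem_insert, mem_singleton] at f
      exact ⟨t, h e he (f.resolve_right d.1 ▸ a), mem_filter.2 ⟨S.swap.symm.sA, d.2, Or.inl rfl⟩⟩)
    (fun u a => ⟨(mem_filter.1 a).1, (mem_filter.1 a).2.1⟩) (fun _ => Or.inl h)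
    (fun a => Or.inl fun e he b => by
      obtain ⟨f, f1, f2⟩ := mem_vs.1 S.sA
      exact deg_one a f1 he (h f f1 f2) b ▸ f2) (Or.inl le_rfl)
    (Or.inl fun a b => (mem_filter.1 a).2.2.elim S.ne fun c => c (mem_filter.1 b).2.1)
  have := good_cut2_nested a1 a2 S.ne S.cut h (fun a => S.hl (vs_mono S.symm.sub a))
    (fun a => S.hm (vs_mono S.symm.sub a)) S.lm S.three S.symm.three a3 a4 a5
  rwa [S.un] at this

theorem free (hn : n.Ok) (H : Ax0 P n) (h1 : ¬ Nst B s t) (h2 : ¬ Nst B t s) :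
    ∃ p q, Good A p ∧ Good (insert {s, t, l, m} B) q ∧ (∀ v ∈ vs A, p v ≤ P R v) ∧
      (∀ v ∈ vs B, q v ≤ P R v) ∧ q s + p s + q t + p t + q l + q m ≤ 1 + P R s + P R t :=
  S.both hn H (h := n.hl2) (D := (vs B).filter fun u => (star A u).card = 2) hn.p5
    (fun _ _ v a b c => ⟨v, a, mem_filter.2 ⟨b, c⟩⟩) (fun _ a => mem_filter.1 a)
    (fun _ => Or.inr h1) (fun _ => Or.inr h2) (Or.inr ⟨le_rfl, h1, h2⟩) (Or.inr hn.k2)

theorem red2 (hn : n.Ok) (H : Ax0 P n) : Good R (P R) := by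
  by_cases h1 : Nst A s t
  · exact S.nested hn H h1
  by_cases h2 : Nst A t s
  · exact S.swap.nested hn H h2
  by_cases h3 : Nst B s t
  · exact S.symm.nested hn H h3
  by_cases h4 : Nst B t s
  · exact S.swap.symm.nested hn H h4
  obtain ⟨p, q', a1, a2, a3, a4, a5⟩ := S.free hn H h3 h4
  obtain ⟨q, p', b1, b2, b3, b4, b5⟩ := S.symm.free hn H h1 h2
  have := good_cut2 b2 a1 a2 b1 S.ne S.cut (S.un.symm ▸ S.hl) (S.un.symm ▸ S.hm) S.lm S.three
    S.symm.three a3 b4 b3 a4 b5 a5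
  rwa [S.un] at this

end Big

end St

/-- a system of the class is reducible or has no small cut. -/
theorem good_or_irr {P : Hg → ℕ → ℝ} {n : Nu} (hn : n.Ok) (H : Ax0 P n) {R : Hg} (hR : C0 R)
    (ih : ∀ Q, C0 Q → Q.card < R.card → Good Q (P Q)) : Good R (P R) ∨ Irr R := by
  by_cases h0 : R.card ≤ 1
  · left
    rcases card_le_one_iff_subset_singleton.1 h0 with ⟨e, he⟩
    rcases subset_singleton_iff.1 he with rfl | rfl
    · exact good_empty _
    have a : ∀ v ∈ e, (star {e} v).card = 1 := fun v hv => by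
      rw [star, filter_singleton, if_pos hv, card_singleton]
    have b : lvs {e} e = e := filter_true_of_mem a
    have c := H.four _ e hR (mem_singleton_self e) (by
      rw [b, hR.cls.unif e (mem_singleton_self e)])
    rw [Lam, b] at c
    exact good_single (fun v hv => H.leaf _ v hR (a v hv)) c.ge
  have sp : ∀ S ⊆ R, St.Spl R S (R \ S) := fun S hS => ⟨hR, union_sdiff_of_subset hS, disjoint_sdiff⟩
  have lt : ∀ S ⊆ R, S ≠ ∅ → S ≠ R → S.card < R.card ∧ (R \ S).card < R.card ∧ 1 ≤ S.card ∧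
      1 ≤ (R \ S).card := fun S hS a b => by
    have := card_lt_card (Finset.ssubset_iff_subset_ne.2 ⟨hS, b⟩)
    have := card_pos.2 (nonempty_iff_ne_empty.2 a)
    have := (sp S hS).card
    omega
  by_cases h1 : ∃ S ⊆ R, S ≠ ∅ ∧ S ≠ R ∧ (cutv R S).card ≤ 1
  · obtain ⟨S, hS, a, b, c⟩ := h1
    exact Or.inl (St.red1 hn H (sp S hS) (ih _ (St.c0_sub hR hS) (lt S hS a b).1)
      (ih _ (St.c0_sub hR sdiff_subset) (lt S hS a b).2.1) c)
  have h2 : ∀ S ⊆ R, S ≠ ∅ → S ≠ R → 2 ≤ (cutv R S).card := fun S hS a b =>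
    by_contra fun c => h1 ⟨S, hS, a, b, by omega⟩
  refine or_iff_not_imp_left.2 fun hg => ⟨by omega, fun S hS a b => by_contra fun c => hg ?_⟩
  have d := h2 S hS a b
  have f := lt S hS a b
  obtain ⟨s, t, st, g⟩ := card_eq_two.1 (by omega : (cutv R S).card = 2)
  obtain ⟨l, hl⟩ := Infinite.exists_notMem_finset (vs R)
  obtain ⟨m, hm⟩ := Infinite.exists_notMem_finset (insert l (vs R))
  rw [mem_insert, not_or] at hm
  have k : ∀ v ∈ ({s, t} : Finset ℕ), v ∈ vs R := fun v hv =>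
    vs_mono hS (mem_inter.1 (g.symm ▸ hv : v ∈ cutv R S)).1
  have k1 := k s (by simp)
  have k2 := k t (by simp)
  refine St.Big.red2 (l := l) (m := m) ⟨⟨sp S hS, st, g, ?_, ?_⟩, hl, hm.2, Ne.symm hm.1,
    by omega, by omega, h2, ih⟩ hn H
  · rw [card_eq_four]
    exact ⟨s, t, l, m, st, fun e => hl (e ▸ k1), fun e => hm.2 (e ▸ k1), fun e => hl (e ▸ k2),
      fun e => hm.2 (e ▸ k2), Ne.symm hm.1, rfl⟩
  · ext v
    simp only [mem_inter, mem_insert, mem_singleton]
    grind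

end Pool.Agent.P.MP_b2082d_co.Gen
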