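import Pool.Agent.P.MP_b2082d_co.G.T05

/-! Prices of a part of a system, compared with the prices in the whole system. -/

namespace Pool.Agent.P.MP_b2082d_co.Gen
open Finset

/-- the class of the first induction. -/
structure C0 (R : Hg) : Prop where
  cls : Cls R
  no6 : NoH6 R
  co2 : Co2 R

/-- the total price of the leaves of an edge. -/
def Lam (P : Hg → ℕ → ℝ) (R : Hg) (e : Finset ℕ) : ℝ := ∑ v ∈ lvs R e, P R v

/-- the edge contains two vertices of degree two with the same edges. -/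
def Tw (R : Hg) (e : Finset ℕ) : Prop :=
  ∃ a ∈ e, ∃ b ∈ e, a ≠ b ∧ (star R a).card = 2 ∧ star R a = star R b

/-- the numbers that bound the prices. -/
structure Nu where
  (d l1 L2 L3 inc lo2 hi2 hl2 lo3 hi3 lo4 k0 k : ℝ)

structure Nu.Ok (n : Nu) : Prop where
  d0 : 0 ≤ n.d
  l0 : 0 ≤ n.l1
  i1 : n.l1 + n.d ≤ n.inc
  i2 : n.L2 ≤ n.l1 + n.inc
  i3 : n.L3 ≤ n.L2 + n.inc
  p1 : 1 ≤ n.L3 + n.lo2
  p2 : n.inc ≤ n.lo2
  p3 : n.hi2 + 2 * n.d ≤ n.lo3
  p4 : n.hi3 ≤ n.lo4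
  p5 : n.hl2 ≤ n.hi2
  k0 : n.k0 ≤ n.k
  k1 : n.inc ≤ n.k0
  k2 : n.hl2 + n.hi2 + 3 * n.d ≤ n.lo3 + n.k
  k3 : n.hi3 + n.hi2 + 2 * n.d ≤ n.lo4 + n.k
  k4 : 2 * n.hi2 + n.d ≤ n.lo3 + n.k0
  k5 : 2 * n.k + n.L2 ≤ 1
  k6 : n.k0 + 2 * n.hi2 + 3 * n.d + n.L2 ≤ 1 + n.lo3
  k7 : n.hi3 + n.hi2 + n.d ≤ n.lo4 + n.k0

/-- what the reductions use about the prices. -/
structure Ax0 (P : Hg → ℕ → ℝ) (n : Nu) : Prop where
  leaf : ∀ R v, C0 R → (star R v).card = 1 → 0 ≤ P R v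
  one : ∀ R e, C0 R → e ∈ R → (lvs R e).card = 1 → n.l1 ≤ Lam P R e ∧ Lam P R e ≤ n.l1 + n.d
  two : ∀ R e, C0 R → e ∈ R → (lvs R e).card = 2 → Lam P R e = n.L2
  three : ∀ R e, C0 R → e ∈ R → (lvs R e).card = 3 → Lam P R e = n.L3
  four : ∀ R e, C0 R → e ∈ R → (lvs R e).card = 4 → Lam P R e = 1
  state : ∀ R Q e, C0 R → C0 Q → e ∈ R → e ∈ Q → (lvs R e).card = 1 → lvs Q e = lvs R e →
    (∀ v ∈ e, 3 ≤ (star R v).card → 3 ≤ (star Q v).card) → (Tw Q e → Tw R e) →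
    Lam P Q e ≤ Lam P R e
  lo2 : ∀ R v, C0 R → 2 ≤ (star R v).card → n.lo2 ≤ P R v
  lo3 : ∀ R v, C0 R → 3 ≤ (star R v).card → n.lo3 ≤ P R v
  lo4 : ∀ R v, C0 R → (star R v).card = 4 → n.lo4 ≤ P R v
  hi2 : ∀ R v, C0 R → (star R v).card = 2 → P R v ≤ n.hi2
  hl2 : ∀ R v e f, C0 R → star R v = {e, f} → e ∩ f = {v} → P R v ≤ n.hl2
  hi3 : ∀ R v, C0 R → (star R v).card = 3 → P R v ≤ n.hi3
  mono : ∀ R Q v, C0 R → C0 Q → 2 ≤ (star R v).card → star Q v = star R v →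
    (∀ e ∈ star R v, lvs R e ⊆ lvs Q e) → P Q v ≤ P R v
  exch : ∀ R Q v t b o S, C0 R → C0 Q → star R v = insert b S → star Q v = insert o S → b ∉ S →
    o ∉ S → S.Nonempty → (lvs Q o).card = 2 → (∀ e ∈ S, lvs R e ⊆ lvs Q e) →
    (∀ e ∈ S, b ∩ e ⊆ {v, t} ∧ o ∩ e ⊆ {v, t}) → t ∈ o → t ≠ v → (t ∈ b ∨ ∃ e ∈ S, t ∉ e) →
    P Q v ≤ P R v

/-- what the leaves of an edge do not pay is paid by other vertices of that edge. -/
theorem good_shift {R : Hg} {p q : ℕ → ℝ} (x : Finset ℕ → ℕ → ℝ) (hR : Good R q)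
    (h0 : ∀ v ∈ vs R, (star R v).card = 1 → 0 ≤ p v) (h1 : ∀ e ∈ R, 0 ≤ ∑ v ∈ e, x e v)
    (h2 : ∀ e ∈ R, ∀ v ∈ e, (star R v).card ≠ 1 → 0 ≤ x e v)
    (h3 : ∀ v ∈ vs R, q v + ∑ e ∈ star R v, x e v ≤ p v) : Good R p := fun w hw => by
  have hm : ∀ e : Finset ℕ, ∃ a, e.Nonempty → a ∈ e ∧ ∀ v ∈ e, w a ≤ w v := fun e => by
    by_cases a : e.Nonempty
    · obtain ⟨y, y1, y2⟩ := exists_min_image e w a
      exact ⟨y, fun _ => ⟨y1, y2⟩⟩
    · exact ⟨0, fun b => absurd b a⟩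
  choose μ hμ using hm
  set φ : ℕ → ℕ := fun u => if (star R u).card = 1 then μ (vs (star R u)) else u with hφ
  have φ1 : ∀ e ∈ R, ∀ u ∈ e, (star R u).card = 1 → φ u = μ e := fun e he u hu a => by
    simp only [hφ]
    rw [if_pos a, star_one a he hu]
    simp [vs]
  obtain ⟨T, t1, t2⟩ := hR (fun u => w (φ u)) fun u => hw _
  refine ⟨T.image φ, fun e he => ?_, (sum_image_le_of_nonneg fun v _ => hw v).trans (t2.trans ?_)⟩
  · obtain ⟨u, hu⟩ := t1 e he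
    rw [mem_inter] at hu
    refine ⟨φ u, mem_inter.2 ⟨mem_image_of_mem _ hu.1, ?_⟩⟩
    by_cases a : (star R u).card = 1
    · rw [φ1 e he u hu.2 a]
      exact (hμ e ⟨u, hu.2⟩).1
    · simpa [hφ, a] using hu.2
  have e1 : ∑ v ∈ vs R, ∑ e ∈ star R v, w (μ e) * x e v = ∑ e ∈ R, ∑ v ∈ e, w (μ e) * x e v :=
    sum_comm' fun v e => by
      rw [mem_star, mem_vs]
      exact ⟨fun a => ⟨a.2.2, a.2.1⟩, fun a => ⟨⟨e, a.2, a.1⟩, a.2, a.1⟩⟩
  have e2 : 0 ≤ ∑ e ∈ R, ∑ v ∈ e, w (μ e) * x e v := sum_nonneg fun e he => by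
    rw [← mul_sum]
    exact mul_nonneg (hw _) (h1 e he)
  have e3 : ∑ v ∈ vs R, (w (φ v) * q v + ∑ e ∈ star R v, w (μ e) * x e v) ≤
      ∑ v ∈ vs R, w v * p v := sum_le_sum fun v hv => by
    have b := h3 v hv
    by_cases a : (star R v).card = 1
    · obtain ⟨e, he, c⟩ := mem_vs.1 hv
      rw [φ1 e he v c a]
      rw [star_one a he c, sum_singleton] at b ⊢
      have := mul_le_mul_of_nonneg_left b (hw (μ e))
      have := mul_le_mul_of_nonneg_right ((hμ e ⟨v, c⟩).2 v c) (h0 v hv a)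
      linarith
    · have c : ∑ e ∈ star R v, w (μ e) * x e v ≤ ∑ e ∈ star R v, w v * x e v :=
        sum_le_sum fun e he => mul_le_mul_of_nonneg_right
          ((hμ e ⟨v, (mem_star.1 he).2⟩).2 v (mem_star.1 he).2)
          (h2 e (mem_star.1 he).1 v (mem_star.1 he).2 a)
      rw [← mul_sum] at c
      have := mul_le_mul_of_nonneg_left b (hw v)
      rw [show φ v = v from if_neg a]
      linarith
  rw [sum_add_distrib] at e3
  linarith

namespace St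
variable {P : Hg → ℕ → ℝ} {n : Nu} {R Q A B : Hg}

theorem c0_sub (h : C0 R) (hA : A ⊆ R) : C0 A :=
  ⟨⟨fun e he => h.cls.unif e (hA he),
    fun v => (card_le_card (filter_subset_filter _ hA)).trans (h.cls.deg v)⟩,
   fun e he f hf a b => h.no6 e (hA he) f (hA hf) a (hA b),
   fun e he f hf => h.co2 e (hA he) f (hA hf)⟩

theorem lvs_le (h : C0 R) {e : Finset ℕ} (he : e ∈ R) : (lvs R e).card ≤ 4 :=
  h.cls.unif e he ▸ card_filter_le _ _

theorem star_nil {v : ℕ} (h : v ∉ vs R) : star R v = ∅ :=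
  eq_empty_of_forall_notMem fun e a => h (mem_vs.2 ⟨e, mem_star.1 a⟩)

/-- new leaves pay `c` each. -/
theorem pool (hn : n.Ok) (H : Ax0 P n) (hR : C0 R) (hQ : C0 Q) {e : Finset ℕ} (h1 : e ∈ R)
    (h2 : e ∈ Q) {c : ℝ} (hc : n.inc ≤ c) {j : ℕ} (hj : (lvs Q e).card = (lvs R e).card + j)
    (h0 : j ≠ 0 ∨ (lvs R e).card ≠ 1)
    (h4 : (lvs Q e).card = 4 → (lvs R e).card = 4 ∨ ((lvs R e).card = 3 ∧ 1 ≤ n.L3 + c)) :
    Lam P Q e ≤ Lam P R e + j * c := by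
  have a1 := H.one R e hR h1
  have a2 := H.two R e hR h1
  have a3 := H.three R e hR h1
  have a4 := H.four R e hR h1
  have b1 := H.one Q e hQ h2
  have b2 := H.two Q e hQ h2
  have b3 := H.three Q e hQ h2
  have b4 := H.four Q e hQ h2
  have a0 : (lvs R e).card = 0 → Lam P R e = 0 := fun a => by simp [Lam, card_eq_zero.1 a]
  have b0 : (lvs Q e).card = 0 → Lam P Q e = 0 := fun a => by simp [Lam, card_eq_zero.1 a]
  have c4 := lvs_le hQ h2
  have := hn.d0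
  have := hn.i1
  have := hn.i2
  have := hn.i3
  generalize (lvs R e).card = a at *
  generalize (lvs Q e).card = b at *
  subst hj
  have : a ≤ 4 := by omega
  have : j ≤ 4 := by omega
  interval_cases a <;> interval_cases j <;> simp at * <;> linarith

/-- the common form of the two comparisons. -/
theorem side_gen (hn : n.Ok) (H : Ax0 P n) {C D : Finset ℕ} {p : ℕ → ℝ} {c : ℝ} (hR : C0 R)
    (hQ : C0 Q) (gQ : Good Q (P Q)) (hAR : A ⊆ R) (hAQ : A ⊆ Q)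
    (hN : ∀ v ∈ vs A, v ∉ C → star Q v = star R v ∧ star R v ⊆ A ∧ p v = P R v)
    (hC : ∀ v ∈ C, 2 ≤ (star R v).card) (hO : ∀ v ∈ vs Q, v ∉ vs A → p v = P Q v)
    (hc : n.inc ≤ c) (hL : ∀ v ∈ C, (star Q v).card = 1 → c ≤ p v)
    (h4 : ∀ e ∈ A, (lvs Q e).card = 4 →
      (lvs R e).card = 4 ∨ ((lvs R e).card = 3 ∧ 1 ≤ n.L3 + c))
    (hD : ∀ e ∈ A, (∃ v ∈ e, (star Q v).card = 2 ∧ 3 ≤ (star R v).card) ∨ (Tw Q e ∧ ¬ Tw R e) →
      ∃ v ∈ e, v ∈ D)
    (hD' : ∀ v ∈ D, v ∈ C ∧ (star Q v).card ≠ 1)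
    (hP : ∀ v ∈ C, v ∈ vs A → (star Q v).card ≠ 1 →
      P Q v + (if v ∈ D then n.d * (star A v).card else 0) ≤ p v) : Good Q p := by
  have sub : ∀ e ∈ A, lvs R e ⊆ lvs Q e := fun e he v hv => by
    obtain ⟨a, b⟩ := mem_lvs.1 hv
    refine mem_lvs.2 ⟨a, ?_⟩
    rw [(hN v (mem_vs.2 ⟨e, he, a⟩) fun c => by have := hC v c; omega).1, b]
  have c0 : 0 ≤ c := by linarith [hn.d0, hn.l0, hn.i1]
  refine good_shift (fun e v => if (star Q v).card = 1 then p v - P Q v else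
    if v ∈ D ∧ e ∈ A then n.d else 0) gQ (fun v hv a => ?_) (fun e he => ?_)
    (fun e _ v _ a => ?_) fun v hv => ?_
  · by_cases b : v ∈ vs A
    · by_cases d : v ∈ C
      · exact c0.trans (hL v d a)
      · obtain ⟨x1, -, x2⟩ := hN v b d
        exact x2 ▸ H.leaf R v hR (x1 ▸ a)
    · exact hO v hv b ▸ H.leaf Q v hQ a
  · rw [sum_ite, sum_sub_distrib]
    change 0 ≤ ∑ v ∈ lvs Q e, p v - Lam P Q e + _
    have y0 : ∀ v ∈ e.filter fun v => ¬ (star Q v).card = 1,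
        0 ≤ if v ∈ D ∧ e ∈ A then n.d else 0 := fun v _ => by
      split_ifs
      exacts [hn.d0, le_rfl]
    have y1 := sum_nonneg y0
    by_cases a : e ∈ A
    · have y2 : Lam P R e + (lvs Q e \ lvs R e).card * c ≤ ∑ v ∈ lvs Q e, p v := by
        rw [← sum_sdiff (sub e a), add_comm, ← nsmul_eq_mul]
        refine add_le_add (card_nsmul_le_sum _ _ _ fun v hv => ?_) (le_of_eq (sum_congr rfl
          fun v hv => ?_))
        · obtain ⟨b, d⟩ := mem_sdiff.1 hv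
          rw [mem_lvs] at b d
          refine hL v (by_contra fun f => d ⟨b.1, ?_⟩) b.2
          exact (hN v (mem_vs.2 ⟨e, a, b.1⟩) f).1 ▸ b.2
        · obtain ⟨b, d⟩ := mem_lvs.1 hv
          exact (hN v (mem_vs.2 ⟨e, a, b⟩) fun f => by have := hC v f; omega).2.2.symm
      have y3 := card_sdiff_add_card_eq_card (sub e a)
      by_cases b : (lvs Q e \ lvs R e).card ≠ 0 ∨ (lvs R e).card ≠ 1
      · linarith [pool hn H hR hQ (hAR a) he hc (y3.symm.trans (add_comm _ _)) b (h4 e a)]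
      rw [not_or, not_not, not_not] at b
      have y4 : lvs Q e = lvs R e := (eq_of_subset_of_card_le (sub e a) (by omega)).symm
      rw [b.1, Nat.cast_zero, zero_mul] at y2
      by_cases d : ∃ v ∈ e, v ∈ D
      · obtain ⟨v, v1, v2⟩ := d
        have y5 := single_le_sum y0 (mem_filter.2 ⟨v1, (hD' v v2).2⟩)
        rw [if_pos ⟨v2, a⟩] at y5
        linarith [(H.one R e hR (hAR a) b.2).1, (H.one Q e hQ he (y4 ▸ b.2)).2]
      · have y5 := H.state R Q e hR hQ (hAR a) he b.2 y4 (fun v hv f => ?_)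
          fun f => by_contra fun g => d (hD e a (Or.inr ⟨f, g⟩))
        · linarith
        by_contra g
        have g1 := star_pos (mem_vs.2 ⟨e, he, hv⟩)
        have g2 : (star Q v).card ≠ 1 := fun g2 => by
          have := (mem_lvs.1 (y4 ▸ mem_lvs.2 ⟨hv, g2⟩)).2
          omega
        exact d (hD e a (Or.inl ⟨v, hv, by omega, f⟩))
    · have y2 : ∑ v ∈ lvs Q e, p v = Lam P Q e := sum_congr rfl fun v hv => by
        obtain ⟨b, d⟩ := mem_lvs.1 hv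
        refine hO v (mem_vs.2 ⟨e, he, b⟩) fun f => a ?_
        obtain ⟨g, g1, g2⟩ := mem_vs.1 f
        exact deg_one d (hAQ g1) he g2 b ▸ g1
      linarith
  · rw [if_neg a]
    split_ifs
    exacts [hn.d0, le_rfl]
  · by_cases a : (star Q v).card = 1
    · simp [a]
    have y1 : ∑ e ∈ star Q v, (if (star Q v).card = 1 then p v - P Q v else
        if v ∈ D ∧ e ∈ A then n.d else 0) = if v ∈ D then n.d * (star A v).card else 0 := by
      by_cases b : v ∈ D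
      · simp only [a, b, if_false, if_true, true_and]
        rw [← sum_filter, sum_const, nsmul_eq_mul, mul_comm]
        congr 3
        ext e
        simp only [mem_filter, mem_star]
        exact ⟨fun d => ⟨d.2, d.1.2⟩, fun d => ⟨⟨hAQ d.1, d.2⟩, d.1⟩⟩
      · simp [a, b]
    rw [y1]
    by_cases b : v ∈ vs A
    · by_cases d : v ∈ C
      · exact hP v d b a
      · obtain ⟨x1, x2, x3⟩ := hN v b d
        have := star_pos hv
        rw [if_neg fun f => d (hD' v f).1, x3, add_zero]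
        exact H.mono R Q v hR hQ (by rw [← x1]; omega) x1 fun e he => sub e (x2 he)
    · simp [star_nil b, hO v hv b]

end St

end Pool.Agent.P.MP_b2082d_co.Gen
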