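import Pool.Agent.P.MP_b2082d_co.G.Merge

/-! Removing the pairs of edges with three common points. -/

namespace Pool.Agent.P.MP_b2082d_co.Gen
open Finset

/-- at most four 4-sets through `v`. -/
structure IsStar (v : ℕ) (S : Hg) : Prop where
  unif : ∀ e ∈ S, e.card = 4 ∧ v ∈ e
  card : S.card ≤ 4

/-- a leaf pays according to the number of leaves in its edge, any other vertex according to
its star. -/
noncomputable def price (p : ℕ → Hg → ℝ) (lp : ℕ → ℝ) (R : Hg) (v : ℕ) : ℝ :=
  if (star R v).card = 1 then lp (lvs R (vs (star R v))).card else p v (star R v)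

/-- no three edges `AB`, `BC`, `CA` on three pairs. -/
def NoH6 (R : Hg) : Prop := ∀ e ∈ R, ∀ f ∈ R, (e ∩ f).card = 2 → e \ f ∪ f \ e ∉ R

/-- two edges share at most two points. -/
def Co2 (R : Hg) : Prop := ∀ e ∈ R, ∀ f ∈ R, e ≠ f → (e ∩ f).card ≤ 2

structure Par05 (p : ℕ → Hg → ℝ) (lp : ℕ → ℝ) (θ σ π γ : ℝ) : Prop where
  th0 : 0 ≤ θ
  s0 : 0 ≤ σ
  pi0 : 0 ≤ π
  gth : θ ≤ γ
  lpth : ∀ j, θ ≤ lp j
  low : ∀ v S, IsStar v S → S.card = 2 → γ ≤ p v S
  drop : ∀ v S, IsStar v S → 3 ≤ S.card → ∀ e ∈ S, p v (S.erase e) + θ ≤ p v S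
  merge : ∀ v S t z, IsStar v S → v ∈ t → t.card = 3 → 2 ≤ (S.filter fun e => t ⊆ e).card →
    z ∉ vs S → (S.filter fun e => ¬ t ⊆ e).Nonempty →
    p v (insert (insert z t) (S.filter fun e => ¬ t ⊆ e)) + σ ≤ p v S
  leaf : ∀ v S t, IsStar v S → v ∈ t → t.card = 3 → 2 ≤ S.card → (∀ e ∈ S, t ⊆ e) → π ≤ p v S
  dummy : ∀ j : ℕ, j ≤ 3 → (j + 1) * lp (j + 1) ≤ j * π + (3 - j) * σ + θ
  pool : ∀ j n : ℕ, 1 ≤ n → j + n ≤ 3 → (j + n) * lp (j + n) ≤ j * lp j + n * (γ - θ)
  iso : ∀ j n : ℕ, 1 ≤ n → j + n = 4 → 1 - θ ≤ j * lp j + n * (γ - θ)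

theorem Cls.isStar {R : Hg} (h : Cls R) (v : ℕ) : IsStar v (star R v) :=
  ⟨fun e he => ⟨h.unif e (mem_star.1 he).1, (mem_star.1 he).2⟩, h.deg v⟩

theorem price_leaf {p : ℕ → Hg → ℝ} {lp : ℕ → ℝ} {R : Hg} {v : ℕ} {e : Finset ℕ} (he : e ∈ R)
    (hv : v ∈ lvs R e) : price p lp R v = lp (lvs R e).card := by
  rw [price, if_pos (mem_lvs.1 hv).2, star_one (mem_lvs.1 hv).2 he (mem_lvs.1 hv).1]
  simp [vs]

theorem price_star {p : ℕ → Hg → ℝ} {lp : ℕ → ℝ} {R : Hg} {v : ℕ} (h : (star R v).card ≠ 1) :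
    price p lp R v = p v (star R v) := if_neg h

theorem sum_price_lvs {p : ℕ → Hg → ℝ} {lp : ℕ → ℝ} {R : Hg} {e : Finset ℕ} (he : e ∈ R) :
    ∑ v ∈ lvs R e, price p lp R v = (lvs R e).card * lp (lvs R e).card := by
  rw [sum_congr rfl fun v hv => price_leaf he hv, sum_const, nsmul_eq_mul]

theorem star_pos {R : Hg} {v : ℕ} (h : v ∈ vs R) : 1 ≤ (star R v).card := by
  obtain ⟨e, a, b⟩ := mem_vs.1 h
  exact card_pos.2 ⟨e, mem_star.2 ⟨a, b⟩⟩

/-- The data of one merging step. -/
structure Step (R : Hg) (t : Finset ℕ) (z : ℕ) : Prop where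
  cls : Cls R
  tc : t.card = 3
  two : 2 ≤ (R.filter fun e => t ⊆ e).card
  fresh : z ∉ vs R

/-- the edges through the triple. -/
def grp (R : Hg) (t : Finset ℕ) : Hg := R.filter fun e => t ⊆ e

/-- the other edges. -/
def oth (R : Hg) (t : Finset ℕ) : Hg := R.filter fun e => ¬ t ⊆ e

/-- the fourth points. -/
def top (R : Hg) (t : Finset ℕ) : Finset ℕ := vs (grp R t) \ t

/-- the edges through a fourth point that become isolated. -/
def isol (R : Hg) (t : Finset ℕ) : Hg := (oth R t).filter fun h =>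
  (∀ u ∈ h, (star (oth R t) u).card = 1 ∧ u ∉ t) ∧ (top R t ∩ h).Nonempty

namespace Step
variable {R : Hg} {t : Finset ℕ} {z : ℕ} (S : Step R t z)
include S

theorem tsub : t ⊆ vs (grp R t) := fun v hv => by
  obtain ⟨e, he⟩ := card_pos.1 (zero_lt_two.trans_le S.two)
  exact mem_vs.2 ⟨e, he, (mem_filter.1 he).2 hv⟩

theorem zt : z ∉ t := fun a => S.fresh (vs_mono (filter_subset _ _) (S.tsub a))

theorem edge {g : Finset ℕ} (hg : g ∈ grp R t) {a : ℕ} (ha : a ∈ g) (hat : a ∉ t) :
    g = insert a t :=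
  (eq_of_subset_of_card_le (insert_subset ha (mem_filter.1 hg).2) (by
    rw [S.cls.unif g (mem_filter.1 hg).1, card_insert_of_notMem hat, S.tc])).symm

theorem exa {g : Finset ℕ} (hg : g ∈ grp R t) : (top R t ∩ g).Nonempty := by
  obtain ⟨a, a1, a2⟩ := exists_mem_notMem_of_card_lt_card (s := t) (t := g) (by
    rw [S.cls.unif g (mem_filter.1 hg).1, S.tc]; norm_num)
  exact ⟨a, mem_inter.2 ⟨mem_sdiff.2 ⟨mem_vs.2 ⟨g, hg, a1⟩, a2⟩, a1⟩⟩

theorem star_top {a : ℕ} (ha : a ∈ top R t) :
    insert a t ∈ star R a ∧ star (oth R t) a = (star R a).erase (insert a t) := by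
  obtain ⟨a1, a2⟩ := mem_sdiff.1 ha
  obtain ⟨g, g1, g2⟩ := mem_vs.1 a1
  refine ⟨mem_star.2 ⟨S.edge g1 g2 a2 ▸ (mem_filter.1 g1).1, mem_insert_self _ _⟩, ?_⟩
  ext e
  simp only [mem_star, oth, mem_filter, mem_erase]
  refine ⟨fun h => ⟨fun b => h.1.2 (b ▸ subset_insert _ _), h.1.1, h.2⟩, fun h =>
    ⟨⟨h.2.1, fun b => h.1 (S.edge (mem_filter.2 ⟨h.2.1, b⟩) h.2.2 a2)⟩, h.2.2⟩⟩

theorem card_top {a : ℕ} (ha : a ∈ top R t) :
    (star R a).card = (star (oth R t) a).card + 1 := by
  rw [(S.star_top ha).2, card_erase_add_one (S.star_top ha).1]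

omit S in
theorem star_far {v : ℕ} (h1 : v ∉ t) (h2 : v ∉ top R t) : star (oth R t) v = star R v := by
  ext e
  simp only [mem_star, oth, mem_filter]
  exact ⟨fun h => ⟨h.1.1, h.2⟩, fun h => ⟨⟨h.1, fun b => h2 (mem_sdiff.2
    ⟨mem_vs.2 ⟨e, mem_filter.2 ⟨h.1, b⟩, h.2⟩, h1⟩)⟩, h.2⟩⟩

omit S in
theorem star_rest {v : ℕ} (h : v ∈ t ∨ v ∈ vs (oth R t \ isol R t)) :
    star (oth R t \ isol R t) v = star (oth R t) v := by
  ext e
  simp only [mem_star, mem_sdiff]
  refine ⟨fun a => ⟨a.1.1, a.2⟩, fun a => ⟨⟨a.1, fun b => ?_⟩, a.2⟩⟩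
  have c := (mem_filter.1 b).2.1 v a.2
  rcases h with h | h
  · exact c.2 h
  · obtain ⟨f, f1, f2⟩ := mem_vs.1 h
    exact (mem_sdiff.1 f1).2 (deg_one c.1 a.1 (mem_sdiff.1 f1).1 a.2 f2 ▸ b)

theorem znot : z ∉ vs (oth R t \ isol R t) := fun a =>
  S.fresh (vs_mono (sdiff_subset.trans (filter_subset _ _)) a)

theorem enot : insert z t ∉ oth R t \ isol R t := fun a =>
  S.znot (mem_vs.2 ⟨_, a, mem_insert_self _ _⟩)

omit S in
theorem star_in {v : ℕ} (h : v ∈ t) : star (insert (insert z t) (oth R t \ isol R t)) v =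
    insert (insert z t) ((star R v).filter fun e => ¬ t ⊆ e) := by
  rw [star, filter_insert, if_pos (mem_insert_of_mem h), ← star, star_rest (Or.inl h), star, oth,
    star, filter_comm]

theorem star_z : star (insert (insert z t) (oth R t \ isol R t)) z = {insert z t} := by
  rw [star, filter_insert, if_pos (mem_insert_self _ _), filter_false_of_mem fun e he a =>
    S.znot (mem_vs.2 ⟨e, he, a⟩)]
  rfl

theorem star_out {v : ℕ} (h : v ∈ vs (oth R t \ isol R t)) (h1 : v ∉ t) :
    star (insert (insert z t) (oth R t \ isol R t)) v = star (oth R t) v := by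
  rw [star, filter_insert, if_neg, ← star, star_rest (Or.inr h)]
  exact fun a => (mem_insert.1 a).elim (fun b => S.znot (b ▸ h)) h1

omit S in
theorem card_in {v : ℕ} (h : v ∈ t) : (star R v).card =
    (grp R t).card + ((star R v).filter fun e => ¬ t ⊆ e).card ∧
    (star R v).filter (fun e => t ⊆ e) = grp R t := by
  have a : (star R v).filter (fun e => t ⊆ e) = grp R t := by
    ext e
    simp only [mem_filter, mem_star, grp]
    exact ⟨fun a => ⟨a.1.1, a.2⟩, fun a => ⟨⟨a.1, a.2 h⟩, a.2⟩⟩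
  exact ⟨by rw [← a, card_filter_add_card_filter_not], a⟩

theorem card_in' {v : ℕ} (h : v ∈ t) : (star (insert (insert z t) (oth R t \ isol R t)) v).card =
    ((star R v).filter fun e => ¬ t ⊆ e).card + 1 := by
  rw [star_in h, card_insert_of_notMem fun a => S.fresh (mem_vs.2
    ⟨_, (mem_star.1 (mem_filter.1 a).1).1, mem_insert_self _ _⟩)]

theorem cls' : Cls (insert (insert z t) (oth R t \ isol R t)) := by
  refine ⟨fun e he => (mem_insert.1 he).elim (fun a => by
    rw [a, card_insert_of_notMem S.zt, S.tc]) fun a =>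
      S.cls.unif e (mem_filter.1 (mem_sdiff.1 a).1).1, fun v => ?_⟩
  by_cases a : v ∈ t
  · have h1 := S.card_in' a
    have h2 := (card_in (R := R) a).1
    have h3 := S.cls.deg v
    have h4 : 2 ≤ (grp R t).card := S.two
    simp only [star] at h1 h2
    omega
  · by_cases b : v = z
    · have := S.star_z
      rw [star] at this
      rw [b, this]
      simp
    · rw [filter_insert, if_neg (by simp [a, b])]
      exact (card_le_card (filter_subset_filter _ (sdiff_subset.trans (filter_subset _ _)))).trans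
        (S.cls.deg v)

theorem noH6 (h : NoH6 R) : NoH6 (insert (insert z t) (oth R t \ isol R t)) := by
  intro e he f hf h2 h3
  have k : ∀ g ∈ insert (insert z t) (oth R t \ isol R t), (z ∈ g → g = insert z t) ∧
      (z ∉ g → g ∈ R) := fun g hg => ⟨fun a => mem_singleton.1 (S.star_z ▸ mem_star.2 ⟨hg, a⟩),
    fun a => (mem_filter.1 (mem_sdiff.1 ((mem_insert.1 hg).resolve_left fun b =>
      a (b ▸ mem_insert_self _ _))).1).1⟩
  have c1 := S.cls'.unif e he
  have c2 := S.cls'.unif f hf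
  have ne : ∀ {x y : Finset ℕ}, (x ∩ y).card = 2 → x \ y ∪ y \ x ≠ x := fun {x y} a b => by
    obtain ⟨u, hu⟩ := card_pos.1 (a ▸ zero_lt_two : 0 < (x ∩ y).card)
    rw [mem_inter] at hu
    have : u ∈ x \ y ∪ y \ x := b.symm ▸ hu.1
    simp [hu.1, hu.2] at this
  by_cases a : z ∈ e
  · by_cases b : z ∈ f
    · rw [(k e he).1 a, ← (k f hf).1 b, inter_self] at h2
      omega
    · exact ne h2 (((k _ h3).1 (by simp [a, b])).trans ((k e he).1 a).symm)
  · by_cases b : z ∈ f
    · exact ne (inter_comm e f ▸ h2)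
        ((union_comm _ _).trans (((k _ h3).1 (by simp [a, b])).trans ((k f hf).1 b).symm))
    · exact h e ((k e he).2 a) f ((k f hf).2 b) h2 ((k _ h3).2 (by simp [a, b]))

theorem card_lt : (insert (insert z t) (oth R t \ isol R t)).card < R.card := by
  have h1 := card_filter_add_card_filter_not (s := R) fun e => t ⊆ e
  have h2 := S.two
  have h3 : (oth R t \ isol R t).card ≤ (R.filter fun e => ¬ t ⊆ e).card :=
    card_le_card sdiff_subset
  rw [card_insert_of_notMem S.enot]
  omega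

variable {p : ℕ → Hg → ℝ} {lp : ℕ → ℝ} {θ σ π γ : ℝ} (P : Par05 p lp θ σ π γ)
include P

omit S in
theorem ge_low {v : ℕ} {A : Hg} (h : IsStar v A) (h2 : 2 ≤ A.card) : γ ≤ p v A := by
  induction h2' : A.card using Nat.strong_induction_on generalizing A with
  | _ n ih =>
    rcases h2.eq_or_lt with a | a
    · exact P.low v A h a.symm
    · obtain ⟨e, he⟩ := card_pos.1 (zero_lt_two.trans a)
      have c := card_erase_add_one he
      have := ih (A.erase e).card (by omega) (A := A.erase e) ⟨fun f hf =>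
        h.unif f (mem_of_mem_erase hf), card_erase_le.trans h.card⟩ (by omega) rfl
      linarith [P.drop v A h a e he, P.th0]

theorem ge_th {v : ℕ} (h : v ∈ vs R) : θ ≤ price p lp R v := by
  have := star_pos h
  unfold price
  split_ifs with a
  exacts [P.lpth _, P.gth.trans (ge_low P (S.cls.isStar v) (by omega))]

/-- an edge that is not through the triple: old leaves and new leaves. -/
theorem split {h : Finset ℕ} (hh : h ∈ oth R t) :
    ∃ N : Finset ℕ, N = (top R t ∩ h).filter (fun u => (star (oth R t) u).card = 1) ∧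
      Disjoint (lvs R h) N ∧ (∀ v ∈ lvs R h, v ∉ t ∧ v ∉ top R t) ∧
      (∀ v ∈ N, γ ≤ price p lp R v) ∧
      (h.filter fun u => (star (oth R t) u).card = 1 ∧ u ∉ t) = lvs R h ∪ N := by
  have a : ∀ v ∈ lvs R h, v ∉ t ∧ v ∉ top R t := fun v hv => by
    obtain ⟨v1, v2⟩ := mem_lvs.1 hv
    refine ⟨fun b => ?_, fun b => ?_⟩
    · have h2 := (card_in (R := R) b).1
      have h4 : 2 ≤ (grp R t).card := S.two
      omega
    · have h1 := S.card_top b
      have h2 := star_pos (mem_vs.2 ⟨h, hh, v1⟩)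
      omega
  refine ⟨_, rfl, disjoint_left.2 fun v b c => (a v b).2 (mem_inter.1 (mem_filter.1 c).1).1, a,
    fun v hv => ?_, ?_⟩
  · obtain ⟨v1, v2⟩ := mem_filter.1 hv
    have h1 := S.card_top (mem_inter.1 v1).1
    rw [price_star (by omega)]
    exact ge_low P (S.cls.isStar v) (by omega)
  · ext v
    simp only [mem_filter, mem_union, mem_inter]
    refine ⟨fun b => ?_, fun b => b.elim (fun b => ⟨(mem_lvs.1 b).1, ?_, (a v b).1⟩) fun b =>
      ⟨b.1.2, b.2, (mem_sdiff.1 b.1.1).2⟩⟩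
    · by_cases c : v ∈ top R t
      · exact Or.inr ⟨⟨c, b.1⟩, b.2.1⟩
      · exact Or.inl (mem_lvs.2 ⟨b.1, star_far b.2.2 c ▸ b.2.1⟩)
    · rw [star_far (a v b).1 (a v b).2]
      exact (mem_lvs.1 b).2

theorem stage1 (ih : Good (insert (insert z t) (oth R t \ isol R t))
    (price p lp (insert (insert z t) (oth R t \ isol R t)))) {J : Finset ℕ}
    (hJ : J = t.filter fun v => ((star R v).filter fun e => ¬ t ⊆ e).card = 0) :
    Good (insert (insert z t) (oth R t \ isol R t)) fun v =>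
      if v = z then (3 - J.card) * σ + θ else if v ∈ t then if v ∈ J then π else
        p v (insert (insert z t) ((star R v).filter fun e => ¬ t ⊆ e))
      else price p lp R v - if v ∈ top R t then θ else 0 := by
  have hj : J.card ≤ 3 := S.tc ▸ card_le_card (hJ ▸ filter_subset _ _)
  have hv : ∀ v ∈ vs (insert (insert z t) (oth R t \ isol R t)), v ≠ z → v ∉ t →
      v ∈ vs (oth R t \ isol R t) := fun v a b c => by simpa [vs_insert, b, c] using a
  have hs : vs (oth R t \ isol R t) ⊆ vs R := vs_mono (sdiff_subset.trans (filter_subset _ _))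
  have mJ : ∀ v ∈ t, v ∈ J ↔ (star (insert (insert z t) (oth R t \ isol R t)) v).card = 1 :=
    fun v a => by
      rw [S.card_in' a, hJ, mem_filter]
      exact ⟨fun b => by omega, fun b => ⟨a, by omega⟩⟩
  refine good_pools ih (fun v a b => ?_) (fun h hh => ?_) fun v a b => ?_
  · split_ifs with c1 c2 c3 c4
    · have : (J.card : ℝ) ≤ 3 := by exact_mod_cast hj
      exact add_nonneg (mul_nonneg (sub_nonneg.2 this) P.s0) P.th0
    · exact P.pi0
    · exact absurd ((mJ v c2).2 b) c3
    · exact sub_nonneg.2 (S.ge_th P (hs (hv v a c1 c2)))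
    · exact sub_nonneg.2 (P.th0.trans (S.ge_th P (hs (hv v a c1 c2))))
  · rw [sum_price_lvs hh]
    rcases mem_insert.1 hh with rfl | hh'
    · have zJ : z ∉ J := fun a => S.zt (mem_filter.1 (hJ ▸ a)).1
      have e : lvs (insert (insert z t) (oth R t \ isol R t)) (insert z t) = insert z J := by
        rw [lvs, filter_insert, if_pos (by rw [S.star_z]; rfl)]
        congr 1
        ext v
        rw [mem_filter]
        exact ⟨fun a => (mJ v a.1).2 a.2, fun a => ⟨(mem_filter.1 (hJ ▸ a)).1,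
          (mJ v (mem_filter.1 (hJ ▸ a)).1).1 a⟩⟩
      rw [e, card_insert_of_notMem zJ, sum_insert zJ, if_pos rfl, sum_congr rfl fun v a => by
        rw [if_neg (ne_of_mem_of_not_mem a zJ), if_pos (mem_filter.1 (hJ ▸ a)).1, if_pos a],
        sum_const, nsmul_eq_mul]
      have := P.dummy _ hj
      push_cast
      linarith
    · obtain ⟨N, n0, n1, n2, n3, n4⟩ := S.split P (mem_sdiff.1 hh').1
      have hm : ∀ v ∈ h, v ∈ vs (oth R t \ isol R t) := fun v a => mem_vs.2 ⟨h, hh', a⟩
      have e : lvs (insert (insert z t) (oth R t \ isol R t)) h = lvs R h ∪ N := by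
        rw [← n4, lvs]
        refine filter_congr fun v a => ⟨fun b => ?_, fun b => S.star_out (hm v a) b.2 ▸ b.1⟩
        have c : v ∉ t := fun c => S.enot (deg_one b hh (mem_insert_self _ _) a
          (mem_insert_of_mem c) ▸ hh')
        exact ⟨S.star_out (hm v a) c ▸ b, c⟩
      have nz : ∀ v ∈ h, v ≠ z := fun v a => ne_of_mem_of_not_mem (hm v a) S.znot
      have nN : ∀ v ∈ N, v ∈ top R t ∧ v ∈ h := fun v a => mem_inter.1 (mem_filter.1 (n0 ▸ a)).1
      have e1 := sum_price_lvs (p := p) (lp := lp) (mem_filter.1 (mem_sdiff.1 hh').1).1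
      have e2 := card_nsmul_le_sum N (fun v => price p lp R v - θ) (γ - θ) fun v a =>
        sub_le_sub_right (n3 v a) _
      rw [e, card_union_of_disjoint n1, sum_union n1, sum_congr rfl fun v (a : v ∈ lvs R h) => by
        rw [if_neg (nz v (mem_lvs.1 a).1), if_neg (n2 v a).1, if_neg (n2 v a).2, sub_zero],
        sum_congr rfl fun v (a : v ∈ N) => by
          rw [if_neg (nz v (nN v a).2), if_neg (mem_sdiff.1 (nN v a).1).2, if_pos (nN v a).1], e1]
      rw [nsmul_eq_mul] at e2
      rcases N.eq_empty_or_nonempty with rfl | hN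
      · simp
      have c1 : (lvs R h).card + N.card ≤ 3 := by
        rw [← card_union_of_disjoint n1, ← n4]
        refine Nat.le_of_lt_succ ((card_lt_card (filter_ssubset.2 ?_)).trans_eq
          (S.cls.unif h (mem_filter.1 (mem_sdiff.1 hh').1).1))
        by_contra a
        refine (mem_sdiff.1 hh').2 (mem_filter.2 ⟨(mem_sdiff.1 hh').1, fun u hu => ?_,
          hN.mono fun v b => mem_inter.2 (nN v b)⟩)
        by_contra b
        exact a ⟨u, hu, b⟩
      have := P.pool _ _ (card_pos.2 hN) c1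
      push_cast
      linarith
  · have c1 : v ≠ z := fun c => b (by rw [c, S.star_z]; rfl)
    rw [price_star b, if_neg c1]
    by_cases c2 : v ∈ t
    · rw [if_pos c2, if_neg fun c => b ((mJ v c2).1 c), star_in c2]
    · have d := hv v a c1 c2
      rw [S.star_out d c2] at b ⊢
      rw [if_neg c2]
      have d1 := star_pos (vs_mono sdiff_subset d)
      split_ifs with c3
      · have d2 := S.card_top c3
        rw [price_star (by omega), (S.star_top c3).2, le_sub_iff_add_le]
        exact P.drop v _ (S.cls.isStar v) (by omega) _ (S.star_top c3).1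
      · rw [star_far c2 c3] at b ⊢
        rw [price_star b, sub_zero]

theorem stage2 (ih : Good (insert (insert z t) (oth R t \ isol R t))
    (price p lp (insert (insert z t) (oth R t \ isol R t)))) :
    Good (oth R t \ isol R t ∪ grp R t) fun v =>
      if v ∈ top R t ∧ v ∉ vs (oth R t \ isol R t) then θ else price p lp R v := by
  obtain ⟨J, hJ⟩ : ∃ J, J = t.filter fun v => ((star R v).filter fun e => ¬ t ⊆ e).card = 0 :=
    ⟨_, rfl⟩
  have nt : ∀ v ∈ t, v ≠ z ∧ v ∉ top R t := fun v a =>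
    ⟨ne_of_mem_of_not_mem a S.zt, fun b => (mem_sdiff.1 b).2 a⟩
  have k : ∀ v ∈ t, (if v ∈ J then π else p v (insert (insert z t) ((star R v).filter fun e =>
      ¬ t ⊆ e))) + (if v ∈ J then 0 else σ) ≤ price p lp R v := fun v a => by
    obtain ⟨h1, h2⟩ := card_in (R := R) a
    have h4 : 2 ≤ (grp R t).card := S.two
    rw [price_star (by omega)]
    split_ifs with b
    · rw [add_zero]
      refine P.leaf v _ t (S.cls.isStar v) a S.tc (by omega) fun e he => ?_
      by_contra c
      rw [hJ, mem_filter] at b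
      exact notMem_empty e (card_eq_zero.1 b.2 ▸ mem_filter.2 ⟨he, c⟩)
    · exact P.merge v _ t z (S.cls.isStar v) a S.tc (h2 ▸ h4)
        (fun c => S.fresh (vs_mono (filter_subset _ _) c))
        (card_pos.1 (Nat.pos_of_ne_zero fun c => b (hJ ▸ mem_filter.2 ⟨a, c⟩)))
  refine good_merge (θ := θ) (S.stage1 P ih hJ) S.znot S.zt (card_pos.1 (by rw [S.tc]; norm_num))
    (fun g hg => ⟨(mem_filter.1 hg).2, S.exa hg⟩) (union_sdiff_of_subset S.tsub).symm
    disjoint_sdiff P.th0 ?_ (fun v a => ?_) (fun v a => ?_) fun v a b c => ?_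
  · have hs : J ⊆ t := hJ ▸ filter_subset _ _
    have e : ∑ v ∈ t, (if v ∈ J then 0 else σ) = (3 - J.card) * σ := by
      rw [← sum_sdiff hs, sum_congr rfl fun v (a : v ∈ t \ J) => if_neg (mem_sdiff.1 a).2,
        sum_congr rfl fun v (a : v ∈ J) => if_pos a, sum_const, sum_const_zero, nsmul_eq_mul,
        card_sdiff_of_subset hs, Nat.cast_sub (card_le_card hs), S.tc]
      simp
    rw [if_pos rfl, ← e]
    refine add_le_add (sum_le_sum fun v a => ?_) le_rfl
    rw [if_neg (nt v a).1, if_pos a, if_neg fun b => (nt v a).2 (And.left b)]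
    linarith [k v a]
  · rw [if_neg (nt v a).1, if_pos a, if_neg fun b => (nt v a).2 (And.left b)]
    refine le_trans (le_add_of_nonneg_right ?_) (k v a)
    split_ifs
    exacts [le_rfl, P.s0]
  · by_cases b : v ∈ vs (oth R t \ isol R t)
    · simp [b, a, (mem_sdiff.1 a).2, ne_of_mem_of_not_mem b S.znot]
    · simp [a, b]
  · simp [b, c, ne_of_mem_of_not_mem a S.znot]

theorem good (ih : Good (insert (insert z t) (oth R t \ isol R t))
    (price p lp (insert (insert z t) (oth R t \ isol R t)))) : Good R (price p lp R) := by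
  have key : ∀ A : Hg, A ⊆ isol R t → Good (A ∪ (oth R t \ isol R t ∪ grp R t)) fun v =>
      if v ∉ vs A ∧ v ∈ top R t ∧ v ∉ vs (oth R t \ isol R t) then θ else price p lp R v := by
    intro A
    induction A using Finset.induction_on with
    | empty => exact fun _ => by simpa [vs] using S.stage2 P ih
    | insert h A hA ihA =>
      intro hs
      have h1 := hs (mem_insert_self _ _)
      obtain ⟨h2, h3, a, h4⟩ := mem_filter.1 h1
      have hR : h ∈ R := (mem_filter.1 h2).1
      have b1 : ∀ v ∈ h, v ∉ vs A ∧ v ∉ vs (oth R t \ isol R t) := fun v hv =>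
        ⟨fun b => by
          obtain ⟨f, f1, f2⟩ := mem_vs.1 b
          exact hA (deg_one (h3 v hv).1 h2 (mem_filter.1 (hs (mem_insert_of_mem f1))).1 hv f2 ▸ f1),
        fun b => by
          obtain ⟨f, f1, f2⟩ := mem_vs.1 b
          exact (mem_sdiff.1 f1).2 (deg_one (h3 v hv).1 h2 (mem_sdiff.1 f1).1 hv f2 ▸ h1)⟩
      have b2 : ∀ v ∈ h, v ∈ vs (A ∪ (oth R t \ isol R t ∪ grp R t)) ↔ v ∈ top R t :=
        fun v hv => by simp [vs_union, top, (b1 v hv).1, (b1 v hv).2, (h3 v hv).2]
      have b3 : ∀ v ∈ h, (if v ∈ vs (A ∪ (oth R t \ isol R t ∪ grp R t)) then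
          if v ∉ vs A ∧ v ∈ top R t ∧ v ∉ vs (oth R t \ isol R t) then θ else price p lp R v
          else 0) = if v ∈ top R t then θ else 0 := fun v hv => by
        by_cases c : v ∈ top R t <;> simp [b2 v hv, c, b1 v hv]
      have b4 : ∀ v ∈ h, ¬ (v ∉ vs (insert h A) ∧ v ∈ top R t ∧ v ∉ vs (oth R t \ isol R t)) :=
        fun v hv c => c.1 (mem_vs.2 ⟨h, mem_insert_self _ _, hv⟩)
      rw [mem_inter] at h4
      rw [insert_union]
      refine good_addback (ihA ((subset_insert _ _).trans hs)) h4.2 ((b2 a h4.2).2 h4.1)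
        (fun v hv => ?_) ?_ fun v _ c => by simp [vs_insert, c]
      · have := S.ge_th P (mem_vs.2 ⟨h, hR, hv⟩)
        rw [b3 v hv, if_neg (b4 v hv)]
        split_ifs
        exacts [this, P.th0.trans this]
      · obtain ⟨N, n0, n1, n2, n3, n4⟩ := S.split P h2
        rw [filter_true_of_mem h3] at n4
        have nN : ∀ v ∈ N, v ∈ top R t := fun v a => (mem_inter.1 (mem_filter.1 (n0 ▸ a)).1).1
        have e2 := card_nsmul_le_sum N (fun v => price p lp R v - θ) (γ - θ) fun v a =>
          sub_le_sub_right (n3 v a) _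
        have c := S.cls.unif h hR
        have := P.iso (lvs R h).card N.card (card_pos.2 ⟨a, n0 ▸ mem_filter.2
          ⟨mem_inter.2 h4, (h3 a h4.2).1⟩⟩) (by rw [← card_union_of_disjoint n1, ← n4, c])
        rw [if_pos ⟨(b1 a h4.2).1, h4.1, (b1 a h4.2).2⟩,
          sum_congr rfl fun v hv => by rw [b3 v hv, if_neg (b4 v hv)]]
        conv_rhs => rw [n4]
        rw [sum_union n1, sum_congr rfl fun v (a : v ∈ lvs R h) => by
          rw [if_neg (n2 v a).2, sub_zero], sum_congr rfl fun v (a : v ∈ N) => by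
          rw [if_pos (nN v a)], sum_price_lvs hR]
        rw [nsmul_eq_mul] at e2
        linarith
  have e : isol R t ∪ (oth R t \ isol R t ∪ grp R t) = R := by
    rw [← union_assoc, union_sdiff_of_subset (show isol R t ⊆ oth R t from filter_subset _ _),
      union_comm]
    exact filter_union_filter_not_eq _ _
  have := key _ Subset.rfl
  rw [e] at this
  refine this.mono fun v hv => ?_
  split_ifs
  exacts [S.ge_th P hv, le_rfl]

end Step

/-- From codegree two to arbitrary codegree. -/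
theorem t05 {p : ℕ → Hg → ℝ} {lp : ℕ → ℝ} {θ σ π γ : ℝ} (P : Par05 p lp θ σ π γ)
    (h0 : ∀ R, Cls R → NoH6 R → Co2 R → Good R (price p lp R)) (R : Hg) (h1 : Cls R)
    (h2 : NoH6 R) : Good R (price p lp R) := by
  induction hn : R.card using Nat.strong_induction_on generalizing R with
  | _ n ih =>
    by_cases a : Co2 R
    · exact h0 R h1 h2 a
    simp only [Co2, not_forall, not_le] at a
    obtain ⟨e, he, f, hf, hne, h3⟩ := a
    obtain ⟨t, t1, t2⟩ := exists_subset_card_eq (Nat.succ_le_of_lt h3)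
    obtain ⟨z, hz⟩ := Infinite.exists_notMem_finset (vs R)
    have S : Step R t z := ⟨h1, t2, one_lt_card.2 ⟨e, mem_filter.2 ⟨he, t1.trans inter_subset_left⟩,
      f, mem_filter.2 ⟨hf, t1.trans inter_subset_right⟩, hne⟩, hz⟩
    exact S.good P (ih _ (hn ▸ S.card_lt) _ S.cls' (S.noH6 h2) rfl)

end Pool.Agent.P.MP_b2082d_co.Gen
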