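import Pool.Agent.P.MP_b2082d_co.G.CtxDefs

/-! The pieces of the step of the first induction.  Integers are in units of `1 / 10 ^ 7`, the
numbers of `Num` and the discounts are in millionths. -/

namespace Pool.Agent.P.MP_b2082d_co.Gen
open Finset

abbrev dg (R : Hg) (v : ℕ) : ℕ := (star R v).card

/-- the number of edges through two vertices. -/
def co (R : Hg) (a b : ℕ) : ℕ := (star (star R a) b).card

/-- the vertices of degree three or more outside `e`. -/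
def mv (R : Hg) (e : Finset ℕ) : Finset ℕ := (vs R).filter fun x => x ∉ e ∧ 3 ≤ dg R x

/-- those that lie in all other edges of `a`. -/
def kil (R : Hg) (e : Finset ℕ) (a : ℕ) : Finset ℕ :=
  (mv R e).filter fun x => ∀ f ∈ star R a, f ≠ e → x ∈ f

def hv (R : Hg) (e : Finset ℕ) : ℕ := (e.filter fun x => 3 ≤ dg R x).card

noncomputable def ps (N : Num) (R : Hg) (e : Finset ℕ) (v : ℕ) : ℤ :=
  if dg R v = 1 then psi N R e else 0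

/-- the change of the discount of `v` as a leaf of `e`, over all moves that keep `e`. -/
noncomputable def iota (N : Num) (R : Hg) (e : Finset ℕ) (v : ℕ) : ℤ :=
  3 * ∑ x ∈ mv R e, (ps N (res R {x}) e v - ps N R e v)

noncomputable def gp (N : Num) (R : Hg) (v : ℕ) : ℕ :=
  gS N v (star R v) (∃ e ∈ star R v, 2 ≤ (lvs R e).card)

/-- the price of `v` after the move `x`, without the discount. -/
noncomputable def post (N : Num) (R : Hg) (v x : ℕ) : ℕ :=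
  if dg (res R {x}) v = 0 then 0 else if dg (res R {x}) v = 1 then 250000
  else gp N (res R {x}) v

/-- the budget of a vertex of degree two or more, without discounts and far moves. -/
noncomputable def G0 (N : Num) (R : Hg) (v : ℕ) : ℤ :=
  10 * (gp N R v : ℤ) - (if 3 ≤ dg R v then 3 * (1000000 - (gp N R v : ℤ)) else 0) +
    3 * ∑ x ∈ ((vs (star R v)).erase v).filter fun x => 3 ≤ dg R x,
      ((gp N R v : ℤ) - post N R v x)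

/-- the budget of a leaf of `e`, without `iota`. -/
noncomputable def lsh (N : Num) (R : Hg) (e : Finset ℕ) : ℤ :=
  (250000 - (psi N R e : ℤ)) * (10 + 3 * (hv R e : ℤ))

/-- the tables of the shares and of the demands. -/
structure Tb where
  b0 : ℕ → ℕ → ℕ → ℤ
  bk : ℕ → ℕ → ℕ → ℕ → ℤ
  z : ℕ → ℕ → ℕ → ℕ → ℕ → ℕ → ℤ
  Q : ℕ → ℤ
  (a5 c5 a7 c7 a9 : ℤ)

structure Tb.Ok (T : Tb) : Prop where
  c5 : 0 ≤ T.c5
  c7 : 0 ≤ T.c7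
  s5 : 30000000 ≤ 5 * T.a5 + 18 * T.c5
  s7 : 40000000 ≤ 7 * T.a7 + 12 * T.c7
  s9 : 50000000 ≤ 9 * T.a9

def sig0 (R : Hg) (e : Finset ℕ) (a : ℕ) : ℕ := ∑ b ∈ e.erase a, co R a b

/-- the share that the vertex `a` gives to the edge `e` of `S`. -/
noncomputable def sh (N : Num) (T : Tb) (R S : Hg) (e : Finset ℕ) (a : ℕ) : ℤ :=
  if dg R a = 1 then lsh N R e else
    T.b0 (dg R a) (dg S a) (sig0 R e a) +
      ∑ x ∈ kil R e a, T.bk (dg R a) (dg S a) (sig0 R e a) (dg R x) +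
      ∑ b ∈ e.erase a, T.z (dg R a) (dg S a) (sig0 R e a) (co R a b) (co S a b) (dg R b)

/-- what the edge `e` of `S` gets. -/
noncomputable def ES (N : Num) (T : Tb) (R S : Hg) (e : Finset ℕ) : ℤ :=
  ∑ v ∈ e, (sh N T R S e v + iota N R e v)

/-- the number of other edges of `S` that meet `e`. -/
def adj (S : Hg) (e : Finset ℕ) : ℕ := ((S.erase e).filter fun f => ¬ Disjoint e f).card

def os (R S : Hg) (e : Finset ℕ) : ℕ := ∑ a ∈ e, if dg S a < dg R a then 6 / dg S a else 0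

def qc (R S : Hg) (e : Finset ℕ) : ℕ :=
  ∑ a ∈ e, 5 ^ (2 * dg S a + if dg S a < dg R a then 1 else 0)

def cutn (R S : Hg) : ℕ := (vs S ∩ vs (R \ S)).card

/-- the demands on `E` for an edge with `t` neighbours in `S`. -/
def Dem (T : Tb) (t o c : ℕ) (E : ℤ) : Prop := T.a9 ≤ E ∧ (t = 0 → 10000000 ≤ E) ∧
  (t = 2 → T.Q c ≤ E) ∧ (t ≤ 4 → T.a5 + T.c5 * o ≤ E) ∧ (t ≤ 6 → T.a7 + T.c7 * o ≤ E)

def S_bud (N : Num) : Prop := ∀ R, C0 R → ∀ v, 2 ≤ dg R v →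
  ((G0 N R v + ∑ e ∈ star R v, iota N R e v : ℤ) : ℝ) / 10000000 ≤ bud N R v

def S_leaf (N : Num) : Prop := ∀ R, C0 R → ∀ e ∈ R, (lvs R e).card ≤ 2 → ∀ v ∈ lvs R e,
  0 ≤ lsh N R e + iota N R e v ∧ ((lsh N R e + iota N R e v : ℤ) : ℝ) / 10000000 ≤ bud N R v

def S_vtx (N : Num) (T : Tb) : Prop := ∀ R, C0 R → ∀ v, 2 ≤ dg R v →
  ∃ q : Finset ℕ → Finset ℕ → ℤ, (∀ e f, 0 ≤ q e f) ∧ (∀ e f, q e f ≠ 0 → v ∈ e ∧ v ∈ f) ∧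
    ∑ e ∈ R, ∑ f ∈ R, q e f ≤ G0 N R v ∧ ∀ S ⊆ R, ∑ e ∈ star S v, sh N T R S e v ≤
      ∑ e ∈ R, ∑ f ∈ R, if e ∈ S ∨ f ∈ S then q e f else 0

def S_edge (N : Num) (T : Tb) : Prop := ∀ R, C0 R → ∀ S ⊆ R, ∀ e ∈ S, (lvs R e).card ≤ 2 →
  Dem T (adj S e) (os R S e) (qc R S e) (ES N T R S e)

def S_set (T : Tb) : Prop := ∀ R, C0 R → ∀ S ⊆ R, S.card = 3 →
  (∀ e ∈ S, ∀ f ∈ S, ¬ Disjoint e f) → 3 ≤ cutn R S → 20000000 ≤ ∑ e ∈ S, T.Q (qc R S e)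

def S_os : Prop := ∀ R, C0 R → ∀ S ⊆ R, ∑ e ∈ S, os R S e = 6 * cutn R S

/-! The neighbourhood of an edge, by the traces of the other edges. -/

/-- the number of edges with the trace `A` on `e`. -/
def nt (Q : Hg) (e A : Finset ℕ) : ℕ := (Q.filter fun f => f ∩ e = A).card

structure Ten where
  (s0 s1 s2 s3 r01 r02 r03 r12 r13 r23 : ℕ)

structure Lb (e : Finset ℕ) (a b c d : ℕ) : Prop where
  eq : e = {a, b, c, d}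
  ab : a ≠ b
  ac : a ≠ c
  ad : a ≠ d
  bc : b ≠ c
  bd : b ≠ d
  cd : c ≠ d

def ten (Q : Hg) (e : Finset ℕ) (a b c d : ℕ) : Ten :=
  ⟨nt Q e {a}, nt Q e {b}, nt Q e {c}, nt Q e {d}, nt Q e {a, b}, nt Q e {a, c}, nt Q e {a, d},
    nt Q e {b, c}, nt Q e {b, d}, nt Q e {c, d}⟩

namespace Ten
variable (N : Num) (T : Tb) (n m w : Ten)

def d0 : ℕ := n.s0 + n.r01 + n.r02 + n.r03 + 1
def d1 : ℕ := n.s1 + n.r01 + n.r12 + n.r13 + 1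
def d2 : ℕ := n.s2 + n.r02 + n.r12 + n.r23 + 1
def d3 : ℕ := n.s3 + n.r03 + n.r13 + n.r23 + 1
def tot : ℕ := n.s0 + n.s1 + n.s2 + n.s3 + n.r01 + n.r02 + n.r03 + n.r12 + n.r13 + n.r23

def lv : ℕ := (if n.d0 = 1 then 1 else 0) + (if n.d1 = 1 then 1 else 0) +
  (if n.d2 = 1 then 1 else 0) + (if n.d3 = 1 then 1 else 0)

def hv : ℕ := (if 3 ≤ n.d0 then 1 else 0) + (if 3 ≤ n.d1 then 1 else 0) +
  (if 3 ≤ n.d2 then 1 else 0) + (if 3 ≤ n.d3 then 1 else 0)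

def Tw : Prop := (n.d0 ≤ 2 ∧ n.d1 ≤ 2 ∧ n.d2 ≤ 2 ∧ n.d3 ≤ 2) ∧
  (n.r01 = 1 ∨ n.r02 = 1 ∨ n.r03 = 1 ∨ n.r12 = 1 ∨ n.r13 = 1 ∨ n.r23 = 1)

instance : Decidable n.Tw := by unfold Tw; infer_instance

def psi : ℕ := if n.lv = 1 then (if n.Tw then N.pT else N.p3) else if n.lv = 2 then N.p2
  else if n.lv = 3 then N.p1 else 0

def Phi : ℤ := (n.lv * n.psi N : ℕ)

def Sub : Prop := m.s0 ≤ n.s0 ∧ m.s1 ≤ n.s1 ∧ m.s2 ≤ n.s2 ∧ m.s3 ≤ n.s3 ∧ m.r01 ≤ n.r01 ∧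
  m.r02 ≤ n.r02 ∧ m.r03 ≤ n.r03 ∧ m.r12 ≤ n.r12 ∧ m.r13 ≤ n.r13 ∧ m.r23 ≤ n.r23

def Near : Prop := n.r01 ≤ m.r01 + 1 ∧ n.r02 ≤ m.r02 + 1 ∧ n.r03 ≤ m.r03 + 1 ∧
  n.r12 ≤ m.r12 + 1 ∧ n.r13 ≤ m.r13 + 1 ∧ n.r23 ≤ m.r23 + 1

def dot : ℕ := w.s0 * n.s0 + w.s1 * n.s1 + w.s2 * n.s2 + w.s3 * n.s3 + w.r01 * n.r01 +
  w.r02 * n.r02 + w.r03 * n.r03 + w.r12 * n.r12 + w.r13 * n.r13 + w.r23 * n.r23

def pen : ℕ := 3 * (w.s0 * n.s0 + w.s1 * n.s1 + w.s2 * n.s2 + w.s3 * n.s3) + 2 * (w.r01 * n.r01 +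
  w.r02 * n.r02 + w.r03 * n.r03 + w.r12 * n.r12 + w.r13 * n.r13 + w.r23 * n.r23)

/-- `p k i` is the income of the `i`th vertex from a move of degree `k` that makes it a leaf. -/
def DelOk (p : ℕ → ℕ → ℤ) : Prop := ∀ m : Ten, ∀ k, k = 3 ∨ k = 4 → n.Sub m → n.Near m →
  n.tot ≤ m.tot + k →
  (if 2 ≤ n.d0 ∧ m.d0 = 1 then p k 0 else 0) + (if 2 ≤ n.d1 ∧ m.d1 = 1 then p k 1 else 0) +
    (if 2 ≤ n.d2 ∧ m.d2 = 1 then p k 2 else 0) + (if 2 ≤ n.d3 ∧ m.d3 = 1 then p k 3 else 0) ≤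
    m.Phi N - n.Phi N + n.dot w - m.dot w

/-- a lower bound of a share with its income. -/
def vv (lf p3 p4 : ℤ) (d j r1 a1 k1 r2 a2 k2 r3 a3 k3 : ℕ) : ℤ :=
  if d = 1 then lf else T.b0 d j (r1 + r2 + r3 + 3) +
    (if d = 2 then 3 - (r1 + r2 + r3) else 1 : ℕ) * min 0
      (min (T.bk d j (r1 + r2 + r3 + 3) 3 + 3 * p3) (T.bk d j (r1 + r2 + r3 + 3) 4 + 3 * p4)) +
    T.z d j (r1 + r2 + r3 + 3) (r1 + 1) (a1 + 1) k1 +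
    T.z d j (r1 + r2 + r3 + 3) (r2 + 1) (a2 + 1) k2 +
    T.z d j (r1 + r2 + r3 + 3) (r3 + 1) (a3 + 1) k3

def lf : ℤ := (250000 - (n.psi N : ℤ)) * (10 + 3 * (n.hv : ℤ))

def E (p : ℕ → ℕ → ℤ) : ℤ :=
  vv T (n.lf N) (p 3 0) (p 4 0) n.d0 m.d0 n.r01 m.r01 n.d1 n.r02 m.r02 n.d2 n.r03 m.r03 n.d3 +
  vv T (n.lf N) (p 3 1) (p 4 1) n.d1 m.d1 n.r01 m.r01 n.d0 n.r12 m.r12 n.d2 n.r13 m.r13 n.d3 +
  vv T (n.lf N) (p 3 2) (p 4 2) n.d2 m.d2 n.r02 m.r02 n.d0 n.r12 m.r12 n.d1 n.r23 m.r23 n.d3 +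
  vv T (n.lf N) (p 3 3) (p 4 3) n.d3 m.d3 n.r03 m.r03 n.d0 n.r13 m.r13 n.d1 n.r23 m.r23 n.d2 -
  3 * (n.pen w : ℤ)

def os : ℕ := (if m.d0 < n.d0 then 6 / m.d0 else 0) + (if m.d1 < n.d1 then 6 / m.d1 else 0) +
  (if m.d2 < n.d2 then 6 / m.d2 else 0) + (if m.d3 < n.d3 then 6 / m.d3 else 0)

def qc : ℕ := 5 ^ (2 * m.d0 + if m.d0 < n.d0 then 1 else 0) +
  5 ^ (2 * m.d1 + if m.d1 < n.d1 then 1 else 0) + 5 ^ (2 * m.d2 + if m.d2 < n.d2 then 1 else 0) +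
  5 ^ (2 * m.d3 + if m.d3 < n.d3 then 1 else 0)

def RowOk (p : ℕ → ℕ → ℤ) : Prop :=
  ∀ m : Ten, n.Sub m → Dem T m.tot (n.os m) (n.qc m) (n.E N T m w p)

end Ten

/-- the arithmetic of the edge rows. -/
def S_ten (N : Num) (T : Tb) : Prop := ∀ n : Ten, n.d0 ≤ n.d1 → n.d1 ≤ n.d2 → n.d2 ≤ n.d3 →
  n.d3 ≤ 4 → 2 ≤ n.d2 → ∃ w p, n.DelOk N w p ∧ n.RowOk N T w p

def S_loc (N : Num) : Prop := ∀ Q, C0 Q → ∀ e ∈ Q, ∀ a b c d, Lb e a b c d →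
  ∀ n, n = ten Q e a b c d → (dg Q a = n.d0 ∧ dg Q b = n.d1 ∧ dg Q c = n.d2 ∧ dg Q d = n.d3) ∧
    (co Q a b = n.r01 + 1 ∧ co Q a c = n.r02 + 1 ∧ co Q a d = n.r03 + 1 ∧ co Q b c = n.r12 + 1 ∧
      co Q b d = n.r13 + 1 ∧ co Q c d = n.r23 + 1) ∧
    (lvs Q e).card = n.lv ∧ hv Q e = n.hv ∧ psi N Q e = n.psi N ∧ adj Q e = n.tot

/-- the income of `a` from the moves that make it a leaf. -/
def kp (R : Hg) (e : Finset ℕ) (p : ℕ → ℕ → ℤ) (i a : ℕ) : ℤ :=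
  if 2 ≤ dg R a then ∑ x ∈ kil R e a, p (dg R x) i else 0

def S_W (N : Num) : Prop := ∀ R, C0 R → ∀ e ∈ R, ∀ a b c d, Lb e a b c d → ∀ w p,
  (ten R e a b c d).DelOk N w p → 3 * (kp R e p 0 a + kp R e p 1 b + kp R e p 2 c + kp R e p 3 d -
    ((ten R e a b c d).pen w : ℤ)) ≤ ∑ v ∈ e, iota N R e v

def S_kil : Prop := ∀ R, C0 R → ∀ e ∈ R, ∀ a ∈ e, 2 ≤ dg R a →
  (kil R e a).card ≤ if dg R a = 2 then 6 - sig0 R e a else 1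

end Pool.Agent.P.MP_b2082d_co.Gen
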