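import Pool.Agent.P.MP_b2082d_co.G.T0Spec

/-! A checker for the arithmetic of the edge rows. -/

namespace Pool.Agent.P.MP_b2082d_co.Gen
namespace Tn

noncomputable def frc (n : ℕ) (f : ℕ → Bool) : Bool :=
  Nat.rec (motive := fun _ => Bool) (f 0) (fun k _ => f (Nat.succ k)) n

theorem frc_eq (n : ℕ) (f : ℕ → Bool) : frc n f = f n := by cases n <;> rfl

noncomputable def an (a b : Bool) : Bool := Bool.rec (motive := fun _ => Bool) false b a

theorem an_iff {a b : Bool} : an a b = true ↔ a = true ∧ b = true := by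
  cases a <;> simp [an]

noncomputable def cd {α : Type} (c : Bool) (a b : α) : α := Bool.rec (motive := fun _ => α) b a c

theorem cd_eq {α : Type} (c : Bool) (a b : α) : cd c a b = if c = true then a else b := by
  cases c <;> rfl

noncomputable def upto (k : ℕ) (f : ℕ → Bool) : Bool :=
  Nat.rec (motive := fun _ => Bool) (f 0) (fun i b => an (f (Nat.succ i)) b) k

theorem upto_ok {k a : ℕ} {f : ℕ → Bool} (h : upto k f = true) (ha : a ≤ k) : f a = true := by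
  induction k with
  | zero => obtain rfl : a = 0 := by omega
            exact h
  | succ k ih =>
    have h' : an (f (k + 1)) (upto k f) = true := h
    rw [an_iff] at h'
    by_cases e : a = k + 1
    · rw [e]; exact h'.1
    · exact ih h'.2 (by omega)

noncomputable def near (r : ℕ) (f : ℕ → Bool) : Bool :=
  Nat.rec (motive := fun _ => Bool) (f 0) (fun k _ => an (f (Nat.succ k)) (f k)) r

theorem near_ok {r a : ℕ} {f : ℕ → Bool} (h : near r f = true) (h1 : a ≤ r) (h2 : r ≤ a + 1) :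
    f a = true := by
  cases r with
  | zero => obtain rfl : a = 0 := by omega
            exact h
  | succ k =>
    have h' : an (f (k + 1)) (f k) = true := h
    rw [an_iff] at h'
    by_cases e : a = k + 1
    · rw [e]; exact h'.1
    · obtain rfl : a = k := by omega
      exact h'.2

noncomputable def spl (k : ℕ) (f : ℕ → ℕ → Bool) : Bool := upto k fun a => frc (k.sub a) (f a)

theorem spl_ok {k a b : ℕ} {f : ℕ → ℕ → Bool} (h : spl k f = true) (e : a + b = k) :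
    f a b = true := by
  have := upto_ok h (show a ≤ k by omega)
  rw [frc_eq] at this
  rwa [show k.sub a = b by rw [Nat.sub_eq]; omega] at this

noncomputable def sb (k a : ℕ) (f : ℕ → Bool) : Bool := cd (Nat.ble a k) (frc (k.sub a) f) true

theorem sb_ok {k a b : ℕ} {f : ℕ → Bool} (h : sb k a f = true) (e : a + b = k) : f b = true := by
  rw [sb, cd_eq, if_pos (by rw [Nat.ble_eq]; omega), frc_eq] at h
  rwa [show k.sub a = b by rw [Nat.sub_eq]; omega] at h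

noncomputable def anyL (L : List ℕ) (f : ℕ → Bool) : Bool :=
  List.rec (motive := fun _ => Bool) false (fun x _ b => cd (f x) true b) L

theorem anyL_ok {L : List ℕ} {f : ℕ → Bool} (h : anyL L f = true) : ∃ x, f x = true := by
  induction L with
  | nil => cases h
  | cons x L ih =>
    have h' : cd (f x) true (anyL L f) = true := h
    by_cases e : f x = true
    · exact ⟨x, e⟩
    · rw [cd_eq, if_neg e] at h'; exact ih h'

variable (N : Num) (T : Tb)

def nb (d j s : ℕ) : ℕ := (30000000 - T.b0 d j s).toNat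
def nz (d j s r a k : ℕ) : ℕ := (30000000 - T.z d j s (r + 1) (a + 1) k).toNat
def nk (d j s k : ℕ) : ℕ := (150000 - T.bk d j s k).toNat
def mx (a b : ℕ) : ℕ := a.add (b.sub a)

noncomputable def kk (q3 q4 d j s : ℕ) : ℕ := (nb T d j s).add ((cd (Nat.beq d 2) (Nat.sub 6 s) 1).mul
  (mx ((nk T d j s 3).sub (Nat.mul 3 q3)) ((nk T d j s 4).sub (Nat.mul 3 q4))))

/-- what a share lacks to `120000000`. -/
noncomputable def yy (l q3 q4 d j s r1 a1 k1 r2 a2 k2 r3 a3 k3 : ℕ) : ℕ :=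
  cd (Nat.beq d 1) l ((((kk T q3 q4 d j s).add (nz T d j s r1 a1 k1)).add
    (nz T d j s r2 a2 k2)).add (nz T d j s r3 a3 k3))

theorem yy_le {l q3 q4 d j s r1 a1 k1 r2 a2 k2 r3 a3 k3 : ℕ} {lf : ℤ} (hs : s = r1 + r2 + r3 + 3)
    (hl : 120000000 - (l : ℤ) ≤ lf) :
    120000000 - (yy T l q3 q4 d j s r1 a1 k1 r2 a2 k2 r3 a3 k3 : ℤ) ≤
      Ten.vv T lf (q3 - 50000) (q4 - 50000) d j r1 a1 k1 r2 a2 k2 r3 a3 k3 := by
  unfold yy Ten.vv
  rw [cd_eq]
  by_cases h : d = 1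
  · rw [if_pos h, if_pos (by simp [h])]; exact hl
  rw [if_neg h, if_neg (by simpa using h), ← hs]
  have hK : cd (Nat.beq d 2) (Nat.sub 6 s) 1 = if d = 2 then 3 - (r1 + r2 + r3) else 1 := by
    rw [cd_eq]
    by_cases e : d = 2
    · rw [if_pos e, if_pos (by simp [e]), Nat.sub_eq]; omega
    · rw [if_neg e, if_neg (by simpa using e)]
  unfold kk
  rw [hK]
  generalize (if d = 2 then 3 - (r1 + r2 + r3) else 1 : ℕ) = K
  have h3 : -(mx ((nk T d j s 3).sub (Nat.mul 3 q3)) ((nk T d j s 4).sub (Nat.mul 3 q4)) : ℤ) ≤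
      min 0 (min (T.bk d j s 3 + 3 * ((q3 : ℤ) - 50000)) (T.bk d j s 4 + 3 * ((q4 : ℤ) - 50000))) := by
    simp only [mx, nk, Nat.add_eq, Nat.sub_eq, Nat.mul_eq]
    omega
  have h4 := mul_le_mul_of_nonneg_left h3 (Int.natCast_nonneg K)
  simp only [Nat.add_eq, Nat.mul_eq, nb, nz] at h4 ⊢
  push_cast
  rw [mul_neg] at h4
  omega

noncomputable def o1 (j d : ℕ) : ℕ := cd (Nat.blt j d) (Nat.div 6 j) 0
noncomputable def c1 (j d : ℕ) : ℕ := Nat.pow 5 ((Nat.mul 2 j).add (cd (Nat.blt j d) 1 0))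

theorem o1_eq (j d : ℕ) : o1 j d = if j < d then 6 / j else 0 := by
  simp only [o1, cd_eq, Nat.blt_eq]; rfl

theorem c1_eq (j d : ℕ) : c1 j d = 5 ^ (2 * j + if j < d then 1 else 0) := by
  simp only [c1, cd_eq, Nat.blt_eq]; rfl

noncomputable def dem (z o c u : ℕ) : Bool :=
  an (Nat.ble (u.add T.a9.toNat) 480000000) (cd (Nat.ble z 7)
    (an (Nat.ble (u.add (T.a7.toNat.add (T.c7.toNat.mul o))) 480000000) (cd (Nat.ble z 5)
      (an (Nat.ble (u.add (T.a5.toNat.add (T.c5.toNat.mul o))) 480000000) (cd (Nat.beq z 3)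
        (frc c fun c' => Nat.ble (u.add (T.Q c').toNat) 480000000)
        (cd (Nat.beq z 1) (Nat.ble u 470000000) true))) true)) true)

theorem dem_ok {z t o c u : ℕ} {E : ℤ} (h : dem T z o c u = true) (hz : z = t + 1)
    (hE : 480000000 - (u : ℤ) ≤ E) : Dem T t o c E := by
  have m5 := mul_le_mul_of_nonneg_right (Int.self_le_toNat T.c5) (Int.natCast_nonneg o)
  have m7 := mul_le_mul_of_nonneg_right (Int.self_le_toNat T.c7) (Int.natCast_nonneg o)
  rw [← Nat.cast_mul] at m5 m7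
  simp only [dem, an_iff, cd_eq, frc_eq, Nat.ble_eq, Nat.beq_eq, Nat.add_eq, Nat.mul_eq] at h
  obtain ⟨h9, h⟩ := h
  refine ⟨by omega, fun e => ?_, fun e => ?_, fun e => ?_, fun e => ?_⟩
  all_goals rw [if_pos (by omega), an_iff, Nat.ble_eq] at h
  · rw [if_pos (by omega), an_iff, if_neg (by omega), if_pos (by omega), Nat.ble_eq,
      Nat.ble_eq] at h
    omega
  · rw [if_pos (by omega), an_iff, if_pos (by omega), Nat.ble_eq, Nat.ble_eq] at h
    omega
  · rw [if_pos (by omega), an_iff, Nat.ble_eq] at h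
    omega
  · omega

noncomputable def rows (l c : ℕ) (q : ℕ → ℕ → ℕ)
    (d0 d1 d2 d3 g0 g1 g2 g3 s0 s1 s2 s3 r01 r02 r03 r12 r13 r23 : ℕ) : Bool :=
  upto r01 fun a01 => upto r02 fun a02 => upto r03 fun a03 => upto s0 fun t0 =>
  frc (((t0.add a01).add a02).add a03).succ fun j0 =>
  frc (c.add (yy T l (q 3 0) (q 4 0) d0 j0 g0 r01 a01 d1 r02 a02 d2 r03 a03 d3)) fun u0 =>
  upto r12 fun a12 => upto r13 fun a13 => upto s1 fun t1 =>
  frc (((t1.add a01).add a12).add a13).succ fun j1 =>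
  frc (u0.add (yy T l (q 3 1) (q 4 1) d1 j1 g1 r01 a01 d0 r12 a12 d2 r13 a13 d3)) fun u1 =>
  upto r23 fun a23 => upto s2 fun t2 =>
  frc (((t2.add a02).add a12).add a23).succ fun j2 =>
  frc (u1.add (yy T l (q 3 2) (q 4 2) d2 j2 g2 r02 a02 d0 r12 a12 d1 r23 a23 d3)) fun u2 =>
  frc (((((j0.add a12).add a13).add t1).add a23).add t2) fun z2 =>
  upto s3 fun t3 => frc (((a03.add a13).add a23).add t3).succ fun j3 =>
  frc (u2.add (yy T l (q 3 3) (q 4 3) d3 j3 g3 r03 a03 d0 r13 a13 d1 r23 a23 d2)) fun u3 =>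
  dem T (z2.add t3) ((((o1 j0 d0).add (o1 j1 d1)).add (o1 j2 d2)).add (o1 j3 d3))
    ((((c1 j0 d0).add (c1 j1 d1)).add (c1 j2 d2)).add (c1 j3 d3)) u3

theorem rows_ok {n w : Ten} {l : ℕ} {q : ℕ → ℕ → ℕ} (hl : 120000000 - (l : ℤ) ≤ n.lf N)
    (h : rows T l (3 * n.pen w) q n.d0 n.d1 n.d2 n.d3 (n.r01 + n.r02 + n.r03 + 3)
      (n.r01 + n.r12 + n.r13 + 3) (n.r02 + n.r12 + n.r23 + 3) (n.r03 + n.r13 + n.r23 + 3)
      n.s0 n.s1 n.s2 n.s3 n.r01 n.r02 n.r03 n.r12 n.r13 n.r23 = true) :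
    n.RowOk N T w fun k i => q k i - 50000 := by
  rintro m ⟨b0, b1, b2, b3, c01, c02, c03, c12, c13, c23⟩
  simp only [rows, frc_eq] at h
  replace h := upto_ok h c01
  replace h := upto_ok h c02
  replace h := upto_ok h c03
  replace h := upto_ok h b0
  replace h := upto_ok h c12
  replace h := upto_ok h c13
  replace h := upto_ok h b1
  replace h := upto_ok h c23
  replace h := upto_ok h b2
  replace h := upto_ok h b3
  have e3 : (((m.r03.add m.r13).add m.r23).add m.s3).succ = m.d3 := by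
    simp only [Nat.add_eq, Ten.d3]; omega
  rw [e3] at h
  change dem T _ (o1 m.d0 _ + o1 m.d1 _ + o1 m.d2 _ + _) (c1 m.d0 _ + c1 m.d1 _ + c1 m.d2 _ + _)
    (_ + yy T _ _ _ _ m.d0 _ _ _ _ _ _ _ _ _ _ + yy T _ _ _ _ m.d1 _ _ _ _ _ _ _ _ _ _ +
      yy T _ _ _ _ m.d2 _ _ _ _ _ _ _ _ _ _ + _) = true at h
  simp only [o1_eq, c1_eq] at h
  refine dem_ok T h (by simp only [Nat.add_eq, Ten.tot]; omega) ?_
  have y0 := yy_le T (q3 := q 3 0) (q4 := q 4 0) (d := n.d0) (j := m.d0) (r1 := n.r01)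
    (a1 := m.r01) (k1 := n.d1) (r2 := n.r02) (a2 := m.r02) (k2 := n.d2) (r3 := n.r03)
    (a3 := m.r03) (k3 := n.d3) rfl hl
  have y1 := yy_le T (q3 := q 3 1) (q4 := q 4 1) (d := n.d1) (j := m.d1) (r1 := n.r01)
    (a1 := m.r01) (k1 := n.d0) (r2 := n.r12) (a2 := m.r12) (k2 := n.d2) (r3 := n.r13)
    (a3 := m.r13) (k3 := n.d3) rfl hl
  have y2 := yy_le T (q3 := q 3 2) (q4 := q 4 2) (d := n.d2) (j := m.d2) (r1 := n.r02)
    (a1 := m.r02) (k1 := n.d0) (r2 := n.r12) (a2 := m.r12) (k2 := n.d1) (r3 := n.r23)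
    (a3 := m.r23) (k3 := n.d3) rfl hl
  have y3 := yy_le T (q3 := q 3 3) (q4 := q 4 3) (d := n.d3) (j := m.d3) (r1 := n.r03)
    (a1 := m.r03) (k1 := n.d0) (r2 := n.r13) (a2 := m.r13) (k2 := n.d1) (r3 := n.r23)
    (a3 := m.r23) (k3 := n.d2) rfl hl
  unfold Ten.E
  push_cast
  omega

noncomputable def tw (j0 j1 j2 j3 a01 a02 a03 a12 a13 a23 : ℕ) : Bool :=
  an (Nat.ble j3 2) (an (Nat.ble j2 2) (an (Nat.ble j1 2) (an (Nat.ble j0 2)
    (cd (Nat.beq a01 1) true (cd (Nat.beq a02 1) true (cd (Nat.beq a03 1) true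
      (cd (Nat.beq a12 1) true (cd (Nat.beq a13 1) true (Nat.beq a23 1)))))))))

theorem tw_iff (m : Ten) :
    tw m.d0 m.d1 m.d2 m.d3 m.r01 m.r02 m.r03 m.r12 m.r13 m.r23 = true ↔ m.Tw := by
  simp only [tw, an_iff, cd_eq, Nat.ble_eq, Nat.beq_eq, Ten.Tw]
  split_ifs <;> simp_all <;> omega

noncomputable def ph (L : ℕ) (b : Bool) : ℕ :=
  cd (Nat.beq L 1) (cd b N.pT N.p3) (cd (Nat.beq L 2) (Nat.mul 2 N.p2)
    (cd (Nat.beq L 3) (Nat.mul 3 N.p1) 0))

theorem ph_eq (m : Ten) {b : Bool} (h : b = true ↔ m.Tw) : (ph N m.lv b : ℤ) = m.Phi N := by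
  simp only [ph, cd_eq, Nat.beq_eq, Ten.Phi, Ten.psi, h, Nat.mul_eq]
  split_ifs <;> simp_all

noncomputable def l1 (j : ℕ) : ℕ := cd (Nat.beq j 1) 1 0

theorem l1_eq (j : ℕ) : l1 j = if j = 1 then 1 else 0 := by simp only [l1, cd_eq, Nat.beq_eq]

noncomputable def inc (q d j : ℕ) : ℕ := cd (Nat.beq j 1) (cd (Nat.ble 2 d) q 50000) 50000

theorem inc_eq (q d j : ℕ) :
    (if 2 ≤ d ∧ j = 1 then (q : ℤ) - 50000 else 0) = inc q d j - 50000 := by
  simp only [inc, cd_eq, Nat.beq_eq, Nat.ble_eq]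
  split_ifs <;> simp_all

noncomputable def fin (tt z x i3 i4 y : ℕ) : Bool :=
  cd (Nat.ble tt (z.add 3)) (an (Nat.ble (x.add i4) y)
    (cd (Nat.ble tt (z.add 2)) (Nat.ble (x.add i3) y) true)) true

theorem fin_ok {tt z x i3 i4 y : ℕ} (h : fin tt z x i3 i4 y = true) :
    (tt ≤ z + 2 → x + i3 ≤ y) ∧ (tt ≤ z + 3 → x + i4 ≤ y) := by
  simp only [fin, cd_eq, Nat.ble_eq, Nat.add_eq] at h
  constructor <;> intro e <;> rw [if_pos (by omega), an_iff, Nat.ble_eq] at h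
  · rw [if_pos e, Nat.ble_eq] at h; exact h.2
  · exact h.1

noncomputable def dels (w : Ten) (q : ℕ → ℕ → ℕ)
    (F D tt d0 d1 d2 d3 s0 s1 s2 s3 r01 r02 r03 r12 r13 r23 : ℕ) : Bool :=
  near r01 fun a01 => near r02 fun a02 => near r03 fun a03 => upto s0 fun t0 =>
  frc (((t0.add a01).add a02).add a03).succ fun j0 =>
  frc ((((F.add (w.r01.mul a01)).add (w.r02.mul a02)).add (w.r03.mul a03)).add (w.s0.mul t0))
    fun x0 =>
  near r12 fun a12 => near r13 fun a13 => upto s1 fun t1 =>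
  frc (((t1.add a01).add a12).add a13).succ fun j1 =>
  frc (((x0.add (w.r12.mul a12)).add (w.r13.mul a13)).add (w.s1.mul t1)) fun x1 =>
  near r23 fun a23 => upto s2 fun t2 =>
  frc (((t2.add a02).add a12).add a23).succ fun j2 =>
  frc ((x1.add (w.r23.mul a23)).add (w.s2.mul t2)) fun x2 =>
  frc (((((j0.add a12).add a13).add t1).add a23).add t2) fun z2 =>
  upto s3 fun t3 => frc (((a03.add a13).add a23).add t3).succ fun j3 =>
  fin tt (z2.add t3) (x2.add (w.s3.mul t3))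
    ((((inc (q 3 0) d0 j0).add (inc (q 3 1) d1 j1)).add (inc (q 3 2) d2 j2)).add
      (inc (q 3 3) d3 j3))
    ((((inc (q 4 0) d0 j0).add (inc (q 4 1) d1 j1)).add (inc (q 4 2) d2 j2)).add
      (inc (q 4 3) d3 j3))
    (D.add (ph N ((((l1 j0).add (l1 j1)).add (l1 j2)).add (l1 j3))
      (tw j0 j1 j2 j3 a01 a02 a03 a12 a13 a23)))

theorem dels_ok {n w : Ten} {q : ℕ → ℕ → ℕ}
    (h : dels N w q (n.lv * n.psi N) (n.dot w + 200000) n.tot n.d0 n.d1 n.d2 n.d3
      n.s0 n.s1 n.s2 n.s3 n.r01 n.r02 n.r03 n.r12 n.r13 n.r23 = true) :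
    n.DelOk N w fun k i => q k i - 50000 := by
  rintro m k hk ⟨b0, b1, b2, b3, c01, c02, c03, c12, c13, c23⟩ ⟨e01, e02, e03, e12, e13, e23⟩ ht
  simp only [dels, frc_eq] at h
  replace h := near_ok h c01 e01
  replace h := near_ok h c02 e02
  replace h := near_ok h c03 e03
  replace h := upto_ok h b0
  replace h := near_ok h c12 e12
  replace h := near_ok h c13 e13
  replace h := upto_ok h b1
  replace h := near_ok h c23 e23
  replace h := upto_ok h b2
  replace h := upto_ok h b3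
  have e3 : (((m.r03.add m.r13).add m.r23).add m.s3).succ = m.d3 := by
    simp only [Nat.add_eq, Ten.d3]; omega
  rw [e3] at h
  change fin _ _ _ (inc _ _ m.d0 + inc _ _ m.d1 + inc _ _ m.d2 + _)
    (inc _ _ m.d0 + inc _ _ m.d1 + inc _ _ m.d2 + _)
    (_ + ph N (l1 m.d0 + l1 m.d1 + l1 m.d2 + _) (tw m.d0 m.d1 m.d2 _ _ _ _ _ _ _)) = true at h
  simp only [l1_eq] at h
  have hp := ph_eq N m (tw_iff m)
  have hn : n.Phi N = (n.lv * n.psi N : ℕ) := rfl
  have hd : m.dot w = w.s0 * m.s0 + w.s1 * m.s1 + w.s2 * m.s2 + w.s3 * m.s3 + w.r01 * m.r01 +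
    w.r02 * m.r02 + w.r03 * m.r03 + w.r12 * m.r12 + w.r13 * m.r13 + w.r23 * m.r23 := rfl
  have hz : m.tot = m.s0 + m.s1 + m.s2 + m.s3 + m.r01 + m.r02 + m.r03 + m.r12 + m.r13 + m.r23 :=
    rfl
  obtain ⟨h3, h4⟩ := fin_ok h
  unfold Ten.lv at hp
  simp only [inc_eq, Nat.add_eq, Nat.mul_eq] at h3 h4 ⊢
  rcases hk with rfl | rfl <;> omega

def fld (x i : ℕ) : ℕ := Nat.mod (Nat.shiftRight x ((Nat.mul 14 i).add 20)) 16384
def wOf (x : ℕ) : Ten := ⟨fld x 8, fld x 9, fld x 10, fld x 11, fld x 12, fld x 13, fld x 14,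
  fld x 15, fld x 16, fld x 17⟩
def qOf (x k i : ℕ) : ℕ := Nat.mul 10 (fld x (((Nat.mul 4 k).add i).sub 12))

noncomputable def good (n : Ten) (d0 d1 d2 d3 s0 s1 s2 s3 r01 r02 r03 r12 r13 r23 x : ℕ) : Bool :=
  an (frc (n.lv * n.psi N) fun F => frc (n.dot (wOf x) + 200000) fun D => frc n.tot fun tt =>
      dels N (wOf x) (qOf x) F D tt d0 d1 d2 d3 s0 s1 s2 s3 r01 r02 r03 r12 r13 r23)
    (frc (120000000 - n.lf N).toNat fun l => frc (3 * n.pen (wOf x)) fun c =>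
      frc (r01 + r02 + r03 + 3) fun g0 => frc (r01 + r12 + r13 + 3) fun g1 =>
      frc (r02 + r12 + r23 + 3) fun g2 => frc (r03 + r13 + r23 + 3) fun g3 =>
      rows T l c (qOf x) d0 d1 d2 d3 g0 g1 g2 g3 s0 s1 s2 s3 r01 r02 r03 r12 r13 r23)

theorem good_ok {n : Ten} {x : ℕ} (h : good N T n n.d0 n.d1 n.d2 n.d3 n.s0 n.s1 n.s2 n.s3
    n.r01 n.r02 n.r03 n.r12 n.r13 n.r23 x = true) : ∃ w p, n.DelOk N w p ∧ n.RowOk N T w p := by
  simp only [good, frc_eq, an_iff] at h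
  exact ⟨_, _, dels_ok N h.1, rows_ok N T (by omega) h.2⟩

/-- all neighbourhoods with the given degrees and the given first count. -/
noncomputable def cls (L : List ℕ) (d0 d1 d2 d3 r01 : ℕ) : Bool :=
  sb d0.pred r01 fun x => spl x fun r02 y => spl y fun r03 s0 =>
  sb d1.pred r01 fun x1 => spl x1 fun r12 y1 => spl y1 fun r13 s1 =>
  sb d2.pred (r02 + r12) fun x2 => spl x2 fun r23 s2 => sb d3.pred (r03 + r13 + r23) fun s3 =>
  frc (s0 + 4 * (s1 + 4 * (s2 + 4 * (s3 + 4 * (r01 + 4 * (r02 + 4 * (r03 + 4 * (r12 + 4 *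
    (r13 + 4 * r23))))))))) fun c => anyL L fun x => an (Nat.beq (Nat.mod x 1048576) c)
      (good N T ⟨s0, s1, s2, s3, r01, r02, r03, r12, r13, r23⟩ d0 d1 d2 d3 s0 s1 s2 s3
        r01 r02 r03 r12 r13 r23 x)

theorem cls_ok {L : List ℕ} {n : Ten} (h : cls N T L n.d0 n.d1 n.d2 n.d3 n.r01 = true) :
    ∃ w p, n.DelOk N w p ∧ n.RowOk N T w p := by
  unfold cls at h
  replace h := sb_ok h (b := n.r02 + (n.r03 + n.s0)) (by simp only [Ten.d0, Nat.pred_succ]; omega)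
  replace h := spl_ok h rfl
  replace h := spl_ok h rfl
  replace h := sb_ok h (b := n.r12 + (n.r13 + n.s1)) (by simp only [Ten.d1, Nat.pred_succ]; omega)
  replace h := spl_ok h rfl
  replace h := spl_ok h rfl
  replace h := sb_ok h (b := n.r23 + n.s2) (by simp only [Ten.d2, Nat.pred_succ]; omega)
  replace h := spl_ok h rfl
  replace h := sb_ok h (b := n.s3) (by simp only [Ten.d3, Nat.pred_succ]; omega)
  rw [frc_eq] at h
  obtain ⟨x, hx⟩ := anyL_ok h
  exact good_ok N T (an_iff.1 hx).2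

/-- all neighbourhoods with the given least degree and the given first count. -/
noncomputable def grp (L : List ℕ) (d0 r : ℕ) : Bool :=
  upto 4 fun d1 => upto 4 fun d2 => upto 4 fun d3 =>
  cd (an (Nat.ble d0 d1) (an (Nat.ble d1 d2) (an (Nat.ble d2 d3) (Nat.ble 2 d2))))
    (cls N T L d0 d1 d2 d3 r) true

theorem s_ten_of (h : ∀ d r, r < d → d ≤ 4 → ∃ L, grp N T L d r = true) : S_ten N T := by
  intro n h0 h1 h2 h3 h4
  obtain ⟨L, h⟩ := h n.d0 n.r01 (by simp only [Ten.d0]; omega) (by omega)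
  unfold grp at h
  replace h := upto_ok h (show n.d1 ≤ 4 by omega)
  replace h := upto_ok h (show n.d2 ≤ 4 by omega)
  replace h := upto_ok h h3
  rw [cd_eq, if_pos (by simp only [an_iff, Nat.ble_eq]; exact ⟨h0, h1, h2, h4⟩)] at h
  exact cls_ok N T h

/-- the numbers. -/
def nm : Num :=
  ⟨16680, 35930, 37970, 22750, 300050, 311370, 387830, 384570, 389200, 392960, 389500, 463740⟩

end Tn
end Pool.Agent.P.MP_b2082d_co.Gen
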