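import Pool.Agent.P.MP_b2082d_co.G.T0Spec
import Pool.Agent.P.MP_b2082d_co.G.Bridge

/-! The vertex rows of the step as a check on the listed stars. -/

namespace Pool.Agent.P.MP_b2082d_co.Gen
open Finset

namespace Vx

/-- `gS` read from the code, masks may be zero. -/
def gB (N : Num) (a : ℕ) (M : List ℕ) (b : Bool) : ℕ :=
  if pc4 a = 2 then (if M.countP (Nat.blt 0) + 1 = 7 then N.g2 else N.g23)
  else if pc4 a = 3 then
    (if M.countP (Nat.blt 0) + 1 = 10 then N.g3 else if M.countP (Nat.blt 0) + 1 = 9 then N.g33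
    else if M.countP (Nat.blt 0) + 1 = 8 then
      (if a ∈ M then N.g37 else if b then N.g33 else N.g35) else N.g356)
  else N.g4

def postC (N : Num) (a : ℕ) (M : List ℕ) (F : ℕ) : ℕ :=
  if pc4 (a &&& (15 - F)) = 0 then 0 else if pc4 (a &&& (15 - F)) = 1 then 250000 else
    max (gB N (a &&& (15 - F)) (M.map (Nat.land · (15 - F))) true)
      (gB N (a &&& (15 - F)) (M.map (Nat.land · (15 - F))) false)

def s4 (J : ℕ) (g : ℕ → ℤ) : ℤ := (if J.testBit 0 then g 0 else 0) +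
  (if J.testBit 1 then g 1 else 0) + (if J.testBit 2 then g 2 else 0) +
  if J.testBit 3 then g 3 else 0

def t6 (a J i j : ℕ) (x : ℤ) : ℤ :=
  if a.testBit i && a.testBit j && (J.testBit i || J.testBit j) then x else 0

/-- the sum over the pairs of slots of `a` that meet `J`. -/
def s6 (a J : ℕ) (g : ℕ → ℤ) : ℤ := t6 a J 0 1 (g 0) + t6 a J 0 2 (g 1) + t6 a J 1 2 (g 2) +
  t6 a J 0 3 (g 3) + t6 a J 1 3 (g 4) + t6 a J 2 3 (g 5)

/-- the possible degrees of a vertex with the mask `F`. -/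
def ks (st F : ℕ) : List ℕ := if F = st then [1] else [1, 2, 3, 4].filter (Nat.ble (pc4 F))

def mn (l : List ℕ) (h : ℕ → ℤ) : ℤ := l.foldr (fun k r => min (h k) r) 1000000000

def sg (M : List ℕ) (i : ℕ) : ℕ := (M.map fun F => if F.testBit i then pc4 F else 0).sum

def cost (T : Tb) (a : ℕ) (M : List ℕ) (J F k i : ℕ) : ℤ :=
  (if F + 2 ^ i = a ∧ 3 ≤ k then T.bk (pc4 a) (pc4 J) (sg M i) k else 0) +
    if F.testBit i then T.z (pc4 a) (pc4 J) (sg M i) (pc4 F) (pc4 (F &&& J)) k else 0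

def row (N : Num) (T : Tb) (a : ℕ) (M : List ℕ) (st g : ℕ) (A : ℕ → ℤ) (B : ℕ → ℕ → ℕ → ℤ) : Bool :=
  decide (s6 a a A ≤ 10 * (g : ℤ) - if 3 ≤ pc4 a then 3 * (1000000 - (g : ℤ)) else 0) &&
  (M.all fun F => (ks st F).all fun k =>
    decide (s6 a a (B F k) ≤ 3 * if 3 ≤ k then (g : ℤ) - postC N a M F else 0)) &&
  ((List.range 6).all fun n =>
    decide (0 ≤ A n + (M.map fun F => mn (ks st F) fun k => B F k n).sum)) &&
  (List.range 16).all fun J => !decide (a &&& J = J) ||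
    decide (s4 J (fun i => T.b0 (pc4 a) (pc4 J) (sg M i)) ≤ s6 a J A +
      (M.map fun F => mn (ks st F) fun k => s6 a J (B F k) - s4 J (cost T a M J F k)).sum)

theorem mn_le {l : List ℕ} {h : ℕ → ℤ} {k : ℕ} (a : k ∈ l) : mn l h ≤ h k := by
  induction l with
  | nil => exact absurd a (by simp)
  | cons x l ih =>
    rcases List.mem_cons.1 a with rfl | b
    exacts [min_le_left _ _, (min_le_right _ _).trans (ih b)]

theorem s4_eq (J : ℕ) (g : ℕ → ℤ) : s4 J g = ∑ i : Fin 4, if J.testBit i then g i else 0 := by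
  rw [Fin.sum_univ_four]
  rfl

theorem s6_add (a J : ℕ) (A : ℕ → ℤ) (W : Finset ℕ) (B : ℕ → ℕ → ℤ) :
    s6 a J (fun n => A n + ∑ x ∈ W, B x n) = s6 a J A + ∑ x ∈ W, s6 a J (B x) := by
  have k : ∀ i j y (h : ℕ → ℤ), t6 a J i j (y + ∑ x ∈ W, h x) =
      t6 a J i j y + ∑ x ∈ W, t6 a J i j (h x) := fun i j y h => by
    unfold t6
    split_ifs <;> simp
  simp only [s6, k, sum_add_distrib]
  ring

theorem gS_eq (N : Num) {S : Hg} {v : ℕ} {E : Fin 4 → Finset ℕ} {L : List ℕ}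
    (b : Lab S E (v :: L)) (hv : ∀ e ∈ S, v ∈ e) (h1 : 1 ≤ S.card) (p : Prop) [Decidable p] :
    gS N v S p = gB N (msk E v) (L.map (msk E)) (decide p) := by
  have s : ∀ i, E i ≠ ∅ → v ∈ E i := fun i k => hv _ (b.slot k)
  obtain ⟨e, he⟩ := card_pos.1 h1
  obtain ⟨-, i, rfl⟩ := (b.mem e).1 he
  have e1 : S.card = pc4 (msk E v) := by
    rw [← b.pc4 v, star, filter_true_of_mem hv]
  have e0 : ∀ u, Nat.blt 0 (msk E u) = true ↔ ∃ j, u ∈ E j := fun u => by
    rw [Nat.blt_eq]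
    refine ⟨msk_pos, fun ⟨j, k⟩ => Nat.pos_of_ne_zero fun z => ?_⟩
    have := msk_bit E u j
    simp [z, k] at this
  have e2 : (vs S).card = (L.map (msk E)).countP (Nat.blt 0) + 1 := by
    rw [← List.countP_cons_of_pos (a := msk E v) ((e0 v).2 ⟨i, hv _ he⟩), ← List.map_cons,
      List.countP_map]
    refine card_eq_countP b.nd _ fun u => ?_
    rw [mem_vs, Function.comp, e0]
    refine ⟨fun ⟨f, x, y⟩ => ?_, fun ⟨_, j, y⟩ => ⟨_, b.slot (ne_empty_of_mem y), y⟩⟩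
    obtain ⟨-, j, rfl⟩ := (b.mem f).1 x
    exact ⟨b.cov j u y, j, y⟩
  have e3 : (∃ u, u ≠ v ∧ ∀ e ∈ S, u ∈ e) ↔ msk E v ∈ L.map (msk E) := by
    rw [List.mem_map]
    refine ⟨fun ⟨u, u1, u2⟩ => ?_, fun ⟨u, u1, u2⟩ => ⟨u, fun k => (List.nodup_cons.1 b.nd).1
      (k ▸ u1), fun e he => ?_⟩⟩
    · refine ⟨u, (List.mem_cons.1 (b.cov i u (u2 _ he))).resolve_left u1,
        msk_eq (msk_lt E v) fun j => ?_⟩
      rw [msk_bit, decide_eq_true_iff]
      exact ⟨fun k => u2 _ (b.slot (ne_empty_of_mem k)), fun k => s j (ne_empty_of_mem k)⟩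
    · obtain ⟨-, i, rfl⟩ := (b.mem e).1 he
      have k := msk_bit E u i
      rw [u2, msk_bit] at k
      exact (decide_eq_decide.1 k).1 (hv _ he)
  rw [gS, gB, e1, e2]
  simp only [e3, decide_eq_true_iff]
  congr

structure Cx (R : Hg) (v : ℕ) (E : Fin 4 → Finset ℕ) (L : List ℕ) : Prop where
  c0 : C0 R
  two : 2 ≤ dg R v
  lab : Lab (star R v) E (v :: L)
  pos : ∀ x ∈ L, 0 < msk E x

namespace Cx
variable {N : Num} {T : Tb} {R S : Hg} {v x J : ℕ} {E : Fin 4 → Finset ℕ} {L : List ℕ}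
  {i : Fin 4} (C : Cx R v E L)
include C

theorem slot (h : x ∈ E i) : E i ∈ R ∧ v ∈ E i := mem_star.1 (C.lab.slot (ne_empty_of_mem h))

theorem ex {e : Finset ℕ} (h : e ∈ R) (a : v ∈ e) : ∃ i, E i = e :=
  ((C.lab.mem e).1 (mem_star.2 ⟨h, a⟩)).2

theorem ne (h : x ∈ L) : x ≠ v := fun a => (List.nodup_cons.1 C.lab.nd).1 (a ▸ h)

theorem mem (h : x ∈ E i) (a : x ≠ v) : x ∈ L :=
  (List.mem_cons.1 (C.lab.cov i x h)).resolve_left a

theorem W : (vs (star R v)).erase v = L.toFinset := by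
  ext x
  rw [mem_erase, mem_vs, List.mem_toFinset]
  refine ⟨fun ⟨a, e, b, c⟩ => ?_, fun a => ⟨C.ne a, ?_⟩⟩
  · obtain ⟨i, rfl⟩ := C.ex (mem_star.1 b).1 (mem_star.1 b).2
    exact C.mem c a
  · obtain ⟨i, b⟩ := msk_pos (C.pos x a)
    exact ⟨_, mem_star.2 (C.slot b), b⟩

theorem lsum {G : Type} [AddCommMonoid G] (f : ℕ → G) :
    ((L.map (msk E)).map f).sum = ∑ x ∈ L.toFinset, f (msk E x) := by
  rw [List.sum_toFinset _ (List.nodup_cons.1 C.lab.nd).2, List.map_map]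
  rfl

theorem dgv : dg R v = pc4 (msk E v) := by
  rw [← C.lab.pc4 v]
  exact congrArg card (filter_true_of_mem fun e he => (mem_star.1 he).2).symm

theorem co_eq : co R v x = pc4 (msk E x) := C.lab.pc4 x

theorem esum {G : Type} [AddCommMonoid G] (_ : v ∈ E i) (f : ℕ → G) :
    ∑ x ∈ (E i).erase v, f x = ∑ x ∈ L.toFinset, if (msk E x).testBit i then f x else 0 := by
  rw [← sum_filter]
  congr 1
  ext x
  simp only [mem_erase, mem_filter, List.mem_toFinset, msk_bit, decide_eq_true_iff]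
  exact ⟨fun a => ⟨C.mem a.2 a.1, a.2⟩, fun a => ⟨C.ne a.1, a.2⟩⟩

theorem sig_eq (h : v ∈ E i) : sig0 R (E i) v = sg (L.map (msk E)) i := by
  rw [sig0, sg, C.lsum, C.esum h]
  simp only [C.co_eq]

theorem kil_eq (h : v ∈ E i) : kil R (E i) v =
    L.toFinset.filter fun x => msk E x + 2 ^ i.val = msk E v ∧ 3 ≤ dg R x := by
  have k : ∀ F < 16, ∀ a < 16, ∀ i : Fin 4, a.testBit i = true → (F + 2 ^ i.val = a ↔
      F.testBit i = false ∧ ∀ j : Fin 4, j ≠ i → F.testBit j = a.testBit j) := by decide +kernel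
  ext x
  rw [kil, mv, mem_filter, mem_filter, mem_filter, List.mem_toFinset,
    k _ (msk_lt E x) _ (msk_lt E v) i (by simp [msk_bit, h])]
  simp only [msk_bit, decide_eq_false_iff_not, decide_eq_decide]
  refine ⟨fun ⟨⟨_, a, b⟩, c⟩ => ?_, fun ⟨a, ⟨b, c⟩, d⟩ => ⟨⟨?_, b, d⟩, fun f f1 f2 => ?_⟩⟩
  · obtain ⟨f, f1, f2⟩ := exists_mem_ne C.two (E i)
    obtain ⟨j, rfl⟩ := C.ex (mem_star.1 f1).1 (mem_star.1 f1).2
    refine ⟨C.mem (c _ f1 f2) fun d => a (d ▸ h), ⟨a, fun t u => ⟨fun w => (C.slot w).2,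
      fun w => c _ (mem_star.2 (C.slot w)) fun z => u ?_⟩⟩, b⟩
    exact (C.lab.inj t i z).resolve_left (ne_empty_of_mem w)
  · obtain ⟨j, e⟩ := msk_pos (C.pos x a)
    exact mem_vs.2 ⟨_, (C.slot e).1, e⟩
  · obtain ⟨j, rfl⟩ := C.ex (mem_star.1 f1).1 (mem_star.1 f1).2
    exact (c j fun z => f2 (z ▸ rfl)).2 (mem_star.1 f1).2

theorem post_le : post N R v x ≤ postC N (msk E v) (L.map (msk E)) (msk E x) := by
  classical
  have b : Lab (star (res R {x}) v) (cut E (15 - msk E x)) (v :: L) :=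
    C.lab.cut _ (filter_subset_filter _ (res_subset _ _)) fun i a => by
      have c := mem_star.1 (C.lab.slot a)
      rw [mem_star, mem_res, disjoint_singleton_left, bit_sub _ (msk_lt E x), msk_bit]
      simp [c]
  have d : dg (res R {x}) v = pc4 (msk E v &&& (15 - msk E x)) := by
    rw [← msk_cut, ← b.pc4 v]
    exact congrArg card (filter_true_of_mem fun e he => (mem_star.1 he).2).symm
  rw [post, postC, ← d]
  split_ifs with a1 a2
  exacts [le_rfl, le_rfl, by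
    rw [gp, gS_eq N b (fun e he => (mem_star.1 he).2) (Nat.pos_of_ne_zero a1), msk_cut, map_cut]
    cases decide (∃ e ∈ star (res R {x}) v, 2 ≤ (lvs (res R {x}) e).card)
    exacts [le_max_right _ _, le_max_left _ _]]

theorem G0_ge {g : ℕ} (hg : g ≤ gp N R v) :
    (10 * (g : ℤ) - if 3 ≤ pc4 (msk E v) then 3 * (1000000 - (g : ℤ)) else 0) +
      ∑ x ∈ L.toFinset, 3 * (if 3 ≤ dg R x then
        (g : ℤ) - postC N (msk E v) (L.map (msk E)) (msk E x) else 0) ≤ G0 N R v := by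
  have a : (g : ℤ) ≤ gp N R v := Nat.cast_le.2 hg
  rw [G0, C.W, sum_filter, mul_sum, C.dgv]
  refine add_le_add (by split_ifs <;> linarith) (sum_le_sum fun x _ => ?_)
  have b : (post N R v x : ℤ) ≤ postC N (msk E v) (L.map (msk E)) (msk E x) :=
    Nat.cast_le.2 C.post_le
  split_ifs <;> linarith

section
variable (hS : S ⊆ R) (hJ : ∀ i : Fin 4, J.testBit i = true ↔ E i ∈ S ∧ v ∈ E i)
include hS hJ

theorem labS : Lab (star S v) (cut E J) (v :: L) :=
  C.lab.cut _ (filter_subset_filter _ hS) fun i _ => by rw [mem_star, hJ]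

theorem ssum (G : Finset ℕ → ℤ) :
    ∑ e ∈ star S v, G e = ∑ i : Fin 4, if J.testBit i then G (E i) else 0 := by
  rw [← sum_filter]
  symm
  refine sum_bij (fun i _ => E i) (fun i hi => mem_star.2 ((hJ i).1 (mem_filter.1 hi).2))
    (fun i hi j _ a => (C.lab.inj i j a).resolve_left
      (ne_empty_of_mem ((hJ i).1 (mem_filter.1 hi).2).2)) (fun e he => ?_) fun _ _ => rfl
  obtain ⟨i, rfl⟩ := C.ex (hS (mem_star.1 he).1) (mem_star.1 he).2
  exact ⟨i, mem_filter.2 ⟨mem_univ _, (hJ i).2 (mem_star.1 he)⟩, rfl⟩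

theorem sh_eq (hj : msk E v &&& J = J) : ∑ e ∈ star S v, sh N T R S e v =
    s4 J (fun i => T.b0 (pc4 (msk E v)) (pc4 J) (sg (L.map (msk E)) i)) + ∑ x ∈ L.toFinset,
      s4 J (cost T (msk E v) (L.map (msk E)) J (msk E x) (dg R x)) := by
  have b := C.labS hS hJ
  have d : dg S v = pc4 J := by
    rw [← hj, ← msk_cut, ← b.pc4 v]
    exact congrArg card (filter_true_of_mem fun e he => (mem_star.1 he).2).symm
  have c : ∀ x, co S v x = pc4 (msk E x &&& J) := fun x => by rw [← msk_cut, ← b.pc4 x, co]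
  simp only [s4_eq]
  rw [C.ssum hS hJ, sum_comm, ← sum_add_distrib]
  refine sum_congr rfl fun i _ => ?_
  split_ifs with a
  · have h := ((hJ i).1 a).2
    have := C.two
    rw [sh, if_neg (by omega), C.kil_eq h, C.esum h, C.sig_eq h, sum_filter, d, C.dgv, add_assoc,
      ← sum_add_distrib]
    simp only [C.co_eq, c, cost]
  · simp

omit hS in
theorem pair (i j : Fin 4) (y : ℤ) : ∑ e ∈ R, ∑ f ∈ R, (if e ∈ S ∨ f ∈ S then
    (if (v ∈ E i ∧ v ∈ E j) ∧ E i = e ∧ E j = f then y else 0) else 0) = t6 (msk E v) J i j y := by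
  rw [t6]
  simp only [msk_bit, Bool.and_eq_true, Bool.or_eq_true, decide_eq_true_iff, hJ]
  by_cases a : v ∈ E i ∧ v ∈ E j
  · rw [sum_eq_single_of_mem (E i) (C.slot a.1).1 fun e _ b => sum_eq_zero fun f _ => by
      simp [b.symm], sum_eq_single_of_mem (E j) (C.slot a.2).1 fun f _ b => by simp [b.symm]]
    simp [a]
  · simp [a]

end

theorem row_ok {st g : ℕ} {A : ℕ → ℤ} {B : ℕ → ℕ → ℕ → ℤ} (hg : g ≤ gp N R v)
    (hst : ∀ x ∈ L, msk E x = st → dg R x = 1)
    (h : row N T (msk E v) (L.map (msk E)) st g A B = true) :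
    ∃ q : Finset ℕ → Finset ℕ → ℤ, (∀ e f, 0 ≤ q e f) ∧ (∀ e f, q e f ≠ 0 → v ∈ e ∧ v ∈ f) ∧
      ∑ e ∈ R, ∑ f ∈ R, q e f ≤ G0 N R v ∧ ∀ S ⊆ R, ∑ e ∈ star S v, sh N T R S e v ≤
        ∑ e ∈ R, ∑ f ∈ R, if e ∈ S ∨ f ∈ S then q e f else 0 := by
  simp only [row, Bool.and_eq_true, List.all_eq_true, decide_eq_true_iff, Bool.or_eq_true,
    Bool.not_eq_true', decide_eq_false_iff_not, List.mem_range, C.lsum] at h
  obtain ⟨⟨⟨h1, h2⟩, h3⟩, h4⟩ := h
  have k : ∀ x ∈ L.toFinset, dg R x ∈ ks st (msk E x) := fun x hx => by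
    rw [List.mem_toFinset] at hx
    unfold ks
    split_ifs with a
    · simp [hst x hx a]
    · have b : pc4 (msk E x) ≤ dg R x :=
        C.co_eq ▸ card_le_card (filter_subset_filter _ (filter_subset _ _))
      have c : dg R x ≤ 4 := C.c0.cls.deg x
      obtain ⟨i, d⟩ := msk_pos (C.pos x hx)
      have e : 1 ≤ dg R x := star_pos (mem_vs.2 ⟨_, (C.slot d).1, d⟩)
      simp only [List.mem_filter, List.mem_cons, List.not_mem_nil, Nat.ble_eq]
      omega
  set Q : ℕ → ℤ := fun n => A n + ∑ x ∈ L.toFinset, B (msk E x) (dg R x) n with hQ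
  have Q0 : ∀ n < 6, 0 ≤ Q n := fun n hn =>
    (h3 n hn).trans (add_le_add le_rfl (sum_le_sum fun x hx => mn_le (k x hx)))
  set u : Fin 4 → Fin 4 → ℕ → Finset ℕ → Finset ℕ → ℤ := fun i j n e f =>
    if (v ∈ E i ∧ v ∈ E j) ∧ E i = e ∧ E j = f then Q n else 0 with hu
  have u0 : ∀ i j, ∀ n < 6, ∀ e f, 0 ≤ u i j n e f := fun i j n hn e f => by
    simp only [hu]
    split_ifs
    exacts [Q0 n hn, le_rfl]
  have u1 : ∀ i j n e f, ¬ (v ∈ e ∧ v ∈ f) → u i j n e f = 0 := fun i j n e f a =>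
    if_neg fun b : (v ∈ E i ∧ v ∈ E j) ∧ E i = e ∧ E j = f => a ⟨b.2.1 ▸ b.1.1, b.2.2 ▸ b.1.2⟩
  set q : Finset ℕ → Finset ℕ → ℤ := fun e f => u 0 1 0 e f + u 0 2 1 e f + u 1 2 2 e f +
    u 0 3 3 e f + u 1 3 4 e f + u 2 3 5 e f with hq
  have m : ∀ (S : Hg) (J : ℕ), (∀ i : Fin 4, J.testBit i = true ↔ E i ∈ S ∧ v ∈ E i) →
      ∑ e ∈ R, ∑ f ∈ R, (if e ∈ S ∨ f ∈ S then q e f else 0) =
        s6 (msk E v) J A + ∑ x ∈ L.toFinset, s6 (msk E v) J (B (msk E x) (dg R x)) :=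
    fun S J hJ => by
      rw [← s6_add]
      simp only [hq, hu, ite_add_zero, sum_add_distrib, C.pair hJ]
      rfl
  refine ⟨q, fun e f => ?_, fun e f a => by_contra fun b => a (by simp only [hq, u1 _ _ _ e f b]; rfl),
    ?_, fun S hS => ?_⟩
  · have := u0 0 1 0 (by norm_num) e f
    have := u0 0 2 1 (by norm_num) e f
    have := u0 1 2 2 (by norm_num) e f
    have := u0 0 3 3 (by norm_num) e f
    have := u0 1 3 4 (by norm_num) e f
    have := u0 2 3 5 (by norm_num) e f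
    simp only [hq]
    positivity
  · rw [sum_congr rfl fun e he => sum_congr rfl fun f _ => (if_pos (Or.inl he : e ∈ R ∨ f ∈ R)).symm,
      m R (msk E v) fun i => by
        rw [msk_bit, decide_eq_true_iff]
        exact ⟨fun a => C.slot a, fun a => a.2⟩]
    exact (add_le_add h1 (sum_le_sum fun x hx => h2 _
      (List.mem_map_of_mem (List.mem_toFinset.1 hx)) _ (k x hx))).trans (C.G0_ge hg)
  · have hJ : ∀ i : Fin 4, (msk (fun i => if E i ∈ S then E i else ∅) v).testBit i = true ↔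
        E i ∈ S ∧ v ∈ E i := fun i => by
      rw [msk_bit]
      split_ifs with a <;> simp [a]
    have hl := msk_lt (fun i => if E i ∈ S then E i else ∅) v
    generalize msk (fun i => if E i ∈ S then E i else ∅) v = J at hJ hl
    have hj : msk E v &&& J = J := by
      rw [← msk_cut]
      refine msk_eq hl fun i => ?_
      rw [cut]
      split_ifs with a
      exacts [iff_of_true a ((hJ i).1 a).2, iff_of_false a (by simp)]
    rw [m S J hJ, C.sh_eq hS hJ hj]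
    have a := ((h4 J hl).resolve_left (not_not.2 hj)).trans
      (add_le_add le_rfl (sum_le_sum fun x hx => mn_le (k x hx)))
    rw [sum_sub_distrib] at a
    linarith

end Cx

/-- the check of one listed star; `A` and `B` get the star and the option. -/
noncomputable def chk (N : Num) (T : Tb) (A : ℕ → List ℕ → ℕ → ℕ → ℤ)
    (B : ℕ → List ℕ → ℕ → ℕ → ℕ → ℕ → ℤ) (r : ℕ × List ℕ × List ℕ) : Bool :=
  !r.2.2.isEmpty || Nat.beq (pc4 r.1) 1 || (pairs.any fun p => Nat.blt 2 (cn (r.1 :: r.2.1) p)) ||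
    (row N T r.1 r.2.1 0 (gB N r.1 r.2.1 false) (A r.1 r.2.1 0) (B r.1 r.2.1 0) &&
      (Nat.ble (gB N r.1 r.2.1 false) (gB N r.1 r.2.1 true) || [1, 2, 4, 8].all fun st =>
        Nat.blt (r.2.1.count st) 2 || (Nat.beq (r.2.1.count st) 2 &&
          row N T r.1 r.2.1 st (gB N r.1 r.2.1 true) (A r.1 r.2.1 st) (B r.1 r.2.1 st))))

theorem s_vtx {N : Num} {T : Tb} {A : ℕ → List ℕ → ℕ → ℕ → ℤ}
    {B : ℕ → List ℕ → ℕ → ℕ → ℕ → ℕ → ℤ} (hc : reps.all (chk N T A B) = true) : S_vtx N T := by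
  classical
  intro R h v h2
  obtain ⟨E, L, b, c⟩ := exists_rep0 h.cls h.no6 (mem_vs_of_star (one_le_two.trans h2))
  have C : Cx R v E L := ⟨h, h2, b, fun x hx => reps_pos _ c _ (List.mem_map_of_mem hx)⟩
  have d := List.all_eq_true.1 hc _ c
  have e1 := C.dgv
  simp only [chk, List.isEmpty_nil, Bool.not_true, Bool.false_or, Bool.or_eq_true, Nat.beq_eq,
    List.any_eq_true, Nat.blt_eq, Nat.ble_eq, Bool.and_eq_true, List.all_eq_true] at d
  replace d := d.resolve_left (not_or.2 ⟨by omega, fun ⟨p, p1, p2⟩ => by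
    obtain ⟨i, j, k, rfl⟩ := pairs_pm p p1
    rw [← List.map_cons, ← b.inter] at p2
    have k1 : E i ≠ ∅ := fun z => by simp [z] at p2
    have k2 : E j ≠ ∅ := fun z => by simp [z] at p2
    exact p2.not_ge (h.co2 _ (mem_star.1 (b.slot k1)).1 _ (mem_star.1 (b.slot k2)).1
      fun z => k ((b.inj i j z).resolve_left k1))⟩)
  have g : gp N R v = _ := gS_eq N b (fun e he => (mem_star.1 he).2) (one_le_two.trans h2) _
  have r0 := fun a => C.row_ok a (fun x hx z => absurd z (C.pos x hx).ne') d.1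
  by_cases p : ∃ e ∈ star R v, 2 ≤ (lvs R e).card
  swap
  · exact r0 (by rw [g, decide_eq_false p])
  rw [decide_eq_true p] at g
  refine d.2.elim (fun a => r0 (g ▸ a)) fun a => ?_
  obtain ⟨e, e2, e3⟩ := p
  obtain ⟨i, rfl⟩ := C.ex (mem_star.1 e2).1 (mem_star.1 e2).2
  have s : lvs R (E i) ⊆ L.toFinset.filter fun x => msk E x = pm i i := fun x hx => by
    obtain ⟨x1, x2⟩ := mem_lvs.1 hx
    refine mem_filter.2 ⟨List.mem_toFinset.2 (C.mem x1 fun z => ?_),
      msk_eq (pm_one i).2.2.1 fun j => ?_⟩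
    · rw [z] at x2
      exact absurd (x2 ▸ h2 : 2 ≤ 1) (by norm_num)
    · have t : ∀ i j : Fin 4, (pm i i).testBit j = true ↔ j = i := by decide
      rw [t]
      exact ⟨fun z => z ▸ x1, fun z => (b.inj j i (deg_one x2 (C.slot z).1 (C.slot x1).1 z
        x1)).resolve_left (ne_empty_of_mem z)⟩
  have t : (L.toFinset.filter fun x => msk E x = pm i i).card = (L.map (msk E)).count (pm i i) := by
    rw [List.count, List.countP_map]
    exact card_eq_countP (List.nodup_cons.1 b.nd).2 _ fun u => by simp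
  have s1 := card_le_card s
  have a1 := (a _ (pm_one i).1).resolve_left (by omega)
  refine C.row_ok g.ge (fun x hx z => ?_) a1.2
  exact (mem_lvs.1 (eq_of_subset_of_card_le s (by omega) ▸
    mem_filter.2 ⟨List.mem_toFinset.2 hx, z⟩ : x ∈ lvs R (E i))).2

end Vx

end Pool.Agent.P.MP_b2082d_co.Gen
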