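import Pool.Agent.P.MP_b2082d_co.G.T05

/-! Removing the triples of edges `AB`, `BC`, `CA`: the mixture of the local moves. -/

namespace Pool.Agent.P.MP_b2082d_co.Gen
open Finset

/-- The edges `G` through `A` were replaced by the edge `A ∪ L` with private vertices `L`. -/
theorem good_act {R G : Hg} {A L : Finset ℕ} {p q : ℕ → ℝ} (hR : Good (insert (A ∪ L) R) q)
    (hL : Disjoint L (A ∪ vs R)) (hA : A.Nonempty) (hG : ∀ g ∈ G, A ⊆ g) (hv : A ⊆ vs G)
    (h1 : ∑ v ∈ L, q v ≤ ∑ v ∈ A, (p v - q v)) (h2 : ∀ v ∈ A ∪ vs R, q v ≤ p v)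
    (h3 : ∀ v ∈ vs G, v ∉ A ∪ vs R → 0 ≤ p v) : Good (R ∪ G) p := fun w hw => by
  obtain ⟨x, hx, hm⟩ := exists_min_image A w hA
  obtain ⟨T, t1, t2⟩ := hR (fun v => if v ∈ L then w x else w v) fun v => by
    split_ifs
    exacts [hw x, hw v]
  rw [vs_insert, union_comm A L, union_assoc, sum_union hL,
    sum_congr rfl fun v (a : v ∈ L) => by rw [if_pos a], ← mul_sum,
    sum_congr rfl fun v (a : v ∈ A ∪ vs R) => by rw [if_neg (disjoint_right.1 hL a)]] at t2
  have e1 : ∑ v ∈ A ∪ vs R, (w v * q v + if v ∈ A then w x * (p v - q v) else 0) ≤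
      ∑ v ∈ A ∪ vs R, w v * p v := sum_le_sum fun v a => by
    split_ifs with b
    · linarith [mul_le_mul_of_nonneg_right (hm v b) (sub_nonneg.2 (h2 v a))]
    · simpa using mul_le_mul_of_nonneg_left (h2 v a) (hw v)
  rw [sum_add_distrib, ← sum_filter, filter_mem_eq_inter, inter_eq_right.2 subset_union_left,
    ← mul_sum] at e1
  have e2 : ∑ v ∈ A ∪ vs R, w v * p v ≤ ∑ v ∈ vs (R ∪ G), w v * p v :=
    sum_le_sum_of_subset_of_nonneg (by
      rw [vs_union]
      exact union_subset (hv.trans subset_union_right) subset_union_left) fun v a b => by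
      rw [vs_union, mem_union] at a
      exact mul_nonneg (hw v) (h3 v (a.resolve_left fun c => b (mem_union_right _ c)) b)
  have e3 := mul_le_mul_of_nonneg_left h1 (hw x)
  have e4 : ∀ e ∈ R, (T \ L ∩ e).Nonempty := fun e he => by
    obtain ⟨v, a⟩ := t1 e (mem_insert_of_mem he)
    rw [mem_inter] at a
    exact ⟨v, mem_inter.2 ⟨mem_sdiff.2 ⟨a.1, disjoint_right.1 hL
      (mem_union_right _ (mem_vs.2 ⟨e, he, a.2⟩))⟩, a.2⟩⟩
  have e5 : ∑ v ∈ T \ L, w v = ∑ v ∈ T \ L, if v ∈ L then w x else w v :=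
    sum_congr rfl fun v a => by rw [if_neg (mem_sdiff.1 a).2]
  rw [← sum_inter_add_sum_sdiff T L, ← e5,
    sum_congr rfl fun v (a : v ∈ T ∩ L) => by rw [if_pos (mem_inter.1 a).2], sum_const,
    nsmul_eq_mul] at t2
  rcases (T ∩ L).eq_empty_or_nonempty with b | b
  · obtain ⟨y, a⟩ := t1 _ (mem_insert_self _ _)
    rw [mem_inter, mem_union] at a
    have c : y ∉ L := fun c => notMem_empty y (b ▸ mem_inter.2 ⟨a.1, c⟩)
    refine ⟨T \ L, fun e he => (mem_union.1 he).elim (e4 e) fun d =>
      ⟨y, mem_inter.2 ⟨mem_sdiff.2 ⟨a.1, c⟩, hG e d (a.2.resolve_right c)⟩⟩, ?_⟩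
    rw [b] at t2
    simp only [card_empty, Nat.cast_zero, zero_mul] at t2
    linarith
  · refine ⟨{x} ∪ T \ L, fun e he => (mem_union.1 he).elim
      (fun d => (e4 e d).mono (inter_subset_inter_right subset_union_right)) fun d =>
      ⟨x, mem_inter.2 ⟨by simp, hG e d hx⟩⟩, (sum_union_le hw _ _).trans ?_⟩
    have c : (1 : ℝ) ≤ (T ∩ L).card := by exact_mod_cast card_pos.2 b
    rw [sum_singleton]
    nlinarith [hw x]

/-- `{x, y}` is the intersection of two edges whose symmetric difference is an edge. -/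
def HP (R : Hg) (x y : ℕ) : Prop :=
  x ≠ y ∧ ∃ e ∈ R, ∃ f ∈ R, e ∩ f = {x, y} ∧ e \ f ∪ f \ e ∈ R

theorem HP.symm {R : Hg} {x y : ℕ} (h : HP R x y) : HP R y x :=
  ⟨h.1.symm, pair_comm x y ▸ h.2⟩

theorem HP.two {R : Hg} {x y : ℕ} (h : HP R x y) (hR : Cls R) : 2 ≤ (grp R {x, y}).card := by
  obtain ⟨h1, e, he, f, hf, h2, -⟩ := h
  refine one_lt_card.2 ⟨e, mem_filter.2 ⟨he, h2 ▸ inter_subset_left⟩, f,
    mem_filter.2 ⟨hf, h2 ▸ inter_subset_right⟩, fun a => ?_⟩
  have := hR.unif f hf
  rw [a, inter_self] at h2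
  rw [h2, card_pair h1] at this
  omega

theorem HP.deg {R : Hg} {x y : ℕ} (h : HP R x y) (hR : Cls R) : 2 ≤ (star R x).card :=
  (h.two hR).trans (card_le_card fun _ he => mem_star.2
    ⟨(mem_filter.1 he).1, (mem_filter.1 he).2 (mem_insert_self _ _)⟩)

theorem mem_vs_of_star {R : Hg} {v : ℕ} (h : 1 ≤ (star R v).card) : v ∈ vs R := by
  obtain ⟨e, he⟩ := card_pos.1 h
  exact mem_vs.2 ⟨e, mem_star.1 he⟩

open Classical in
/-- the partners of `x`. -/
noncomputable def ptn (R : Hg) (x : ℕ) : Finset ℕ := (vs R).filter (HP R x)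

theorem mem_ptn {R : Hg} (hR : Cls R) {x y : ℕ} : y ∈ ptn R x ↔ HP R x y := by
  classical
  simp only [ptn, mem_filter]
  exact ⟨fun h => h.2, fun h => ⟨mem_vs_of_star (one_le_two.trans (h.symm.deg hR)), h⟩⟩

/-- the vertices that act. -/
noncomputable def actors (R : Hg) : Finset ℕ := (vs R).filter fun x => (ptn R x).Nonempty

/-- the only partner of `x`, or `x` itself. -/
noncomputable def pt (R : Hg) (x : ℕ) : ℕ := if (ptn R x).card = 1 then (ptn R x).sup id else x

theorem pt_cases (R : Hg) (x : ℕ) :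
    ((ptn R x).card ≠ 1 ∧ pt R x = x) ∨ ptn R x = {pt R x} := by
  unfold pt
  split_ifs with h
  · obtain ⟨y, hy⟩ := card_eq_one.1 h
    simp [hy]
  · exact Or.inl ⟨h, rfl⟩

/-- two new vertices. -/
def fresh (R : Hg) : Finset ℕ := {(vs R).sup id + 1, (vs R).sup id + 2}

theorem fresh_card (R : Hg) : (fresh R).card = 2 := card_pair (by omega)

theorem fresh_not {R : Hg} {u : ℕ} (h : u ∈ fresh R) : u ∉ vs R := fun a => by
  have : u ≤ (vs R).sup id := le_sup (f := id) a
  simp only [fresh, mem_insert, mem_singleton] at h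
  omega

/-- the edges through `x` and `y` are replaced by one edge with two new vertices. -/
def act (R : Hg) (x y : ℕ) : Hg := insert ({x, y} ∪ fresh R) (oth R {x, y})

/-- the system after the action of `x` with partner `y`. -/
def nxt (R : Hg) (x y : ℕ) : Hg := if y = x then oth R {x, y} else act R x y

/-- the price of a non-leaf depends on its star and on the system. -/
noncomputable abbrev pr (P : Hg → Hg → ℝ) (lp : ℕ → ℝ) (R : Hg) : ℕ → ℝ :=
  price (fun _ => P R) lp R

/-- degree at most two, or two edges with three common points. -/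
def sp (R : Hg) (v : ℕ) : Prop := (star R v).card ≤ 2 ∨ ¬ Co2 (star R v)

open Classical in
/-- Old leaves keep their price, a new leaf beside an old leaf pays `γ`; three new leaves in an
edge split their pool unevenly. -/
noncomputable def rest (P : Hg → Hg → ℝ) (lp : ℕ → ℝ) (γ β : ℝ) (R Q : Hg) (v : ℕ) : ℝ :=
  if (star Q v).card = 1 ∧ vs (star Q v) ∈ R then
    if (lvs R (vs (star Q v))).Nonempty then if (star R v).card = 1 then pr P lp R v else γ
    else if (lvs Q (vs (star Q v))).card = 3 ∧ ∃ u ∈ lvs Q (vs (star Q v)), sp R u then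
      if sp R v then 1 / 4 else β
    else pr P lp Q v
  else pr P lp Q v

/-- what `v` pays when `x` acts with partner `y`. -/
noncomputable def ev (P : Hg → Hg → ℝ) (lp : ℕ → ℝ) (γ β : ℝ) (R : Hg) (x y v : ℕ) : ℝ :=
  if v = x then
    if y = x then 1 else if (star (act R x y) x).card = 1 then 3 * lp 3
    else P (act R x y) (star (act R x y) x) + 2 * lp 2
  else if v = y then
    if (star (act R x y) y).card = 1 then 1 - 3 * lp 3 else P (act R x y) (star (act R x y) y)
  else if v ∈ vs (oth R {x, y}) then rest P lp γ β R (nxt R x y) v else 0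

structure Par1 (P : Hg → Hg → ℝ) (lp : ℕ → ℝ) (γ β : ℝ) : Prop where
  p0 : ∀ R S, 0 ≤ P R S
  lp0 : ∀ j, 0 ≤ lp j
  g0 : 0 ≤ γ
  pool : ∀ j n : ℕ, j + n ≤ 4 → (j + n) * lp (j + n) ≤ j * lp j + n * γ
  l3 : 4 * lp 3 ≤ 1
  l4 : 4 * lp 4 ≤ 1
  l34 : lp 4 ≤ 3 * lp 3
  l23 : 6 * lp 3 ≤ 1 + 2 * lp 2
  b0 : 0 ≤ β
  b4 : 4 * β ≤ 1
  b3 : 3 * lp 3 ≤ 1 / 4 + 2 * β

variable {P : Hg → Hg → ℝ} {lp : ℕ → ℝ} {γ β : ℝ} {R : Hg}

theorem pr_nonneg (h : Par1 P lp γ β) (R : Hg) (v : ℕ) : 0 ≤ pr P lp R v := by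
  unfold pr price
  split_ifs
  exacts [h.lp0 _, h.p0 _ _]

theorem vs_single (e : Finset ℕ) : vs {e} = e := by simp [vs]

theorem good_rest (h : Par1 P lp γ β) {Q : Hg} (hQ : Cls Q) (ih : Good Q (pr P lp Q))
    (hl : ∀ e ∈ Q, e ∈ R → lvs R e ⊆ lvs Q e) : Good Q (rest P lp γ β R Q) := by
  refine good_pools ih (fun v _ _ => ?_) (fun e he => ?_) fun v _ b => ?_
  · unfold rest
    split_ifs
    exacts [pr_nonneg h _ _, h.g0, by norm_num, h.b0, pr_nonneg h _ _, pr_nonneg h _ _]
  · have k : ∀ v ∈ lvs Q e, vs (star Q v) = e := fun v a => by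
      rw [star_one (mem_lvs.1 a).2 he (mem_lvs.1 a).1, vs_single]
    by_cases a1 : e ∈ R
    swap
    · exact sum_le_sum fun v b => by rw [rest, if_neg fun c => a1 (k v b ▸ c.2)]
    have a2 := hl e he a1
    by_cases a : (lvs R e).Nonempty
    · have c := h.pool (lvs R e).card (lvs Q e \ lvs R e).card (by
        rw [add_comm, card_sdiff_add_card_eq_card a2, ← hQ.unif e he]
        exact card_le_card (filter_subset _ _))
      rw [sum_price_lvs he, ← sum_sdiff a2, sum_congr rfl fun v (b : v ∈ lvs R e) => by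
          rw [rest, k v (a2 b), if_pos ⟨(mem_lvs.1 (a2 b)).2, a1⟩, if_pos a,
            if_pos (mem_lvs.1 b).2],
        sum_price_lvs a1, sum_congr rfl fun v (b : v ∈ lvs Q e \ lvs R e) => by
          rw [rest, k v (mem_sdiff.1 b).1, if_pos ⟨(mem_lvs.1 (mem_sdiff.1 b).1).2, a1⟩, if_pos a,
            if_neg fun c => (mem_sdiff.1 b).2 (mem_lvs.2 ⟨(mem_lvs.1 (mem_sdiff.1 b).1).1, c⟩)],
        sum_const, nsmul_eq_mul, ← card_sdiff_add_card_eq_card a2, add_comm]
      push_cast
      linarith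
    by_cases c : (lvs Q e).card = 3 ∧ ∃ u ∈ lvs Q e, sp R u
    · obtain ⟨c1, u, c2, c3⟩ := id c
      have d := card_nsmul_le_sum ((lvs Q e).erase u) (rest P lp γ β R Q) β fun v b => by
        have b := mem_of_mem_erase b
        rw [rest, k v b, if_pos ⟨(mem_lvs.1 b).2, a1⟩, if_neg a, if_pos c]
        split_ifs <;> linarith [h.b4]
      rw [card_erase_of_mem c2, c1, nsmul_eq_mul] at d
      rw [sum_price_lvs he, ← add_sum_erase _ _ c2, rest, k u c2, if_pos ⟨(mem_lvs.1 c2).2, a1⟩,
        if_neg a, if_pos c, if_pos c3, c1]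
      push_cast at d ⊢
      linarith [h.b3]
    · exact sum_le_sum fun v b => by
        rw [rest, k v b, if_pos ⟨(mem_lvs.1 b).2, a1⟩, if_neg a, if_neg c]
  · rw [rest, if_neg fun c => b c.1]

theorem cls_oth (hR : Cls R) (t : Finset ℕ) : Cls (oth R t) :=
  ⟨fun e he => hR.unif e (mem_filter.1 he).1, fun v =>
    (card_le_card (filter_subset_filter _ (filter_subset _ _))).trans (hR.deg v)⟩

theorem star_oth (R : Hg) (t : Finset ℕ) (v : ℕ) : star (oth R t) v = oth (star R v) t :=
  filter_comm _ _ _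

theorem lvs_oth {t e : Finset ℕ} (he : e ∈ oth R t) : lvs R e ⊆ lvs (oth R t) e := fun v a => by
  obtain ⟨a1, a2⟩ := mem_lvs.1 a
  refine mem_lvs.2 ⟨a1, le_antisymm (a2 ▸ card_le_card ?_) (star_pos (mem_vs.2 ⟨e, he, a1⟩))⟩
  exact filter_subset_filter _ (filter_subset _ _)

theorem oth_union_grp (R : Hg) (t : Finset ℕ) : oth R t ∪ grp R t = R := by
  rw [union_comm]
  exact filter_union_filter_not_eq _ _

section
variable {x y : ℕ}

theorem fresh_oth {u : ℕ} (h : u ∈ fresh R) (t : Finset ℕ) : u ∉ vs (oth R t) := fun a =>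
  fresh_not h (vs_mono (filter_subset _ _) a)

theorem new_not (R : Hg) (x y : ℕ) : {x, y} ∪ fresh R ∉ oth R {x, y} := fun a =>
  (mem_filter.1 a).2 subset_union_left

theorem new_notR (R : Hg) (x y : ℕ) : {x, y} ∪ fresh R ∉ R := fun a =>
  fresh_not (mem_insert_self _ _) (mem_vs.2 ⟨_, a, mem_union_right _ (mem_insert_self _ _)⟩)

theorem star_act_in {v : ℕ} (h : v ∈ {x, y} ∪ fresh R) :
    star (act R x y) v = insert ({x, y} ∪ fresh R) (oth (star R v) {x, y}) := by
  rw [act, star, filter_insert, if_pos h, ← star, star_oth]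

theorem star_act_out {v : ℕ} (h : v ∉ {x, y} ∪ fresh R) :
    star (act R x y) v = oth (star R v) {x, y} := by
  rw [act, star, filter_insert, if_neg h, ← star, star_oth]

theorem star_fresh {u : ℕ} (h : u ∈ fresh R) : (star (act R x y) u).card = 1 := by
  rw [star_act_in (mem_union_right _ h), ← star_oth, star, filter_false_of_mem fun e he a =>
    fresh_oth h _ (mem_vs.2 ⟨e, he, a⟩)]
  rfl

theorem HP.disj (h : HP R x y) (hR : Cls R) : Disjoint (fresh R) ({x, y} ∪ vs (oth R {x, y})) :=
  disjoint_left.2 fun u a b => by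
    have h1 := mem_vs_of_star (one_le_two.trans (h.deg hR))
    have h2 := mem_vs_of_star (one_le_two.trans (h.symm.deg hR))
    simp only [mem_union, mem_insert, mem_singleton] at b
    rcases b with (rfl | rfl) | b
    exacts [fresh_not a h1, fresh_not a h2, fresh_oth a _ b]

theorem HP.cls (h : HP R x y) (hR : Cls R) : Cls (act R x y) := by
  have d := (disjoint_union_right.1 (h.disj hR)).1
  refine ⟨fun e he => (mem_insert.1 he).elim (fun a => by
    rw [a, card_union_of_disjoint d.symm, fresh_card, card_pair h.1])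
    ((cls_oth hR _).unif e), fun v => ?_⟩
  change (star (act R x y) v).card ≤ 4
  by_cases a : v ∈ fresh R
  · rw [star_fresh a]
    omega
  by_cases b : v ∈ ({x, y} : Finset ℕ)
  · have h1 := (Step.card_in (R := R) b).1
    have h2 := h.two hR
    have h3 : (star R v).card ≤ 4 := hR.deg v
    rw [star_act_in (mem_union_left _ b)]
    refine (card_insert_le _ _).trans ?_
    unfold oth
    omega
  · rw [star_act_out (by simp only [mem_union]; tauto)]
    exact (card_le_card (filter_subset _ _)).trans (hR.deg v)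

theorem HP.card_lt (h : HP R x y) (hR : Cls R) : (act R x y).card < R.card := by
  have h1 := card_filter_add_card_filter_not (s := R) fun e => {x, y} ⊆ e
  have h2 := h.two hR
  rw [act, card_insert_of_notMem (new_not R x y)]
  unfold grp at h2
  unfold oth
  omega

theorem good_move (h : Par1 P lp γ β) (hR : Cls R)
    (ih : Good (oth R {x, x}) (pr P lp (oth R {x, x}))) : Good R (ev P lp γ β R x x) := by
  have e : oth R {x, x} = res R {x} := by simp [oth, res]
  have h1 := good_rest (R := R) h (cls_oth hR _) ih fun e he _ => lvs_oth he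
  rw [e] at h1
  refine h1.buy.mono fun v _ => le_of_eq ?_
  by_cases a : v = x <;> simp [ev, nxt, a, ← e]

theorem good_active (h : Par1 P lp γ β) (hR : Cls R) (hp : HP R x y)
    (ih : Good (act R x y) (pr P lp (act R x y))) : Good R (ev P lp γ β R x y) := by
  have d := hp.disj hR
  have dx := hp.deg hR
  have dy := hp.symm.deg hR
  have h1 := good_rest (R := R) h (hp.cls hR) ih fun e he a v c => by
    have b := (mem_insert.1 he).resolve_left fun b => new_notR R x y (b ▸ a)
    obtain ⟨c1, c2⟩ := mem_lvs.1 c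
    refine mem_lvs.2 ⟨c1, ?_⟩
    rw [star_act_out, ← star_oth]
    · exact (mem_lvs.1 (lvs_oth b c)).2
    · simp only [mem_union, mem_insert, mem_singleton]
      rintro ((rfl | rfl) | a1)
      exacts [by omega, by omega, fresh_not a1 (mem_vs_of_star c2.ge)]
  have hn : {x, y} ∪ fresh R ∈ act R x y := mem_insert_self _ _
  have q : ∀ v ∈ {x, y} ∪ fresh R, rest P lp γ β R (act R x y) v =
      if (star (act R x y) v).card = 1 then lp (lvs (act R x y) ({x, y} ∪ fresh R)).card
      else P (act R x y) (star (act R x y) v) := fun v a => by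
    rw [rest, if_neg fun b => new_notR R x y (by simpa only [star_one b.1 hn a, vs_single] using b.2)]
    split_ifs with b
    exacts [price_leaf hn (mem_lvs.2 ⟨a, b⟩), price_star b]
  have m : (lvs (act R x y) ({x, y} ∪ fresh R)).card = (if (star (act R x y) x).card = 1 then 1
      else 0) + (if (star (act R x y) y).card = 1 then 1 else 0) + 2 := by
    rw [lvs, filter_union, filter_true_of_mem fun u a => star_fresh a, card_union_of_disjoint
      (disjoint_of_subset_left (filter_subset _ _) (disjoint_union_right.1 d).1.symm), fresh_card,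
      card_filter, sum_pair hp.1]
  have qx := q x (by simp)
  have qy := q y (by simp)
  have ex : ev P lp γ β R x y x = _ := (if_pos rfl).trans (if_neg hp.1.symm)
  have ey : ev P lp γ β R x y y = _ := (if_neg hp.1.symm).trans (if_pos rfl)
  have l2 := h.lp0 2
  have l3 := h.lp0 3
  have l4 := h.lp0 4
  have := good_act (G := grp R {x, y}) (p := ev P lp γ β R x y) h1 d (insert_nonempty _ _)
    (fun g a => (mem_filter.1 a).2) (fun v a => ?_) ?_ (fun v a => ?_) fun v _ a => ?_
  · rwa [oth_union_grp] at this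
  · obtain ⟨e, he⟩ := card_pos.1 (zero_lt_two.trans_le (hp.two hR))
    exact mem_vs.2 ⟨e, he, (mem_filter.1 he).2 a⟩
  · rw [sum_pair hp.1, qx, qy, ex, ey, sum_congr rfl fun v a => by
      rw [q v (mem_union_right _ a), if_pos (star_fresh a)], sum_const, fresh_card, m]
    split_ifs <;> norm_num <;> linarith [h.l3, h.l4, h.l23]
  · by_cases b : v = x
    · rw [b, qx, ex, m]
      split_ifs <;> norm_num <;> linarith [h.l34]
    by_cases c : v = y
    · rw [c, qy, ey, m]
      split_ifs <;> norm_num <;> linarith [h.l3, h.l4]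
    · rw [ev, if_neg b, if_neg c, if_pos (by simpa [b, c] using a), nxt, if_neg hp.1.symm]
  · simp only [mem_union, mem_insert, mem_singleton, not_or] at a
    rw [ev, if_neg a.1.1, if_neg a.1.2, if_neg a.2]

end

theorem actor_deg (hR : Cls R) {x : ℕ} (hx : x ∈ actors R) :
    2 ≤ (star R x).card ∧ 2 ≤ (star R (pt R x)).card ∧ (pt R x ≠ x → HP R x (pt R x)) := by
  obtain ⟨y, hy⟩ := (mem_filter.1 hx).2
  have a := ((mem_ptn hR).1 hy).deg hR
  rcases pt_cases R x with b | b
  · exact ⟨a, b.2.symm ▸ a, fun c => absurd b.2 c⟩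
  · have c := (mem_ptn hR).1 (b ▸ mem_singleton_self _ : pt R x ∈ ptn R x)
    exact ⟨a, c.symm.deg hR, fun _ => c⟩

/-- The row of every vertex of degree at least two. -/
def Rows (P : Hg → Hg → ℝ) (lp : ℕ → ℝ) (γ β : ℝ) : Prop := ∀ R, Cls R → ∀ v, 2 ≤ (star R v).card →
  ∑ x ∈ actors R, (ev P lp γ β R x (pt R x) v - P R (star R v)) ≤ 0

theorem t1 (h : Par1 P lp γ β) (hr : Rows P lp γ β)
    (h0 : ∀ R, Cls R → NoH6 R → Good R (pr P lp R)) (R : Hg) (hR : Cls R) :
    Good R (pr P lp R) := by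
  induction hn : R.card using Nat.strong_induction_on generalizing R with
  | _ n ih =>
    by_cases a : NoH6 R
    · exact h0 R hR a
    simp only [NoH6, not_forall, not_not] at a
    obtain ⟨e, he, f, hf, h2, h3⟩ := a
    obtain ⟨x, y, h4, h5⟩ := card_eq_two.1 h2
    have hp : HP R x y := ⟨h4, e, he, f, hf, h5, h3⟩
    have hx : x ∈ actors R := mem_filter.2 ⟨mem_vs_of_star (one_le_two.trans (hp.deg hR)), y,
      (mem_ptn hR).2 hp⟩
    refine good_avg (actors R) (fun _ => 1) (fun x => ev P lp γ β R x (pt R x)) _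
      (fun _ _ => zero_le_one) (by simpa using ⟨x, hx⟩) (fun x hx _ => ?_) fun v hv => ?_
    · obtain ⟨a1, -, a3⟩ := actor_deg hR hx
      by_cases b : pt R x = x
      · rw [b]
        refine good_move h hR (ih _ (hn ▸ card_lt_card (filter_ssubset.2 ?_)) _ (cls_oth hR _) rfl)
        obtain ⟨g, hg⟩ := card_pos.1 (zero_lt_two.trans_le a1)
        exact ⟨g, (mem_star.1 hg).1, by simpa using (mem_star.1 hg).2⟩
      · exact good_active h hR (a3 b) (ih _ (hn ▸ (a3 b).card_lt hR) _ ((a3 b).cls hR) rfl)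
    · simp only [one_mul, sum_mul]
      rcases (star_pos hv).eq_or_lt with b | b
      · refine sum_le_sum fun x hx => ?_
        obtain ⟨a1, a2, a3⟩ := actor_deg hR hx
        have c1 : v ≠ x := fun c => by rw [← c] at a1; omega
        have c2 : v ≠ pt R x := fun c => by rw [← c] at a2; omega
        rw [ev, if_neg c1, if_neg c2]
        split_ifs with c
        · obtain ⟨g, g1, g2⟩ := mem_vs.1 c
          have c3 : star (nxt R x (pt R x)) v = {g} := by
            have : star (nxt R x (pt R x)) v = star (oth R {x, pt R x}) v := by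
              unfold nxt
              split_ifs
              · rfl
              · rw [star_act_out, star_oth]
                simpa [c1, c2] using fun d => fresh_not d hv
            exact this ▸ star_one (mem_lvs.1 (lvs_oth g1 (mem_lvs.2 ⟨g2, b.symm⟩))).2 g1 g2
          rw [rest, c3, vs_single, if_pos ⟨rfl, (mem_filter.1 g1).1⟩,
            if_pos ⟨v, mem_lvs.2 ⟨g2, b.symm⟩⟩, if_pos b.symm]
        · exact pr_nonneg h _ _
      · have := hr R hR v b
        rw [sum_sub_distrib, sub_nonpos] at this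
        rwa [pr, price_star b.ne']

end Pool.Agent.P.MP_b2082d_co.Gen
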