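import Pool.Agent.P.MP_b2082d_co.G.T1a
import Pool.Agent.P.MP_b2082d_co.G.Code

/-! What a vertex pays when it becomes a leaf, and the partners that are visible in a star. -/

namespace Pool.Agent.P.MP_b2082d_co.Gen
open Finset

variable {P : Hg → Hg → ℝ} {lp : ℕ → ℝ} {γ β : ℝ} {R : Hg}

theorem flag.swap {e f : Finset ℕ} (h : flag R e f) : flag R f e :=
  ⟨h.1.symm, inter_comm e f ▸ h.2.1, union_comm (e \ f) _ ▸ h.2.2⟩

theorem flag.no_leaf {e f : Finset ℕ} (h : flag R e f) (he : e ∈ R) (hf : f ∈ R) :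
    ¬ (lvs R e).Nonempty := fun ⟨u, a⟩ => by
  obtain ⟨a1, a2⟩ := mem_lvs.1 a
  by_cases b : u ∈ f
  · exact h.1 (deg_one a2 he hf a1 b)
  · obtain ⟨z, hz⟩ := card_pos.1 (h.2.1 ▸ zero_lt_two : 0 < (e ∩ f).card)
    have c := deg_one a2 he h.2.2 a1 (by simp [a1, b])
    rw [mem_inter] at hz
    have d := c ▸ hz.1
    simp [hz.1, hz.2] at d

/-- the two points of `e` outside `f` are partners. -/
theorem flag.hp {e f : Finset ℕ} (h : flag R e f) (hR : Cls R) (he : e ∈ R) (hf : f ∈ R) {u : ℕ}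
    (h1 : u ∈ e) (h2 : u ∉ f) : ∃ z, HP R u z ∧ z ∈ e ∧ z ∉ f := by
  have a := card_sdiff_add_card_inter e f
  rw [h.2.1, hR.unif e he] at a
  obtain ⟨z, z1, z2⟩ := exists_mem_ne (s := e \ f) (by omega) u
  have b : e \ f = {u, z} := (eq_of_subset_of_card_le (by
    simp [insert_subset_iff, h1, h2, mem_sdiff.1 z1]) (by rw [card_pair z2.symm]; omega)).symm
  refine ⟨z, ⟨z2.symm, e, he, _, h.2.2, ?_, ?_⟩, mem_sdiff.1 z1⟩
  · rw [← b]
    ext w
    simp only [mem_inter, mem_union, mem_sdiff]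
    tauto
  · convert hf using 1
    ext w
    simp only [mem_union, mem_sdiff]
    tauto

theorem flag.hp' {e f : Finset ℕ} (h : flag R e f) (he : e ∈ R) (hf : f ∈ R) {u v : ℕ}
    (h0 : v ≠ u) (h1 : v ∈ e ∩ f) (h2 : u ∈ e ∩ f) : e ∩ f = {v, u} ∧ HP R v u := by
  have b : e ∩ f = {v, u} := (eq_of_subset_of_card_le (insert_subset h1 (by simpa using h2))
    (by rw [card_pair h0, h.2.1])).symm
  exact ⟨b, h0, e, he, f, hf, b, h.2.2⟩

theorem HP.flag {u v : ℕ} (h : HP R v u) (hR : Cls R) :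
    ∃ e ∈ star R v, ∃ f ∈ star R v, u ∈ e ∧ u ∈ f ∧ flag R e f := by
  obtain ⟨h1, e, he, f, hf, h2, h3⟩ := h
  have a : ∀ w ∈ ({v, u} : Finset ℕ), w ∈ e ∧ w ∈ f := fun w b => mem_inter.1 (h2 ▸ b)
  have c : (e ∩ f).card = 2 := by rw [h2, card_pair h1]
  refine ⟨e, mem_star.2 ⟨he, (a v (by simp)).1⟩, f, mem_star.2 ⟨hf, (a v (by simp)).2⟩,
    (a u (by simp)).1, (a u (by simp)).2, fun b => ?_, c, h3⟩
  rw [b, inter_self, hR.unif f hf] at c
  omega

/-- Three vertices of `h` keep only `h`; if one of them sees a surviving third edge, one of them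
is special. -/
theorem three (hR : Cls R) {Y N h e f : Finset ℕ} {x v : ℕ} (hx : x ∈ Y) (h1 : N ⊆ h)
    (h2 : N.card = 3) (h3 : v ∈ N) (h4 : x ∉ N) (h5 : ∀ u ∈ N, oth (star R u) Y = {h})
    (he : e ∈ star R v) (hf : f ∈ star R v) (hg : flag R e f) (h6 : ¬ Y ⊆ e \ f ∪ f \ e) :
    ∃ u ∈ N, sp R u := by
  by_contra hs
  simp only [sp, not_exists, not_and, not_or, not_not, not_le] at hs
  have k : ∀ u ∈ N, ∀ d ∈ R, u ∈ d → d ≠ h → Y ⊆ d := fun u a d b c d1 => by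
    by_contra d2
    exact d1 (mem_singleton.1 (h5 u a ▸ mem_filter.2 ⟨mem_star.2 ⟨b, c⟩, d2⟩))
  rw [mem_star] at he hf
  have k1 : ∀ u ∈ N, u ∈ e ↔ u ∈ f := fun u a => by
    by_contra b
    refine h6 (k u a _ hg.2.2 (by simp only [mem_union, mem_sdiff]; tauto) fun c => ?_)
    have d := c ▸ h1 h3
    simp [he.2, hf.2] at d
  have k2 : ¬ N ⊆ e ∩ f := fun a => by
    have := card_le_card a
    rw [hg.2.1] at this
    omega
  have e1 := k v h3 e he.1 he.2 (fun a => k2 fun u b =>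
    mem_inter.2 ⟨a ▸ h1 b, (k1 u b).1 (a ▸ h1 b)⟩) hx
  have e2 := k v h3 f hf.1 hf.2 (fun a => k2 fun u b =>
    mem_inter.2 ⟨(k1 u b).2 (a ▸ h1 b), a ▸ h1 b⟩) hx
  have e3 := (hg.hp' he.1 hf.1 (ne_of_mem_of_not_mem h3 h4) (mem_inter.2 ⟨he.2, hf.2⟩)
    (mem_inter.2 ⟨e1, e2⟩)).1
  have c1 : (star R x \ {e, f}).card ≤ 2 := by
    have : (star R x).card ≤ 4 := hR.deg x
    rw [card_sdiff_of_subset (by simp [insert_subset_iff, mem_star, he.1, hf.1, e1, e2]),
      card_pair hg.1]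
    omega
  have k3 : ∀ u ∈ N.erase v, (star R u).erase h = star R x \ {e, f} := fun u a => by
    obtain ⟨a1, a2⟩ := mem_erase.1 a
    have b : u ∉ e := fun b => by
      have : u ∈ ({v, x} : Finset ℕ) := e3 ▸ mem_inter.2 ⟨b, (k1 u a2).1 b⟩
      simp [a1, ne_of_mem_of_not_mem a2 h4] at this
    refine eq_of_subset_of_card_le (fun d hd => ?_) ?_
    · obtain ⟨d1, d2⟩ := mem_erase.1 hd
      rw [mem_star] at d2
      simp only [mem_sdiff, mem_star, mem_insert, mem_singleton, not_or]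
      exact ⟨⟨d2.1, k u a2 d d2.1 d2.2 d1 hx⟩, fun c => b (c ▸ d2.2),
        fun c => b ((k1 u a2).2 (c ▸ d2.2))⟩
    · have := pred_card_le_card_erase (s := star R u) (a := h)
      have := (hs u a2).1
      omega
  obtain ⟨a, b, ab, hab⟩ := card_eq_two.1 (show (N.erase v).card = 2 by
    rw [card_erase_of_mem h3, h2])
  have a1 : a ∈ N.erase v := by simp [hab]
  have b1 : b ∈ N.erase v := by simp [hab]
  obtain ⟨d, d1, d', d2, d3⟩ := one_lt_card.1 (show 1 < ((star R a).erase h).card by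
    have := pred_card_le_card_erase (s := star R a) (a := h)
    have := (hs a (mem_of_mem_erase a1)).1
    omega)
  have k4 : ∀ g ∈ (star R a).erase h, {x, a, b} ⊆ g := fun g hg => by
    have g1 := (mem_star.1 (mem_sdiff.1 (k3 a a1 ▸ hg)).1).2
    have g2 := (mem_star.1 (mem_of_mem_erase (k3 b b1 ▸ k3 a a1 ▸ hg :
      g ∈ (star R b).erase h))).2
    simp [insert_subset_iff, g1, g2, (mem_star.1 (mem_of_mem_erase hg)).2]
  have c2 := (card_le_card (subset_inter (k4 d d1) (k4 d' d2))).trans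
    ((hs a (mem_of_mem_erase a1)).2 d (mem_of_mem_erase d1) d' (mem_of_mem_erase d2) d3)
  rw [card_insert_of_notMem (by
    simp [(ne_of_mem_of_not_mem (mem_of_mem_erase a1) h4).symm,
      (ne_of_mem_of_not_mem (mem_of_mem_erase b1) h4).symm]), card_pair ab] at c2
  omega

structure Par1' (P : Hg → Hg → ℝ) (lp : ℕ → ℝ) (γ β : ℝ) : Prop extends Par1 P lp γ β where
  l1 : lp 1 ≤ β
  l2 : lp 2 ≤ β
  g4 : 1 / 4 ≤ γ

section
variable {x y v : ℕ} {h : Finset ℕ}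

theorem oth_sub_nxt (R : Hg) (x y : ℕ) : oth R {x, y} ⊆ nxt R x y := by
  unfold nxt
  split_ifs
  exacts [Subset.rfl, subset_insert _ _]

theorem mem_nxt {t : Finset ℕ} (a : t ∈ nxt R x y) : t ∈ oth R {x, y} ∨ t = {x, y} ∪ fresh R := by
  unfold nxt at a
  split_ifs at a
  exacts [Or.inl a, (mem_insert.1 a).symm]

theorem star_nxt (h1 : v ≠ x) (h2 : v ≠ y) (h3 : v ∈ vs R) :
    star (nxt R x y) v = oth (star R v) {x, y} := by
  unfold nxt
  split_ifs
  · exact star_oth _ _ _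
  · exact star_act_out (by simpa [h1, h2] using fun d => fresh_not d h3)

theorem lvs_nxt (hh : h ∈ oth R {x, y}) {u : ℕ} (hu : u ∈ lvs (nxt R x y) h) :
    u ≠ x ∧ oth (star R u) {x, y} = {h} := by
  obtain ⟨a1, a2⟩ := mem_lvs.1 hu
  have k : u ∉ ({x, y} : Finset ℕ) := fun b => by
    by_cases c : y = x
    · exact (mem_filter.1 hh).2 (by
        simp only [c, pair_eq_singleton, mem_singleton] at b
        simpa [c, ← b] using a1)
    · rw [nxt, if_neg c] at a2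
      exact new_not R x y (deg_one a2 (mem_insert_of_mem hh) (mem_insert_self _ _) a1
        (mem_union_left _ b) ▸ hh)
  simp only [mem_insert, mem_singleton, not_or] at k
  refine ⟨k.1, ?_⟩
  rw [← star_nxt k.1 k.2 (mem_vs.2 ⟨h, (mem_filter.1 hh).1, a1⟩)]
  exact star_one a2 (oth_sub_nxt R x y hh) a1

theorem rest_leaf (H : Par1' P lp γ β) (hR : Cls R) (hh : h ∈ oth R {x, y})
    (hv : v ∈ lvs (nxt R x y) h) (h2 : 2 ≤ (star R v).card) :
    rest P lp γ β R (nxt R x y) v ≤ γ ∧ ∀ g ∈ R, flag R h g →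
      rest P lp γ β R (nxt R x y) v ≤ 1 / 4 ∧ (¬ sp R v → ∀ e ∈ star R v, ∀ f ∈ star R v,
        flag R e f → ¬ {x, y} ⊆ e \ f ∪ f \ e → (h ∩ (e \ f ∪ f \ e)).Nonempty →
        rest P lp γ β R (nxt R x y) v ≤ β) := by
  have hQ := oth_sub_nxt R x y hh
  have h1 := (mem_filter.1 hh).1
  have c1 : (lvs (nxt R x y) h).card ≤ 4 := hR.unif h h1 ▸ card_le_card (filter_subset _ _)
  have c2 := card_pos.2 ⟨v, hv⟩
  have l4 : lp (lvs (nxt R x y) h).card ≤ 1 / 4 := by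
    interval_cases (lvs (nxt R x y) h).card <;> linarith [H.l1, H.l2, H.b4, H.l3, H.l4]
  rw [rest, star_one (mem_lvs.1 hv).2 hQ (mem_lvs.1 hv).1, vs_single, if_pos ⟨rfl, h1⟩,
    if_neg (show ¬ (star R v).card = 1 by omega), pr, price_leaf hQ hv]
  refine ⟨by split_ifs <;> linarith [H.g4, H.b4], fun g g1 g2 => ?_⟩
  rw [if_neg (g2.no_leaf h1 g1)]
  refine ⟨by split_ifs <;> linarith [H.b4], fun s e he f hf t1 t2 ⟨u, t3⟩ => ?_⟩
  rw [if_neg s]
  split_ifs with c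
  · exact le_rfl
  rw [mem_inter] at t3
  have c3 : (lvs (nxt R x y) h).card < 4 := hR.unif h h1 ▸ card_lt_card (filter_ssubset.2
    ⟨u, t3.1, fun a => by
      have b := deg_one a hQ (oth_sub_nxt R x y (mem_filter.2 ⟨t1.2.2, t2⟩)) t3.1 t3.2
      have d := b ▸ (mem_lvs.1 hv).1
      simp [(mem_star.1 he).2, (mem_star.1 hf).2] at d⟩)
  have c4 : (lvs (nxt R x y) h).card ≠ 3 := fun a => c ⟨a, three hR (mem_insert_self x {y})
    (filter_subset _ _) a hv (fun b => (lvs_nxt hh b).1 rfl) (fun u b => (lvs_nxt hh b).2)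
    he hf t1 t2⟩
  interval_cases (lvs (nxt R x y) h).card
  exacts [H.l1, H.l2, absurd rfl c4]

end

end Pool.Agent.P.MP_b2082d_co.Gen
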