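import Pool.Agent.P.MP_b2082d_co.G.Base

/-! The first stage: one full colour class and an independently thinned second class. -/

namespace Pool.Agent.P.MP_b2082d_co.Gen
open Finset

/-- probability of `K` when every `u ∈ U` is taken independently with probability `ρ u`. -/
def prob (ρ : ℕ → ℝ) (U K : Finset ℕ) : ℝ := (∏ u ∈ K, ρ u) * ∏ u ∈ U \ K, (1 - ρ u)

/-- expectation of `F` at the random subset of `U`. -/
def ex (ρ : ℕ → ℝ) (U : Finset ℕ) (F : Finset ℕ → ℝ) : ℝ := ∑ K ∈ U.powerset, prob ρ U K * F K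

theorem ex_empty (ρ : ℕ → ℝ) (F : Finset ℕ → ℝ) : ex ρ ∅ F = F ∅ := by simp [ex, prob]

theorem ex_insert (ρ : ℕ → ℝ) {U : Finset ℕ} {u : ℕ} (h : u ∉ U) (F : Finset ℕ → ℝ) :
    ex ρ (insert u U) F = (1 - ρ u) * ex ρ U F + ρ u * ex ρ U fun K => F (insert u K) := by
  unfold ex prob
  rw [sum_powerset_insert h, mul_sum, mul_sum]
  congr 1
  · refine sum_congr rfl fun K hK => ?_
    have a : u ∉ K := fun a => h (mem_powerset.1 hK a)
    rw [insert_sdiff_of_notMem _ a, prod_insert fun b => h (mem_sdiff.1 b).1]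
    ring
  · refine sum_congr rfl fun K hK => ?_
    have a : u ∉ K := fun a => h (mem_powerset.1 hK a)
    rw [insert_sdiff_insert, sdiff_insert_of_notMem h, prod_insert a]
    ring

theorem ex_const (ρ : ℕ → ℝ) (U : Finset ℕ) (c : ℝ) : ex ρ U (fun _ => c) = c := by
  induction U using Finset.induction_on with
  | empty => exact ex_empty _ _
  | insert u U h ih => rw [ex_insert ρ h, ih]; ring

/-- only the coordinates on which `F` depends matter. -/
theorem ex_inter (ρ : ℕ → ℝ) (U M : Finset ℕ) (F : Finset ℕ → ℝ) (hF : ∀ K, F K = F (K ∩ M)) :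
    ex ρ U F = ex ρ (U ∩ M) F := by
  induction U using Finset.induction_on generalizing F with
  | empty => simp
  | insert u U h ih =>
    rw [ex_insert ρ h]
    by_cases a : u ∈ M
    · rw [insert_inter_of_mem a, ex_insert ρ fun b => h (mem_inter.1 b).1, ih F hF,
        ih (fun K => F (insert u K)) fun K => by
          rw [hF (insert u K), hF (insert u (K ∩ M)), insert_inter_of_mem a, insert_inter_of_mem a,
            inter_assoc, inter_self]]
    · rw [insert_inter_of_notMem a, show (fun K => F (insert u K)) = F from funext fun K => by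
        rw [hF (insert u K), insert_inter_of_notMem a, ← hF], ih F hF]
      ring

theorem prob_nonneg {ρ : ℕ → ℝ} (h0 : ∀ u, 0 ≤ ρ u) (h1 : ∀ u, ρ u ≤ 1) (U K : Finset ℕ) :
    0 ≤ prob ρ U K :=
  mul_nonneg (prod_nonneg fun u _ => h0 u) (prod_nonneg fun u _ => sub_nonneg.2 (h1 u))

theorem ex_mono {ρ : ℕ → ℝ} (h0 : ∀ u, 0 ≤ ρ u) (h1 : ∀ u, ρ u ≤ 1) {U : Finset ℕ}
    {F G : Finset ℕ → ℝ} (h : ∀ K ⊆ U, F K ≤ G K) : ex ρ U F ≤ ex ρ U G :=
  sum_le_sum fun K hK => mul_le_mul_of_nonneg_left (h K (mem_powerset.1 hK)) (prob_nonneg h0 h1 U K)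

theorem good_ex {R : Hg} {ρ : ℕ → ℝ} (h0 : ∀ u, 0 ≤ ρ u) (h1 : ∀ u, ρ u ≤ 1) (U : Finset ℕ)
    (c : Finset ℕ → ℕ → ℝ) (h : ∀ K ⊆ U, Good R (c K)) : Good R fun v => ex ρ U fun K => c K v := by
  have a : ∑ K ∈ U.powerset, prob ρ U K = 1 := by simpa [ex] using ex_const ρ U 1
  exact good_avg U.powerset (prob ρ U) c _ (fun K _ => prob_nonneg h0 h1 U K) (a ▸ one_pos)
    (fun K hK _ => h K (mem_powerset.1 hK)) fun v _ => by rw [a, one_mul]; exact le_rfl

/-- the closed neighbourhood of `v`. -/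
def ball (R : Hg) (v : ℕ) : Finset ℕ := vs (R.filter fun e => v ∈ e)

/-- `c X v` bounds the cost of `v` after buying `X` and depends only on the part of `X` near `v`. -/
theorem good_stage {R : Hg} {n : ℕ} (hn : 2 ≤ n) (χ : ℕ → Fin n) (ρ : Fin n → ℕ → ℝ)
    (h0 : ∀ a u, 0 ≤ ρ a u) (h1 : ∀ a u, ρ a u ≤ 1) (c : Finset ℕ → ℕ → ℝ)
    (hc : ∀ X, Good R (c X)) (hl : ∀ X v, c X v = c (X ∩ ball R v) v) {l : ℝ}
    (hr : ∀ v ∈ vs R, ∑ p ∈ (univ : Finset (Fin n)).offDiag,
      ex (ρ p.1) ((ball R v).filter fun u => χ u = p.2)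
        (fun K => c (((ball R v).filter fun u => χ u = p.1) ∪ K) v) ≤ (n * n - n) * l) :
    Good R fun _ => l := by
  have a : ∑ _p ∈ (univ : Finset (Fin n)).offDiag, (1 : ℝ) = n * n - n := by
    rw [sum_const, offDiag_card, card_univ, Fintype.card_fin, nsmul_eq_mul, mul_one,
      Nat.cast_sub (Nat.le_mul_self n), Nat.cast_mul]
  have b : (2 : ℝ) ≤ n := by exact_mod_cast hn
  refine good_avg (univ : Finset (Fin n)).offDiag (fun _ => 1) (fun p v =>
    ex (ρ p.1) ((vs R).filter fun u => χ u = p.2)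
      fun K => c (((vs R).filter fun u => χ u = p.1) ∪ K) v) _ (fun _ _ => zero_le_one)
    (by rw [a]; nlinarith) (fun p _ _ => good_ex (h0 _) (h1 _) _ _ fun K _ => hc _) fun v hv => ?_
  rw [a]
  refine le_trans (le_of_eq (sum_congr rfl fun p _ => ?_)) (hr v hv)
  have d : ∀ x, ((vs R).filter fun u => χ u = x) ∩ ball R v = (ball R v).filter fun u => χ u = x :=
    fun x => by
      rw [filter_inter, inter_eq_right.2 (show ball R v ⊆ vs R from vs_mono (filter_subset _ _))]
  rw [one_mul, ex_inter _ _ (ball R v) _ fun K => by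
    rw [hl, hl (_ ∪ K ∩ _), union_inter_distrib_right, union_inter_distrib_right, inter_assoc,
      inter_self], d]
  refine congrArg _ (funext fun K => ?_)
  rw [hl, hl (_ ∪ K), union_inter_distrib_right, union_inter_distrib_right, d,
    inter_eq_left.2 (filter_subset _ _)]

end Pool.Agent.P.MP_b2082d_co.Gen
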